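import Pool.Agent.Lib.MP_02a407_al.Q2.Prim

/-!
# The involution `φ ↦ φ ∘ inverse`
-/

namespace Pool.Agent.Lib.MP_02a407_al

open Module Polynomial

set_option linter.unusedSectionVars false

variable {K : Type} [Field K]

/-- The class of the inverse. -/
noncomputable def invC (C : Cls K) : Cls K := cls (cA (C : ConjClasses (GLInf K))).symm

lemma invC_cls {M : Type} [AddCommGroup M] [Module K M] [FiniteDimensional K M]
    (g : M ≃ₗ[K] M) : invC (cls g) = cls g.symm := by
  obtain ⟨e, he⟩ := cls_iso (cls_cA (cls g))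
  refine cls_congr e (fun x => ?_)
  apply g.injective
  rw [← he, LinearEquiv.apply_symm_apply, LinearEquiv.apply_symm_apply]

lemma invC_invC (C : Cls K) : invC (invC C) = C := by
  rw [← cls_cA C, invC_cls, invC_cls]
  rfl

lemma cl_invC (C : Cls K) : cl (invC C) = cl C := by
  rw [invC, cl_cls, finrank_cM']

lemma invC_zero : invC (0 : Cls K) = 0 := by
  rw [← cl_eq_zero_iff, cl_invC, cl_zero]

lemma invC_eq_zero_iff (C : Cls K) : invC C = 0 ↔ C = 0 := by
  rw [← cl_eq_zero_iff, cl_invC, cl_eq_zero_iff]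

section

variable {M : Type} [AddCommGroup M] [Module K M] [FiniteDimensional K M]

/-- The stable subspaces of `g` are those of `g⁻¹`. -/
def Stab.symm (g : M ≃ₗ[K] M) : Stab g ≃ Stab g.symm where
  toFun W := ⟨W.space, fun x => by
    rw [← W.mem_iff, LinearEquiv.apply_symm_apply]⟩
  invFun W := ⟨W.space, fun x => by
    rw [← W.mem_iff, LinearEquiv.symm_apply_apply]⟩
  left_inv _ := rfl
  right_inv _ := rfl

lemma Stab.cls_symm_sub (g : M ≃ₗ[K] M) (W : Stab g) :
    cls (Stab.symm g W).sub = invC (cls W.sub) := by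
  rw [invC_cls]
  refine cls_congr (LinearEquiv.refl K W.space) (fun x => rfl)

lemma Stab.cls_symm_quo (g : M ≃ₗ[K] M) (W : Stab g) :
    cls (Stab.symm g W).quo = invC (cls W.quo) := by
  rw [invC_cls]
  refine cls_congr (LinearEquiv.refl K (M ⧸ W.space)) (fun x => ?_)
  obtain ⟨y, rfl⟩ := Submodule.Quotient.mk_surjective _ x
  apply W.quo.injective
  change W.quo (Submodule.Quotient.mk (g.symm y)) = W.quo (W.quo.symm (Submodule.Quotient.mk y))
  rw [LinearEquiv.apply_symm_apply, Stab.quo_mk, LinearEquiv.apply_symm_apply]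

end

variable [Finite K] {A : Type} [CommRing A] [Algebra ℚ A]

/-- `φ ↦ φ ∘ inverse`. -/
noncomputable def Hall.inv : Hall K A →+* Hall K A where
  toFun φ := fun C => φ (invC C)
  map_zero' := rfl
  map_one' := by
    ext C
    change (1 : Hall K A) (invC C) = (1 : Hall K A) C
    by_cases h : C = 0
    · rw [h, invC_zero]
    · rw [Hall.one_of_ne h, Hall.one_of_ne (fun h' => h ((invC_eq_zero_iff C).1 h'))]
  map_add' _ _ := rfl
  map_mul' φ ψ := by
    ext C
    change (φ * ψ) (invC C) = _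
    rw [invC, Hall.mul_cls, Hall.mul_apply, ssum]
    symm
    refine Fintype.sum_equiv (Stab.symm _) _ _ (fun W => ?_)
    rw [Stab.cls_symm_sub, Stab.cls_symm_quo]

@[simp] lemma Hall.inv_apply (φ : Hall K A) (C : Cls K) : Hall.inv φ C = φ (invC C) := rfl

lemma Hall.inv_inv (φ : Hall K A) : Hall.inv (Hall.inv φ) = φ := by
  ext C; rw [Hall.inv_apply, Hall.inv_apply, invC_invC]

lemma res_inv (φ : Hall K A) (C D : Cls K) :
    res (Hall.inv φ) C D = res φ (invC C) (invC D) := by
  have h1 := res_cls (Hall.inv φ) (cA (C : ConjClasses (GLInf K)))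
    (cA (D : ConjClasses (GLInf K)))
  have h2 := res_cls φ (cA (C : ConjClasses (GLInf K))).symm
    (cA (D : ConjClasses (GLInf K))).symm
  rw [← invC_cls, ← invC_cls, cls_cA, cls_cA] at h2
  rw [cls_cA, cls_cA] at h1
  rw [h1, h2]
  congr 1
  refine Fintype.sum_equiv ((LinearEquiv.arrowCongr (cA (D : ConjClasses (GLInf K)))
    (cA (C : ConjClasses (GLInf K))).symm).trans (LinearEquiv.neg K)).toEquiv _ _ (fun X => ?_)
  rw [Hall.inv_apply, invC_cls]
  congr 2
  ext p
  · change (cA (C : ConjClasses (GLInf K))).symm (_ - X _) = (cA (C : ConjClasses (GLInf K))).symm _ +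
      -((cA (C : ConjClasses (GLInf K))).symm (X ((cA (D : ConjClasses (GLInf K))).symm _)))
    rw [map_sub, sub_eq_add_neg]
  · rfl

lemma IsPrim.inv {φ : Hall K A} (h : IsPrim φ) : IsPrim (Hall.inv φ) :=
  ⟨by rw [Hall.inv_apply, invC_zero, h.1], fun C D hC hD => by
    rw [res_inv]
    exact h.2 _ _ (fun h' => hC ((invC_eq_zero_iff C).1 h'))
      (fun h' => hD ((invC_eq_zero_iff D).1 h'))⟩

lemma dg_inv (φ : Hall K A) : dg (Hall.inv φ) = Hall.inv (dg φ) := by
  ext C
  rw [dg_apply, Hall.inv_apply, Hall.inv_apply, dg_apply, cl_invC]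

lemma inv_hexp {P : Hall K A} (hP : P 0 = 0) : Hall.inv (hexp P) = hexp (Hall.inv P) := by
  apply hexp_eq
  · rw [Hall.inv_apply, invC_zero, hP]
  · rw [Hall.inv_apply, invC_zero, hexp_zero]
  · rw [dg_inv, dg_hexp hP, map_mul]

lemma cz_invC (C : Cls K) : cz (invC C) = cz C := by
  have h1 : cls (cA (invC C : ConjClasses (GLInf K))) = cls (cA (C : ConjClasses (GLInf K))).symm := by
    rw [cls_cA, invC]
  obtain ⟨e, he⟩ := cls_iso h1
  rw [cz, cz, cent_iso e he]
  congr 1
  apply Nat.card_congr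
  refine Equiv.subtypeEquivRight fun u => ?_
  constructor
  · intro h x
    have h2 := h (cA (C : ConjClasses (GLInf K)) x)
    rw [LinearEquiv.symm_apply_apply] at h2
    rw [h2, LinearEquiv.apply_symm_apply]
  · intro h x
    have h2 := h ((cA (C : ConjClasses (GLInf K))).symm x)
    rw [LinearEquiv.apply_symm_apply] at h2
    rw [h2, LinearEquiv.symm_apply_apply]

lemma integ_inv (m : ℕ) (φ : Cls K → A) : integ m (fun C => φ (invC C)) = integ m φ := by
  rw [integ, integ]
  refine Finset.sum_nbij' invC invC ?_ ?_ ?_ ?_ ?_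
  · intro C hC
    rw [mem_degCls] at *
    rw [cl_invC, hC]
  · intro C hC
    rw [mem_degCls] at *
    rw [cl_invC, hC]
  · intro C _; exact invC_invC C
  · intro C _; exact invC_invC C
  · intro C _
    rw [cz_invC]

lemma PIdx.coeff_zero_ne (f : PIdx K) : f.f.coeff 0 ≠ 0 := by
  intro h
  rw [← X_dvd_iff] at h
  have h1 : Associated (X : K[X]) f.f := (irreducible_X.dvd_irreducible_iff_associated f.irred).1 h
  exact f.ne_X (eq_of_monic_of_associated monic_X f.monic h1).symm

private lemma natTrailingDegree_of_coeff_zero {g : K[X]} (h : g.coeff 0 ≠ 0) :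
    g.natTrailingDegree = 0 := by
  rw [natTrailingDegree_eq_zero]
  exact Or.inr h

private lemma natDegree_reverse_of_coeff_zero {g : K[X]} (h : g.coeff 0 ≠ 0) :
    g.reverse.natDegree = g.natDegree := by
  rw [reverse_natDegree, natTrailingDegree_of_coeff_zero h, Nat.sub_zero]

private lemma reverse_reverse_of_coeff_zero {g : K[X]} (h : g.coeff 0 ≠ 0) :
    g.reverse.reverse = g := by
  ext n
  rw [coeff_reverse, coeff_reverse, natDegree_reverse_of_coeff_zero h, revAt_invol]

private lemma irreducible_reverse {g : K[X]} (hg : Irreducible g) (h : g.coeff 0 ≠ 0) :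
    Irreducible g.reverse := by
  refine ⟨?_, ?_⟩
  · intro hu
    apply hg.not_isUnit
    rw [isUnit_iff_degree_eq_zero] at hu ⊢
    have h1 : g.natDegree = 0 := by
      rw [← natDegree_reverse_of_coeff_zero h]
      exact natDegree_eq_of_degree_eq_some hu
    rw [degree_eq_natDegree hg.ne_zero, h1]
    rfl
  · intro p q hpq
    have h1 : (p * q).coeff 0 ≠ 0 := by
      rw [← hpq, coeff_zero_reverse, leadingCoeff_ne_zero]
      exact hg.ne_zero
    rw [mul_coeff_zero] at h1
    have hp0 := left_ne_zero_of_mul h1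
    have hq0 := right_ne_zero_of_mul h1
    have h2 : g = p.reverse * q.reverse := by
      rw [← reverse_mul_of_domain, ← hpq, reverse_reverse_of_coeff_zero h]
    have key : ∀ p : K[X], p.coeff 0 ≠ 0 → IsUnit p.reverse → IsUnit p := by
      intro p hp hu
      rw [isUnit_iff_degree_eq_zero] at hu ⊢
      have h1 : p.natDegree = 0 := by
        rw [← natDegree_reverse_of_coeff_zero hp]
        exact natDegree_eq_of_degree_eq_some hu
      have hp1 : p ≠ 0 := by
        rintro rfl
        exact hp (coeff_zero 0)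
      rw [degree_eq_natDegree hp1, h1]
      rfl
    rcases hg.isUnit_or_isUnit h2 with h3 | h3
    · exact Or.inl (key p hp0 h3)
    · exact Or.inr (key q hq0 h3)

/-- The dual polynomial. -/
noncomputable def PIdx.dual (f : PIdx K) : PIdx K where
  f := C (f.f.coeff 0)⁻¹ * f.f.reverse
  monic := by
    rw [Monic, leadingCoeff_mul, leadingCoeff_C, reverse_leadingCoeff, trailingCoeff,
      natTrailingDegree_of_coeff_zero f.coeff_zero_ne, inv_mul_cancel₀ f.coeff_zero_ne]
  irred := by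
    rw [irreducible_isUnit_mul (isUnit_C.2 (isUnit_iff_ne_zero.2 (inv_ne_zero f.coeff_zero_ne)))]
    exact irreducible_reverse f.irred f.coeff_zero_ne
  ne_X := by
    intro h
    have h1 := congrArg (fun p : K[X] => p.coeff 0) h
    simp only [mul_coeff_zero, coeff_C_zero, coeff_zero_reverse, f.monic.leadingCoeff, mul_one,
      coeff_X_zero] at h1
    exact inv_ne_zero f.coeff_zero_ne h1

lemma PIdx.deg_dual (f : PIdx K) : f.dual.deg = f.deg := by
  change (C (f.f.coeff 0)⁻¹ * f.f.reverse).natDegree = f.f.natDegree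
  rw [natDegree_C_mul (inv_ne_zero f.coeff_zero_ne), natDegree_reverse_of_coeff_zero f.coeff_zero_ne]

lemma PIdx.aeval_inv_eq (f : PIdx K) {R : Type} [CommRing R] [Algebra K R] (u : Rˣ) :
    aeval ((u⁻¹ : Rˣ) : R) f.f =
      algebraMap K R (f.f.coeff 0) * (aeval (u : R) f.dual.f * ((u⁻¹ : Rˣ) : R) ^ f.f.natDegree) := by
  let : Invertible ((u⁻¹ : Rˣ) : R) := ⟨(u : R), Units.mul_inv u, Units.inv_mul u⟩
  have h1 := eval₂_reverse_mul_pow (algebraMap K R) ((u⁻¹ : Rˣ) : R) f.f
  have h2 : (⅟((u⁻¹ : Rˣ) : R)) = (u : R) := rfl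
  rw [h2] at h1
  rw [aeval_def, ← h1]
  change _ = algebraMap K R (f.f.coeff 0) * (aeval (u : R) (C (f.f.coeff 0)⁻¹ * f.f.reverse) * _)
  rw [map_mul, aeval_C, ← mul_assoc, ← mul_assoc, ← map_mul, mul_inv_cancel₀ f.coeff_zero_ne,
    map_one, one_mul, aeval_def]

/-- The dual polynomial: the monic polynomial whose roots are the inverses. -/
theorem exists_dual (f : PIdx K) : ∃ f' : PIdx K, f'.deg = f.deg ∧
    (∀ r, invC (f.cyc r) = f'.cyc r) ∧
    ∀ (F : Type) [Field F] [Algebra K F] (α : F), α ≠ 0 →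
      (aeval α f'.f = 0 ↔ aeval α⁻¹ f.f = 0) := by
  refine ⟨f.dual, f.deg_dual, ?_, ?_⟩
  · intro r
    obtain ⟨u, hu⟩ := isUnit_root (f.coprime_X_pow r)
    obtain ⟨u', hu'⟩ := isUnit_root (f.dual.coprime_X_pow r)
    have h1 : aeval ((u⁻¹ : (AdjoinRoot (f.f ^ r))ˣ) : AdjoinRoot (f.f ^ r)) (f.dual.f ^ r) = 0 := by
      have h2 := f.aeval_inv_eq (u⁻¹)
      rw [inv_inv, hu] at h2
      have h3 : (aeval (AdjoinRoot.root (f.f ^ r)) f.f) ^ r = 0 := by
        rw [← map_pow, AdjoinRoot.aeval_eq, AdjoinRoot.mk_self]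
      rw [h2, mul_pow, mul_pow, ← map_pow] at h3
      have hc : IsUnit (algebraMap K (AdjoinRoot (f.f ^ r)) (f.f.coeff 0) ^ r) :=
        ((isUnit_iff_ne_zero.2 f.coeff_zero_ne).map _).pow r
      have hr : IsUnit ((AdjoinRoot.root (f.f ^ r) ^ f.f.natDegree) ^ r) :=
        ((isUnit_root (f.coprime_X_pow r)).pow _).pow r
      rw [map_pow, hc.mul_right_eq_zero, hr.mul_left_eq_zero] at h3
      rw [map_pow]
      exact h3
    have h1' : aeval ((u'⁻¹ : (AdjoinRoot (f.dual.f ^ r))ˣ) : AdjoinRoot (f.dual.f ^ r))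
        (f.f ^ r) = 0 := by
      rw [map_pow, f.aeval_inv_eq u', mul_pow, mul_pow, ← map_pow (aeval _), hu', AdjoinRoot.aeval_eq,
        AdjoinRoot.mk_self, zero_mul, mul_zero]
    let φ : AdjoinRoot (f.dual.f ^ r) →ₐ[K] AdjoinRoot (f.f ^ r) :=
      AdjoinRoot.liftAlgHom (f.dual.f ^ r) (Algebra.ofId K _) _ h1
    let ψ : AdjoinRoot (f.f ^ r) →ₐ[K] AdjoinRoot (f.dual.f ^ r) :=
      AdjoinRoot.liftAlgHom (f.f ^ r) (Algebra.ofId K _) _ h1'
    have hφ : φ (AdjoinRoot.root _) = ((u⁻¹ : (AdjoinRoot (f.f ^ r))ˣ) : AdjoinRoot (f.f ^ r)) :=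
      AdjoinRoot.lift_root h1
    have hψ : ψ (AdjoinRoot.root _) =
        ((u'⁻¹ : (AdjoinRoot (f.dual.f ^ r))ˣ) : AdjoinRoot (f.dual.f ^ r)) :=
      AdjoinRoot.lift_root h1'
    have hφu : Units.map (φ : _ →* AdjoinRoot (f.f ^ r)) u' = u⁻¹ := by
      apply Units.ext
      change φ (u' : AdjoinRoot (f.dual.f ^ r)) = _
      rw [hu', hφ]
    have hψu : Units.map (ψ : _ →* AdjoinRoot (f.dual.f ^ r)) u = u'⁻¹ := by
      apply Units.ext
      change ψ (u : AdjoinRoot (f.f ^ r)) = _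
      rw [hu, hψ]
    let e : AdjoinRoot (f.dual.f ^ r) ≃ₐ[K] AdjoinRoot (f.f ^ r) :=
      AlgEquiv.ofAlgHom φ ψ (by
        apply AdjoinRoot.algHom_ext
        change φ (ψ (AdjoinRoot.root _)) = AdjoinRoot.root _
        rw [hψ]
        have h2 := congrArg (fun v : (AdjoinRoot (f.f ^ r))ˣ =>
          ((v⁻¹ : (AdjoinRoot (f.f ^ r))ˣ) : AdjoinRoot (f.f ^ r))) hφu
        simp only [← map_inv, inv_inv] at h2
        exact h2.trans hu) (by
        apply AdjoinRoot.algHom_ext
        change ψ (φ (AdjoinRoot.root _)) = AdjoinRoot.root _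
        rw [hφ]
        have h2 := congrArg (fun v : (AdjoinRoot (f.dual.f ^ r))ˣ =>
          ((v⁻¹ : (AdjoinRoot (f.dual.f ^ r))ˣ) : AdjoinRoot (f.dual.f ^ r))) hψu
        simp only [← map_inv, inv_inv] at h2
        exact h2.trans hu')
    rw [PIdx.cyc, PIdx.cyc, invC_cls]
    symm
    refine cls_congr e.toLinearEquiv (fun x => ?_)
    apply (rootAut (f.f ^ r) (f.coprime_X_pow r)).injective
    rw [LinearEquiv.apply_symm_apply, rootAut_apply, rootAut_apply]
    change AdjoinRoot.root (f.f ^ r) * φ (AdjoinRoot.root (f.dual.f ^ r) * x) = φ x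
    rw [map_mul, hφ, ← mul_assoc, ← hu, Units.mul_inv, one_mul]
  · intro F _ _ α hα
    have h1 := f.aeval_inv_eq (Units.mk0 α hα)
    have h2 : (((Units.mk0 α hα)⁻¹ : Fˣ) : F) = α⁻¹ := rfl
    rw [h2] at h1
    change _ = algebraMap K F (f.f.coeff 0) * (aeval α f.dual.f * _) at h1
    rw [h1, mul_eq_zero, mul_eq_zero]
    constructor
    · intro h
      exact Or.inr (Or.inl h)
    · rintro (h | h | h)
      · exact absurd ((map_eq_zero _).1 h) f.coeff_zero_ne
      · exact h
      · exact absurd (pow_eq_zero_iff f.deg_pos.ne' |>.1 h) (inv_ne_zero hα)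

end Pool.Agent.Lib.MP_02a407_al
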