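import Mathlib

section

/-!
# The Möbius function of the lattice of subspaces
-/

namespace Pool.Agent.Lib.MP_02a407_al

open Module

variable {K : Type} [Field K] [Finite K] {V : Type} [AddCommGroup V] [Module K V]
  [FiniteDimensional K V]

noncomputable instance instFintypeSubmodule : Fintype (Submodule K V) :=
  have : Finite V := Module.finite_of_finite K
  have : Finite (Submodule K V) := Finite.of_injective (fun W : Submodule K V => (W : Set V))
    SetLike.coe_injective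
  Fintype.ofFinite _

/-- The value of the Möbius function: `(-1) ^ k q ^ (k (k - 1) / 2)`. -/
noncomputable def mob (K : Type) (k : ℕ) : ℤ := (-1) ^ k * (Nat.card K : ℤ) ^ (k.choose 2)

omit [Finite K] in
private lemma exists_dual_one {G : Type} [AddCommGroup G] [Module K G] {v : G} (hv : v ≠ 0) :
    ∃ f : Dual K G, f v = 1 := by
  have h : ¬ ∀ f : Dual K G, f v = 0 := fun h => hv ((Module.forall_dual_apply_eq_zero_iff K v).1 h)
  push Not at h
  obtain ⟨f, hf⟩ := h
  exact ⟨(f v)⁻¹ • f, by rw [LinearMap.smul_apply, smul_eq_mul, inv_mul_cancel₀ hf]⟩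

omit [Finite K] in
private lemma card_functionals {G : Type} [AddCommGroup G] [Module K G] [FiniteDimensional K G]
    {v : G} (hv : v ≠ 0) :
    Nat.card {f : Dual K G // f v = 1} = Nat.card K ^ (finrank K G - 1) := by
  obtain ⟨f0, hf0⟩ := exists_dual_one (K := K) hv
  let E : Dual K G →ₗ[K] K := Dual.eval K G v
  have hE : ∀ f, E f = f v := fun f => rfl
  have hr : LinearMap.range E = ⊤ := by
    rw [LinearMap.range_eq_top]
    intro c
    exact ⟨c • f0, by rw [hE, LinearMap.smul_apply, hf0, smul_eq_mul, mul_one]⟩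
  have hk : finrank K (LinearMap.ker E) = finrank K G - 1 := by
    have h1 := E.finrank_range_add_finrank_ker
    rw [hr, finrank_top, finrank_self, Subspace.dual_finrank_eq] at h1
    omega
  have hc : Nat.card (LinearMap.ker E) = Nat.card K ^ (finrank K G - 1) := by
    rw [Module.natCard_eq_pow_finrank (K := K), hk]
  rw [← hc]
  apply Nat.card_congr
  exact
    { toFun := fun f => ⟨f.1 - f0, by rw [LinearMap.mem_ker, hE, LinearMap.sub_apply, f.2, hf0,
        sub_self]⟩
      invFun := fun f => ⟨f.1 + f0, by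
        have := f.2
        rw [LinearMap.mem_ker, hE] at this
        rw [LinearMap.add_apply, this, hf0, zero_add]⟩
      left_inv := fun f => by
        apply Subtype.ext
        simp
      right_inv := fun f => by
        apply Subtype.ext
        simp }

open Classical in
private lemma card_hyper {v : V} (hv : v ≠ 0) {G : Submodule K V} (hG : v ∈ G) :
    (Finset.univ.filter (fun W : Submodule K V => v ∉ W ∧ W ⊔ Submodule.span K {v} = G)).card =
      Nat.card K ^ (finrank K G - 1) := by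
  have hv' : (⟨v, hG⟩ : G) ≠ 0 := fun h => hv (congrArg Subtype.val h)
  rw [← card_functionals (K := K) hv', ← Fintype.card_subtype, ← Nat.card_eq_fintype_card]
  symm
  let F : {f : Dual K G // f ⟨v, hG⟩ = 1} →
      {W : Submodule K V // v ∉ W ∧ W ⊔ Submodule.span K {v} = G} := fun f =>
    ⟨(LinearMap.ker f.1).map G.subtype, by
      constructor
      · rintro ⟨x, hx, hxv⟩
        have : x = ⟨v, hG⟩ := Subtype.ext hxv
        rw [SetLike.mem_coe, LinearMap.mem_ker, this, f.2] at hx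
        exact one_ne_zero hx
      · apply le_antisymm
        · rw [sup_le_iff, Submodule.span_singleton_le_iff_mem]
          exact ⟨Submodule.map_subtype_le _ _, hG⟩
        · intro x hx
          have h1 : x = (x - f.1 ⟨x, hx⟩ • v) + f.1 ⟨x, hx⟩ • v := by abel
          rw [h1]
          refine Submodule.add_mem_sup ?_ (Submodule.smul_mem _ _
            (Submodule.mem_span_singleton_self v))
          refine ⟨⟨x, hx⟩ - f.1 ⟨x, hx⟩ • ⟨v, hG⟩, ?_, rfl⟩
          rw [SetLike.mem_coe, LinearMap.mem_ker, map_sub, map_smul, f.2, smul_eq_mul, mul_one,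
            sub_self]⟩
  refine Nat.card_congr (Equiv.ofBijective F ⟨?_, ?_⟩)
  · rintro ⟨f, hf⟩ ⟨f', hf'⟩ h
    have h1 : (LinearMap.ker f).map G.subtype = (LinearMap.ker f').map G.subtype :=
      congrArg Subtype.val h
    have h2 : LinearMap.ker f = LinearMap.ker f' :=
      Submodule.map_injective_of_injective G.subtype_injective h1
    apply Subtype.ext
    ext x
    have h3 : x - f x • ⟨v, hG⟩ ∈ LinearMap.ker f := by
      rw [LinearMap.mem_ker, map_sub, map_smul, hf, smul_eq_mul, mul_one, sub_self]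
    rw [h2, LinearMap.mem_ker, map_sub, map_smul, hf', smul_eq_mul, mul_one, sub_eq_zero] at h3
    exact h3.symm
  · rintro ⟨W, hW, hWG⟩
    obtain ⟨f, hf, hfW⟩ := Submodule.exists_le_ker_of_notMem hW
    let f1 : Dual K V := (f v)⁻¹ • f
    have hf1 : f1 v = 1 := by
      simp only [f1, LinearMap.smul_apply, smul_eq_mul, inv_mul_cancel₀ hf]
    have hf1W : ∀ w ∈ W, f1 w = 0 := by
      intro w hw
      have : f w = 0 := hfW hw
      simp only [f1, LinearMap.smul_apply, this, smul_zero]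
    refine ⟨⟨f1 ∘ₗ G.subtype, hf1⟩, ?_⟩
    apply Subtype.ext
    ext x
    constructor
    · rintro ⟨⟨y, hy⟩, hy0, rfl⟩
      rw [SetLike.mem_coe, LinearMap.mem_ker] at hy0
      change f1 y = 0 at hy0
      rw [← hWG] at hy
      obtain ⟨w, hw, z, hz, rfl⟩ := Submodule.mem_sup.1 hy
      obtain ⟨c, rfl⟩ := Submodule.mem_span_singleton.1 hz
      rw [map_add, hf1W w hw, map_smul, hf1, zero_add, smul_eq_mul, mul_one] at hy0
      subst hy0
      simpa using hw
    · intro hx
      have hxG : x ∈ G := by rw [← hWG]; exact Submodule.mem_sup_left hx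
      exact ⟨⟨x, hxG⟩, hf1W x hx, rfl⟩

omit [Field K] [Finite K] in
private lemma mob_succ (k : ℕ) : mob K (k + 1) + (Nat.card K : ℤ) ^ k * mob K k = 0 := by
  have h : (k + 1).choose 2 = k + k.choose 2 := by
    rw [Nat.choose_succ_succ' k 1, Nat.choose_one_right]
  rw [mob, mob, h, pow_add, pow_succ]
  ring

theorem sum_mob_finrank [Nontrivial V] :
    ∑ W : Submodule K V, mob K (finrank K W) = 0 := by
  classical
  obtain ⟨v, hv⟩ := exists_ne (0 : V)
  rw [← Finset.sum_filter_add_sum_filter_not Finset.univ (fun W : Submodule K V => v ∈ W)]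
  rw [← Finset.sum_fiberwise_of_maps_to (s := Finset.univ.filter (fun W : Submodule K V => ¬ v ∈ W))
    (t := Finset.univ.filter (fun W : Submodule K V => v ∈ W))
    (g := fun W => W ⊔ Submodule.span K {v})
    (fun W _ => by
      rw [Finset.mem_filter]
      exact ⟨Finset.mem_univ _, Submodule.mem_sup_right (Submodule.mem_span_singleton_self v)⟩),
    ← Finset.sum_add_distrib]
  refine Finset.sum_eq_zero (fun G hG => ?_)
  have hG' := (Finset.mem_filter.1 hG).2
  have h1 : ∀ W ∈ (Finset.univ.filter (fun W : Submodule K V => ¬ v ∈ W)).filter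
      (fun W => W ⊔ Submodule.span K {v} = G), mob K (finrank K W) = mob K (finrank K G - 1) := by
    intro W hW
    rw [Finset.mem_filter, Finset.mem_filter] at hW
    obtain ⟨⟨_, h2⟩, h3⟩ := hW
    have h4 := Submodule.finrank_sup_add_finrank_inf_eq W (Submodule.span K {v})
    rw [h3, finrank_span_singleton hv, ((Submodule.disjoint_span_singleton' hv).2 h2).eq_bot,
      finrank_bot] at h4
    congr 1
    omega
  rw [Finset.sum_congr rfl h1, Finset.sum_const, Finset.filter_filter, card_hyper hv hG']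
  have hpos : 0 < finrank K G := by
    have : Nontrivial G := ⟨⟨⟨v, hG'⟩, 0, fun h => hv (congrArg Subtype.val h)⟩⟩
    exact finrank_pos
  obtain ⟨k, hk⟩ : ∃ k, finrank K G = k + 1 := ⟨finrank K G - 1, by omega⟩
  rw [hk, Nat.add_sub_cancel, nsmul_eq_mul, Nat.cast_pow]
  exact mob_succ k

theorem sum_mob_codim [Nontrivial V] :
    ∑ W : Submodule K V, mob K (finrank K (V ⧸ W)) = 0 := by
  have hN : Nontrivial (Dual K V) := by
    obtain ⟨v, hv⟩ := exists_ne (0 : V)
    obtain ⟨f, hf⟩ := exists_dual_one (K := K) hv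
    exact ⟨⟨f, 0, fun h => by rw [h] at hf; exact zero_ne_one hf⟩⟩
  rw [← sum_mob_finrank (K := K) (V := Dual K V)]
  refine Fintype.sum_equiv ((Subspace.orderIsoFiniteDimensional (K := K) (V := V)).toEquiv.trans
    OrderDual.ofDual) _ _ (fun W => ?_)
  congr 1
  have h1 := Subspace.finrank_add_finrank_dualAnnihilator_eq W
  have h2 := Submodule.finrank_quotient_add_finrank W
  have h3 : ((Subspace.orderIsoFiniteDimensional (K := K) (V := V)).toEquiv.trans
    OrderDual.ofDual) W = W.dualAnnihilator := rfl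
  rw [h3]
  omega

open Classical in
/-- The relative version: the sum over the subspaces which contain a proper subspace `J`. -/
theorem sum_mob_codim_ge (J : Submodule K V) (hJ : J ≠ ⊤) :
    ∑ W ∈ Finset.univ.filter (fun W : Submodule K V => J ≤ W), mob K (finrank K (V ⧸ W)) = 0 := by
  have hN : Nontrivial (V ⧸ J) := Submodule.Quotient.nontrivial_iff.2 hJ
  rw [← sum_mob_codim (K := K) (V := V ⧸ J)]
  refine Finset.sum_bij' (fun W _ => W.map J.mkQ) (fun W' _ => W'.comap J.mkQ)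
    (fun _ _ => Finset.mem_univ _) (fun W' _ => ?_) (fun W hW => ?_) (fun W' _ => ?_)
    (fun W hW => ?_)
  · rw [Finset.mem_filter]
    exact ⟨Finset.mem_univ _, Submodule.le_comap_mkQ J W'⟩
  · rw [Finset.mem_filter] at hW
    change Submodule.comap J.mkQ (Submodule.map J.mkQ W) = W
    rw [Submodule.comap_map_mkQ, sup_eq_right.2 hW.2]
  · exact Submodule.map_comap_eq_of_surjective J.mkQ_surjective W'
  · rw [Finset.mem_filter] at hW
    congr 1
    exact (LinearEquiv.finrank_eq (Submodule.quotientQuotientEquivQuotient J W hW.2)).symm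

end Pool.Agent.Lib.MP_02a407_al
end

section

/-!
# Exponentials of power series in terms of coefficients
-/

namespace Pool.Agent.Lib.MP_02a407_al

open Polynomial

variable {A : Type} [CommRing A] [Algebra ℚ A]

/-- The coefficients of `exp (∑ v i T ^ i / i)`. -/
noncomputable def pexp (v : ℕ → A) : ℕ → A
  | 0 => 1
  | n + 1 => ((n + 1 : ℚ))⁻¹ • ∑ i : Fin (n + 1), v (i + 1) * pexp v (n - i)

lemma pexp_zero (v : ℕ → A) : pexp v 0 = 1 := by rw [pexp]

lemma pexp_succ (v : ℕ → A) (n : ℕ) :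
    pexp v (n + 1) = ((n + 1 : ℚ))⁻¹ • ∑ i : Fin (n + 1), v (i + 1) * pexp v (n - i) := by
  rw [pexp]

lemma pexp_antidiag (v F : ℕ → A) (n : ℕ) :
    (∑ p ∈ Finset.HasAntidiagonal.antidiagonal (n + 1), if p.1 = 0 then 0 else v p.1 * F p.2)
      = ∑ i : Fin (n + 1), v (i + 1) * F (n - i) := by
  rw [Finset.Nat.sum_antidiagonal_eq_sum_range_succ
    (fun a b => if a = 0 then 0 else v a * F b) (n + 1), Finset.sum_range_succ',
    Finset.sum_range (fun i => if i + 1 = 0 then 0 else v (i + 1) * F (n + 1 - (i + 1)))]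
  simp

/-- The Newton identity characterizes `pexp`. -/
theorem pexp_unique {v : ℕ → A} {F : ℕ → A} (h0 : F 0 = 1)
    (h : ∀ n : ℕ, 1 ≤ n → (n : ℚ) • F n =
      ∑ p ∈ Finset.HasAntidiagonal.antidiagonal n, if p.1 = 0 then 0 else v p.1 * F p.2)
    (n : ℕ) : F n = pexp v n := by
  induction n using Nat.strong_induction_on with
  | _ n ih =>
    rcases n with _ | n
    · rw [h0, pexp_zero]
    · have h1 := h (n + 1) (by omega)
      rw [pexp_antidiag] at h1
      have h2 : ((n + 1 : ℕ) : ℚ) ≠ 0 := by positivity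
      rw [pexp_succ]
      have h3 : ∑ i : Fin (n + 1), v (i + 1) * pexp v (n - i)
          = ∑ i : Fin (n + 1), v (i + 1) * F (n - i) := by
        refine Finset.sum_congr rfl fun i _ => ?_
        rw [ih (n - i) (by omega)]
      rw [h3, ← h1, smul_smul]
      have h4 : ((n + 1 : ℚ))⁻¹ * ((n + 1 : ℕ) : ℚ) = 1 := by
        push_cast
        exact inv_mul_cancel₀ (by positivity)
      rw [h4, one_smul]

theorem pexp_newton (v : ℕ → A) (n : ℕ) : (n : ℚ) • pexp v n =
    ∑ p ∈ Finset.HasAntidiagonal.antidiagonal n, if p.1 = 0 then 0 else v p.1 * pexp v p.2 := by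
  rcases n with _ | n
  · simp
  · rw [pexp_antidiag, pexp_succ, smul_smul]
    have h4 : ((n + 1 : ℕ) : ℚ) * ((n + 1 : ℚ))⁻¹ = 1 := by
      push_cast
      exact mul_inv_cancel₀ (by positivity)
    rw [h4, one_smul]

/-! ### power series form -/

/-- `∑_{i ≥ 1} v i X ^ i` -/
noncomputable def pexpV (v : ℕ → A) : PowerSeries A := PowerSeries.mk fun i => if i = 0 then 0 else v i

/-- the generating function of `pexp v` -/
noncomputable def pexpS (v : ℕ → A) : PowerSeries A := PowerSeries.mk (pexp v)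

lemma pexp_coeff_XD (F : PowerSeries A) (n : ℕ) :
    PowerSeries.coeff n (PowerSeries.X * PowerSeries.derivative A F)
      = (n : ℚ) • PowerSeries.coeff n F := by
  rcases n with _ | n
  · simp
  · rw [PowerSeries.coeff_succ_X_mul, PowerSeries.coeff_derivative, mul_comm]
    rw [Algebra.smul_def]
    simp

lemma pexpS_newton (v : ℕ → A) :
    PowerSeries.X * PowerSeries.derivative A (pexpS v) = pexpV v * pexpS v := by
  ext n
  rw [pexp_coeff_XD, PowerSeries.coeff_mul, pexpS, PowerSeries.coeff_mk, pexp_newton]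
  refine Finset.sum_congr rfl fun p _ => ?_
  rw [pexpV, PowerSeries.coeff_mk, PowerSeries.coeff_mk]
  split_ifs <;> simp

lemma pexpS_unique {v : ℕ → A} {F : PowerSeries A} (h0 : PowerSeries.coeff 0 F = 1)
    (h : PowerSeries.X * PowerSeries.derivative A F = pexpV v * F) : F = pexpS v := by
  ext n
  rw [pexpS, PowerSeries.coeff_mk]
  refine pexp_unique (F := fun n => PowerSeries.coeff n F) h0 (fun n _ => ?_) n
  rw [← pexp_coeff_XD, h, PowerSeries.coeff_mul]
  refine Finset.sum_congr rfl fun p _ => ?_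
  rw [pexpV, PowerSeries.coeff_mk]
  split_ifs <;> simp

lemma pexpV_congr {v w : ℕ → A} (h : ∀ i, 1 ≤ i → v i = w i) : pexpV v = pexpV w := by
  ext n
  rw [pexpV, pexpV, PowerSeries.coeff_mk, PowerSeries.coeff_mk]
  split_ifs with h0
  · rfl
  · exact h n (by omega)

lemma pexpS_coeff_zero (v : ℕ → A) : PowerSeries.coeff 0 (pexpS v) = 1 := by
  rw [pexpS, PowerSeries.coeff_mk, pexp_zero]

lemma pexpS_congr {v w : ℕ → A} (h : ∀ i, 1 ≤ i → v i = w i) : pexpS v = pexpS w := by
  refine pexpS_unique (pexpS_coeff_zero v) ?_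
  rw [pexpS_newton, pexpV_congr h]

lemma pexp_congr {v w : ℕ → A} (h : ∀ i, 1 ≤ i → v i = w i) (n : ℕ) : pexp v n = pexp w n := by
  have := congrArg (PowerSeries.coeff n) (pexpS_congr h)
  rwa [pexpS, pexpS, PowerSeries.coeff_mk, PowerSeries.coeff_mk] at this

lemma pexpS_add (v w : ℕ → A) : pexpS (fun i => v i + w i) = pexpS v * pexpS w := by
  symm
  refine pexpS_unique ?_ ?_
  · rw [PowerSeries.coeff_mul, Finset.Nat.antidiagonal_zero, Finset.sum_singleton,
      pexpS_coeff_zero, pexpS_coeff_zero, mul_one]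
  · have h1 : PowerSeries.derivative A (pexpS v * pexpS w)
        = pexpS v * PowerSeries.derivative A (pexpS w)
          + pexpS w * PowerSeries.derivative A (pexpS v) := by
      rw [Derivation.leibniz, smul_eq_mul, smul_eq_mul]
    have h2 : pexpV (fun i => v i + w i) = pexpV v + pexpV w := by
      ext n
      rw [map_add, pexpV, pexpV, pexpV, PowerSeries.coeff_mk, PowerSeries.coeff_mk,
        PowerSeries.coeff_mk]
      split_ifs <;> simp
    rw [h1, h2]
    calc PowerSeries.X * (pexpS v * PowerSeries.derivative A (pexpS w)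
          + pexpS w * PowerSeries.derivative A (pexpS v))
        = pexpS v * (PowerSeries.X * PowerSeries.derivative A (pexpS w))
          + pexpS w * (PowerSeries.X * PowerSeries.derivative A (pexpS v)) := by ring
      _ = _ := by rw [pexpS_newton, pexpS_newton]; ring

theorem pexp_add (v w : ℕ → A) (n : ℕ) : pexp (fun i => v i + w i) n =
    ∑ p ∈ Finset.HasAntidiagonal.antidiagonal n, pexp v p.1 * pexp w p.2 := by
  have h := congrArg (PowerSeries.coeff n) (pexpS_add v w)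
  rw [PowerSeries.coeff_mul] at h
  simpa only [pexpS, PowerSeries.coeff_mk] using h

lemma pexpS_zero : pexpS (fun _ => (0 : A)) = 1 := by
  symm
  refine pexpS_unique ?_ ?_
  · simp
  · have h1 : pexpV (fun _ => (0 : A)) = 0 := by
      ext n; rw [pexpV, PowerSeries.coeff_mk]; simp
    rw [h1, zero_mul]
    have : PowerSeries.derivative A (1 : PowerSeries A) = 0 := Derivation.map_one_eq_zero _
    rw [this, mul_zero]

theorem pexp_zero_fun {n : ℕ} (hn : 1 ≤ n) : pexp (fun _ => (0 : A)) n = 0 := by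
  have h := congrArg (PowerSeries.coeff n) (pexpS_zero (A := A))
  rw [pexpS, PowerSeries.coeff_mk, PowerSeries.coeff_one, if_neg (by omega)] at h
  exact h

/-- Homogeneity. -/
theorem pexp_pow_mul (c : A) (v : ℕ → A) (n : ℕ) :
    pexp (fun i => c ^ i * v i) n = c ^ n * pexp v n := by
  symm
  refine pexp_unique (F := fun n => c ^ n * pexp v n) ?_ (fun n _ => ?_) n
  · simp [pexp_zero]
  · rw [← mul_smul_comm, pexp_newton, Finset.mul_sum]
    refine Finset.sum_congr rfl fun p hp => ?_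
    have h1 : p.1 + p.2 = n := Finset.HasAntidiagonal.mem_antidiagonal.mp hp
    split_ifs with h
    · simp
    · rw [← h1, pow_add]; ring

theorem map_pexp {B : Type} [CommRing B] [Algebra ℚ B] (f : A →+* B) (v : ℕ → A) (n : ℕ) :
    f (pexp v n) = pexp (fun i => f (v i)) n := by
  refine pexp_unique (F := fun n => f (pexp v n)) ?_ (fun n _ => ?_) n
  · simp [pexp_zero]
  · have h1 : (n : ℚ) • f (pexp v n) = f ((n : ℚ) • pexp v n) := by
      rw [Algebra.smul_def, Algebra.smul_def, map_mul]; simp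
    rw [h1, pexp_newton, map_sum]
    refine Finset.sum_congr rfl fun p hp => ?_
    split_ifs <;> simp

lemma pexp_geom (c : A) : (1 - PowerSeries.C c * PowerSeries.X) * PowerSeries.mk (fun n => c ^ n)
    = (1 : PowerSeries A) := by
  ext n
  rw [sub_mul, one_mul, map_sub, mul_assoc, PowerSeries.coeff_C_mul, PowerSeries.coeff_mk,
    PowerSeries.coeff_one]
  rcases n with _ | n
  · simp
  · rw [PowerSeries.coeff_succ_X_mul, PowerSeries.coeff_mk, if_neg (by omega), pow_succ]; ring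

/-- `exp (∑ c ^ i T ^ i / i) = 1 / (1 - c T)`. -/
theorem pexp_pow (c : A) (n : ℕ) : pexp (fun i => c ^ i) n = c ^ n := by
  have h := pexp_pow_mul c (fun _ => (1 : A)) n
  simp only [mul_one] at h
  rw [h]
  have h1 : (1 : A) = pexp (fun _ => (1 : A)) n := by
    refine pexp_unique (v := fun _ => (1 : A)) (F := fun _ => (1 : A)) rfl (fun n hn => ?_) n
    obtain ⟨m, rfl⟩ : ∃ m, n = m + 1 := ⟨n - 1, by omega⟩
    have h2 := pexp_antidiag (fun _ => (1 : A)) (fun _ => (1 : A)) m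
    rw [h2]
    simp [Algebra.smul_def]
  rw [← h1, mul_one]

lemma pexpS_pow (c : A) : pexpS (fun i => c ^ i) = PowerSeries.mk fun n => c ^ n := by
  rw [pexpS]; congr 1; ext n; exact pexp_pow c n

lemma pexpS_neg_pow (c : A) : pexpS (fun i => -c ^ i) = 1 - PowerSeries.C c * PowerSeries.X := by
  have h1 := pexpS_add (fun i => c ^ i) (fun i => -c ^ i)
  simp only [add_neg_cancel] at h1
  rw [pexpS_zero, pexpS_pow] at h1
  have h2 := pexp_geom c
  calc pexpS (fun i => -c ^ i)
      = ((1 - PowerSeries.C c * PowerSeries.X) * PowerSeries.mk (fun n => c ^ n))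
        * pexpS (fun i => -c ^ i) := by rw [h2, one_mul]
    _ = (1 - PowerSeries.C c * PowerSeries.X) * (PowerSeries.mk (fun n => c ^ n)
        * pexpS (fun i => -c ^ i)) := by ring
    _ = _ := by rw [← h1, mul_one]

/-- `exp (- ∑ c ^ i T ^ i / i) = 1 - c T`. -/
theorem pexp_neg_pow (c : A) (n : ℕ) :
    pexp (fun i => -c ^ i) n = if n = 0 then 1 else if n = 1 then -c else 0 := by
  have h := congrArg (PowerSeries.coeff n) (pexpS_neg_pow c)
  rw [pexpS, PowerSeries.coeff_mk, map_sub, PowerSeries.coeff_C_mul, PowerSeries.coeff_one,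
    PowerSeries.coeff_X] at h
  rw [h]
  rcases n with _ | _ | n
  · simp
  · simp
  · simp

/-- The Gram determinant generating function: with `z`, `y` and
`v i = (1 - (-z) ^ i) (1 - (-y) ^ i)`. -/
theorem pexp_gram (z y : A) {n : ℕ} (hn : 1 ≤ n) :
    pexp (fun i => (1 - (-z) ^ i) * (1 - (-y) ^ i)) n =
      (1 + z) * (1 + y) * ∑ b ∈ Finset.range n, (z * y) ^ b := by
  have h1 : pexpS (fun i => (1 - (-z) ^ i) * (1 - (-y) ^ i))
      = PowerSeries.mk (fun n => (1 : A) ^ n) * (1 - PowerSeries.C (-z) * PowerSeries.X)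
        * (1 - PowerSeries.C (-y) * PowerSeries.X) * PowerSeries.mk (fun n => (z * y) ^ n) := by
    have e : (fun i => (1 - (-z) ^ i) * (1 - (-y) ^ i))
        = fun i => (((1 : A) ^ i + -(-z) ^ i) + -(-y) ^ i) + (z * y) ^ i := by
      ext i
      have h2 : (z * y) ^ i = (-z) ^ i * (-y) ^ i := by rw [← mul_pow]; ring
      rw [h2, one_pow]; ring
    rw [e, pexpS_add, pexpS_add, pexpS_add, pexpS_pow, pexpS_pow, pexpS_neg_pow, pexpS_neg_pow]
  have h2 := pexp_geom (1 : A)
  have h3 := pexp_geom (z * y)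
  have h4 : pexpS (fun i => (1 - (-z) ^ i) * (1 - (-y) ^ i))
      = 1 + PowerSeries.C ((1 + z) * (1 + y)) * (PowerSeries.X *
          (PowerSeries.mk (fun n => (1 : A) ^ n) * PowerSeries.mk (fun n => (z * y) ^ n))) := by
    rw [h1]
    calc _ = PowerSeries.mk (fun n => (1 : A) ^ n) * PowerSeries.mk (fun n => (z * y) ^ n) *
          ((1 - PowerSeries.C (1 : A) * PowerSeries.X) * (1 - PowerSeries.C (z * y) * PowerSeries.X)
            + PowerSeries.C ((1 + z) * (1 + y)) * PowerSeries.X) := by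
          simp only [map_neg, map_mul, map_add, map_one]; ring
      _ = ((1 - PowerSeries.C (1 : A) * PowerSeries.X) * PowerSeries.mk (fun n => (1 : A) ^ n))
          * ((1 - PowerSeries.C (z * y) * PowerSeries.X) * PowerSeries.mk (fun n => (z * y) ^ n))
          + PowerSeries.C ((1 + z) * (1 + y)) * (PowerSeries.X *
          (PowerSeries.mk (fun n => (1 : A) ^ n) * PowerSeries.mk (fun n => (z * y) ^ n))) := by ring
      _ = _ := by rw [h2, h3, mul_one]
  have h5 := congrArg (PowerSeries.coeff n) h4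
  obtain ⟨m, rfl⟩ : ∃ m, n = m + 1 := ⟨n - 1, by omega⟩
  rw [pexpS, PowerSeries.coeff_mk, map_add, PowerSeries.coeff_one, if_neg (by omega), zero_add,
    PowerSeries.coeff_C_mul, PowerSeries.coeff_succ_X_mul, PowerSeries.coeff_mul] at h5
  rw [h5]
  congr 1
  simp only [PowerSeries.coeff_mk, one_pow, one_mul]
  rw [Finset.Nat.sum_antidiagonal_eq_sum_range_succ (fun _ b => (z * y) ^ b) m]
  exact Finset.sum_range_reflect (fun b => (z * y) ^ b) (m + 1)

/-- `∏_{i ≤ n} (Q ^ i - 1)`. -/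
def qfac (Q : ℚ) (n : ℕ) : ℚ := ∏ i ∈ Finset.range n, (Q ^ (i + 1) - 1)

lemma pexp_Qpos {Q : ℚ} (hQ : 1 < Q) {n : ℕ} (hn : 1 ≤ n) : 0 < Q ^ n - 1 := by
  have := one_lt_pow₀ hQ (by omega : n ≠ 0)
  linarith

lemma qfac_pos {Q : ℚ} (hQ : 1 < Q) (n : ℕ) : 0 < qfac Q n :=
  Finset.prod_pos fun i _ => pexp_Qpos hQ (by omega)

lemma qfac_succ (Q : ℚ) (n : ℕ) : qfac Q (n + 1) = qfac Q n * (Q ^ (n + 1) - 1) := by
  rw [qfac, Finset.prod_range_succ, ← qfac]

lemma pexp_h_rat {Q : ℚ} (hQ : 1 < Q) (n : ℕ) :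
    pexp (fun i => (Q ^ i - 1)⁻¹) n = Q ^ (n.choose 2) / qfac Q n := by
  set v : ℕ → ℚ := fun i => (Q ^ i - 1)⁻¹ with hv
  induction n with
  | zero => simp [pexp_zero, qfac]
  | succ n ih =>
    have h1 : pexp (fun i => Q ^ i * v i + -(1 : ℚ) ^ i) (n + 1) = pexp v (n + 1) := by
      refine pexp_congr (fun i hi => ?_) _
      have := (pexp_Qpos hQ hi).ne'
      simp only [hv, one_pow]
      field_simp
      ring
    rw [pexp_add, Finset.Nat.sum_antidiagonal_eq_sum_range_succ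
      (fun a b => pexp (fun i => Q ^ i * v i) a * pexp (fun i => -(1 : ℚ) ^ i) b),
      Finset.sum_range_succ, Finset.sum_range_succ] at h1
    have h2 : ∑ k ∈ Finset.range n, pexp (fun i => Q ^ i * v i) k *
        pexp (fun i => -(1 : ℚ) ^ i) (n + 1 - k) = 0 := by
      refine Finset.sum_eq_zero fun k hk => ?_
      have hk' := Finset.mem_range.mp hk
      rw [pexp_neg_pow, if_neg (by omega), if_neg (by omega), mul_zero]
    rw [h2, zero_add, pexp_neg_pow, pexp_neg_pow, pexp_pow_mul, pexp_pow_mul,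
      if_neg (by omega), if_pos (by omega), if_pos (by omega), ih] at h1
    have h3 := (pexp_Qpos hQ (n := n + 1) (by omega)).ne'
    have h4 := (qfac_pos hQ n).ne'
    have h5 : pexp v (n + 1) = Q ^ n / (Q ^ (n + 1) - 1) * (Q ^ n.choose 2 / qfac Q n) := by
      field_simp at h1 ⊢
      linear_combination h1
    have h6 : (n + 1).choose 2 = n + n.choose 2 := by
      rw [Nat.choose_succ_succ' n 1, Nat.choose_one_right]
    rw [h5, qfac_succ, h6, pow_add Q n (n.choose 2)]
    field_simp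

theorem pexp_h {Q : ℚ} (hQ : 1 < Q) (n : ℕ) :
    pexp (A := A) (fun i => algebraMap ℚ A ((Q ^ i - 1)⁻¹)) n =
      algebraMap ℚ A (Q ^ (n.choose 2) / qfac Q n) := by
  rw [← pexp_h_rat hQ, map_pexp (algebraMap ℚ A)]

lemma pexp_e_rat {Q : ℚ} (hQ : 1 < Q) (n : ℕ) :
    pexp (fun i => (-1) ^ (i + 1) * (Q ^ i - 1)⁻¹) n = 1 / qfac Q n := by
  set v : ℕ → ℚ := fun i => (-1) ^ (i + 1) * (Q ^ i - 1)⁻¹ with hv
  induction n with
  | zero => simp [pexp_zero, qfac]
  | succ n ih =>
    have h1 : pexp (fun i => v i + -(-1 : ℚ) ^ i) (n + 1) = pexp (fun i => Q ^ i * v i) (n + 1) := by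
      refine pexp_congr (fun i hi => ?_) _
      have := (pexp_Qpos hQ hi).ne'
      simp only [hv, pow_succ]
      field_simp
      ring
    rw [pexp_add, Finset.Nat.sum_antidiagonal_eq_sum_range_succ
      (fun a b => pexp (fun i => v i) a * pexp (fun i => -(-1 : ℚ) ^ i) b),
      Finset.sum_range_succ, Finset.sum_range_succ] at h1
    have h2 : ∑ k ∈ Finset.range n, pexp (fun i => v i) k *
        pexp (fun i => -(-1 : ℚ) ^ i) (n + 1 - k) = 0 := by
      refine Finset.sum_eq_zero fun k hk => ?_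
      have hk' := Finset.mem_range.mp hk
      rw [pexp_neg_pow, if_neg (by omega), if_neg (by omega), mul_zero]
    rw [h2, zero_add, pexp_neg_pow, pexp_neg_pow, pexp_pow_mul,
      if_neg (by omega), if_pos (by omega), if_pos (by omega), ih] at h1
    have h3 := (pexp_Qpos hQ (n := n + 1) (by omega)).ne'
    have h4 := (qfac_pos hQ n).ne'
    rw [qfac_succ]
    field_simp at h1 ⊢
    linear_combination -h1

theorem pexp_e {Q : ℚ} (hQ : 1 < Q) (n : ℕ) :
    pexp (A := A) (fun i => algebraMap ℚ A ((-1) ^ (i + 1) * (Q ^ i - 1)⁻¹)) n =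
      algebraMap ℚ A (1 / qfac Q n) := by
  rw [← pexp_e_rat hQ, map_pexp (algebraMap ℚ A)]

/-- The values of `ν` at the hooks. -/
def nuh (Q : ℚ) (n b : ℕ) : ℚ :=
  Q ^ ((n - b).choose 2) / ((Q ^ n - 1) * qfac Q (n - 1 - b) * qfac Q b)

/-- the coefficients of `(1 + z) ∑ nuh z ^ b` -/
lemma nuh_add {Q : ℚ} (hQ : 1 < Q) {n : ℕ} (hn : 1 ≤ n) {b : ℕ} (hb : b ≤ n) :
    Q ^ ((n - b).choose 2) / qfac Q (n - b) * (1 / qfac Q b)
      = (if b < n then nuh Q n b else 0) + (if b = 0 then 0 else nuh Q n (b - 1)) := by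
  obtain ⟨a, rfl⟩ : ∃ a, n = a + b := ⟨n - b, by omega⟩
  have hn' := (pexp_Qpos hQ hn).ne'
  have hqb := (qfac_pos hQ b).ne'
  rw [Nat.add_sub_cancel]
  rcases a with _ | a
  · -- b = n
    rcases b with _ | b
    · omega
    · rw [if_neg (by omega), if_neg (by omega), zero_add, nuh]
      have e1 : 0 + (b + 1) - (b + 1 - 1) = 1 := by omega
      have e2 : 0 + (b + 1) - 1 - (b + 1 - 1) = 0 := by omega
      have e3 : b + 1 - 1 = b := by omega
      rw [e1, e2, e3, qfac_succ]
      simp only [zero_add] at hn' ⊢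
      have h1 : qfac Q 0 = 1 := by simp [qfac]
      have h2 := (qfac_pos hQ b).ne'
      rw [h1]
      simp
      field_simp
  · rcases b with _ | b
    · rw [if_pos (by omega), if_pos rfl, add_zero, nuh]
      have e1 : a + 1 + 0 - 0 = a + 1 := by omega
      have e2 : a + 1 + 0 - 1 - 0 = a := by omega
      rw [e1, e2, qfac_succ]
      simp only [add_zero] at hn' ⊢
      have h1 : qfac Q 0 = 1 := by simp [qfac]
      have h2 := (qfac_pos hQ a).ne'
      rw [h1]
      field_simp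
    · rw [if_pos (by omega), if_neg (by omega), nuh, nuh]
      have e1 : a + 1 + (b + 1) - (b + 1) = a + 1 := by omega
      have e2 : a + 1 + (b + 1) - 1 - (b + 1) = a := by omega
      have e3 : b + 1 - 1 = b := by omega
      have e4 : a + 1 + (b + 1) - b = a + 2 := by omega
      have e5 : a + 1 + (b + 1) - 1 - b = a + 1 := by omega
      rw [e1, e2, e3, e4, e5, qfac_succ Q a, qfac_succ Q b]
      have h2 := (qfac_pos hQ a).ne'
      have h3 := (qfac_pos hQ b).ne'
      have h4 := (pexp_Qpos hQ (n := a + 1) (by omega)).ne'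
      have h5 := (pexp_Qpos hQ (n := b + 1) (by omega)).ne'
      have h6 : (a + 2).choose 2 = (a + 1) + (a + 1).choose 2 := by
        rw [Nat.choose_succ_succ' (a + 1) 1, Nat.choose_one_right]
      have h7 : Q ^ (a + 1 + (b + 1)) = Q ^ (a + 1) * Q ^ (b + 1) := pow_add _ _ _
      rw [h6, pow_add Q (a + 1) ((a + 1).choose 2)]
      rw [h7] at hn' ⊢
      field_simp
      ring

lemma pexp_sum_shift {n : ℕ} (c : ℕ → A) (g : ℕ → A) (z : A)
    (h : ∀ b, b ≤ n → c b = (if b < n then g b else 0) + (if b = 0 then 0 else g (b - 1))) :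
    ∑ b ∈ Finset.range (n + 1), c b * z ^ b = (1 + z) * ∑ b ∈ Finset.range n, g b * z ^ b := by
  have h1 : ∑ b ∈ Finset.range (n + 1), c b * z ^ b
      = ∑ b ∈ Finset.range (n + 1), (if b < n then g b else 0) * z ^ b
        + ∑ b ∈ Finset.range (n + 1), (if b = 0 then 0 else g (b - 1)) * z ^ b := by
    rw [← Finset.sum_add_distrib]
    refine Finset.sum_congr rfl fun b hb => ?_
    rw [h b (by have := Finset.mem_range.mp hb; omega), add_mul]
  rw [h1, Finset.sum_range_succ, if_neg (lt_irrefl _), zero_mul, add_zero,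
    Finset.sum_range_succ' (fun b => (if b = 0 then 0 else g (b - 1)) * z ^ b)]
  simp only [Nat.add_eq_zero_iff, one_ne_zero, and_false, if_false, Nat.add_sub_cancel, if_true,
    zero_mul, add_zero]
  rw [add_mul, one_mul, Finset.mul_sum]
  congr 1
  · refine Finset.sum_congr rfl fun b hb => ?_
    rw [if_pos (Finset.mem_range.mp hb)]
  · refine Finset.sum_congr rfl fun b _ => ?_
    rw [pow_succ]; ring

theorem pexp_nu {Q : ℚ} (hQ : 1 < Q) (z : A) {n : ℕ} (hn : 1 ≤ n) :
    pexp (fun i => algebraMap ℚ A ((Q ^ i - 1)⁻¹) * (1 - (-z) ^ i)) n =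
      (1 + z) * ∑ b ∈ Finset.range n, algebraMap ℚ A (nuh Q n b) * z ^ b := by
  have h1 : (fun i => algebraMap ℚ A ((Q ^ i - 1)⁻¹) * (1 - (-z) ^ i))
      = fun i => algebraMap ℚ A ((Q ^ i - 1)⁻¹)
        + z ^ i * algebraMap ℚ A ((-1) ^ (i + 1) * (Q ^ i - 1)⁻¹) := by
    ext i
    rw [map_mul, map_pow, map_neg, map_one, neg_pow z i, pow_succ]
    ring
  rw [h1, pexp_add (fun i => algebraMap ℚ A ((Q ^ i - 1)⁻¹))
    (fun i => z ^ i * algebraMap ℚ A ((-1) ^ (i + 1) * (Q ^ i - 1)⁻¹))]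
  have h2 : ∀ p ∈ Finset.HasAntidiagonal.antidiagonal n,
      pexp (fun i => algebraMap ℚ A ((Q ^ i - 1)⁻¹)) p.1 *
        pexp (fun i => z ^ i * algebraMap ℚ A ((-1) ^ (i + 1) * (Q ^ i - 1)⁻¹)) p.2
      = algebraMap ℚ A (Q ^ ((p.1).choose 2) / qfac Q p.1 * (1 / qfac Q p.2)) * z ^ p.2 := by
    intro p _
    rw [pexp_h hQ, pexp_pow_mul, pexp_e hQ, map_mul]; ring
  rw [Finset.sum_congr rfl h2, ← Finset.Nat.sum_antidiagonal_swap]
  simp only [Prod.fst_swap, Prod.snd_swap]
  rw [Finset.Nat.sum_antidiagonal_eq_sum_range_succ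
      (fun b a => algebraMap ℚ A (Q ^ (a.choose 2) / qfac Q a * (1 / qfac Q b)) * z ^ b) n]
  refine pexp_sum_shift (fun b => algebraMap ℚ A (Q ^ ((n - b).choose 2) / qfac Q (n - b)
    * (1 / qfac Q b))) (fun b => algebraMap ℚ A (nuh Q n b)) z fun b hb => ?_
  rw [nuh_add hQ hn hb, map_add]
  congr 1
  · split_ifs <;> simp
  · split_ifs <;> simp

theorem pexp_ep {Q : ℚ} (hQ : 1 < Q) (d : ℕ) (z : A) {n : ℕ} (hn : 1 ≤ n) :
    pexp (fun i => algebraMap ℚ A ((-1) ^ (d * i + 1) * (Q ^ i - 1)⁻¹) * (1 - (-z) ^ i)) n =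
      (1 + z) * ∑ b ∈ Finset.range n,
        algebraMap ℚ A ((-1) ^ ((d + 1) * n) * nuh Q n (n - 1 - b)) * z ^ b := by
  have h1 : (fun i => algebraMap ℚ A ((-1) ^ (d * i + 1) * (Q ^ i - 1)⁻¹) * (1 - (-z) ^ i))
      = fun i => (((-1 : A)) ^ d) ^ i * ((-1) ^ i * algebraMap ℚ A ((-1) ^ (i + 1) * (Q ^ i - 1)⁻¹)
        + (-z) ^ i * algebraMap ℚ A ((Q ^ i - 1)⁻¹)) := by
    ext i
    rw [map_mul, map_mul, map_pow, map_pow, map_neg, map_one, ← pow_mul, pow_succ, pow_succ]
    have h2 : (-1 : A) ^ i * ((-1) ^ i * (-1) * algebraMap ℚ A ((Q ^ i - 1)⁻¹))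
        = -algebraMap ℚ A ((Q ^ i - 1)⁻¹) := by
      have : (-1 : A) ^ i * (-1) ^ i = 1 := by rw [← mul_pow]; simp
      linear_combination (-algebraMap ℚ A ((Q ^ i - 1)⁻¹)) * this
    rw [h2]; ring
  rw [h1, pexp_pow_mul, pexp_add (fun i => (-1) ^ i * algebraMap ℚ A ((-1) ^ (i + 1) * (Q ^ i - 1)⁻¹))
    (fun i => (-z) ^ i * algebraMap ℚ A ((Q ^ i - 1)⁻¹))]
  have h2 : ∀ p ∈ Finset.HasAntidiagonal.antidiagonal n,
      pexp (fun i => (-1) ^ i * algebraMap ℚ A ((-1) ^ (i + 1) * (Q ^ i - 1)⁻¹)) p.1 *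
        pexp (fun i => (-z) ^ i * algebraMap ℚ A ((Q ^ i - 1)⁻¹)) p.2
      = (-1) ^ n * (algebraMap ℚ A (Q ^ ((p.2).choose 2) / qfac Q p.2 * (1 / qfac Q p.1))
        * z ^ p.2) := by
    intro p hp
    have hpn : p.1 + p.2 = n := Finset.HasAntidiagonal.mem_antidiagonal.mp hp
    rw [pexp_pow_mul, pexp_e hQ, pexp_pow_mul, pexp_h hQ, map_mul, ← hpn, neg_pow z, pow_add]
    ring
  rw [Finset.sum_congr rfl h2, ← Finset.mul_sum, ← Finset.Nat.sum_antidiagonal_swap]
  simp only [Prod.fst_swap, Prod.snd_swap]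
  rw [Finset.Nat.sum_antidiagonal_eq_sum_range_succ
      (fun b a => algebraMap ℚ A (Q ^ (b.choose 2) / qfac Q b * (1 / qfac Q a)) * z ^ b) n]
  have h3 := pexp_sum_shift (n := n) (fun b => algebraMap ℚ A (Q ^ (b.choose 2) / qfac Q b
    * (1 / qfac Q (n - b)))) (fun b => algebraMap ℚ A (nuh Q n (n - 1 - b))) z (fun b hb => by
      have h4 := nuh_add hQ hn (b := n - b) (Nat.sub_le _ _)
      rw [Nat.sub_sub_self hb] at h4
      rw [h4, map_add, add_comm]
      congr 1
      · by_cases hbn : b < n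
        · rw [if_pos hbn, if_neg (by omega)]
          congr 2; omega
        · rw [if_neg hbn, if_pos (by omega), map_zero]
      · by_cases hb0 : b = 0
        · rw [if_pos hb0, if_neg (by omega), map_zero]
        · rw [if_neg hb0, if_pos (by omega)]
          congr 2; omega)
  rw [h3]
  have h5 : ∀ b, algebraMap ℚ A ((-1) ^ ((d + 1) * n) * nuh Q n (n - 1 - b)) * z ^ b
      = ((-1 : A) ^ d) ^ n * (-1) ^ n * (algebraMap ℚ A (nuh Q n (n - 1 - b)) * z ^ b) := by
    intro b
    rw [map_mul, map_pow, map_neg, map_one, ← pow_mul, add_mul, one_mul, pow_add]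
    ring
  rw [Finset.sum_congr rfl fun b _ => h5 b, ← Finset.mul_sum]
  ring

theorem nuh_ratio {Q : ℚ} (hQ : 1 < Q) {n b : ℕ} (hb : b < n) :
    nuh Q n b * Q ^ (n * b) = Q ^ (n.choose 2) * nuh Q n (n - 1 - b) ∧ nuh Q n b ≠ 0 := by
  have h1 := (pexp_Qpos hQ (n := n) (by omega)).ne'
  have h2 := (qfac_pos hQ (n - 1 - b)).ne'
  have h3 := (qfac_pos hQ b).ne'
  have hQ0 : Q ≠ 0 := by linarith
  constructor
  · rw [nuh, nuh]
    have e1 : n - (n - 1 - b) = b + 1 := by omega
    have e2 : n - 1 - (n - 1 - b) = b := by omega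
    rw [e1, e2]
    have h4 : (n - b).choose 2 + n * b = n.choose 2 + (b + 1).choose 2 := by
      obtain ⟨m, rfl⟩ : ∃ m, n = b + 1 + m := ⟨n - (b + 1), by omega⟩
      have e3 : b + 1 + m - b = m + 1 := by omega
      rw [e3]
      have t : ∀ k : ℕ, ((k + 1).choose 2 : ℚ) = (k + 1) * k / 2 := by
        intro k
        rw [Nat.cast_choose_two]; push_cast; ring
      have e4 : b + 1 + m = (b + m) + 1 := by ring
      have : (((m + 1).choose 2 + (b + 1 + m) * b : ℕ) : ℚ)
          = (((b + 1 + m).choose 2 + (b + 1).choose 2 : ℕ) : ℚ) := by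
        rw [e4]
        push_cast [t]
        ring
      exact_mod_cast this
    rw [div_mul_eq_mul_div, ← pow_add, h4, pow_add, mul_div_assoc']
    congr 1
    ring
  · rw [nuh]
    positivity

end Pool.Agent.Lib.MP_02a407_al
end

section

section

/-!
# Characters of finite groups: definitions
-/

namespace Pool.Agent.Lib.MP_02a407_al

open Module

/-- `χ` is the character of a finite dimensional representation of `G` over `𝕜`. -/
def IsChar (𝕜 : Type) [Field 𝕜] {G : Type} [Group G] (χ : G → 𝕜) : Prop :=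
  ∃ (V : Type) (_ : AddCommGroup V) (_ : Module 𝕜 V) (_ : FiniteDimensional 𝕜 V)
    (ρ : Representation 𝕜 G V), ∀ g, χ g = LinearMap.trace 𝕜 V (ρ g)

/-- `φ` is a class function. -/
def IsCF {𝕜 G : Type} [Group G] (φ : G → 𝕜) : Prop := ∀ g h : G, φ (h * g * h⁻¹) = φ g

/-- The pairing `(1/|G|) ∑ φ(g) ψ(g⁻¹)`. -/
noncomputable def pair {𝕜 G : Type} [Field 𝕜] [Group G] [Fintype G] (φ ψ : G → 𝕜) : 𝕜 :=
  (Nat.card G : 𝕜)⁻¹ * ∑ g, φ g * ψ g⁻¹

/-- A complete system of irreducible characters, with the properties we need. -/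
structure IrrSys (𝕜 G : Type) [Field 𝕜] [Group G] [Fintype G] where
  /-- the number of irreducible characters -/
  n : ℕ
  /-- the irreducible characters -/
  χ : Fin n → G → 𝕜
  isChar : ∀ i, IsChar 𝕜 (χ i)
  orth : ∀ i j, pair (χ i) (χ j) = if i = j then 1 else 0
  one_ne : ∀ i, χ i 1 ≠ 0
  decomp : ∀ ψ : G → 𝕜, IsChar 𝕜 ψ → ∃ c : Fin n → ℕ, ∀ g, ψ g = ∑ i, (c i : 𝕜) * χ i g
  complete : ∀ φ : G → 𝕜, IsCF φ → ∀ g, φ g = ∑ i, pair φ (χ i) * χ i g
  schur : ∀ i, ∀ z : G → 𝕜, IsCF z → ∀ g,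
    ∑ h, z h * χ i (g * h) = (∑ h, z h * χ i h) / χ i 1 * χ i g

end Pool.Agent.Lib.MP_02a407_al
end

section

/-!
# Characters of finite groups: basic closure properties
-/

namespace Pool.Agent.Lib.MP_02a407_al

open Module

/-- Traces of the powers of an operator of finite order. -/
theorem exists_trace_pow {K : Type*} [Field K] [IsAlgClosed K] [CharZero K] {W : Type*}
    [AddCommGroup W] [Module K W] [FiniteDimensional K W] (f : End K W) {n : ℕ} (hn : 0 < n)
    (hf : f ^ n = 1) :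
    ∃ (s : Finset K) (d : K → ℕ), (∀ μ ∈ s, μ ^ n = 1) ∧
      ∀ k : ℕ, LinearMap.trace K W (f ^ k) = ∑ μ ∈ s, (d μ : K) * μ ^ k := by
  classical
  have hsq : Squarefree (Polynomial.X ^ n - 1 : Polynomial K) := by
    have : (Polynomial.X ^ n - 1 : Polynomial K) = Polynomial.X ^ n - Polynomial.C 1 := by simp
    rw [this]
    exact (Polynomial.separable_X_pow_sub_C (1 : K) (by exact_mod_cast hn.ne')
      one_ne_zero).squarefree
  have hss : f.IsSemisimple := by
    refine Module.End.isSemisimple_of_squarefree_aeval_eq_zero hsq ?_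
    simp [hf]
  have htop : ⨆ μ, f.eigenspace μ = ⊤ := by
    have h1 := Module.End.iSup_maxGenEigenspace_eq_top f
    simpa only [hss.isFinitelySemisimple.maxGenEigenspace_eq_eigenspace] using h1
  have hds := DirectSum.isInternal_submodule_of_iSupIndep_of_iSup_eq_top
      f.eigenspaces_iSupIndep htop
  have hfin : {μ | f.eigenspace μ ≠ ⊥}.Finite :=
      WellFoundedGT.finite_ne_bot_of_iSupIndep f.eigenspaces_iSupIndep
  refine ⟨hfin.toFinset, fun μ => finrank K (f.eigenspace μ), ?_, ?_⟩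
  · intro μ hμ
    have hμ' : f.eigenspace μ ≠ ⊥ := by simpa using hμ
    obtain ⟨x, hx, hx0⟩ := Submodule.exists_mem_ne_zero_of_ne_bot hμ'
    have h2 : (f ^ n) x = μ ^ n • x :=
      Module.End.HasEigenvector.pow_apply ⟨hx, hx0⟩ n
    rw [hf] at h2
    have h3 : (μ ^ n - 1) • x = 0 := by
      rw [sub_smul, ← h2]; simp
    rcases smul_eq_zero.1 h3 with h4 | h4
    · exact sub_eq_zero.1 h4
    · exact absurd h4 hx0
  · intro k
    have hap : ∀ μ, ∀ x ∈ f.eigenspace μ, (f ^ k) x = μ ^ k • x := by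
      intro μ x hx
      by_cases hx0 : x = 0
      · simp [hx0]
      · exact Module.End.HasEigenvector.pow_apply ⟨hx, hx0⟩ k
    have hmaps : ∀ μ, Set.MapsTo (f ^ k) (f.eigenspace μ) (f.eigenspace μ) := by
      intro μ x hx
      have hx' : x ∈ f.eigenspace μ := hx
      rw [hap μ x hx']
      exact (f.eigenspace μ).smul_mem _ hx'
    rw [LinearMap.trace_eq_sum_trace_restrict' hds hfin hmaps]
    refine Finset.sum_congr rfl fun μ _ => ?_
    have : (f ^ k).restrict (hmaps μ) = μ ^ k • (LinearMap.id : End K (f.eigenspace μ)) := by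
      ext ⟨x, hx⟩
      simp [hap μ x hx]
    rw [this, map_smul, LinearMap.trace_id, smul_eq_mul, mul_comm]

variable {𝕜 : Type} [Field 𝕜]

section char

variable {G : Type} [Group G]

/-- If `e` is the mean of the operators `τ n` of a finite group `N` and commutes with `ρ g`, then
`g ↦ tr (ρ g e)` is a character of `G`. -/
theorem isChar_trace_mean [CharZero 𝕜] {N : Type} [Group N] [Fintype N] {V : Type}
    [AddCommGroup V] [Module 𝕜 V] [FiniteDimensional 𝕜 V] (ρ : Representation 𝕜 G V)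
    (τ : Representation 𝕜 N V)
    (h : ∀ g, ρ g * (∑ n, τ n) = (∑ n, τ n) * ρ g) :
    IsChar 𝕜 (fun g => (Nat.card N : 𝕜)⁻¹ * ∑ n, LinearMap.trace 𝕜 V (ρ g * τ n)) := by
  set S : End 𝕜 V := ∑ n, τ n with hS
  set e : End 𝕜 V := (Nat.card N : 𝕜)⁻¹ • S with he
  have hc : (Nat.card N : 𝕜) ≠ 0 := by
    have : Nat.card N ≠ 0 := Nat.card_pos.ne'
    exact_mod_cast this
  have hτS : ∀ m, τ m * S = S := by
    intro m
    rw [hS, Finset.mul_sum]
    rw [← Equiv.sum_comp (Equiv.mulLeft m) (fun n => τ n)]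
    refine Finset.sum_congr rfl fun n _ => ?_
    simp
  have hSS : S * S = (Nat.card N : 𝕜) • S := by
    conv_lhs => rw [hS, Finset.sum_mul]
    simp only [← hS, hτS, Finset.sum_const, Finset.card_univ, ← Nat.card_eq_fintype_card]
    rw [Nat.cast_smul_eq_nsmul]
  have hee : e * e = e := by
    rw [he, smul_mul_smul_comm, hSS, smul_smul]
    congr 1
    field_simp
  have hcomm : ∀ g, ρ g * e = e * ρ g := by
    intro g
    rw [he, mul_smul_comm, smul_mul_assoc, h g]
  have hmem : ∀ g, ∀ x ∈ LinearMap.range e, ρ g x ∈ LinearMap.range e := by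
    rintro g x ⟨y, rfl⟩
    exact ⟨ρ g y, by
      have := LinearMap.congr_fun (hcomm g) y
      simpa using this.symm⟩
  refine ⟨LinearMap.range e, inferInstance, inferInstance, inferInstance,
    ρ.subrepresentation (LinearMap.range e) (fun g x hx => hmem g x hx), fun g => ?_⟩
  have h1 : (Nat.card N : 𝕜)⁻¹ * ∑ n, LinearMap.trace 𝕜 V (ρ g * τ n)
      = LinearMap.trace 𝕜 V (ρ g * e) := by
    rw [he, mul_smul_comm, map_smul, smul_eq_mul, hS,
      Finset.mul_sum Finset.univ (fun n => τ n) (ρ g), map_sum]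
  beta_reduce
  rw [h1]
  have h2 : ∀ x, (ρ g * e) x ∈ LinearMap.range e := fun x => hmem g _ ⟨x, rfl⟩
  rw [← LinearMap.trace_restrict_eq_of_forall_mem (LinearMap.range e) (ρ g * e) h2]
  congr 1
  ext ⟨x, y, rfl⟩
  have h3 : e (e y) = e y := LinearMap.congr_fun hee y
  simp [h3, Representation.subrepresentation]

/-- A function which is a homomorphism to `𝕜ˣ` is a character. -/
theorem isChar_of_hom (f : G →* 𝕜ˣ) : IsChar 𝕜 (fun g => (f g : 𝕜)) := by
  refine ⟨𝕜, inferInstance, inferInstance, inferInstance,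
    ⟨⟨fun g => (f g : 𝕜) • LinearMap.id, by simp; rfl⟩, fun a b => by
      ext; simp [mul_comm]⟩, fun g => ?_⟩
  change (f g : 𝕜) = LinearMap.trace 𝕜 𝕜 ((f g : 𝕜) • LinearMap.id)
  rw [map_smul, LinearMap.trace_id]
  simp

theorem IsChar.mul {χ ψ : G → 𝕜} (hχ : IsChar 𝕜 χ) (hψ : IsChar 𝕜 ψ) :
    IsChar 𝕜 (fun g => χ g * ψ g) := by
  obtain ⟨V, _, _, _, ρ, hρ⟩ := hχ
  obtain ⟨W, _, _, _, σ, hσ⟩ := hψ
  refine ⟨TensorProduct 𝕜 V W, inferInstance, inferInstance, inferInstance,
    ρ.tprod σ, fun g => ?_⟩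
  beta_reduce
  rw [Representation.tprod_apply, LinearMap.trace_tensorProduct', hρ, hσ]

theorem IsChar.add {χ ψ : G → 𝕜} (hχ : IsChar 𝕜 χ) (hψ : IsChar 𝕜 ψ) :
    IsChar 𝕜 (fun g => χ g + ψ g) := by
  obtain ⟨V, _, _, _, ρ, hρ⟩ := hχ
  obtain ⟨W, _, _, _, σ, hσ⟩ := hψ
  refine ⟨V × W, inferInstance, inferInstance, inferInstance,
    ρ.prod σ, fun g => ?_⟩
  change χ g + ψ g = LinearMap.trace 𝕜 (V × W) ((ρ g).prodMap (σ g))
  rw [LinearMap.trace_prodMap', hρ, hσ]

theorem IsChar.comap {Γ : Type} [Group Γ] (f : Γ →* G) {χ : G → 𝕜} (hχ : IsChar 𝕜 χ) :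
    IsChar 𝕜 (fun g => χ (f g)) := by
  obtain ⟨V, _, _, _, ρ, hρ⟩ := hχ
  exact ⟨V, inferInstance, inferInstance, inferInstance, ρ.comp f, fun g => hρ (f g)⟩

/-- The dual character. -/
theorem IsChar.inv {χ : G → 𝕜} (hχ : IsChar 𝕜 χ) : IsChar 𝕜 (fun g => χ g⁻¹) := by
  obtain ⟨V, _, _, _, ρ, hρ⟩ := hχ
  refine ⟨Module.Dual 𝕜 V, inferInstance, inferInstance, inferInstance, ρ.dual, fun g => ?_⟩
  beta_reduce
  rw [Representation.dual_apply, LinearMap.trace_transpose', hρ]

theorem IsChar.isCF {χ : G → 𝕜} (hχ : IsChar 𝕜 χ) : IsCF χ := by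
  obtain ⟨V, _, _, _, ρ, hρ⟩ := hχ
  intro g h
  rw [hρ, hρ, map_mul, LinearMap.trace_mul_comm, ← map_mul]
  simp

/-- The values of characters of finite groups are algebraic integers. -/
theorem IsChar.isIntegral [CharZero 𝕜] [Fintype G] {χ : G → 𝕜} (hχ : IsChar 𝕜 χ) (g : G) :
    IsIntegral ℤ (χ g) := by
  obtain ⟨V, _, _, _, ρ, hρ⟩ := hχ
  have hn : 0 < Nat.card G := Nat.card_pos
  have hg : (ρ g) ^ Nat.card G = 1 := by
    rw [← map_pow, pow_card_eq_one', map_one]
  let K := AlgebraicClosure 𝕜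
  have : CharZero K := charZero_of_injective_algebraMap (algebraMap 𝕜 K).injective
  have hF : ((ρ g).baseChange K) ^ Nat.card G = 1 := by
    have := congrArg (Module.End.baseChangeHom 𝕜 K V) hg
    rw [map_pow, map_one] at this
    exact this
  obtain ⟨s, d, hs, ht⟩ := exists_trace_pow ((ρ g).baseChange K) hn hF
  have h1 : algebraMap 𝕜 K (χ g) = ∑ μ ∈ s, (d μ : K) * μ := by
    have h2 := ht 1
    rw [pow_one, LinearMap.trace_baseChange, ← hρ] at h2
    simpa using h2
  have h3 : IsIntegral ℤ (algebraMap 𝕜 K (χ g)) := by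
    rw [h1]
    refine IsIntegral.sum _ fun μ hμ => IsIntegral.mul ?_ ?_
    · have := isIntegral_algebraMap (R := ℤ) (A := K) (x := (d μ : ℤ))
      simpa using this
    · refine ⟨Polynomial.X ^ Nat.card G - 1, ?_, ?_⟩
      · have : (Polynomial.X ^ Nat.card G - 1 : Polynomial ℤ)
            = Polynomial.X ^ Nat.card G - Polynomial.C 1 := by simp
        rw [this]
        exact Polynomial.monic_X_pow_sub_C 1 hn.ne'
      · have h4 := hs μ hμ
        rw [Polynomial.eval₂_sub, Polynomial.eval₂_pow, Polynomial.eval₂_X, Polynomial.eval₂_one,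
          h4, sub_self]
  exact (isIntegral_algebraMap_iff (algebraMap 𝕜 K).injective).1 h3

/-- Complex conjugation of the values of a character. -/
theorem IsChar.conj [CharZero 𝕜] [Fintype G] {χ : G → 𝕜} (hχ : IsChar 𝕜 χ) (τ : 𝕜 →+* ℂ) (g : G) :
    starRingEnd ℂ (τ (χ g)) = τ (χ g⁻¹) := by
  obtain ⟨V, _, _, _, ρ, hρ⟩ := hχ
  have hn : 0 < Nat.card G := Nat.card_pos
  have hg : (ρ g) ^ Nat.card G = 1 := by
    rw [← map_pow, pow_card_eq_one', map_one]
  let _ : Algebra 𝕜 ℂ := τ.toAlgebra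
  have hτ : ∀ x, algebraMap 𝕜 ℂ x = τ x := fun x => rfl
  have hF : ((ρ g).baseChange ℂ) ^ Nat.card G = 1 := by
    have := congrArg (Module.End.baseChangeHom 𝕜 ℂ V) hg
    rw [map_pow, map_one] at this
    exact this
  obtain ⟨s, d, hs, ht⟩ := exists_trace_pow ((ρ g).baseChange ℂ) hn hF
  have hinv : ρ g⁻¹ = (ρ g) ^ (Nat.card G - 1) := by
    rw [← map_pow]
    congr 1
    rw [inv_eq_iff_mul_eq_one, ← pow_succ', Nat.sub_add_cancel hn, pow_card_eq_one']
  have h1 : τ (χ g) = ∑ μ ∈ s, (d μ : ℂ) * μ := by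
    have h2 := ht 1
    rw [pow_one, LinearMap.trace_baseChange, ← hρ, hτ] at h2
    simpa using h2
  have h2 : τ (χ g⁻¹) = ∑ μ ∈ s, (d μ : ℂ) * μ ^ (Nat.card G - 1) := by
    rw [← ht, ← hτ, hρ, hinv, ← LinearMap.trace_baseChange]
    congr 1
    exact map_pow (Module.End.baseChangeHom 𝕜 ℂ V) (ρ g) _
  rw [h1, h2, map_sum]
  refine Finset.sum_congr rfl fun μ hμ => ?_
  rw [map_mul, map_natCast]
  congr 1
  have h3 : μ * μ ^ (Nat.card G - 1) = 1 := by
    rw [← pow_succ', Nat.sub_add_cancel hn, hs μ hμ]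
  have h4 : ‖μ‖ = 1 := Complex.norm_eq_one_of_pow_eq_one (hs μ hμ) hn.ne'
  have h5 : μ * starRingEnd ℂ μ = 1 := by
    rw [Complex.mul_conj, Complex.normSq_eq_norm_sq, h4]
    simp
  have h6 : μ ≠ 0 := by
    rintro rfl
    simp at h4
  exact mul_left_cancel₀ h6 (h5.trans h3.symm)

end char

end Pool.Agent.Lib.MP_02a407_al
end

section

/-!
# Existence of a complete system of irreducible characters
-/

namespace Pool.Agent.Lib.MP_02a407_al

open Module

/-- The data extracted from the Wedderburn decomposition of the group algebra. -/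
structure WData (𝕜 G : Type) [Field 𝕜] [Group G] [Fintype G] where
  n : ℕ
  d : Fin n → ℕ
  hd : ∀ i, NeZero (d i)
  r : ∀ i, G → Matrix (Fin (d i)) (Fin (d i)) 𝕜
  r_one : ∀ i, r i 1 = 1
  r_mul : ∀ i g h, r i (g * h) = r i g * r i h
  surj : ∀ a : (∀ i, Matrix (Fin (d i)) (Fin (d i)) 𝕜),
    ∃ f : G → 𝕜, ∀ i, a i = ∑ g, f g • r i g
  inj : ∀ f : G → 𝕜, (∀ i, ∑ g, f g • r i g = 0) → f = 0
  extend : ∀ (V : Type) [AddCommGroup V] [Module 𝕜 V] (ρ : Representation 𝕜 G V),
    ∃ T : (∀ i, Matrix (Fin (d i)) (Fin (d i)) 𝕜) →ₐ[𝕜] Module.End 𝕜 V,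
      ∀ g, T (fun i => r i g) = ρ g

theorem nonempty_wData (𝕜 G : Type) [Field 𝕜] [IsAlgClosed 𝕜] [CharZero 𝕜] [Group G]
    [Fintype G] : Nonempty (WData 𝕜 G) := by
  have : NeZero (Nat.card G : 𝕜) := ⟨by
    rw [Nat.cast_ne_zero]
    exact Nat.card_pos.ne'⟩
  have : FiniteDimensional 𝕜 (MonoidAlgebra 𝕜 G) := inferInstance
  obtain ⟨n, d, hd, ⟨Φ⟩⟩ :=
    IsSemisimpleRing.exists_algEquiv_pi_matrix_of_isAlgClosed 𝕜 (MonoidAlgebra 𝕜 G)
  have hsum : ∀ x : MonoidAlgebra 𝕜 G, x = ∑ g, x.coeff g • MonoidAlgebra.of 𝕜 G g := by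
    intro x
    apply MonoidAlgebra.coeff_injective
    rw [MonoidAlgebra.coeff_sum]
    ext h
    rw [Finsupp.finsetSum_apply]
    rw [Finset.sum_eq_single h]
    · simp
    · intro b _ hb
      simp [hb]
    · simp
  have hΦ : ∀ (f : G → 𝕜) i, Φ (∑ g, f g • MonoidAlgebra.of 𝕜 G g) i =
      ∑ g, f g • Φ (MonoidAlgebra.of 𝕜 G g) i := by
    intro f i
    rw [map_sum, Finset.sum_apply]
    refine Finset.sum_congr rfl fun g _ => ?_
    rw [map_smul, Pi.smul_apply]
  refine ⟨{
    n := n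
    d := d
    hd := hd
    r := fun i g => Φ (MonoidAlgebra.of 𝕜 G g) i
    r_one := fun i => by rw [map_one, map_one, Pi.one_apply]
    r_mul := fun i g h => by rw [map_mul, map_mul, Pi.mul_apply]
    surj := fun a => ⟨fun g => (Φ.symm a).coeff g, fun i => by
      rw [← hΦ, ← hsum, AlgEquiv.apply_symm_apply]⟩
    inj := fun f hf => by
      have h1 : Φ (∑ g, f g • MonoidAlgebra.of 𝕜 G g) = 0 := by
        funext i
        rw [hΦ, hf i, Pi.zero_apply]
      have h2 : (∑ g, f g • MonoidAlgebra.of 𝕜 G g : MonoidAlgebra 𝕜 G) = 0 := by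
        apply Φ.injective
        rw [h1, map_zero]
      funext g
      have h3 := congrArg (fun x : MonoidAlgebra 𝕜 G => x.coeff g) h2
      simp only [MonoidAlgebra.coeff_sum] at h3
      rw [Finsupp.finsetSum_apply, Finset.sum_eq_single g] at h3
      · simpa using h3
      · intro b _ hb
        simp [hb]
      · simp
    extend := fun V _ _ ρ => ⟨(Representation.asAlgebraHom ρ).comp Φ.symm.toAlgHom, fun g => by
      have h1 : (fun i => Φ (MonoidAlgebra.of 𝕜 G g) i) = Φ (MonoidAlgebra.of 𝕜 G g) := rfl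
      rw [h1]
      change Representation.asAlgebraHom ρ (Φ.symm (Φ (MonoidAlgebra.of 𝕜 G g))) = ρ g
      rw [AlgEquiv.symm_apply_apply, Representation.asAlgebraHom_of]⟩ }⟩

namespace WData

variable {𝕜 G : Type} [Field 𝕜] [Group G] [Fintype G] (W : WData 𝕜 G)

/-- the character of the component `i` -/
noncomputable def ch (i : Fin W.n) (g : G) : 𝕜 := (W.r i g).trace

theorem ch_one (i : Fin W.n) : W.ch i 1 = (W.d i : 𝕜) := by
  rw [ch, W.r_one, Matrix.trace_one, Fintype.card_fin]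

theorem d_ne [CharZero 𝕜] (i : Fin W.n) : (W.d i : 𝕜) ≠ 0 := by
  have := (W.hd i).out
  exact_mod_cast this

theorem r_inv_mul (i : Fin W.n) (g : G) : W.r i g⁻¹ * W.r i g = 1 := by
  rw [← W.r_mul, inv_mul_cancel, W.r_one]

theorem r_mul_inv (i : Fin W.n) (g : G) : W.r i g * W.r i g⁻¹ = 1 := by
  rw [← W.r_mul, mul_inv_cancel, W.r_one]

/-- a matrix that commutes with the image of the group is scalar -/
theorem scalar_of_comm (i : Fin W.n) (X : Matrix (Fin (W.d i)) (Fin (W.d i)) 𝕜)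
    (h : ∀ g, W.r i g * X = X * W.r i g) : ∃ c : 𝕜, X = c • 1 := by
  have h1 : ∀ A : Matrix (Fin (W.d i)) (Fin (W.d i)) 𝕜, A * X = X * A := by
    intro A
    obtain ⟨f, hf⟩ := W.surj (fun j => if h : j = i then h ▸ A else 0)
    have h2 := hf i
    simp only [dite_true] at h2
    rw [h2, Finset.sum_mul, Finset.mul_sum]
    refine Finset.sum_congr rfl fun g _ => ?_
    rw [Matrix.smul_mul, Matrix.mul_smul, h g]
  obtain ⟨c, hc⟩ := Matrix.mem_range_scalar_iff_commute_single'.2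
    (fun a b => (h1 (Matrix.single a b 1) : Commute _ _))
  refine ⟨c, ?_⟩
  rw [← hc, Matrix.scalar_apply, ← Matrix.smul_one_eq_diagonal]

/-- the averaged matrix -/
noncomputable def av (i j : Fin W.n) (X : Matrix (Fin (W.d i)) (Fin (W.d j)) 𝕜) :
    Matrix (Fin (W.d i)) (Fin (W.d j)) 𝕜 := ∑ g, W.r i g * X * W.r j g⁻¹

theorem av_comm (i j : Fin W.n) (X : Matrix (Fin (W.d i)) (Fin (W.d j)) 𝕜) (h : G) :
    W.r i h * W.av i j X = W.av i j X * W.r j h := by
  unfold av
  rw [Matrix.mul_sum, Matrix.sum_mul]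
  refine Fintype.sum_equiv (Equiv.mulLeft h) _ _ fun g => ?_
  rw [Equiv.coe_mulLeft, mul_inv_rev, W.r_mul i, W.r_mul j]
  simp only [Matrix.mul_assoc]
  rw [← W.r_mul j h⁻¹ h, inv_mul_cancel, W.r_one, Matrix.mul_one]

theorem av_eq_zero {i j : Fin W.n} (hij : i ≠ j) (X : Matrix (Fin (W.d i)) (Fin (W.d j)) 𝕜) :
    W.av i j X = 0 := by
  obtain ⟨f, hf⟩ := W.surj (fun k => if k = i then 1 else 0)
  have h1 := hf i
  have h2 := hf j
  simp only [if_true] at h1
  simp only [if_neg (Ne.symm hij)] at h2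
  have h3 : (∑ g, f g • W.r i g) * W.av i j X = W.av i j X * ∑ g, f g • W.r j g := by
    rw [Matrix.sum_mul, Matrix.mul_sum]
    refine Finset.sum_congr rfl fun g _ => ?_
    rw [Matrix.smul_mul, Matrix.mul_smul, W.av_comm]
  rw [← h1, ← h2, Matrix.one_mul, Matrix.mul_zero] at h3
  exact h3

theorem trace_av (i : Fin W.n) (X : Matrix (Fin (W.d i)) (Fin (W.d i)) 𝕜) :
    (W.av i i X).trace = (Fintype.card G : 𝕜) * X.trace := by
  unfold av
  rw [Matrix.trace_sum]
  have : ∀ g ∈ (Finset.univ : Finset G), (W.r i g * X * W.r i g⁻¹).trace = X.trace := by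
    intro g _
    rw [Matrix.trace_mul_comm, ← Matrix.mul_assoc, W.r_inv_mul, Matrix.one_mul]
  rw [Finset.sum_congr rfl this, Finset.sum_const, Finset.card_univ, nsmul_eq_mul]

theorem av_same [CharZero 𝕜] (i : Fin W.n) (X : Matrix (Fin (W.d i)) (Fin (W.d i)) 𝕜) :
    W.av i i X = ((Fintype.card G : 𝕜) * X.trace / (W.d i : 𝕜)) • 1 := by
  obtain ⟨c, hc⟩ := W.scalar_of_comm i (W.av i i X) (W.av_comm i i X)
  have h1 := W.trace_av i X
  rw [hc, Matrix.trace_smul, Matrix.trace_one, Fintype.card_fin, smul_eq_mul] at h1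
  rw [hc, ← h1, mul_div_assoc, div_self (W.d_ne i), mul_one]

theorem sum_ch_mul (i j : Fin W.n) : ∑ g, W.ch i g * W.ch j g⁻¹ =
    ∑ a, ∑ b, W.av i j (Matrix.single a b 1) a b := by
  have h1 : ∀ a b, W.av i j (Matrix.single a b 1) a b =
      ∑ g, W.r i g a a * W.r j g⁻¹ b b := by
    intro a b
    unfold av
    rw [Matrix.sum_apply]
    refine Finset.sum_congr rfl fun g _ => ?_
    rw [Matrix.mul_apply, Finset.sum_eq_single b]
    · rw [Matrix.mul_single_apply_same, mul_one]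
    · intro c _ hc
      rw [Matrix.mul_single_apply_of_ne (hbj := hc), zero_mul]
    · intro h
      exact absurd (Finset.mem_univ _) h
  simp only [h1]
  have h2 : ∑ a, ∑ b, ∑ g, W.r i g a a * W.r j g⁻¹ b b =
      ∑ g, ∑ a, ∑ b, W.r i g a a * W.r j g⁻¹ b b := by
    have h3 : ∀ a, ∑ b, ∑ g, W.r i g a a * W.r j g⁻¹ b b =
        ∑ g, ∑ b, W.r i g a a * W.r j g⁻¹ b b := fun a => Finset.sum_comm
    simp only [h3]
    exact Finset.sum_comm
  rw [h2]
  refine Finset.sum_congr rfl fun g _ => ?_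
  rw [ch, ch, Matrix.trace, Matrix.trace, Finset.sum_mul_sum]
  rfl

theorem sum_ch_mul_eq [CharZero 𝕜] (i j : Fin W.n) : ∑ g, W.ch i g * W.ch j g⁻¹ =
    if i = j then (Fintype.card G : 𝕜) else 0 := by
  rw [sum_ch_mul]
  by_cases hij : i = j
  · subst hij
    rw [if_pos rfl]
    have h1 : ∀ a b : Fin (W.d i), W.av i i (Matrix.single a b 1) a b =
        if a = b then (Fintype.card G : 𝕜) / (W.d i : 𝕜) else 0 := by
      intro a b
      rw [W.av_same]
      by_cases hab : a = b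
      · subst hab
        rw [if_pos rfl, Matrix.trace_single_eq_same, Matrix.smul_apply, Matrix.one_apply_eq,
          smul_eq_mul, mul_one, mul_one]
      · rw [if_neg hab, Matrix.smul_apply, Matrix.one_apply_ne hab, smul_zero]
    simp only [h1, Finset.sum_ite_eq, Finset.mem_univ, if_true, Finset.sum_const,
      Finset.card_univ, Fintype.card_fin, nsmul_eq_mul]
    rw [mul_div_cancel₀ _ (W.d_ne i)]
  · rw [if_neg hij]
    simp only [W.av_eq_zero hij, Matrix.zero_apply, Finset.sum_const_zero]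

theorem pair_ch [CharZero 𝕜] (i j : Fin W.n) :
    pair (W.ch i) (W.ch j) = if i = j then 1 else 0 := by
  unfold pair
  rw [W.sum_ch_mul_eq]
  have : (Nat.card G : 𝕜) = (Fintype.card G : 𝕜) := by rw [Nat.card_eq_fintype_card]
  rw [this]
  have h0 : (Fintype.card G : 𝕜) ≠ 0 := by
    rw [Nat.cast_ne_zero]
    exact Fintype.card_ne_zero
  by_cases hij : i = j
  · rw [if_pos hij, if_pos hij, inv_mul_cancel₀ h0]
  · rw [if_neg hij, if_neg hij, mul_zero]

theorem isChar_ch (i : Fin W.n) : IsChar 𝕜 (W.ch i) := by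
  refine ⟨Fin (W.d i) → 𝕜, inferInstance, inferInstance, inferInstance,
    { toFun := fun g => Matrix.toLin' (W.r i g)
      map_one' := by rw [W.r_one, Matrix.toLin'_one]; rfl
      map_mul' := fun g h => by rw [W.r_mul, Matrix.toLin'_mul]; rfl }, fun g => ?_⟩
  exact (Matrix.trace_toLin'_eq (W.r i g)).symm

/-- the sum of a class function against the representation is scalar -/
theorem sum_cf [CharZero 𝕜] (i : Fin W.n) (z : G → 𝕜) (hz : IsCF z) :
    ∑ h, z h • W.r i h = ((∑ h, z h * W.ch i h) / (W.d i : 𝕜)) • 1 := by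
  obtain ⟨c, hc⟩ := W.scalar_of_comm i (∑ h, z h • W.r i h) (fun g => by
    rw [Finset.mul_sum, Finset.sum_mul]
    refine Fintype.sum_equiv (MulAut.conj g).toEquiv _ _ fun h => ?_
    have h1 : (MulAut.conj g).toEquiv h = g * h * g⁻¹ := rfl
    rw [h1, hz, Matrix.mul_smul, Matrix.smul_mul, ← W.r_mul, ← W.r_mul, inv_mul_cancel_right])
  have h1 : (∑ h, z h • W.r i h).trace = ∑ h, z h * W.ch i h := by
    rw [Matrix.trace_sum]
    refine Finset.sum_congr rfl fun h _ => ?_
    rw [Matrix.trace_smul, smul_eq_mul, ch]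
  rw [hc, Matrix.trace_smul, Matrix.trace_one, Fintype.card_fin, smul_eq_mul] at h1
  rw [hc, ← h1, mul_div_assoc, div_self (W.d_ne i), mul_one]

theorem schur_ch [CharZero 𝕜] (i : Fin W.n) (z : G → 𝕜) (hz : IsCF z) (g : G) :
    ∑ h, z h * W.ch i (g * h) = (∑ h, z h * W.ch i h) / W.ch i 1 * W.ch i g := by
  have h1 : ∑ h, z h * W.ch i (g * h) = (W.r i g * ∑ h, z h • W.r i h).trace := by
    rw [Finset.mul_sum, Matrix.trace_sum]
    refine Finset.sum_congr rfl fun h _ => ?_
    rw [Matrix.mul_smul, Matrix.trace_smul, smul_eq_mul, ch, W.r_mul]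
  rw [h1, W.sum_cf i z hz, Matrix.mul_smul, Matrix.mul_one, Matrix.trace_smul, smul_eq_mul,
    W.ch_one]
  rfl

theorem ch_cf (i : Fin W.n) : IsCF (W.ch i) := by
  intro g h
  rw [ch, ch, W.r_mul, W.r_mul, Matrix.trace_mul_comm, ← Matrix.mul_assoc, W.r_inv_mul,
    Matrix.one_mul]

theorem complete_ch [CharZero 𝕜] (φ : G → 𝕜) (hφ : IsCF φ) (g : G) :
    φ g = ∑ i, pair φ (W.ch i) * W.ch i g := by
  set φ' : G → 𝕜 := fun g => φ g - ∑ i, pair φ (W.ch i) * W.ch i g with hφ'
  have hcf : IsCF φ' := by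
    intro g h
    simp only [hφ']
    rw [hφ]
    congr 1
    refine Finset.sum_congr rfl fun i _ => ?_
    rw [W.ch_cf i]
  have hz : IsCF (fun g => φ' g⁻¹) := by
    intro g h
    have : (h * g * h⁻¹)⁻¹ = h * g⁻¹ * h⁻¹ := by group
    simp only [this]
    exact hcf _ _
  have h0 : (Nat.card G : 𝕜) ≠ 0 := by
    rw [Nat.cast_ne_zero]
    exact Nat.card_pos.ne'
  have hpair : ∀ j, ∑ g, φ' g * W.ch j g⁻¹ = 0 := by
    intro j
    have h1 : ∑ g, φ' g * W.ch j g⁻¹ = ∑ g, φ g * W.ch j g⁻¹ -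
        ∑ i, pair φ (W.ch i) * ∑ g, W.ch i g * W.ch j g⁻¹ := by
      have h2 : ∑ i, pair φ (W.ch i) * ∑ g, W.ch i g * W.ch j g⁻¹ =
          ∑ g, (∑ i, pair φ (W.ch i) * W.ch i g) * W.ch j g⁻¹ := by
        have h3 : ∀ g, (∑ i, pair φ (W.ch i) * W.ch i g) * W.ch j g⁻¹ =
            ∑ i, pair φ (W.ch i) * (W.ch i g * W.ch j g⁻¹) := by
          intro g
          rw [Finset.sum_mul]
          exact Finset.sum_congr rfl fun i _ => mul_assoc _ _ _
        simp only [h3, Finset.mul_sum]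
        exact Finset.sum_comm
      rw [h2, ← Finset.sum_sub_distrib]
      refine Finset.sum_congr rfl fun g _ => ?_
      simp only [hφ']
      rw [sub_mul]
    have h4 : ∀ i, ∑ g, W.ch i g * W.ch j g⁻¹ = (Nat.card G : 𝕜) * if i = j then 1 else 0 := by
      intro i
      rw [W.sum_ch_mul_eq, Nat.card_eq_fintype_card]
      split_ifs
      · rw [mul_one]
      · rw [mul_zero]
    have h5 : ∑ g, φ g * W.ch j g⁻¹ = (Nat.card G : 𝕜) * pair φ (W.ch j) := by
      unfold pair
      rw [← mul_assoc, mul_inv_cancel₀ h0, one_mul]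
    rw [h1, h5]
    simp only [h4, mul_ite, mul_one, mul_zero, Finset.sum_ite_eq', Finset.mem_univ, if_true]
    rw [mul_comm, sub_self]
  have hzero : (fun g => φ' g⁻¹) = 0 := by
    apply W.inj
    intro i
    rw [W.sum_cf i _ hz]
    have h1 : ∑ h, φ' h⁻¹ * W.ch i h = 0 := by
      rw [← hpair i]
      refine Fintype.sum_equiv (Equiv.inv G) _ _ fun h => ?_
      rw [Equiv.inv_apply, inv_inv]
    rw [h1, zero_div, zero_smul]
  have h1 := congrFun hzero g⁻¹
  simp only [inv_inv, Pi.zero_apply, hφ'] at h1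
  exact sub_eq_zero.1 h1

/-- the element of the product algebra with one nonzero component -/
noncomputable def cmp (i : Fin W.n) (X : Matrix (Fin (W.d i)) (Fin (W.d i)) 𝕜) :
    ∀ i, Matrix (Fin (W.d i)) (Fin (W.d i)) 𝕜 := Pi.single i X

theorem cmp_mul (i : Fin W.n) (X Y : Matrix (Fin (W.d i)) (Fin (W.d i)) 𝕜) :
    W.cmp i X * W.cmp i Y = W.cmp i (X * Y) := by
  unfold cmp
  rw [← Pi.single_mul]

theorem cmp_add (i : Fin W.n) (X Y : Matrix (Fin (W.d i)) (Fin (W.d i)) 𝕜) :
    W.cmp i (X + Y) = W.cmp i X + W.cmp i Y := by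
  unfold cmp
  rw [Pi.single_add]

theorem cmp_smul (i : Fin W.n) (c : 𝕜) (X : Matrix (Fin (W.d i)) (Fin (W.d i)) 𝕜) :
    W.cmp i (c • X) = c • W.cmp i X := by
  unfold cmp
  rw [Pi.single_smul]

/-- `X ↦ cmp i X` as a linear map -/
noncomputable def cmpL (i : Fin W.n) : Matrix (Fin (W.d i)) (Fin (W.d i)) 𝕜 →ₗ[𝕜]
    (∀ i, Matrix (Fin (W.d i)) (Fin (W.d i)) 𝕜) where
  toFun := W.cmp i
  map_add' := W.cmp_add i
  map_smul' := W.cmp_smul i

theorem decomp_ch [CharZero 𝕜] (ψ : G → 𝕜) (hψ : IsChar 𝕜 ψ) :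
    ∃ c : Fin W.n → ℕ, ∀ g, ψ g = ∑ i, (c i : 𝕜) * W.ch i g := by
  obtain ⟨V, _, _, _, ρ, hρ⟩ := hψ
  obtain ⟨T, hT⟩ := W.extend V ρ
  -- the trace functional on a component
  set t : ∀ i, Matrix (Fin (W.d i)) (Fin (W.d i)) 𝕜 →ₗ[𝕜] 𝕜 :=
    fun i => (LinearMap.trace 𝕜 V) ∘ₗ T.toLinearMap ∘ₗ (W.cmpL i) with ht
  have ht' : ∀ i (X : Matrix (Fin (W.d i)) (Fin (W.d i)) 𝕜), t i X = LinearMap.trace 𝕜 V (T (W.cmp i X)) := fun _ _ => rfl
  have htcomm : ∀ i (X Y : Matrix (Fin (W.d i)) (Fin (W.d i)) 𝕜), t i (X * Y) = t i (Y * X) := by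
    intro i X Y
    rw [ht', ht', ← cmp_mul, ← cmp_mul, map_mul T, map_mul T, LinearMap.trace_mul_comm]
  let z : ∀ i, Fin (W.d i) := fun i => ⟨0, Nat.pos_of_ne_zero (W.hd i).out⟩
  have hoff : ∀ i (a b : Fin (W.d i)), a ≠ b → t i (Matrix.single a b 1) = 0 := by
    intro i a b hab
    have h1 : (Matrix.single a b 1 : Matrix (Fin (W.d i)) (Fin (W.d i)) 𝕜) =
        Matrix.single a a 1 * Matrix.single a b 1 := by
      rw [Matrix.single_mul_single_same, mul_one]
    rw [h1, htcomm, Matrix.single_mul_single_of_ne (h := hab.symm), map_zero]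
  have hdiag : ∀ i (a : Fin (W.d i)), t i (Matrix.single a a 1) =
      t i (Matrix.single (z i) (z i) 1) := by
    intro i a
    have h1 : (Matrix.single a a 1 : Matrix (Fin (W.d i)) (Fin (W.d i)) 𝕜) =
        Matrix.single a (z i) 1 * Matrix.single (z i) a 1 := by
      rw [Matrix.single_mul_single_same, mul_one]
    rw [h1, htcomm, Matrix.single_mul_single_same, mul_one]
  have htr : ∀ i (X : Matrix (Fin (W.d i)) (Fin (W.d i)) 𝕜), t i X = t i (Matrix.single (z i) (z i) 1) * X.trace := by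
    intro i X
    conv_lhs => rw [Matrix.matrix_eq_sum_single X]
    rw [map_sum]
    have h1 : ∀ a, t i (∑ b, Matrix.single a b (X a b)) =
        t i (Matrix.single (z i) (z i) 1) * X a a := by
      intro a
      rw [map_sum, Finset.sum_eq_single a]
      · have h2 : (Matrix.single a a (X a a) : Matrix (Fin (W.d i)) (Fin (W.d i)) 𝕜) =
            X a a • Matrix.single a a 1 := by
          rw [Matrix.smul_single, smul_eq_mul, mul_one]
        rw [h2, map_smul, hdiag, smul_eq_mul, mul_comm]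
      · intro b _ hb
        have h2 : (Matrix.single a b (X a b) : Matrix (Fin (W.d i)) (Fin (W.d i)) 𝕜) =
            X a b • Matrix.single a b 1 := by
          rw [Matrix.smul_single, smul_eq_mul, mul_one]
        rw [h2, map_smul, hoff i a b hb.symm, smul_zero]
      · intro h
        exact absurd (Finset.mem_univ _) h
    simp only [h1]
    rw [← Finset.mul_sum]
    rfl
  have hnat : ∀ i, ∃ c : ℕ, t i (Matrix.single (z i) (z i) 1) = c := by
    intro i
    have hidem : IsIdempotentElem (T (W.cmp i (Matrix.single (z i) (z i) 1))) := by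
      unfold IsIdempotentElem
      rw [← map_mul, cmp_mul, Matrix.single_mul_single_same, mul_one]
    refine ⟨finrank 𝕜 (LinearMap.range (T (W.cmp i (Matrix.single (z i) (z i) 1)))), ?_⟩
    rw [ht']
    exact (LinearMap.IsIdempotentElem.isProj_range _ hidem).trace
  choose c hc using hnat
  refine ⟨c, fun g => ?_⟩
  rw [hρ g, ← hT g]
  have h1 : (fun i => W.r i g) = ∑ i, W.cmp i (W.r i g) :=
    (Finset.univ_sum_single (fun i => W.r i g)).symm
  rw [h1, map_sum, map_sum]
  refine Finset.sum_congr rfl fun i _ => ?_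
  rw [← ht', htr, hc]
  rfl

end WData

theorem nonempty_irrSys (𝕜 G : Type) [Field 𝕜] [IsAlgClosed 𝕜] [CharZero 𝕜] [Group G]
    [Fintype G] : Nonempty (IrrSys 𝕜 G) := by
  obtain ⟨W⟩ := nonempty_wData 𝕜 G
  exact ⟨{
    n := W.n
    χ := W.ch
    isChar := W.isChar_ch
    orth := W.pair_ch
    one_ne := fun i => by rw [W.ch_one]; exact W.d_ne i
    decomp := W.decomp_ch
    complete := W.complete_ch
    schur := W.schur_ch }⟩

end Pool.Agent.Lib.MP_02a407_al
end

section

/-!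
# Lattices of class functions
-/

namespace Pool.Agent.Lib.MP_02a407_al

open Module

variable {𝕜 : Type} [Field 𝕜]

/-- The class functions whose pairings with all characters lie in the subring `O`. -/
def GLat {G : Type} [Group G] [Fintype G] (O : Subring 𝕜) (φ : G → 𝕜) : Prop :=
  IsCF φ ∧ ∀ ψ : G → 𝕜, IsChar 𝕜 ψ → pair φ ψ ∈ O

section aux

variable {G : Type} [Group G] [Fintype G]

theorem pair_comm' (φ ψ : G → 𝕜) : pair φ ψ = pair ψ φ := by
  unfold pair
  congr 1
  rw [← Equiv.sum_comp (Equiv.inv G)]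
  refine Finset.sum_congr rfl fun g _ => ?_
  simp [mul_comm]

theorem pair_add_left' (φ φ' ψ : G → 𝕜) :
    pair (fun g => φ g + φ' g) ψ = pair φ ψ + pair φ' ψ := by
  unfold pair
  rw [← mul_add, ← Finset.sum_add_distrib]
  simp only [add_mul]

theorem pair_smul_left' (a : 𝕜) (φ ψ : G → 𝕜) :
    pair (fun g => a * φ g) ψ = a * pair φ ψ := by
  unfold pair
  rw [mul_left_comm a, Finset.mul_sum (a := a)]
  simp only [mul_assoc]

theorem pair_sum_left' {ι : Type*} (s : Finset ι) (φ : ι → G → 𝕜) (ψ : G → 𝕜) :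
    pair (fun g => ∑ i ∈ s, φ i g) ψ = ∑ i ∈ s, pair (φ i) ψ := by
  unfold pair
  rw [← Finset.mul_sum, Finset.sum_comm]
  simp only [Finset.sum_mul]

theorem pair_eq_sum' (I : IrrSys 𝕜 G) {φ : G → 𝕜} (ψ : G → 𝕜) (h : IsCF φ) :
    pair φ ψ = ∑ i, pair φ (I.χ i) * pair ψ (I.χ i) := by
  have h1 : φ = fun g => ∑ i, pair φ (I.χ i) * I.χ i g := funext (I.complete φ h)
  calc pair φ ψ = pair (fun g => ∑ i, pair φ (I.χ i) * I.χ i g) ψ := by rw [← h1]
    _ = ∑ i, pair φ (I.χ i) * pair ψ (I.χ i) := by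
      rw [pair_sum_left']
      refine Finset.sum_congr rfl fun i _ => ?_
      rw [pair_smul_left', pair_comm' (I.χ i) ψ]

theorem pair_char_nat' (I : IrrSys 𝕜 G) {ψ : G → 𝕜} (h : IsChar 𝕜 ψ) (i : Fin I.n) :
    ∃ c : ℕ, pair ψ (I.χ i) = c := by
  obtain ⟨c, hc⟩ := I.decomp ψ h
  refine ⟨c i, ?_⟩
  have h1 : ψ = fun g => ∑ j, (c j : 𝕜) * I.χ j g := funext hc
  rw [h1, pair_sum_left']
  simp only [pair_smul_left', I.orth]
  simp

end aux

section lat

set_option linter.unusedSectionVars false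

variable [IsAlgClosed 𝕜] [CharZero 𝕜] {G : Type} [Group G] [Fintype G] {O : Subring 𝕜}

theorem GLat.of_char {χ : G → 𝕜} (hχ : IsChar 𝕜 χ) : GLat O χ := by
  obtain ⟨I⟩ := nonempty_irrSys 𝕜 G
  refine ⟨hχ.isCF, fun ψ hψ => ?_⟩
  rw [pair_eq_sum' I ψ hχ.isCF]
  refine O.sum_mem fun i _ => ?_
  obtain ⟨c, hc⟩ := pair_char_nat' I hχ i
  obtain ⟨d, hd⟩ := pair_char_nat' I hψ i
  rw [hc, hd]
  exact O.mul_mem (natCast_mem O c) (natCast_mem O d)

theorem GLat.add {φ ψ : G → 𝕜} (h : GLat O φ) (h' : GLat O ψ) : GLat O (fun g => φ g + ψ g) := by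
  refine ⟨fun g k => ?_, fun χ hχ => ?_⟩
  · simp only [h.1 g k, h'.1 g k]
  · rw [pair_add_left']
    exact O.add_mem (h.2 χ hχ) (h'.2 χ hχ)

theorem GLat.smul {φ : G → 𝕜} (h : GLat O φ) {a : 𝕜} (ha : a ∈ O) :
    GLat O (fun g => a * φ g) := by
  refine ⟨fun g k => ?_, fun χ hχ => ?_⟩
  · simp only [h.1 g k]
  · rw [pair_smul_left']
    exact O.mul_mem ha (h.2 χ hχ)

theorem GLat.sum {ι : Type*} {s : Finset ι} {φ : ι → G → 𝕜} (h : ∀ i ∈ s, GLat O (φ i)) :
    GLat O (fun g => ∑ i ∈ s, φ i g) := by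
  refine ⟨fun g k => ?_, fun χ hχ => ?_⟩
  · exact Finset.sum_congr rfl fun i hi => (h i hi).1 g k
  · rw [pair_sum_left']
    exact O.sum_mem fun i hi => (h i hi).2 χ hχ

/-- A class function is in the lattice iff its coordinates are in `O`. -/
theorem gLat_iff (I : IrrSys 𝕜 G) {φ : G → 𝕜} :
    GLat O φ ↔ IsCF φ ∧ ∀ i, pair φ (I.χ i) ∈ O := by
  refine ⟨fun h => ⟨h.1, fun i => h.2 _ (I.isChar i)⟩, fun h => ⟨h.1, fun ψ hψ => ?_⟩⟩
  rw [pair_eq_sum' I ψ h.1]
  refine O.sum_mem fun i _ => ?_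
  obtain ⟨d, hd⟩ := pair_char_nat' I hψ i
  rw [hd]
  exact O.mul_mem (h.2 i) (natCast_mem O d)

theorem GLat.mul {φ ψ : G → 𝕜} (h : GLat O φ) (h' : GLat O ψ) : GLat O (fun g => φ g * ψ g) := by
  obtain ⟨I⟩ := nonempty_irrSys 𝕜 G
  have h1 : (fun g => φ g * ψ g) =
      fun g => ∑ j, pair ψ (I.χ j) * (φ g * I.χ j g) := by
    funext g
    conv_lhs => rw [I.complete ψ h'.1 g, Finset.mul_sum]
    refine Finset.sum_congr rfl fun j _ => ?_
    ring
  rw [h1]
  refine GLat.sum fun j _ => GLat.smul ?_ (h'.2 _ (I.isChar j))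
  refine ⟨fun g k => ?_, fun χ hχ => ?_⟩
  · simp only [h.1 g k, (I.isChar j).isCF g k]
  · have h2 : pair (fun g => φ g * I.χ j g) χ = pair φ (fun g => I.χ j g⁻¹ * χ g) := by
      unfold pair
      congr 1
      refine Finset.sum_congr rfl fun g _ => ?_
      simp only [inv_inv]
      ring
    rw [h2]
    exact h.2 _ ((I.isChar j).inv.mul hχ)

theorem GLat.comap {Γ : Type} [Group Γ] [Fintype Γ] (f : Γ →* G) {φ : G → 𝕜} (h : GLat O φ) :
    GLat O (fun g => φ (f g)) := by
  obtain ⟨I⟩ := nonempty_irrSys 𝕜 G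
  have h1 : (fun g => φ (f g)) = fun g => ∑ j, pair φ (I.χ j) * I.χ j (f g) := by
    funext g
    exact I.complete φ h.1 (f g)
  rw [h1]
  exact GLat.sum fun j _ => GLat.smul (GLat.of_char ((I.isChar j).comap f)) (h.2 _ (I.isChar j))

/-- `∑ φ(g) ψ(g⁻¹) / |G|` is in `O` for elements of the lattice. -/
theorem GLat.pair_mem {φ ψ : G → 𝕜} (h : GLat O φ) (h' : GLat O ψ) : pair φ ψ ∈ O := by
  obtain ⟨I⟩ := nonempty_irrSys 𝕜 G
  rw [pair_eq_sum' I ψ h.1]
  exact O.sum_mem fun i _ => O.mul_mem (h.2 _ (I.isChar i)) (h'.2 _ (I.isChar i))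

/-- Class functions with values in `O`, multiplied by the order of the group. -/
theorem GLat.card_mul (hO : ∀ (χ : G → 𝕜), IsChar 𝕜 χ → ∀ g, χ g ∈ O) {φ : G → 𝕜} (h : IsCF φ)
    (h' : ∀ g, φ g ∈ O) : GLat O (fun g => (Nat.card G : 𝕜) * φ g) := by
  refine ⟨fun g k => ?_, fun χ hχ => ?_⟩
  · simp only [h g k]
  · rw [pair_smul_left']
    unfold pair
    have h0 : (Nat.card G : 𝕜) ≠ 0 := by
      exact_mod_cast Nat.card_pos.ne'
    rw [← mul_assoc, mul_inv_cancel₀ h0, one_mul]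
    exact O.sum_mem fun g _ => O.mul_mem (h' g) (hO χ hχ _)

/-- Translation of a character by a central element. -/
theorem GLat.translate {χ : G → 𝕜} (hχ : IsChar 𝕜 χ) {v : G} (hv : ∀ g, v * g = g * v) :
    GLat (integralClosure ℤ 𝕜).toSubring (fun g => χ (v * g)) := by
  classical
  obtain ⟨I⟩ := nonempty_irrSys 𝕜 G
  have h1 : ∀ i, ∀ g, I.χ i (g * v) = I.χ i v / I.χ i 1 * I.χ i g := by
    intro i g
    have hz : IsCF (fun h : G => if h = v then (1 : 𝕜) else 0) := by
      intro a b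
      have : b * a * b⁻¹ = v ↔ a = v := by
        constructor
        · intro h
          have h2 : b * a = v * b := by rw [← h]; group
          rw [hv] at h2
          exact mul_left_cancel h2
        · rintro rfl
          rw [← hv b]
          group
      simp only [this]
    have h2 := I.schur i _ hz g
    simpa using h2
  have h2 : ∀ i, ∀ k : ℕ, I.χ i (v ^ k) = (I.χ i v / I.χ i 1) ^ k * I.χ i 1 := by
    intro i k
    induction k with
    | zero => simp
    | succ k ih => rw [pow_succ, h1, ih, pow_succ]; ring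
  have h3 : ∀ i, IsIntegral ℤ (I.χ i v / I.χ i 1) := by
    intro i
    have h4 := h2 i (Nat.card G)
    rw [pow_card_eq_one'] at h4
    have h5 : (I.χ i v / I.χ i 1) ^ Nat.card G = 1 := by
      have h6 : 1 * I.χ i 1 = (I.χ i v / I.χ i 1) ^ Nat.card G * I.χ i 1 := by rw [one_mul]; exact h4
      exact (mul_right_cancel₀ (I.one_ne i) h6).symm
    have h7 : 0 < Nat.card G := Nat.card_pos
    refine IsIntegral.of_pow h7 ?_
    rw [h5]
    exact isIntegral_one
  obtain ⟨c, hc⟩ := I.decomp χ hχ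
  have h4 : (fun g => χ (v * g)) =
      fun g => ∑ i, ((c i : 𝕜) * (I.χ i v / I.χ i 1)) * I.χ i g := by
    funext g
    rw [hc, hv g]
    refine Finset.sum_congr rfl fun i _ => ?_
    rw [h1 i g]
    ring
  rw [h4]
  refine GLat.sum fun i _ => GLat.smul (GLat.of_char (I.isChar i)) ?_
  refine Subring.mul_mem _ (natCast_mem _ _) ?_
  exact h3 i

set_option linter.unusedVariables false in
/-- Parseval. -/
theorem pair_eq_sum (I : IrrSys 𝕜 G) {φ ψ : G → 𝕜} (h : IsCF φ) (h' : IsCF ψ) :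
    pair φ ψ = ∑ i, pair φ (I.χ i) * pair ψ (I.χ i) :=
  pair_eq_sum' I ψ h

end lat

end Pool.Agent.Lib.MP_02a407_al
end
end
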