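import Pool.Agent.Lib.MP_02a407_al.Q2.FGLat

section

/-!
# The numerical part: definitions
-/

namespace Pool.Agent.Lib.MP_02a407_al

namespace Num

/-- `2 ^ m - 1`. -/
def NN (m : ℕ) : ℕ := 2 ^ m - 1

/-- The period of `t` under doubling modulo `2 ^ m - 1`. -/
def per (m t : ℕ) : ℕ :=
  (((List.range m).map (· + 1)).find? (fun d => decide (NN m ∣ t * NN d))).getD m

/-- `t = t' (2 ^ m - 1) / (2 ^ d - 1)`, `d` the period of `t`. -/
def red (m t : ℕ) : ℕ := t * NN (per m t) / NN m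

/-- `m / lcm(d, e)`. -/
def kk (m d e : ℕ) : ℕ := m * Nat.gcd d e / (d * e)

/-- `2 ^ (m e / gcd(d, e))`. -/
def XX (m d e : ℕ) : ℕ := 2 ^ (m * (e / Nat.gcd d e))

/-- The value of `φ_t` at the cycle of `a`: the coefficient of `T ^ k` in
`∏_j (1 - X ζ_j T) / (1 - ζ_j T)`. -/
noncomputable def VV (m : ℕ) (ζ : ℂ) (t a : ℕ) : ℂ :=
  pexp (fun i => (1 - (XX m (per m t) (per m a) : ℂ) ^ i) *
    ∑ j ∈ Finset.range (Nat.gcd (per m t) (per m a)),
      (ζ ^ (red m t * red m a * (NN m / NN (Nat.gcd (per m t) (per m a))) * 2 ^ j)) ^ i)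
    (kk m (per m t) (per m a))

/-- The compositions of `k` into `g` parts `≥ 0`. -/
def comps : ℕ → ℕ → List (List ℕ)
  | 0, 0 => [[]]
  | 0, _ + 1 => []
  | g + 1, k => (List.range (k + 1)).flatMap (fun a => (comps g (k - a)).map (fun l => a :: l))

/-- The number of nonzero parts. -/
def supp (l : List ℕ) : ℕ := (l.filter (fun v => v ≠ 0)).length

/-- `∑ l_j 2 ^ j`. -/
def wt : List ℕ → ℕ
  | [] => 0
  | a :: l => a + 2 * wt l

/-- The coefficient of a composition. -/
def co (m d e : ℕ) (l : List ℕ) : ℚ :=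
  (m * kk m d e : ℚ) / (Nat.gcd d e : ℚ) *
      ((1 - (XX m d e : ℚ)) ^ supp l / (1 - (XX m d e : ℚ) ^ kk m d e)) -
    if supp l = 1 then (m : ℚ) / (Nat.gcd d e : ℚ) else 0

/-- The base point of a composition. -/
def bb (m d a : ℕ) (l : List ℕ) : ℕ :=
  red m a * wt l * (NN d / NN (Nat.gcd d (per m a)))

/-- The matrix of the reduced linear system. -/
def KK (m a a₁ : ℕ) : ℚ :=
  ∑ d ∈ m.divisors.erase m, ((comps (Nat.gcd d (per m a)) (kk m d (per m a))).map (fun l =>
    co m d (per m a) l * ∑ r ∈ d.divisors, if (a₁ : ℤ) ≡ (bb m d a l : ℤ) [ZMOD (NN r : ℤ)] then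
      (ArithmeticFunction.moebius (d / r) : ℚ) * (NN r : ℚ) / (m * NN m : ℚ) else 0)).sum

/-- The upper bound for the row sums, multiplied by `2 ^ m - 1`. -/
def Rr (m r : ℕ) : ℕ := ∑ ℓ ∈ m.primeFactors, Nat.gcd (NN (m / ℓ)) (NN m / NN r)

def rho (m e : ℕ) : ℕ :=
  ∑ d ∈ m.divisors.erase m, if kk m d e ≤ 1 then 0 else
    (2 + (Nat.gcd d e - 1).choose (kk m d e - 1)) * ∑ r ∈ d.divisors, NN r * Rr m r

end Num

end Pool.Agent.Lib.MP_02a407_al
end

section

/-!
# The numerical part: periods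
-/

namespace Pool.Agent.Lib.MP_02a407_al

namespace Num

private theorem NN_pos {m : ℕ} (hm : 1 ≤ m) : 0 < NN m := by
  have : 2 ^ 1 ≤ 2 ^ m := Nat.pow_le_pow_right (by norm_num) hm
  unfold NN
  omega

private theorem per_spec {m : ℕ} (hm : 1 ≤ m) (t : ℕ) :
    1 ≤ per m t ∧ NN m ∣ t * NN (per m t) ∧
      ∀ d, 1 ≤ d → d < per m t → ¬ NN m ∣ t * NN d := by
  unfold per
  cases hfind : ((List.range m).map (· + 1)).find? (fun d => decide (NN m ∣ t * NN d)) with
  | none =>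
    exfalso
    rw [List.find?_eq_none] at hfind
    have h1 : m ∈ (List.range m).map (· + 1) := by
      rw [List.mem_map]
      exact ⟨m - 1, List.mem_range.2 (by omega), by omega⟩
    have h2 := hfind m h1
    apply h2
    simp
  | some d =>
    rw [Option.getD_some]
    rw [List.find?_eq_some_iff_getElem] at hfind
    obtain ⟨h1, i, hi, hid, h2⟩ := hfind
    have hid' : i + 1 = d := by simpa using hid
    refine ⟨by omega, by simpa using h1, ?_⟩
    intro e he1 he2
    have h3 := h2 (e - 1) (by omega)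
    have h4 : e - 1 + 1 = e := by omega
    simp only [List.getElem_map, List.getElem_range, h4] at h3
    simpa using h3

theorem per_pos {m t : ℕ} (hm : 1 ≤ m) : 1 ≤ per m t := (per_spec hm t).1

theorem NN_dvd {m d : ℕ} (h : d ∣ m) : NN d ∣ NN m := by
  obtain ⟨k, rfl⟩ := h
  unfold NN
  have := Nat.sub_dvd_pow_sub_pow (2 ^ d) 1 k
  rw [one_pow, ← pow_mul] at this
  exact this

theorem dvd_iff_per_dvd {m t d : ℕ} (hm : 1 ≤ m) : NN m ∣ t * NN d ↔ per m t ∣ d := by
  obtain ⟨h1, h2, h3⟩ := per_spec hm t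
  constructor
  · intro h
    have hd := Nat.div_add_mod d (per m t)
    set p := per m t with hp
    have hlt : d % p < p := Nat.mod_lt _ h1
    have h4 : NN m ∣ t * NN (p * (d / p)) := by
      refine dvd_trans h2 (Nat.mul_dvd_mul_left t (NN_dvd (Dvd.intro _ rfl)))
    have h5 : NN d = NN (p * (d / p)) * 2 ^ (d % p) + NN (d % p) := by
      unfold NN
      conv_lhs => rw [← hd, pow_add]
      have h6 : 1 ≤ 2 ^ (p * (d / p)) := Nat.one_le_two_pow
      have h7 : 1 ≤ 2 ^ (d % p) := Nat.one_le_two_pow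
      obtain ⟨x, hx⟩ : ∃ x, 2 ^ (p * (d / p)) = x + 1 := ⟨2 ^ (p * (d / p)) - 1, by omega⟩
      obtain ⟨y, hy⟩ : ∃ y, 2 ^ (d % p) = y + 1 := ⟨2 ^ (d % p) - 1, by omega⟩
      rw [hx, hy]
      have : (x + 1) * (y + 1) = x * (y + 1) + y + 1 := by ring
      rw [this]
      simp
    have h6 : NN m ∣ t * NN (d % p) := by
      have h7 : t * NN d = t * NN (p * (d / p)) * 2 ^ (d % p) + t * NN (d % p) := by
        rw [h5]; ring
      rw [h7] at h
      exact (Nat.dvd_add_right (Dvd.dvd.mul_right h4 _)).1 h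
    by_contra hcon
    have h8 : 1 ≤ d % p := by
      rw [Nat.one_le_iff_ne_zero]
      intro h0
      exact hcon (Nat.dvd_of_mod_eq_zero h0)
    exact h3 _ h8 hlt h6
  · intro h
    exact dvd_trans h2 (Nat.mul_dvd_mul_left t (NN_dvd h))

theorem per_dvd {m t : ℕ} (hm : 1 ≤ m) : per m t ∣ m :=
  (dvd_iff_per_dvd hm).1 (Dvd.intro_left t rfl)

private theorem coprime_two {m : ℕ} (hm : 1 ≤ m) : Nat.Coprime (NN m) 2 := by
  rw [Nat.coprime_two_right]
  obtain ⟨k, rfl⟩ : ∃ k, m = k + 1 := ⟨m - 1, by omega⟩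
  refine ⟨2 ^ k - 1, ?_⟩
  unfold NN
  have : 1 ≤ 2 ^ k := Nat.one_le_two_pow
  rw [pow_succ]
  omega

theorem per_mul_two {m t : ℕ} (hm : 1 ≤ m) : per m ((2 * t) % NN m) = per m t := by
  have key : ∀ d, per m ((2 * t) % NN m) ∣ d ↔ per m t ∣ d := by
    intro d
    rw [← dvd_iff_per_dvd hm, ← dvd_iff_per_dvd hm]
    have h1 : NN m ∣ (2 * t) % NN m * NN d ↔ NN m ∣ 2 * t * NN d := by
      rw [Nat.dvd_iff_mod_eq_zero, Nat.dvd_iff_mod_eq_zero, Nat.mod_mul_mod]
    rw [h1, mul_assoc]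
    exact (coprime_two hm).dvd_mul_left
  exact Nat.dvd_antisymm ((key _).2 dvd_rfl) ((key _).1 dvd_rfl)

theorem red_mul {m t : ℕ} (hm : 1 ≤ m) : red m t * (NN m / NN (per m t)) = t := by
  obtain ⟨h1, h2, h3⟩ := per_spec hm t
  obtain ⟨M, hM⟩ := NN_dvd (per_dvd (t := t) hm)
  obtain ⟨c, hc⟩ := h2
  have hN := NN_pos hm
  have hP := NN_pos h1
  unfold red
  rw [hc, Nat.mul_div_cancel_left _ hN]
  rw [hM, Nat.mul_div_cancel_left _ hP]
  rw [hM] at hc
  have h4 : NN (per m t) * t = NN (per m t) * (c * M) := by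
    rw [mul_comm, hc]; ring
  exact (Nat.eq_of_mul_eq_mul_left hP h4).symm

private theorem card_class {N A R : ℕ} (hN : 0 < N) (hA : A ∣ N) (hR : R ∣ N) (b : ℤ) :
    ((Finset.range N).filter (fun a => N / A ∣ a ∧ (a : ℤ) ≡ b [ZMOD (R : ℤ)])).card ≤
      Nat.gcd A (N / R) := by
  have hNA : N / A ∣ N := Nat.div_dvd_of_dvd hA
  set Λ := Nat.lcm (N / A) R with hΛ
  have hΛN : Λ ∣ N := Nat.lcm_dvd hNA hR
  have hΛ0 : 0 < Λ := Nat.pos_of_dvd_of_pos hΛN hN
  obtain ⟨v, hv⟩ := hΛN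
  have hv0 : 0 < v := by
    rcases Nat.eq_zero_or_pos v with h | h
    · rw [h, mul_zero] at hv
      omega
    · exact h
  have hvA : v ∣ A := by
    obtain ⟨u, hu⟩ : N / A ∣ Λ := Nat.dvd_lcm_left _ _
    have h1 : 0 < N / A := Nat.pos_of_dvd_of_pos hNA hN
    have h2 : N / A * A = N / A * (u * v) := by
      rw [Nat.div_mul_cancel hA, ← mul_assoc, ← hu, ← hv]
    rw [Nat.eq_of_mul_eq_mul_left h1 h2]
    exact Dvd.intro_left u rfl
  have hvB : v ∣ N / R := by
    obtain ⟨u, hu⟩ : R ∣ Λ := Nat.dvd_lcm_right _ _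
    have hR0 : 0 < R := Nat.pos_of_dvd_of_pos hR hN
    have h2 : R * (N / R) = R * (u * v) := by
      rw [Nat.mul_div_cancel' hR, ← mul_assoc, ← hu, ← hv]
    rw [Nat.eq_of_mul_eq_mul_left hR0 h2]
    exact Dvd.intro_left u rfl
  have hA0 : 0 < A := Nat.pos_of_dvd_of_pos hA hN
  refine le_trans ?_ (Nat.le_of_dvd (Nat.gcd_pos_of_pos_left _ hA0) (Nat.dvd_gcd hvA hvB))
  have hcard : v = (Finset.range v).card := (Finset.card_range v).symm
  rw [hcard]
  refine Finset.card_le_card_of_injOn (fun a => a / Λ) ?_ ?_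
  · intro a ha
    rw [Finset.mem_coe, Finset.mem_filter, Finset.mem_range] at ha
    rw [Finset.mem_coe, Finset.mem_range, Nat.div_lt_iff_lt_mul hΛ0, mul_comm, ← hv]
    exact ha.1
  · intro a ha a' ha' h
    rw [Finset.mem_coe, Finset.mem_filter, Finset.mem_range] at ha ha'
    have h1 : ((N / A : ℕ) : ℤ) ∣ (a : ℤ) - a' :=
      dvd_sub (Int.natCast_dvd_natCast.2 ha.2.1) (Int.natCast_dvd_natCast.2 ha'.2.1)
    have h2 : (R : ℤ) ∣ (a : ℤ) - a' := by
      have := (ha.2.2.trans ha'.2.2.symm).symm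
      exact this.dvd
    have h3 : ((Λ : ℕ) : ℤ) ∣ (a : ℤ) - a' := by
      rw [hΛ, Int.natCast_dvd] at *
      exact Nat.lcm_dvd h1 h2
    have h4 : a ≡ a' [MOD Λ] := by
      rw [← Int.natCast_modEq_iff]
      exact (Int.modEq_iff_dvd.2 h3).symm
    have h5 : a % Λ = a' % Λ := h4
    have h6 : a / Λ = a' / Λ := h
    rw [← Nat.div_add_mod a Λ, ← Nat.div_add_mod a' Λ, h5, h6]

/-- The number of the `a < 2 ^ m - 1` of smaller period in a residue class. -/
theorem card_imprimitive {m r : ℕ} (hm : 1 ≤ m) (hr : r ∣ m) (b : ℤ) :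
    ((Finset.range (NN m)).filter (fun a => per m a < m ∧ (a : ℤ) ≡ b [ZMOD (NN r : ℤ)])).card ≤
      Rr m r := by
  classical
  have hN := NN_pos hm
  have hsub : (Finset.range (NN m)).filter
      (fun a => per m a < m ∧ (a : ℤ) ≡ b [ZMOD (NN r : ℤ)]) ⊆
      m.primeFactors.biUnion (fun ℓ => (Finset.range (NN m)).filter
        (fun a => NN m / NN (m / ℓ) ∣ a ∧ (a : ℤ) ≡ b [ZMOD (NN r : ℤ)])) := by
    intro a ha
    rw [Finset.mem_filter] at ha
    obtain ⟨ha1, ha2, ha3⟩ := ha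
    rw [Finset.mem_biUnion]
    obtain ⟨c, hc⟩ := per_dvd (t := a) hm
    have hc1 : c ≠ 1 := by
      rintro rfl
      omega
    have hc0 : c ≠ 0 := by
      rintro rfl
      omega
    have hpc : (c.minFac).Prime := Nat.minFac_prime hc1
    have hdc : c.minFac ∣ c := Nat.minFac_dvd c
    have hdm : c.minFac ∣ m := by
      rw [hc]
      exact Dvd.dvd.mul_left hdc _
    refine ⟨c.minFac, Nat.mem_primeFactors.2 ⟨hpc, hdm, by omega⟩, ?_⟩
    rw [Finset.mem_filter]
    refine ⟨ha1, ?_, ha3⟩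
    have h1 : per m a ∣ m / c.minFac := by
      conv_rhs => rw [hc]
      rw [Nat.mul_div_assoc _ hdc]
      exact Dvd.intro _ rfl
    have h2 := (dvd_iff_per_dvd hm).2 h1
    have h3 : NN (m / c.minFac) ∣ NN m := NN_dvd (Nat.div_dvd_of_dvd hdm)
    have h4 : 0 < NN (m / c.minFac) := Nat.pos_of_dvd_of_pos h3 hN
    have h5 : NN m = NN m / NN (m / c.minFac) * NN (m / c.minFac) := (Nat.div_mul_cancel h3).symm
    rw [h5] at h2
    exact Nat.dvd_of_mul_dvd_mul_right h4 h2
  refine (Finset.card_le_card hsub).trans (Finset.card_biUnion_le.trans ?_)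
  unfold Rr
  refine Finset.sum_le_sum fun ℓ hℓ => ?_
  rw [Nat.mem_primeFactors] at hℓ
  exact card_class hN (NN_dvd (Nat.div_dvd_of_dvd hℓ.2.1)) (NN_dvd hr) b

end Num

end Pool.Agent.Lib.MP_02a407_al
end

section

/-!
# Class functions which are determined by the `p`-regular part
-/

namespace Pool.Agent.Lib.MP_02a407_al

open Module

set_option linter.unusedSectionVars false

/-- The ring of algebraic integers of `𝕜`. -/
abbrev OO (𝕜 : Type) [Field 𝕜] : Subring 𝕜 := (integralClosure ℤ 𝕜).toSubring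

/-- The order of `g` is prime to `p`. -/
def IsReg {G : Type} [Group G] (p : ℕ) (g : G) : Prop := ∃ N : ℕ, N.Coprime p ∧ g ^ N = 1

section aux

open Classical in
theorem fgreg_sum_centralizer {𝕜 G : Type} [Field 𝕜] [Group G] [Fintype G] (v : G) (X : G → 𝕜) :
    ∑ h : Subgroup.centralizer {v}, X h = ∑ h : G, if h * v = v * h then X h else 0 := by
  rw [← Finset.sum_filter]
  exact (Finset.sum_subtype _ (by simp [Subgroup.mem_centralizer_singleton_iff]) X).symm

open Classical in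
theorem fgreg_card_centralizer {𝕜 G : Type} [Field 𝕜] [Group G] [Fintype G] (v : G) :
    (Nat.card (Subgroup.centralizer {v}) : 𝕜) = ∑ h : G, if h * v = v * h then (1:𝕜) else 0 := by
  rw [← fgreg_sum_centralizer v (fun _ => (1:𝕜))]
  simp

open Classical in
theorem fgreg_isCF_sum {𝕜 G : Type} [Field 𝕜] [Group G] [Fintype G] (X : G → G → 𝕜)
    (hX : ∀ k v h, X (k * v * k⁻¹) (k * h * k⁻¹) = X v h) :
    IsCF (fun v => ∑ h : G, if h * v = v * h then X v h else 0) := by
  intro v k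
  simp only
  rw [← Equiv.sum_comp (MulAut.conj k).toEquiv]
  refine Finset.sum_congr rfl fun h _ => ?_
  have h1 : (MulAut.conj k).toEquiv h = k * h * k⁻¹ := rfl
  rw [h1, hX]
  have h2 : k * h * k⁻¹ * (k * v * k⁻¹) = k * v * k⁻¹ * (k * h * k⁻¹) ↔ h * v = v * h := by
    have e1 : k * h * k⁻¹ * (k * v * k⁻¹) = k * (h * v) * k⁻¹ := by group
    have e2 : k * v * k⁻¹ * (k * h * k⁻¹) = k * (v * h) * k⁻¹ := by group
    rw [e1, e2]
    constructor
    · intro h3
      exact mul_left_cancel (mul_right_cancel h3)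
    · intro h3
      rw [h3]
  simp only [h2]

open Classical in
/-- Sum over the conjugacy classes. -/
theorem fgreg_class_sum {𝕜 G : Type} [Field 𝕜] [Group G] [Fintype G] (F : G → 𝕜) (hF : IsCF F) :
    ∑ v : G, (Nat.card (Subgroup.centralizer {v}) : 𝕜) * F v =
      (Nat.card G : 𝕜) * ∑ c : ConjClasses G, F c.out := by
  have hfib : ∀ c : ConjClasses G, ∑ v : G, (if ConjClasses.mk v = c then
      (Nat.card (Subgroup.centralizer {v}) : 𝕜) * F v else 0) = (Nat.card G : 𝕜) * F c.out := by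
    intro c
    set v₀ := c.out with hv₀
    have hc : ConjClasses.mk v₀ = c := Quotient.out_eq c
    have h1 : ∑ k : G, F (k * v₀ * k⁻¹) = (Nat.card G : 𝕜) * F v₀ := by
      rw [Finset.sum_congr rfl fun k _ => hF v₀ k]
      simp
    rw [← h1, ← Finset.sum_fiberwise (Finset.univ) (fun k : G => k * v₀ * k⁻¹)
      (fun k : G => F (k * v₀ * k⁻¹))]
    refine Finset.sum_congr rfl fun v _ => ?_
    have h2 : ∑ k ∈ Finset.univ.filter (fun k : G => k * v₀ * k⁻¹ = v), F (k * v₀ * k⁻¹) =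
        ((Finset.univ.filter (fun k : G => k * v₀ * k⁻¹ = v)).card : 𝕜) * F v := by
      rw [Finset.sum_congr rfl (g := fun _ => F v) (fun k hk => by
        rw [(Finset.mem_filter.1 hk).2])]
      simp
    rw [h2]
    split_ifs with hv
    · congr 1
      rw [← hc, ConjClasses.mk_eq_mk_iff_isConj] at hv
      obtain ⟨k₀, hk₀⟩ := isConj_iff.1 hv.symm
      rw [fgreg_card_centralizer, ← Finset.sum_filter, Finset.sum_const, nsmul_eq_mul, mul_one]
      congr 1
      refine Finset.card_bij' (fun x _ => x * k₀) (fun k _ => k * k₀⁻¹) ?_ ?_ ?_ ?_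
      · intro x hx
        rw [Finset.mem_filter] at hx ⊢
        refine ⟨Finset.mem_univ _, ?_⟩
        have e1 : x * k₀ * v₀ * (x * k₀)⁻¹ = x * (k₀ * v₀ * k₀⁻¹) * x⁻¹ := by group
        rw [e1, hk₀, hx.2]
        group
      · intro k hk
        rw [Finset.mem_filter] at hk ⊢
        refine ⟨Finset.mem_univ _, ?_⟩
        have e1 : v₀ = k₀⁻¹ * v * k₀ := by rw [← hk₀]; group
        have e2 := hk.2
        have e3 : k * k₀⁻¹ * v = k * v₀ * k⁻¹ * (k * k₀⁻¹) := by
          rw [e1]; group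
        rw [e3, e2]
      · intro x _
        group
      · intro k _
        group
    · have h3 : (Finset.univ.filter (fun k : G => k * v₀ * k⁻¹ = v)) = ∅ := by
        rw [Finset.filter_eq_empty_iff]
        intro k _ hk
        apply hv
        rw [← hc, ConjClasses.mk_eq_mk_iff_isConj]
        exact (isConj_iff.2 ⟨k, hk⟩).symm
      rw [h3]
      simp
  rw [Finset.mul_sum, ← Finset.sum_congr rfl fun c _ => hfib c, Finset.sum_comm]
  refine Finset.sum_congr rfl fun v _ => ?_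
  rw [Finset.sum_ite_eq]
  simp

/-- Exponents giving the `p`-part and the `p`-regular part. -/
theorem fgreg_exists_exp (p : ℕ) (hp : p.Prime) {G : Type} [Group G] [Fintype G] :
    ∃ e f : ℕ, (∀ g : G, g ^ e * g ^ f = g) ∧ (∀ g : G, ∃ k : ℕ, (g ^ e) ^ (p ^ k) = 1) ∧
      (∀ g : G, IsReg p (g ^ f)) ∧
      (∀ v : G, (∃ k : ℕ, v ^ (p ^ k) = 1) → v ^ e = v ∧ v ^ f = 1) ∧
      (∀ h : G, IsReg p h → h ^ e = 1 ∧ h ^ f = h) := by
  obtain ⟨a, n, hn, hN⟩ := Nat.exists_eq_pow_mul_and_not_dvd (Nat.card_pos (α := G)).ne' p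
    hp.ne_one
  have hcop' : Nat.Coprime p n := (Nat.Prime.coprime_iff_not_dvd hp).2 hn
  have hcop : Nat.Coprime (p ^ a) n := hcop'.pow_left a
  obtain ⟨e, he1, he2⟩ := Nat.chineseRemainder hcop 1 0
  obtain ⟨f, hf1, hf2⟩ := Nat.chineseRemainder hcop 0 1
  have hNg : ∀ g : G, g ^ (p ^ a * n) = 1 := by
    intro g
    rw [← hN]
    exact pow_card_eq_one'
  have hvp : ∀ v : G, (∃ k : ℕ, v ^ (p ^ k) = 1) → v ^ (p ^ a) = 1 := by
    rintro v ⟨k, hk⟩
    rw [← orderOf_dvd_iff_pow_eq_one] at hk ⊢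
    have h1 : orderOf v ∣ p ^ a * n := orderOf_dvd_of_pow_eq_one (hNg v)
    have h2 : Nat.Coprime (orderOf v) n :=
      Nat.Coprime.coprime_dvd_left hk (hcop'.pow_left k)
    exact h2.dvd_of_dvd_mul_right h1
  have hreg : ∀ h : G, IsReg p h → h ^ n = 1 := by
    rintro h ⟨M, hM, hh⟩
    rw [← orderOf_dvd_iff_pow_eq_one] at hh ⊢
    have h1 : orderOf h ∣ p ^ a * n := orderOf_dvd_of_pow_eq_one (hNg h)
    have h2 : Nat.Coprime (orderOf h) (p ^ a) :=
      Nat.Coprime.coprime_dvd_left hh (hM.pow_right a)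
    exact h2.dvd_of_dvd_mul_left h1
  have hpm : ∀ (x y m : ℕ) (g : G), x ≡ y [MOD m] → g ^ m = 1 → g ^ x = g ^ y := by
    intro x y m g hxy hg
    rw [pow_eq_pow_iff_modEq]
    exact hxy.of_dvd (orderOf_dvd_of_pow_eq_one hg)
  refine ⟨e, f, ?_, ?_, ?_, ?_, ?_⟩
  · intro g
    rw [← pow_add]
    conv_rhs => rw [← pow_one g]
    refine hpm _ _ (p ^ a * n) g ?_ (hNg g)
    rw [← Nat.modEq_and_modEq_iff_modEq_mul hcop]
    exact ⟨he1.add hf1, he2.add hf2⟩
  · intro g
    refine ⟨a, ?_⟩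
    rw [← pow_mul]
    obtain ⟨c, hc⟩ := (Nat.modEq_zero_iff_dvd).1 he2
    rw [hc]
    have : n * c * p ^ a = (p ^ a * n) * c := by ring
    rw [this, pow_mul, hNg, one_pow]
  · intro g
    refine ⟨n, hcop'.symm, ?_⟩
    rw [← pow_mul]
    obtain ⟨c, hc⟩ := (Nat.modEq_zero_iff_dvd).1 hf1
    rw [hc]
    have : p ^ a * c * n = (p ^ a * n) * c := by ring
    rw [this, pow_mul, hNg, one_pow]
  · intro v hv
    have h1 := hvp v hv
    exact ⟨by rw [hpm e 1 _ v he1 h1, pow_one], by rw [hpm f 0 _ v hf1 h1, pow_zero]⟩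
  · intro h hh
    have h1 := hreg h hh
    exact ⟨by rw [hpm e 0 _ h he2 h1, pow_zero], by rw [hpm f 1 _ h hf2 h1, pow_one]⟩

open Classical in
/-- Sum over the Jordan decompositions. -/
theorem fgreg_jordan_sum (p : ℕ) (hp : p.Prime) {𝕜 G : Type} [Field 𝕜] [Group G] [Fintype G]
    (X : G → 𝕜) :
    ∑ g : G, X g = ∑ v : G, if (∃ k : ℕ, v ^ (p ^ k) = 1) then
      ∑ h : G, if h * v = v * h then (if IsReg p h then X (v * h) else 0) else 0 else 0 := by
  obtain ⟨e, f, h1, h2, h3, h4, h5⟩ := fgreg_exists_exp p hp (G := G)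
  rw [← Finset.sum_fiberwise Finset.univ (fun g : G => g ^ e)]
  refine Finset.sum_congr rfl fun v _ => ?_
  split_ifs with hv
  · simp only [← ite_and]
    rw [← Finset.sum_filter]
    refine Finset.sum_bij' (fun g _ => g ^ f) (fun h _ => v * h) ?_ ?_ ?_ ?_ ?_
    · intro g hg
      rw [Finset.mem_filter] at hg ⊢
      refine ⟨Finset.mem_univ _, ?_, h3 g⟩
      rw [← hg.2, ← pow_add, ← pow_add, add_comm]
    · intro h hh
      rw [Finset.mem_filter] at hh ⊢
      refine ⟨Finset.mem_univ _, ?_⟩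
      have hc : Commute v h := hh.2.1.symm
      rw [hc.mul_pow, (h4 v hv).1, (h5 h hh.2.2).1, mul_one]
    · intro g hg
      rw [Finset.mem_filter] at hg
      rw [← hg.2]
      exact h1 g
    · intro h hh
      rw [Finset.mem_filter] at hh
      have hc : Commute v h := hh.2.1.symm
      rw [hc.mul_pow, (h4 v hv).2, (h5 h hh.2.2).2, one_mul]
    · intro g hg
      rw [Finset.mem_filter] at hg
      rw [← hg.2, h1 g]
  · refine Finset.sum_eq_zero fun g hg => ?_
    rw [Finset.mem_filter] at hg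
    exfalso
    apply hv
    rw [← hg.2]
    exact h2 g

end aux

variable {𝕜 : Type} [Field 𝕜] [IsAlgClosed 𝕜] [CharZero 𝕜] {G : Type} [Group G] [Fintype G]

open Classical in
/-- A class function `φ` with `φ(v g) = φ(g)` for commuting `v`, `g`, `v` of order a power of `p`
and `g` `p`-regular, is in the lattice if its restriction to the `p`-regular elements, extended
by `0`, is. -/
theorem gLat_of_reg (p : ℕ) (hp : p.Prime) {φ : G → 𝕜} (hφ : IsCF φ)
    (h : ∀ v g : G, (∃ k : ℕ, v ^ (p ^ k) = 1) → IsReg p g → v * g = g * v → φ (v * g) = φ g)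
    (hR : GLat (OO 𝕜) (fun g => if IsReg p g then φ g else 0)) : GLat (OO 𝕜) φ := by
  refine ⟨hφ, fun ψ hψ => ?_⟩
  set φR : G → 𝕜 := fun g => if IsReg p g then φ g else 0 with hφR
  have hregc : ∀ k g : G, IsReg p (k * g * k⁻¹) ↔ IsReg p g := by
    intro k g
    unfold IsReg
    constructor
    · rintro ⟨N, hN, h1⟩
      refine ⟨N, hN, ?_⟩
      rw [conj_pow] at h1
      have h2 : k * g ^ N = k := by
        rw [mul_inv_eq_one] at h1
        exact h1
      exact mul_eq_left.1 h2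
    · rintro ⟨N, hN, h1⟩
      refine ⟨N, hN, ?_⟩
      rw [conj_pow, h1]
      group
  have hpel : ∀ k v : G, (∃ m : ℕ, (k * v * k⁻¹) ^ (p ^ m) = 1) ↔ ∃ m : ℕ, v ^ (p ^ m) = 1 := by
    intro k v
    constructor
    · rintro ⟨m, h1⟩
      refine ⟨m, ?_⟩
      rw [conj_pow, mul_inv_eq_one] at h1
      exact mul_eq_left.1 h1
    · rintro ⟨m, h1⟩
      refine ⟨m, ?_⟩
      rw [conj_pow, h1]
      group
  -- the sum over the centralizer
  set S : G → 𝕜 := fun v => ∑ h : G, if h * v = v * h then φR h * ψ (v⁻¹ * h⁻¹) else 0 with hS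
  have hScf : IsCF S := by
    refine fgreg_isCF_sum (fun v h => φR h * ψ (v⁻¹ * h⁻¹)) ?_
    intro k v h
    have e1 : φR (k * h * k⁻¹) = φR h := by
      simp only [hφR, hregc, hφ h k]
    have e2 : (k * v * k⁻¹)⁻¹ * (k * h * k⁻¹)⁻¹ = k * (v⁻¹ * h⁻¹) * k⁻¹ := by group
    rw [e1, e2, hψ.isCF]
  have hccf : IsCF (fun v : G => (Nat.card (Subgroup.centralizer {v}) : 𝕜)) := by
    have := fgreg_isCF_sum (fun _ _ : G => (1:𝕜)) (fun _ _ _ => rfl)
    intro v k
    have h1 := this v k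
    simp only [← fgreg_card_centralizer] at h1
    exact h1
  have hcne : ∀ v : G, (Nat.card (Subgroup.centralizer {v}) : 𝕜) ≠ 0 := by
    intro v
    exact_mod_cast Nat.card_pos.ne'
  set F : G → 𝕜 := fun v => if (∃ k : ℕ, v ^ (p ^ k) = 1) then
    (Nat.card (Subgroup.centralizer {v}) : 𝕜)⁻¹ * S v else 0 with hF
  have hFcf : IsCF F := by
    intro v k
    simp only [hF, hpel, hScf v k, hccf v k]
  have hFmem : ∀ v, F v ∈ OO 𝕜 := by
    intro v
    simp only [hF]
    split_ifs with hv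
    · have h1 : GLat (OO 𝕜) (fun g : Subgroup.centralizer {v} =>
          φR ((Subgroup.centralizer {v}).subtype g)) := GLat.comap _ hR
      set w : Subgroup.centralizer {v} := ⟨v⁻¹, by
        rw [Subgroup.mem_centralizer_singleton_iff]; group⟩ with hw
      have h2 : GLat (OO 𝕜) (fun g : Subgroup.centralizer {v} =>
          (fun x : Subgroup.centralizer {v} => ψ ((Subgroup.centralizer {v}).subtype x)) (w * g)) := by
        refine GLat.translate (hψ.comap _) ?_
        intro g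
        have h3 := Subgroup.mem_centralizer_singleton_iff.1 g.2
        apply Subtype.ext
        simp only [hw, Subgroup.coe_mul]
        have h4 : v⁻¹ * (g : G) = v⁻¹ * ((g : G) * v) * v⁻¹ := by group
        rw [h4, h3]
        group
      have h3 := h1.pair_mem h2
      have h4 : pair (fun g : Subgroup.centralizer {v} => φR ((Subgroup.centralizer {v}).subtype g))
          (fun g : Subgroup.centralizer {v} =>
          (fun x : Subgroup.centralizer {v} => ψ ((Subgroup.centralizer {v}).subtype x)) (w * g)) =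
          (Nat.card (Subgroup.centralizer {v}) : 𝕜)⁻¹ * S v := by
        unfold pair
        congr 1
        rw [hS]
        simp only
        rw [← fgreg_sum_centralizer v (fun h => φR h * ψ (v⁻¹ * h⁻¹))]
        refine Finset.sum_congr rfl fun g _ => ?_
        simp [hw]
      rw [← h4]
      exact h3
    · exact Subring.zero_mem _
  have hmain : pair φ ψ = ∑ c : ConjClasses G, F c.out := by
    have h0 : (Nat.card G : 𝕜) ≠ 0 := by exact_mod_cast Nat.card_pos.ne'
    unfold pair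
    rw [inv_mul_eq_iff_eq_mul₀ h0, ← fgreg_class_sum F hFcf,
      fgreg_jordan_sum p hp (fun g => φ g * ψ g⁻¹)]
    refine Finset.sum_congr rfl fun v _ => ?_
    simp only [hF]
    split_ifs with hv
    · rw [← mul_assoc, mul_inv_cancel₀ (hcne v), one_mul, hS]
      refine Finset.sum_congr rfl fun g _ => ?_
      by_cases hg : g * v = v * g
      · rw [if_pos hg, if_pos hg]
        simp only [hφR]
        by_cases hr : IsReg p g
        · rw [if_pos hr, if_pos hr, h v g hv hr hg.symm]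
          congr 2
          rw [← hg, mul_inv_rev]
        · rw [if_neg hr, if_neg hr, zero_mul]
      · rw [if_neg hg, if_neg hg]
    · rw [mul_zero]
  rw [hmain]
  exact Subring.sum_mem _ fun c _ => hFmem _

theorem gLat_of_local {O : Subring 𝕜} {φ : G → 𝕜}
    (h : ∀ ℓ : ℕ, ℓ.Prime → ∃ N : ℕ, ¬ ℓ ∣ N ∧ GLat O (fun g => (N : 𝕜) * φ g)) : GLat O φ := by
  refine ⟨?_, fun ψ hψ => ?_⟩
  · obtain ⟨N, hN, h1⟩ := h 2 Nat.prime_two
    have hN0 : (N : 𝕜) ≠ 0 := by
      rw [Nat.cast_ne_zero]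
      rintro rfl
      exact hN (dvd_zero 2)
    intro g k
    exact mul_left_cancel₀ hN0 (h1.1 g k)
  · set x := pair φ ψ with hx
    let I : AddSubgroup ℤ := (O.toAddSubgroup).comap
      ((AddMonoidHom.mulRight x).comp (Int.castAddHom 𝕜))
    have hI : ∀ n : ℤ, n ∈ I ↔ (n : 𝕜) * x ∈ O := fun n => Iff.rfl
    obtain ⟨d, hd⟩ := Int.subgroup_cyclic I
    have hmem : ∀ ℓ : ℕ, ℓ.Prime → ∃ N : ℕ, ¬ ℓ ∣ N ∧ (N : ℤ) ∈ I := by
      intro ℓ hℓ
      obtain ⟨N, hN, h1⟩ := h ℓ hℓ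
      refine ⟨N, hN, ?_⟩
      rw [hI]
      have h2 := h1.2 ψ hψ
      rw [pair_smul_left'] at h2
      simpa using h2
    have hd' : ∀ n : ℤ, n ∈ I ↔ d ∣ n := by
      intro n
      rw [hd, AddSubgroup.mem_closure_singleton]
      constructor
      · rintro ⟨k, rfl⟩
        exact ⟨k, by rw [smul_eq_mul, mul_comm]⟩
      · rintro ⟨k, rfl⟩
        exact ⟨k, by rw [smul_eq_mul, mul_comm]⟩
    have hunit : d.natAbs = 1 := by
      by_contra hne
      obtain ⟨ℓ, hℓ, hdvd⟩ := Nat.exists_prime_and_dvd hne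
      obtain ⟨N, hN, h1⟩ := hmem ℓ hℓ
      rw [hd'] at h1
      apply hN
      have h2 : (ℓ : ℤ) ∣ N := (Int.natCast_dvd.2 hdvd).trans h1
      exact_mod_cast h2
    have h1 : (1 : ℤ) ∈ I := by
      rw [hd', ← Int.natAbs_dvd, hunit]
      simp
    rw [hI] at h1
    simpa using h1

end Pool.Agent.Lib.MP_02a407_al
end
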