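import Pool.Agent.Lib.MP_02a407_al.Q2.Hall

section

/-!
# Harish-Chandra restriction of functions on classes
-/

namespace Pool.Agent.Lib.MP_02a407_al

open Module

variable {K : Type} [Field K]

section

variable {M₁ M₂ : Type} [AddCommGroup M₁] [Module K M₁] [AddCommGroup M₂] [Module K M₂]

noncomputable instance instFintypeLinearMap [Finite K] [FiniteDimensional K M₁]
    [FiniteDimensional K M₂] : Fintype (M₁ →ₗ[K] M₂) :=
  have := finite_linearMap (K := K) (M := M₁) (N := M₂)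
  Fintype.ofFinite _

noncomputable instance instFintypeLinearEquiv [Finite K] [FiniteDimensional K M₁] :
    Fintype (M₁ ≃ₗ[K] M₁) :=
  have := finite_linearEquiv (K := K) (M := M₁)
  Fintype.ofFinite _

/-- The block upper triangular automorphism `[[A, X], [0, S]]` of `M₁ × M₂`. -/
def utAut (A : M₁ ≃ₗ[K] M₁) (S : M₂ ≃ₗ[K] M₂) (X : M₂ →ₗ[K] M₁) :
    (M₁ × M₂) ≃ₗ[K] (M₁ × M₂) where
  toFun p := (A p.1 + X p.2, S p.2)
  map_add' p q := by
    ext
    · simp only [Prod.fst_add, Prod.snd_add, map_add]; abel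
    · simp only [Prod.snd_add, map_add]
  map_smul' c p := by
    ext
    · simp only [Prod.smul_fst, Prod.smul_snd, map_smul, RingHom.id_apply, smul_add]
    · simp only [Prod.smul_snd, map_smul, RingHom.id_apply]
  invFun p := (A.symm (p.1 - X (S.symm p.2)), S.symm p.2)
  left_inv p := by ext <;> simp
  right_inv p := by ext <;> simp

@[simp] lemma utAut_apply (A : M₁ ≃ₗ[K] M₁) (S : M₂ ≃ₗ[K] M₂) (X : M₂ →ₗ[K] M₁) (p : M₁ × M₂) :
    utAut A S X p = (A p.1 + X p.2, S p.2) := rfl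

lemma utAut_zero (A : M₁ ≃ₗ[K] M₁) (S : M₂ ≃ₗ[K] M₂) : utAut A S 0 = prodAut A S := by
  ext p <;> simp

lemma utAut_conj (A : M₁ ≃ₗ[K] M₁) (S : M₂ ≃ₗ[K] M₂) (X : M₂ →ₗ[K] M₁)
    {N₁ N₂ : Type} [AddCommGroup N₁] [Module K N₁] [AddCommGroup N₂] [Module K N₂]
    {B : N₁ ≃ₗ[K] N₁} {T : N₂ ≃ₗ[K] N₂} (e : M₁ ≃ₗ[K] N₁) (he : ∀ x, e (A x) = B (e x))
    (f : M₂ ≃ₗ[K] N₂) (hf : ∀ x, f (S x) = T (f x)) (p : M₁ × M₂) :
    (e.prodCongr f) (utAut A S X p) =
      utAut B T (e.toLinearMap ∘ₗ X ∘ₗ f.symm.toLinearMap) ((e.prodCongr f) p) := by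
  ext
  · simp [he]
  · simp [hf]

end

variable [Finite K]

section

variable {M₁ M₂ : Type} [AddCommGroup M₁] [Module K M₁] [AddCommGroup M₂] [Module K M₂]
  [FiniteDimensional K M₁] [FiniteDimensional K M₂]
  {N₁ N₂ : Type} [AddCommGroup N₁] [Module K N₁] [AddCommGroup N₂] [Module K N₂]
  [FiniteDimensional K N₁] [FiniteDimensional K N₂]

lemma sum_utAut_congr {β : Type*} [AddCommMonoid β] (F : Cls K → β)
    {A : M₁ ≃ₗ[K] M₁} {S : M₂ ≃ₗ[K] M₂} {B : N₁ ≃ₗ[K] N₁} {T : N₂ ≃ₗ[K] N₂}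
    (h₁ : cls A = cls B) (h₂ : cls S = cls T) :
    ∑ X : M₂ →ₗ[K] M₁, F (cls (utAut A S X)) = ∑ X : N₂ →ₗ[K] N₁, F (cls (utAut B T X)) := by
  obtain ⟨e, he⟩ := cls_iso h₁
  obtain ⟨f, hf⟩ := cls_iso h₂
  refine Fintype.sum_equiv (LinearEquiv.arrowCongr f e).toEquiv _ _ (fun X => ?_)
  congr 1
  refine cls_congr (e.prodCongr f) (fun p => ?_)
  rw [utAut_conj A S X e he f hf]
  rfl

end

/-- Harish-Chandra restriction: the mean of `φ` over the block upper triangular automorphisms with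
given diagonal blocks. -/
noncomputable def resFun {A : Type} [AddCommGroup A] [Module ℚ A] (φ : Hall K A) :
    Hall K (Hall K A) := fun C D =>
  ((Nat.card K : ℚ) ^ (cl C * cl D))⁻¹ •
    ∑ X : cM (D : ConjClasses (GLInf K)) →ₗ[K] cM (C : ConjClasses (GLInf K)),
      φ (cls (utAut (cA (C : ConjClasses (GLInf K))) (cA (D : ConjClasses (GLInf K))) X))

lemma resFun_cls {A : Type} [AddCommGroup A] [Module ℚ A] (φ : Hall K A) {M₁ M₂ : Type}
    [AddCommGroup M₁] [Module K M₁] [AddCommGroup M₂] [Module K M₂]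
    [FiniteDimensional K M₁] [FiniteDimensional K M₂] (g : M₁ ≃ₗ[K] M₁) (h : M₂ ≃ₗ[K] M₂) :
    resFun φ (cls g) (cls h) = ((Nat.card K : ℚ) ^ (finrank K M₁ * finrank K M₂))⁻¹ •
      ∑ X : M₂ →ₗ[K] M₁, φ (cls (utAut g h X)) := by
  rw [resFun, cl_cls, cl_cls, sum_utAut_congr (fun C => φ C) (cls_cA (cls g)) (cls_cA (cls h))]

end Pool.Agent.Lib.MP_02a407_al
end

section

section

/-!
# Restriction is multiplicative
-/

namespace Pool.Agent.Lib.MP_02a407_al

open Module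

variable {K : Type} [Field K]

namespace Mackey

section Wt

variable {V₁ V₂ : Type} [AddCommGroup V₁] [Module K V₁] [AddCommGroup V₂] [Module K V₂]

/-- The shear `(x, y) ↦ (x - τ y, y)`. -/
def shr (τ : V₂ →ₗ[K] V₁) : (V₁ × V₂) →ₗ[K] (V₁ × V₂) where
  toFun p := (p.1 - τ p.2, p.2)
  map_add' p q := by
    ext
    · simp only [Prod.fst_add, Prod.snd_add, map_add]; abel
    · rfl
  map_smul' c p := by
    ext
    · simp only [Prod.smul_fst, Prod.smul_snd, map_smul, RingHom.id_apply, smul_sub]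
    · rfl

/-- The subspace `{(x, y) : x - τ y ∈ W₁, y ∈ W₂}`. -/
def wt (W₁ : Submodule K V₁) (W₂ : Submodule K V₂) (τ : V₂ →ₗ[K] V₁) : Submodule K (V₁ × V₂) :=
  (W₁.prod W₂).comap (shr τ)

lemma mem_wt {W₁ : Submodule K V₁} {W₂ : Submodule K V₂} {τ : V₂ →ₗ[K] V₁} {p : V₁ × V₂} :
    p ∈ wt W₁ W₂ τ ↔ p.1 - τ p.2 ∈ W₁ ∧ p.2 ∈ W₂ := Iff.rfl

/-- First invariant of a subspace of the product. -/
def inv₁ (W : Submodule K (V₁ × V₂)) : Submodule K V₁ := W.comap (LinearMap.inl K V₁ V₂)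

/-- Second invariant of a subspace of the product. -/
def inv₂ (W : Submodule K (V₁ × V₂)) : Submodule K V₂ := W.map (LinearMap.snd K V₁ V₂)

lemma mem_inv₁ {W : Submodule K (V₁ × V₂)} {x : V₁} : x ∈ inv₁ W ↔ (x, (0 : V₂)) ∈ W := Iff.rfl

lemma mem_inv₂ {W : Submodule K (V₁ × V₂)} {y : V₂} : y ∈ inv₂ W ↔ ∃ x : V₁, (x, y) ∈ W := by
  constructor
  · rintro ⟨p, hp, rfl⟩
    exact ⟨p.1, hp⟩
  · rintro ⟨x, hx⟩
    exact ⟨(x, y), hx, rfl⟩

lemma inv₁_wt (W₁ : Submodule K V₁) (W₂ : Submodule K V₂) (τ : V₂ →ₗ[K] V₁) :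
    inv₁ (wt W₁ W₂ τ) = W₁ := by
  ext x
  rw [mem_inv₁, mem_wt]
  simp

lemma inv₂_wt (W₁ : Submodule K V₁) (W₂ : Submodule K V₂) (τ : V₂ →ₗ[K] V₁) :
    inv₂ (wt W₁ W₂ τ) = W₂ := by
  ext y
  rw [mem_inv₂]
  constructor
  · rintro ⟨x, hx⟩
    exact (mem_wt.1 hx).2
  · intro hy
    refine ⟨τ y, mem_wt.2 ⟨?_, hy⟩⟩
    simp

lemma exists_tau (W : Submodule K (V₁ × V₂)) : ∃ τ : V₂ →ₗ[K] V₁, wt (inv₁ W) (inv₂ W) τ = W := by
  -- a section of the projection `W → inv₂ W`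
  let p : W →ₗ[K] inv₂ W := LinearMap.codRestrict (inv₂ W) (LinearMap.snd K V₁ V₂ ∘ₗ W.subtype)
    (fun w => ⟨w, w.2, rfl⟩)
  have hp : LinearMap.range p = ⊤ := by
    rw [LinearMap.range_eq_top]
    rintro ⟨y, hy⟩
    obtain ⟨x, hx⟩ := mem_inv₂.1 hy
    exact ⟨⟨(x, y), hx⟩, rfl⟩
  obtain ⟨s, hs⟩ := p.exists_rightInverse_of_surjective hp
  have hs' : ∀ y, p (s y) = y := fun y => LinearMap.congr_fun hs y
  obtain ⟨τ, hτ⟩ := LinearMap.exists_extend (LinearMap.fst K V₁ V₂ ∘ₗ W.subtype ∘ₗ s)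
  have hτ' : ∀ y : inv₂ W, (τ y, (y : V₂)) ∈ W := by
    intro y
    have h1 : τ y = ((s y : W) : V₁ × V₂).1 := LinearMap.congr_fun hτ y
    have h2 : ((s y : W) : V₁ × V₂).2 = y := congrArg Subtype.val (hs' y)
    have h3 : (τ y, (y : V₂)) = ((s y : W) : V₁ × V₂) := by
      ext
      · exact h1
      · exact h2.symm
    rw [h3]
    exact (s y).2
  refine ⟨τ, ?_⟩
  ext ⟨x, y⟩
  rw [mem_wt]
  constructor
  · rintro ⟨h1, h2⟩
    have h3 := hτ' ⟨y, h2⟩
    have h4 := W.add_mem (mem_inv₁.1 h1) h3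
    simpa using h4
  · intro h
    have h2 : y ∈ inv₂ W := mem_inv₂.2 ⟨x, h⟩
    refine ⟨mem_inv₁.2 ?_, h2⟩
    have h3 := hτ' ⟨y, h2⟩
    have h4 := W.sub_mem h h3
    simpa using h4

lemma wt_eq_wt_iff (W₁ : Submodule K V₁) (W₂ : Submodule K V₂) (τ τ' : V₂ →ₗ[K] V₁) :
    wt W₁ W₂ τ = wt W₁ W₂ τ' ↔ ∀ y ∈ W₂, (τ - τ') y ∈ W₁ := by
  constructor
  · intro h y hy
    have h1 : (τ y, y) ∈ wt W₁ W₂ τ := mem_wt.2 ⟨by simp, hy⟩
    rw [h] at h1
    exact (mem_wt.1 h1).1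
  · intro h
    ext ⟨x, y⟩
    rw [mem_wt, mem_wt]
    refine and_congr_left fun hy => ?_
    have h1 := h y hy
    have h2 : x - τ' y = (x - τ y) + (τ - τ') y := by
      rw [LinearMap.sub_apply]; abel
    change x - τ y ∈ W₁ ↔ x - τ' y ∈ W₁
    rw [h2]
    exact (W₁.add_mem_iff_left h1).symm

/-- The maps that send `W₂` into `W₁`. -/
def bb (W₁ : Submodule K V₁) (W₂ : Submodule K V₂) : Submodule K (V₂ →ₗ[K] V₁) where
  carrier := {X | ∀ y ∈ W₂, X y ∈ W₁}
  add_mem' ha hb y hy := W₁.add_mem (ha y hy) (hb y hy)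
  zero_mem' _ _ := W₁.zero_mem
  smul_mem' c _ hX y hy := W₁.smul_mem c (hX y hy)

lemma mem_bb {W₁ : Submodule K V₁} {W₂ : Submodule K V₂} {X : V₂ →ₗ[K] V₁} :
    X ∈ bb W₁ W₂ ↔ ∀ y ∈ W₂, X y ∈ W₁ := Iff.rfl

/-- Restriction of a map in `bb` to `W₂ → W₁`. -/
def bbRes {W₁ : Submodule K V₁} {W₂ : Submodule K V₂} (X : bb W₁ W₂) : W₂ →ₗ[K] W₁ :=
  (X : V₂ →ₗ[K] V₁).restrict X.2

@[simp] lemma coe_bbRes {W₁ : Submodule K V₁} {W₂ : Submodule K V₂} (X : bb W₁ W₂) (y : W₂) :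
    (bbRes X y : V₁) = (X : V₂ →ₗ[K] V₁) y := rfl

/-- The map induced on the quotients. -/
def bbQuo {W₁ : Submodule K V₁} {W₂ : Submodule K V₂} (X : bb W₁ W₂) :
    (V₂ ⧸ W₂) →ₗ[K] (V₁ ⧸ W₁) :=
  W₂.mapQ W₁ (X : V₂ →ₗ[K] V₁) (fun y hy => X.2 y hy)

@[simp] lemma bbQuo_mk {W₁ : Submodule K V₁} {W₂ : Submodule K V₂} (X : bb W₁ W₂) (y : V₂) :
    bbQuo X (Submodule.Quotient.mk y) = Submodule.Quotient.mk ((X : V₂ →ₗ[K] V₁) y) := rfl

/-- Restriction and quotient, as an additive map. -/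
def bbMap (W₁ : Submodule K V₁) (W₂ : Submodule K V₂) :
    bb W₁ W₂ →+ (W₂ →ₗ[K] W₁) × ((V₂ ⧸ W₂) →ₗ[K] (V₁ ⧸ W₁)) where
  toFun X := (bbRes X, bbQuo X)
  map_zero' := by
    ext y
    · rfl
    · rfl
  map_add' X Y := by
    ext y
    · rfl
    · rfl

lemma bbMap_surjective (W₁ : Submodule K V₁) (W₂ : Submodule K V₂) :
    Function.Surjective (bbMap W₁ W₂) := by
  rintro ⟨X₁, X₂⟩
  obtain ⟨E₁, hE₁⟩ := LinearMap.exists_extend (W₁.subtype ∘ₗ X₁)
  have hE₁' : ∀ y : W₂, E₁ y = X₁ y := fun y => LinearMap.congr_fun hE₁ y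
  have hE₁m : E₁ ∈ bb W₁ W₂ := by
    intro y hy
    have h1 := hE₁' ⟨y, hy⟩
    change E₁ y = _ at h1
    rw [h1]
    exact (X₁ ⟨y, hy⟩).2
  obtain ⟨s, hs⟩ := W₁.mkQ.exists_rightInverse_of_surjective (LinearMap.range_eq_top.2
    W₁.mkQ_surjective)
  have hs' : ∀ q, Submodule.Quotient.mk (s q) = q := fun q => LinearMap.congr_fun hs q
  let E₂ : V₂ →ₗ[K] V₁ := s ∘ₗ (X₂ - bbQuo ⟨E₁, hE₁m⟩) ∘ₗ W₂.mkQ
  have hE₂ : ∀ y ∈ W₂, E₂ y = 0 := by
    intro y hy
    have h1 : W₂.mkQ y = 0 := (Submodule.Quotient.mk_eq_zero W₂).2 hy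
    simp only [E₂, LinearMap.comp_apply]
    rw [h1, map_zero, map_zero]
  have hm : E₁ + E₂ ∈ bb W₁ W₂ := by
    intro y hy
    rw [LinearMap.add_apply, hE₂ y hy, add_zero]
    exact hE₁m y hy
  refine ⟨⟨E₁ + E₂, hm⟩, ?_⟩
  apply Prod.ext
  · ext y
    change ((E₁ + E₂) y : V₁) = X₁ y
    rw [LinearMap.add_apply, hE₂ y y.2, add_zero]
    exact hE₁' y
  · apply LinearMap.ext
    intro q
    obtain ⟨y, rfl⟩ := Submodule.Quotient.mk_surjective _ q
    change bbQuo ⟨E₁ + E₂, hm⟩ (Submodule.Quotient.mk y) = X₂ (Submodule.Quotient.mk y)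
    rw [bbQuo_mk]
    change Submodule.Quotient.mk (E₁ y + s ((X₂ - bbQuo ⟨E₁, hE₁m⟩) (Submodule.Quotient.mk y))) = _
    rw [Submodule.Quotient.mk_add, hs', LinearMap.sub_apply, bbQuo_mk]
    simp only
    abel

end Wt

section Stable

variable {V₁ V₂ : Type} [AddCommGroup V₁] [Module K V₁] [AddCommGroup V₂] [Module K V₂]
variable {g : V₁ ≃ₗ[K] V₁} {h : V₂ ≃ₗ[K] V₂}

lemma inv₁_stable {X : V₂ →ₗ[K] V₁} {W : Submodule K (V₁ × V₂)}
    (hW : ∀ p, utAut g h X p ∈ W ↔ p ∈ W) (x : V₁) : g x ∈ inv₁ W ↔ x ∈ inv₁ W := by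
  rw [mem_inv₁, mem_inv₁, ← hW (x, 0)]
  simp

lemma inv₂_stable {X : V₂ →ₗ[K] V₁} {W : Submodule K (V₁ × V₂)}
    (hW : ∀ p, utAut g h X p ∈ W ↔ p ∈ W) (y : V₂) : h y ∈ inv₂ W ↔ y ∈ inv₂ W := by
  rw [mem_inv₂, mem_inv₂]
  constructor
  · rintro ⟨x, hx⟩
    refine ⟨g.symm (x - X y), ?_⟩
    rw [← hW]
    simpa using hx
  · rintro ⟨x, hx⟩
    exact ⟨g x + X y, (hW (x, y)).2 hx⟩

/-- The transformed off-diagonal block. -/
def xt (g : V₁ ≃ₗ[K] V₁) (h : V₂ ≃ₗ[K] V₂) (τ X : V₂ →ₗ[K] V₁) : V₂ →ₗ[K] V₁ :=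
  X + (g.toLinearMap ∘ₗ τ - τ ∘ₗ h.toLinearMap)

lemma xt_apply (τ X : V₂ →ₗ[K] V₁) (y : V₂) : xt g h τ X y = X y + (g (τ y) - τ (h y)) := rfl

lemma wt_stable_iff (W₁ : Stab g) (W₂ : Stab h) (τ X : V₂ →ₗ[K] V₁) :
    (∀ p, utAut g h X p ∈ wt W₁.space W₂.space τ ↔ p ∈ wt W₁.space W₂.space τ) ↔
      xt g h τ X ∈ bb W₁.space W₂.space := by
  constructor
  · intro hst y hy
    have h1 : (τ y, y) ∈ wt W₁.space W₂.space τ := mem_wt.2 ⟨by simp, hy⟩
    have h2 := (mem_wt.1 ((hst _).2 h1)).1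
    rw [utAut_apply] at h2
    have h3 : xt g h τ X y = g (τ y) + X y - τ (h y) := by rw [xt_apply]; abel
    rw [h3]
    exact h2
  · rintro hX ⟨x, y⟩
    rw [mem_wt, mem_wt, utAut_apply]
    change (g x + X y - τ (h y) ∈ W₁.space ∧ h y ∈ W₂.space) ↔ (x - τ y ∈ W₁.space ∧ y ∈ W₂.space)
    rw [W₂.mem_iff]
    refine and_congr_left fun hy => ?_
    have h1 := hX y hy
    have h2 : g x + X y - τ (h y) = g (x - τ y) + xt g h τ X y := by
      rw [xt_apply, map_sub]; abel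
    rw [h2, W₁.space.add_mem_iff_left h1, W₁.mem_iff]

end Stable

section Fin

variable {V₁ V₂ : Type} [AddCommGroup V₁] [Module K V₁] [AddCommGroup V₂] [Module K V₂]
variable [FiniteDimensional K V₁] [FiniteDimensional K V₂]
variable {g : V₁ ≃ₗ[K] V₁} {h : V₂ ≃ₗ[K] V₂}

lemma cls_sub_wt (W₁ : Stab g) (W₂ : Stab h) (τ X : V₂ →ₗ[K] V₁)
    (hst : ∀ p, utAut g h X p ∈ wt W₁.space W₂.space τ ↔ p ∈ wt W₁.space W₂.space τ)
    (hX : xt g h τ X ∈ bb W₁.space W₂.space) :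
    cls (Stab.sub (A := utAut g h X) ⟨wt W₁.space W₂.space τ, hst⟩) =
      cls (utAut W₁.sub W₂.sub (bbRes ⟨xt g h τ X, hX⟩)) := by
  let e : (wt W₁.space W₂.space τ) ≃ₗ[K] (W₁.space × W₂.space) :=
    { toFun := fun p => (⟨(p : V₁ × V₂).1 - τ (p : V₁ × V₂).2, (mem_wt.1 p.2).1⟩,
        ⟨(p : V₁ × V₂).2, (mem_wt.1 p.2).2⟩)
      map_add' := by
        rintro ⟨⟨x, y⟩, hp⟩ ⟨⟨x', y'⟩, hp'⟩
        apply Prod.ext
        · apply Subtype.ext
          change x + x' - τ (y + y') = (x - τ y) + (x' - τ y')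
          rw [map_add]; abel
        · rfl
      map_smul' := by
        rintro c ⟨⟨x, y⟩, hp⟩
        apply Prod.ext
        · apply Subtype.ext
          change c • x - τ (c • y) = c • (x - τ y)
          rw [map_smul, smul_sub]
        · rfl
      invFun := fun p => ⟨((p.1 : V₁) + τ p.2, (p.2 : V₂)), mem_wt.2 ⟨by simp, p.2.2⟩⟩
      left_inv := by
        rintro ⟨⟨x, y⟩, hp⟩
        apply Subtype.ext
        change (x - τ y + τ y, y) = (x, y)
        rw [sub_add_cancel]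
      right_inv := by
        rintro ⟨⟨x, hx⟩, ⟨y, hy⟩⟩
        apply Prod.ext
        · apply Subtype.ext
          change x + τ y - τ y = x
          rw [add_sub_cancel_right]
        · rfl }
  refine cls_congr e ?_
  rintro ⟨⟨x, y⟩, hp⟩
  apply Prod.ext
  · apply Subtype.ext
    change g x + X y - τ (h y) = g (x - τ y) + xt g h τ X y
    rw [xt_apply, map_sub]; abel
  · rfl

lemma cls_quo_wt (W₁ : Stab g) (W₂ : Stab h) (τ X : V₂ →ₗ[K] V₁)
    (hst : ∀ p, utAut g h X p ∈ wt W₁.space W₂.space τ ↔ p ∈ wt W₁.space W₂.space τ)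
    (hX : xt g h τ X ∈ bb W₁.space W₂.space) :
    cls (Stab.quo (A := utAut g h X) ⟨wt W₁.space W₂.space τ, hst⟩) =
      cls (utAut W₁.quo W₂.quo (bbQuo ⟨xt g h τ X, hX⟩)) := by
  let f : (V₁ × V₂) →ₗ[K] ((V₁ ⧸ W₁.space) × (V₂ ⧸ W₂.space)) :=
    (W₁.space.mkQ.prodMap W₂.space.mkQ) ∘ₗ shr τ
  have hf : ∀ x y, f (x, y) = (Submodule.Quotient.mk (x - τ y), Submodule.Quotient.mk y) :=
    fun x y => rfl
  have hfs : Function.Surjective f := by
    rintro ⟨q₁, q₂⟩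
    obtain ⟨x, rfl⟩ := Submodule.Quotient.mk_surjective _ q₁
    obtain ⟨y, rfl⟩ := Submodule.Quotient.mk_surjective _ q₂
    refine ⟨(x + τ y, y), ?_⟩
    rw [hf, add_sub_cancel_right]
  have hk : wt W₁.space W₂.space τ = LinearMap.ker f := by
    ext ⟨x, y⟩
    rw [mem_wt, LinearMap.mem_ker, hf, Prod.mk_eq_zero, Submodule.Quotient.mk_eq_zero,
      Submodule.Quotient.mk_eq_zero]
  let e : ((V₁ × V₂) ⧸ wt W₁.space W₂.space τ) ≃ₗ[K] ((V₁ ⧸ W₁.space) × (V₂ ⧸ W₂.space)) :=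
    (Submodule.quotEquivOfEq _ _ hk).trans (f.quotKerEquivOfSurjective hfs)
  have he : ∀ p, e (Submodule.Quotient.mk p) = f p := fun p => rfl
  refine cls_congr e ?_
  intro q
  obtain ⟨⟨x, y⟩, rfl⟩ := Submodule.Quotient.mk_surjective _ q
  change f (utAut g h X (x, y)) = utAut W₁.quo W₂.quo (bbQuo ⟨xt g h τ X, hX⟩) (f (x, y))
  rw [utAut_apply, hf, hf, utAut_apply]
  apply Prod.ext
  · change Submodule.Quotient.mk (g x + X y - τ (h y)) =
      Submodule.Quotient.mk (g (x - τ y)) + Submodule.Quotient.mk (xt g h τ X y)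
    rw [← Submodule.Quotient.mk_add]
    congr 1
    rw [xt_apply, map_sub]; abel
  · rfl

end Fin

/-- Sums of a function of the image under a surjective homomorphism. -/
lemma sum_comp_surj {G H A : Type} [AddCommGroup G] [AddCommGroup H] [Fintype G] [Fintype H]
    [AddCommMonoid A] (f : G →+ H) (hf : Function.Surjective f) (u : H → A) :
    Fintype.card H • ∑ x, u (f x) = Fintype.card G • ∑ y, u y := by
  have h1 : ∀ y : H, ∑ x, u (f x + y) = ∑ x, u (f x) := by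
    intro y
    obtain ⟨z, rfl⟩ := hf y
    exact Fintype.sum_equiv (Equiv.addRight z) _ _ (fun x => by
      rw [Equiv.coe_addRight, map_add])
  have h2 : ∀ x : G, ∑ y, u (f x + y) = ∑ y, u y := fun x =>
    Fintype.sum_equiv (Equiv.addLeft (f x)) _ _ (fun y => rfl)
  calc Fintype.card H • ∑ x, u (f x) = ∑ _y : H, ∑ x, u (f x) := by
        rw [Finset.sum_const, Finset.card_univ]
    _ = ∑ y : H, ∑ x, u (f x + y) := Finset.sum_congr rfl fun y _ => (h1 y).symm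
    _ = ∑ x, ∑ y : H, u (f x + y) := Finset.sum_comm
    _ = ∑ _x : G, ∑ y, u y := Finset.sum_congr rfl fun x _ => h2 x
    _ = Fintype.card G • ∑ y, u y := by rw [Finset.sum_const, Finset.card_univ]

variable [Finite K]

section Sums

variable {V₁ V₂ : Type} [AddCommGroup V₁] [Module K V₁] [AddCommGroup V₂] [Module K V₂]
variable [FiniteDimensional K V₁] [FiniteDimensional K V₂]

lemma card_linearMap' : (Fintype.card (V₂ →ₗ[K] V₁) : ℚ) =
    (Nat.card K : ℚ) ^ (finrank K V₁ * finrank K V₂) := by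
  rw [← Nat.card_eq_fintype_card, Module.natCard_eq_pow_finrank (K := K), Module.finrank_linearMap,
    mul_comm]
  push_cast
  rfl

open Classical in
/-- `F (W, V/W)` if `W` is stable, `0` otherwise. -/
noncomputable def phiW {A : Type} [AddCommMonoid A] {M : Type} [AddCommGroup M] [Module K M]
    [FiniteDimensional K M] (F : Cls K → Cls K → A) (u : M ≃ₗ[K] M) (W : Submodule K M) : A :=
  if hW : ∀ x, u x ∈ W ↔ x ∈ W then
    F (cls (Stab.sub (A := u) ⟨W, hW⟩)) (cls (Stab.quo (A := u) ⟨W, hW⟩)) else 0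

lemma finite_submodule' {M : Type} [AddCommGroup M] [Module K M] [FiniteDimensional K M] :
    Finite (Submodule K M) := by
  have : Finite M := Module.finite_of_finite K
  exact Finite.of_injective (fun W : Submodule K M => (W : Set M)) SetLike.coe_injective

/-- finitely many subspaces -/
@[instance_reducible] noncomputable def fintype_submodule' {M : Type} [AddCommGroup M] [Module K M]
    [FiniteDimensional K M] : Fintype (Submodule K M) :=
  have := finite_submodule' (K := K) (M := M)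
  Fintype.ofFinite _

attribute [local instance] fintype_submodule'

lemma sum_stab_eq {A : Type} [AddCommMonoid A] {M : Type} [AddCommGroup M] [Module K M]
    [FiniteDimensional K M] (F : Cls K → Cls K → A) (u : M ≃ₗ[K] M) :
    ∑ W : Stab u, F (cls W.sub) (cls W.quo) = ∑ W : Submodule K M, phiW F u W := by
  refine Fintype.sum_of_injective (fun W : Stab u => W.space) (fun W W' h => Stab.ext h) _ _ ?_ ?_
  · intro W hW
    unfold phiW
    rw [dif_neg]
    intro h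
    exact hW ⟨⟨W, h⟩, rfl⟩
  · intro W
    have hW : ∀ x, u x ∈ W.space ↔ x ∈ W.space := W.mem_iff
    have h1 : phiW F u W.space = F (cls (Stab.sub (A := u) ⟨W.space, hW⟩))
        (cls (Stab.quo (A := u) ⟨W.space, hW⟩)) := by
      unfold phiW
      exact dif_pos hW
    exact h1.symm

/-- number of `τ` with `wt (inv W) τ = W` -/
lemma card_tau (W : Submodule K (V₁ × V₂)) [Fintype (bb (inv₁ W) (inv₂ W))]
    [DecidablePred fun τ : V₂ →ₗ[K] V₁ => wt (inv₁ W) (inv₂ W) τ = W] :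
    (Finset.univ.filter fun τ : V₂ →ₗ[K] V₁ => wt (inv₁ W) (inv₂ W) τ = W).card =
      Fintype.card (bb (inv₁ W) (inv₂ W)) := by
  obtain ⟨τ₀, hτ₀⟩ := exists_tau W
  rw [← Finset.card_univ]
  symm
  refine Finset.card_bij (fun (X : bb (inv₁ W) (inv₂ W)) _ => (X : V₂ →ₗ[K] V₁) + τ₀) ?_ ?_ ?_
  · intro X _
    rw [Finset.mem_filter]
    refine ⟨Finset.mem_univ _, ?_⟩
    conv_rhs => rw [← hτ₀]
    rw [wt_eq_wt_iff]
    intro y hy
    rw [add_sub_cancel_right]
    exact X.2 y hy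
  · intro X _ Y _ hXY
    exact Subtype.ext (add_right_cancel hXY)
  · intro τ hτ
    rw [Finset.mem_filter] at hτ
    have h1 : wt (inv₁ W) (inv₂ W) τ = wt (inv₁ W) (inv₂ W) τ₀ := hτ.2.trans hτ₀.symm
    rw [wt_eq_wt_iff] at h1
    exact ⟨⟨τ - τ₀, h1⟩, Finset.mem_univ _, sub_add_cancel _ _⟩

/-- finitely many maps -/
@[instance_reducible] noncomputable def fintype_bb (W₁ : Submodule K V₁) (W₂ : Submodule K V₂) :
    Fintype (bb W₁ W₂) :=
  have := finite_linearMap (K := K) (M := V₂) (N := V₁)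
  Fintype.ofFinite _

attribute [local instance] fintype_bb

lemma sum_phi_eq {A : Type} [AddCommGroup A] [Module ℚ A] (Φ : Submodule K (V₁ × V₂) → A) :
    ∑ W, Φ W = ∑ W₁ : Submodule K V₁, ∑ W₂ : Submodule K V₂,
      ((Fintype.card (bb W₁ W₂) : ℚ))⁻¹ • ∑ τ, Φ (wt W₁ W₂ τ) := by
  classical
  have h1 : ∀ (W₁ : Submodule K V₁) (W₂ : Submodule K V₂),
      ((Fintype.card (bb W₁ W₂) : ℚ))⁻¹ • ∑ τ, Φ (wt W₁ W₂ τ) =
      ∑ W, ((Fintype.card (bb W₁ W₂) : ℚ))⁻¹ • ∑ τ, if wt W₁ W₂ τ = W then Φ W else 0 := by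
    intro W₁ W₂
    rw [← Finset.smul_sum, Finset.sum_comm]
    congr 1
    refine Finset.sum_congr rfl fun τ _ => ?_
    rw [Finset.sum_ite_eq Finset.univ (wt W₁ W₂ τ) Φ, if_pos (Finset.mem_univ _)]
  have h2 : ∀ W : Submodule K (V₁ × V₂), ∑ W₁ : Submodule K V₁, ∑ W₂ : Submodule K V₂,
      (((Fintype.card (bb W₁ W₂) : ℚ))⁻¹ • ∑ τ, if wt W₁ W₂ τ = W then Φ W else 0) = Φ W := by
    intro W
    rw [Fintype.sum_eq_single (inv₁ W)]
    · rw [Fintype.sum_eq_single (inv₂ W)]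
      · rw [← Finset.sum_filter, Finset.sum_const, card_tau, ← Nat.cast_smul_eq_nsmul ℚ,
          smul_smul, inv_mul_cancel₀, one_smul]
        have : 0 < Fintype.card (bb (inv₁ W) (inv₂ W)) := Fintype.card_pos
        positivity
      · intro W₂ hW₂
        rw [Finset.sum_eq_zero, smul_zero]
        intro τ _
        rw [if_neg]
        intro h
        apply hW₂
        rw [← h, inv₂_wt]
    · intro W₁ hW₁
      refine Finset.sum_eq_zero fun W₂ _ => ?_
      rw [Finset.sum_eq_zero, smul_zero]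
      intro τ _
      rw [if_neg]
      intro h
      apply hW₁
      rw [← h, inv₁_wt]
  calc ∑ W, Φ W = ∑ W : Submodule K (V₁ × V₂), ∑ W₁ : Submodule K V₁, ∑ W₂ : Submodule K V₂,
      (((Fintype.card (bb W₁ W₂) : ℚ))⁻¹ • ∑ τ, if wt W₁ W₂ τ = W then Φ W else 0) :=
        Finset.sum_congr rfl fun W _ => (h2 W).symm
    _ = ∑ W₁ : Submodule K V₁, ∑ W₂ : Submodule K V₂, ∑ W : Submodule K (V₁ × V₂),
      (((Fintype.card (bb W₁ W₂) : ℚ))⁻¹ • ∑ τ, if wt W₁ W₂ τ = W then Φ W else 0) := by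
        rw [Finset.sum_comm]
        exact Finset.sum_congr rfl fun W₁ _ => Finset.sum_comm
    _ = _ := Finset.sum_congr rfl fun W₁ _ => Finset.sum_congr rfl fun W₂ _ => (h1 W₁ W₂).symm

section Core

variable {A : Type} [AddCommGroup A] [Module ℚ A] (F : Cls K → Cls K → A)
  {g : V₁ ≃ₗ[K] V₁} {h : V₂ ≃ₗ[K] V₂}

omit [Module ℚ A] in
open Classical in
lemma sum_X_wt (W₁ : Stab g) (W₂ : Stab h) (τ : V₂ →ₗ[K] V₁) :
    ∑ X, phiW F (utAut g h X) (wt W₁.space W₂.space τ) =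
      ∑ X : bb W₁.space W₂.space, F (cls (utAut W₁.sub W₂.sub (bbRes X)))
        (cls (utAut W₁.quo W₂.quo (bbQuo X))) := by
  have h1 : ∑ X, phiW F (utAut g h X) (wt W₁.space W₂.space τ) =
      ∑ X : V₂ →ₗ[K] V₁, if hX : X ∈ bb W₁.space W₂.space then
        F (cls (utAut W₁.sub W₂.sub (bbRes ⟨X, hX⟩)))
          (cls (utAut W₁.quo W₂.quo (bbQuo ⟨X, hX⟩))) else 0 := by
    refine Fintype.sum_equiv (Equiv.addRight (g.toLinearMap ∘ₗ τ - τ ∘ₗ h.toLinearMap)) _ _ ?_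
    intro X
    change phiW F (utAut g h X) (wt W₁.space W₂.space τ) =
      if hX : xt g h τ X ∈ bb W₁.space W₂.space then
        F (cls (utAut W₁.sub W₂.sub (bbRes ⟨xt g h τ X, hX⟩)))
          (cls (utAut W₁.quo W₂.quo (bbQuo ⟨xt g h τ X, hX⟩))) else 0
    unfold phiW
    by_cases hX : xt g h τ X ∈ bb W₁.space W₂.space
    · have hst := (wt_stable_iff W₁ W₂ τ X).2 hX
      rw [dif_pos hX, dif_pos hst, cls_sub_wt W₁ W₂ τ X hst hX, cls_quo_wt W₁ W₂ τ X hst hX]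
    · have hst := fun h => hX ((wt_stable_iff W₁ W₂ τ X).1 h)
      rw [dif_neg hX, dif_neg hst]
  rw [h1]
  symm
  refine Fintype.sum_of_injective (fun X : bb W₁.space W₂.space => (X : V₂ →ₗ[K] V₁))
    Subtype.val_injective _ _ ?_ ?_
  · intro X hX
    rw [dif_neg]
    intro h
    exact hX ⟨⟨X, h⟩, rfl⟩
  · intro X
    rw [dif_pos X.2]

lemma sum_bb (W₁ : Stab g) (W₂ : Stab h) :
    ∑ X : bb W₁.space W₂.space, F (cls (utAut W₁.sub W₂.sub (bbRes X)))
        (cls (utAut W₁.quo W₂.quo (bbQuo X))) =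
      ((Fintype.card (bb W₁.space W₂.space) : ℚ) *
        (((Nat.card K : ℚ) ^ (finrank K W₁.space * finrank K W₂.space))⁻¹ *
          ((Nat.card K : ℚ) ^ (finrank K (V₁ ⧸ W₁.space) * finrank K (V₂ ⧸ W₂.space)))⁻¹)) •
        ∑ X₁ : W₂.space →ₗ[K] W₁.space, ∑ X₂ : (V₂ ⧸ W₂.space) →ₗ[K] (V₁ ⧸ W₁.space),
          F (cls (utAut W₁.sub W₂.sub X₁)) (cls (utAut W₁.quo W₂.quo X₂)) := by
  have h1 := sum_comp_surj (bbMap W₁.space W₂.space) (bbMap_surjective W₁.space W₂.space)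
    (fun p => F (cls (utAut W₁.sub W₂.sub p.1)) (cls (utAut W₁.quo W₂.quo p.2)))
  rw [Fintype.sum_prod_type, Fintype.card_prod] at h1
  rw [← Nat.cast_smul_eq_nsmul ℚ, ← Nat.cast_smul_eq_nsmul ℚ, Nat.cast_mul, card_linearMap',
    card_linearMap'] at h1
  set S := ∑ X₁ : W₂.space →ₗ[K] W₁.space, ∑ X₂ : (V₂ ⧸ W₂.space) →ₗ[K] (V₁ ⧸ W₁.space),
          F (cls (utAut W₁.sub W₂.sub X₁)) (cls (utAut W₁.quo W₂.quo X₂)) with hS
  have hq : (0 : ℚ) < Nat.card K := by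
    have : 0 < Nat.card K := Nat.card_pos
    exact_mod_cast this
  have hne : ((Nat.card K : ℚ) ^ (finrank K W₁.space * finrank K W₂.space) *
      (Nat.card K : ℚ) ^ (finrank K (V₁ ⧸ W₁.space) * finrank K (V₂ ⧸ W₂.space))) ≠ 0 := by
    positivity
  rw [← mul_inv, mul_comm, mul_smul, ← h1, smul_smul, inv_mul_cancel₀ hne, one_smul]
  rfl

theorem mackey_core (g : V₁ ≃ₗ[K] V₁) (h : V₂ ≃ₗ[K] V₂) :
    ∑ X : V₂ →ₗ[K] V₁, ∑ W : Stab (utAut g h X), F (cls W.sub) (cls W.quo) =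
      ∑ W₁ : Stab g, ∑ W₂ : Stab h, ((Nat.card K : ℚ) ^ (finrank K V₁ * finrank K V₂) *
        (((Nat.card K : ℚ) ^ (finrank K W₁.space * finrank K W₂.space))⁻¹ *
          ((Nat.card K : ℚ) ^ (finrank K (V₁ ⧸ W₁.space) * finrank K (V₂ ⧸ W₂.space)))⁻¹)) •
        ∑ X₁ : W₂.space →ₗ[K] W₁.space, ∑ X₂ : (V₂ ⧸ W₂.space) →ₗ[K] (V₁ ⧸ W₁.space),
          F (cls (utAut W₁.sub W₂.sub X₁)) (cls (utAut W₁.quo W₂.quo X₂)) := by
  have h1 : ∑ X : V₂ →ₗ[K] V₁, ∑ W : Stab (utAut g h X), F (cls W.sub) (cls W.quo) =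
      ∑ W₁ : Submodule K V₁, ∑ W₂ : Submodule K V₂, ((Fintype.card (bb W₁ W₂) : ℚ))⁻¹ •
        ∑ τ, ∑ X, phiW F (utAut g h X) (wt W₁ W₂ τ) := by
    calc ∑ X : V₂ →ₗ[K] V₁, ∑ W : Stab (utAut g h X), F (cls W.sub) (cls W.quo)
        = ∑ X : V₂ →ₗ[K] V₁, ∑ W₁ : Submodule K V₁, ∑ W₂ : Submodule K V₂,
          ((Fintype.card (bb W₁ W₂) : ℚ))⁻¹ • ∑ τ, phiW F (utAut g h X) (wt W₁ W₂ τ) :=
          Finset.sum_congr rfl fun X _ => by rw [sum_stab_eq, sum_phi_eq]
      _ = ∑ W₁ : Submodule K V₁, ∑ W₂ : Submodule K V₂, ∑ X : V₂ →ₗ[K] V₁,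
          ((Fintype.card (bb W₁ W₂) : ℚ))⁻¹ • ∑ τ, phiW F (utAut g h X) (wt W₁ W₂ τ) := by
          rw [Finset.sum_comm]
          exact Finset.sum_congr rfl fun W₁ _ => Finset.sum_comm
      _ = _ := by
          refine Finset.sum_congr rfl fun W₁ _ => Finset.sum_congr rfl fun W₂ _ => ?_
          rw [← Finset.smul_sum, Finset.sum_comm]
  have h0 : ∀ (W₁ : Submodule K V₁) (W₂ : Submodule K V₂),
      ¬ ((∀ x, g x ∈ W₁ ↔ x ∈ W₁) ∧ (∀ y, h y ∈ W₂ ↔ y ∈ W₂)) →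
      ((Fintype.card (bb W₁ W₂) : ℚ))⁻¹ • ∑ τ, ∑ X, phiW F (utAut g h X) (wt W₁ W₂ τ) = 0 := by
    intro W₁ W₂ hn
    rw [Finset.sum_eq_zero, smul_zero]
    intro τ _
    refine Finset.sum_eq_zero fun X _ => ?_
    unfold phiW
    rw [dif_neg]
    intro hst
    apply hn
    refine ⟨fun x => ?_, fun y => ?_⟩
    · have := inv₁_stable hst x
      rwa [inv₁_wt] at this
    · have := inv₂_stable hst y
      rwa [inv₂_wt] at this
  rw [h1]
  symm
  refine Fintype.sum_of_injective (fun W : Stab g => W.space) (fun W W' h => Stab.ext h) _ _ ?_ ?_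
  · intro W₁ hW₁
    refine Finset.sum_eq_zero fun W₂ _ => h0 W₁ W₂ fun hc => ?_
    exact hW₁ ⟨⟨W₁, hc.1⟩, rfl⟩
  · intro W₁
    refine Fintype.sum_of_injective (fun W : Stab h => W.space) (fun W W' h => Stab.ext h) _ _
      ?_ ?_
    · intro W₂ hW₂
      refine h0 W₁.space W₂ fun hc => ?_
      exact hW₂ ⟨⟨W₂, hc.2⟩, rfl⟩
    · intro W₂
      simp only [sum_X_wt, sum_bb]
      rw [Finset.sum_const, Finset.card_univ, ← Nat.cast_smul_eq_nsmul ℚ, card_linearMap',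
        smul_smul, smul_smul]
      congr 1
      have : (Fintype.card (bb W₁.space W₂.space) : ℚ) ≠ 0 := by
        have : 0 < Fintype.card (bb W₁.space W₂.space) := Fintype.card_pos
        positivity
      field_simp

end Core

end Sums

end Mackey

variable [Finite K]

open Mackey in
theorem resFun_mul {A : Type} [CommRing A] [Algebra ℚ A] (φ ψ : Hall K A) :
    resFun (φ * ψ) = resFun φ * resFun ψ := by
  ext C D
  rw [← cls_cA C, ← cls_cA D, resFun_cls, Hall.mul_cls, Hall.sum_apply]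
  simp only [Hall.mul_cls, resFun_cls]
  have h1 := mackey_core (fun C D => φ C * ψ D) (cA (C : ConjClasses (GLInf K)))
    (cA (D : ConjClasses (GLInf K)))
  rw [h1, Finset.smul_sum]
  refine Finset.sum_congr rfl fun W₁ _ => ?_
  rw [Finset.smul_sum]
  refine Finset.sum_congr rfl fun W₂ _ => ?_
  have hq : (0 : ℚ) < Nat.card K := by
    have : 0 < Nat.card K := Nat.card_pos
    exact_mod_cast this
  rw [smul_smul, smul_mul_smul_comm, Finset.sum_mul_sum, ← mul_assoc, inv_mul_cancel₀ (by positivity),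
    one_mul]

theorem resFun_one {A : Type} [CommRing A] [Algebra ℚ A] :
    resFun (1 : Hall K A) = 1 := by
  have h0 : (0 : Cls K) = cls (LinearEquiv.refl K PUnit.{1}) := (cls_subsingleton _).symm
  ext C D
  by_cases hC : C = 0
  · by_cases hD : D = 0
    · rw [hC, hD, Hall.one_zero, Hall.one_zero, h0, resFun_cls]
      rw [finrank_zero_of_subsingleton (M := PUnit.{1}), mul_zero, pow_zero, inv_one, one_smul]
      have hu : ∀ X : PUnit.{1} →ₗ[K] PUnit.{1}, X = 0 := fun X => by ext x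
      rw [Fintype.sum_eq_single 0 (fun X hX => absurd (hu X) hX)]
      have h2 : cls (utAut (LinearEquiv.refl K PUnit.{1}) (LinearEquiv.refl K PUnit.{1}) 0) = 0 :=
        (cls_eq_zero_iff _).2 inferInstance
      rw [h2, Hall.one_zero]
    · rw [hC, Hall.one_zero, Hall.one_of_ne hD, ← cls_cA D, h0, resFun_cls, Finset.sum_eq_zero,
        smul_zero]
      intro X _
      refine Hall.one_of_ne fun h => hD ?_
      rw [cls_eq_zero_iff] at h
      rw [← cls_cA D, cls_eq_zero_iff]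
      exact ⟨fun x y => congrArg Prod.snd (h.elim (0, x) (0, y))⟩
  · rw [Hall.one_of_ne hC, ← cls_cA C, ← cls_cA D, resFun_cls, Finset.sum_eq_zero,
        smul_zero, Hall.zero_apply]
    intro X _
    refine Hall.one_of_ne fun h => hC ?_
    rw [cls_eq_zero_iff] at h
    rw [← cls_cA C, cls_eq_zero_iff]
    exact ⟨fun x y => congrArg Prod.fst (h.elim (x, 0) (y, 0))⟩

end Pool.Agent.Lib.MP_02a407_al
end

section

/-!
# Restriction as a ring homomorphism; primitive elements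
-/

namespace Pool.Agent.Lib.MP_02a407_al

open Module

set_option linter.unusedSectionVars false

variable {K : Type} [Field K] [Finite K] {A : Type} [CommRing A] [Algebra ℚ A]

/-- Harish-Chandra restriction. -/
noncomputable def res : Hall K A →+* Hall K (Hall K A) where
  toFun := resFun
  map_zero' := by
    ext C D
    simp [resFun]
  map_one' := resFun_one
  map_add' φ ψ := by
    ext C D
    simp only [resFun, Hall.add_apply, Finset.sum_add_distrib, smul_add]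
  map_mul' := resFun_mul

lemma res_def (φ : Hall K A) : res φ = resFun φ := rfl

lemma res_cls (φ : Hall K A) {M₁ M₂ : Type}
    [AddCommGroup M₁] [Module K M₁] [AddCommGroup M₂] [Module K M₂]
    [FiniteDimensional K M₁] [FiniteDimensional K M₂] (g : M₁ ≃ₗ[K] M₁) (h : M₂ ≃ₗ[K] M₂) :
    res φ (cls g) (cls h) = ((Nat.card K : ℚ) ^ (finrank K M₁ * finrank K M₂))⁻¹ •
      ∑ X : M₂ →ₗ[K] M₁, φ (cls (utAut g h X)) := resFun_cls φ g h

lemma res_zero_right (φ : Hall K A) (C : Cls K) : res φ C 0 = φ C := by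
  have h0 : (0 : Cls K) = cls (LinearEquiv.refl K PUnit.{1}) := (cls_subsingleton _).symm
  rw [← cls_cA C, h0, res_cls]
  rw [finrank_zero_of_subsingleton (M := PUnit.{1}), mul_zero, pow_zero, inv_one, one_smul]
  have hu : ∀ X : PUnit.{1} →ₗ[K] cM (C : ConjClasses (GLInf K)), X = 0 := fun X =>
    LinearMap.ext fun x => by rw [Subsingleton.elim x 0, map_zero, map_zero]
  rw [Fintype.sum_eq_single 0 (fun X hX => absurd (hu X) hX), utAut_zero, cls_prod,
    ← h0, add_zero, cls_cA]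

lemma res_zero_left (φ : Hall K A) (C : Cls K) : res φ 0 C = φ C := by
  have h0 : (0 : Cls K) = cls (LinearEquiv.refl K PUnit.{1}) := (cls_subsingleton _).symm
  rw [← cls_cA C, h0, res_cls]
  rw [finrank_zero_of_subsingleton (M := PUnit.{1}), zero_mul, pow_zero, inv_one, one_smul]
  have hu : ∀ X : cM (C : ConjClasses (GLInf K)) →ₗ[K] PUnit.{1}, X = 0 := fun X => by
    ext x
  rw [Fintype.sum_eq_single 0 (fun X hX => absurd (hu X) hX), utAut_zero, cls_prod,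
    ← h0, zero_add, cls_cA]

lemma res_map {B : Type} [CommRing B] [Algebra ℚ B] (f : A →+* B) (φ : Hall K A) (C D : Cls K) :
    res (Hall.map f φ) C D = f (res φ C D) := by
  have hf : ∀ (r : ℚ) (a : A), f (r • a) = r • f a := fun r a => map_rat_smul f r a
  rw [res_def, res_def, resFun, resFun, hf, map_sum]
  rfl

/-- `φ` is primitive. -/
def IsPrim (φ : Hall K A) : Prop := φ 0 = 0 ∧ ∀ C D : Cls K, C ≠ 0 → D ≠ 0 → res φ C D = 0

/-- `φ` is group-like. -/
def IsGrp (φ : Hall K A) : Prop := φ 0 = 1 ∧ ∀ C D : Cls K, res φ C D = φ C * φ D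

end Pool.Agent.Lib.MP_02a407_al
end
end

section

/-!
# Integration over the classes of a given degree; the adjointness formula
-/

namespace Pool.Agent.Lib.MP_02a407_al

open Module

set_option linter.unusedSectionVars false

/-- The classes of degree `m`. -/
noncomputable def degCls (K : Type) [Field K] [Finite K] (m : ℕ) : Finset (Cls K) :=
  (show {C : Cls K | cl C = m}.Finite from finite_classes (K := K) m).toFinset

variable {K : Type} [Field K] [Finite K]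

@[simp] lemma mem_degCls {m : ℕ} {C : Cls K} : C ∈ degCls K m ↔ cl C = m := by
  rw [degCls, Set.Finite.mem_toFinset]; rfl

/-- `∑ φ(C) / cent(C)` over the classes of degree `m`. -/
noncomputable def integ {A : Type} [AddCommGroup A] [Module ℚ A] (m : ℕ) (φ : Cls K → A) : A :=
  ∑ C ∈ degCls K m, (cz C)⁻¹ • φ C

lemma integ_congr {A : Type} [AddCommGroup A] [Module ℚ A] {m : ℕ} {φ ψ : Cls K → A}
    (h : ∀ C, cl C = m → φ C = ψ C) : integ m φ = integ m ψ :=
  Finset.sum_congr rfl (fun C hC => by rw [h C (mem_degCls.1 hC)])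

lemma integ_add {A : Type} [AddCommGroup A] [Module ℚ A] (m : ℕ) (φ ψ : Cls K → A) :
    integ m (fun C => φ C + ψ C) = integ m φ + integ m ψ := by
  simp only [integ, smul_add, Finset.sum_add_distrib]

lemma integ_sum {A : Type} [AddCommGroup A] [Module ℚ A] (m : ℕ) {ι : Type*} (s : Finset ι)
    (φ : ι → Cls K → A) :
    integ m (fun C => ∑ i ∈ s, φ i C) = ∑ i ∈ s, integ m (φ i) := by
  simp only [integ, Finset.smul_sum]
  rw [Finset.sum_comm]

lemma integ_mul_left {A : Type} [CommRing A] [Algebra ℚ A] (m : ℕ) (a : A) (φ : Cls K → A) :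
    integ m (fun C => a * φ C) = a * integ m φ := by
  simp only [integ, Finset.mul_sum, mul_smul_comm]

lemma integ_mul_right {A : Type} [CommRing A] [Algebra ℚ A] (m : ℕ) (a : A) (φ : Cls K → A) :
    integ m (fun C => φ C * a) = integ m φ * a := by
  simp only [integ, Finset.sum_mul, smul_mul_assoc]

lemma integ_smul {A : Type} [AddCommGroup A] [Module ℚ A] (m : ℕ) (r : ℚ) (φ : Cls K → A) :
    integ m (fun C => r • φ C) = r • integ m φ := by
  simp only [integ, Finset.smul_sum]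
  exact Finset.sum_congr rfl (fun C _ => smul_comm _ _ _)

open Classical in
private lemma card_fiber {V : Type} [AddCommGroup V] [Module K V] [FiniteDimensional K V]
    (g0 : V ≃ₗ[K] V) :
    (Finset.univ.filter (fun g : V ≃ₗ[K] V => cls g = cls g0)).card * cent g0 =
      Nat.card (V ≃ₗ[K] V) := by
  rw [Nat.card_eq_fintype_card, ← Finset.card_univ]
  rw [Finset.card_eq_sum_card_fiberwise (s := (Finset.univ : Finset (V ≃ₗ[K] V)))
      (f := fun e : V ≃ₗ[K] V => e * g0 * e⁻¹)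
      (t := Finset.univ.filter (fun g : V ≃ₗ[K] V => cls g = cls g0))]
  · rw [Finset.sum_congr rfl (g := fun _ => cent g0), Finset.sum_const, smul_eq_mul]
    intro g hg
    rw [Finset.mem_filter] at hg
    obtain ⟨e1, he1⟩ := cls_iso hg.2.symm
    have he1' : ∀ y, e1.symm (g y) = g0 (e1.symm y) := fun y => by
      apply e1.injective
      rw [e1.apply_symm_apply, he1, e1.apply_symm_apply]
    have key : ∀ e : V ≃ₗ[K] V, e * g0 * e⁻¹ = g ↔ ∀ x, e (g0 x) = g (e x) := by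
      intro e
      rw [mul_inv_eq_iff_eq_mul]
      exact ⟨fun h x => LinearEquiv.congr_fun h x, fun h => LinearEquiv.ext h⟩
    rw [← Fintype.card_subtype, ← Nat.card_eq_fintype_card, cent]
    apply Nat.card_congr
    exact
      { toFun := fun e => ⟨e.1.trans e1.symm, fun x => by
          have := (key e.1).1 (by simpa using e.2)
          simp only [LinearEquiv.trans_apply, this, he1']⟩
        invFun := fun u => ⟨u.1.trans e1, by
          have h2 : (u.1.trans e1) * g0 * (u.1.trans e1)⁻¹ = g := (key _).2 (fun x => by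
            simp only [LinearEquiv.trans_apply, u.2, he1])
          simpa using h2⟩
        left_inv := fun e => by
          apply Subtype.ext
          ext x
          simp
        right_inv := fun u => by
          apply Subtype.ext
          ext x
          simp }
  · intro e _
    simp only [Finset.coe_filter, Finset.mem_univ, true_and, Set.mem_ofPred_eq]
    symm
    refine cls_congr e (fun x => ?_)
    rw [LinearEquiv.mul_apply, LinearEquiv.mul_apply]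
    congr 2
    exact (e.symm_apply_apply x).symm

/-- Integration is the mean over the group of automorphisms of a space of dimension `m`. -/
theorem integ_eq {A : Type} [AddCommGroup A] [Module ℚ A] {V : Type} [AddCommGroup V] [Module K V]
    [FiniteDimensional K V] (φ : Cls K → A) :
    integ (finrank K V) φ = (Nat.card (V ≃ₗ[K] V) : ℚ)⁻¹ • ∑ g : V ≃ₗ[K] V, φ (cls g) := by
  classical
  have hpos : (Nat.card (V ≃ₗ[K] V) : ℚ) ≠ 0 := by
    have := finite_linearEquiv (K := K) (M := V)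
    exact_mod_cast Nat.card_pos.ne'
  rw [← Finset.sum_fiberwise_of_maps_to (t := degCls K (finrank K V)) (g := fun g => cls g)
    (fun g _ => mem_degCls.2 (cl_cls g)), Finset.smul_sum, integ]
  refine Finset.sum_congr rfl (fun C hC => ?_)
  rw [mem_degCls] at hC
  have hdim : finrank K (cM (C : ConjClasses (GLInf K))) = finrank K V := by
    rw [finrank_cM', hC]
  let e := LinearEquiv.ofFinrankEq _ _ hdim
  let g0 : V ≃ₗ[K] V := e.symm.trans ((cA (C : ConjClasses (GLInf K))).trans e)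
  have he : ∀ x, e (cA (C : ConjClasses (GLInf K)) x) = g0 (e x) := fun x => by
    simp [g0]
  have h0 : C = cls g0 := by
    rw [← cls_congr e he, cls_cA]
  have hc : cz C = (cent g0 : ℚ) := by
    rw [cz, cent_iso e he]
  have hcard := card_fiber g0
  rw [← h0] at hcard
  rw [Finset.sum_congr rfl (g := fun _ => φ C) (fun g hg => by
    rw [(Finset.mem_filter.1 hg).2]), Finset.sum_const, ← Nat.cast_smul_eq_nsmul ℚ, smul_smul]
  congr 1
  rw [hc, ← hcard, Nat.cast_mul]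
  have h1 : (cent g0 : ℚ) ≠ 0 := by rw [← hc]; exact cent_ne C
  have h2 : ((Finset.univ.filter (fun g : V ≃ₗ[K] V => cls g = C)).card : ℚ) ≠ 0 := by
    intro h
    apply hpos
    rw [← hcard, Nat.cast_mul, h, zero_mul]
  field_simp

/-- a stable subspace -/
private def mkStab {V : Type} [AddCommGroup V] [Module K V] (g : V ≃ₗ[K] V) (W : Submodule K V)
    (h : ∀ x, g x ∈ W ↔ x ∈ W) : Stab g := ⟨W, h⟩

section pairs

variable {M₁ M₂ : Type} [AddCommGroup M₁] [Module K M₁] [AddCommGroup M₂] [Module K M₂]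

variable (K M₁ M₂) in
/-- the first factor -/
private abbrev W0 : Submodule K (M₁ × M₂) := LinearMap.ker (LinearMap.snd K M₁ M₂)

private lemma mem_W0 {x : M₁ × M₂} : x ∈ W0 K M₁ M₂ ↔ x.2 = 0 := Iff.rfl

private def eqW0 : M₁ ≃ₗ[K] W0 K M₁ M₂ where
  toFun x := ⟨(x, 0), mem_W0.2 rfl⟩
  map_add' x y := by ext <;> simp
  map_smul' c x := by ext <;> simp
  invFun w := w.1.1
  left_inv x := rfl
  right_inv w := by
    apply Subtype.ext
    ext
    · rfl
    · exact (mem_W0.1 w.2).symm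

private noncomputable def quW0 : ((M₁ × M₂) ⧸ W0 K M₁ M₂) ≃ₗ[K] M₂ :=
  (LinearMap.snd K M₁ M₂).quotKerEquivOfSurjective LinearMap.snd_surjective

private lemma quW0_mk (x : M₁ × M₂) : quW0 (K := K) (Submodule.Quotient.mk x) = x.2 := rfl

private lemma ut_stable (A : M₁ ≃ₗ[K] M₁) (S : M₂ ≃ₗ[K] M₂) (X : M₂ →ₗ[K] M₁) (x : M₁ × M₂) :
    utAut A S X x ∈ W0 K M₁ M₂ ↔ x ∈ W0 K M₁ M₂ := by
  rw [mem_W0, mem_W0, utAut_apply]
  exact LinearEquiv.map_eq_zero_iff S

variable [FiniteDimensional K M₁] [FiniteDimensional K M₂]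

private lemma cls_sub_W0 (p : (M₁ × M₂) ≃ₗ[K] (M₁ × M₂))
    (h : ∀ x, p x ∈ W0 K M₁ M₂ ↔ x ∈ W0 K M₁ M₂) (A : M₁ ≃ₗ[K] M₁)
    (hA : ∀ x, p (x, 0) = (A x, 0)) :
    cls (mkStab p (W0 K M₁ M₂) h).sub = cls A := by
  symm
  let e : M₁ ≃ₗ[K] (mkStab p (W0 K M₁ M₂) h).space := eqW0
  refine cls_congr e (fun x => ?_)
  apply Subtype.ext
  exact (hA x).symm

private lemma cls_quo_W0 (p : (M₁ × M₂) ≃ₗ[K] (M₁ × M₂))
    (h : ∀ x, p x ∈ W0 K M₁ M₂ ↔ x ∈ W0 K M₁ M₂) (S : M₂ ≃ₗ[K] M₂)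
    (hS : ∀ x, (p x).2 = S x.2) :
    cls (mkStab p (W0 K M₁ M₂) h).quo = cls S := by
  let e : ((M₁ × M₂) ⧸ (mkStab p (W0 K M₁ M₂) h).space) ≃ₗ[K] M₂ := quW0
  refine cls_congr e (fun x => ?_)
  obtain ⟨y, rfl⟩ := Submodule.Quotient.mk_surjective _ x
  exact hS y

private lemma ut_inj {A A' : M₁ ≃ₗ[K] M₁} {S S' : M₂ ≃ₗ[K] M₂} {X X' : M₂ →ₗ[K] M₁}
    (h : utAut A S X = utAut A' S' X') : A = A' ∧ S = S' ∧ X = X' := by
  have h1 : ∀ p, utAut A S X p = utAut A' S' X' p := fun p => by rw [h]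
  refine ⟨?_, ?_, ?_⟩
  · ext x
    simpa using congrArg Prod.fst (h1 (x, 0))
  · ext y
    simpa using congrArg Prod.snd (h1 (0, y))
  · ext y
    simpa using congrArg Prod.fst (h1 (0, y))

private lemma exists_ut (p : (M₁ × M₂) ≃ₗ[K] (M₁ × M₂))
    (h : ∀ x, p x ∈ W0 K M₁ M₂ ↔ x ∈ W0 K M₁ M₂) :
    ∃ (A : M₁ ≃ₗ[K] M₁) (S : M₂ ≃ₗ[K] M₂) (X : M₂ →ₗ[K] M₁), utAut A S X = p := by
  let P : Stab p := ⟨W0 K M₁ M₂, h⟩
  let A : M₁ ≃ₗ[K] M₁ := (eqW0 (K := K) (M₂ := M₂)).trans (P.sub.trans (eqW0 (K := K)).symm)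
  let S : M₂ ≃ₗ[K] M₂ := (quW0 (K := K) (M₁ := M₁)).symm.trans (P.quo.trans (quW0 (K := K)))
  let X : M₂ →ₗ[K] M₁ := LinearMap.fst K M₁ M₂ ∘ₗ p.toLinearMap ∘ₗ LinearMap.inr K M₁ M₂
  have hA : ∀ x, p (x, 0) = (A x, 0) := by
    intro x
    ext
    · rfl
    · exact (h (x, 0)).2 rfl
  have hS : ∀ y, (p (0, y)).2 = S y := by
    intro y
    have : (quW0 (K := K) (M₁ := M₁)).symm y = Submodule.Quotient.mk (0, y) := by
      rw [LinearEquiv.symm_apply_eq, quW0_mk]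
    simp only [S, LinearEquiv.trans_apply, this]
    rfl
  have hX : ∀ y, (p (0, y)).1 = X y := fun y => rfl
  refine ⟨A, S, X, ?_⟩
  apply LinearEquiv.ext
  rintro ⟨x, y⟩
  have h2 : ((x, y) : M₁ × M₂) = (x, 0) + (0, y) := by simp
  rw [utAut_apply]
  conv_rhs => rw [h2, map_add, hA]
  ext
  · simp [hX]
  · simp [hS]

/-- the parameters of the stabilizer of the first factor -/
private abbrev PP (K M₁ M₂ : Type) [Field K] [AddCommGroup M₁] [Module K M₁] [AddCommGroup M₂]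
    [Module K M₂] : Type := (M₁ ≃ₗ[K] M₁) × (M₂ ≃ₗ[K] M₂) × (M₂ →ₗ[K] M₁)

private noncomputable def utEquiv : PP K M₁ M₂ ≃
    {p : (M₁ × M₂) ≃ₗ[K] (M₁ × M₂) // ∀ x, p x ∈ W0 K M₁ M₂ ↔ x ∈ W0 K M₁ M₂} :=
  Equiv.ofBijective (fun t => ⟨utAut t.1 t.2.1 t.2.2, ut_stable t.1 t.2.1 t.2.2⟩) (by
    constructor
    · rintro ⟨A, S, X⟩ ⟨A', S', X'⟩ h
      obtain ⟨rfl, rfl, rfl⟩ := ut_inj (congrArg Subtype.val h)
      rfl
    · rintro ⟨p, hp⟩
      obtain ⟨A, S, X, h⟩ := exists_ut p hp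
      exact ⟨(A, S, X), Subtype.ext h⟩)

private lemma exists_e1 {W : Submodule K (M₁ × M₂)} (hW : finrank K W = finrank K M₁) :
    ∃ e : (M₁ × M₂) ≃ₗ[K] (M₁ × M₂), ∀ x, e x ∈ W ↔ x ∈ W0 K M₁ M₂ := by
  obtain ⟨W', hc⟩ := Submodule.exists_isCompl W
  have h1 := Submodule.finrank_add_eq_of_isCompl hc
  rw [finrank_prod, hW] at h1
  have h1' : finrank K M₂ = finrank K W' := by omega
  let i := LinearEquiv.ofFinrankEq M₁ W hW.symm
  let j := LinearEquiv.ofFinrankEq M₂ W' h1'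
  refine ⟨(i.prodCongr j).trans (Submodule.prodEquivOfIsCompl W W' hc), fun x => ?_⟩
  have h2 : ((i.prodCongr j).trans (Submodule.prodEquivOfIsCompl W W' hc)) x =
    (i x.1 : M₁ × M₂) + (j x.2 : M₁ × M₂) := rfl
  rw [h2, mem_W0, Submodule.add_mem_iff_right W (i x.1).2]
  constructor
  · intro h
    have h3 : (j x.2 : M₁ × M₂) ∈ W ⊓ W' := ⟨h, (j x.2).2⟩
    rw [hc.inf_eq_bot, Submodule.mem_bot] at h3
    have h4 : j x.2 = 0 := Subtype.ext h3
    rwa [LinearEquiv.map_eq_zero_iff] at h4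
  · intro h
    rw [h, map_zero]
    exact W.zero_mem

open Classical in
private lemma card_e {W : Submodule K (M₁ × M₂)} (hW : finrank K W = finrank K M₁) :
    (Finset.univ.filter (fun e : (M₁ × M₂) ≃ₗ[K] (M₁ × M₂) =>
      (W0 K M₁ M₂).map (e : (M₁ × M₂) →ₗ[K] (M₁ × M₂)) = W)).card = Nat.card (PP K M₁ M₂) := by
  obtain ⟨e1, he1⟩ := exists_e1 hW
  rw [← Fintype.card_subtype, ← Nat.card_eq_fintype_card]
  apply Nat.card_congr
  refine Equiv.trans ?_ utEquiv.symm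
  have key : ∀ e : (M₁ × M₂) ≃ₗ[K] (M₁ × M₂),
      (W0 K M₁ M₂).map (e : (M₁ × M₂) →ₗ[K] (M₁ × M₂)) = W ↔ ∀ x, e x ∈ W ↔ x ∈ W0 K M₁ M₂ := by
    intro e
    constructor
    · rintro rfl x
      simp only [Submodule.mem_map_equiv, LinearEquiv.symm_apply_apply]
    · intro h
      ext y
      obtain ⟨x, rfl⟩ := e.surjective y
      simp only [Submodule.mem_map_equiv, LinearEquiv.symm_apply_apply, h]
  have he1' : ∀ y, e1.symm y ∈ W0 K M₁ M₂ ↔ y ∈ W := by
    intro y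
    rw [← he1, e1.apply_symm_apply]
  exact
    { toFun := fun e => ⟨e.1.trans e1.symm, fun x => by
        rw [LinearEquiv.trans_apply, he1', (key e.1).1 e.2]⟩
      invFun := fun p => ⟨p.1.trans e1, (key _).2 (fun x => by
        rw [LinearEquiv.trans_apply, he1, p.2])⟩
      left_inv := fun e => by
        apply Subtype.ext
        ext x <;> simp
      right_inv := fun u => by
        apply Subtype.ext
        ext x <;> simp }

end pairs

section fF

variable {V : Type} [AddCommGroup V] [Module K V] [FiniteDimensional K V]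
variable {A : Type} [AddCommGroup A]

open Classical in
private noncomputable def fF (F : Cls K → Cls K → Cls K → A) (g : V ≃ₗ[K] V) (W : Submodule K V) :
    A :=
  if h : (∀ x, g x ∈ W ↔ x ∈ W) then
    F (cls (mkStab g W h).sub) (cls (mkStab g W h).quo) (cls g)
  else 0

private lemma fF_conj (F : Cls K → Cls K → Cls K → A) (g e : V ≃ₗ[K] V) (W : Submodule K V) :
    fF F (e * g * e⁻¹) (W.map (e : V →ₗ[K] V)) = fF F g W := by
  have he : ∀ x, e (g x) = (e * g * e⁻¹) (e x) := by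
    intro x
    rw [LinearEquiv.mul_apply, LinearEquiv.mul_apply]
    congr 2
    exact (e.symm_apply_apply x).symm
  by_cases h : ∀ x, g x ∈ W ↔ x ∈ W
  · have h' : ∀ x, (e * g * e⁻¹) x ∈ W.map (e : V →ₗ[K] V) ↔ x ∈ W.map (e : V →ₗ[K] V) :=
      (Stab.congr e he ⟨W, h⟩).2
    rw [fF, fF, dif_pos h', dif_pos h, cls_congr e he]
    exact congrArg₂ (fun a b => F a b (cls (e * g * e⁻¹))) (Stab.cls_sub_congr e he ⟨W, h⟩)
      (Stab.cls_quo_congr e he ⟨W, h⟩)
  · have h' : ¬ ∀ x, (e * g * e⁻¹) x ∈ W.map (e : V →ₗ[K] V) ↔ x ∈ W.map (e : V →ₗ[K] V) := by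
      intro h2
      apply h
      intro x
      have := h2 (e x)
      rw [← he] at this
      simpa only [Submodule.mem_map_equiv, LinearEquiv.symm_apply_apply] using this
    rw [fF, fF, dif_neg h', dif_neg h]

@[reducible] private noncomputable def fintypeSubm : Fintype (Submodule K V) := by
  have : Finite V := Module.finite_of_finite K
  have : Finite (Submodule K V) := Finite.of_injective (fun W : Submodule K V => (W : Set V))
    SetLike.coe_injective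
  exact Fintype.ofFinite _

attribute [local instance] fintypeSubm

private lemma sum_fF (F : Cls K → Cls K → Cls K → A) (g : V ≃ₗ[K] V) :
    ∑ W : Stab g, F (cls W.sub) (cls W.quo) (cls g) = ∑ W : Submodule K V, fF F g W := by
  classical
  rw [← Finset.sum_filter_of_ne (s := Finset.univ) (p := fun W : Submodule K V =>
    ∀ x, g x ∈ W ↔ x ∈ W) (f := fF F g)]
  · rw [Finset.sum_subtype (Finset.univ.filter (fun W : Submodule K V => ∀ x, g x ∈ W ↔ x ∈ W))
      (p := fun W => ∀ x, g x ∈ W ↔ x ∈ W) (by simp) (fF F g)]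
    refine Finset.sum_congr rfl (fun W _ => ?_)
    have hW : ∀ x, g x ∈ W.space ↔ x ∈ W.space := W.2
    have h3 : fF F g W.space = F (cls W.sub) (cls W.quo) (cls g) := by
      rw [fF, dif_pos hW]
      rfl
    exact h3.symm
  · intro W _ hne
    by_contra h
    exact hne (by rw [fF, dif_neg h])

end fF

section pairs

variable {M₁ M₂ : Type} [AddCommGroup M₁] [Module K M₁] [AddCommGroup M₂] [Module K M₂]
variable [FiniteDimensional K M₁] [FiniteDimensional K M₂] {A : Type} [AddCommGroup A]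

attribute [local instance] fintypeSubm

private lemma sum_W0 (F : Cls K → Cls K → Cls K → A) :
    ∑ p : (M₁ × M₂) ≃ₗ[K] (M₁ × M₂), fF F p (W0 K M₁ M₂) =
      ∑ t : PP K M₁ M₂, F (cls t.1) (cls t.2.1) (cls (utAut t.1 t.2.1 t.2.2)) := by
  classical
  rw [← Finset.sum_filter_of_ne (s := Finset.univ) (p := fun p : (M₁ × M₂) ≃ₗ[K] (M₁ × M₂) =>
    ∀ x, p x ∈ W0 K M₁ M₂ ↔ x ∈ W0 K M₁ M₂) (f := fun p => fF F p (W0 K M₁ M₂))]
  · rw [Finset.sum_subtype (Finset.univ.filter (fun p : (M₁ × M₂) ≃ₗ[K] (M₁ × M₂) =>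
      ∀ x, p x ∈ W0 K M₁ M₂ ↔ x ∈ W0 K M₁ M₂))
      (p := fun p => ∀ x, p x ∈ W0 K M₁ M₂ ↔ x ∈ W0 K M₁ M₂) (by simp)
      (fun p => fF F p (W0 K M₁ M₂))]
    symm
    refine Fintype.sum_equiv utEquiv _ _ (fun t => ?_)
    have h1 : (utEquiv t).1 = utAut t.1 t.2.1 t.2.2 := rfl
    rw [fF, dif_pos (utEquiv t).2]
    rw [cls_sub_W0 _ _ t.1 (fun x => by rw [h1]; simp), cls_quo_W0 _ _ t.2.1 (fun x => by
      rw [h1]; simp)]
    rfl
  · intro W _ hne
    by_contra h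
    exact hne (by rw [fF, dif_neg h])

private theorem count_pairs (F : Cls K → Cls K → Cls K → A)
    (hF : ∀ C D E, cl C ≠ finrank K M₁ → F C D E = 0) :
    Nat.card (PP K M₁ M₂) • ∑ g : (M₁ × M₂) ≃ₗ[K] (M₁ × M₂),
      ∑ W : Stab g, F (cls W.sub) (cls W.quo) (cls g) =
    Nat.card ((M₁ × M₂) ≃ₗ[K] (M₁ × M₂)) •
      ∑ t : PP K M₁ M₂, F (cls t.1) (cls t.2.1) (cls (utAut t.1 t.2.1 t.2.2)) := by
  classical
  have h0 : ∀ (g : (M₁ × M₂) ≃ₗ[K] (M₁ × M₂)) (W : Submodule K (M₁ × M₂)),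
      finrank K W ≠ finrank K M₁ → fF F g W = 0 := by
    intro g W hW
    by_cases h : ∀ x, g x ∈ W ↔ x ∈ W
    · rw [fF, dif_pos h]
      apply hF
      rw [cl_cls]
      exact hW
    · rw [fF, dif_neg h]
  calc
    _ = ∑ g : (M₁ × M₂) ≃ₗ[K] (M₁ × M₂), ∑ W : Submodule K (M₁ × M₂),
          Nat.card (PP K M₁ M₂) • fF F g W := by
        simp only [sum_fF, Finset.smul_sum]
    _ = ∑ g : (M₁ × M₂) ≃ₗ[K] (M₁ × M₂), ∑ W : Submodule K (M₁ × M₂),
          ∑ e : (M₁ × M₂) ≃ₗ[K] (M₁ × M₂),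
            if (W0 K M₁ M₂).map (e : (M₁ × M₂) →ₗ[K] (M₁ × M₂)) = W then fF F g W else 0 := by
        refine Finset.sum_congr rfl (fun g _ => Finset.sum_congr rfl (fun W _ => ?_))
        by_cases hW : finrank K W = finrank K M₁
        · rw [← Finset.sum_filter, Finset.sum_const, card_e hW]
        · rw [h0 g W hW]; simp
    _ = ∑ g : (M₁ × M₂) ≃ₗ[K] (M₁ × M₂), ∑ e : (M₁ × M₂) ≃ₗ[K] (M₁ × M₂),
          fF F g ((W0 K M₁ M₂).map (e : (M₁ × M₂) →ₗ[K] (M₁ × M₂))) := by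
        refine Finset.sum_congr rfl (fun g _ => ?_)
        rw [Finset.sum_comm]
        refine Finset.sum_congr rfl (fun e _ => ?_)
        rw [Finset.sum_ite_eq, if_pos (Finset.mem_univ _)]
    _ = ∑ e : (M₁ × M₂) ≃ₗ[K] (M₁ × M₂), ∑ p : (M₁ × M₂) ≃ₗ[K] (M₁ × M₂),
          fF F p (W0 K M₁ M₂) := by
        rw [Finset.sum_comm]
        refine Finset.sum_congr rfl (fun e _ => ?_)
        symm
        refine Fintype.sum_equiv (MulAut.conj e).toEquiv _ _ (fun p => ?_)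
        exact (fF_conj F p e _).symm
    _ = _ := by
        rw [Finset.sum_const, Finset.card_univ, ← Nat.card_eq_fintype_card, sum_W0]

end pairs

private theorem integ_part {A : Type} [CommRing A] [Algebra ℚ A] (φ ψ χ : Hall K A) (a b : ℕ) :
    integ (a + b) (fun C => ssum (fun D E => if cl D = a then φ D * ψ E else 0) C * χ C) =
      integ a (fun C => integ b (fun D => φ C * ψ D * res χ C D)) := by
  classical
  let F3 : Cls K → Cls K → Cls K → A := fun D E C => (if cl D = a then φ D * ψ E else 0) * χ C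
  have ha : finrank K (Fin a → K) = a := Module.finrank_fin_fun K
  have hb : finrank K (Fin b → K) = b := Module.finrank_fin_fun K
  have hm : finrank K ((Fin a → K) × (Fin b → K)) = a + b := by rw [finrank_prod, ha, hb]
  have h1 := integ_eq (K := K) (V := (Fin a → K) × (Fin b → K))
    (fun C => ssum (fun D E => if cl D = a then φ D * ψ E else 0) C * χ C)
  rw [hm] at h1
  have h2 : ∑ g : ((Fin a → K) × (Fin b → K)) ≃ₗ[K] ((Fin a → K) × (Fin b → K)),
      ssum (fun D E => if cl D = a then φ D * ψ E else 0) (cls g) * χ (cls g) =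
      ∑ g : ((Fin a → K) × (Fin b → K)) ≃ₗ[K] ((Fin a → K) × (Fin b → K)),
        ∑ W : Stab g, F3 (cls W.sub) (cls W.quo) (cls g) := by
    refine Finset.sum_congr rfl (fun g _ => ?_)
    rw [ssum_cls, Finset.sum_mul]
  have h3 := count_pairs (K := K) (M₁ := Fin a → K) (M₂ := Fin b → K) F3 (fun C D E h => by
    rw [ha] at h
    simp only [F3, if_neg h, zero_mul])
  have hG : (Nat.card (((Fin a → K) × (Fin b → K)) ≃ₗ[K] ((Fin a → K) × (Fin b → K))) : ℚ) ≠ 0 := by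
    have := finite_linearEquiv (K := K) (M := (Fin a → K) × (Fin b → K))
    exact_mod_cast Nat.card_pos.ne'
  have hP : (Nat.card (PP K (Fin a → K) (Fin b → K)) : ℚ) ≠ 0 := by
    exact_mod_cast Nat.card_pos.ne'
  have h4 : (Nat.card (((Fin a → K) × (Fin b → K)) ≃ₗ[K] ((Fin a → K) × (Fin b → K))) : ℚ)⁻¹ •
      ∑ g : ((Fin a → K) × (Fin b → K)) ≃ₗ[K] ((Fin a → K) × (Fin b → K)),
        ∑ W : Stab g, F3 (cls W.sub) (cls W.quo) (cls g) =
      (Nat.card (PP K (Fin a → K) (Fin b → K)) : ℚ)⁻¹ • ∑ t : PP K (Fin a → K) (Fin b → K),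
        F3 (cls t.1) (cls t.2.1) (cls (utAut t.1 t.2.1 t.2.2)) := by
    rw [← Nat.cast_smul_eq_nsmul ℚ, ← Nat.cast_smul_eq_nsmul ℚ] at h3
    rw [inv_smul_eq_iff₀ hG, smul_comm, ← h3, inv_smul_smul₀ hP]
  have hH : Nat.card ((Fin b → K) →ₗ[K] (Fin a → K)) = Nat.card K ^ (a * b) := by
    rw [Module.natCard_eq_pow_finrank (K := K), Module.finrank_linearMap, ha, hb, mul_comm]
  have h5 := integ_eq (K := K) (V := Fin a → K)
    (fun C => integ b (fun D => φ C * ψ D * res χ C D))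
  have h6 : ∀ C : Cls K, _ := fun C => integ_eq (K := K) (V := Fin b → K)
    (fun D => φ C * ψ D * res χ C D)
  rw [ha] at h5
  rw [hb] at h6
  rw [h1, h2, h4, h5]
  have h7 : ∀ (g₁ : (Fin a → K) ≃ₗ[K] (Fin a → K)) (g₂ : (Fin b → K) ≃ₗ[K] (Fin b → K)),
      φ (cls g₁) * ψ (cls g₂) * res χ (cls g₁) (cls g₂) =
      ((Nat.card K : ℚ) ^ (a * b))⁻¹ • ∑ X : (Fin b → K) →ₗ[K] (Fin a → K),
        F3 (cls g₁) (cls g₂) (cls (utAut g₁ g₂ X)) := by
    intro g₁ g₂
    have hc : cl (cls g₁) = a := by rw [cl_cls, ha]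
    rw [res_cls, ha, hb, mul_smul_comm, Finset.mul_sum]
    simp only [F3, if_pos hc]
  simp only [h6, h7, Fintype.sum_prod_type, ← Finset.smul_sum, smul_smul]
  congr 1
  rw [Nat.card_prod, Nat.card_prod, hH]
  push_cast
  rw [mul_inv, mul_inv]

/-- The Hall product is adjoint to restriction. -/
theorem integ_hmul {A : Type} [CommRing A] [Algebra ℚ A] (φ ψ χ : Hall K A) (m : ℕ) :
    integ m (fun C => (φ * ψ) C * χ C) = ∑ p ∈ Finset.HasAntidiagonal.antidiagonal m,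
      integ p.1 (fun C => integ p.2 (fun D => φ C * ψ D * res χ C D)) := by
  classical
  have h1 : integ m (fun C => (φ * ψ) C * χ C) = ∑ p ∈ Finset.HasAntidiagonal.antidiagonal m,
      integ m (fun C => ssum (fun D E => if cl D = p.1 then φ D * ψ E else 0) C * χ C) := by
    rw [← integ_sum]
    refine integ_congr (fun C hC => ?_)
    rw [← Finset.sum_mul]
    congr 1
    rw [Hall.mul_apply]
    simp only [ssum]
    rw [Finset.sum_comm]
    refine Finset.sum_congr rfl (fun W _ => ?_)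
    have hle : cl (cls W.sub) + cl (cls W.quo) = m := by
      rw [W.cl_sub_add_quo, finrank_cM', hC]
    rw [Finset.sum_eq_single (cl (cls W.sub), cl (cls W.quo))]
    · rw [if_pos rfl]
    · rintro ⟨a, b⟩ hab hne
      rw [if_neg]
      rintro rfl
      apply hne
      have h2 := Finset.HasAntidiagonal.mem_antidiagonal.1 hab
      simp only at h2
      rw [Prod.mk.injEq]
      exact ⟨rfl, by omega⟩
    · intro h
      exact absurd (Finset.HasAntidiagonal.mem_antidiagonal.2 hle) h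
  rw [h1]
  refine Finset.sum_congr rfl (fun p hp => ?_)
  obtain ⟨a, b⟩ := p
  have hab : a + b = m := Finset.HasAntidiagonal.mem_antidiagonal.1 hp
  subst hab
  exact integ_part φ ψ χ a b

end Pool.Agent.Lib.MP_02a407_al
end
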