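import Pool.Agent.Lib.MP_02a407_al.Q2.FGLat
import Pool.Agent.Lib.MP_02a407_al.Q2.Integ
import Pool.Agent.Lib.MP_02a407_al.Q2.Dual

section

/-!
# Harish-Chandra restriction of characters
-/

namespace Pool.Agent.Lib.MP_02a407_al

open Module

variable {𝕜 : Type} [Field 𝕜] [IsAlgClosed 𝕜] [CharZero 𝕜]

namespace HCres

omit [IsAlgClosed 𝕜] in
open TensorProduct in
/-- The multiplicity of a character of the first factor is a character of the second factor. -/
lemma isChar_mult {G H : Type} [Group G] [Group H] [Fintype G]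
    {χ : G × H → 𝕜} (hχ : IsChar 𝕜 χ) {ψ : G → 𝕜} (hψ : IsChar 𝕜 ψ) :
    IsChar 𝕜 (fun h => pair (fun g => χ (g, h)) ψ) := by
  obtain ⟨E, _, _, _, ρ, hρ⟩ := hχ
  obtain ⟨W, _, _, _, σ, hσ⟩ := hψ.inv
  let ρ' : Representation 𝕜 H (E ⊗[𝕜] W) :=
    Representation.tprod (ρ.comp (MonoidHom.inr G H)) (1 : Representation 𝕜 H W)
  let τ : Representation 𝕜 G (E ⊗[𝕜] W) :=
    Representation.tprod (ρ.comp (MonoidHom.inl G H)) σ
  have hρ' : ∀ h, ρ' h = TensorProduct.map (ρ (1, h)) 1 := fun h => rfl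
  have hτ : ∀ g, τ g = TensorProduct.map (ρ (g, 1)) (σ g) := fun g => rfl
  have h1 : ∀ h g, ρ' h * τ g = TensorProduct.map (ρ (g, h)) (σ g) := by
    intro h g
    rw [hρ', hτ, ← TensorProduct.map_mul, ← map_mul, one_mul, Prod.mk_mul_mk, one_mul, mul_one]
  have h2 : ∀ h g, τ g * ρ' h = TensorProduct.map (ρ (g, h)) (σ g) := by
    intro h g
    rw [hρ', hτ, ← TensorProduct.map_mul, ← map_mul, mul_one, Prod.mk_mul_mk, one_mul, mul_one]
  have h3 := isChar_trace_mean ρ' τ (by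
    intro h
    rw [Finset.mul_sum, Finset.sum_mul]
    exact Finset.sum_congr rfl fun g _ => by rw [h1, h2])
  have h4 : (fun h => (Nat.card G : 𝕜)⁻¹ * ∑ n, LinearMap.trace 𝕜 (E ⊗[𝕜] W) (ρ' h * τ n)) =
      fun h => pair (fun g => χ (g, h)) ψ := by
    funext h
    unfold pair
    congr 1
    refine Finset.sum_congr rfl fun g _ => ?_
    rw [h1, LinearMap.trace_tensorProduct', ← hρ, ← hσ]
  rw [← h4]
  exact h3

end HCres

/-- The characters of a product of two groups are sums of products of characters. -/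
theorem isChar_prod {G H : Type} [Group G] [Group H] [Fintype G] [Fintype H]
    {χ : G × H → 𝕜} (hχ : IsChar 𝕜 χ) :
    ∃ (n : ℕ) (α : Fin n → G → 𝕜) (β : Fin n → H → 𝕜), (∀ i, IsChar 𝕜 (α i)) ∧
      (∀ i, IsChar 𝕜 (β i)) ∧ ∀ g h, χ (g, h) = ∑ i, α i g * β i h := by
  obtain ⟨I⟩ := nonempty_irrSys 𝕜 G
  refine ⟨I.n, I.χ, fun i h => pair (fun g => χ (g, h)) (I.χ i), I.isChar,
    fun i => HCres.isChar_mult hχ (I.isChar i), ?_⟩
  intro g h
  have hcf : IsCF (fun g => χ (g, h)) := by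
    intro g g'
    have h1 := hχ.isCF (g, h) (g', 1)
    simpa using h1
  rw [I.complete _ hcf g]
  exact Finset.sum_congr rfl fun i _ => mul_comm _ _

variable {K : Type} [Field K] [Finite K]

theorem hc_res {V₁ V₂ : Type} [AddCommGroup V₁] [Module K V₁] [AddCommGroup V₂] [Module K V₂]
    [FiniteDimensional K V₁] [FiniteDimensional K V₂]
    {χ : ((V₁ × V₂) ≃ₗ[K] (V₁ × V₂)) → 𝕜} (hχ : IsChar 𝕜 χ) :
    ∃ (n : ℕ) (α : Fin n → (V₁ ≃ₗ[K] V₁) → 𝕜) (β : Fin n → (V₂ ≃ₗ[K] V₂) → 𝕜),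
      (∀ i, IsChar 𝕜 (α i)) ∧ (∀ i, IsChar 𝕜 (β i)) ∧ ∀ g h,
        ((Nat.card K : 𝕜) ^ (finrank K V₁ * finrank K V₂))⁻¹ *
          ∑ X : V₂ →ₗ[K] V₁, χ (utAut g h X) = ∑ i, α i g * β i h := by
  obtain ⟨E, _, _, _, ρ, hρ⟩ := hχ
  let f : (V₁ ≃ₗ[K] V₁) × (V₂ ≃ₗ[K] V₂) →* ((V₁ × V₂) ≃ₗ[K] (V₁ × V₂)) :=
    { toFun := fun p => utAut p.1 p.2 0
      map_one' := by
        ext p <;> simp
      map_mul' := by
        intro p q
        ext x <;> simp }
  let t : Multiplicative (V₂ →ₗ[K] V₁) →* ((V₁ × V₂) ≃ₗ[K] (V₁ × V₂)) :=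
    { toFun := fun X => utAut 1 1 X.toAdd
      map_one' := by
        ext p <;> simp
      map_mul' := by
        intro p q
        ext x
        · simp only [toAdd_mul, utAut_apply, LinearMap.add_apply, LinearEquiv.mul_apply,
            LinearEquiv.coe_one, id_eq]
          abel
        · simp }
  have hft : ∀ p X, f p * t X = utAut p.1 p.2 (p.1.toLinearMap ∘ₗ X.toAdd) := by
    intro p X
    ext x <;> simp [f, t]
  have htf : ∀ p X, t X * f p = utAut p.1 p.2 (X.toAdd ∘ₗ p.2.toLinearMap) := by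
    intro p X
    ext x <;> simp [f, t]
  have h3 := isChar_trace_mean (ρ.comp f) (ρ.comp t) (by
    intro p
    rw [Finset.mul_sum, Finset.sum_mul]
    refine Fintype.sum_equiv (Multiplicative.toAdd.trans
      ((LinearEquiv.arrowCongr p.2 p.1).toEquiv.trans Multiplicative.ofAdd)) _ _ (fun X => ?_)
    simp only [MonoidHom.comp_apply]
    rw [← map_mul, ← map_mul, hft, htf]
    congr 2
    ext y
    simp)
  obtain ⟨n, α, β, hα, hβ, hαβ⟩ := isChar_prod h3
  refine ⟨n, α, β, hα, hβ, fun g h => ?_⟩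
  rw [← hαβ g h]
  congr 1
  · congr 1
    have h5 : Nat.card (Multiplicative (V₂ →ₗ[K] V₁)) =
        (Nat.card K) ^ (finrank K V₁ * finrank K V₂) := by
      have h6 : Nat.card (Multiplicative (V₂ →ₗ[K] V₁)) = Nat.card (V₂ →ₗ[K] V₁) :=
        Nat.card_congr Multiplicative.toAdd
      rw [h6, Module.natCard_eq_pow_finrank (K := K), Module.finrank_linearMap, mul_comm]
    rw [h5]
    push_cast
    rfl
  · refine Fintype.sum_equiv (((LinearEquiv.arrowCongr (LinearEquiv.refl K V₂) g.symm).toEquiv).trans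
      Multiplicative.ofAdd) _ _ (fun X => ?_)
    simp only [MonoidHom.comp_apply]
    rw [← map_mul, hft, hρ]
    congr 2
    congr 1
    ext y
    simp

end Pool.Agent.Lib.MP_02a407_al
end

section

/-!
# The lattice spanned by characters in the Hall ring
-/

namespace Pool.Agent.Lib.MP_02a407_al

open Module Polynomial

set_option linter.unusedSectionVars false

variable {K : Type} [Field K] [Finite K] {𝕜 : Type} [Field 𝕜] [IsAlgClosed 𝕜] [CharZero 𝕜]

section

variable {V : Type} [AddCommGroup V] [Module K V] [FiniteDimensional K V]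

lemma isCF_cls (φ : Cls K → 𝕜) : IsCF (fun g : V ≃ₗ[K] V => φ (cls g)) := by
  intro g h
  change φ _ = φ _
  congr 1
  symm
  exact cls_congr h (fun x => by simp)

/-- Class functions come from functions on the set of classes. -/
theorem exists_lift {F : (V ≃ₗ[K] V) → 𝕜} (hF : IsCF F) :
    ∃ φ : Hall K 𝕜, ∀ g : V ≃ₗ[K] V, φ (cls g) = F g := by
  classical
  refine ⟨fun C => if h : ∃ g : V ≃ₗ[K] V, cls g = C then F h.choose else 0, fun g => ?_⟩
  have h : ∃ g' : V ≃ₗ[K] V, cls g' = cls g := ⟨g, rfl⟩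
  change (if h : ∃ g' : V ≃ₗ[K] V, cls g' = cls g then F h.choose else 0) = F g
  rw [dif_pos h]
  obtain ⟨e, he⟩ := cls_iso h.choose_spec
  rw [← hF _ e]
  congr 1
  ext x
  change e (h.choose (e.symm x)) = _
  rw [he, e.apply_symm_apply]

/-- The pairing of class functions of `GL(V)` is an integral. -/
theorem pair_eq_integ (φ ψ : Hall K 𝕜) :
    pair (fun g : V ≃ₗ[K] V => φ (cls g)) (fun g => ψ (cls g)) =
      integ (finrank K V) (fun C => φ C * Hall.inv ψ C) := by
  rw [integ_eq (V := V), pair, Rat.smul_def]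
  push_cast
  congr 1
  refine Finset.sum_congr rfl fun g _ => ?_
  rw [Hall.inv_apply, invC_cls]
  rfl

/-- conjugation by an isomorphism -/
noncomputable def hlatConj {W : Type} [AddCommGroup W] [Module K W] (e : V ≃ₗ[K] W) :
    (W ≃ₗ[K] W) →* (V ≃ₗ[K] V) where
  toFun g := (e.trans g).trans e.symm
  map_one' := by
    ext x
    simp
  map_mul' g h := by
    ext x
    simp

lemma hlat_cls_conj {W : Type} [AddCommGroup W] [Module K W] [FiniteDimensional K W]
    (e : V ≃ₗ[K] W) (g : W ≃ₗ[K] W) : cls (hlatConj e g) = cls g := by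
  refine cls_congr e fun x => ?_
  simp [hlatConj]

/-- the classes of automorphisms of a space -/
lemma hlat_exists_cls {C : Cls K} (hC : cl C = finrank K V) : ∃ g : V ≃ₗ[K] V, cls g = C := by
  have hd : finrank K V = finrank K (cM (C : ConjClasses (GLInf K))) := by
    rw [finrank_cM', hC]
  let e : V ≃ₗ[K] cM (C : ConjClasses (GLInf K)) := LinearEquiv.ofFinrankEq _ _ hd
  exact ⟨hlatConj e (cA (C : ConjClasses (GLInf K))), by rw [hlat_cls_conj, cls_cA]⟩

end

/-- The functions whose component of degree `m` is in the lattice of the characters of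
`GL_m(K)`. -/
def HLat (O : Subring 𝕜) (m : ℕ) (φ : Hall K 𝕜) : Prop :=
  GLat O (fun g : (Fin m → K) ≃ₗ[K] (Fin m → K) => φ (cls g))

variable {O : Subring 𝕜}

theorem hLat_iff {V : Type} [AddCommGroup V] [Module K V] [FiniteDimensional K V] {m : ℕ}
    (hm : finrank K V = m) (φ : Hall K 𝕜) :
    HLat O m φ ↔ GLat O (fun g : V ≃ₗ[K] V => φ (cls g)) := by
  have hd : finrank K (Fin m → K) = finrank K V := by rw [Module.finrank_fin_fun, hm]
  let e : (Fin m → K) ≃ₗ[K] V := LinearEquiv.ofFinrankEq _ _ hd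
  constructor
  · intro h
    have h1 := GLat.comap (hlatConj e) h
    simpa only [hlat_cls_conj] using h1
  · intro h
    have h1 := GLat.comap (hlatConj e.symm) h
    simp only [hlat_cls_conj] at h1
    exact h1

lemma HLat.add {m : ℕ} {φ ψ : Hall K 𝕜} (h : HLat O m φ) (h' : HLat O m ψ) :
    HLat O m (φ + ψ) := GLat.add h h'

lemma HLat.smul {m : ℕ} {φ : Hall K 𝕜} (h : HLat O m φ) {a : 𝕜} (ha : a ∈ O) :
    HLat O m (a • φ) := GLat.smul h ha

lemma HLat.neg {m : ℕ} {φ : Hall K 𝕜} (h : HLat O m φ) : HLat O m (-φ) := by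
  have h1 : -φ = (-1 : 𝕜) • φ := by ext C; simp
  rw [h1]
  exact h.smul (O.neg_mem O.one_mem)

lemma HLat.sub {m : ℕ} {φ ψ : Hall K 𝕜} (h : HLat O m φ) (h' : HLat O m ψ) :
    HLat O m (φ - ψ) := by
  rw [sub_eq_add_neg]
  exact h.add h'.neg

lemma HLat.sum {m : ℕ} {ι : Type*} {s : Finset ι} {φ : ι → Hall K 𝕜}
    (h : ∀ i ∈ s, HLat O m (φ i)) : HLat O m (∑ i ∈ s, φ i) := by
  have h1 := GLat.sum (O := O) (s := s)
    (φ := fun i => fun g : (Fin m → K) ≃ₗ[K] (Fin m → K) => φ i (cls g)) h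
  rw [HLat]
  convert h1 using 2 with g
  rw [Hall.sum_apply]

lemma HLat.congr {m : ℕ} {φ ψ : Hall K 𝕜} (h : HLat O m φ) (h' : ∀ C, cl C = m → φ C = ψ C) :
    HLat O m ψ := by
  rw [HLat] at *
  convert h using 2 with g
  symm
  apply h'
  rw [cl_cls, Module.finrank_fin_fun]

lemma HLat.zero {m : ℕ} : HLat O m (0 : Hall K 𝕜) := by
  refine ⟨fun g h => rfl, fun ψ _ => ?_⟩
  have : pair (fun g : (Fin m → K) ≃ₗ[K] (Fin m → K) => (0 : Hall K 𝕜) (cls g)) ψ = 0 := by
    simp [pair]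
  rw [this]
  exact O.zero_mem

/-- In degree `0` the lattice is `O`. -/
theorem hLat_zero {φ : Hall K 𝕜} : HLat O 0 φ ↔ φ 0 ∈ O := by
  have h0 : (fun g : (Fin 0 → K) ≃ₗ[K] (Fin 0 → K) => φ (cls g)) = fun _ => φ 0 * 1 := by
    funext g
    rw [cls_subsingleton, mul_one]
  have h1 : IsChar 𝕜 (fun _ : (Fin 0 → K) ≃ₗ[K] (Fin 0 → K) => (1 : 𝕜)) := by
    have h2 := isChar_of_hom (𝕜 := 𝕜) (G := (Fin 0 → K) ≃ₗ[K] (Fin 0 → K)) 1
    simpa using h2
  rw [HLat, h0]
  constructor
  · intro h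
    have h2 := h.2 _ h1
    rw [pair_smul_left'] at h2
    have h3 : pair (fun _ : (Fin 0 → K) ≃ₗ[K] (Fin 0 → K) => (1 : 𝕜)) (fun _ => 1) = 1 := by
      rw [pair]
      simp only [mul_one, Finset.sum_const, Finset.card_univ, nsmul_eq_mul,
        ← Nat.card_eq_fintype_card]
      rw [inv_mul_cancel₀]
      have : Nat.card ((Fin 0 → K) ≃ₗ[K] (Fin 0 → K)) ≠ 0 := Nat.card_pos.ne'
      exact_mod_cast this
    rwa [h3, mul_one] at h2
  · intro h
    exact GLat.smul (GLat.of_char h1) h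

/-- Restriction of a character. -/
lemma hlat_res {m a b : ℕ} (hab : a + b = m) {χ : Hall K 𝕜}
    (hχ : IsChar 𝕜 (fun g : (Fin m → K) ≃ₗ[K] (Fin m → K) => χ (cls g))) :
    ∃ (n : ℕ) (α β : Fin n → Hall K 𝕜),
      (∀ i, IsChar 𝕜 (fun g : (Fin a → K) ≃ₗ[K] (Fin a → K) => α i (cls g))) ∧
      (∀ i, IsChar 𝕜 (fun g : (Fin b → K) ≃ₗ[K] (Fin b → K) => β i (cls g))) ∧
      ∀ C D, cl C = a → cl D = b → res χ C D = ∑ i, α i C * β i D := by
  have hd : finrank K ((Fin a → K) × (Fin b → K)) = finrank K (Fin m → K) := by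
    rw [finrank_prod, Module.finrank_fin_fun, Module.finrank_fin_fun, Module.finrank_fin_fun, hab]
  let e : ((Fin a → K) × (Fin b → K)) ≃ₗ[K] (Fin m → K) := LinearEquiv.ofFinrankEq _ _ hd
  have h1 := hχ.comap (hlatConj e.symm)
  simp only [hlat_cls_conj] at h1
  obtain ⟨n, α, β, hα, hβ, hαβ⟩ := hc_res h1
  choose α' hα' using fun i => exists_lift (hα i).isCF
  choose β' hβ' using fun i => exists_lift (hβ i).isCF
  refine ⟨n, α', β', fun i => ?_, fun i => ?_, fun C D hC hD => ?_⟩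
  · simpa only [hα'] using hα i
  · simpa only [hβ'] using hβ i
  · obtain ⟨g, rfl⟩ := hlat_exists_cls (V := Fin a → K)
      (hC.trans (Module.finrank_fin_fun K).symm)
    obtain ⟨h, rfl⟩ := hlat_exists_cls (V := Fin b → K)
      (hD.trans (Module.finrank_fin_fun K).symm)
    simp only [hα', hβ']
    rw [res_cls, ← hαβ g h, Rat.smul_def]
    push_cast
    rfl

/-- The lattice is closed under the Hall product. -/
theorem HLat.mul {m : ℕ} {φ ψ : Hall K 𝕜} (h : ∀ a ≤ m, HLat O a φ) (h' : ∀ a ≤ m, HLat O a ψ) :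
    HLat O m (φ * ψ) := by
  refine ⟨isCF_cls _, fun χ hχ => ?_⟩
  obtain ⟨χ', hχ'⟩ := exists_lift hχ.isCF
  have hχ1 : (fun g : (Fin m → K) ≃ₗ[K] (Fin m → K) => χ' (cls g)) = χ := funext hχ'
  rw [← hχ1, pair_eq_integ, Module.finrank_fin_fun, integ_hmul]
  refine O.sum_mem fun p hp => ?_
  obtain ⟨a, b⟩ := p
  have hab : a + b = m := Finset.HasAntidiagonal.mem_antidiagonal.1 hp
  rw [← hχ1] at hχ
  obtain ⟨n, α, β, hα, hβ, hαβ⟩ := hlat_res hab hχ
  have h1 : integ a (fun C => integ b (fun D => φ C * ψ D * res (Hall.inv χ') C D)) =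
      ∑ i, integ a (fun C => φ C * Hall.inv (α i) C) * integ b (fun D => ψ D * Hall.inv (β i) D) := by
    have h2 : ∀ C, cl C = a → integ b (fun D => φ C * ψ D * res (Hall.inv χ') C D) =
        ∑ i, (φ C * Hall.inv (α i) C) * integ b (fun D => ψ D * Hall.inv (β i) D) := by
      intro C hC
      have h3 : ∀ D, cl D = b → φ C * ψ D * res (Hall.inv χ') C D =
          ∑ i, (φ C * Hall.inv (α i) C) * (ψ D * Hall.inv (β i) D) := by
        intro D hD
        rw [res_inv, hαβ _ _ ((cl_invC C).trans hC) ((cl_invC D).trans hD), Finset.mul_sum]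
        refine Finset.sum_congr rfl fun i _ => ?_
        rw [Hall.inv_apply, Hall.inv_apply]
        ring
      rw [integ_congr h3, integ_sum]
      exact Finset.sum_congr rfl fun i _ => integ_mul_left _ _ _
    rw [integ_congr h2, integ_sum]
    exact Finset.sum_congr rfl fun i _ => integ_mul_right _ _ _
  change integ a (fun C => integ b (fun D => φ C * ψ D * res (Hall.inv χ') C D)) ∈ O
  rw [h1]
  refine O.sum_mem fun i _ => O.mul_mem ?_ ?_
  · have h2 := (h a (by omega)).2 _ (hα i)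
    rwa [pair_eq_integ, Module.finrank_fin_fun] at h2
  · have h2 := (h' b (by omega)).2 _ (hβ i)
    rwa [pair_eq_integ, Module.finrank_fin_fun] at h2

lemma hlat_top_sub {M : Type} [AddCommGroup M] [Module K M] [FiniteDimensional K M]
    (g : M ≃ₗ[K] M) : cls (Stab.top g).sub = cls g :=
  cls_congr (LinearEquiv.ofTop _ (Stab.space_top g)) fun _ => rfl

lemma hlat_top_iff {M : Type} [AddCommGroup M] [Module K M] [FiniteDimensional K M]
    {g : M ≃ₗ[K] M} (W : Stab g) : cl (cls W.sub) = finrank K M ↔ W = Stab.top g := by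
  rw [cl_cls]
  constructor
  · intro h
    apply Stab.ext
    rw [Stab.space_top]
    exact Submodule.eq_top_of_finrank_eq h
  · rintro rfl
    rw [Stab.space_top]
    exact finrank_top K M

/-- The Hall product modulo products of elements of lower degree. -/
theorem HLat.mul_sub {m : ℕ} (hm : 1 ≤ m) {φ ψ : Hall K 𝕜} (h0 : φ 0 = 1) (h0' : ψ 0 = 1)
    (h : ∀ a < m, HLat O a φ) (h' : ∀ a < m, HLat O a ψ) :
    HLat O m (φ * ψ - φ - ψ) := by
  classical
  set T : Hall K 𝕜 → Hall K 𝕜 := fun F C => if 1 ≤ cl C ∧ cl C < m then F C else 0 with hT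
  have hTm : ∀ F : Hall K 𝕜, ∀ C, (1 ≤ cl C ∧ cl C < m) → T F C = F C := fun F C hC => if_pos hC
  have hT0 : ∀ F : Hall K 𝕜, ∀ C, ¬ (1 ≤ cl C ∧ cl C < m) → T F C = 0 := fun F C hC => if_neg hC
  have hTl : ∀ F : Hall K 𝕜, (∀ a < m, HLat O a F) → ∀ a ≤ m, HLat O a (T F) := by
    intro F hF a ha
    rcases Nat.eq_zero_or_pos a with rfl | ha0
    · rw [hLat_zero, hT0 F 0 (by rw [cl_zero]; omega)]
      exact O.zero_mem
    · rcases lt_or_eq_of_le ha with ha1 | rfl
      · refine (hF a ha1).congr fun C hC => (hTm F C (by omega)).symm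
      · refine (HLat.zero (K := K) (𝕜 := 𝕜) (O := O)).congr fun C hC => ?_
        rw [hT0 F C (by omega)]
        rfl
  refine (HLat.mul (hTl φ h) (hTl ψ h')).congr fun C hC => ?_
  rw [Hall.sub_apply, Hall.sub_apply, Hall.mul_apply, Hall.mul_apply, ssum, ssum]
  have hfr : finrank K (cM (C : ConjClasses (GLInf K))) = m := by rw [finrank_cM', hC]
  have hne : Stab.bot (cA (C : ConjClasses (GLInf K))) ≠ Stab.top _ := by
    intro h1
    have h2 := (hlat_top_iff (Stab.bot (cA (C : ConjClasses (GLInf K))))).2 h1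
    rw [(Stab.xp_sub_eq_zero_iff _).2 rfl, cl_zero, hfr] at h2
    omega
  have hkey : ∀ W : Stab (cA (C : ConjClasses (GLInf K))), φ (cls W.sub) * ψ (cls W.quo) =
      T φ (cls W.sub) * T ψ (cls W.quo) + (if W = Stab.bot _ then ψ C else 0) +
        (if W = Stab.top _ then φ C else 0) := by
    intro W
    have hadd := W.xp_cl_add
    rw [hC] at hadd
    by_cases hb : W = Stab.bot _
    · have hs : cls W.sub = 0 := (Stab.xp_sub_eq_zero_iff W).2 hb
      rw [if_pos hb, if_neg (fun ht => hne (hb.symm.trans ht)), add_zero, hs, h0,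
        hT0 φ 0 (by rw [cl_zero]; omega), zero_mul, zero_add, one_mul]
      subst hb
      rw [Stab.xp_quo_bot, cls_cA]
    · rw [if_neg hb, add_zero]
      have hs : cls W.sub ≠ 0 := fun h1 => hb ((Stab.xp_sub_eq_zero_iff W).1 h1)
      have hs1 : cl (cls W.sub) ≠ 0 := fun h1 => hs ((cl_eq_zero_iff _).1 h1)
      by_cases ht : W = Stab.top _
      · have h1 := (hlat_top_iff W).2 ht
        rw [hfr] at h1
        have hq : cls W.quo = 0 := by
          rw [← cl_eq_zero_iff]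
          omega
        rw [if_pos ht, hq, h0', hT0 φ (cls W.sub) (by omega), zero_mul, zero_add, mul_one]
        subst ht
        rw [hlat_top_sub, cls_cA]
      · have h1 : cl (cls W.sub) ≠ m := fun h1 => ht ((hlat_top_iff W).1 (h1.trans hfr.symm))
        rw [if_neg ht, add_zero, hTm φ _ (by omega), hTm ψ _ (by omega)]
  rw [Finset.sum_congr rfl fun W _ => hkey W, Finset.sum_add_distrib, Finset.sum_add_distrib,
    Finset.sum_ite_eq' , Finset.sum_ite_eq', if_pos (Finset.mem_univ _), if_pos (Finset.mem_univ _)]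
  ring

end Pool.Agent.Lib.MP_02a407_al
end
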