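import Pool.Agent.Lib.MP_02a407_al.Q2.Prim
import Pool.Agent.Lib.MP_02a407_al.Q2.FGLat

section

/-!
# Inner products of primitive functions
-/

namespace Pool.Agent.Lib.MP_02a407_al

open Module Polynomial

set_option linter.unusedSectionVars false

variable {K : Type} [Field K] [Finite K]

lemma finite_cycIdx (K : Type) [Field K] [Finite K] (m : ℕ) :
    {s : CycleIndex K | s.r * s.f.natDegree = m}.Finite := by
  have h := Set.Finite.preimage (cyc_injective (K := K)).injOn (finite_classes (K := K) m)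
  refine h.subset ?_
  intro s hs
  change cl (cyc s) = m
  rw [cl_cyc]
  exact hs

/-- The single cycles of degree `m`. -/
noncomputable def cycIdx (K : Type) [Field K] [Finite K] (m : ℕ) : Finset (CycleIndex K) :=
  (finite_cycIdx K m).toFinset

@[simp] lemma mem_cycIdx {m : ℕ} {s : CycleIndex K} :
    s ∈ cycIdx K m ↔ s.r * s.f.natDegree = m := by
  rw [cycIdx, Set.Finite.mem_toFinset]; rfl

variable {A : Type} [CommRing A] [Algebra ℚ A]

/-! ### The pairing of a product with a primitive function -/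

lemma pi_cz_zero : cz (0 : Cls K) = 1 := by
  have h0 : (0 : Cls K) = cls (LinearEquiv.refl K PUnit.{1}) := (cls_subsingleton _).symm
  have h1 : cls (cA ((0 : Cls K) : ConjClasses (GLInf K))) = cls (LinearEquiv.refl K PUnit.{1}) := by
    rw [cls_cA, ← h0]
  obtain ⟨e, he⟩ := cls_iso h1
  rw [cz, cent_iso e he, cent]
  have hu : Unique {u : PUnit.{1} ≃ₗ[K] PUnit.{1} //
      ∀ x, u (LinearEquiv.refl K PUnit.{1} x) = LinearEquiv.refl K PUnit.{1} (u x)} :=
    { default := ⟨LinearEquiv.refl K PUnit.{1}, fun _ => rfl⟩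
      uniq := fun a => Subtype.ext (LinearEquiv.ext fun x => Subsingleton.elim _ _) }
  rw [Nat.card_unique, Nat.cast_one]

lemma pi_integ_zero (F : Cls K → A) : integ 0 F = F 0 := by
  have h : degCls K 0 = {0} := by
    ext C
    rw [mem_degCls, cl_eq_zero_iff, Finset.mem_singleton]
  rw [integ, h, Finset.sum_singleton, pi_cz_zero, inv_one, one_smul]

lemma pi_integ_of_zero {m : ℕ} {F : Cls K → A} (h : ∀ C, cl C = m → F C = 0) : integ m F = 0 := by
  rw [integ]
  exact Finset.sum_eq_zero fun C hC => by rw [h C (mem_degCls.1 hC), smul_zero]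

/-- The pairing of a product with a primitive function. -/
theorem integ_mul_prim {α β φ : Hall K A} (hφ : IsPrim φ) {m : ℕ} (hm : 1 ≤ m) :
    integ m (fun C => (α * β) C * φ C) =
      α 0 * integ m (fun C => β C * φ C) + β 0 * integ m (fun C => α C * φ C) := by
  classical
  rw [integ_hmul]
  have h1 : ({(0, m), (m, 0)} : Finset (ℕ × ℕ)) ⊆ Finset.HasAntidiagonal.antidiagonal m := by
    intro p hp
    rw [Finset.mem_insert, Finset.mem_singleton] at hp
    rw [Finset.HasAntidiagonal.mem_antidiagonal]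
    rcases hp with rfl | rfl <;> simp
  rw [← Finset.sum_subset h1]
  · rw [Finset.sum_pair (by
      intro h
      have := congrArg Prod.fst h
      simp only at this
      omega)]
    congr 1
    · rw [pi_integ_zero, ← integ_mul_left]
      exact integ_congr fun C _ => by rw [res_zero_left, mul_assoc]
    · rw [← integ_mul_left]
      exact integ_congr fun C _ => by
        simp only
        rw [pi_integ_zero, res_zero_right]
        ring
  · intro p hp hp'
    rw [Finset.HasAntidiagonal.mem_antidiagonal] at hp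
    have h2 : p.1 ≠ 0 := by
      intro h
      apply hp'
      rw [Finset.mem_insert]
      left
      exact Prod.ext h (by simp only; omega)
    have h3 : p.2 ≠ 0 := by
      intro h
      apply hp'
      rw [Finset.mem_insert, Finset.mem_singleton]
      right
      exact Prod.ext (by simp only; omega) h
    apply pi_integ_of_zero
    intro C hC
    apply pi_integ_of_zero
    intro D hD
    rw [hφ.2 C D, mul_zero]
    · rw [Ne, ← cl_eq_zero_iff, hC]; exact h2
    · rw [Ne, ← cl_eq_zero_iff, hD]; exact h3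

/-! ### Generators -/

section gen

variable {M : Type} [AddCommGroup M] [Module K M] [FiniteDimensional K M]
  {N : Type} [AddCommGroup N] [Module K N] [FiniteDimensional K N]

omit [Finite K] [FiniteDimensional K M] in
/-- `v` generates `M`. -/
def pi_Gen (g : M ≃ₗ[K] M) (v : M) : Prop := ∀ W : Stab g, v ∈ W.space → W.space = ⊤

/-- the number of generators -/
noncomputable def pi_ngen (g : M ≃ₗ[K] M) : ℕ := Nat.card {v : M // pi_Gen g v}

omit [Finite K] [FiniteDimensional K M] [FiniteDimensional K N] in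
lemma pi_Gen_congr {g : M ≃ₗ[K] M} {h : N ≃ₗ[K] N} (e : M ≃ₗ[K] N)
    (he : ∀ x, e (g x) = h (e x)) {v : M} (hv : pi_Gen g v) : pi_Gen h (e v) := by
  intro W hW
  have he' : ∀ y, e.symm (h y) = g (e.symm y) := by
    intro y
    apply e.injective
    rw [e.apply_symm_apply, he, e.apply_symm_apply]
  have h1 := hv (Stab.congr e.symm he' W) (by
    rw [Stab.space_congr]
    refine ⟨e v, hW, ?_⟩
    simp)
  rw [Stab.space_congr] at h1
  rw [eq_top_iff]
  intro y _
  have h2 : e.symm y ∈ W.space.map (e.symm : N →ₗ[K] M) := by rw [h1]; trivial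
  obtain ⟨z, hz, hzy⟩ := h2
  have h3 : z = y := e.symm.injective hzy
  rwa [← h3]

omit [Finite K] in
lemma pi_ngen_congr {g : M ≃ₗ[K] M} {h : N ≃ₗ[K] N} (hc : cls g = cls h) :
    pi_ngen g = pi_ngen h := by
  obtain ⟨e, he⟩ := cls_iso hc
  have he' : ∀ y, e.symm (h y) = g (e.symm y) := by
    intro y
    apply e.injective
    rw [e.apply_symm_apply, he, e.apply_symm_apply]
  apply Nat.card_congr
  exact
    { toFun := fun v => ⟨e v.1, pi_Gen_congr e he v.2⟩
      invFun := fun v => ⟨e.symm v.1, pi_Gen_congr e.symm he' v.2⟩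
      left_inv := fun v => Subtype.ext (e.symm_apply_apply _)
      right_inv := fun v => Subtype.ext (e.apply_symm_apply _) }

omit [Finite K] [FiniteDimensional K M] in
/-- the smallest stable subspace containing `v` -/
def pi_span (g : M ≃ₗ[K] M) (v : M) : Stab g :=
  ⟨sInf {W : Submodule K M | (∀ x, g x ∈ W ↔ x ∈ W) ∧ v ∈ W}, fun x => by
    simp only [Submodule.mem_sInf]
    exact ⟨fun h W hW => (hW.1 x).1 (h W hW), fun h W hW => (hW.1 x).2 (h W hW)⟩⟩

omit [Finite K] [FiniteDimensional K M] in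
lemma pi_mem_span (g : M ≃ₗ[K] M) (v : M) : v ∈ (pi_span g v).space := by
  change v ∈ sInf _
  rw [Submodule.mem_sInf]
  exact fun W hW => hW.2

omit [Finite K] [FiniteDimensional K M] in
lemma pi_span_le (g : M ≃ₗ[K] M) (v : M) (W : Stab g) (h : v ∈ W.space) :
    (pi_span g v).space ≤ W.space := by
  change sInf _ ≤ W.space
  exact sInf_le ⟨W.2, h⟩

omit [Finite K] [FiniteDimensional K M] in
lemma pi_gen_sub_iff (g : M ≃ₗ[K] M) (W : Stab g) (v : W.space) :
    pi_Gen W.sub v ↔ pi_span g (v : M) = W := by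
  constructor
  · intro h
    apply Stab.ext
    apply le_antisymm (pi_span_le g _ W v.2)
    let W' : Stab W.sub := ⟨(pi_span g (v : M)).space.comap W.space.subtype, fun x => by
      simp only [Submodule.mem_comap, Submodule.subtype_apply, Stab.coe_sub]
      exact (pi_span g (v : M)).mem_iff _⟩
    have h1 := h W' (pi_mem_span g (v : M))
    intro x hx
    have h2 : (⟨x, hx⟩ : W.space) ∈ W'.space := by rw [h1]; trivial
    exact h2
  · intro h W' hv
    let W'' : Stab g := ⟨W'.space.map W.space.subtype, fun x => by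
      constructor
      · rintro ⟨y, hy, hyx⟩
        have hx : x ∈ W.space := by
          rw [← W.mem_iff, ← hyx]
          exact y.2
        refine ⟨⟨x, hx⟩, ?_, rfl⟩
        change (⟨x, hx⟩ : W.space) ∈ W'.space
        rw [← W'.mem_iff]
        have : W.sub ⟨x, hx⟩ = y := Subtype.ext (by rw [Stab.coe_sub]; exact hyx.symm)
        rw [this]
        exact hy
      · rintro ⟨y, hy, hyx⟩
        refine ⟨W.sub y, (W'.mem_iff y).2 hy, ?_⟩
        rw [← hyx]
        rfl⟩
    have h1 : W.space ≤ W''.space := by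
      rw [← congrArg Stab.space h]
      exact pi_span_le g _ W'' ⟨v, hv, rfl⟩
    rw [eq_top_iff]
    intro x _
    obtain ⟨y, hy, hyx⟩ := h1 x.2
    have : y = x := Subtype.ext hyx
    rwa [← this]

lemma pi_sum_ngen (g : M ≃ₗ[K] M) : ∑ W : Stab g, pi_ngen W.sub = Nat.card K ^ finrank K M := by
  classical
  have hM : Finite M := Module.finite_of_finite K
  have : Fintype M := Fintype.ofFinite M
  rw [← Module.natCard_eq_pow_finrank, Nat.card_eq_fintype_card, ← Finset.card_univ,
    Finset.card_eq_sum_card_fiberwise (s := (Finset.univ : Finset M)) (f := pi_span g)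
      (t := Finset.univ) (fun _ _ => Finset.mem_coe.2 (Finset.mem_univ _))]
  refine Finset.sum_congr rfl fun W _ => ?_
  rw [pi_ngen, ← Fintype.card_subtype, ← Nat.card_eq_fintype_card]
  apply Nat.card_congr
  exact
    { toFun := fun v => ⟨v.1, (pi_gen_sub_iff g W v.1).1 v.2⟩
      invFun := fun v => ⟨⟨v.1, by
          have := pi_mem_span g v.1
          rwa [v.2] at this⟩, (pi_gen_sub_iff g W _).2 v.2⟩
      left_inv := fun v => rfl
      right_inv := fun v => rfl }

omit [Finite K] in
/-- A cyclic `f`-primary automorphism is of type `K[X]/(f ^ r)`. -/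
lemma pi_exists_cyc (f : PIdx K) (g : M ≃ₗ[K] M) (hf : IsPrmy f (cls g)) {v : M}
    (hv : pi_Gen g v) : ∃ r, cls g = f.cyc r := by
  rw [isPrmy_cls] at hf
  obtain ⟨k, hk⟩ := hf
  let φ : K[X] →ₗ[K] M :=
    { toFun := fun a => aeval ((g : M →ₗ[K] M) : Module.End K M) a v
      map_add' := fun a b => by rw [map_add, LinearMap.add_apply]
      map_smul' := fun c a => by rw [map_smul, LinearMap.smul_apply, RingHom.id_apply] }
  have hφ : ∀ a, φ a = aeval ((g : M →ₗ[K] M) : Module.End K M) a v := fun a => rfl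
  have hφX : ∀ a, φ (X * a) = g (φ a) := by
    intro a
    rw [hφ, hφ, map_mul, aeval_X]
    rfl
  have hsurj : LinearMap.range φ = ⊤ := by
    have h1 := hv (Stab.ofLE (LinearMap.range φ) (by
      rintro _ ⟨a, rfl⟩
      exact ⟨X * a, hφX a⟩)) ⟨1, by rw [hφ, map_one]; rfl⟩
    exact h1
  let J : Ideal K[X] :=
    { carrier := {a | φ a = 0}
      add_mem' := fun {a b} ha hb => by
        have ha' : φ a = 0 := ha
        have hb' : φ b = 0 := hb
        change φ (a + b) = 0
        rw [map_add, ha', hb', add_zero]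
      zero_mem' := map_zero φ
      smul_mem' := fun c a ha => by
        have ha' : φ a = 0 := ha
        change φ (c * a) = 0
        rw [hφ, map_mul, Module.End.mul_apply, ← hφ, ha', map_zero] }
  have hJ : ∀ a, a ∈ J ↔ φ a = 0 := fun a => Iff.rfl
  have hpr : J.IsPrincipal := IsPrincipalIdealRing.principal J
  have hgen : ∀ a, a ∈ J ↔ Submodule.IsPrincipal.generator J ∣ a := fun a =>
    Submodule.IsPrincipal.mem_iff_generator_dvd J
  have h0 : f.f ^ k ∈ J := by
    rw [hJ, hφ, map_pow, hk]
    rfl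
  rw [hgen] at h0
  obtain ⟨r, _, hass⟩ := (dvd_prime_pow f.irred.prime k).1 h0
  refine ⟨r, ?_⟩
  have hker : ∀ a, φ a = 0 ↔ f.f ^ r ∣ a := fun a => by
    rw [← hJ, hgen, hass.dvd_iff_dvd_left]
  let π : K[X] →ₗ[K] AdjoinRoot (f.f ^ r) :=
    { toFun := fun a => AdjoinRoot.mk (f.f ^ r) a
      map_add' := fun a b => map_add _ a b
      map_smul' := fun c a => by
        rw [RingHom.id_apply, Polynomial.smul_eq_C_mul, map_mul, AdjoinRoot.mk_C, Algebra.smul_def]
        rfl }
  have hπ : ∀ a, π a = AdjoinRoot.mk (f.f ^ r) a := fun a => rfl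
  have hπs : Function.Surjective π := AdjoinRoot.mk_surjective
  have hk1 : LinearMap.ker π = LinearMap.ker φ := by
    ext a
    rw [LinearMap.mem_ker, LinearMap.mem_ker, hker, hπ, AdjoinRoot.mk_eq_zero]
  have hφs : Function.Surjective φ := LinearMap.range_eq_top.1 hsurj
  let e : AdjoinRoot (f.f ^ r) ≃ₗ[K] M := (LinearMap.quotKerEquivOfSurjective π hπs).symm.trans
    ((Submodule.quotEquivOfEq _ _ hk1).trans (LinearMap.quotKerEquivOfSurjective φ hφs))
  have he : ∀ a, e (π a) = φ a := by
    intro a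
    have h1 : (LinearMap.quotKerEquivOfSurjective π hπs).symm (π a) = Submodule.Quotient.mk a := by
      rw [LinearEquiv.symm_apply_eq]
      rfl
    change (Submodule.quotEquivOfEq _ _ hk1).trans (LinearMap.quotKerEquivOfSurjective φ hφs)
      ((LinearMap.quotKerEquivOfSurjective π hπs).symm (π a)) = φ a
    rw [h1]
    rfl
  symm
  refine cls_congr e (fun x => ?_)
  obtain ⟨a, rfl⟩ := hπs x
  have h5 : rootAut (f.f ^ r) (f.coprime_X_pow r) (π a) = π (X * a) := by
    rw [rootAut_apply, hπ, hπ, map_mul, AdjoinRoot.mk_X]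
  rw [h5, he, he, hφX]

omit [Finite K] in
lemma pi_mk_mul_mem (f : PIdx K) {r : ℕ} (W : Stab (rootAut (f.f ^ r) (f.coprime_X_pow r)))
    (a x : AdjoinRoot (f.f ^ r)) (hx : x ∈ W.space) : a * x ∈ W.space := by
  obtain ⟨a, rfl⟩ := AdjoinRoot.mk_surjective a
  induction a using Polynomial.induction_on generalizing x with
  | C c =>
    have : AdjoinRoot.mk (f.f ^ r) (C c) * x = c • x := by
      rw [AdjoinRoot.mk_C, Algebra.smul_def]
      rfl
    rw [this]
    exact W.space.smul_mem _ hx
  | add p q hp hq =>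
    rw [map_add, add_mul]
    exact W.space.add_mem (hp x hx) (hq x hx)
  | monomial n c ih =>
    have h1 := ih x hx
    have h2 : AdjoinRoot.mk (f.f ^ r) (C c * X ^ (n + 1)) * x =
        rootAut (f.f ^ r) (f.coprime_X_pow r) (AdjoinRoot.mk (f.f ^ r) (C c * X ^ n) * x) := by
      rw [rootAut_apply, ← AdjoinRoot.mk_X, ← mul_assoc, ← map_mul]
      congr 2
      ring
    rw [h2]
    exact (W.mem_iff _).2 h1

omit [Finite K] in
lemma pi_gen_one (f : PIdx K) (r : ℕ) : pi_Gen (rootAut (f.f ^ r) (f.coprime_X_pow r)) 1 := by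
  intro W hW
  rw [eq_top_iff]
  intro x _
  have := pi_mk_mul_mem f W x 1 hW
  rwa [mul_one] at this

omit [Finite K] in
/-- A map commuting with the multiplication by `X` is a multiplication. -/
lemma pi_comm_mul (f : PIdx K) {r : ℕ} (u : AdjoinRoot (f.f ^ r) ≃ₗ[K] AdjoinRoot (f.f ^ r))
    (hu : ∀ x, u (rootAut (f.f ^ r) (f.coprime_X_pow r) x) =
      rootAut (f.f ^ r) (f.coprime_X_pow r) (u x)) (a : AdjoinRoot (f.f ^ r)) :
    u a = a * u 1 := by
  have key : ∀ (a : K[X]) (x : AdjoinRoot (f.f ^ r)),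
      u (AdjoinRoot.mk (f.f ^ r) a * x) = AdjoinRoot.mk (f.f ^ r) a * u x := by
    intro a
    induction a using Polynomial.induction_on with
    | C c =>
      intro x
      have : ∀ y, AdjoinRoot.mk (f.f ^ r) (C c) * y = c • y := by
        intro y
        rw [AdjoinRoot.mk_C, Algebra.smul_def]
        rfl
      rw [this, this, map_smul]
    | add p q hp hq =>
      intro x
      rw [map_add, add_mul, add_mul, map_add, hp, hq]
    | monomial n c ih =>
      intro x
      have h2 : ∀ y, AdjoinRoot.mk (f.f ^ r) (C c * X ^ (n + 1)) * y =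
          rootAut (f.f ^ r) (f.coprime_X_pow r) (AdjoinRoot.mk (f.f ^ r) (C c * X ^ n) * y) := by
        intro y
        rw [rootAut_apply, ← AdjoinRoot.mk_X, ← mul_assoc, ← map_mul]
        congr 2
        ring
      rw [h2, h2, hu, ih]
  obtain ⟨a, rfl⟩ := AdjoinRoot.mk_surjective a
  have := key a 1
  rwa [mul_one] at this

omit [Finite K] in
lemma pi_gen_isUnit (f : PIdx K) {r : ℕ} {v : AdjoinRoot (f.f ^ r)}
    (hv : pi_Gen (rootAut (f.f ^ r) (f.coprime_X_pow r)) v) : IsUnit v := by
  have h1 := hv (Stab.ofLE (LinearMap.range (LinearMap.mulLeft K v)) (by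
    rintro _ ⟨x, rfl⟩
    exact ⟨AdjoinRoot.root _ * x, by
      rw [LinearMap.mulLeft_apply, LinearMap.mulLeft_apply, rootAut_apply]
      ring⟩)) ⟨1, by rw [LinearMap.mulLeft_apply, mul_one]⟩
  rw [Stab.space_ofLE] at h1
  have h2 : (1 : AdjoinRoot (f.f ^ r)) ∈ LinearMap.range (LinearMap.mulLeft K v) := by
    rw [h1]; trivial
  obtain ⟨w, hw⟩ := h2
  rw [LinearMap.mulLeft_apply] at hw
  exact IsUnit.of_mul_eq_one w hw

omit [Finite K] in
lemma pi_ngen_rootAut (f : PIdx K) (r : ℕ) :
    pi_ngen (rootAut (f.f ^ r) (f.coprime_X_pow r)) =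
      cent (rootAut (f.f ^ r) (f.coprime_X_pow r)) := by
  symm
  apply Nat.card_congr
  refine Equiv.ofBijective (fun u => ⟨u.1 1, pi_Gen_congr u.1 u.2 (pi_gen_one f r)⟩) ⟨?_, ?_⟩
  · intro u u' h
    have h1 : u.1 1 = u'.1 1 := congrArg Subtype.val h
    apply Subtype.ext
    apply LinearEquiv.ext
    intro x
    rw [pi_comm_mul f u.1 u.2, pi_comm_mul f u'.1 u'.2, h1]
  · rintro ⟨v, hv⟩
    obtain ⟨w, rfl⟩ := pi_gen_isUnit f hv
    let u : AdjoinRoot (f.f ^ r) ≃ₗ[K] AdjoinRoot (f.f ^ r) :=
      LinearEquiv.ofBijective (LinearMap.mulLeft K (w : AdjoinRoot (f.f ^ r)))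
        ⟨fun _ _ hab => w.isUnit.mul_left_cancel hab, fun b =>
          ⟨(↑w⁻¹ : AdjoinRoot (f.f ^ r)) * b, by
            rw [LinearMap.mulLeft_apply, Units.mul_inv_cancel_left]⟩⟩
    have hu : ∀ x, u x = w * x := fun x => rfl
    refine ⟨⟨u, fun x => ?_⟩, ?_⟩
    · rw [hu, hu, rootAut_apply, rootAut_apply]
      ring
    · apply Subtype.ext
      change u 1 = w
      rw [hu, mul_one]

end gen

/-! ### The generator function -/

open Classical in
/-- The number of generators, on the `f`-primary classes. -/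
noncomputable def pi_nf (A : Type) [CommRing A] (f : PIdx K) : Hall K A :=
  fun C => if IsPrmy f C then (pi_ngen (cA (C : ConjClasses (GLInf K))) : A) else 0

omit [Algebra ℚ A] in
lemma pi_nf_cls (f : PIdx K) {M : Type} [AddCommGroup M] [Module K M] [FiniteDimensional K M]
    (g : M ≃ₗ[K] M) (h : IsPrmy f (cls g)) : pi_nf A f (cls g) = (pi_ngen g : A) := by
  rw [pi_nf, if_pos h, pi_ngen_congr (cls_cA (cls g))]

omit [Algebra ℚ A] in
lemma pi_nf_mul (f : PIdx K) (C : Cls K) :
    (pi_nf A f * prm A f) C = ((Nat.card K : A) ^ (cl C)) * prm A f C := by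
  rw [← cls_cA C, Hall.mul_cls]
  set g := cA (C : ConjClasses (GLInf K)) with hg
  by_cases h : IsPrmy f (cls g)
  · have h1 : ∀ W : Stab g, pi_nf A f (cls W.sub) * prm A f (cls W.quo) = (pi_ngen W.sub : A) := by
      intro W
      have h2 := (isPrmy_stab f g W).1 h
      rw [pi_nf_cls f _ h2.1, prm, if_pos h2.2, mul_one]
    rw [Finset.sum_congr rfl fun W _ => h1 W, ← Nat.cast_sum, pi_sum_ngen, prm, if_pos h, mul_one,
      cl_cls]
    push_cast
    rfl
  · have h1 : ∀ W : Stab g, pi_nf A f (cls W.sub) * prm A f (cls W.quo) = 0 := by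
      intro W
      by_cases h2 : IsPrmy f (cls W.sub)
      · by_cases h3 : IsPrmy f (cls W.quo)
        · exact absurd ((isPrmy_stab f g W).2 ⟨h2, h3⟩) h
        · rw [prm, if_neg h3, mul_zero]
      · rw [pi_nf, if_neg h2, zero_mul]
    rw [Finset.sum_congr rfl fun W _ => h1 W, Finset.sum_const_zero, prm, if_neg h, mul_zero]

omit [Algebra ℚ A] in
lemma pi_prm_zero (f : PIdx K) : prm A f 0 = 1 := by
  rw [prm, if_pos (isPrmy_zero f)]

omit [Algebra ℚ A] in
lemma pi_nf_zero (f : PIdx K) : pi_nf A f 0 = 1 := by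
  have h0 : (0 : Cls K) = cls (LinearEquiv.refl K PUnit.{1}) := (cls_subsingleton _).symm
  have h1 : IsPrmy f (cls (LinearEquiv.refl K PUnit.{1})) := by
    rw [← h0]; exact isPrmy_zero f
  have hu : Unique {v : PUnit.{1} // pi_Gen (LinearEquiv.refl K PUnit.{1}) v} :=
    { default := ⟨0, fun W _ => Subsingleton.elim _ _⟩
      uniq := fun a => Subtype.ext (Subsingleton.elim _ _) }
  rw [h0, pi_nf_cls f _ h1, pi_ngen, Nat.card_unique, Nat.cast_one]

lemma pi_q_ne (m : ℕ) (hm : 1 ≤ m) : ((Nat.card K : ℚ) ^ m - 1) ≠ 0 := by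
  have h1 : 1 < Nat.card K := Finite.one_lt_card
  have h2 : 1 < Nat.card K ^ m := Nat.one_lt_pow (by omega) h1
  have h3 : (1 : ℚ) < (Nat.card K : ℚ) ^ m := by exact_mod_cast h2
  intro h
  linarith

lemma pi_key (f : PIdx K) {φ : Hall K A} (hφ : IsPrim φ) {m : ℕ} (hm : 1 ≤ m) :
    ((Nat.card K : ℚ) ^ m - 1) • integ m (fun C => φ C * prm A f C) =
      integ m (fun C => pi_nf A f C * φ C) := by
  have h1 := integ_mul_prim (α := pi_nf A f) (β := prm A f) hφ hm
  rw [pi_nf_zero, pi_prm_zero, one_mul, one_mul] at h1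
  have h2 : integ m (fun C => (pi_nf A f * prm A f) C * φ C) =
      ((Nat.card K : ℚ) ^ m) • integ m (fun C => φ C * prm A f C) := by
    rw [← integ_smul]
    refine integ_congr fun C hC => ?_
    rw [pi_nf_mul, hC, Algebra.smul_def, map_pow, map_natCast]
    ring
  have h3 : integ m (fun C => prm A f C * φ C) = integ m (fun C => φ C * prm A f C) :=
    integ_congr fun C _ => mul_comm _ _
  rw [h2, h3] at h1
  rw [sub_smul, one_smul, h1]
  abel

lemma pi_nf_eq_zero (f : PIdx K) (C : Cls K) (h : ∀ r, C ≠ f.cyc r) : pi_nf A f C = 0 := by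
  by_cases hC : IsPrmy f C
  · rw [pi_nf, if_pos hC]
    have h2 : IsEmpty {v // pi_Gen (cA (C : ConjClasses (GLInf K))) v} := by
      refine ⟨fun v => ?_⟩
      obtain ⟨r, hr⟩ := pi_exists_cyc f (cA (C : ConjClasses (GLInf K)))
        (by rw [cls_cA]; exact hC) v.2
      rw [cls_cA] at hr
      exact h r hr
    rw [pi_ngen, Nat.card_of_isEmpty, Nat.cast_zero]
  · rw [pi_nf, if_neg hC]

/-- The pairing of a primitive function with the indicator function of the primary classes. -/
theorem integ_prm (f : PIdx K) {φ : Hall K A} (hφ : IsPrim φ) {r : ℕ} (hr : 1 ≤ r) :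
    integ (r * f.deg) (fun C => φ C * prm A f C) =
      ((Nat.card K : ℚ) ^ (r * f.deg) - 1)⁻¹ • φ (f.cyc r) := by
  have hm : 1 ≤ r * f.deg := Nat.mul_pos hr f.deg_pos
  have h1 := pi_key (A := A) f hφ hm
  have h2 : integ (r * f.deg) (fun C => pi_nf A f C * φ C) = φ (f.cyc r) := by
    rw [integ, Finset.sum_eq_single (f.cyc r)]
    · have h3 : IsPrmy f (f.cyc r) := (isPrmy_cyc f f r).2 (Or.inr rfl)
      have h4 : pi_nf A f (f.cyc r) = algebraMap ℚ A (cz (f.cyc r)) := by
        have h5 : cls (cA ((f.cyc r : Cls K) : ConjClasses (GLInf K))) =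
            cls (rootAut (f.f ^ r) (f.coprime_X_pow r)) := by
          rw [cls_cA]; rfl
        obtain ⟨e, he⟩ := cls_iso h5
        have h6 : pi_nf A f (f.cyc r) = (pi_ngen (rootAut (f.f ^ r) (f.coprime_X_pow r)) : A) :=
          pi_nf_cls f _ h3
        rw [h6, pi_ngen_rootAut, cz, cent_iso e he, map_natCast]
      rw [h4, ← Algebra.smul_def, smul_smul, inv_mul_cancel₀ (cent_ne _), one_smul]
    · intro C hC hne
      rw [mem_degCls] at hC
      rw [pi_nf_eq_zero f C, zero_mul, smul_zero]
      intro t ht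
      rw [ht, PIdx.cl_cyc] at hC
      have : t = r := Nat.eq_of_mul_eq_mul_right f.deg_pos hC
      exact hne (by rw [ht, this])
    · intro h
      exact absurd (mem_degCls.2 (f.cl_cyc r)) h
  rw [h2] at h1
  rw [← h1, inv_smul_smul₀ (pi_q_ne _ hm)]

theorem integ_prm_of_not_dvd (f : PIdx K) {φ : Hall K A} (hφ : IsPrim φ) {m : ℕ}
    (hm : ¬ f.deg ∣ m) : integ m (fun C => φ C * prm A f C) = 0 := by
  have hm1 : 1 ≤ m := by
    rcases Nat.eq_zero_or_pos m with h | h
    · exact absurd (h ▸ dvd_zero _) hm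
    · exact h
  have h1 := pi_key (A := A) f hφ hm1
  rw [pi_integ_of_zero (F := fun C => pi_nf A f C * φ C)] at h1
  · rw [← inv_smul_smul₀ (pi_q_ne (K := K) m hm1) (integ m fun C => φ C * prm A f C), h1,
      smul_zero]
  · intro C hC
    rw [pi_nf_eq_zero f C, zero_mul]
    intro t ht
    rw [ht, PIdx.cl_cyc] at hC
    exact hm ⟨t, by rw [← hC, mul_comm]⟩

/-! ### The inner product of two primitive functions -/

/-- the primitive function supported on the `f`-primary classes -/
lemma pi_exists_kappa (f : PIdx K) : ∃ κ : Hall K A, IsPrim κ ∧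
    (∀ r, 1 ≤ r → κ (f.cyc r) = (f.deg : A)) ∧
    (∀ (f' : PIdx K) (r : ℕ), f' ≠ f → κ (f'.cyc r) = 0) ∧
    ∀ (ψ : Hall K A), IsPrim ψ → ∀ m, 1 ≤ m →
      integ m (fun C => κ C * ψ C) = (m : ℚ) • integ m (fun C => ψ C * prm A f C) := by
  obtain ⟨G, hG0, hG⟩ := exists_inv (prm A f) (pi_prm_zero f)
  refine ⟨dg (prm A f) * G, isPrim_log (isGrp_prm f) hG, ?_, ?_, ?_⟩
  · intro r hr
    have h1 : evp f (prm A f) * evp f G = 1 := by rw [← map_mul, hG, map_one]
    have h2 : evp f (prm A f) = PowerSeries.mk 1 := by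
      ext n
      rw [coeff_evp, PowerSeries.coeff_mk, prm, if_pos ((isPrmy_cyc f f n).2 (Or.inr rfl)),
        Pi.one_apply]
    have h3 : evp f G = 1 - PowerSeries.X := by
      have h4 : evp f (prm A f) * (1 - PowerSeries.X) = 1 := by
        rw [h2]
        exact PowerSeries.mk_one_mul_one_sub_eq_one A
      calc evp f G = (evp f (prm A f) * (1 - PowerSeries.X)) * evp f G := by rw [h4, one_mul]
        _ = (evp f (prm A f) * evp f G) * (1 - PowerSeries.X) := by ring
        _ = 1 - PowerSeries.X := by rw [h1, one_mul]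
    rw [← coeff_evp f (dg (prm A f) * G) r, map_mul, h3, mul_sub, mul_one, map_sub]
    obtain ⟨n, rfl⟩ : ∃ n, r = n + 1 := ⟨r - 1, by omega⟩
    have h8 : ∀ t, prm A f (f.cyc t) = 1 := fun t => by
      rw [prm, if_pos ((isPrmy_cyc f f t).2 (Or.inr rfl))]
    rw [PowerSeries.coeff_succ_mul_X, coeff_evp, coeff_evp, dg_apply, dg_apply, h8, h8,
      ← sub_smul, f.cl_cyc, f.cl_cyc, Algebra.smul_def, mul_one]
    have : (((n + 1) * f.deg : ℕ) : ℚ) - ((n * f.deg : ℕ) : ℚ) = (f.deg : ℚ) := by
      push_cast; ring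
    rw [this, map_natCast]
  · intro f' r hf'
    have h2 : evp f' (dg (prm A f)) = 0 := by
      ext n
      rw [coeff_evp, dg_apply, map_zero]
      by_cases hn : n = 0
      · rw [hn, PIdx.cyc_zero, cl_zero, Nat.cast_zero, zero_smul]
      · rw [prm, if_neg, smul_zero]
        rw [isPrmy_cyc]
        push Not
        exact ⟨hn, hf'⟩
    rw [← coeff_evp f' (dg (prm A f) * G) r, map_mul, h2, zero_mul, map_zero]
  · intro ψ hψ m hm
    rw [integ_mul_prim hψ hm, hG0, one_mul, dg_apply, cl_zero, Nat.cast_zero, zero_smul, zero_mul,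
      zero_add, ← integ_smul]
    refine integ_congr fun C hC => ?_
    rw [dg_apply, hC, smul_mul_assoc, mul_comm]

/-- The inner product of two primitive functions. -/
theorem prim_inner {φ ψ : Hall K A} (hφ : IsPrim φ) (hψ : IsPrim ψ) {m : ℕ} (hm : 1 ≤ m) :
    integ m (fun C => φ C * ψ C) =
      ∑ s ∈ cycIdx K m, ((s.r : ℚ) / ((Nat.card K : ℚ) ^ m - 1)) • (φ (cyc s) * ψ (cyc s)) := by
  classical
  choose κ hκ hκ1 hκ2 hκ3 using fun f : PIdx K => pi_exists_kappa (A := A) f
  have hdeg : ∀ s : CycleIndex K, ((s.toP.deg : ℕ) : ℚ) ≠ 0 := fun s =>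
    Nat.cast_ne_zero.2 s.toP.deg_pos.ne'
  have h1 : dpart m φ = ∑ s ∈ cycIdx K m,
      (((s.toP.deg : ℚ)⁻¹) • φ (cyc s)) • dpart m (κ s.toP) := by
    refine (hφ.dpart m).ext (IsPrim.sum fun s _ => ((hκ s.toP).dpart m).smul _) ?_
    intro t
    rw [Hall.sum_apply]
    simp only [Hall.smul_apply]
    by_cases ht : cl (cyc t) = m
    · rw [dpart_of_eq ht, Finset.sum_eq_single t]
      · have h9 : κ t.toP (cyc t) = (t.toP.deg : A) := by
          rw [cyc_eq t]
          exact hκ1 _ _ t.pos
        rw [dpart_of_eq ht, h9, smul_eq_mul, smul_mul_assoc, mul_comm,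
          ← map_natCast (algebraMap ℚ A), ← Algebra.smul_def, inv_smul_smul₀ (hdeg t)]
      · intro s hs hne
        rw [dpart_of_eq ht]
        have h9 : κ s.toP (cyc t) = 0 := by
          rw [cyc_eq t]
          refine hκ2 _ _ _ ?_
          intro h
          apply hne
          rw [mem_cycIdx] at hs
          rw [cl_cyc] at ht
          have h3 : t.f = s.f := congrArg PIdx.f h
          have h4 : t.r = s.r := by
            rw [← h3, ← ht] at hs
            exact (Nat.eq_of_mul_eq_mul_right t.irred.natDegree_pos hs).symm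
          cases s; cases t
          simp only at h3 h4
          subst h3
          subst h4
          rfl
        rw [h9, smul_zero]
      · intro h
        rw [mem_cycIdx] at h
        rw [cl_cyc] at ht
        exact absurd ht h
    · rw [dpart_of_ne ht]
      symm
      refine Finset.sum_eq_zero fun s _ => ?_
      rw [dpart_of_ne ht, smul_zero]
  have h2 : integ m (fun C => φ C * ψ C) = ∑ s ∈ cycIdx K m,
      (((s.toP.deg : ℚ)⁻¹) • φ (cyc s)) * integ m (fun C => κ s.toP C * ψ C) := by
    have h3 : integ m (fun C => φ C * ψ C) = integ m (fun C => ∑ s ∈ cycIdx K m,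
        (((s.toP.deg : ℚ)⁻¹) • φ (cyc s)) * (κ s.toP C * ψ C)) := by
      refine integ_congr fun C hC => ?_
      rw [← dpart_of_eq (φ := φ) hC, h1, Hall.sum_apply, Finset.sum_mul]
      refine Finset.sum_congr rfl fun s _ => ?_
      rw [Hall.smul_apply, dpart_of_eq hC, smul_eq_mul, mul_assoc]
    rw [h3, integ_sum]
    exact Finset.sum_congr rfl fun s _ => integ_mul_left _ _ _
  rw [h2]
  refine Finset.sum_congr rfl fun s hs => ?_
  rw [mem_cycIdx] at hs
  rw [hκ3 s.toP ψ hψ m hm]
  have hs' : m = s.r * s.toP.deg := hs.symm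
  rw [hs', integ_prm s.toP hψ s.pos, ← cyc_eq, ← hs', smul_mul_assoc, mul_smul_comm,
    mul_smul_comm, smul_smul, smul_smul]
  congr 1
  have h5 := pi_q_ne (K := K) m hm
  have h6 := hdeg s
  rw [hs']
  rw [hs'] at h5
  push_cast
  field_simp

end Pool.Agent.Lib.MP_02a407_al
end

section

/-!
# Integration against a group-like function; the homomorphisms `ν` and `ε₁`
-/

namespace Pool.Agent.Lib.MP_02a407_al

open Module Polynomial

set_option linter.unusedSectionVars false

variable {K : Type} [Field K] [Finite K] {A : Type} [CommRing A] [Algebra ℚ A]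

lemma degCls_zero : degCls K 0 = {0} := by
  ext C
  rw [mem_degCls, Finset.mem_singleton, cl_eq_zero_iff]

lemma cz_zero : cz (0 : Cls K) = 1 := by
  have h0 : finrank K (cM ((0 : Cls K) : ConjClasses (GLInf K))) = 0 := by
    rw [finrank_cM', cl_zero]
  have h1 : Subsingleton (cM ((0 : Cls K) : ConjClasses (GLInf K))) := Module.finrank_zero_iff.1 h0
  rw [cz, cent]
  have h2 : Nonempty {u : cM ((0 : Cls K) : ConjClasses (GLInf K)) ≃ₗ[K]
      cM ((0 : Cls K) : ConjClasses (GLInf K)) // ∀ x,
        u (cA ((0 : Cls K) : ConjClasses (GLInf K)) x) =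
          cA ((0 : Cls K) : ConjClasses (GLInf K)) (u x)} :=
    ⟨⟨LinearEquiv.refl K _, fun x => rfl⟩⟩
  have h3 : Subsingleton {u : cM ((0 : Cls K) : ConjClasses (GLInf K)) ≃ₗ[K]
      cM ((0 : Cls K) : ConjClasses (GLInf K)) // ∀ x,
        u (cA ((0 : Cls K) : ConjClasses (GLInf K)) x) =
          cA ((0 : Cls K) : ConjClasses (GLInf K)) (u x)} :=
    ⟨fun a b => Subtype.ext (LinearEquiv.ext fun x => Subsingleton.elim _ _)⟩
  rw [Nat.card_eq_one_iff_unique.2 ⟨h3, h2⟩, Nat.cast_one]

lemma integ_zero (φ : Cls K → A) : integ 0 φ = φ 0 := by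
  rw [integ, degCls_zero, Finset.sum_singleton, cz_zero, inv_one, one_smul]

theorem gint_mul {χ : Hall K A} (h : IsGrp χ) (φ ψ : Hall K A) (m : ℕ) :
    integ m (fun C => (φ * ψ) C * χ C) = ∑ p ∈ Finset.HasAntidiagonal.antidiagonal m,
      integ p.1 (fun C => φ C * χ C) * integ p.2 (fun C => ψ C * χ C) := by
  rw [integ_hmul]
  refine Finset.sum_congr rfl (fun p _ => ?_)
  rw [← integ_mul_right]
  refine integ_congr (fun C _ => ?_)
  rw [← integ_mul_left]
  refine integ_congr (fun D _ => ?_)
  rw [h.2]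
  ring

/-- Integration against a group-like function is a ring homomorphism. -/
noncomputable def gint {χ : Hall K A} (h : IsGrp χ) : Hall K A →+* PowerSeries A where
  toFun φ := PowerSeries.mk fun m => integ m (fun C => φ C * χ C)
  map_zero' := by
    ext m
    simp [integ]
  map_one' := by
    ext m
    rw [PowerSeries.coeff_mk, PowerSeries.coeff_one]
    split_ifs with hm
    · rw [hm, integ_zero, Hall.one_zero, h.1, mul_one]
    · rw [integ]
      refine Finset.sum_eq_zero (fun C hC => ?_)
      rw [mem_degCls] at hC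
      have : C ≠ 0 := by
        rintro rfl
        rw [cl_zero] at hC
        exact hm hC.symm
      rw [Hall.one_of_ne this, zero_mul, smul_zero]
  map_add' φ ψ := by
    ext m
    simp only [PowerSeries.coeff_mk, map_add, Hall.add_apply, add_mul, integ_add]
  map_mul' φ ψ := by
    ext m
    rw [PowerSeries.coeff_mk, gint_mul h, PowerSeries.coeff_mul]
    simp only [PowerSeries.coeff_mk]

lemma coeff_gint {χ : Hall K A} (h : IsGrp χ) (φ : Hall K A) (m : ℕ) :
    PowerSeries.coeff m (gint h φ) = integ m (fun C => φ C * χ C) := by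
  change PowerSeries.coeff m (PowerSeries.mk fun m => integ m (fun C => φ C * χ C)) = _
  rw [PowerSeries.coeff_mk]

/-- The polynomial `X - 1`. -/
noncomputable def oneP (K : Type) [Field K] : PIdx K where
  f := X - 1
  monic := by
    have := monic_X_sub_C (1 : K)
    rwa [map_one] at this
  irred := by
    have := irreducible_X_sub_C (1 : K)
    rwa [map_one] at this
  ne_X := by
    intro h
    have h2 : (X : K[X]) - (X - 1) = X - X := by rw [h]
    simp at h2

lemma oneP_deg : (oneP K).deg = 1 := by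
  have := natDegree_X_sub_C (1 : K)
  rw [map_one] at this
  exact this

/-- The class of the identity of a space of dimension `m`. -/
noncomputable def idc (K : Type) [Field K] (m : ℕ) : Cls K := cls (LinearEquiv.refl K (Fin m → K))

lemma cl_idc (m : ℕ) : cl (idc K m) = m := by
  rw [idc, cl_cls, Module.finrank_fin_fun]

open Classical in
/-- The group-like function `q ^ (m (m - 1) / 2)` at the identity of degree `m`. -/
noncomputable def del1 (K A : Type) [Field K] [Finite K] [CommRing A] : Hall K A :=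
  fun C => if C = idc K (cl C) then (Nat.card K : A) ^ ((cl C).choose 2) else 0

section aux

variable {M : Type} [AddCommGroup M] [Module K M] [FiniteDimensional K M]
  {N : Type} [AddCommGroup N] [Module K N] [FiniteDimensional K N]

lemma cls_eq_idc_iff (g : M ≃ₗ[K] M) : cls g = idc K (cl (cls g)) ↔ ∀ x, g x = x := by
  rw [cl_cls, idc]
  constructor
  · intro h x
    obtain ⟨e, he⟩ := cls_iso h
    exact e.injective (he x)
  · intro h
    have hd : finrank K M = finrank K (Fin (finrank K M) → K) := by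
      rw [Module.finrank_fin_fun]
    exact cls_congr (LinearEquiv.ofFinrankEq _ _ hd) (fun x => by rw [h x]; rfl)

lemma del1_cls_of (g : M ≃ₗ[K] M) (h : ∀ x, g x = x) :
    del1 K A (cls g) = (Nat.card K : A) ^ ((finrank K M).choose 2) := by
  unfold del1
  rw [if_pos ((cls_eq_idc_iff g).2 h), cl_cls]

lemma del1_cls_of_not (g : M ≃ₗ[K] M) (h : ¬ ∀ x, g x = x) :
    del1 K A (cls g) = 0 := by
  unfold del1
  rw [if_neg (fun h' => h ((cls_eq_idc_iff g).1 h'))]

lemma del1_zero : del1 K A 0 = 1 := by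
  have h0 : (0 : Cls K) = cls (LinearEquiv.refl K PUnit.{1}) := (cls_subsingleton _).symm
  rw [h0, del1_cls_of _ (fun x => rfl), finrank_zero_of_subsingleton]
  simp

lemma utAut_id_iff (g : M ≃ₗ[K] M) (h : N ≃ₗ[K] N) (X : N →ₗ[K] M) :
    (∀ p, utAut g h X p = p) ↔ (∀ x, g x = x) ∧ (∀ y, h y = y) ∧ X = 0 := by
  constructor
  · intro H
    refine ⟨fun x => ?_, fun y => ?_, ?_⟩
    · have := congrArg Prod.fst (H (x, 0))
      simpa using this
    · have := congrArg Prod.snd (H (0, y))
      simpa using this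
    · ext y
      have := congrArg Prod.fst (H (0, y))
      simpa using this
  · rintro ⟨h1, h2, rfl⟩ p
    rw [utAut_apply, h1, h2]
    simp

lemma choose_add_two (a b : ℕ) : (a + b).choose 2 = a.choose 2 + b.choose 2 + a * b := by
  induction b with
  | zero => simp
  | succ b ih =>
    have e1 : (a + (b + 1)).choose 2 = (a + b) + (a + b).choose 2 := by
      rw [← add_assoc, Nat.choose_succ_succ' (a + b) 1, Nat.choose_one_right]
    have e2 : (b + 1).choose 2 = b + b.choose 2 := by
      rw [Nat.choose_succ_succ' b 1, Nat.choose_one_right]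
    rw [e1, e2, ih]
    ring

end aux

theorem isGrp_del1 : IsGrp (del1 K A) := by
  classical
  refine ⟨del1_zero, fun C D => ?_⟩
  obtain ⟨M, _, _, _, g, rfl⟩ : ∃ (M : Type) (_ : AddCommGroup M) (_ : Module K M)
      (_ : FiniteDimensional K M) (g : M ≃ₗ[K] M), cls g = C :=
    ⟨_, _, _, inferInstance, cA (C : ConjClasses (GLInf K)), cls_cA C⟩
  obtain ⟨N, _, _, _, h, rfl⟩ : ∃ (M : Type) (_ : AddCommGroup M) (_ : Module K M)
      (_ : FiniteDimensional K M) (g : M ≃ₗ[K] M), cls g = D :=
    ⟨_, _, _, inferInstance, cA (D : ConjClasses (GLInf K)), cls_cA D⟩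
  rw [res_cls]
  by_cases hg : ∀ x, g x = x
  · by_cases hh : ∀ y, h y = y
    · rw [Fintype.sum_eq_single (0 : N →ₗ[K] M), del1_cls_of _ ((utAut_id_iff g h 0).2 ⟨hg, hh, rfl⟩),
        del1_cls_of g hg, del1_cls_of h hh, finrank_prod, choose_add_two, pow_add, pow_add]
      · have hq : (Nat.card K : ℚ) ≠ 0 := by
          have : 0 < Nat.card K := Nat.card_pos
          exact_mod_cast this.ne'
        have e1 : (Nat.card K : A) ^ (finrank K M * finrank K N) =
            algebraMap ℚ A ((Nat.card K : ℚ) ^ (finrank K M * finrank K N)) := by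
          rw [map_pow, map_natCast]
        rw [e1, mul_comm _ (algebraMap ℚ A _), ← Algebra.smul_def, smul_smul,
          inv_mul_cancel₀ (pow_ne_zero _ hq), one_smul]
      · intro X hX
        exact del1_cls_of_not _ (fun H => hX ((utAut_id_iff g h X).1 H).2.2)
    · rw [Finset.sum_eq_zero, smul_zero, del1_cls_of_not h hh, mul_zero]
      intro X _
      exact del1_cls_of_not _ (fun H => hh ((utAut_id_iff g h X).1 H).2.1)
  · rw [Finset.sum_eq_zero, smul_zero, del1_cls_of_not g hg, zero_mul]
    intro X _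
    exact del1_cls_of_not _ (fun H => hg ((utAut_id_iff g h X).1 H).1)

/-- Twist by `(-1) ^ degree`. -/
noncomputable def sgn (φ : Hall K A) : Hall K A := fun C => (-1) ^ (cl C) * φ C

lemma sgn_sgn (φ : Hall K A) : sgn (sgn φ) = φ := by
  ext C
  unfold sgn
  rw [← mul_assoc, ← mul_pow, neg_mul_neg, one_mul, one_pow, one_mul]

lemma sgn_one : sgn (1 : Hall K A) = 1 := by
  ext C
  unfold sgn
  by_cases hC : C = 0
  · rw [hC, cl_zero, pow_zero, one_mul]
  · rw [Hall.one_of_ne hC, mul_zero]

lemma sgn_mul (φ ψ : Hall K A) : sgn (φ * ψ) = sgn φ * sgn ψ := by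
  ext C
  rw [Hall.mul_apply, ssum]
  unfold sgn
  rw [Hall.mul_apply, ssum, Finset.mul_sum]
  refine Finset.sum_congr rfl fun W _ => ?_
  rw [← W.xp_cl_add, pow_add]
  ring

lemma one_unip {M : Type} [AddCommGroup M] [Module K M] [FiniteDimensional K M]
    (g : M ≃ₗ[K] M) (h : ∀ x, g x = x) : IsPrmy (oneP K) (cls g) := by
  rw [isPrmy_cls, nil_iff]
  refine ⟨1, fun x => ?_⟩
  have e1 : ((g : M →ₗ[K] M) : Module.End K M) = 1 := LinearMap.ext h
  rw [e1, pow_one]
  change aeval (1 : Module.End K M) (X - 1 : K[X]) x = 0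
  rw [map_sub, aeval_X, map_one, sub_self, LinearMap.zero_apply]

/-- the fixed space -/
private def fixS {M : Type} [AddCommGroup M] [Module K M] (g : M ≃ₗ[K] M) : Submodule K M :=
  LinearMap.ker ((g : M →ₗ[K] M) - LinearMap.id)

private lemma mem_fixS {M : Type} [AddCommGroup M] [Module K M] (g : M ≃ₗ[K] M) (x : M) :
    x ∈ fixS g ↔ g x = x := by
  unfold fixS
  rw [LinearMap.mem_ker, LinearMap.sub_apply, sub_eq_zero]
  rfl

private lemma fixS_nontrivial {M : Type} [AddCommGroup M] [Module K M] [FiniteDimensional K M]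
    [Nontrivial M] (g : M ≃ₗ[K] M) (h : IsPrmy (oneP K) (cls g)) : Nontrivial (fixS g) := by
  rw [isPrmy_cls] at h
  have e1 : aeval ((g : M →ₗ[K] M) : Module.End K M) (oneP K).f =
      ((g : M →ₗ[K] M) - LinearMap.id : M →ₗ[K] M) := by
    change aeval ((g : M →ₗ[K] M) : Module.End K M) (X - 1 : K[X]) = _
    rw [map_sub, aeval_X, map_one]
    rfl
  rw [e1] at h
  by_contra hc
  rw [not_nontrivial_iff_subsingleton] at hc
  have hinj : Function.Injective ((g : M →ₗ[K] M) - LinearMap.id : M →ₗ[K] M) := by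
    rw [← LinearMap.ker_eq_bot]
    exact (Submodule.eq_bot_iff _).2 fun x hx =>
      congrArg Subtype.val (Subsingleton.elim (⟨x, hx⟩ : fixS g) 0)
  obtain ⟨n, hn⟩ := h
  obtain ⟨x, hx⟩ := exists_ne (0 : M)
  apply hx
  have hinj' : ∀ k : ℕ, Function.Injective
      ((((g : M →ₗ[K] M) - LinearMap.id : M →ₗ[K] M) : Module.End K M) ^ k) := by
    intro k
    induction k with
    | zero => intro a b hab; simpa using hab
    | succ k ih =>
      intro a b hab
      rw [pow_succ, Module.End.mul_apply, Module.End.mul_apply] at hab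
      exact hinj (ih hab)
  apply hinj' n
  rw [map_zero, hn, LinearMap.zero_apply]

open Classical in
theorem del1_mul_prm : del1 K A * sgn (prm A (oneP K)) = 1 := by
  ext C
  obtain ⟨M, _, _, _, g, rfl⟩ : ∃ (M : Type) (_ : AddCommGroup M) (_ : Module K M)
      (_ : FiniteDimensional K M) (g : M ≃ₗ[K] M), cls g = C :=
    ⟨_, _, _, inferInstance, cA (C : ConjClasses (GLInf K)), cls_cA C⟩
  by_cases hM : Subsingleton M
  · rw [(cls_eq_zero_iff g).2 hM, mul_zero_apply, del1_zero, Hall.one_zero, one_mul]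
    unfold sgn prm
    rw [cl_zero, pow_zero, one_mul, if_pos (isPrmy_zero _)]
  have hne : cls g ≠ 0 := fun h => hM ((cls_eq_zero_iff g).1 h)
  rw [not_subsingleton_iff_nontrivial] at hM
  rw [Hall.one_of_ne hne, Hall.mul_cls]
  by_cases hu : IsPrmy (oneP K) (cls g)
  · have hN := fixS_nontrivial g hu
    have key : ∀ W : Stab g, del1 K A (cls W.sub) * sgn (prm A (oneP K)) (cls W.quo) =
        if W.space ≤ fixS g then (-1) ^ (finrank K M) * ((mob K (finrank K W.space) : ℤ) : A)
        else 0 := by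
      intro W
      by_cases hW : W.space ≤ fixS g
      · have h1 : ∀ x, W.sub x = x := fun x =>
          Subtype.ext ((mem_fixS g x.1).1 (hW x.2))
        rw [if_pos hW, del1_cls_of W.sub h1]
        unfold sgn prm
        rw [if_pos ((isPrmy_stab (oneP K) g W).1 hu).2, mul_one, cl_cls]
        have h2 := Submodule.finrank_quotient_add_finrank W.space
        rw [← h2, pow_add]
        unfold mob
        push_cast
        have h3 : ((-1 : A)) ^ finrank K W.space * (-1) ^ finrank K W.space = 1 := by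
          rw [← mul_pow, neg_mul_neg, one_mul, one_pow]
        calc (Nat.card K : A) ^ ((finrank K W.space).choose 2) *
              (-1) ^ finrank K (M ⧸ W.space) =
              ((-1 : A) ^ finrank K W.space * (-1) ^ finrank K W.space) *
              ((Nat.card K : A) ^ ((finrank K W.space).choose 2) *
              (-1) ^ finrank K (M ⧸ W.space)) := by rw [h3, one_mul]
          _ = _ := by ring
      · have h1 : ¬ ∀ x, W.sub x = x := by
          intro h
          apply hW
          intro x hx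
          rw [mem_fixS]
          exact congrArg Subtype.val (h ⟨x, hx⟩)
        rw [if_neg hW, del1_cls_of_not W.sub h1, zero_mul]
    rw [Finset.sum_congr rfl fun W _ => key W, ← Finset.sum_filter, ← Finset.mul_sum]
    have h0 : ∑ W ∈ Finset.univ.filter (fun W : Stab g => W.space ≤ fixS g),
        ((mob K (finrank K W.space) : ℤ) : A) =
        ((∑ W' : Submodule K (fixS g), mob K (finrank K W') : ℤ) : A) := by
      rw [Int.cast_sum]
      refine Finset.sum_bij' (fun W _ => W.space.comap (fixS g).subtype)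
        (fun W' _ => (⟨W'.map (fixS g).subtype, ?_⟩ : Stab g)) ?_ ?_ ?_ ?_ ?_
      · intro x
        constructor
        · rintro ⟨y, hy, hyx⟩
          have h1 : g (y : M) = y := (mem_fixS g y.1).1 y.2
          have h2 : x = y := g.injective (hyx.symm.trans h1.symm)
          rw [h2]
          exact ⟨y, hy, rfl⟩
        · rintro ⟨y, hy, rfl⟩
          have h1 : g (y : M) = y := (mem_fixS g y.1).1 y.2
          exact ⟨y, hy, h1.symm⟩
      · intro W hW
        exact Finset.mem_univ _
      · intro W' _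
        rw [Finset.mem_filter]
        exact ⟨Finset.mem_univ _, Submodule.map_subtype_le _ _⟩
      · intro W hW
        rw [Finset.mem_filter] at hW
        apply Stab.ext
        change Submodule.map (fixS g).subtype (Submodule.comap (fixS g).subtype W.space) = W.space
        rw [Submodule.map_comap_subtype, inf_eq_right.2 hW.2]
      · intro W' _
        change Submodule.comap (fixS g).subtype (Submodule.map (fixS g).subtype W') = W'
        exact Submodule.comap_map_eq_of_injective (fixS g).injective_subtype _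
      · intro W hW
        rw [Finset.mem_filter] at hW
        congr 2
        exact (LinearEquiv.finrank_eq (Submodule.comapSubtypeEquivOfLe hW.2)).symm
    rw [h0, sum_mob_finrank, Int.cast_zero, mul_zero]
  · apply Finset.sum_eq_zero
    intro W _
    by_cases h1 : ∀ x, W.sub x = x
    · have h2 : ¬ IsPrmy (oneP K) (cls W.quo) := fun h =>
        hu ((isPrmy_stab (oneP K) g W).2 ⟨one_unip _ h1, h⟩)
      unfold sgn prm
      rw [if_neg h2, mul_zero, mul_zero]
    · rw [del1_cls_of_not W.sub h1, zero_mul]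

/-- The integral over the unipotent elements. -/
noncomputable def nu (K A : Type) [Field K] [Finite K] [CommRing A] [Algebra ℚ A] :
    Hall K A →+* PowerSeries A := gint (isGrp_prm (K := K) (A := A) (oneP K))

/-- The normalized value at the identity. -/
noncomputable def ep (K A : Type) [Field K] [Finite K] [CommRing A] [Algebra ℚ A] :
    Hall K A →+* PowerSeries A := gint (isGrp_del1 (K := K) (A := A))

lemma coeff_nu (φ : Hall K A) (m : ℕ) :
    PowerSeries.coeff m (nu K A φ) = integ m (fun C => φ C * prm A (oneP K) C) :=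
  coeff_gint _ _ _

lemma coeff_ep (φ : Hall K A) (m : ℕ) :
    PowerSeries.coeff m (ep K A φ) = integ m (fun C => φ C * del1 K A C) :=
  coeff_gint _ _ _

/-- `ε₁` and `ν` of a primitive function. -/
theorem coeff_ep_prim {φ : Hall K A} (hφ : IsPrim φ) {m : ℕ} (hm : 1 ≤ m) :
    PowerSeries.coeff m (ep K A φ) = (-1) ^ (m + 1) * PowerSeries.coeff m (nu K A φ) := by
  have h1 : sgn (del1 K A) * prm A (oneP K) = 1 := by
    have h2 := congrArg sgn (del1_mul_prm (K := K) (A := A))
    rwa [sgn_mul, sgn_sgn, sgn_one] at h2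
  have h3 := integ_mul_prim (α := sgn (del1 K A)) (β := prm A (oneP K)) hφ hm
  have h4 : integ m (fun C => (sgn (del1 K A) * prm A (oneP K)) C * φ C) = 0 := by
    rw [h1, integ]
    refine Finset.sum_eq_zero (fun C hC => ?_)
    rw [mem_degCls] at hC
    have : C ≠ 0 := by
      rintro rfl
      rw [cl_zero] at hC
      omega
    rw [Hall.one_of_ne this, zero_mul, smul_zero]
  have h5 : sgn (del1 K A) 0 = 1 := by
    unfold sgn
    rw [cl_zero, pow_zero, one_mul, del1_zero]
  have h6 : prm A (oneP K) 0 = 1 := (isGrp_prm (K := K) (A := A) (oneP K)).1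
  have h7 : integ m (fun C => prm A (oneP K) C * φ C) = PowerSeries.coeff m (nu K A φ) := by
    rw [coeff_nu]
    exact integ_congr (fun C _ => mul_comm _ _)
  have h8 : integ m (fun C => sgn (del1 K A) C * φ C) =
      (-1) ^ m * PowerSeries.coeff m (ep K A φ) := by
    rw [coeff_ep, ← integ_mul_left]
    refine integ_congr (fun C hC => ?_)
    unfold sgn
    rw [hC]
    ring
  rw [h4, h5, h6, h7, h8, one_mul, one_mul] at h3
  have h9 : (-1 : A) ^ m * ((-1) ^ m * PowerSeries.coeff m (ep K A φ)) =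
      PowerSeries.coeff m (ep K A φ) := by
    rw [← mul_assoc, ← mul_pow, neg_mul_neg, one_mul, one_pow, one_mul]
  rw [← h9, eq_neg_of_add_eq_zero_right h3.symm, pow_succ]
  ring

theorem coeff_nu_prim {φ : Hall K A} (hφ : IsPrim φ) {m : ℕ} (hm : 1 ≤ m) :
    PowerSeries.coeff m (nu K A φ) = ((Nat.card K : ℚ) ^ m - 1)⁻¹ • φ ((oneP K).cyc m) := by
  rw [coeff_nu]
  have := integ_prm (oneP K) hφ hm
  rwa [oneP_deg, mul_one] at this

/-- `ε₁` as a value. -/
theorem coeff_ep_eq (φ : Hall K A) {V : Type} [AddCommGroup V] [Module K V]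
    [FiniteDimensional K V] :
    PowerSeries.coeff (finrank K V) (ep K A φ) =
      ((Nat.card K : ℚ) ^ ((finrank K V).choose 2) / (Nat.card (V ≃ₗ[K] V) : ℚ)) •
        φ (cls (1 : V ≃ₗ[K] V)) := by
  rw [coeff_ep, integ_eq, Fintype.sum_eq_single (1 : V ≃ₗ[K] V), del1_cls_of _ (fun x => rfl)]
  · have e1 : (Nat.card K : A) ^ ((finrank K V).choose 2) =
        algebraMap ℚ A ((Nat.card K : ℚ) ^ ((finrank K V).choose 2)) := by
      rw [map_pow, map_natCast]
    rw [e1, mul_comm _ (algebraMap ℚ A _), ← Algebra.smul_def, smul_smul]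
    congr 1
    rw [div_eq_mul_inv, mul_comm]
  · intro g hg
    rw [del1_cls_of_not g (fun h => hg (LinearEquiv.ext h)), mul_zero]

end Pool.Agent.Lib.MP_02a407_al
end
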