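import Pool.Agent.Lib.MP_02a407_al.Q2.FGLat
import Pool.Agent.Lib.MP_02a407_al.Q2.Integ

section

/-!
# Unipotent completions of partial maps, part A
-/

namespace Pool.Agent.Lib.MP_02a407_al

open Module

variable {K : Type} [Field K]

/-- `u` is unipotent. -/
def IsUnip {V : Type} [AddCommGroup V] [Module K V] (u : V ≃ₗ[K] V) : Prop :=
  IsNilpotent ((u : V →ₗ[K] V) - LinearMap.id : Module.End K V)

/-- The automorphisms which are the identity on `W` and on `V / W`. -/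
def UW {V : Type} [AddCommGroup V] [Module K V] (W : Submodule K V) : Set (V ≃ₗ[K] V) :=
  {v | (∀ x ∈ W, v x = x) ∧ ∀ x, v x - x ∈ W}

/-- The number of the unipotent `u` in `u₀ U_W` with `(u - 1) V ⊆ H`. -/
noncomputable def phiU {V : Type} [AddCommGroup V] [Module K V] (W : Submodule K V)
    (u₀ : V ≃ₗ[K] V) (H : Submodule K V) : ℕ :=
  Nat.card {v : V ≃ₗ[K] V // v ∈ UW W ∧ IsUnip (u₀ * v) ∧ ∀ x, (u₀ * v) x - x ∈ H}

/-! ### Elementary facts -/

section Elem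

variable {V : Type} [AddCommGroup V] [Module K V]

/-- the endomorphism `u - 1` -/
def uSub (u : V ≃ₗ[K] V) : Module.End K V := (u : V →ₗ[K] V) - LinearMap.id

@[simp] lemma uSub_apply (u : V ≃ₗ[K] V) (x : V) : uSub u x = u x - x := rfl

lemma isUnip_iff (u : V ≃ₗ[K] V) : IsUnip u ↔ IsNilpotent (uSub u) := Iff.rfl

lemma uSub_pow_mem {G : Submodule K V} {f : Module.End K V} (h : ∀ x, f x ∈ G) (n : ℕ)
    {x : V} (hx : x ∈ G) : (f ^ n) x ∈ G := by
  induction n with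
  | zero => simpa using hx
  | succ n ih => rw [pow_succ', Module.End.mul_apply]; exact h _

lemma pow_eq_of_eqOn {G : Submodule K V} {f f' : Module.End K V} (h' : ∀ x, f' x ∈ G)
    (heq : ∀ x ∈ G, f x = f' x) (n : ℕ) {x : V} (hx : x ∈ G) : (f ^ n) x = (f' ^ n) x := by
  induction n with
  | zero => rfl
  | succ n ih =>
    rw [pow_succ', pow_succ', Module.End.mul_apply, Module.End.mul_apply, ih]
    exact heq _ (uSub_pow_mem h' n hx)

lemma isNilpotent_of_eqOn {G : Submodule K V} {f f' : Module.End K V}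
    (h' : ∀ x, f' x ∈ G) (heq : ∀ x ∈ G, f x = f' x) (hf : IsNilpotent f) :
    IsNilpotent f' := by
  obtain ⟨n, hn⟩ := hf
  refine ⟨n + 1, ?_⟩
  ext x
  rw [pow_succ, Module.End.mul_apply, ← pow_eq_of_eqOn h' heq n (h' x), hn]
  rfl

lemma isUnip_of_eqOn {G : Submodule K V} {u u' : V ≃ₗ[K] V}
    (h' : ∀ x, u' x - x ∈ G) (heq : ∀ x ∈ G, u x = u' x) (hu : IsUnip u) : IsUnip u' :=
  isNilpotent_of_eqOn (f := uSub u) (f' := uSub u') h'
    (fun x hx => by rw [uSub_apply, uSub_apply, heq x hx]) hu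

/-- restriction of an automorphism which is trivial modulo `G` -/
def rG (G : Submodule K V) (u : V ≃ₗ[K] V) (h : ∀ x, u x - x ∈ G) : G ≃ₗ[K] G where
  toFun x := ⟨u x, by
    have := G.add_mem (h x) x.2
    rwa [sub_add_cancel] at this⟩
  map_add' x y := Subtype.ext (map_add u _ _)
  map_smul' c x := Subtype.ext (map_smul u _ _)
  invFun x := ⟨u.symm x, by
    have h1 := h (u.symm x)
    rw [u.apply_symm_apply] at h1
    have := G.sub_mem x.2 h1
    rwa [sub_sub_cancel] at this⟩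
  left_inv x := Subtype.ext (u.symm_apply_apply _)
  right_inv x := Subtype.ext (u.apply_symm_apply _)

@[simp] lemma coe_rG (G : Submodule K V) (u : V ≃ₗ[K] V) (h : ∀ x, u x - x ∈ G) (x : G) :
    ((rG G u h x : G) : V) = u x := rfl

lemma coe_uSub_rG_pow (G : Submodule K V) (u : V ≃ₗ[K] V) (h : ∀ x, u x - x ∈ G) (n : ℕ)
    (x : G) : (((uSub (rG G u h)) ^ n) x : V) = ((uSub u) ^ n) (x : V) := by
  induction n with
  | zero => rfl
  | succ n ih =>
    rw [pow_succ', pow_succ', Module.End.mul_apply, Module.End.mul_apply, ← ih]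
    rfl

lemma isUnip_rG_iff (G : Submodule K V) (u : V ≃ₗ[K] V) (h : ∀ x, u x - x ∈ G) :
    IsUnip (rG G u h) ↔ IsUnip u := by
  constructor
  · rintro ⟨n, hn⟩
    refine ⟨n + 1, ?_⟩
    ext x
    rw [pow_succ, Module.End.mul_apply]
    have h1 := coe_uSub_rG_pow G u h n ⟨u x - x, h x⟩
    have h2 : ((uSub (rG G u h)) ^ n) ⟨u x - x, h x⟩ = 0 := by
      change ((rG G u h : G →ₗ[K] G) - LinearMap.id) ^ n = 0 at hn
      exact LinearMap.congr_fun hn _
    rw [h2] at h1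
    exact h1.symm
  · rintro ⟨n, hn⟩
    refine ⟨n, ?_⟩
    ext x
    have h1 := coe_uSub_rG_pow G u h n x
    have h2 : ((uSub u) ^ n) (x : V) = 0 := LinearMap.congr_fun hn _
    rw [h2] at h1
    exact h1

/-- the automorphism `1 + η`, `η ^ 2 = 0` -/
def oneAdd (η : V →ₗ[K] V) (h : ∀ x, η (η x) = 0) : V ≃ₗ[K] V where
  toFun x := x + η x
  map_add' x y := by rw [map_add]; abel
  map_smul' c x := by rw [map_smul, RingHom.id_apply, smul_add]
  invFun x := x - η x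
  left_inv x := by
    simp only
    rw [map_add, h]; abel
  right_inv x := by
    simp only
    rw [map_sub, h]; abel

@[simp] lemma oneAdd_apply (η : V →ₗ[K] V) (h : ∀ x, η (η x) = 0) (x : V) :
    oneAdd η h x = x + η x := rfl

lemma UW_mul {W : Submodule K V} {u v : V ≃ₗ[K] V} (hu : u ∈ UW W) (hv : v ∈ UW W) :
    u * v ∈ UW W := by
  refine ⟨fun x hx => ?_, fun x => ?_⟩
  · rw [LinearEquiv.mul_apply, hv.1 x hx, hu.1 x hx]
  · rw [LinearEquiv.mul_apply]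
    have := W.add_mem (hu.2 (v x)) (hv.2 x)
    rwa [sub_add_sub_cancel] at this

lemma UW_inv {W : Submodule K V} {u : V ≃ₗ[K] V} (hu : u ∈ UW W) : u⁻¹ ∈ UW W := by
  have h1 : ∀ x, u (u⁻¹ x) = x := fun x => u.apply_symm_apply x
  refine ⟨fun x hx => ?_, fun x => ?_⟩
  · apply u.injective
    rw [h1, hu.1 x hx]
  · have h2 := hu.2 (u⁻¹ x)
    rw [h1] at h2
    have := W.neg_mem h2
    rwa [neg_sub] at this

lemma oneAdd_mem_UW {W : Submodule K V} (η : V →ₗ[K] V) (h : ∀ x, η (η x) = 0)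
    (h1 : ∀ x ∈ W, η x = 0) (h2 : ∀ x, η x ∈ W) : oneAdd η h ∈ UW W := by
  refine ⟨fun x hx => ?_, fun x => ?_⟩
  · rw [oneAdd_apply, h1 x hx, add_zero]
  · rw [oneAdd_apply, add_sub_cancel_left]; exact h2 x

end Elem

variable [Finite K]

lemma finite_equivs {V : Type} [AddCommGroup V] [Module K V] [FiniteDimensional K V] :
    Finite (V ≃ₗ[K] V) := by
  have : Finite V := Module.finite_of_finite K
  exact Finite.of_injective (fun u : V ≃ₗ[K] V => (u : V → V)) DFunLike.coe_injective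

open Classical in
/-- The generic recursion. -/
lemma card_eq_neg_sum {X : Type} [AddCommGroup X] [Module K X] [FiniteDimensional K X]
    {S : Type} [Finite S] (J : S → Submodule K X) (hJ : ∀ s, J s ≠ ⊤) :
    (Nat.card S : ℤ) = -∑ H ∈ Finset.univ.filter (fun H : Submodule K X => H ≠ ⊤),
      mob K (finrank K (X ⧸ H)) * (Nat.card {s : S // J s ≤ H} : ℤ) := by
  have := Fintype.ofFinite S
  have hs : ∀ s : S, (1 : ℤ) = -∑ H ∈ Finset.univ.filter (fun H : Submodule K X => H ≠ ⊤),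
      (if J s ≤ H then mob K (finrank K (X ⧸ H)) else 0) := by
    intro s
    have h1 := sum_mob_codim_ge (K := K) (J s) (hJ s)
    rw [Finset.sum_filter] at h1
    rw [← Finset.sum_filter_add_sum_filter_not Finset.univ
      (fun H : Submodule K X => H ≠ ⊤)] at h1
    have h2 : ∑ H ∈ Finset.univ.filter (fun H : Submodule K X => ¬ H ≠ ⊤),
        (if J s ≤ H then mob K (finrank K (X ⧸ H)) else 0) = 1 := by
      have h3 : Finset.univ.filter (fun H : Submodule K X => ¬ H ≠ ⊤) = {⊤} := by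
        ext H
        simp
      rw [h3, Finset.sum_singleton, if_pos le_top]
      have h4 : finrank K (X ⧸ (⊤ : Submodule K X)) = 0 := by
        have : Subsingleton (X ⧸ (⊤ : Submodule K X)) := Submodule.Quotient.subsingleton_iff.2 rfl
        exact finrank_zero_of_subsingleton
      rw [h4, mob]
      simp
    rw [h2] at h1
    linarith
  have h5 : (Nat.card S : ℤ) = ∑ s : S, (1 : ℤ) := by
    rw [Nat.card_eq_fintype_card]
    simp
  rw [h5, Finset.sum_congr rfl (fun s _ => hs s), Finset.sum_neg_distrib, Finset.sum_comm]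
  congr 1
  refine Finset.sum_congr rfl (fun H _ => ?_)
  rw [← Finset.sum_filter, Finset.sum_const, nsmul_eq_mul, mul_comm]
  congr 1
  rw [Nat.card_eq_fintype_card, Fintype.card_subtype]

omit [Finite K] in
/-- a unipotent automorphism of a nonzero space moves it into a proper subspace -/
lemma range_ne_top {V : Type} [AddCommGroup V] [Module K V] [Nontrivial V] {f : Module.End K V}
    (hf : IsNilpotent f) : LinearMap.range f ≠ ⊤ := by
  intro h
  have h1 : Function.Surjective f := LinearMap.range_eq_top.1 h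
  obtain ⟨n, hn⟩ := hf
  have h2 : Function.Surjective (f ^ n) := by
    clear hn
    induction n with
    | zero => exact fun x => ⟨x, rfl⟩
    | succ n ih =>
      rw [pow_succ']
      intro x
      obtain ⟨y, rfl⟩ := h1 x
      obtain ⟨z, rfl⟩ := ih y
      exact ⟨z, rfl⟩
  rw [hn] at h2
  obtain ⟨x, hx⟩ := exists_ne (0 : V)
  obtain ⟨y, hy⟩ := h2 x
  exact hx hy.symm

open Classical in
/-- One step of the recursion for the number of unipotent elements. -/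
theorem phiU_top_eq {V : Type} [AddCommGroup V] [Module K V] [FiniteDimensional K V]
    [Nontrivial V] (W : Submodule K V) (u₀ : V ≃ₗ[K] V) :
    (phiU W u₀ ⊤ : ℤ) = -∑ H ∈ Finset.univ.filter (fun H : Submodule K V => H ≠ ⊤),
      mob K (finrank K (V ⧸ H)) * phiU W u₀ H := by
  have := finite_equivs (K := K) (V := V)
  rw [phiU, card_eq_neg_sum (fun s => LinearMap.range (uSub (u₀ * s.1)))
    (fun s => range_ne_top s.2.2.1)]
  congr 1
  refine Finset.sum_congr rfl (fun H _ => ?_)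
  congr 2
  rw [phiU]
  refine Nat.card_congr
    { toFun := fun s => ⟨s.1.1, s.1.2.1, s.1.2.2.1, fun x => s.2 ⟨x, rfl⟩⟩
      invFun := fun v => ⟨⟨v.1, v.2.1, v.2.2.1, fun x => trivial⟩, by
        rintro _ ⟨x, rfl⟩
        exact v.2.2.2 x⟩
      left_inv := fun s => rfl
      right_inv := fun v => rfl }

/-! ### The fixed `G` -/

section FixG

variable {V : Type} [AddCommGroup V] [Module K V] [FiniteDimensional K V]

/-- The number `A(H)`. -/
noncomputable def AH (W : Submodule K V) (u₀ : V ≃ₗ[K] V) (G : Submodule K V)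
    (H : Submodule K G) : ℕ :=
  Nat.card {v : V ≃ₗ[K] V // v ∈ UW W ∧ IsUnip (u₀ * v) ∧ (∀ x, (u₀ * v) x - x ∈ G) ∧
    ∀ x ∈ G, (u₀ * v) x - x ∈ H.map G.subtype}

open Classical in
lemma phiU_G_eq (W : Submodule K V) (u₀ : V ≃ₗ[K] V) (G : Submodule K V) (hG : G ≠ ⊥) :
    (phiU W u₀ G : ℤ) = -∑ H ∈ Finset.univ.filter (fun H : Submodule K G => H ≠ ⊤),
      mob K (finrank K (G ⧸ H)) * (AH W u₀ G H : ℤ) := by
  have := finite_equivs (K := K) (V := V)
  have hnt : Nontrivial G := Submodule.nontrivial_iff_ne_bot.2 hG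
  rw [phiU, card_eq_neg_sum (X := G)
    (S := {v : V ≃ₗ[K] V // v ∈ UW W ∧ IsUnip (u₀ * v) ∧ ∀ x, (u₀ * v) x - x ∈ G})
    (fun s => LinearMap.range (uSub (rG G (u₀ * s.1) s.2.2.2)))
    (fun s => range_ne_top ((isUnip_rG_iff G _ s.2.2.2).2 s.2.2.1))]
  congr 1
  refine Finset.sum_congr rfl (fun H _ => ?_)
  congr 2
  rw [AH]
  refine Nat.card_congr
    { toFun := fun s => ⟨s.1.1, s.1.2.1, s.1.2.2.1, s.1.2.2.2, fun x hx =>
        ⟨uSub (rG G (u₀ * s.1.1) s.1.2.2.2) ⟨x, hx⟩, s.2 ⟨⟨x, hx⟩, rfl⟩, rfl⟩⟩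
      invFun := fun v => ⟨⟨v.1, v.2.1, v.2.2.1, v.2.2.2.1⟩, by
        rintro _ ⟨x, rfl⟩
        obtain ⟨y, hy1, hy2⟩ := v.2.2.2.2 x.1 x.2
        have : uSub (rG G (u₀ * v.1) v.2.2.2.1) x = y := Subtype.ext hy2.symm
        rw [this]
        exact hy1⟩
      left_inv := fun s => rfl
      right_inv := fun v => rfl }

omit [Finite K] [FiniteDimensional K V] in
lemma exists_proj (G : Submodule K V) : ∃ p : V →ₗ[K] G, ∀ x : G, p x = x := by
  obtain ⟨p, hp⟩ := G.subtype.exists_leftInverse_of_injective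
    (LinearMap.ker_eq_bot.2 G.injective_subtype)
  exact ⟨p, fun x => LinearMap.congr_fun hp x⟩

/-- Step (2): the numbers `A(H)` are proportional to those of `G`. -/
lemma AH_eq_mul (W : Submodule K V) (u₀ : V ≃ₗ[K] V) (G : Submodule K V) (hWG : W ≤ G) :
    ∃ (c : ℕ) (u₁ : G ≃ₗ[K] G), ∀ H : Submodule K G,
      AH W u₀ G H = c * phiU (W.comap G.subtype) u₁ H := by
  classical
  have := finite_equivs (K := K) (V := V)
  by_cases hne : ∃ v₁ ∈ UW W, ∀ x, (u₀ * v₁) x - x ∈ G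
  swap
  · refine ⟨0, 1, fun H => ?_⟩
    rw [zero_mul, AH]
    have : IsEmpty {v : V ≃ₗ[K] V // v ∈ UW W ∧ IsUnip (u₀ * v) ∧ (∀ x, (u₀ * v) x - x ∈ G) ∧
        ∀ x ∈ G, (u₀ * v) x - x ∈ H.map G.subtype} :=
      ⟨fun v => hne ⟨v.1, v.2.1, v.2.2.2.1⟩⟩
    exact Nat.card_of_isEmpty
  obtain ⟨v₁, hv₁, hG⟩ := hne
  obtain ⟨p, hp⟩ := exists_proj G
  have hUG : ∀ v ∈ UW W, ∀ x, v x - x ∈ G := fun v hv x => hWG (hv.2 x)
  -- restriction of elements of UW W is in UW W'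
  have hres : ∀ v (hv : v ∈ UW W), rG G v (hUG v hv) ∈ UW (W.comap G.subtype) := by
    intro v hv
    exact ⟨fun x hx => Subtype.ext (hv.1 x hx), fun x => hv.2 x⟩
  -- the section
  have hsec : ∀ w : G ≃ₗ[K] G, w ∈ UW (W.comap G.subtype) →
      ∃ v : V ≃ₗ[K] V, v ∈ UW W ∧ ∀ x : G, v x = w x := by
    intro w hw
    let η : V →ₗ[K] V := G.subtype ∘ₗ (uSub w) ∘ₗ p
    have hη : ∀ x, η x = ((w (p x) - p x : G) : V) := fun x => rfl
    have h2 : ∀ x, η x ∈ W := fun x => hw.2 (p x)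
    have h1 : ∀ x ∈ W, η x = 0 := by
      intro x hx
      have h3 : p x = ⟨x, hWG hx⟩ := hp ⟨x, hWG hx⟩
      rw [hη, h3, hw.1 ⟨x, hWG hx⟩ hx, sub_self]
      rfl
    refine ⟨oneAdd η (fun x => h1 _ (h2 x)), oneAdd_mem_UW _ _ h1 h2, fun x => ?_⟩
    rw [oneAdd_apply, hη, hp]
    simp
  choose! σ hσ1 hσ2 using hsec
  let N : Type := {v : V ≃ₗ[K] V // v ∈ UW W ∧ ∀ x ∈ G, v x = x}
  refine ⟨Nat.card N, rG G (u₀ * v₁) hG, fun H => ?_⟩
  rw [AH, phiU, mul_comm, ← Nat.card_prod]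
  have hinv : ∀ (u : V ≃ₗ[K] V) x, u (u⁻¹ x) = x := fun u x => u.apply_symm_apply x
  have hinv' : ∀ (u : V ≃ₗ[K] V) x, u⁻¹ (u x) = x := fun u x => u.symm_apply_apply x
  have hG' : ∀ v ∈ UW W, ∀ x, ((u₀ * v₁) * v) x - x ∈ G := by
    intro v hv x
    rw [LinearEquiv.mul_apply]
    have := G.add_mem (hG (v x)) (hUG v hv x)
    rwa [sub_add_sub_cancel] at this
  have hrmul : ∀ v (hv : v ∈ UW W), rG G ((u₀ * v₁) * v) (hG' v hv) =
      rG G (u₀ * v₁) hG * rG G v (hUG v hv) := fun v hv => rfl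
  refine Nat.card_congr
    { toFun := fun v => (⟨rG G (v₁⁻¹ * v.1) (hUG _ (UW_mul (UW_inv hv₁) v.2.1)),
        hres _ (UW_mul (UW_inv hv₁) v.2.1), ?_, ?_⟩,
        ⟨(σ (rG G (v₁⁻¹ * v.1) (hUG _ (UW_mul (UW_inv hv₁) v.2.1))))⁻¹ * (v₁⁻¹ * v.1), ?_, ?_⟩)
      invFun := fun q => ⟨v₁ * (σ q.1.1 * q.2.1), ?_, ?_, ?_, ?_⟩
      left_inv := ?_
      right_inv := ?_ }
  · have h1 : (u₀ * v₁) * (v₁⁻¹ * v.1) = u₀ * v.1 := by group
    rw [← hrmul _ (UW_mul (UW_inv hv₁) v.2.1), isUnip_rG_iff, h1]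
    exact v.2.2.1
  · intro x
    have h1 : (u₀ * v₁) * (v₁⁻¹ * v.1) = u₀ * v.1 := by group
    obtain ⟨y, hy1, hy2⟩ := v.2.2.2.2 x.1 x.2
    rw [← hrmul _ (UW_mul (UW_inv hv₁) v.2.1)]
    have h3 : rG G ((u₀ * v₁) * (v₁⁻¹ * v.1)) (hG' _ (UW_mul (UW_inv hv₁) v.2.1)) x - x = y := by
      apply Subtype.ext
      rw [AddSubgroupClass.coe_sub, coe_rG, h1]
      exact hy2.symm
    rw [h3]
    exact hy1
  · exact UW_mul (UW_inv (hσ1 _ (hres _ (UW_mul (UW_inv hv₁) v.2.1))))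
      (UW_mul (UW_inv hv₁) v.2.1)
  · intro x hx
    rw [LinearEquiv.mul_apply]
    have h1 := hσ2 _ (hres _ (UW_mul (UW_inv hv₁) v.2.1)) ⟨x, hx⟩
    rw [coe_rG] at h1
    rw [← h1, hinv']
  · exact UW_mul hv₁ (UW_mul (hσ1 _ q.1.2.1) q.2.2.1)
  · -- unipotent
    have hm : σ q.1.1 * q.2.1 ∈ UW W := UW_mul (hσ1 _ q.1.2.1) q.2.2.1
    have h1 : u₀ * (v₁ * (σ q.1.1 * q.2.1)) = (u₀ * v₁) * (σ q.1.1 * q.2.1) := by group
    rw [h1, ← isUnip_rG_iff G _ (hG' _ hm), hrmul _ hm]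
    have h2 : rG G (σ q.1.1 * q.2.1) (hUG _ hm) = q.1.1 := by
      ext x
      rw [coe_rG, LinearEquiv.mul_apply, q.2.2.2 x.1 x.2, hσ2 _ q.1.2.1]
    rw [h2]
    exact q.1.2.2.1
  · have hm : σ q.1.1 * q.2.1 ∈ UW W := UW_mul (hσ1 _ q.1.2.1) q.2.2.1
    have h1 : u₀ * (v₁ * (σ q.1.1 * q.2.1)) = (u₀ * v₁) * (σ q.1.1 * q.2.1) := by group
    rw [h1]
    exact hG' _ hm
  · have hm : σ q.1.1 * q.2.1 ∈ UW W := UW_mul (hσ1 _ q.1.2.1) q.2.2.1
    have h1 : u₀ * (v₁ * (σ q.1.1 * q.2.1)) = (u₀ * v₁) * (σ q.1.1 * q.2.1) := by group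
    rw [h1]
    intro x hx
    refine ⟨(rG G (u₀ * v₁) hG * q.1.1) ⟨x, hx⟩ - ⟨x, hx⟩, q.1.2.2.2 ⟨x, hx⟩, ?_⟩
    rw [Submodule.subtype_apply, AddSubgroupClass.coe_sub, LinearEquiv.mul_apply (f := rG G _ _),
      coe_rG, LinearEquiv.mul_apply (f := u₀ * v₁), LinearEquiv.mul_apply (f := σ q.1.1),
      q.2.2.2 x hx]
    congr 2
    exact (hσ2 _ q.1.2.1 ⟨x, hx⟩).symm
  · intro v
    apply Subtype.ext
    simp only
    group
  · intro q
    have hm : σ q.1.1 * q.2.1 ∈ UW W := UW_mul (hσ1 _ q.1.2.1) q.2.2.1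
    have h2 : rG G (v₁⁻¹ * (v₁ * (σ q.1.1 * q.2.1)))
        (hUG _ (UW_mul (UW_inv hv₁) (UW_mul hv₁ hm))) = q.1.1 := by
      ext x
      rw [coe_rG, LinearEquiv.mul_apply, LinearEquiv.mul_apply, hinv',
        LinearEquiv.mul_apply, q.2.2.2 x.1 x.2, hσ2 _ q.1.2.1]
    refine Prod.ext (Subtype.ext h2) (Subtype.ext ?_)
    simp only
    rw [h2]
    group

/-- the map `V / G → G / H` induced by `u - 1` -/
def dl (G : Submodule K V) (H : Submodule K G) (u : V ≃ₗ[K] V) (h1 : ∀ x, u x - x ∈ G)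
    (h2 : ∀ x ∈ G, u x - x ∈ H.map G.subtype) : (V ⧸ G) →ₗ[K] (G ⧸ H) :=
  G.liftQ (H.mkQ ∘ₗ LinearMap.codRestrict G (uSub u) h1) (by
    intro x hx
    rw [LinearMap.mem_ker, LinearMap.comp_apply, Submodule.mkQ_apply,
      Submodule.Quotient.mk_eq_zero]
    obtain ⟨y, hy1, hy2⟩ := h2 x hx
    have : LinearMap.codRestrict G (uSub u) h1 x = y := Subtype.ext hy2.symm
    rw [this]
    exact hy1)

omit [Finite K] [FiniteDimensional K V] in
lemma dl_mk (G : Submodule K V) (H : Submodule K G) (u : V ≃ₗ[K] V) (h1 : ∀ x, u x - x ∈ G)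
    (h2 : ∀ x ∈ G, u x - x ∈ H.map G.subtype) (x : V) :
    dl G H u h1 h2 (Submodule.Quotient.mk x) = Submodule.Quotient.mk ⟨u x - x, h1 x⟩ := rfl

omit [Finite K] [FiniteDimensional K V] in
lemma mem_map_iff (G : Submodule K V) (H : Submodule K G) (x : V) (hx : x ∈ G) :
    x ∈ H.map G.subtype ↔ (Submodule.Quotient.mk (⟨x, hx⟩ : G) : G ⧸ H) = 0 := by
  rw [Submodule.Quotient.mk_eq_zero]
  constructor
  · rintro ⟨y, hy1, hy2⟩
    have : y = ⟨x, hx⟩ := Subtype.ext hy2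
    rwa [← this]
  · intro h
    exact ⟨_, h, rfl⟩

omit [Finite K] in
/-- Step (3). -/
lemma AH_eq_pow_mul (W : Submodule K V) (u₀ : V ≃ₗ[K] V) (G : Submodule K V) (hWG : W ≤ G)
    (H : Submodule K G) (hH : H ⊔ W.comap G.subtype = ⊤) :
    AH W u₀ G H = Nat.card K ^ (finrank K (V ⧸ G) * finrank K (G ⧸ H)) *
      phiU W u₀ (H.map G.subtype) := by
  classical
  -- the section
  obtain ⟨s, hs1, hs2⟩ : ∃ s : (G ⧸ H) →ₗ[K] G, (∀ y, (s y : V) ∈ W) ∧
      ∀ y, (Submodule.Quotient.mk (s y) : G ⧸ H) = y := by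
    let f : (W.comap G.subtype) →ₗ[K] G ⧸ H := H.mkQ ∘ₗ (W.comap G.subtype).subtype
    have hf : LinearMap.range f = ⊤ := by
      rw [LinearMap.range_comp, Submodule.range_subtype, eq_top_iff]
      intro y _
      obtain ⟨x, rfl⟩ := H.mkQ_surjective y
      have hx : x ∈ H ⊔ W.comap G.subtype := by rw [hH]; trivial
      obtain ⟨a, ha, b, hb, rfl⟩ := Submodule.mem_sup.1 hx
      refine ⟨b, hb, ?_⟩
      have : H.mkQ a = 0 := (Submodule.Quotient.mk_eq_zero H).2 ha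
      rw [map_add, this, zero_add]
    obtain ⟨t, ht⟩ := f.exists_rightInverse_of_surjective hf
    exact ⟨(W.comap G.subtype).subtype ∘ₗ t, fun y => (t y).2, fun y => LinearMap.congr_fun ht y⟩
  let η : ((V ⧸ G) →ₗ[K] (G ⧸ H)) → (V →ₗ[K] V) := fun δ => G.subtype ∘ₗ s ∘ₗ δ ∘ₗ G.mkQ
  have hη : ∀ δ x, η δ x = (s (δ (Submodule.Quotient.mk x)) : V) := fun δ x => rfl
  have hη1 : ∀ δ x, η δ x ∈ W := fun δ x => hs1 _
  have hη2 : ∀ δ, ∀ x ∈ G, η δ x = 0 := by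
    intro δ x hx
    rw [hη, (Submodule.Quotient.mk_eq_zero G).2 hx, map_zero, map_zero]
    rfl
  have hη3 : ∀ δ x, η δ (η δ x) = 0 := fun δ x => hη2 δ _ (hWG (hη1 δ x))
  let e : ((V ⧸ G) →ₗ[K] (G ⧸ H)) → (V ≃ₗ[K] V) := fun δ => oneAdd (η δ) (hη3 δ)
  have he : ∀ δ x, e δ x = x + η δ x := fun δ x => rfl
  have he' : ∀ δ x, (e δ)⁻¹ x = x - η δ x := fun δ x => rfl
  have heU : ∀ δ, e δ ∈ UW W := fun δ => oneAdd_mem_UW _ _ (fun x hx => hη2 δ x (hWG hx)) (hη1 δ)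
  have hcl : ∀ δ x, (Submodule.Quotient.mk (⟨η δ x, hWG (hη1 δ x)⟩ : G) : G ⧸ H) =
      δ (Submodule.Quotient.mk x) := fun δ x => hs2 _
  have hHG : H.map G.subtype ≤ G := by
    rintro _ ⟨y, _, rfl⟩
    exact y.2
  -- first direction
  have hC : ∀ (v : V ≃ₗ[K] V) (h1 : ∀ x, (u₀ * v) x - x ∈ G)
      (h2 : ∀ x ∈ G, (u₀ * v) x - x ∈ H.map G.subtype) (x : V),
      (u₀ * (v * (e (dl G H (u₀ * v) h1 h2))⁻¹)) x - x ∈ H.map G.subtype := by
    intro v h1 h2 x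
    rw [← mul_assoc, LinearEquiv.mul_apply (f := u₀ * v), he']
    set δ := dl G H (u₀ * v) h1 h2 with hδ
    have e1 : (u₀ * v) (x - η δ x) - x =
        (((u₀ * v) x - x) - η δ x) - ((u₀ * v) (η δ x) - η δ x) := by
      rw [map_sub]; abel
    rw [e1]
    apply Submodule.sub_mem _ _ (h2 _ (hWG (hη1 δ x)))
    rw [mem_map_iff G H _ (G.sub_mem (h1 x) (hWG (hη1 δ x)))]
    have e2 : (⟨(u₀ * v) x - x - η δ x, G.sub_mem (h1 x) (hWG (hη1 δ x))⟩ : G) =
      ⟨(u₀ * v) x - x, h1 x⟩ - ⟨η δ x, hWG (hη1 δ x)⟩ := rfl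
    rw [e2, Submodule.Quotient.mk_sub, hcl, hδ, dl_mk, sub_self]
  have hD : ∀ (c : V ≃ₗ[K] V) (_ : ∀ x, (u₀ * c) x - x ∈ H.map G.subtype) δ (x : V),
      (u₀ * (c * e δ)) x - x = ((u₀ * c) (x + η δ x) - (x + η δ x)) + η δ x := by
    intro c h δ x
    rw [← mul_assoc, LinearEquiv.mul_apply (f := u₀ * c), he]
    abel
  have hD1 : ∀ (c : V ≃ₗ[K] V) (_ : ∀ x, (u₀ * c) x - x ∈ H.map G.subtype) δ (x : V),
      (u₀ * (c * e δ)) x - x ∈ G := by
    intro c h δ x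
    rw [hD c h]
    exact G.add_mem (hHG (h _)) (hWG (hη1 δ x))
  have hD2 : ∀ (c : V ≃ₗ[K] V) (_ : ∀ x, (u₀ * c) x - x ∈ H.map G.subtype) δ, ∀ x ∈ G,
      (u₀ * (c * e δ)) x - x ∈ H.map G.subtype := by
    intro c h δ x hx
    rw [hD c h, hη2 δ x hx, add_zero, add_zero]
    exact h x
  have hD3 : ∀ (c : V ≃ₗ[K] V) (h : ∀ x, (u₀ * c) x - x ∈ H.map G.subtype) δ,
      dl G H (u₀ * (c * e δ)) (hD1 c h δ) (hD2 c h δ) = δ := by
    intro c h δ
    apply LinearMap.ext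
    intro y
    obtain ⟨x, rfl⟩ := Submodule.Quotient.mk_surjective _ y
    rw [dl_mk, ← hcl]
    have e2 : (⟨(u₀ * (c * e δ)) x - x, hD1 c h δ x⟩ : G) =
      ⟨(u₀ * c) (x + η δ x) - (x + η δ x), hHG (h _)⟩ + ⟨η δ x, hWG (hη1 δ x)⟩ :=
      Subtype.ext (hD c h δ x)
    rw [e2, Submodule.Quotient.mk_add, (mem_map_iff G H _ (hHG (h _))).1 (h _), zero_add]
  have hcard : Nat.card ((V ⧸ G) →ₗ[K] (G ⧸ H)) =
      Nat.card K ^ (finrank K (V ⧸ G) * finrank K (G ⧸ H)) := by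
    rw [Module.natCard_eq_pow_finrank (K := K), Module.finrank_linearMap]
  rw [AH, phiU, ← hcard, mul_comm, ← Nat.card_prod]
  refine Nat.card_congr
    { toFun := fun v => (⟨v.1 * (e (dl G H (u₀ * v.1) v.2.2.2.1 v.2.2.2.2))⁻¹, ?_, ?_, ?_⟩,
        dl G H (u₀ * v.1) v.2.2.2.1 v.2.2.2.2)
      invFun := fun q => ⟨q.1.1 * e q.2, ?_, ?_, ?_, ?_⟩
      left_inv := ?_
      right_inv := ?_ }
  · exact UW_mul v.2.1 (UW_inv (heU _))
  · refine isUnip_of_eqOn (G := G) (u := u₀ * v.1)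
      (fun x => hHG (hC _ v.2.2.2.1 v.2.2.2.2 x)) (fun x hx => ?_) v.2.2.1
    rw [← mul_assoc, LinearEquiv.mul_apply (f := u₀ * v.1), he', hη2 _ x hx, sub_zero]
  · exact hC _ v.2.2.2.1 v.2.2.2.2
  · exact UW_mul q.1.2.1 (heU _)
  · refine isUnip_of_eqOn (G := G) (u := u₀ * q.1.1)
      (fun x => hD1 _ q.1.2.2.2 _ x) (fun x hx => ?_) q.1.2.2.1
    rw [← mul_assoc, LinearEquiv.mul_apply (f := u₀ * q.1.1), he, hη2 _ x hx, add_zero]
  · exact fun x => hD1 _ q.1.2.2.2 _ x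
  · exact fun x hx => hD2 _ q.1.2.2.2 _ x hx
  · intro v
    apply Subtype.ext
    simp only
    group
  · intro q
    refine Prod.ext (Subtype.ext ?_) ?_
    · simp only
      rw [hD3 _ q.1.2.2.2]
      group
    · exact hD3 _ q.1.2.2.2 _

omit [Field K] [Finite K] in
lemma mob_add (a b : ℕ) :
    mob K (a + b) = mob K a * mob K b * (Nat.card K : ℤ) ^ (a * b) := by
  have h : (a + b).choose 2 = a.choose 2 + b.choose 2 + a * b := by
    induction b with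
    | zero => simp
    | succ b ih =>
      have h1 : (a + (b + 1)).choose 2 = (a + b).choose 1 + (a + b).choose 2 :=
        Nat.choose_succ_succ _ _
      have h2 : (b + 1).choose 2 = b.choose 1 + b.choose 2 := Nat.choose_succ_succ _ _
      rw [h1, h2, ih, Nat.choose_one_right, Nat.choose_one_right]
      ring
  rw [mob, mob, mob, h, pow_add, pow_add, pow_add]
  ring

omit [Finite K] in
lemma finrank_quot_map (G : Submodule K V) (H : Submodule K G) :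
    finrank K (V ⧸ H.map G.subtype) = finrank K (V ⧸ G) + finrank K (G ⧸ H) := by
  have h1 := Submodule.finrank_quotient_add_finrank (H.map G.subtype)
  have h2 := Submodule.finrank_quotient_add_finrank G
  have h3 := Submodule.finrank_quotient_add_finrank H
  have h4 : finrank K (H.map G.subtype) = finrank K H :=
    (Submodule.equivMapOfInjective G.subtype G.injective_subtype H).finrank_eq.symm
  omega

open Classical in
lemma fixG_sum (W : Submodule K V) (u₀ : V ≃ₗ[K] V) (G : Submodule K V) (hWG : W ≤ G)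
    (hW : W ≠ ⊥)
    (hIH : ∀ u₁ : G ≃ₗ[K] G, ∑ H ∈ Finset.univ.filter
      (fun H : Submodule K G => H ⊔ W.comap G.subtype ≠ ⊤),
      mob K (finrank K (G ⧸ H)) * (phiU (W.comap G.subtype) u₁ H : ℤ) = 0) :
    ∑ H ∈ Finset.univ.filter (fun H : Submodule K G => H ⊔ W.comap G.subtype = ⊤),
      mob K (finrank K (V ⧸ H.map G.subtype)) * (phiU W u₀ (H.map G.subtype) : ℤ) = 0 := by
  have hG : G ≠ ⊥ := fun h => hW (le_bot_iff.1 (h ▸ hWG))
  have h1 : ∀ H : Submodule K G, H ⊔ W.comap G.subtype = ⊤ →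
      mob K (finrank K (V ⧸ H.map G.subtype)) * (phiU W u₀ (H.map G.subtype) : ℤ) =
      mob K (finrank K (V ⧸ G)) * (mob K (finrank K (G ⧸ H)) * (AH W u₀ G H : ℤ)) := by
    intro H hH
    rw [AH_eq_pow_mul W u₀ G hWG H hH, finrank_quot_map, mob_add]
    push_cast
    ring
  rw [Finset.sum_congr rfl (fun H hH => h1 H (Finset.mem_filter.1 hH).2), ← Finset.mul_sum]
  -- the sum over all H
  have h2 : ∑ H : Submodule K G, mob K (finrank K (G ⧸ H)) * (AH W u₀ G H : ℤ) = 0 := by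
    rw [← Finset.sum_filter_add_sum_filter_not Finset.univ (fun H : Submodule K G => H ≠ ⊤)]
    have h3 : Finset.univ.filter (fun H : Submodule K G => ¬ H ≠ ⊤) = {⊤} := by
      ext H
      simp
    have h4 : finrank K (G ⧸ (⊤ : Submodule K G)) = 0 := by
      have : Subsingleton (G ⧸ (⊤ : Submodule K G)) := Submodule.Quotient.subsingleton_iff.2 rfl
      exact finrank_zero_of_subsingleton
    have h5 : AH W u₀ G ⊤ = phiU W u₀ G := by
      rw [AH_eq_pow_mul W u₀ G hWG ⊤ (by rw [top_sup_eq]), h4, mul_zero, pow_zero, one_mul,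
        Submodule.map_top, Submodule.range_subtype]
    have h6 : mob K 0 = 1 := by simp [mob]
    have h7 := phiU_G_eq W u₀ G hG
    rw [h3, Finset.sum_singleton, h4, h5, h6, one_mul, h7]
    ring
  have h8 : ∑ H ∈ Finset.univ.filter (fun H : Submodule K G => ¬ H ⊔ W.comap G.subtype = ⊤),
      mob K (finrank K (G ⧸ H)) * (AH W u₀ G H : ℤ) = 0 := by
    obtain ⟨c, u₁, hc⟩ := AH_eq_mul W u₀ G hWG
    have h9 := hIH u₁
    calc _ = ∑ H ∈ Finset.univ.filter (fun H : Submodule K G => H ⊔ W.comap G.subtype ≠ ⊤),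
          (c : ℤ) * (mob K (finrank K (G ⧸ H)) * (phiU (W.comap G.subtype) u₁ H : ℤ)) := by
            refine Finset.sum_congr rfl (fun H _ => ?_)
            rw [hc H]
            push_cast
            ring
      _ = 0 := by rw [← Finset.mul_sum, h9, mul_zero]
  rw [← Finset.sum_filter_add_sum_filter_not Finset.univ
    (fun H : Submodule K G => H ⊔ W.comap G.subtype = ⊤), h8, add_zero] at h2
  rw [h2, mul_zero]

omit [Finite K] [FiniteDimensional K V] in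
lemma sup_comap_iff (W : Submodule K V) (G : Submodule K V) (hWG : W ≤ G) (H : Submodule K G) :
    H ⊔ W.comap G.subtype = ⊤ ↔ H.map G.subtype ⊔ W = G := by
  have h1 : (H ⊔ W.comap G.subtype).map G.subtype = H.map G.subtype ⊔ W := by
    rw [Submodule.map_sup, Submodule.map_comap_subtype, inf_eq_right.2 hWG]
  have h2 : (⊤ : Submodule K G).map G.subtype = G := by
    rw [Submodule.map_top, Submodule.range_subtype]
  constructor
  · intro h
    rw [← h1, h, h2]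
  · intro h
    apply Submodule.map_injective_of_injective G.injective_subtype
    rw [h1, h, h2]

end FixG

open Classical in
lemma sum_phiU_aux (n : ℕ) : ∀ {V : Type} [AddCommGroup V] [Module K V] [FiniteDimensional K V]
    (_ : finrank K V = n) (W : Submodule K V) (_ : W ≠ ⊥) (u₀ : V ≃ₗ[K] V),
    ∑ H ∈ Finset.univ.filter (fun H : Submodule K V => H ⊔ W ≠ ⊤),
      mob K (finrank K (V ⧸ H)) * (phiU W u₀ H : ℤ) = 0 := by
  induction n using Nat.strong_induction_on with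
  | _ n ih =>
    intro V _ _ _ hn W hW u₀
    rw [← Finset.sum_fiberwise_of_maps_to
      (t := Finset.univ.filter (fun G : Submodule K V => G ≠ ⊤ ∧ W ≤ G))
      (g := fun H : Submodule K V => H ⊔ W) (by
        intro H hH
        rw [Finset.mem_filter] at hH ⊢
        exact ⟨Finset.mem_univ _, hH.2, le_sup_right⟩)]
    apply Finset.sum_eq_zero
    intro G hG
    rw [Finset.mem_filter] at hG
    obtain ⟨-, hG1, hG2⟩ := hG
    have h1 := fixG_sum W u₀ G hG2 hW (fun u₁ => ih (finrank K G)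
      (hn ▸ Submodule.finrank_lt hG1) rfl (W.comap G.subtype) (by
        intro h0
        apply hW
        have h2 : (W.comap G.subtype).map G.subtype = W := by
          rw [Submodule.map_comap_subtype, inf_eq_right.2 hG2]
        rw [← h2, h0, Submodule.map_bot]) u₁)
    rw [← h1]
    symm
    refine Finset.sum_nbij' (i := fun H => H.map G.subtype) (j := fun H => H.comap G.subtype)
      ?_ ?_ ?_ ?_ ?_
    · intro H hH
      rw [Finset.mem_filter] at hH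
      rw [Finset.mem_filter, Finset.mem_filter]
      have h2 := (sup_comap_iff W G hG2 H).1 hH.2
      exact ⟨⟨Finset.mem_univ _, by rw [h2]; exact hG1⟩, h2⟩
    · intro H hH
      rw [Finset.mem_filter] at hH
      rw [Finset.mem_filter]
      refine ⟨Finset.mem_univ _, (sup_comap_iff W G hG2 _).2 ?_⟩
      rw [Submodule.map_comap_subtype, inf_eq_right.2 (hH.2 ▸ le_sup_left)]
      exact hH.2
    · intro H hH
      exact Submodule.comap_map_eq_of_injective G.injective_subtype _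
    · intro H hH
      rw [Finset.mem_filter] at hH
      rw [Submodule.map_comap_subtype, inf_eq_right.2 (hH.2 ▸ le_sup_left)]
    · intro H hH
      rfl

open Classical in
set_option linter.unusedVariables false in
/-- The contributions of the `H` with `H + W ≠ V` cancel. -/
theorem sum_phiU_eq_zero {V : Type} [AddCommGroup V] [Module K V] [FiniteDimensional K V]
    (W : Submodule K V) (hW : W ≠ ⊥) (hW' : W ≠ ⊤) (u₀ : V ≃ₗ[K] V) :
    ∑ H ∈ Finset.univ.filter (fun H : Submodule K V => H ⊔ W ≠ ⊤),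
      mob K (finrank K (V ⧸ H)) * (phiU W u₀ H : ℤ) = 0 :=
  sum_phiU_aux _ rfl W hW u₀

end Pool.Agent.Lib.MP_02a407_al
end

section

section

/-!
# Unipotent completions of partial maps, part B
-/

namespace Pool.Agent.Lib.MP_02a407_al

open Module

variable {K : Type} [Field K]

section restrict

variable {V : Type} [AddCommGroup V] [Module K V]

/-- The restriction to `H` of an automorphism `u` with `(u - 1) V ⊆ H`. -/
def resH (H : Submodule K V) (u : V ≃ₗ[K] V) (hu : ∀ x, u x - x ∈ H) : H ≃ₗ[K] H where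
  toFun x := ⟨u x, by
    have h := H.add_mem (hu x) x.2
    rwa [sub_add_cancel] at h⟩
  map_add' x y := Subtype.ext (map_add u _ _)
  map_smul' c x := Subtype.ext (map_smul u _ _)
  invFun x := ⟨u.symm x, by
    have h := H.sub_mem x.2 (hu (u.symm x))
    rwa [u.apply_symm_apply, sub_sub_cancel] at h⟩
  left_inv x := Subtype.ext (u.symm_apply_apply _)
  right_inv x := Subtype.ext (u.apply_symm_apply _)

@[simp] lemma coe_resH (H : Submodule K V) (u : V ≃ₗ[K] V) (hu : ∀ x, u x - x ∈ H) (h : H) :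
    ((resH H u hu h : H) : V) = u h := rfl

lemma isUnip_iff_of_restrict (H : Submodule K V) (u : V ≃ₗ[K] V) (hu : ∀ x, u x - x ∈ H)
    (u' : H ≃ₗ[K] H) (hu' : ∀ h : H, ((u' h : H) : V) = u h) : IsUnip u' ↔ IsUnip u := by
  have key : ∀ (k : ℕ) (h : H),
      (((((u' : H →ₗ[K] H) - LinearMap.id : Module.End K H) ^ k) h : H) : V) =
        (((u : V →ₗ[K] V) - LinearMap.id : Module.End K V) ^ k) (h : V) := by
    intro k
    induction k with
    | zero => intro h; simp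
    | succ k ih =>
      intro h
      rw [pow_succ, pow_succ, Module.End.mul_apply, Module.End.mul_apply, ih]
      congr 1
      simp [hu']
  constructor
  · rintro ⟨k, hk⟩
    refine ⟨k + 1, ?_⟩
    ext x
    rw [pow_succ, Module.End.mul_apply]
    have hx : ((u : V →ₗ[K] V) - LinearMap.id : Module.End K V) x ∈ H := by
      simpa using hu x
    have := key k ⟨_, hx⟩
    rw [hk] at this
    simpa using this.symm
  · rintro ⟨k, hk⟩
    refine ⟨k, ?_⟩
    ext x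
    rw [key, hk]
    simp

/-- Extension of elements of `U_(W ⊓ H)` to elements of `U_W`. -/
lemma exists_lift_UW (W H : Submodule K V) (hHW : H ⊔ W = ⊤) (v' : H ≃ₗ[K] H)
    (hv' : v' ∈ UW (W.comap H.subtype)) :
    ∃ w : V ≃ₗ[K] V, w ∈ UW W ∧ (∀ x, w x - x ∈ H) ∧ ∀ h : H, w h = (v' h : H) := by
  obtain ⟨h1, h2⟩ := hv'
  let s : H →ₗ[K] V ⧸ W := W.mkQ ∘ₗ H.subtype
  have hs : Function.Surjective s := by
    intro y
    obtain ⟨x, rfl⟩ := W.mkQ_surjective y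
    have hx : x ∈ H ⊔ W := by rw [hHW]; trivial
    obtain ⟨a, ha, b, hb, rfl⟩ := Submodule.mem_sup.1 hx
    refine ⟨⟨a, ha⟩, ?_⟩
    have hb0 : W.mkQ b = 0 := by simpa using hb
    simp [s]
    exact hb
  have hker : ∀ h : H, s h = 0 ↔ (h : V) ∈ W := by
    intro h
    simp [s]
  let n' : H →ₗ[K] V := H.subtype ∘ₗ ((v' : H →ₗ[K] H) - LinearMap.id)
  have hn' : ∀ h : H, n' h = (v' h : H) - (h : V) := by
    intro h
    simp [n']
  have hle : LinearMap.ker s ≤ LinearMap.ker n' := by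
    intro h hh
    rw [LinearMap.mem_ker] at hh ⊢
    rw [hn', h1 h ((hker h).1 hh), sub_self]
  let N : V →ₗ[K] V := ((LinearMap.ker s).liftQ n' hle) ∘ₗ
    ((LinearMap.quotKerEquivOfSurjective s hs).symm : (V ⧸ W) →ₗ[K] _) ∘ₗ W.mkQ
  have hNH : ∀ h : H, N h = (v' h : H) - (h : V) := by
    intro h
    have : (LinearMap.quotKerEquivOfSurjective s hs).symm (W.mkQ h) =
        Submodule.Quotient.mk h := by
      rw [LinearEquiv.symm_apply_eq]
      rfl
    have h3 : N h = ((LinearMap.ker s).liftQ n' hle)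
      ((LinearMap.quotKerEquivOfSurjective s hs).symm (W.mkQ h)) := rfl
    rw [h3, this, Submodule.liftQ_apply, hn']
  have hNW : ∀ x ∈ W, N x = 0 := by
    intro x hx
    have hx0 : W.mkQ x = 0 := by simpa using hx
    have h3 : N x = ((LinearMap.ker s).liftQ n' hle)
      ((LinearMap.quotKerEquivOfSurjective s hs).symm (W.mkQ x)) := rfl
    rw [h3, hx0]
    simp
  have hNr : ∀ x, N x ∈ W ∧ N x ∈ H := by
    intro x
    have hx : x ∈ H ⊔ W := by rw [hHW]; trivial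
    obtain ⟨a, ha, b, hb, rfl⟩ := Submodule.mem_sup.1 hx
    rw [map_add, hNW b hb, add_zero]
    have := hNH ⟨a, ha⟩
    simp only at this
    rw [this]
    exact ⟨h2 ⟨a, ha⟩, H.sub_mem (v' _).2 ha⟩
  have hNN : ∀ x, N (N x) = 0 := fun x => hNW _ (hNr x).1
  refine ⟨LinearEquiv.ofLinearMap (LinearMap.id + N) (LinearMap.id - N) ?_ ?_, ⟨?_, ?_⟩, ?_, ?_⟩
  · ext x; simp [hNN]
  · ext x; simp [hNN]
  · intro x hx; simp [hNW x hx]
  · intro x; simpa using (hNr x).1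
  · intro x; simpa using (hNr x).2
  · intro h
    simp [hNH h]

lemma UW_mul_mem (W : Submodule K V) {v w : V ≃ₗ[K] V} (hv : v ∈ UW W) (hw : w ∈ UW W) :
    v * w ∈ UW W := by
  refine ⟨fun x hx => ?_, fun x => ?_⟩
  · rw [LinearEquiv.mul_apply, hw.1 x hx, hv.1 x hx]
  · rw [LinearEquiv.mul_apply]
    have h := W.add_mem (hv.2 (w x)) (hw.2 x)
    rwa [sub_add_sub_cancel] at h

lemma UW_inv_mem (W : Submodule K V) {v : V ≃ₗ[K] V} (hv : v ∈ UW W) : v⁻¹ ∈ UW W := by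
  have hvv : ∀ x, v (v⁻¹ x) = x := fun x => v.apply_symm_apply x
  refine ⟨fun x hx => ?_, fun x => ?_⟩
  · apply v.injective
    rw [hvv, hv.1 x hx]
  · have h := W.neg_mem (hv.2 (v⁻¹ x))
    rwa [hvv, neg_sub] at h

lemma resH_mem_UW (W H : Submodule K V) {w : V ≃ₗ[K] V} (hw : w ∈ UW W)
    (hwH : ∀ x, w x - x ∈ H) : resH H w hwH ∈ UW (W.comap H.subtype) :=
  ⟨fun x hx => Subtype.ext (hw.1 x hx), fun x => hw.2 x⟩

lemma sub_mem_of_mul (H : Submodule K V) (u₀ v₁ v : V ≃ₗ[K] V)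
    (h₁ : ∀ x, (u₀ * v₁) x - x ∈ H) (h₂ : ∀ x, (u₀ * v) x - x ∈ H) (x : V) :
    (v₁⁻¹ * v) x - x ∈ H := by
  have hvv : ∀ x, v₁ (v₁⁻¹ x) = x := fun x => v₁.apply_symm_apply x
  have e1 := h₁ ((v₁⁻¹ * v) x)
  have e2 := h₂ x
  simp only [LinearEquiv.mul_apply, hvv] at e1 e2 ⊢
  have := H.sub_mem e2 e1
  rwa [sub_sub_sub_cancel_left] at this

/-- The restriction to `H` identifies a coset of `U_W` with a coset of `U_(W ⊓ H)`. -/
lemma exists_equiv_UW (W H : Submodule K V) (hHW : H ⊔ W = ⊤) (u₀ v₁ : V ≃ₗ[K] V)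
    (hv₁ : v₁ ∈ UW W) (h₁ : ∀ x, (u₀ * v₁) x - x ∈ H) :
    ∃ e : {v : V ≃ₗ[K] V // v ∈ UW W ∧ ∀ x, (u₀ * v) x - x ∈ H} ≃
        {v' : H ≃ₗ[K] H // v' ∈ UW (W.comap H.subtype)},
      ∀ v, ∀ h : H, (((resH H (u₀ * v₁) h₁ * (e v).1) h : H) : V) = (u₀ * v.1) h := by
  have hvv : ∀ x, v₁ (v₁⁻¹ x) = x := fun x => v₁.apply_symm_apply x
  let f : {v : V ≃ₗ[K] V // v ∈ UW W ∧ ∀ x, (u₀ * v) x - x ∈ H} →
        {v' : H ≃ₗ[K] H // v' ∈ UW (W.comap H.subtype)} := fun v =>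
    ⟨resH H (v₁⁻¹ * v.1) (sub_mem_of_mul H u₀ v₁ v.1 h₁ v.2.2),
      resH_mem_UW W H (UW_mul_mem W (UW_inv_mem W hv₁) v.2.1) _⟩
  have hf : ∀ v, ∀ h : H, (((f v).1 h : H) : V) = (v₁⁻¹ * v.1) h := fun v h => rfl
  have hbij : Function.Bijective f := by
    constructor
    · intro v w hvw
      apply Subtype.ext
      have h1 : v₁⁻¹ * v.1 = v₁⁻¹ * w.1 := by
        ext x
        have hx : x ∈ H ⊔ W := by rw [hHW]; trivial
        obtain ⟨a, ha, b, hb, rfl⟩ := Submodule.mem_sup.1 hx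
        rw [map_add, map_add, (UW_mul_mem W (UW_inv_mem W hv₁) v.2.1).1 b hb,
          (UW_mul_mem W (UW_inv_mem W hv₁) w.2.1).1 b hb]
        congr 1
        have := hf v ⟨a, ha⟩
        rw [hvw, hf w ⟨a, ha⟩] at this
        exact this.symm
      exact mul_left_cancel h1
    · rintro ⟨v', hv'⟩
      obtain ⟨w, hw1, hw2, hw3⟩ := exists_lift_UW W H hHW v' hv'
      have hw4 : ∀ x, (u₀ * (v₁ * w)) x - x ∈ H := by
        intro x
        have := H.add_mem (h₁ (w x)) (hw2 x)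
        rw [sub_add_sub_cancel] at this
        simpa [LinearEquiv.mul_apply] using this
      refine ⟨⟨v₁ * w, UW_mul_mem W hv₁ hw1, hw4⟩, ?_⟩
      apply Subtype.ext
      ext h
      rw [hf]
      have : v₁⁻¹ * (v₁ * w) = w := by group
      simp only [this]
      exact hw3 h
  refine ⟨Equiv.ofBijective f hbij, fun v h => ?_⟩
  have h3 : ((resH H (u₀ * v₁) h₁ * ((Equiv.ofBijective f hbij) v).1) h : H) =
    resH H (u₀ * v₁) h₁ ((f v).1 h) := rfl
  rw [h3, coe_resH, hf]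
  simp only [LinearEquiv.mul_apply, hvv]

lemma isCompl_map_iff (W H : Submodule K V) (hHW : H ⊔ W = ⊤) (X : Submodule K H) :
    IsCompl W (X.map H.subtype) ↔ IsCompl (W.comap H.subtype) X := by
  constructor
  · intro h
    constructor
    · rw [Submodule.disjoint_def]
      intro x hx hx'
      apply Subtype.ext
      exact (Submodule.disjoint_def.1 h.disjoint) x hx ⟨x, hx', rfl⟩
    · rw [codisjoint_iff, eq_top_iff]
      intro x _
      have hx : (x : V) ∈ W ⊔ X.map H.subtype := by rw [h.sup_eq_top]; trivial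
      obtain ⟨a, ha, b, ⟨c, hc, rfl⟩, hab⟩ := Submodule.mem_sup.1 hx
      have hxc : x = (x - c) + c := by abel
      rw [hxc]
      refine Submodule.add_mem_sup ?_ hc
      have : (x : V) - c = a := by
        rw [← hab]; simp
      change ((x - c : H) : V) ∈ W
      rw [Submodule.coe_sub, this]
      exact ha
  · intro h
    constructor
    · rw [Submodule.disjoint_def]
      rintro x hx ⟨y, hy, rfl⟩
      have := (Submodule.disjoint_def.1 h.disjoint) y hx hy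
      rw [this]; simp
    · rw [codisjoint_iff, eq_top_iff]
      intro x _
      have hx : x ∈ H ⊔ W := by rw [hHW]; trivial
      obtain ⟨a, ha, b, hb, rfl⟩ := Submodule.mem_sup.1 hx
      have ha' : (⟨a, ha⟩ : H) ∈ (W.comap H.subtype) ⊔ X := by rw [h.sup_eq_top]; trivial
      obtain ⟨c, hc, d, hd, hcd⟩ := Submodule.mem_sup.1 ha'
      have hcd' : a = (c : V) + d := by
        rw [← Submodule.coe_add, hcd]
      have e : a + b = (b + c) + d := by rw [hcd']; abel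
      rw [e]
      exact Submodule.add_mem_sup (W.add_mem hb hc) ⟨d, hd, rfl⟩

end restrict

/-- The number of the pairs `(v, X)` with `u = u₀ v` unipotent, `X` a `u`-stable complement of `W`,
`X ≤ H` and `(u - 1) V ⊆ H`. -/
noncomputable def gammaU {V : Type} [AddCommGroup V] [Module K V] (W : Submodule K V)
    (u₀ : V ≃ₗ[K] V) (H : Submodule K V) : ℕ :=
  Nat.card {p : (V ≃ₗ[K] V) × Submodule K V // (p.1 ∈ UW W ∧ IsUnip (u₀ * p.1) ∧
        IsCompl W p.2 ∧ ∀ x ∈ p.2, (u₀ * p.1) x ∈ p.2) ∧ p.2 ≤ H ∧ ∀ x, (u₀ * p.1) x - x ∈ H}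

lemma phiU_eq_card {V : Type} [AddCommGroup V] [Module K V] (W H : Submodule K V)
    (hHW : H ⊔ W = ⊤) (u₀ v₁ : V ≃ₗ[K] V)
    (hv₁ : v₁ ∈ UW W) (h₁ : ∀ x, (u₀ * v₁) x - x ∈ H) :
    phiU W u₀ H = Nat.card {v' : H ≃ₗ[K] H // v' ∈ UW (W.comap H.subtype) ∧
      IsUnip (resH H (u₀ * v₁) h₁ * v')} := by
  obtain ⟨e, he⟩ := exists_equiv_UW W H hHW u₀ v₁ hv₁ h₁
  have e1 : {v : V ≃ₗ[K] V // v ∈ UW W ∧ IsUnip (u₀ * v) ∧ ∀ x, (u₀ * v) x - x ∈ H} ≃
      {s : {v : V ≃ₗ[K] V // v ∈ UW W ∧ ∀ x, (u₀ * v) x - x ∈ H} // IsUnip (u₀ * s.1)} :=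
    { toFun := fun v => ⟨⟨v.1, v.2.1, v.2.2.2⟩, v.2.2.1⟩
      invFun := fun s => ⟨s.1.1, s.1.2.1, s.2, s.1.2.2⟩
      left_inv := fun v => rfl
      right_inv := fun s => rfl }
  have e3 : {t : {v' : H ≃ₗ[K] H // v' ∈ UW (W.comap H.subtype)} //
      IsUnip (resH H (u₀ * v₁) h₁ * t.1)} ≃ {v' : H ≃ₗ[K] H // v' ∈ UW (W.comap H.subtype) ∧
      IsUnip (resH H (u₀ * v₁) h₁ * v')} :=
    { toFun := fun v => ⟨v.1.1, v.1.2, v.2⟩
      invFun := fun s => ⟨⟨s.1, s.2.1⟩, s.2.2⟩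
      left_inv := fun v => rfl
      right_inv := fun s => rfl }
  have e2 : {s : {v : V ≃ₗ[K] V // v ∈ UW W ∧ ∀ x, (u₀ * v) x - x ∈ H} // IsUnip (u₀ * s.1)} ≃
      {t : {v' : H ≃ₗ[K] H // v' ∈ UW (W.comap H.subtype)} //
      IsUnip (resH H (u₀ * v₁) h₁ * t.1)} :=
    e.subtypeEquiv (fun s => (isUnip_iff_of_restrict H (u₀ * s.1) s.2.2 _ (he s)).symm)
  exact Nat.card_congr ((e1.trans e2).trans e3)

lemma gammaU_eq_card {V : Type} [AddCommGroup V] [Module K V] (W H : Submodule K V)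
    (hHW : H ⊔ W = ⊤) (u₀ v₁ : V ≃ₗ[K] V)
    (hv₁ : v₁ ∈ UW W) (h₁ : ∀ x, (u₀ * v₁) x - x ∈ H) :
    gammaU W u₀ H = Nat.card {p : (H ≃ₗ[K] H) × Submodule K H // p.1 ∈ UW (W.comap H.subtype) ∧
      IsUnip (resH H (u₀ * v₁) h₁ * p.1) ∧ IsCompl (W.comap H.subtype) p.2 ∧
      ∀ x ∈ p.2, (resH H (u₀ * v₁) h₁ * p.1) x ∈ p.2} := by
  obtain ⟨e, he⟩ := exists_equiv_UW W H hHW u₀ v₁ hv₁ h₁
  have hmc : ∀ X : Submodule K V, X ≤ H → (X.comap H.subtype).map H.subtype = X := by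
    intro X hX
    rw [Submodule.map_comap_subtype]
    exact inf_eq_right.2 hX
  have hcm : ∀ X : Submodule K H, (X.map H.subtype).comap H.subtype = X := fun X =>
    Submodule.comap_map_eq_of_injective H.injective_subtype X
  have hle : ∀ X : Submodule K H, X.map H.subtype ≤ H := fun X => Submodule.map_subtype_le H X
  have e1 : {p : (V ≃ₗ[K] V) × Submodule K V // (p.1 ∈ UW W ∧ IsUnip (u₀ * p.1) ∧
        IsCompl W p.2 ∧ ∀ x ∈ p.2, (u₀ * p.1) x ∈ p.2) ∧ p.2 ≤ H ∧ ∀ x, (u₀ * p.1) x - x ∈ H} ≃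
      {s : {v : V ≃ₗ[K] V // v ∈ UW W ∧ ∀ x, (u₀ * v) x - x ∈ H} × Submodule K H //
        IsUnip (u₀ * s.1.1) ∧ IsCompl W (s.2.map H.subtype) ∧
        ∀ x ∈ s.2.map H.subtype, (u₀ * s.1.1) x ∈ s.2.map H.subtype} :=
    { toFun := fun p => ⟨(⟨p.1.1, p.2.1.1, p.2.2.2⟩, p.1.2.comap H.subtype), p.2.1.2.1, by
          rw [hmc p.1.2 p.2.2.1]; exact p.2.1.2.2.1, by
          rw [hmc p.1.2 p.2.2.1]; exact p.2.1.2.2.2⟩
      invFun := fun s => ⟨(s.1.1.1, s.1.2.map H.subtype), ⟨s.1.1.2.1, s.2.1, s.2.2.1, s.2.2.2⟩,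
        hle _, s.1.1.2.2⟩
      left_inv := fun p => by
        apply Subtype.ext
        apply Prod.ext
        · rfl
        · exact hmc p.1.2 p.2.2.1
      right_inv := fun s => by
        apply Subtype.ext
        apply Prod.ext
        · rfl
        · exact hcm s.1.2 }
  have e3 : {t : {v' : H ≃ₗ[K] H // v' ∈ UW (W.comap H.subtype)} × Submodule K H //
      IsUnip (resH H (u₀ * v₁) h₁ * t.1.1) ∧ IsCompl (W.comap H.subtype) t.2 ∧
      ∀ x ∈ t.2, (resH H (u₀ * v₁) h₁ * t.1.1) x ∈ t.2} ≃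
      {p : (H ≃ₗ[K] H) × Submodule K H // p.1 ∈ UW (W.comap H.subtype) ∧
      IsUnip (resH H (u₀ * v₁) h₁ * p.1) ∧ IsCompl (W.comap H.subtype) p.2 ∧
      ∀ x ∈ p.2, (resH H (u₀ * v₁) h₁ * p.1) x ∈ p.2} :=
    { toFun := fun v => ⟨(v.1.1.1, v.1.2), v.1.1.2, v.2⟩
      invFun := fun s => ⟨(⟨s.1.1, s.2.1⟩, s.1.2), s.2.2⟩
      left_inv := fun v => rfl
      right_inv := fun s => rfl }
  have e2 : {s : {v : V ≃ₗ[K] V // v ∈ UW W ∧ ∀ x, (u₀ * v) x - x ∈ H} × Submodule K H //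
        IsUnip (u₀ * s.1.1) ∧ IsCompl W (s.2.map H.subtype) ∧
        ∀ x ∈ s.2.map H.subtype, (u₀ * s.1.1) x ∈ s.2.map H.subtype} ≃
      {t : {v' : H ≃ₗ[K] H // v' ∈ UW (W.comap H.subtype)} × Submodule K H //
      IsUnip (resH H (u₀ * v₁) h₁ * t.1.1) ∧ IsCompl (W.comap H.subtype) t.2 ∧
      ∀ x ∈ t.2, (resH H (u₀ * v₁) h₁ * t.1.1) x ∈ t.2} :=
    (e.prodCongr (Equiv.refl _)).subtypeEquiv (fun s => by
      refine and_congr (isUnip_iff_of_restrict H (u₀ * s.1.1) s.1.2.2 _ (he s.1)).symm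
        (and_congr (isCompl_map_iff W H hHW s.2) ?_)
      constructor
      · intro h x hx
        obtain ⟨y, hy, hyx⟩ := h x ⟨x, hx, rfl⟩
        have : (resH H (u₀ * v₁) h₁ * (e s.1).1) x = y := by
          apply Subtype.ext
          rw [he s.1]
          exact hyx.symm
        change (resH H (u₀ * v₁) h₁ * (e s.1).1) x ∈ s.2
        rw [this]
        exact hy
      · rintro h _ ⟨x, hx, rfl⟩
        exact ⟨_, h x hx, he s.1 x⟩)
  exact Nat.card_congr ((e1.trans e2).trans e3)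

lemma gammaU_eq_zero {V : Type} [AddCommGroup V] [Module K V] (W H : Submodule K V)
    (hHW : H ⊔ W ≠ ⊤) (u₀ : V ≃ₗ[K] V) : gammaU W u₀ H = 0 := by
  have : IsEmpty {p : (V ≃ₗ[K] V) × Submodule K V // (p.1 ∈ UW W ∧ IsUnip (u₀ * p.1) ∧
        IsCompl W p.2 ∧ ∀ x ∈ p.2, (u₀ * p.1) x ∈ p.2) ∧ p.2 ≤ H ∧
        ∀ x, (u₀ * p.1) x - x ∈ H} := by
    refine ⟨fun p => hHW ?_⟩
    rw [eq_top_iff, ← p.2.1.2.2.1.sup_eq_top, sup_comm]
    exact sup_le_sup_right p.2.2.1 W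
  exact Nat.card_of_isEmpty

lemma gammaU_proper {V : Type} [AddCommGroup V] [Module K V] [FiniteDimensional K V]
    (W : Submodule K V) (hW : W ≠ ⊥) (u₀ v : V ≃ₗ[K] V) (hu : IsUnip (u₀ * v))
    (X : Submodule K V) (hX : IsCompl W X) (hX' : ∀ x ∈ X, (u₀ * v) x ∈ X) :
    X ⊔ LinearMap.range (((u₀ * v : V ≃ₗ[K] V) : V →ₗ[K] V) - LinearMap.id) ≠ ⊤ := by
  intro htop
  obtain ⟨k, hk⟩ := hu
  set N : Module.End K V := ((u₀ * v : V ≃ₗ[K] V) : V →ₗ[K] V) - LinearMap.id with hN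
  have hNX : ∀ x ∈ X, N x ∈ X := by
    intro x hx
    have : N x = (u₀ * v) x - x := rfl
    rw [this]
    exact X.sub_mem (hX' x hx) hx
  have key : ∀ (j : ℕ) (x : V), ∃ y ∈ X, ∃ z, x = y + (N ^ j) z := by
    intro j
    induction j with
    | zero => intro x; exact ⟨0, X.zero_mem, x, by simp⟩
    | succ j ih =>
      intro x
      obtain ⟨y, hy, z, rfl⟩ := ih x
      have hz : z ∈ X ⊔ LinearMap.range N := by rw [htop]; trivial
      obtain ⟨a, ha, b, ⟨c, rfl⟩, rfl⟩ := Submodule.mem_sup.1 hz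
      have hp : ∀ (i : ℕ) (a : V), a ∈ X → (N ^ i) a ∈ X := by
        intro i
        induction i with
        | zero => intro a ha; simpa using ha
        | succ i ih' =>
          intro a ha
          rw [pow_succ, Module.End.mul_apply]
          exact ih' _ (hNX a ha)
      refine ⟨y + (N ^ j) a, X.add_mem hy (hp j a ha), c, ?_⟩
      rw [map_add, pow_succ, Module.End.mul_apply]
      abel
  apply hW
  have hXtop : X = ⊤ := by
    rw [eq_top_iff]
    intro x _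
    obtain ⟨y, hy, z, hz⟩ := key k x
    rw [hk] at hz
    rw [hz]
    simpa using hy
  rw [hXtop] at hX
  exact eq_bot_of_isCompl_top hX

variable [Finite K]

open Classical in
lemma card_pairs_eq {V : Type} [AddCommGroup V] [Module K V] [FiniteDimensional K V]
    (W : Submodule K V) (hW : W ≠ ⊥) (u₀ : V ≃ₗ[K] V) :
    (Nat.card {p : (V ≃ₗ[K] V) × Submodule K V // p.1 ∈ UW W ∧ IsUnip (u₀ * p.1) ∧
        IsCompl W p.2 ∧ ∀ x ∈ p.2, (u₀ * p.1) x ∈ p.2} : ℤ) =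
    -∑ H ∈ Finset.univ.filter (fun H : Submodule K V => H ≠ ⊤),
      mob K (finrank K (V ⧸ H)) * gammaU W u₀ H := by
  have hfin : Finite (V ≃ₗ[K] V) := by
    have : Finite V := Module.finite_of_finite K
    exact Finite.of_injective (fun e : V ≃ₗ[K] V => (e : V → V)) DFunLike.coe_injective
  let _ : Fintype (V ≃ₗ[K] V) := Fintype.ofFinite _
  let Q : (V ≃ₗ[K] V) × Submodule K V → Prop := fun p => p.1 ∈ UW W ∧ IsUnip (u₀ * p.1) ∧
        IsCompl W p.2 ∧ ∀ x ∈ p.2, (u₀ * p.1) x ∈ p.2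
  let R : Submodule K V → (V ≃ₗ[K] V) × Submodule K V → Prop := fun H p =>
    p.2 ≤ H ∧ ∀ x, (u₀ * p.1) x - x ∈ H
  have hcard : ∀ (P : (V ≃ₗ[K] V) × Submodule K V → Prop) [DecidablePred P],
      (Nat.card {p // P p} : ℤ) = ∑ p, if P p then 1 else 0 := by
    intro P _
    rw [Nat.card_eq_fintype_card, Fintype.card_subtype, Finset.sum_boole]
  have hone : ∀ p, Q p → (1 : ℤ) = -∑ H ∈ Finset.univ.filter (fun H : Submodule K V => H ≠ ⊤),
      mob K (finrank K (V ⧸ H)) * (if R H p then 1 else 0) := by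
    intro p hp
    have hJ := gammaU_proper W hW u₀ p.1 hp.2.1 p.2 hp.2.2.1 hp.2.2.2
    have hsum := sum_mob_codim_ge _ hJ
    have hR : ∀ H : Submodule K V, (p.2 ⊔ LinearMap.range
        (((u₀ * p.1 : V ≃ₗ[K] V) : V →ₗ[K] V) - LinearMap.id) ≤ H) ↔ R H p := by
      intro H
      rw [sup_le_iff]
      refine and_congr Iff.rfl ?_
      constructor
      · intro h x
        exact h ⟨x, rfl⟩
      · rintro h _ ⟨x, rfl⟩
        exact h x
    rw [Finset.sum_filter] at hsum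
    have h2 : ∑ H : Submodule K V, mob K (finrank K (V ⧸ H)) * (if R H p then 1 else 0) = 0 := by
      refine Eq.trans ?_ hsum
      refine Finset.sum_congr rfl fun H _ => ?_
      by_cases hRH : R H p
      · rw [if_pos hRH, if_pos ((hR H).2 hRH), mul_one]
      · rw [if_neg hRH, if_neg (fun h => hRH ((hR H).1 h)), mul_zero]
    rw [← Finset.sum_filter_add_sum_filter_not Finset.univ
      (fun H : Submodule K V => H ≠ ⊤)] at h2
    have h3 : Finset.univ.filter (fun H : Submodule K V => ¬ H ≠ ⊤) = {⊤} := by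
      ext H; simp
    rw [h3, Finset.sum_singleton] at h2
    have h4 : R ⊤ p := ⟨le_top, fun x => trivial⟩
    have h5 : finrank K (V ⧸ (⊤ : Submodule K V)) = 0 := by
      exact finrank_zero_of_subsingleton
    rw [if_pos h4, h5] at h2
    simp only [mob, pow_zero, Nat.choose_zero_succ, mul_one] at h2
    simp only [mob]
    linarith
  have h1 : (Nat.card {p // Q p} : ℤ) = ∑ p, if Q p then 1 else 0 := hcard Q
  have h2 : ∀ H, (gammaU W u₀ H : ℤ) = ∑ p, if Q p ∧ R H p then 1 else 0 := fun H =>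
    hcard (fun p => Q p ∧ R H p)
  have h3 : ∑ p, (if Q p then (1 : ℤ) else 0) = ∑ p, -∑ H ∈ Finset.univ.filter
      (fun H : Submodule K V => H ≠ ⊤),
      mob K (finrank K (V ⧸ H)) * (if Q p ∧ R H p then 1 else 0) := by
    refine Finset.sum_congr rfl fun p _ => ?_
    by_cases hp : Q p
    · rw [if_pos hp]
      refine (hone p hp).trans ?_
      congr 1
      refine Finset.sum_congr rfl fun H _ => ?_
      by_cases hRp : R H p
      · rw [if_pos hRp, if_pos ⟨hp, hRp⟩]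
      · rw [if_neg hRp, if_neg (fun h => hRp h.2)]
    · rw [if_neg hp]
      simp [hp]
  rw [show (Nat.card {p : (V ≃ₗ[K] V) × Submodule K V // p.1 ∈ UW W ∧ IsUnip (u₀ * p.1) ∧
        IsCompl W p.2 ∧ ∀ x ∈ p.2, (u₀ * p.1) x ∈ p.2} : ℤ) = (Nat.card {p // Q p} : ℤ) from rfl,
    h1, h3, Finset.sum_neg_distrib, Finset.sum_comm]
  congr 1
  refine Finset.sum_congr rfl fun H _ => ?_
  rw [h2 H, Finset.mul_sum]

theorem card_unip_eq_aux (n : ℕ) : ∀ (V : Type) [AddCommGroup V] [Module K V]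
    [FiniteDimensional K V] (_ : finrank K V = n) (W : Submodule K V) (u₀ : V ≃ₗ[K] V),
    Nat.card {v : V ≃ₗ[K] V // v ∈ UW W ∧ IsUnip (u₀ * v)} =
      Nat.card {p : (V ≃ₗ[K] V) × Submodule K V // p.1 ∈ UW W ∧ IsUnip (u₀ * p.1) ∧
        IsCompl W p.2 ∧ ∀ x ∈ p.2, (u₀ * p.1) x ∈ p.2} := by
  classical
  induction n using Nat.strong_induction_on with
  | _ n ih =>
  intro V _ _ _ hn W u₀
  by_cases hW : W = ⊥
  · subst hW
    refine Nat.card_congr
      { toFun := fun v => ⟨(v.1, ⊤), v.2.1, v.2.2, isCompl_bot_top, fun _ _ => trivial⟩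
        invFun := fun p => ⟨p.1.1, p.2.1, p.2.2.1⟩
        left_inv := fun v => rfl
        right_inv := fun p => ?_ }
    apply Subtype.ext
    apply Prod.ext
    · rfl
    · exact (eq_top_of_bot_isCompl p.2.2.2.1).symm
  by_cases hW' : W = ⊤
  · subst hW'
    refine Nat.card_congr
      { toFun := fun v => ⟨(v.1, ⊥), v.2.1, v.2.2, isCompl_top_bot, fun x hx => by
          rw [Submodule.mem_bot] at hx ⊢
          rw [hx, map_zero]⟩
        invFun := fun p => ⟨p.1.1, p.2.1, p.2.2.1⟩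
        left_inv := fun v => rfl
        right_inv := fun p => ?_ }
    apply Subtype.ext
    apply Prod.ext
    · rfl
    · exact (eq_bot_of_top_isCompl p.2.2.2.1).symm
  have hnt : Nontrivial V := by
    obtain ⟨x, hx, hx0⟩ := Submodule.exists_mem_ne_zero_of_ne_bot hW
    exact ⟨x, 0, hx0⟩
  have hphi : Nat.card {v : V ≃ₗ[K] V // v ∈ UW W ∧ IsUnip (u₀ * v)} = phiU W u₀ ⊤ := by
    refine Nat.card_congr (Equiv.subtypeEquivRight fun v => ?_)
    constructor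
    · rintro ⟨h1, h2⟩
      exact ⟨h1, h2, fun _ => trivial⟩
    · rintro ⟨h1, h2, _⟩
      exact ⟨h1, h2⟩
  have hA := phiU_top_eq W u₀
  have hB := card_pairs_eq W hW u₀
  have hC := sum_phiU_eq_zero W hW hW' u₀
  rw [← hphi] at hA
  have hgoal : (Nat.card {v : V ≃ₗ[K] V // v ∈ UW W ∧ IsUnip (u₀ * v)} : ℤ) =
      (Nat.card {p : (V ≃ₗ[K] V) × Submodule K V // p.1 ∈ UW W ∧ IsUnip (u₀ * p.1) ∧
        IsCompl W p.2 ∧ ∀ x ∈ p.2, (u₀ * p.1) x ∈ p.2} : ℤ) := by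
    rw [hA, hB]
    congr 1
    rw [← sub_eq_zero, ← Finset.sum_sub_distrib]
    rw [Finset.sum_filter] at hC ⊢
    refine Eq.trans ?_ hC
    refine Finset.sum_congr rfl fun H _ => ?_
    by_cases hH : H = ⊤
    · subst hH
      simp
    · rw [if_pos hH]
      by_cases hHW : H ⊔ W = ⊤
      · rw [if_neg (not_not.2 hHW), ← mul_sub]
        have : (phiU W u₀ H : ℤ) = gammaU W u₀ H := by
          by_cases hv : ∃ v₁ : V ≃ₗ[K] V, v₁ ∈ UW W ∧ ∀ x, (u₀ * v₁) x - x ∈ H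
          · obtain ⟨v₁, hv₁, h₁⟩ := hv
            rw [phiU_eq_card W H hHW u₀ v₁ hv₁ h₁, gammaU_eq_card W H hHW u₀ v₁ hv₁ h₁]
            rw [ih (finrank K H) (by rw [← hn]; exact Submodule.finrank_lt hH)
              H rfl (W.comap H.subtype) (resH H (u₀ * v₁) h₁)]
          · have h1 : phiU W u₀ H = 0 := by
              have : IsEmpty {v : V ≃ₗ[K] V // v ∈ UW W ∧ IsUnip (u₀ * v) ∧
                  ∀ x, (u₀ * v) x - x ∈ H} := ⟨fun v => hv ⟨v.1, v.2.1, v.2.2.2⟩⟩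
              exact Nat.card_of_isEmpty
            have h2 : gammaU W u₀ H = 0 := by
              have : IsEmpty {p : (V ≃ₗ[K] V) × Submodule K V // (p.1 ∈ UW W ∧
                  IsUnip (u₀ * p.1) ∧ IsCompl W p.2 ∧ ∀ x ∈ p.2, (u₀ * p.1) x ∈ p.2) ∧
                  p.2 ≤ H ∧ ∀ x, (u₀ * p.1) x - x ∈ H} :=
                ⟨fun p => hv ⟨p.1.1, p.2.1.1, p.2.2.2⟩⟩
              exact Nat.card_of_isEmpty
            rw [h1, h2]
        rw [this, sub_self, mul_zero]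
      · rw [if_pos hHW, gammaU_eq_zero W H hHW u₀]
        simp
  exact_mod_cast hgoal

/-- The number of unipotent `u` in `u₀ U_W` is the number of pairs `(u, X)` with `u` as before and
`X` a complement of `W` stable under `u`. -/
theorem card_unip_eq {V : Type} [AddCommGroup V] [Module K V] [FiniteDimensional K V]
    (W : Submodule K V) (u₀ : V ≃ₗ[K] V) :
    Nat.card {v : V ≃ₗ[K] V // v ∈ UW W ∧ IsUnip (u₀ * v)} =
      Nat.card {p : (V ≃ₗ[K] V) × Submodule K V // p.1 ∈ UW W ∧ IsUnip (u₀ * p.1) ∧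
        IsCompl W p.2 ∧ ∀ x ∈ p.2, (u₀ * p.1) x ∈ p.2} :=
  card_unip_eq_aux _ V rfl W u₀

end Pool.Agent.Lib.MP_02a407_al
end

section

/-!
# The operator `Z`: translation by all unipotent elements
-/

namespace Pool.Agent.Lib.MP_02a407_al

open Module

set_option linter.unusedSectionVars false

variable {K : Type} [Field K] [Finite K]

open Classical in
/-- The unipotent automorphisms of `M`. -/
noncomputable def unips {M : Type} [AddCommGroup M] [Module K M] [FiniteDimensional K M] :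
    Finset (M ≃ₗ[K] M) := Finset.univ.filter (fun u => IsUnip u)

lemma mem_unips {M : Type} [AddCommGroup M] [Module K M] [FiniteDimensional K M]
    {u : M ≃ₗ[K] M} : u ∈ unips ↔ IsUnip u := by
  classical
  rw [unips, Finset.mem_filter]
  simp

namespace ZAux

section tr

variable {M N : Type} [AddCommGroup M] [Module K M] [AddCommGroup N] [Module K N]

lemma pow_intertwine (e : M →ₗ[K] N) {a : End K M} {b : End K N} (h : ∀ x, e (a x) = b (e x))
    (n : ℕ) (x : M) : e ((a ^ n) x) = (b ^ n) (e x) := by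
  induction n generalizing x with
  | zero => simp
  | succ n ih => rw [pow_succ, pow_succ, Module.End.mul_apply, Module.End.mul_apply, ih, h]

/-- transport of automorphisms -/
def autTr (e : M ≃ₗ[K] N) : (M ≃ₗ[K] M) ≃ (N ≃ₗ[K] N) where
  toFun u := (e.symm.trans u).trans e
  invFun u := (e.trans u).trans e.symm
  left_inv u := by ext x; simp
  right_inv u := by ext x; simp

lemma autTr_apply (e : M ≃ₗ[K] N) (u : M ≃ₗ[K] M) (x : M) : autTr e u (e x) = e (u x) := by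
  simp [autTr]

lemma isUnip_of_intertwine (e : M ≃ₗ[K] N) {u : M ≃ₗ[K] M} {v : N ≃ₗ[K] N}
    (h : ∀ x, e (u x) = v (e x)) (hu : IsUnip u) : IsUnip v := by
  obtain ⟨n, hn⟩ := hu
  refine ⟨n, ?_⟩
  ext y
  obtain ⟨x, rfl⟩ := e.surjective y
  have h1 := pow_intertwine (K := K) (e : M →ₗ[K] N)
    (a := ((u : M →ₗ[K] M) - LinearMap.id : Module.End K M))
    (b := ((v : N →ₗ[K] N) - LinearMap.id : Module.End K N)) (fun x => by
      simp [h]) n x
  rw [hn] at h1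
  simpa using h1.symm

lemma isUnip_autTr (e : M ≃ₗ[K] N) (u : M ≃ₗ[K] M) : IsUnip (autTr e u) ↔ IsUnip u := by
  constructor
  · intro h
    refine isUnip_of_intertwine e.symm (u := autTr e u) (fun x => ?_) h
    simp [autTr]
  · intro h
    exact isUnip_of_intertwine e (fun x => (autTr_apply e u x).symm) h

lemma isUnip_comm {a b : M ≃ₗ[K] M} (h : IsUnip (a * b)) : IsUnip (b * a) :=
  isUnip_of_intertwine b (fun x => by simp [LinearEquiv.mul_apply]) h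

end tr

end ZAux

variable {A : Type} [CommRing A] [Algebra ℚ A]

/-- `(Z φ)(g) = ∑_u φ(g u)`, the sum over all unipotent elements `u`. -/
noncomputable def Zop (φ : Cls K → A) : Cls K → A := fun C =>
  ∑ u ∈ unips (K := K) (M := cM (C : ConjClasses (GLInf K))),
    φ (cls (cA (C : ConjClasses (GLInf K)) * u))

theorem Zop_cls (φ : Cls K → A) {M : Type} [AddCommGroup M] [Module K M] [FiniteDimensional K M]
    (g : M ≃ₗ[K] M) : Zop φ (cls g) = ∑ u ∈ unips (K := K) (M := M), φ (cls (g * u)) := by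
  obtain ⟨e, he⟩ := cls_iso (cls_cA (cls g))
  rw [Zop]
  refine Finset.sum_equiv (ZAux.autTr e) (fun u => ?_) (fun u _ => ?_)
  · rw [mem_unips, mem_unips, ZAux.isUnip_autTr]
  · congr 1
    refine cls_congr e (fun x => ?_)
    rw [LinearEquiv.mul_apply, LinearEquiv.mul_apply, he, ZAux.autTr_apply]

/-- The sum over the mixed double coset: `(Δ φ)(A, S) = ∑_{X, Y} φ([[A + X Y, X S], [Y, S]])`. -/
noncomputable def Del (φ : Cls K → A) : Cls K → Cls K → A := fun C D =>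
  ∑ X : cM (D : ConjClasses (GLInf K)) →ₗ[K] cM (C : ConjClasses (GLInf K)),
    ∑ Y : cM (C : ConjClasses (GLInf K)) →ₗ[K] cM (D : ConjClasses (GLInf K)),
      φ (cls (pairMap (cA (C : ConjClasses (GLInf K))) (cA (D : ConjClasses (GLInf K))) X Y))

theorem Del_cls (φ : Cls K → A) {M₁ M₂ : Type}
    [AddCommGroup M₁] [Module K M₁] [AddCommGroup M₂] [Module K M₂]
    [FiniteDimensional K M₁] [FiniteDimensional K M₂] (g : M₁ ≃ₗ[K] M₁) (h : M₂ ≃ₗ[K] M₂) :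
    Del φ (cls g) (cls h) =
      ∑ X : M₂ →ₗ[K] M₁, ∑ Y : M₁ →ₗ[K] M₂, φ (cls (pairMap g h X Y)) := by
  obtain ⟨e, he⟩ := cls_iso (cls_cA (cls g))
  obtain ⟨f, hf⟩ := cls_iso (cls_cA (cls h))
  rw [Del]
  refine Fintype.sum_equiv (LinearEquiv.arrowCongr f e).toEquiv _ _ (fun X => ?_)
  refine Fintype.sum_equiv (LinearEquiv.arrowCongr e f).toEquiv _ _ (fun Y => ?_)
  congr 1
  refine cls_congr (e.prodCongr f) (fun p => ?_)
  simp only [LinearEquiv.prodCongr_apply, pairMap_apply, LinearEquiv.coe_toEquiv,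
    LinearEquiv.arrowCongr_apply, LinearEquiv.symm_apply_apply, map_add, he, hf]
  ext
  · simp [← hf]
  · simp

namespace ZAux

section

variable {M₁ M₂ : Type} [AddCommGroup M₁] [Module K M₁] [AddCommGroup M₂] [Module K M₂]

/-- the unipotent `(x, y) ↦ (x + Z y, y)` -/
def u1 (Z : M₂ →ₗ[K] M₁) : (M₁ × M₂) ≃ₗ[K] (M₁ × M₂) :=
  utAut (LinearEquiv.refl K M₁) (LinearEquiv.refl K M₂) Z

@[simp] lemma u1_apply (Z : M₂ →ₗ[K] M₁) (p : M₁ × M₂) : u1 Z p = (p.1 + Z p.2, p.2) := rfl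

lemma u1_add (Z Z' : M₂ →ₗ[K] M₁) : u1 (Z + Z') = u1 Z * u1 Z' := by
  ext p
  · simp only [LinearEquiv.mul_apply, u1_apply, LinearMap.add_apply]; abel
  · simp [LinearEquiv.mul_apply]

lemma u1_zero : u1 (0 : M₂ →ₗ[K] M₁) = 1 := by
  ext p <;> simp

lemma u1_inv (Z : M₂ →ₗ[K] M₁) : (u1 Z)⁻¹ = u1 (-Z) := by
  rw [inv_eq_iff_mul_eq_one, ← u1_add, add_neg_cancel, u1_zero]

lemma u1_inj {Z Z' : M₂ →ₗ[K] M₁} (h : u1 Z = u1 Z') : Z = Z' := by
  ext y
  have := congrArg Prod.fst (LinearEquiv.congr_fun h (0, y))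
  simpa using this

lemma prodAut_mul_u1 (g : M₁ ≃ₗ[K] M₁) (h : M₂ ≃ₗ[K] M₂) (Z : M₂ →ₗ[K] M₁) :
    prodAut g h * u1 Z = u1 (g.toLinearMap ∘ₗ Z ∘ₗ h.symm.toLinearMap) * prodAut g h := by
  ext p
  · simp [LinearEquiv.mul_apply]
  · simp [LinearEquiv.mul_apply]

lemma utAut_eq (g : M₁ ≃ₗ[K] M₁) (h : M₂ ≃ₗ[K] M₂) (Z : M₂ →ₗ[K] M₁) :
    utAut g h (g.toLinearMap ∘ₗ Z) = prodAut g h * u1 Z := by
  ext p
  · simp [LinearEquiv.mul_apply]
  · simp [LinearEquiv.mul_apply]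

variable (K M₁ M₂) in
/-- the first factor -/
def W0 : Submodule K (M₁ × M₂) := LinearMap.ker (LinearMap.snd K M₁ M₂)

lemma mem_W0 {x : M₁ × M₂} : x ∈ W0 K M₁ M₂ ↔ x.2 = 0 := Iff.rfl

lemma u1_mem_UW (Z : M₂ →ₗ[K] M₁) : u1 Z ∈ UW (W0 K M₁ M₂) := by
  refine ⟨fun x hx => ?_, fun x => ?_⟩
  · rw [mem_W0] at hx
    rw [u1_apply, hx, map_zero, add_zero]
    exact Prod.ext rfl hx.symm
  · rw [mem_W0, u1_apply]
    simp

lemma exists_u1 {v : (M₁ × M₂) ≃ₗ[K] (M₁ × M₂)} (hv : v ∈ UW (W0 K M₁ M₂)) :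
    ∃ Z : M₂ →ₗ[K] M₁, u1 Z = v := by
  refine ⟨LinearMap.fst K M₁ M₂ ∘ₗ v.toLinearMap ∘ₗ LinearMap.inr K M₁ M₂, ?_⟩
  apply LinearEquiv.ext
  rintro ⟨x, y⟩
  have h2 : ((x, y) : M₁ × M₂) = (x, 0) + (0, y) := by simp
  have h3 : v (x, 0) = (x, 0) := hv.1 _ rfl
  have h4 : (v (0, y)).2 = y := by
    have := hv.2 (0, y)
    rw [mem_W0, Prod.snd_sub, sub_eq_zero] at this
    exact this
  conv_rhs => rw [h2, map_add, h3]
  ext
  · simp
  · simp [h4]

/-- the complement `{(Z y, y)}` -/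
def gr (Z : M₂ →ₗ[K] M₁) : Submodule K (M₁ × M₂) := LinearMap.range (Z.prod LinearMap.id)

lemma mem_gr {Z : M₂ →ₗ[K] M₁} {p : M₁ × M₂} : p ∈ gr Z ↔ p.1 = Z p.2 := by
  constructor
  · rintro ⟨y, rfl⟩
    rfl
  · intro h
    exact ⟨p.2, Prod.ext h.symm rfl⟩

lemma gr_inj {Z Z' : M₂ →ₗ[K] M₁} (h : gr Z = gr Z') : Z = Z' := by
  ext y
  have h1 : (Z y, y) ∈ gr Z := mem_gr.2 rfl
  rw [h] at h1
  exact mem_gr.1 h1

lemma isCompl_gr (Z : M₂ →ₗ[K] M₁) : IsCompl (W0 K M₁ M₂) (gr Z) := by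
  rw [isCompl_iff, disjoint_iff, codisjoint_iff]
  constructor
  · rw [eq_bot_iff]
    rintro ⟨x, y⟩ ⟨h1, h2⟩
    have h1' : y = 0 := h1
    subst h1'
    have h2' := mem_gr.1 h2
    simp only [map_zero] at h2'
    subst h2'
    rfl
  · rw [eq_top_iff]
    rintro ⟨x, y⟩ -
    rw [Submodule.mem_sup]
    exact ⟨(x - Z y, 0), rfl, (Z y, y), mem_gr.2 rfl, by simp⟩

lemma exists_gr {X : Submodule K (M₁ × M₂)} (hX : IsCompl (W0 K M₁ M₂) X) :
    ∃ Z : M₂ →ₗ[K] M₁, gr Z = X := by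
  let f : X →ₗ[K] M₂ := LinearMap.snd K M₁ M₂ ∘ₗ X.subtype
  have hf : Function.Bijective f := by
    constructor
    · rw [← LinearMap.ker_eq_bot, LinearMap.ker_eq_bot']
      intro x hx
      have h1 : (x : M₁ × M₂) ∈ W0 K M₁ M₂ ⊓ X := ⟨hx, x.2⟩
      rw [hX.inf_eq_bot, Submodule.mem_bot] at h1
      exact Subtype.ext h1
    · intro y
      have h1 : ((0, y) : M₁ × M₂) ∈ W0 K M₁ M₂ ⊔ X := by rw [hX.sup_eq_top]; trivial
      obtain ⟨a, ha, b, hb, hab⟩ := Submodule.mem_sup.1 h1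
      refine ⟨⟨b, hb⟩, ?_⟩
      have h2 := congrArg Prod.snd hab
      rw [mem_W0] at ha
      rw [Prod.snd_add, ha, zero_add] at h2
      exact h2
  let e := LinearEquiv.ofBijective f hf
  refine ⟨LinearMap.fst K M₁ M₂ ∘ₗ X.subtype ∘ₗ e.symm.toLinearMap, ?_⟩
  have he : ∀ y, ((e.symm y : X) : M₁ × M₂).2 = y := fun y => e.apply_symm_apply y
  ext p
  rw [mem_gr]
  constructor
  · intro h
    have h1 : p = ((e.symm p.2 : X) : M₁ × M₂) := Prod.ext h (he _).symm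
    rw [h1]
    exact (e.symm p.2).2
  · intro h
    have h1 : e ⟨p, h⟩ = p.2 := rfl
    have h2 : e.symm p.2 = ⟨p, h⟩ := by rw [← h1, e.symm_apply_apply]
    simp only [LinearMap.comp_apply, LinearEquiv.coe_coe, h2]
    rfl

/-- `u` stabilizes the second factor. -/
def St (u : (M₁ × M₂) ≃ₗ[K] (M₁ × M₂)) : Prop := ∀ y : M₂, (u (0, y)).1 = 0

lemma stab_gr_iff (u : (M₁ × M₂) ≃ₗ[K] (M₁ × M₂)) (Z : M₂ →ₗ[K] M₁) :
    (∀ x ∈ gr Z, u x ∈ gr Z) ↔ St ((u1 Z)⁻¹ * u * u1 Z) := by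
  have h0 : ∀ y : M₂, ((((u1 Z)⁻¹ * u * u1 Z) : (M₁ × M₂) ≃ₗ[K] (M₁ × M₂)) (0, y)).1 =
      (u (Z y, y)).1 - Z (u (Z y, y)).2 := by
    intro y
    rw [u1_inv, LinearEquiv.mul_apply, LinearEquiv.mul_apply, u1_apply, u1_apply]
    simp [sub_eq_add_neg]
  constructor
  · intro h y
    rw [h0, sub_eq_zero]
    exact mem_gr.1 (h _ (mem_gr.2 rfl))
  · intro h x hx
    have h1 := h x.2
    rw [h0, sub_eq_zero, ← mem_gr.1 hx] at h1
    exact mem_gr.2 h1

/-- the automorphism `(x, y) ↦ (a x, Y x + b y)` is unipotent iff `a` and `b` are. -/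
lemma isUnip_low (a : M₁ ≃ₗ[K] M₁) (b : M₂ ≃ₗ[K] M₂) (Y : M₁ →ₗ[K] M₂) :
    IsUnip (pairMap a b 0 Y) ↔ IsUnip a ∧ IsUnip b := by
  set N : Module.End K (M₁ × M₂) :=
    ((pairMap a b 0 Y : (M₁ × M₂) ≃ₗ[K] (M₁ × M₂)) : (M₁ × M₂) →ₗ[K] (M₁ × M₂)) - LinearMap.id
    with hN
  set Na : Module.End K M₁ := (a : M₁ →ₗ[K] M₁) - LinearMap.id with hNa
  set Nb : Module.End K M₂ := (b : M₂ →ₗ[K] M₂) - LinearMap.id with hNb
  have h1 : ∀ (n : ℕ) (p : M₁ × M₂), ((N ^ n) p).1 = (Na ^ n) p.1 := fun n p =>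
    pow_intertwine (LinearMap.fst K M₁ M₂) (a := N) (b := Na) (fun x => by
      simp [hN, hNa]) n p
  have h2 : ∀ (n : ℕ) (y : M₂), (N ^ n) (0, y) = (0, (Nb ^ n) y) := fun n y =>
    (pow_intertwine (LinearMap.inr K M₁ M₂) (a := Nb) (b := N) (fun x => by
      simp [hN, hNb]) n y).symm
  constructor
  · rintro ⟨n, hn⟩
    refine ⟨⟨n, ?_⟩, ⟨n, ?_⟩⟩
    · ext x
      have := h1 n (x, 0)
      rw [← hN] at hn
      rw [hn] at this
      exact this.symm
    · ext y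
      have := h2 n y
      rw [← hN] at hn
      rw [hn] at this
      exact (congrArg Prod.snd this).symm
  · rintro ⟨⟨n, hn⟩, ⟨m, hm⟩⟩
    refine ⟨m + n, ?_⟩
    rw [← hN]
    rw [← hNa] at hn
    rw [← hNb] at hm
    apply LinearMap.ext
    intro p
    have h3 : ((N ^ n) p).1 = 0 := by rw [h1, hn]; rfl
    have h4 : (N ^ n) p = (0, ((N ^ n) p).2) := Prod.ext h3 rfl
    rw [pow_add, Module.End.mul_apply, h4, h2, hm]
    rfl

lemma low_inj {a a' : M₁ ≃ₗ[K] M₁} {b b' : M₂ ≃ₗ[K] M₂} {Y Y' : M₁ →ₗ[K] M₂}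
    (h : pairMap a b 0 Y = pairMap a' b' 0 Y') : a = a' ∧ b = b' ∧ Y = Y' := by
  have h1 : ∀ p, pairMap a b 0 Y p = pairMap a' b' 0 Y' p := fun p => by rw [h]
  refine ⟨?_, ?_, ?_⟩
  · ext x
    simpa using congrArg Prod.fst (h1 (x, 0))
  · ext y
    simpa using congrArg Prod.snd (h1 (0, y))
  · ext x
    simpa using congrArg Prod.snd (h1 (x, 0))

lemma st_low (a : M₁ ≃ₗ[K] M₁) (b : M₂ ≃ₗ[K] M₂) (Y : M₁ →ₗ[K] M₂) :
    St (pairMap a b 0 Y) := fun y => by simp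

lemma exists_low [FiniteDimensional K M₁] [FiniteDimensional K M₂]
    {p : (M₁ × M₂) ≃ₗ[K] (M₁ × M₂)} (hp : St p) :
    ∃ (a : M₁ ≃ₗ[K] M₁) (b : M₂ ≃ₗ[K] M₂) (Y : M₁ →ₗ[K] M₂), pairMap a b 0 Y = p := by
  let f : M₁ →ₗ[K] M₁ := LinearMap.fst K M₁ M₂ ∘ₗ p.toLinearMap ∘ₗ LinearMap.inl K M₁ M₂
  let s : M₂ →ₗ[K] M₂ := LinearMap.snd K M₁ M₂ ∘ₗ p.toLinearMap ∘ₗ LinearMap.inr K M₁ M₂
  let Y : M₁ →ₗ[K] M₂ := LinearMap.snd K M₁ M₂ ∘ₗ p.toLinearMap ∘ₗ LinearMap.inl K M₁ M₂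
  have h1 : ∀ x, p (x, 0) = (f x, Y x) := fun x => rfl
  have h2 : ∀ y, p (0, y) = (0, s y) := fun y => Prod.ext (hp y) rfl
  have h3 : ∀ x y, p (x, y) = (f x, Y x + s y) := by
    intro x y
    have h2' : ((x, y) : M₁ × M₂) = (x, 0) + (0, y) := by simp
    rw [h2', map_add, h1, h2]
    simp
  have hs : Function.Injective s := by
    rw [← LinearMap.ker_eq_bot, LinearMap.ker_eq_bot']
    intro y hy
    have h4 := h2 y
    rw [hy] at h4
    have h5 : ((0, y) : M₁ × M₂) = 0 := by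
      apply p.injective
      rw [h4, map_zero]
      rfl
    exact congrArg Prod.snd h5
  have hf : Function.Surjective f := by
    intro x
    obtain ⟨⟨x', y'⟩, h⟩ := p.surjective (x, 0)
    rw [h3] at h
    exact ⟨x', congrArg Prod.fst h⟩
  have hf' : Function.Injective f := LinearMap.injective_iff_surjective.2 hf
  refine ⟨LinearEquiv.ofBijective f ⟨hf', hf⟩, LinearEquiv.ofBijective s
    ⟨hs, LinearMap.injective_iff_surjective.1 hs⟩, Y, ?_⟩
  apply LinearEquiv.ext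
  rintro ⟨x, y⟩
  rw [h3, pairMap_apply]
  ext
  · simp
  · simp

lemma u1_mul_prod_mul_low (g : M₁ ≃ₗ[K] M₁) (h : M₂ ≃ₗ[K] M₂) (a : M₁ ≃ₗ[K] M₁)
    (b : M₂ ≃ₗ[K] M₂) (X : M₂ →ₗ[K] M₁) (Y : M₁ →ₗ[K] M₂) :
    u1 X * prodAut g h * pairMap a b 0 Y = pairMap (g * a) (h * b) X (h.toLinearMap ∘ₗ Y) := by
  apply LinearEquiv.ext
  rintro ⟨x, y⟩
  rw [LinearEquiv.mul_apply, LinearEquiv.mul_apply, pairMap_apply, pairMap_apply, prodAut_apply,
    u1_apply]
  ext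
  · simp [LinearEquiv.mul_apply]
  · simp [LinearEquiv.mul_apply]

end

section main

variable {M₁ M₂ : Type} [AddCommGroup M₁] [Module K M₁] [AddCommGroup M₂] [Module K M₂]
  [FiniteDimensional K M₁] [FiniteDimensional K M₂]

open Classical in
lemma card_Z (u₀ : (M₁ × M₂) ≃ₗ[K] (M₁ × M₂)) :
    (Finset.univ.filter (fun Z : M₂ →ₗ[K] M₁ => IsUnip (u₀ * u1 Z))).card =
    (Finset.univ.filter (fun p : (M₂ →ₗ[K] M₁) × (M₂ →ₗ[K] M₁) =>
      IsUnip (u₀ * u1 p.1) ∧ St ((u1 p.2)⁻¹ * (u₀ * u1 p.1) * u1 p.2))).card := by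
  have h1 : Nat.card {Z : M₂ →ₗ[K] M₁ // IsUnip (u₀ * u1 Z)} =
      Nat.card {v : (M₁ × M₂) ≃ₗ[K] (M₁ × M₂) // v ∈ UW (W0 K M₁ M₂) ∧ IsUnip (u₀ * v)} := by
    refine Nat.card_congr (Equiv.ofBijective (fun Z => ⟨u1 Z.1, u1_mem_UW _, Z.2⟩) ⟨?_, ?_⟩)
    · intro Z Z' h
      exact Subtype.ext (u1_inj (congrArg Subtype.val h))
    · rintro ⟨v, hv, hv'⟩
      obtain ⟨Z, rfl⟩ := exists_u1 hv
      exact ⟨⟨Z, hv'⟩, rfl⟩
  have h2 : Nat.card {p : (M₂ →ₗ[K] M₁) × (M₂ →ₗ[K] M₁) //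
      IsUnip (u₀ * u1 p.1) ∧ St ((u1 p.2)⁻¹ * (u₀ * u1 p.1) * u1 p.2)} =
      Nat.card {p : ((M₁ × M₂) ≃ₗ[K] (M₁ × M₂)) × Submodule K (M₁ × M₂) //
        p.1 ∈ UW (W0 K M₁ M₂) ∧ IsUnip (u₀ * p.1) ∧ IsCompl (W0 K M₁ M₂) p.2 ∧
        ∀ x ∈ p.2, (u₀ * p.1) x ∈ p.2} := by
    refine Nat.card_congr (Equiv.ofBijective (fun p => ⟨(u1 p.1.1, gr p.1.2), u1_mem_UW _, p.2.1,
      isCompl_gr _, (stab_gr_iff _ _).2 p.2.2⟩) ⟨?_, ?_⟩)
    · rintro ⟨⟨Z, Z'⟩, hp⟩ ⟨⟨T, T'⟩, hq⟩ h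
      have h3 := congrArg Subtype.val h
      have h4 : Z = T := u1_inj (congrArg Prod.fst h3)
      have h5 : Z' = T' := gr_inj (congrArg Prod.snd h3)
      subst h4
      subst h5
      rfl
    · rintro ⟨⟨v, X⟩, hv, hv', hX, hX'⟩
      obtain ⟨Z, rfl⟩ := exists_u1 hv
      obtain ⟨Z', rfl⟩ := exists_gr hX
      exact ⟨⟨(Z, Z'), hv', (stab_gr_iff _ _).1 hX'⟩, rfl⟩
  rw [← Fintype.card_subtype, ← Fintype.card_subtype, ← Nat.card_eq_fintype_card,
    ← Nat.card_eq_fintype_card, h1, h2, card_unip_eq]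

open Classical in
lemma sum_low {B : Type} [AddCommMonoid B] (F : ((M₁ × M₂) ≃ₗ[K] (M₁ × M₂)) → B) :
    (∑ u, if IsUnip u ∧ St u then F u else 0) =
      ∑ a ∈ unips (K := K) (M := M₁), ∑ b ∈ unips (K := K) (M := M₂),
        ∑ Y : M₁ →ₗ[K] M₂, F (pairMap a b 0 Y) := by
  rw [← Finset.sum_filter]
  have h1 : ∑ a ∈ unips (K := K) (M := M₁), ∑ b ∈ unips (K := K) (M := M₂),
        ∑ Y : M₁ →ₗ[K] M₂, F (pairMap a b 0 Y) =
      ∑ t ∈ (unips (K := K) (M := M₁) ×ˢ (unips (K := K) (M := M₂) ×ˢ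
        (Finset.univ : Finset (M₁ →ₗ[K] M₂)))), F (pairMap t.1 t.2.1 0 t.2.2) := by
    rw [Finset.sum_product]
    refine Finset.sum_congr rfl fun a _ => ?_
    rw [Finset.sum_product]
  rw [h1]
  symm
  refine Finset.sum_bij (fun t _ => pairMap t.1 t.2.1 0 t.2.2) ?_ ?_ ?_ ?_
  · rintro ⟨a, b, Y⟩ ht
    rw [Finset.mem_product, Finset.mem_product, mem_unips, mem_unips] at ht
    rw [Finset.mem_filter]
    exact ⟨Finset.mem_univ _, (isUnip_low a b Y).2 ⟨ht.1, ht.2.1⟩, st_low a b Y⟩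
  · rintro ⟨a, b, Y⟩ _ ⟨a', b', Y'⟩ _ h
    obtain ⟨rfl, rfl, rfl⟩ := low_inj h
    rfl
  · intro u hu
    rw [Finset.mem_filter] at hu
    obtain ⟨a, b, Y, rfl⟩ := exists_low hu.2.2
    have h2 := (isUnip_low a b Y).1 hu.2.1
    refine ⟨(a, b, Y), ?_, rfl⟩
    rw [Finset.mem_product, Finset.mem_product, mem_unips, mem_unips]
    exact ⟨h2.1, h2.2, Finset.mem_univ _⟩
  · intro t _
    rfl

open Classical in
/-- The main computation. -/
lemma sum_main {B : Type} [AddCommMonoid B] (f : ((M₁ × M₂) ≃ₗ[K] (M₁ × M₂)) → B)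
    (hf : ∀ x y, f (x * y) = f (y * x)) (g : M₁ ≃ₗ[K] M₁) (h : M₂ ≃ₗ[K] M₂) :
    (∑ Z : M₂ →ₗ[K] M₁, ∑ w, if IsUnip w then f (prodAut g h * u1 Z * w) else 0) =
      Fintype.card (M₂ →ₗ[K] M₁) • ∑ Z : M₂ →ₗ[K] M₁,
        ∑ u, if IsUnip u ∧ St u then f (u1 Z * prodAut g h * u) else 0 := by
  set l : (M₁ × M₂) ≃ₗ[K] (M₁ × M₂) := prodAut g h with hl
  calc
    _ = ∑ Z : M₂ →ₗ[K] M₁, ∑ k, if IsUnip ((u1 Z)⁻¹ * (l⁻¹ * k)) then f k else 0 := by
        refine Finset.sum_congr rfl fun Z _ => ?_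
        refine Fintype.sum_equiv (Equiv.mulLeft (l * u1 Z)) _ _ (fun w => ?_)
        rw [Equiv.coe_mulLeft]
        have h1 : (u1 Z)⁻¹ * (l⁻¹ * (l * u1 Z * w)) = w := by group
        rw [h1]
    _ = ∑ k, ∑ Z : M₂ →ₗ[K] M₁, if IsUnip ((u1 Z)⁻¹ * (l⁻¹ * k)) then f k else 0 :=
        Finset.sum_comm
    _ = ∑ k, ∑ Z : M₂ →ₗ[K] M₁, if IsUnip (l⁻¹ * k * u1 Z) then f k else 0 := by
        refine Finset.sum_congr rfl fun k _ => ?_
        refine Fintype.sum_equiv (Equiv.neg _) _ _ (fun Z => ?_)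
        have h1 : IsUnip ((u1 Z)⁻¹ * (l⁻¹ * k)) ↔ IsUnip (l⁻¹ * k * u1 (-Z)) := by
          rw [u1_inv]
          exact ⟨isUnip_comm, isUnip_comm⟩
        rw [Equiv.neg_apply]
        exact if_congr h1 rfl rfl
    _ = ∑ k, ∑ p : (M₂ →ₗ[K] M₁) × (M₂ →ₗ[K] M₁), if IsUnip (l⁻¹ * k * u1 p.1) ∧
          St ((u1 p.2)⁻¹ * (l⁻¹ * k * u1 p.1) * u1 p.2) then f k else 0 := by
        refine Finset.sum_congr rfl fun k _ => ?_
        rw [← Finset.sum_filter, ← Finset.sum_filter, Finset.sum_const, Finset.sum_const, card_Z]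
    _ = ∑ k, ∑ Z' : M₂ →ₗ[K] M₁, ∑ Z : M₂ →ₗ[K] M₁, if IsUnip (l⁻¹ * k * u1 Z) ∧
          St ((u1 Z')⁻¹ * (l⁻¹ * k * u1 Z) * u1 Z') then f k else 0 := by
        refine Finset.sum_congr rfl fun k _ => ?_
        rw [Fintype.sum_prod_type]
        exact Finset.sum_comm
    _ = ∑ Z' : M₂ →ₗ[K] M₁, ∑ Z : M₂ →ₗ[K] M₁, ∑ k, if IsUnip (l⁻¹ * k * u1 Z) ∧
          St ((u1 Z')⁻¹ * (l⁻¹ * k * u1 Z) * u1 Z') then f k else 0 := by
        rw [Finset.sum_comm]
        exact Finset.sum_congr rfl fun Z' _ => Finset.sum_comm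
    _ = ∑ Z' : M₂ →ₗ[K] M₁, ∑ Z : M₂ →ₗ[K] M₁, ∑ u, if IsUnip u ∧ St u then
          f (l * u1 Z' * u * ((u1 Z')⁻¹ * (u1 Z)⁻¹)) else 0 := by
        refine Finset.sum_congr rfl fun Z' _ => Finset.sum_congr rfl fun Z _ => ?_
        symm
        refine Fintype.sum_equiv ((Equiv.mulLeft (l * u1 Z')).trans
          (Equiv.mulRight ((u1 Z')⁻¹ * (u1 Z)⁻¹))) _ _ (fun u => ?_)
        rw [Equiv.trans_apply, Equiv.coe_mulLeft, Equiv.coe_mulRight]
        have h1 : l⁻¹ * (l * u1 Z' * u * ((u1 Z')⁻¹ * (u1 Z)⁻¹)) * u1 Z =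
          u1 Z' * u * (u1 Z')⁻¹ := by group
        have h2 : (u1 Z')⁻¹ * (u1 Z' * u * (u1 Z')⁻¹) * u1 Z' = u := by group
        have h3 : IsUnip (u1 Z' * u * (u1 Z')⁻¹) ↔ IsUnip u := by
          constructor
          · intro h4
            have h5 := isUnip_comm h4
            have h6 : (u1 Z')⁻¹ * (u1 Z' * u) = u := by group
            rwa [h6] at h5
          · intro h4
            apply isUnip_comm
            have h6 : (u1 Z')⁻¹ * (u1 Z' * u) = u := by group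
            rwa [h6]
        rw [h1, h2]
        exact if_congr (and_congr_left' h3.symm) rfl rfl
    _ = ∑ Z' : M₂ →ₗ[K] M₁, ∑ Z : M₂ →ₗ[K] M₁, ∑ u, if IsUnip u ∧ St u then
          f (u1 Z * l * u) else 0 := by
        refine Finset.sum_congr rfl fun Z' _ => ?_
        refine Fintype.sum_equiv (Equiv.subLeft
          (g.toLinearMap ∘ₗ Z' ∘ₗ h.symm.toLinearMap - Z')) _ _ (fun Z => ?_)
        refine Finset.sum_congr rfl fun u _ => ?_
        rw [Equiv.subLeft_apply]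
        have h1 : l * u1 Z' * u * ((u1 Z')⁻¹ * (u1 Z)⁻¹) =
          (l * u1 Z' * u) * ((u1 Z')⁻¹ * (u1 Z)⁻¹) := rfl
        have h2 : ((u1 Z')⁻¹ * (u1 Z)⁻¹) * (l * u1 Z' * u) =
          u1 (g.toLinearMap ∘ₗ Z' ∘ₗ h.symm.toLinearMap - Z' - Z) * l * u := by
          rw [← mul_assoc, ← mul_assoc, mul_assoc _ l, hl, prodAut_mul_u1, u1_inv, u1_inv,
            ← u1_add, ← mul_assoc, ← u1_add]
          congr 4
          abel
        rw [h1, hf, h2]
    _ = _ := by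
        rw [Finset.sum_const, Finset.card_univ]

end main

end ZAux

/-- The fundamental relation between `Z`, restriction and the mixed sum. -/
theorem res_Zop (φ : Hall K A) {M₁ M₂ : Type}
    [AddCommGroup M₁] [Module K M₁] [AddCommGroup M₂] [Module K M₂]
    [FiniteDimensional K M₁] [FiniteDimensional K M₂] (g : M₁ ≃ₗ[K] M₁) (h : M₂ ≃ₗ[K] M₂) :
    res (show Hall K A from Zop φ) (cls g) (cls h) =
      ∑ u ∈ unips (K := K) (M := M₁), ∑ v ∈ unips (K := K) (M := M₂),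
        Del φ (cls (g * u)) (cls (h * v)) := by
  classical
  have hq : (0 : ℚ) < Nat.card K := by
    have : 0 < Nat.card K := Nat.card_pos
    exact_mod_cast this
  rw [res_cls, inv_smul_eq_iff₀ (by positivity)]
  have h1 : ∑ X : M₂ →ₗ[K] M₁, (show Hall K A from Zop φ) (cls (utAut g h X)) =
      ∑ Z : M₂ →ₗ[K] M₁, ∑ w : (M₁ × M₂) ≃ₗ[K] (M₁ × M₂),
        if IsUnip w then φ (cls (prodAut g h * ZAux.u1 Z * w)) else 0 := by
    symm
    refine Fintype.sum_equiv (LinearEquiv.arrowCongr (LinearEquiv.refl K M₂) g).toEquiv _ _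
      (fun Z => ?_)
    have h2 : utAut g h ((LinearEquiv.arrowCongr (LinearEquiv.refl K M₂) g).toEquiv Z) =
        prodAut g h * ZAux.u1 Z := ZAux.utAut_eq g h Z
    rw [h2]
    change _ = Zop φ (cls (prodAut g h * ZAux.u1 Z))
    rw [Zop_cls, unips, Finset.sum_filter]
  rw [h1, ZAux.sum_main (fun x => φ (cls x)) (fun x y => by
    congr 1
    exact cls_congr y (fun z => rfl)) g h]
  rw [← Nat.cast_smul_eq_nsmul ℚ, Mackey.card_linearMap']
  congr 1
  simp only [Del_cls, ZAux.sum_low, ZAux.u1_mul_prod_mul_low]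
  rw [Finset.sum_comm]
  refine Finset.sum_congr rfl fun u _ => ?_
  rw [Finset.sum_comm]
  refine Finset.sum_congr rfl fun v _ => ?_
  refine Finset.sum_congr rfl fun X _ => ?_
  exact Fintype.sum_equiv (LinearEquiv.arrowCongr (LinearEquiv.refl K M₁) h).toEquiv _ _
    (fun Y => rfl)

end Pool.Agent.Lib.MP_02a407_al
end
end
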