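import Pool.Agent.Lib.MP_02a407_al.Q2.FGReg
import Pool.Agent.Lib.MP_02a407_al.Q2.HLat
import Pool.Agent.Lib.MP_02a407_al.Q2.GInt
import Pool.Agent.Lib.MP_02a407_al.Q2.Dual
import Pool.Agent.Lib.MP_02a407_al.Q2.ZDef

section

section

/-!
# The Steinberg function and the indicator function of the regular elements
-/

namespace Pool.Agent.Lib.MP_02a407_al

open Module Polynomial

set_option linter.unusedSectionVars false

variable {K : Type} [Field K] [Finite K]

/-- The constant function `1`. -/
noncomputable def cone (K : Type) [Field K] : Hall K ℚ := fun _ => 1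

/-- The Steinberg function (up to sign): the inverse of the constant function `1`. -/
noncomputable def stH (K : Type) [Field K] [Finite K] : Hall K ℚ :=
  (exists_inv (cone K) rfl).choose

lemma stH_zero : stH K 0 = 1 := (exists_inv (cone K) rfl).choose_spec.1

lemma cone_mul_stH : cone K * stH K = 1 := (exists_inv (cone K) rfl).choose_spec.2

/-! ### Regular elements are the semisimple ones -/

section reg

variable {V : Type} [AddCommGroup V] [Module K V] [FiniteDimensional K V]

lemma coe_pow_linearEquiv (g : V ≃ₗ[K] V) (N : ℕ) :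
    ((g ^ N : V ≃ₗ[K] V) : Module.End K V) = (g : Module.End K V) ^ N :=
  map_pow (LinearEquiv.automorphismGroup.toLinearMapMonoidHom (R := K) (M := V)) g N

lemma aeval_X_pow_sub_one_eq_zero_iff (g : V ≃ₗ[K] V) (N : ℕ) :
    aeval (g : Module.End K V) (X ^ N - 1 : K[X]) = 0 ↔ g ^ N = 1 := by
  rw [map_sub, map_pow, aeval_X, map_one, sub_eq_zero, ← coe_pow_linearEquiv]
  constructor
  · intro h
    apply LinearEquiv.toLinearMap_injective
    rw [h]
    rfl
  · intro h
    rw [h]
    rfl

lemma natCast_ne_zero_of_coprime (p : ℕ) [_root_.Fact p.Prime] [CharP K p] {N : ℕ}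
    (hN : N.Coprime p) : (N : K) ≠ 0 := by
  rw [Ne, CharP.cast_eq_zero_iff K p]
  intro hd
  exact ((Nat.Prime.coprime_iff_not_dvd (_root_.Fact.out)).1 hN.symm) hd

lemma IsReg.semisimple (p : ℕ) [_root_.Fact p.Prime] [CharP K p] {g : V ≃ₗ[K] V}
    (h : IsReg p g) : Module.End.IsSemisimple (g : V →ₗ[K] V) := by
  obtain ⟨N, hN, hg⟩ := h
  exact Module.End.isSemisimple_of_squarefree_aeval_eq_zero (p := X ^ N - 1)
    ((X_pow_sub_one_separable_iff.2 (natCast_ne_zero_of_coprime p hN)).squarefree)
    ((aeval_X_pow_sub_one_eq_zero_iff g N).2 hg)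

lemma isReg_of_semisimple (p : ℕ) [_root_.Fact p.Prime] [CharP K p] {g : V ≃ₗ[K] V}
    (h : Module.End.IsSemisimple (g : V →ₗ[K] V)) : IsReg p g := by
  have hp : p.Prime := _root_.Fact.out
  have hfin : Finite (V ≃ₗ[K] V) := finite_linearEquiv (K := K) (M := V)
  obtain ⟨a, N, hN, hord⟩ := Nat.exists_eq_pow_mul_and_not_dvd (n := orderOf g)
    (orderOf_pos g).ne' p hp.ne_one
  refine ⟨N, ((Nat.Prime.coprime_iff_not_dvd hp).2 hN).symm, ?_⟩
  rw [← aeval_X_pow_sub_one_eq_zero_iff]
  refine Module.End.eq_zero_of_isNilpotent_isSemisimple ⟨p ^ a, ?_⟩ (h.aeval _)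
  rw [← map_pow, sub_pow_char_pow, one_pow, ← pow_mul, aeval_X_pow_sub_one_eq_zero_iff,
    mul_comm, ← hord, pow_orderOf_eq_one]

end reg

/-! ### Lattice operations on the stable subspaces -/

namespace Stab

variable {V : Type} [AddCommGroup V] [Module K V] {g : V ≃ₗ[K] V}

/-- intersection -/
def meet (W U : Stab g) : Stab g :=
  ⟨W.space ⊓ U.space, fun x => by
    rw [Submodule.mem_inf, Submodule.mem_inf, W.mem_iff, U.mem_iff]⟩

lemma space_meet (W U : Stab g) : (W.meet U).space = W.space ⊓ U.space := rfl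

variable [FiniteDimensional K V]

/-- sum -/
def join (W U : Stab g) : Stab g :=
  ofLE (W.space ⊔ U.space) fun x hx => by
    obtain ⟨y, hy, z, hz, rfl⟩ := Submodule.mem_sup.1 hx
    rw [map_add]
    exact Submodule.add_mem_sup ((W.mem_iff y).2 hy) ((U.mem_iff z).2 hz)

lemma space_join (W U : Stab g) : (W.join U).space = W.space ⊔ U.space := rfl

lemma cls_quo_of_isCompl {W U : Stab g} (h : IsCompl W.space U.space) :
    cls W.quo = cls U.sub := by
  symm
  refine cls_congr (Submodule.quotientEquivOfIsCompl W.space U.space h).symm ?_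
  intro x
  rw [Submodule.quotientEquivOfIsCompl_symm_apply, Submodule.quotientEquivOfIsCompl_symm_apply,
    quo_mk, coe_sub]

lemma cls_quo_bot : cls (bot g).quo = cls g := by
  refine cls_congr (Submodule.quotEquivOfEqBot _ (space_bot _)) ?_
  intro x
  obtain ⟨y, rfl⟩ := Submodule.Quotient.mk_surjective _ x
  rfl

/-- for `y ≤ x`, `y ≤ a`: `x ⊓ a = y` iff `x/y ⊓ a/y = 0` -/
lemma qin_inf_eq_bot_iff (y x a : Stab g) (hx : y.space ≤ x.space) (ha : y.space ≤ a.space) :
    (y.qin x).space ⊓ (y.qin a).space = ⊥ ↔ x.space ⊓ a.space = y.space := by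
  have h1 : ((y.qin x).space ⊓ (y.qin a).space).comap y.space.mkQ = x.space ⊓ a.space := by
    rw [Submodule.comap_inf, space_qin, space_qin, Submodule.comap_map_mkQ,
      Submodule.comap_map_mkQ, sup_eq_right.2 hx, sup_eq_right.2 ha]
  rw [← h1]
  constructor
  · intro h
    rw [h, Submodule.comap_bot, Submodule.ker_mkQ]
  · intro h
    rw [eq_bot_iff]
    intro q hq
    obtain ⟨v, rfl⟩ := Submodule.Quotient.mk_surjective _ q
    have hv : v ∈ ((y.qin x).space ⊓ (y.qin a).space).comap y.space.mkQ := hq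
    rw [h] at hv
    rw [Submodule.mem_bot]
    exact (Submodule.Quotient.mk_eq_zero _).2 hv

end Stab

/-! ### A theorem of Weisner -/

lemma sum_stH_eq_zero {V : Type} [AddCommGroup V] [Module K V] [FiniteDimensional K V]
    [Nontrivial V] (g : V ≃ₗ[K] V) : ∑ x : Stab g, stH K (cls x.quo) = 0 := by
  have h1 : (cone K * stH K) (cls g) = 0 := by
    rw [cone_mul_stH]
    apply Hall.one_of_ne
    rw [Ne, cls_eq_zero_iff]
    exact not_subsingleton V
  rw [Hall.mul_cls] at h1
  simpa [cone] using h1

open Classical in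
lemma weisner (d : ℕ) : ∀ {V : Type} [AddCommGroup V] [Module K V] [FiniteDimensional K V]
    (g : V ≃ₗ[K] V) (a : Stab g), finrank K V = d → a.space ≠ ⊤ →
    ∑ x : Stab g, (if x.space ⊓ a.space = ⊥ then stH K (cls x.quo) else 0) = 0 := by
  induction d using Nat.strong_induction_on with
  | _ d ih =>
  intro V _ _ _ g a hd ha
  have hnt : Nontrivial V := by
    by_contra h
    rw [not_nontrivial_iff_subsingleton] at h
    exact ha (Subsingleton.elim _ _)
  have h0 := sum_stH_eq_zero g
  have h1 : ∑ x : Stab g, stH K (cls x.quo) =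
      ∑ y : Stab g, ∑ x : Stab g, (if x.space ⊓ a.space = y.space then stH K (cls x.quo) else 0) := by
    rw [Finset.sum_comm]
    refine Finset.sum_congr rfl fun x _ => ?_
    rw [Finset.sum_eq_single (x.meet a)]
    · rw [Stab.space_meet, if_pos rfl]
    · intro y _ hy
      rw [if_neg]
      intro h
      exact hy (Stab.ext h.symm)
    · intro h
      exact absurd (Finset.mem_univ _) h
  rw [h1, Finset.sum_eq_single (Stab.bot g)] at h0
  · exact h0
  · intro y _ hy
    have hy' : y.space ≠ ⊥ := fun h => hy (Stab.ext h)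
    by_cases hya : y.space ≤ a.space
    · have hlt : finrank K (V ⧸ y.space) < d := by
        have h2 := Submodule.finrank_quotient_add_finrank y.space
        have h3 : 0 < finrank K y.space := by
          rw [Module.finrank_pos_iff]
          exact Submodule.nontrivial_iff_ne_bot.2 hy'
        omega
      have hqa : (y.qin a).space ≠ ⊤ := by
        intro h
        apply ha
        have h4 : (y.qout (y.qin a)).space = ⊤ := by
          rw [Stab.space_qout, h, Submodule.comap_top]
        rwa [Stab.qout_qin y a hya] at h4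
      have h5 := ih _ hlt y.quo (y.qin a) rfl hqa
      rw [Stab.sum_qin] at h5
      refine Eq.trans (Finset.sum_congr rfl fun x _ => ?_) h5
      by_cases hyx : y.space ≤ x.space
      · rw [if_pos hyx, Stab.cls_qin_quo y x hyx]
        simp only [Stab.qin_inf_eq_bot_iff y x a hyx hya]
      · rw [if_neg hyx, if_neg]
        intro h
        exact hyx (h ▸ inf_le_left)
    · refine Finset.sum_eq_zero fun x _ => if_neg ?_
      intro h
      exact hya (h ▸ inf_le_right)
  · intro h
    exact absurd (Finset.mem_univ _) h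

/-! ### Counting stable complements -/

section compl

variable {V : Type} [AddCommGroup V] [Module K V] [FiniteDimensional K V] {g : V ≃ₗ[K] V}

/-- the equivariant linear maps to `H` which vanish on `H` -/
def eqvZero (H : Stab g) : Submodule K (V →ₗ[K] H.space) where
  carrier := {f | (∀ x, f (g x) = H.sub (f x)) ∧ ∀ x : H.space, f x = 0}
  add_mem' := by
    rintro f f' ⟨h1, h2⟩ ⟨h1', h2'⟩
    refine ⟨fun x => ?_, fun x => ?_⟩
    · rw [LinearMap.add_apply, LinearMap.add_apply, h1, h1', map_add]
    · rw [LinearMap.add_apply, h2, h2', add_zero]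
  zero_mem' := ⟨fun x => by simp, fun x => by simp⟩
  smul_mem' := by
    rintro c f ⟨h1, h2⟩
    refine ⟨fun x => ?_, fun x => ?_⟩
    · rw [LinearMap.smul_apply, LinearMap.smul_apply, h1, map_smul]
    · rw [LinearMap.smul_apply, h2, smul_zero]

/-- the projection to `H` along a stable complement is equivariant -/
lemma proj_eqv {H x : Stab g} (h : IsCompl H.space x.space) (v : V) :
    Submodule.projectionOnto H.space x.space h (g v) =
      H.sub (Submodule.projectionOnto H.space x.space h v) := by
  obtain ⟨a, ha, b, hb, rfl⟩ := Submodule.mem_sup.1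
    (show v ∈ H.space ⊔ x.space by rw [h.sup_eq_top]; exact Submodule.mem_top)
  have h1 : ∀ (a : V) (ha : a ∈ H.space) (b : V) (hb : b ∈ x.space),
      Submodule.projectionOnto H.space x.space h (a + b) = ⟨a, ha⟩ := by
    intro a ha b hb
    rw [map_add, (Submodule.projectionOnto_apply_eq_zero_iff h).2 hb, add_zero]
    exact Submodule.projectionOnto_apply_left h ⟨a, ha⟩
  rw [map_add, h1 _ ((H.mem_iff a).2 ha) _ ((x.mem_iff b).2 hb), h1 _ ha _ hb]
  rfl

/-- stable complements and equivariant projections -/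
noncomputable def complEquiv (H x₀ : Stab g) (h₀ : IsCompl H.space x₀.space) :
    {x : Stab g // IsCompl H.space x.space} ≃ eqvZero H where
  toFun x := ⟨Submodule.projectionOnto H.space x.1.space x.2 -
      Submodule.projectionOnto H.space x₀.space h₀, by
    refine ⟨fun v => ?_, fun v => ?_⟩
    · rw [LinearMap.sub_apply, LinearMap.sub_apply, proj_eqv, proj_eqv, map_sub]
    · rw [LinearMap.sub_apply, Submodule.projectionOnto_apply_left,
        Submodule.projectionOnto_apply_left, sub_self]⟩
  invFun f := ⟨⟨LinearMap.ker (f.1 + Submodule.projectionOnto H.space x₀.space h₀), fun v => by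
      rw [LinearMap.mem_ker, LinearMap.mem_ker, LinearMap.add_apply, LinearMap.add_apply,
        proj_eqv, f.2.1, ← map_add]
      exact LinearEquiv.map_eq_zero_iff _⟩, by
    apply LinearMap.isCompl_of_proj
    intro v
    rw [LinearMap.add_apply, f.2.2, zero_add, Submodule.projectionOnto_apply_left]⟩
  left_inv x := by
    apply Subtype.ext
    apply Stab.ext
    change LinearMap.ker (Submodule.projectionOnto H.space x.1.space x.2 -
      Submodule.projectionOnto H.space x₀.space h₀ +
      Submodule.projectionOnto H.space x₀.space h₀) = x.1.space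
    rw [sub_add_cancel, Submodule.ker_projectionOnto]
  right_inv f := by
    apply Subtype.ext
    have h1 : ∀ v : H.space, (f.1 + Submodule.projectionOnto H.space x₀.space h₀) v = v := by
      intro v
      rw [LinearMap.add_apply, f.2.2, zero_add, Submodule.projectionOnto_apply_left]
    have h2 := LinearMap.projectionOnto_of_proj _ h1
    change Submodule.projectionOnto H.space (LinearMap.ker
      (f.1 + Submodule.projectionOnto H.space x₀.space h₀)) _ -
      Submodule.projectionOnto H.space x₀.space h₀ = f.1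
    rw [h2, add_sub_cancel_right]

lemma exists_card_compl (H x₀ : Stab g) (h₀ : IsCompl H.space x₀.space) :
    ∃ k : ℕ, Nat.card {x : Stab g // IsCompl H.space x.space} = Nat.card K ^ k := by
  refine ⟨finrank K (eqvZero H), ?_⟩
  rw [Nat.card_congr (complEquiv H x₀ h₀), Module.natCard_eq_pow_finrank (K := K)]

end compl

/-! ### The values of the Steinberg function -/

section main

variable {V : Type} [AddCommGroup V] [Module K V] [FiniteDimensional K V] {g : V ≃ₗ[K] V}

lemma Stab.coe_sub_pow (W : Stab g) (N : ℕ) (x : W.space) :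
    (((W.sub ^ N) x : W.space) : V) = (g ^ N) x := by
  induction N generalizing x with
  | zero => rfl
  | succ N ih =>
    rw [pow_succ, pow_succ, LinearEquiv.mul_apply, LinearEquiv.mul_apply, ih, Stab.coe_sub]

lemma IsReg.sub (p : ℕ) (h : IsReg p g) (W : Stab g) : IsReg p W.sub := by
  obtain ⟨N, hN, hg⟩ := h
  refine ⟨N, hN, ?_⟩
  ext x
  rw [Stab.coe_sub_pow, hg]
  rfl

lemma isReg_of_sub (p : ℕ) {W U : Stab g} (hWU : W.space ⊔ U.space = ⊤) (hW : IsReg p W.sub)
    (hU : IsReg p U.sub) : IsReg p g := by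
  obtain ⟨N, hN, hg⟩ := hW
  obtain ⟨N', hN', hg'⟩ := hU
  refine ⟨N * N', Nat.Coprime.mul_left hN hN', ?_⟩
  have h1 : ∀ x ∈ W.space, (g ^ (N * N')) x = x := by
    intro x hx
    have h2 := Stab.coe_sub_pow W (N * N') ⟨x, hx⟩
    rw [pow_mul, hg, one_pow] at h2
    exact h2.symm
  have h1' : ∀ x ∈ U.space, (g ^ (N * N')) x = x := by
    intro x hx
    have h2 := Stab.coe_sub_pow U (N * N') ⟨x, hx⟩
    rw [mul_comm N N', pow_mul, hg', one_pow] at h2
    rw [mul_comm N N']
    exact h2.symm
  ext v
  obtain ⟨a, ha, b, hb, rfl⟩ := Submodule.mem_sup.1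
    (show v ∈ W.space ⊔ U.space by rw [hWU]; exact Submodule.mem_top)
  rw [map_add, h1 a ha, h1' b hb]
  rfl

/-- a maximal proper stable subspace -/
lemma exists_maximal [Nontrivial V] (g : V ≃ₗ[K] V) : ∃ H : Stab g, H.space ≠ ⊤ ∧
    ∀ x : Stab g, H.space ≤ x.space → x.space ≠ ⊤ → x.space = H.space := by
  classical
  obtain ⟨H, hH, hmax⟩ := Finset.exists_max_image
    (Finset.univ.filter fun x : Stab g => x.space ≠ ⊤) (fun x => finrank K x.space)
    ⟨Stab.bot g, by
      rw [Finset.mem_filter, Stab.space_bot]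
      exact ⟨Finset.mem_univ _, bot_ne_top⟩⟩
  rw [Finset.mem_filter] at hH
  refine ⟨H, hH.2, fun x hx hx' => ?_⟩
  exact (Submodule.eq_of_le_of_finrank_le hx
    (hmax x (by rw [Finset.mem_filter]; exact ⟨Finset.mem_univ _, hx'⟩))).symm

/-- a complement of a maximal stable subspace is regular -/
lemma isReg_compl (p : ℕ) [_root_.Fact p.Prime] [CharP K p] {H x₀ : Stab g}
    (hmax : ∀ x : Stab g, H.space ≤ x.space → x.space ≠ ⊤ → x.space = H.space)
    (hc : IsCompl H.space x₀.space) : IsReg p x₀.sub := by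
  apply isReg_of_semisimple
  rw [Module.End.isSemisimple_iff]
  intro q hq
  have key : q = ⊥ ∨ q = ⊤ := by
    let U : Stab x₀.sub := Stab.ofLE q hq
    have hUq : U.space = q := rfl
    have hle := x₀.out_le U
    by_cases h : H.space ⊔ (x₀.out U).space = ⊤
    · right
      rw [eq_top_iff]
      intro x _
      obtain ⟨a, ha, b, hb, hab⟩ := Submodule.mem_sup.1
        (show (x : V) ∈ H.space ⊔ (x₀.out U).space by rw [h]; exact Submodule.mem_top)
      have ha' : a ∈ x₀.space := by
        have h3 : a = (x : V) - b := by rw [← hab, add_sub_cancel_right]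
        rw [h3]
        exact x₀.space.sub_mem x.2 (hle hb)
      have ha0 : a = 0 := Submodule.disjoint_def.1 hc.disjoint a ha ha'
      rw [ha0, zero_add] at hab
      rw [hab, Stab.space_out, Submodule.mem_map] at hb
      obtain ⟨y, hy, hyx⟩ := hb
      have hyx' : y = x := Subtype.ext hyx
      rw [← hyx']
      exact hy
    · left
      have h1 : (H.join (x₀.out U)).space = H.space := hmax _ le_sup_left h
      have h2 : (x₀.out U).space ≤ H.space := by
        rw [← h1]
        exact le_sup_right
      rw [eq_bot_iff]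
      intro x hx
      have hx' : (x : V) ∈ (x₀.out U).space := ⟨x, hx, rfl⟩
      rw [Submodule.mem_bot]
      apply Subtype.ext
      exact Submodule.disjoint_def.1 hc.disjoint _ (h2 hx') x.2
  rcases key with rfl | rfl
  · exact ⟨⊤, by simp, isCompl_bot_top⟩
  · exact ⟨⊥, by simp, isCompl_top_bot⟩

open Classical in
/-- the recursion for the Steinberg function -/
lemma stH_rec {H : Stab g} (hH : H.space ≠ ⊤)
    (hmax : ∀ x : Stab g, H.space ≤ x.space → x.space ≠ ⊤ → x.space = H.space) :
    stH K (cls g) + (Nat.card {x : Stab g // IsCompl H.space x.space} : ℚ) *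
      stH K (cls H.sub) = 0 := by
  have h0 := weisner (finrank K V) g H rfl hH
  have hb : (Stab.bot g).space ⊓ H.space = ⊥ := bot_inf_eq _
  rw [← h0, ← Finset.add_sum_erase _ _ (Finset.mem_univ (Stab.bot g)), if_pos hb,
    Stab.cls_quo_bot]
  congr 1
  have h1 : ∀ x ∈ Finset.univ.erase (Stab.bot g),
      (if x.space ⊓ H.space = ⊥ then stH K (cls x.quo) else 0) =
      (if IsCompl H.space x.space then stH K (cls H.sub) else 0) := by
    intro x hx
    have hx0 : x.space ≠ ⊥ := fun h => (Finset.ne_of_mem_erase hx) (Stab.ext h)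
    by_cases hc : IsCompl H.space x.space
    · rw [if_pos hc, if_pos hc.symm.inf_eq_bot, Stab.cls_quo_of_isCompl hc.symm]
    · rw [if_neg hc, if_neg]
      intro h
      apply hc
      refine ⟨disjoint_iff.2 (by rw [inf_comm]; exact h), codisjoint_iff.2 ?_⟩
      by_contra hne
      have h2 : (H.join x).space = H.space := hmax _ le_sup_left hne
      have h3 : x.space ≤ H.space := by
        rw [← h2]
        exact le_sup_right
      rw [inf_eq_left.2 h3] at h
      exact hx0 h
  rw [Finset.sum_congr rfl h1, ← Finset.sum_filter, Finset.sum_const, nsmul_eq_mul]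
  congr 2
  rw [← Nat.subtype_card (p := fun x : Stab g => IsCompl H.space x.space)
    ((Finset.univ.erase (Stab.bot g)).filter fun x => IsCompl H.space x.space)]
  intro x
  rw [Finset.mem_filter]
  constructor
  · exact fun h => h.2
  · intro h
    refine ⟨Finset.mem_erase.2 ⟨?_, Finset.mem_univ _⟩, h⟩
    rintro rfl
    apply hH
    have h4 := h.sup_eq_top
    rwa [Stab.space_bot, sup_bot_eq] at h4

lemma stH_cls_aux (p : ℕ) [_root_.Fact p.Prime] [CharP K p] (d : ℕ) :
    ∀ {V : Type} [AddCommGroup V] [Module K V] [FiniteDimensional K V] (g : V ≃ₗ[K] V),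
    finrank K V = d →
    ((IsReg p g ∧ ∃ k s : ℕ, stH K (cls g) = (-1) ^ s * (Nat.card K : ℚ) ^ k) ∨
      (¬ IsReg p g ∧ stH K (cls g) = 0)) := by
  induction d using Nat.strong_induction_on with
  | _ d ih =>
  intro V _ _ _ g hd
  rcases subsingleton_or_nontrivial V with hV | hV
  · left
    refine ⟨⟨1, Nat.coprime_one_left p, ?_⟩, 0, 0, ?_⟩
    · ext x
      exact Subsingleton.elim _ _
    · rw [(cls_eq_zero_iff g).2 hV, stH_zero]
      simp
  obtain ⟨H, hH, hmax⟩ := exists_maximal g
  have hrec := stH_rec hH hmax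
  by_cases hex : ∃ x₀ : Stab g, IsCompl H.space x₀.space
  · obtain ⟨x₀, hx₀⟩ := hex
    obtain ⟨k', hk'⟩ := exists_card_compl H x₀ hx₀
    have hlt : finrank K H.space < d := by
      rw [← hd]
      exact Submodule.finrank_lt hH
    rw [hk'] at hrec
    push_cast at hrec
    rcases ih _ hlt H.sub rfl with ⟨hreg, k, s, hks⟩ | ⟨hreg, h0⟩
    · left
      refine ⟨isReg_of_sub p hx₀.sup_eq_top hreg (isReg_compl p hmax hx₀), k' + k, s + 1, ?_⟩
      rw [hks] at hrec
      rw [eq_neg_of_add_eq_zero_left hrec]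
      ring
    · right
      refine ⟨fun h => hreg (h.sub p H), ?_⟩
      rw [h0, mul_zero, add_zero] at hrec
      exact hrec
  · right
    constructor
    · intro h
      obtain ⟨q, hq, hc⟩ := Module.End.isSemisimple_iff.1 (h.semisimple p) H.space
        (fun x hx => (H.mem_iff x).2 hx)
      exact hex ⟨Stab.ofLE q hq, hc⟩
    · have h1 : Nat.card {x : Stab g // IsCompl H.space x.space} = 0 := by
        rw [Nat.card_eq_zero]
        left
        exact ⟨fun x => hex ⟨x.1, x.2⟩⟩
      rw [h1, Nat.cast_zero, zero_mul, add_zero] at hrec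
      exact hrec

end main

/-- The values of the Steinberg function. -/
theorem stH_cls (p : ℕ) [_root_.Fact p.Prime] [CharP K p] {V : Type} [AddCommGroup V] [Module K V]
    [FiniteDimensional K V] (g : V ≃ₗ[K] V) :
    (IsReg p g ∧ ∃ k s : ℕ, stH K (cls g) = (-1) ^ s * (Nat.card K : ℚ) ^ k) ∨
      (¬ IsReg p g ∧ stH K (cls g) = 0) :=
  stH_cls_aux p (finrank K V) g rfl

variable {𝕜 : Type} [Field 𝕜] [IsAlgClosed 𝕜] [CharZero 𝕜]

lemma gLat_const (O : Subring 𝕜) {G : Type} [Group G] [Fintype G] {c : 𝕜} (hc : c ∈ O) :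
    GLat O (fun _ : G => c) := by
  have h1 : IsChar 𝕜 (fun _ : G => (1 : 𝕜)) := by
    have h2 := isChar_of_hom (𝕜 := 𝕜) (G := G) 1
    simpa using h2
  have h3 := (GLat.of_char (O := O) h1).smul hc
  simpa using h3

lemma hLat_cone (O : Subring 𝕜) (m : ℕ) : HLat O m (Hall.map (algebraMap ℚ 𝕜) (cone K)) := by
  have h1 : (fun g : (Fin m → K) ≃ₗ[K] (Fin m → K) =>
      Hall.map (algebraMap ℚ 𝕜) (cone K) (cls g)) = fun _ => 1 := by
    funext g
    rw [Hall.map_apply]
    exact map_one _
  rw [HLat, h1]
  exact gLat_const O O.one_mem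

theorem hLat_stH (O : Subring 𝕜) (m : ℕ) : HLat O m (Hall.map (algebraMap ℚ 𝕜) (stH K)) := by
  induction m using Nat.strong_induction_on with
  | _ m ih =>
  rcases Nat.eq_zero_or_pos m with rfl | hm
  · rw [hLat_zero, Hall.map_apply, stH_zero, map_one]
    exact O.one_mem
  · have h1 := HLat.mul_sub (O := O) hm (φ := Hall.map (algebraMap ℚ 𝕜) (cone K))
      (ψ := Hall.map (algebraMap ℚ 𝕜) (stH K))
      (by rw [Hall.map_apply]; exact map_one _) (by rw [Hall.map_apply, stH_zero, map_one])
      (fun a _ => hLat_cone O a) ih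
    rw [← map_mul, cone_mul_stH, map_one] at h1
    have h2 : HLat O m (1 : Hall K 𝕜) := by
      refine HLat.zero.congr fun C hC => ?_
      rw [Hall.one_of_ne, Hall.zero_apply]
      rintro rfl
      rw [cl_zero] at hC
      omega
    have h3 := (h2.sub (hLat_cone O m)).sub h1
    have h4 : (1 : Hall K 𝕜) - Hall.map (algebraMap ℚ 𝕜) (cone K) -
        (1 - Hall.map (algebraMap ℚ 𝕜) (cone K) - Hall.map (algebraMap ℚ 𝕜) (stH K)) =
        Hall.map (algebraMap ℚ 𝕜) (stH K) := by ring
    rwa [h4] at h3

open Classical in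
/-- A power of `q` times the indicator function of the regular elements is in the lattice. -/
theorem exists_reg (p : ℕ) [_root_.Fact p.Prime] [CharP K p] (O : Subring 𝕜) {V : Type}
    [AddCommGroup V] [Module K V] [FiniteDimensional K V] :
    ∃ k : ℕ, GLat O (fun g : V ≃ₗ[K] V => if IsReg p g then (Nat.card K : 𝕜) ^ k else 0) := by
  have hex : ∀ g : V ≃ₗ[K] V, ∃ k : ℕ, IsReg p g →
      (algebraMap ℚ 𝕜 (stH K (cls g))) ^ 2 = (Nat.card K : 𝕜) ^ (2 * k) := by
    intro g
    rcases stH_cls p g with ⟨_, k, s, h⟩ | ⟨h, _⟩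
    · refine ⟨k, fun _ => ?_⟩
      rw [h, map_mul, map_pow, map_pow, map_neg, map_one, map_natCast, mul_pow, ← pow_mul,
        mul_comm s 2, pow_mul, neg_one_sq, one_pow, one_mul, ← pow_mul, mul_comm k 2]
    · exact ⟨0, fun h' => absurd h' h⟩
  choose k hk using hex
  set N : ℕ := Finset.univ.sup k with hN
  have hqO : ∀ j : ℕ, (Nat.card K : 𝕜) ^ j ∈ O := fun j => O.pow_mem (natCast_mem O _) j
  have hSt : GLat O (fun g : V ≃ₗ[K] V => algebraMap ℚ 𝕜 (stH K (cls g))) := by
    have h1 := (hLat_iff (O := O) (V := V) rfl (Hall.map (algebraMap ℚ 𝕜) (stH K))).1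
      (hLat_stH O (finrank K V))
    exact h1
  have hfac : ∀ j : ℕ, GLat O (fun g : V ≃ₗ[K] V =>
      (Nat.card K : 𝕜) ^ (2 * j) - (algebraMap ℚ 𝕜 (stH K (cls g))) ^ 2) := by
    intro j
    have h1 := (gLat_const O (G := V ≃ₗ[K] V) (hqO (2 * j))).add
      ((hSt.mul hSt).smul (O.neg_mem O.one_mem))
    convert h1 using 2 with g
    ring
  have hprod : ∀ S : Finset ℕ, GLat O (fun g : V ≃ₗ[K] V =>
      ∏ j ∈ S, ((Nat.card K : 𝕜) ^ (2 * j) - (algebraMap ℚ 𝕜 (stH K (cls g))) ^ 2)) := by
    intro S
    induction S using Finset.induction_on with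
    | empty =>
      simp only [Finset.prod_empty]
      exact gLat_const O O.one_mem
    | insert j S hj ihS =>
      simp only [Finset.prod_insert hj]
      exact (hfac j).mul ihS
  refine ⟨∑ j ∈ Finset.range (N + 1), 2 * j, ?_⟩
  have h1 := (gLat_const O (G := V ≃ₗ[K] V) (hqO (∑ j ∈ Finset.range (N + 1), 2 * j))).add
    ((hprod (Finset.range (N + 1))).smul (O.neg_mem O.one_mem))
  convert h1 using 2 with g
  by_cases hg : IsReg p g
  · rw [if_pos hg, Finset.prod_eq_zero (i := k g), mul_zero, add_zero]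
    · rw [Finset.mem_range, Nat.lt_succ_iff]
      exact Finset.le_sup (f := k) (Finset.mem_univ g)
    · rw [hk g hg, sub_self]
  · have h2 : stH K (cls g) = 0 := by
      rcases stH_cls p g with ⟨h, _⟩ | ⟨_, h⟩
      · exact absurd h hg
      · exact h
    rw [if_neg hg, h2, map_zero, Finset.prod_congr rfl
      (fun j _ => by rw [zero_pow two_ne_zero, sub_zero]), Finset.prod_pow_eq_pow_sum]
    ring

end Pool.Agent.Lib.MP_02a407_al
end

section

/-!
# Large finite extensions and base change
-/

namespace Pool.Agent.Lib.MP_02a407_al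

open Module Polynomial

variable {K : Type} [Field K] [Finite K]

/-- The fixed field of a power of the Frobenius. -/
private noncomputable def bfFix (K : Type) [Field K] [Finite K] (t : ℕ) :
    IntermediateField K (AlgebraicClosure K) where
  carrier := {α | α ^ (Nat.card K ^ t) = α}
  mul_mem' := by
    intro a b ha hb
    simp only [Set.mem_ofPred_eq] at *
    rw [mul_pow, ha, hb]
  one_mem' := by simp
  add_mem' := by
    intro a b ha hb
    simp only [Set.mem_ofPred_eq] at *
    have := Fintype.ofFinite K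
    obtain ⟨p, _, n, hp, hcard⟩ := FiniteField.card' K
    have : CharP (AlgebraicClosure K) p :=
      charP_of_injective_algebraMap (algebraMap K (AlgebraicClosure K)).injective p
    have : _root_.Fact p.Prime := ⟨hp⟩
    have hq : Nat.card K ^ t = p ^ ((n : ℕ) * t) := by
      rw [Nat.card_eq_fintype_card, hcard, ← pow_mul]
    rw [hq] at ha hb ⊢
    rw [add_pow_char_pow, ha, hb]
  zero_mem' := by
    simp only [Set.mem_ofPred_eq]
    exact zero_pow (pow_pos Nat.card_pos t).ne'
  algebraMap_mem' := by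
    intro x
    simp only [Set.mem_ofPred_eq]
    have := Fintype.ofFinite K
    rw [← map_pow, Nat.card_eq_fintype_card, FiniteField.pow_card_pow]
  inv_mem' := by
    intro x hx
    simp only [Set.mem_ofPred_eq] at *
    rw [inv_pow, hx]

private theorem bfFix_mem {t : ℕ} {α : AlgebraicClosure K} :
    α ∈ bfFix K t ↔ α ^ (Nat.card K ^ t) = α := Iff.rfl

/-- A finite extension of `K` which contains all elements of degree at most `m` and whose degree
is a multiple of `D`. -/
theorem exists_field (m D : ℕ) (hD : 0 < D) :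
    ∃ (t : ℕ) (L : IntermediateField K (AlgebraicClosure K)), 0 < t ∧ D ∣ t ∧ Finite L ∧
      Nat.card L = Nat.card K ^ t ∧
      ∀ α : AlgebraicClosure K, (minpoly K α).natDegree ≤ m → α ∈ L := by
  classical
  have := Fintype.ofFinite K
  set t := D * m.factorial with ht
  have ht0 : 0 < t := Nat.mul_pos hD m.factorial_pos
  have hq1 : 1 < Nat.card K := Finite.one_lt_card
  have hqt : 1 < Nat.card K ^ t := Nat.one_lt_pow ht0.ne' hq1
  obtain ⟨p, _, n, hp, hcard⟩ := FiniteField.card' K
  have : CharP (AlgebraicClosure K) p :=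
    charP_of_injective_algebraMap (algebraMap K (AlgebraicClosure K)).injective p
  have : _root_.Fact p.Prime := ⟨hp⟩
  set P : (AlgebraicClosure K)[X] := X ^ (Nat.card K ^ t) - X with hP
  have hPdeg : P.natDegree = Nat.card K ^ t := FiniteField.X_pow_card_sub_X_natDegree_eq _ hqt
  have hP0 : P ≠ 0 := FiniteField.X_pow_card_sub_X_ne_zero _ hqt
  have hsep : P.Separable := by
    refine galois_poly_separable p _ ?_
    rw [Nat.card_eq_fintype_card, hcard, ← pow_mul]
    exact dvd_pow_self _ (Nat.mul_pos n.pos ht0).ne'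
  have hset : ((bfFix K t : IntermediateField K (AlgebraicClosure K)) :
      Set (AlgebraicClosure K)) = (P.roots.toFinset : Set (AlgebraicClosure K)) := by
    ext α
    rw [SetLike.mem_coe, bfFix_mem, Finset.mem_coe, Multiset.mem_toFinset, mem_roots hP0,
      IsRoot.def, hP, eval_sub, eval_pow, eval_X, sub_eq_zero]
  have hfin : (((bfFix K t : IntermediateField K (AlgebraicClosure K)) :
      Set (AlgebraicClosure K))).Finite := by
    rw [hset]; exact Finset.finite_toSet _
  refine ⟨t, bfFix K t, ht0, Dvd.intro _ rfl, hfin.to_subtype, ?_, ?_⟩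
  · have h1 : Nat.card (bfFix K t) = (((bfFix K t : IntermediateField K (AlgebraicClosure K)) :
      Set (AlgebraicClosure K))).ncard := rfl
    rw [h1, hset, Set.ncard_coe_finset, Multiset.toFinset_card_of_nodup (nodup_roots hsep),
      ← (IsAlgClosed.splits P).natDegree_eq_card_roots, hPdeg]
  · intro α hα
    rw [bfFix_mem]
    have hint : IsIntegral K α := Algebra.IsIntegral.isIntegral α
    set E := IntermediateField.adjoin K {α} with hE
    have : FiniteDimensional K E := IntermediateField.adjoin.finiteDimensional hint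
    have hrank : finrank K E = (minpoly K α).natDegree := IntermediateField.adjoin.finrank hint
    set d := (minpoly K α).natDegree with hd
    have hd0 : 0 < d := minpoly.natDegree_pos hint
    have hdt : d ∣ t := (Nat.dvd_factorial hd0 hα).trans (Dvd.intro_left _ rfl)
    obtain ⟨c, hc⟩ := hdt
    have : Finite E := Module.finite_of_finite K
    have := Fintype.ofFinite E
    have hEcard : Fintype.card E = Nat.card K ^ d := by
      rw [← Nat.card_eq_fintype_card, ← hrank]
      exact Module.natCard_eq_pow_finrank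
    have h2 := FiniteField.pow_card_pow c (⟨α, IntermediateField.mem_adjoin_simple_self K α⟩ : E)
    rw [hEcard, ← pow_mul, ← hc] at h2
    exact congrArg Subtype.val h2

/-- Base change of the general linear group. -/
theorem exists_bc {L : Type} [Field L] [Algebra K L] (m : ℕ) :
    ∃ bc : ((Fin m → K) ≃ₗ[K] (Fin m → K)) →* ((Fin m → L) ≃ₗ[L] (Fin m → L)),
      ∀ g : (Fin m → K) ≃ₗ[K] (Fin m → K),
        LinearMap.charpoly (bc g : (Fin m → L) →ₗ[L] (Fin m → L)) =
          (LinearMap.charpoly (g : (Fin m → K) →ₗ[K] (Fin m → K))).map (algebraMap K L) := by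
  classical
  let f : ((Fin m → K) →ₗ[K] (Fin m → K)) →* ((Fin m → L) →ₗ[L] (Fin m → L)) :=
    ((Matrix.toLinAlgEquiv' : Matrix (Fin m) (Fin m) L ≃ₐ[L] _) :
      Matrix (Fin m) (Fin m) L →* ((Fin m → L) →ₗ[L] (Fin m → L))).comp
    (((algebraMap K L).mapMatrix :
      Matrix (Fin m) (Fin m) K →+* Matrix (Fin m) (Fin m) L).toMonoidHom.comp
      ((LinearMap.toMatrixAlgEquiv' : ((Fin m → K) →ₗ[K] (Fin m → K)) ≃ₐ[K] _) :
        ((Fin m → K) →ₗ[K] (Fin m → K)) →* Matrix (Fin m) (Fin m) K))
  refine ⟨(LinearMap.GeneralLinearGroup.generalLinearEquiv L (Fin m → L)).toMonoidHom.comp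
    ((Units.map f).comp
      (LinearMap.GeneralLinearGroup.generalLinearEquiv K (Fin m → K)).symm.toMonoidHom), ?_⟩
  intro g
  have h1 : (((LinearMap.GeneralLinearGroup.generalLinearEquiv L (Fin m → L)).toMonoidHom.comp
    ((Units.map f).comp
      (LinearMap.GeneralLinearGroup.generalLinearEquiv K (Fin m → K)).symm.toMonoidHom)) g :
      (Fin m → L) →ₗ[L] (Fin m → L)) =
      Matrix.toLin' ((LinearMap.toMatrix' (g : (Fin m → K) →ₗ[K] (Fin m → K))).map
        (algebraMap K L)) := rfl
  rw [h1, ← LinearMap.charpoly_toMatrix _ (Pi.basisFun L (Fin m)),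
    ← LinearMap.charpoly_toMatrix (g : (Fin m → K) →ₗ[K] (Fin m → K)) (Pi.basisFun K (Fin m)),
    ← Matrix.charpoly_map]
  congr 1
  rw [← Matrix.toLin_eq_toLin', LinearMap.toMatrix_toLin, LinearMap.toMatrix_eq_toMatrix']

private theorem bf_ker_prod {L V : Type} [Field L] [AddCommGroup V] [Module L V]
    (f : End L V) (S : Finset L) :
    LinearMap.ker (aeval f (∏ μ ∈ S, (X - C μ))) ≤ ⨆ μ : L, f.eigenspace μ := by
  classical
  induction S using Finset.induction_on with
  | empty =>
    rw [Finset.prod_empty, map_one]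
    intro x hx
    rw [LinearMap.mem_ker] at hx
    change x = 0 at hx
    rw [hx]
    exact Submodule.zero_mem _
  | insert a S ha ih =>
    rw [Finset.prod_insert ha, ← Polynomial.sup_ker_aeval_eq_ker_aeval_mul_of_coprime]
    · refine sup_le ?_ ih
      refine le_trans ?_ (le_iSup _ a)
      intro x hx
      rw [LinearMap.mem_ker, map_sub, aeval_X, aeval_C] at hx
      rw [Module.End.mem_eigenspace_iff]
      exact sub_eq_zero.1 hx
    · refine IsCoprime.prod_right fun i hi => ?_
      exact isCoprime_X_sub_C_of_isUnit_sub (sub_ne_zero.2 (by rintro rfl; exact ha hi)).isUnit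

/-- A `p`-regular automorphism whose characteristic polynomial splits is diagonalizable. -/
theorem exists_eigenbasis {L : Type} [Field L] (p : ℕ) [_root_.Fact p.Prime] [CharP L p]
    {V : Type} [AddCommGroup V] [Module L V] [FiniteDimensional L V] (g : V ≃ₗ[L] V)
    (hs : (LinearMap.charpoly (g : V →ₗ[L] V)).Splits) (hg : IsReg p g) :
    ∃ (b : Basis (Fin (finrank L V)) L V) (t : Fin (finrank L V) → L),
      (∀ i, g (b i) = t i • b i) ∧
      (LinearMap.charpoly (g : V →ₗ[L] V)).roots = Finset.univ.val.map t := by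
  classical
  obtain ⟨N, hN, hgN⟩ := hg
  set f : End L V := (g : V →ₗ[L] V) with hf
  have hfN : f ^ N = 1 := by
    ext x
    have h1 : ∀ k : ℕ, ∀ x, (f ^ k) x = (g ^ k) x := by
      intro k
      induction k with
      | zero => intro x; rfl
      | succ k ih =>
        intro x
        rw [pow_succ, pow_succ]
        exact ih (g x)
    rw [h1, hgN]; rfl
  have hN0 : (N : L) ≠ 0 := by
    rw [Ne, CharP.cast_eq_zero_iff L p]
    intro h
    exact (_root_.Fact.out : p.Prime).one_lt.ne' (Nat.Coprime.eq_one_of_dvd hN.symm h)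
  have hsep : (X ^ N - 1 : L[X]).Separable := X_pow_sub_one_separable_iff.2 hN0
  have hdvd : minpoly L f ∣ X ^ N - 1 := by
    refine minpoly.dvd L f ?_
    rw [map_sub, map_pow, aeval_X, map_one, hfN, sub_self]
  have hsepm : (minpoly L f).Separable := hsep.of_dvd hdvd
  have hsm : (minpoly L f).Splits :=
    hs.of_dvd (LinearMap.charpoly_monic f).ne_zero (LinearMap.minpoly_dvd_charpoly f)
  have hint : IsIntegral L f := Algebra.IsIntegral.isIntegral f
  have hprod : minpoly L f = ∏ μ ∈ (minpoly L f).roots.toFinset, (X - C μ) := by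
    conv_lhs => rw [hsm.eq_prod_roots_of_monic (minpoly.monic hint)]
    rw [Finset.prod, Multiset.toFinset_val, Multiset.dedup_eq_self.2 (nodup_roots hsepm)]
  have htop : ⨆ μ : L, f.eigenspace μ = ⊤ := by
    rw [eq_top_iff]
    refine le_trans ?_ (bf_ker_prod f (minpoly L f).roots.toFinset)
    rw [← hprod, minpoly.aeval, LinearMap.ker_zero]
  have hint2 : DirectSum.IsInternal fun μ : L => f.eigenspace μ :=
    DirectSum.isInternal_submodule_of_iSupIndep_of_iSup_eq_top f.eigenspaces_iSupIndep htop
  set B := hint2.collectedBasis fun μ => finBasis L (f.eigenspace μ) with hB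
  have hfi : Finite (Σ μ : L, Fin (finrank L (f.eigenspace μ))) := Module.Finite.finite_basis B
  have := Fintype.ofFinite (Σ μ : L, Fin (finrank L (f.eigenspace μ)))
  have hcard : Fintype.card (Σ μ : L, Fin (finrank L (f.eigenspace μ))) =
      Fintype.card (Fin (finrank L V)) := by
    rw [← finrank_eq_card_basis B, Fintype.card_fin]
  set e := Fintype.equivOfCardEq hcard with he
  set b : Basis (Fin (finrank L V)) L V := B.reindex e with hb
  set t : Fin (finrank L V) → L := fun i => (e.symm i).1 with ht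
  have hbt : ∀ i, f (b i) = t i • b i := by
    intro i
    have h1 : b i ∈ f.eigenspace (t i) := by
      rw [hb, Basis.reindex_apply]
      exact hint2.collectedBasis_mem _ _
    exact Module.End.mem_eigenspace_iff.1 h1
  refine ⟨b, t, hbt, ?_⟩
  have hmat : LinearMap.toMatrix b b f = Matrix.diagonal t := by
    ext i k
    rw [LinearMap.toMatrix_apply, hbt, map_smul, Basis.repr_self, Finsupp.smul_single,
      smul_eq_mul, mul_one, Finsupp.single_apply, Matrix.diagonal_apply]
    by_cases h : i = k
    · rw [if_pos h.symm, if_pos h, h]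
    · rw [if_neg (Ne.symm h), if_neg h]
  have hchar : LinearMap.charpoly f = ∏ i, (X - C (t i)) := by
    rw [← LinearMap.charpoly_toMatrix f b, hmat, Matrix.charpoly_diagonal]
  rw [hchar]
  have h3 : (∏ i, (X - C (t i)) : L[X]) =
      ((Finset.univ.val.map t).map fun a => X - C a).prod := by
    rw [Multiset.map_map]; rfl
  rw [h3, roots_multiset_prod_X_sub_C]

end Pool.Agent.Lib.MP_02a407_al
end
end

section

section

/-!
# The kernel of the antipode of the Hall ring
-/

namespace Pool.Agent.Lib.MP_02a407_al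

open Module Polynomial

set_option linter.unusedSectionVars false

variable {K : Type} [Field K] [Finite K]

open Classical in
/-- The reproducing kernel. -/
noncomputable def rker (K : Type) [Field K] [Finite K] : Hall K (Hall K ℚ) :=
  fun C D => if C = D then cz C else 0

lemma rker_zero : rker K 0 = 1 := by
  classical
  ext D
  rw [rker]
  by_cases h : D = 0
  · rw [h, if_pos rfl, cz_zero, Hall.one_zero]
  · rw [if_neg (Ne.symm h), Hall.one_of_ne h]

/-- The inverse of the reproducing kernel: the kernel of the antipode. -/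
noncomputable def aker (K : Type) [Field K] [Finite K] : Hall K (Hall K ℚ) :=
  (exists_inv (rker K) rker_zero).choose

lemma aker_zero : aker K 0 = 1 := (exists_inv (rker K) rker_zero).choose_spec.1

lemma rker_mul_aker : rker K * aker K = 1 := (exists_inv (rker K) rker_zero).choose_spec.2

lemma rker_apply_self (C : Cls K) : rker K C C = cz C := by
  classical
  rw [rker, if_pos rfl]

lemma rker_of_ne {C D : Cls K} (h : C ≠ D) : rker K C D = 0 := by
  classical
  rw [rker, if_neg h]

lemma rker_symm (C D : Cls K) : rker K C D = rker K D C := by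
  by_cases h : C = D
  · rw [h]
  · rw [rker_of_ne h, rker_of_ne (Ne.symm h)]

/-- The inverse of the reproducing kernel is unique. -/
lemma eq_aker {X : Hall K (Hall K ℚ)} (h : rker K * X = 1) : X = aker K := by
  calc X = (rker K * aker K) * X := by rw [rker_mul_aker, one_mul]
    _ = aker K * (rker K * X) := by ring
    _ = aker K := by rw [h, mul_one]

lemma one_apply_apply (C D : Cls K) :
    (1 : Hall K (Hall K ℚ)) C D = (1 : Hall K ℚ) C * (1 : Hall K ℚ) D := by
  by_cases hC : C = 0
  · rw [hC, Hall.one_zero, Hall.one_zero, one_mul]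
  · rw [Hall.one_of_ne hC, Hall.one_of_ne hC, zero_mul, Hall.zero_apply]

/-- Exchange of the variables. -/
noncomputable def Hall.swap : Hall K (Hall K ℚ) →+* Hall K (Hall K ℚ) where
  toFun Φ := fun C D => Φ D C
  map_zero' := rfl
  map_one' := by
    ext C D
    change (1 : Hall K (Hall K ℚ)) D C = _
    rw [one_apply_apply, one_apply_apply, mul_comm]
  map_add' _ _ := rfl
  map_mul' Φ Ψ := by
    ext C D
    change (Φ * Ψ) D C = _
    rw [mul_apply_apply, mul_apply_apply, Finset.sum_comm]

lemma Hall.swap_apply (Φ : Hall K (Hall K ℚ)) (C D : Cls K) : Hall.swap Φ C D = Φ D C := rfl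

theorem aker_symm (C D : Cls K) : aker K C D = aker K D C := by
  have h1 : Hall.swap (rker K) = rker K := by
    ext C D
    rw [Hall.swap_apply, rker_symm]
  have h2 : Hall.swap (aker K) = aker K := by
    apply eq_aker
    have h3 := congrArg (Hall.swap (K := K)) (rker_mul_aker (K := K))
    rwa [map_mul, map_one, h1] at h3
  have h4 := congrArg (fun Φ : Hall K (Hall K ℚ) => Φ D C) h2
  exact h4

/-- The grading automorphism. -/
noncomputable def Hall.grad : Hall K (Hall K ℚ) →+* Hall K (Hall K ℚ) where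
  toFun Φ := fun C D => (2 : ℚ) ^ ((cl C : ℤ) - (cl D : ℤ)) * Φ C D
  map_zero' := by
    ext C D
    change (2 : ℚ) ^ ((cl C : ℤ) - (cl D : ℤ)) * (0 : ℚ) = 0
    rw [mul_zero]
  map_one' := by
    ext C D
    change (2 : ℚ) ^ ((cl C : ℤ) - (cl D : ℤ)) * (1 : Hall K (Hall K ℚ)) C D = _
    rw [one_apply_apply]
    by_cases hC : C = 0
    · by_cases hD : D = 0
      · rw [hC, hD, sub_self, zpow_zero, one_mul]
      · rw [Hall.one_of_ne hD, mul_zero, mul_zero]
    · rw [Hall.one_of_ne hC, zero_mul, mul_zero]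
  map_add' Φ Ψ := by
    ext C D
    change (2 : ℚ) ^ ((cl C : ℤ) - (cl D : ℤ)) * (Φ C D + Ψ C D) =
      (2 : ℚ) ^ ((cl C : ℤ) - (cl D : ℤ)) * Φ C D + (2 : ℚ) ^ ((cl C : ℤ) - (cl D : ℤ)) * Ψ C D
    rw [mul_add]
  map_mul' Φ Ψ := by
    ext C D
    change (2 : ℚ) ^ ((cl C : ℤ) - (cl D : ℤ)) * (Φ * Ψ) C D = _
    rw [mul_apply_apply, mul_apply_apply, Finset.mul_sum]
    refine Finset.sum_congr rfl fun W _ => ?_
    rw [Finset.mul_sum]
    refine Finset.sum_congr rfl fun V _ => ?_
    have hW := W.xp_cl_add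
    have hV := V.xp_cl_add
    change _ = ((2 : ℚ) ^ ((cl (cls W.sub) : ℤ) - (cl (cls V.sub) : ℤ)) *
        Φ (cls W.sub) (cls V.sub)) *
      ((2 : ℚ) ^ ((cl (cls W.quo) : ℤ) - (cl (cls V.quo) : ℤ)) * Ψ (cls W.quo) (cls V.quo))
    rw [mul_mul_mul_comm, ← zpow_add₀ (two_ne_zero)]
    congr 2
    rw [← hW, ← hV]
    push_cast
    ring

lemma Hall.grad_apply (Φ : Hall K (Hall K ℚ)) (C D : Cls K) :
    Hall.grad Φ C D = (2 : ℚ) ^ ((cl C : ℤ) - (cl D : ℤ)) * Φ C D := rfl

theorem aker_supp {C D : Cls K} (h : cl C ≠ cl D) : aker K C D = 0 := by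
  have h1 : Hall.grad (rker K) = rker K := by
    ext C D
    rw [Hall.grad_apply]
    by_cases hCD : C = D
    · rw [hCD, sub_self, zpow_zero, one_mul]
    · rw [rker_of_ne hCD, mul_zero]
  have h2 : Hall.grad (aker K) = aker K := by
    apply eq_aker
    have h3 := congrArg (Hall.grad (K := K)) (rker_mul_aker (K := K))
    rwa [map_mul, map_one, h1] at h3
  have h4 : Hall.grad (aker K) C D = aker K C D := by rw [h2]
  rw [Hall.grad_apply] at h4
  by_contra h5
  have h6 : (2 : ℚ) ^ ((cl C : ℤ) - (cl D : ℤ)) = 1 := by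
    have := mul_right_cancel₀ (b := aker K C D) h5 (h4.trans (one_mul _).symm)
    exact this
  have h7 : ((cl C : ℤ) - (cl D : ℤ)) = 0 := by
    have := zpow_right_injective₀ (a := (2 : ℚ)) two_pos (by norm_num)
      (a₁ := ((cl C : ℤ) - (cl D : ℤ))) (a₂ := 0)
    apply this
    simpa using h6
  omega

theorem aker_inv (C D : Cls K) : aker K (invC C) (invC D) = aker K C D := by
  have h1 : Hall.inv (Hall.map (Hall.inv (K := K) (A := ℚ)) (rker K)) = rker K := by
    ext C D
    rw [Hall.inv_apply, Hall.map_apply, Hall.inv_apply]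
    by_cases hCD : C = D
    · rw [hCD, rker_apply_self, rker_apply_self, cz_invC]
    · rw [rker_of_ne hCD, rker_of_ne]
      intro h
      apply hCD
      rw [← invC_invC C, h, invC_invC]
  have h2 : Hall.inv (Hall.map (Hall.inv (K := K) (A := ℚ)) (aker K)) = aker K := by
    apply eq_aker
    have h3 := congrArg (fun Φ => Hall.inv (Hall.map (Hall.inv (K := K) (A := ℚ)) Φ))
      (rker_mul_aker (K := K))
    simp only [map_mul, map_one] at h3
    rwa [h1] at h3
  have h4 : Hall.inv (Hall.map (Hall.inv (K := K) (A := ℚ)) (aker K)) C D = aker K C D := by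
    rw [h2]
  rwa [Hall.inv_apply, Hall.map_apply, Hall.inv_apply] at h4

/-- The reproducing property. -/
lemma integ_rker (m : ℕ) (D : Cls K) (f : Cls K → ℚ) :
    integ m (fun C => rker K C D * f C) = if cl D = m then f D else 0 := by
  classical
  rw [integ]
  by_cases h : cl D = m
  · rw [if_pos h, Finset.sum_eq_single D]
    · rw [rker_apply_self, smul_eq_mul, ← mul_assoc, inv_mul_cancel₀ (cent_ne D), one_mul]
    · intro C _ hC
      rw [rker_of_ne hC, zero_mul, smul_zero]
    · intro h'
      exact absurd (mem_degCls.2 h) h'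
  · rw [if_neg h]
    refine Finset.sum_eq_zero fun C hC => ?_
    rw [mem_degCls] at hC
    rw [rker_of_ne, zero_mul, smul_zero]
    rintro rfl
    exact h hC

lemma res_rker (C D E : Cls K) :
    res (rker K C) D E = ssum (fun C₁ C₂ => rker K C₁ D * rker K C₂ E) C := by
  classical
  by_cases h : cl D + cl E = cl C
  · obtain ⟨φ, hφ⟩ : ∃ φ : Hall K ℚ, ∀ C₁, φ C₁ = rker K C₁ D :=
      ⟨fun C₁ => rker K C₁ D, fun _ => rfl⟩
    obtain ⟨ψ, hψ⟩ : ∃ ψ : Hall K ℚ, ∀ C₂, ψ C₂ = rker K C₂ E :=
      ⟨fun C₂ => rker K C₂ E, fun _ => rfl⟩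
    have h1 := integ_hmul φ ψ (rker K C) (cl C)
    have h2 : integ (cl C) (fun C' => (φ * ψ) C' * rker K C C') = (φ * ψ) C := by
      have h3 := integ_rker (cl C) C (φ * ψ)
      rw [if_pos rfl] at h3
      rw [← h3]
      refine integ_congr fun C' _ => ?_
      rw [rker_symm C C', mul_comm]
    have h4 : ∀ a b : ℕ, integ a (fun C' => integ b (fun D' => rker K C' D * rker K D' E *
        res (rker K C) C' D')) = if cl D = a then (if cl E = b then res (rker K C) D E else 0)
          else 0 := by
      intro a b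
      rw [← integ_rker a D (fun C' => if cl E = b then res (rker K C) C' E else 0)]
      refine integ_congr fun C' _ => ?_
      rw [← integ_rker b E (fun D' => res (rker K C) C' D'), ← integ_mul_left]
      refine integ_congr fun D' _ => ?_
      ring
    rw [h2] at h1
    simp only [hφ, hψ, h4] at h1
    rw [Finset.sum_eq_single (cl D, cl E)] at h1
    · rw [if_pos rfl, if_pos rfl] at h1
      rw [← h1, Hall.mul_apply]
      simp only [hφ, hψ]
    · rintro ⟨a, b⟩ _ hne
      by_cases ha : cl D = a
      · by_cases hb : cl E = b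
        · exact absurd (by rw [ha, hb]) hne
        · simp only
          rw [if_neg hb, ite_self]
      · simp only
        rw [if_neg ha]
    · intro h'
      exact absurd (Finset.HasAntidiagonal.mem_antidiagonal.2 h) h'
  · have h1 : res (rker K C) D E = 0 := by
      rw [res_def, resFun, Finset.sum_eq_zero, smul_zero]
      intro X _
      apply rker_of_ne
      intro h'
      apply h
      rw [h', cl_cls, Module.finrank_prod, finrank_cM', finrank_cM']
    rw [h1, ssum]
    symm
    refine Finset.sum_eq_zero fun W _ => ?_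
    by_cases h2 : cls W.sub = D
    · by_cases h3 : cls W.quo = E
      · exfalso
        apply h
        rw [← h2, ← h3]
        exact W.xp_cl_add
      · rw [rker_of_ne h3, mul_zero]
    · rw [rker_of_ne h2, zero_mul]

lemma i12_i13 (x a : Hall K ℚ) (D E : Cls K) :
    (Hall.map (algebraMap ℚ (Hall K ℚ)) x * algebraMap (Hall K ℚ) (Hall K (Hall K ℚ)) a) D E =
      x D * a E := by
  rw [Algebra.algebraMap_eq_smul_one, mul_smul_comm, mul_one, Hall.smul_apply, Hall.map_apply,
    Algebra.algebraMap_eq_smul_one, smul_eq_mul, mul_smul_comm, mul_one, Hall.smul_apply,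
    smul_eq_mul]

/-- The kernel of the antipode is multiplicative in the second variable. -/
theorem res_aker (C D E : Cls K) :
    res (aker K C) D E = ssum (fun C₁ C₂ => aker K C₁ D * aker K C₂ E) C := by
  have key : ∀ Φ Ψ : Hall K (Hall K ℚ), ∀ C D E : Cls K,
      (Hall.map (Hall.map (algebraMap ℚ (Hall K ℚ))) Φ *
        Hall.map (algebraMap (Hall K ℚ) (Hall K (Hall K ℚ))) Ψ) C D E =
        ssum (fun C₁ C₂ => Φ C₁ D * Ψ C₂ E) C := by
    intro Φ Ψ C D E
    rw [Hall.mul_apply, ssum, ssum, Hall.sum_apply, Hall.sum_apply]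
    refine Finset.sum_congr rfl fun W _ => ?_
    rw [Hall.map_apply, Hall.map_apply, i12_i13]
  have h1 : Hall.map (res (K := K) (A := ℚ)) (rker K) =
      Hall.map (Hall.map (algebraMap ℚ (Hall K ℚ))) (rker K) *
        Hall.map (algebraMap (Hall K ℚ) (Hall K (Hall K ℚ))) (rker K) := by
    ext C D E
    rw [key, Hall.map_apply, res_rker]
  have h2 : Hall.map (res (K := K) (A := ℚ)) (aker K) =
      Hall.map (Hall.map (algebraMap ℚ (Hall K ℚ))) (aker K) *
        Hall.map (algebraMap (Hall K ℚ) (Hall K (Hall K ℚ))) (aker K) := by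
    have e1 : Hall.map (res (K := K) (A := ℚ)) (rker K) *
        Hall.map (res (K := K) (A := ℚ)) (aker K) = 1 := by
      rw [← map_mul, rker_mul_aker, map_one]
    have e2 : Hall.map (Hall.map (algebraMap ℚ (Hall K ℚ))) (rker K) *
        Hall.map (Hall.map (algebraMap ℚ (Hall K ℚ))) (aker K) = 1 := by
      rw [← map_mul, rker_mul_aker, map_one]
    have e3 : Hall.map (algebraMap (Hall K ℚ) (Hall K (Hall K ℚ))) (rker K) *
        Hall.map (algebraMap (Hall K ℚ) (Hall K (Hall K ℚ))) (aker K) = 1 := by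
      rw [← map_mul, rker_mul_aker, map_one]
    rw [h1] at e1
    calc Hall.map (res (K := K) (A := ℚ)) (aker K)
        = (Hall.map (Hall.map (algebraMap ℚ (Hall K ℚ))) (rker K) *
            Hall.map (Hall.map (algebraMap ℚ (Hall K ℚ))) (aker K)) *
          (Hall.map (algebraMap (Hall K ℚ) (Hall K (Hall K ℚ))) (rker K) *
            Hall.map (algebraMap (Hall K ℚ) (Hall K (Hall K ℚ))) (aker K)) *
          Hall.map (res (K := K) (A := ℚ)) (aker K) := by rw [e2, e3, one_mul, one_mul]
      _ = (Hall.map (Hall.map (algebraMap ℚ (Hall K ℚ))) (rker K) *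
            Hall.map (algebraMap (Hall K ℚ) (Hall K (Hall K ℚ))) (rker K) *
            Hall.map (res (K := K) (A := ℚ)) (aker K)) *
          (Hall.map (Hall.map (algebraMap ℚ (Hall K ℚ))) (aker K) *
            Hall.map (algebraMap (Hall K ℚ) (Hall K (Hall K ℚ))) (aker K)) := by ring
      _ = _ := by rw [e1, one_mul]
  have h3 : Hall.map (res (K := K) (A := ℚ)) (aker K) C D E =
      (Hall.map (Hall.map (algebraMap ℚ (Hall K ℚ))) (aker K) *
        Hall.map (algebraMap (Hall K ℚ) (Hall K (Hall K ℚ))) (aker K)) C D E := by rw [h2]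
  rwa [key, Hall.map_apply] at h3

end Pool.Agent.Lib.MP_02a407_al
end

section

/-!
# The antipode of the Hall ring
-/

namespace Pool.Agent.Lib.MP_02a407_al

open Module Polynomial

set_option linter.unusedSectionVars false

variable {K : Type} [Field K] [Finite K]

variable {A : Type} [CommRing A] [Algebra ℚ A]

/-- The antipode. -/
noncomputable def anti (φ : Hall K A) : Hall K A :=
  fun C => integ (cl C) (fun D => aker K C D • φ D)

lemma anti_zero_apply (φ : Hall K A) : anti φ 0 = φ 0 := by
  rw [anti, cl_zero, integ_zero, aker_zero, Hall.one_zero, one_smul]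

/-! ### Auxiliary formulas for integrals -/

lemma integ_comm (m n : ℕ) (f : Cls K → Cls K → A) :
    integ m (fun C => integ n (fun D => f C D)) = integ n (fun D => integ m (fun C => f C D)) := by
  simp only [integ, Finset.smul_sum]
  rw [Finset.sum_comm]
  refine Finset.sum_congr rfl fun D _ => Finset.sum_congr rfl fun C _ => ?_
  rw [smul_comm]

lemma integ_smul_hmul (f g : Hall K ℚ) (χ : Hall K A) (m : ℕ) :
    integ m (fun C => (f * g) C • χ C) = ∑ p ∈ Finset.HasAntidiagonal.antidiagonal m,
      integ p.1 (fun C => integ p.2 (fun D => (f C * g D) • res χ C D)) := by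
  have h := integ_hmul (Hall.map (algebraMap ℚ A) f) (Hall.map (algebraMap ℚ A) g) χ m
  rw [← map_mul] at h
  simp only [Hall.map_apply, ← map_mul, ← Algebra.smul_def] at h
  exact h

lemma integ_hmul_smul (φ ψ : Hall K A) (χ : Hall K ℚ) (m : ℕ) :
    integ m (fun C => χ C • (φ * ψ) C) = ∑ p ∈ Finset.HasAntidiagonal.antidiagonal m,
      integ p.1 (fun C => integ p.2 (fun D => res χ C D • (φ C * ψ D))) := by
  have h := integ_hmul φ ψ (Hall.map (algebraMap ℚ A) χ) m
  simp only [Hall.map_apply, res_map] at h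
  have h1 : ∀ (r : ℚ) (a : A), a * algebraMap ℚ A r = r • a := fun r a => by
    rw [Algebra.smul_def, mul_comm]
  simp only [h1] at h
  exact h

lemma integ_rker_smul (m : ℕ) (C : Cls K) (f : Cls K → A) :
    integ m (fun D => rker K C D • f D) = if cl C = m then f C else 0 := by
  classical
  rw [integ]
  by_cases h : cl C = m
  · rw [if_pos h, Finset.sum_eq_single C]
    · rw [rker_apply_self, smul_smul, inv_mul_cancel₀ (cent_ne C), one_smul]
    · intro D _ hD
      rw [rker_of_ne hD.symm, zero_smul, smul_zero]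
    · intro h'
      exact absurd (mem_degCls.2 h) h'
  · rw [if_neg h]
    refine Finset.sum_eq_zero fun D hD => ?_
    rw [mem_degCls] at hD
    rw [rker_of_ne, zero_smul, smul_zero]
    rintro rfl
    exact h hD

lemma integ_aker_smul (m : ℕ) (C : Cls K) (φ : Hall K A) :
    integ m (fun D => aker K C D • φ D) = if cl C = m then anti φ C else 0 := by
  by_cases h : cl C = m
  · rw [if_pos h, anti, h]
  · rw [if_neg h, integ]
    refine Finset.sum_eq_zero fun D hD => ?_
    rw [mem_degCls] at hD
    rw [aker_supp (by rw [hD]; exact h), zero_smul, smul_zero]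

lemma integ_apply (m : ℕ) (F : Cls K → Hall K A) (E : Cls K) :
    (integ m F) E = integ m (fun C => F C E) := by
  rw [integ, integ, Hall.sum_apply]
  rfl

/-- The defining property of the antipode. -/
theorem anti_conv (φ : Hall K A) {C : Cls K} (hC : C ≠ 0) :
    ssum (fun D E => anti (fun D' => res φ D' E) D) C = 0 := by
  have h0 : (aker K * rker K) C = 0 := by
    rw [mul_comm, rker_mul_aker, Hall.one_of_ne hC]
  have h1 : integ (cl C) (fun X => ((aker K * rker K) C) X • φ X) = 0 := by
    rw [h0, integ]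
    refine Finset.sum_eq_zero fun D _ => ?_
    rw [Hall.zero_apply, zero_smul, smul_zero]
  rw [← h1, Hall.mul_apply, ssum, ssum]
  have h2 : ∀ X : Cls K, (∑ W : Stab (cA (C : ConjClasses (GLInf K))),
      aker K (cls W.sub) * rker K (cls W.quo) : Hall K ℚ) X • φ X =
      ∑ W : Stab (cA (C : ConjClasses (GLInf K))),
        (aker K (cls W.sub) * rker K (cls W.quo) : Hall K ℚ) X • φ X := by
    intro X
    rw [Hall.sum_apply, Finset.sum_smul]
  simp only [h2]
  rw [integ_sum]
  refine Finset.sum_congr rfl fun W _ => ?_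
  rw [integ_smul_hmul]
  have h3 : ∀ a b : ℕ, integ a (fun D' => integ b (fun E' =>
      (aker K (cls W.sub) D' * rker K (cls W.quo) E') • res φ D' E')) =
      if cl (cls W.quo) = b then (if cl (cls W.sub) = a then
        anti (fun D' => res φ D' (cls W.quo)) (cls W.sub) else 0) else 0 := by
    intro a b
    by_cases hb : cl (cls W.quo) = b
    · rw [if_pos hb, ← integ_aker_smul a (cls W.sub) (fun D' => res φ D' (cls W.quo))]
      refine integ_congr fun D' _ => ?_
      simp only [mul_smul]
      rw [integ_smul, integ_rker_smul, if_pos hb]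
    · rw [if_neg hb, integ]
      refine Finset.sum_eq_zero fun D' _ => ?_
      simp only [mul_smul]
      rw [integ_smul, integ_rker_smul, if_neg hb, smul_zero, smul_zero]
  simp only [h3]
  rw [Finset.sum_eq_single (cl (cls W.sub), cl (cls W.quo))]
  · rw [if_pos rfl, if_pos rfl]
  · rintro ⟨a, b⟩ _ hne
    by_cases hb : cl (cls W.quo) = b
    · by_cases ha : cl (cls W.sub) = a
      · exact absurd (by rw [ha, hb]) hne
      · simp only
        rw [if_neg ha, ite_self]
    · simp only
      rw [if_neg hb]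
  · intro h'
    exact absurd (Finset.HasAntidiagonal.mem_antidiagonal.2 W.xp_cl_add) h'

theorem anti_mul (φ ψ : Hall K A) : anti (φ * ψ) = anti φ * anti ψ := by
  ext C
  rw [Hall.mul_apply, ssum]
  change integ (cl C) (fun D => aker K C D • (φ * ψ) D) = _
  rw [integ_hmul_smul]
  have h1 : ∀ p : ℕ × ℕ, integ p.1 (fun D => integ p.2 (fun E =>
      res (aker K C) D E • (φ D * ψ E))) =
      ∑ W : Stab (cA (C : ConjClasses (GLInf K))),
        (if cl (cls W.sub) = p.1 then anti φ (cls W.sub) else 0) *
          (if cl (cls W.quo) = p.2 then anti ψ (cls W.quo) else 0) := by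
    intro p
    simp only [res_aker, ssum, Finset.sum_smul, integ_sum]
    refine Finset.sum_congr rfl fun W _ => ?_
    rw [← integ_aker_smul p.1, ← integ_aker_smul p.2, ← integ_mul_right]
    refine integ_congr fun D _ => ?_
    rw [← integ_mul_left]
    refine integ_congr fun E _ => ?_
    rw [smul_mul_smul_comm]
  simp only [h1]
  rw [Finset.sum_comm]
  refine Finset.sum_congr rfl fun W _ => ?_
  rw [Finset.sum_eq_single (cl (cls W.sub), cl (cls W.quo))]
  · rw [if_pos rfl, if_pos rfl]
  · rintro ⟨a, b⟩ _ hne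
    by_cases hb : cl (cls W.quo) = b
    · by_cases ha : cl (cls W.sub) = a
      · exact absurd (by rw [ha, hb]) hne
      · simp only
        rw [if_neg ha, zero_mul]
    · simp only
      rw [if_neg hb, mul_zero]
  · intro h'
    exact absurd (Finset.HasAntidiagonal.mem_antidiagonal.2 W.xp_cl_add) h'

theorem anti_grp {F : Hall K A} (h : IsGrp F) : anti F * F = 1 := by
  ext C
  by_cases hC : C = 0
  · rw [hC, mul_zero_apply, anti_zero_apply, h.1, one_mul, Hall.one_zero]
  · rw [Hall.one_of_ne hC, ← anti_conv F hC, Hall.mul_apply]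
    congr 1
    funext D E
    change _ = integ (cl D) (fun D' => aker K D D' • res F D' E)
    rw [anti, ← integ_mul_right]
    refine integ_congr fun D' _ => ?_
    rw [h.2, smul_mul_assoc]

lemma anti_one : anti (1 : Hall K A) = 1 := by
  ext C
  by_cases hC : C = 0
  · rw [hC, anti_zero_apply]
  · rw [Hall.one_of_ne hC, anti, integ]
    refine Finset.sum_eq_zero fun D hD => ?_
    rw [mem_degCls] at hD
    have : D ≠ 0 := by
      rintro rfl
      rw [cl_zero] at hD
      exact hC ((cl_eq_zero_iff C).1 hD.symm)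
    rw [Hall.one_of_ne this, smul_zero, smul_zero]

lemma integ_aker_rker (C E : Cls K) :
    integ (cl C) (fun D => aker K C D * rker K D E) = aker K C E := by
  have h := integ_rker (cl C) E (fun D => aker K C D)
  by_cases hE : cl E = cl C
  · rw [if_pos hE] at h
    rw [← h]
    exact integ_congr fun D _ => mul_comm _ _
  · rw [if_neg hE] at h
    rw [aker_supp (Ne.symm hE), ← h]
    exact integ_congr fun D _ => mul_comm _ _

lemma anti_rker : anti (rker K) = aker K := by
  ext C E
  rw [anti, integ_apply, ← integ_aker_rker C E]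
  rfl

lemma anti_aker : anti (aker K) = rker K := by
  have h1 : aker K * anti (aker K) = 1 := by
    rw [← anti_rker, anti_rker (K := K), ← anti_one, ← rker_mul_aker, anti_mul, anti_rker]
  calc anti (aker K) = (rker K * aker K) * anti (aker K) := by rw [rker_mul_aker, one_mul]
    _ = rker K * (aker K * anti (aker K)) := mul_assoc _ _ _
    _ = rker K := by rw [h1, mul_one]

lemma integ_aker_aker (C D : Cls K) :
    integ (cl C) (fun C' => aker K C C' * aker K C' D) = rker K C D := by
  have h : anti (aker K) C D = rker K C D := by rw [anti_aker]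
  rw [anti, integ_apply] at h
  exact h

theorem anti_anti (φ : Hall K A) : anti (anti φ) = φ := by
  ext C
  have h1 : anti (anti φ) C = integ (cl C) (fun C' => integ (cl C) (fun D =>
      (aker K C C' * aker K C' D) • φ D)) := by
    rw [anti]
    refine integ_congr fun C' hC' => ?_
    simp only [mul_smul]
    rw [integ_smul, anti, hC']
  rw [h1, integ_comm]
  have h2 : ∀ D : Cls K, integ (cl C) (fun C' => (aker K C C' * aker K C' D) • φ D) =
      rker K C D • φ D := by
    intro D
    rw [← integ_aker_aker C D, integ, integ, Finset.sum_smul]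
    refine Finset.sum_congr rfl fun C' _ => ?_
    rw [smul_assoc]
  simp only [h2]
  rw [integ_rker_smul, if_pos rfl]

theorem integ_anti (φ ψ : Hall K A) (m : ℕ) :
    integ m (fun C => anti φ C * ψ C) = integ m (fun C => φ C * anti ψ C) := by
  have h1 : integ m (fun C => anti φ C * ψ C) =
      integ m (fun C => integ m (fun D => aker K C D • (φ D * ψ C))) := by
    refine integ_congr fun C hC => ?_
    rw [anti, hC, ← integ_mul_right]
    refine integ_congr fun D _ => ?_
    rw [smul_mul_assoc]
  have h2 : integ m (fun D => φ D * anti ψ D) =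
      integ m (fun D => integ m (fun C => aker K C D • (φ D * ψ C))) := by
    refine integ_congr fun D hD => ?_
    rw [anti, hD, ← integ_mul_left]
    refine integ_congr fun C _ => ?_
    rw [aker_symm D C, mul_smul_comm]
  rw [h1, h2, integ_comm]

theorem anti_inv (φ : Hall K A) : anti (Hall.inv φ) = Hall.inv (anti φ) := by
  ext C
  rw [Hall.inv_apply, anti, anti, cl_invC, ← integ_inv (cl C) (fun D => aker K (invC C) D • φ D)]
  refine integ_congr fun D _ => ?_
  rw [aker_inv, Hall.inv_apply]

lemma anti_del1 : anti (del1 K A) = sgn (prm A (oneP K)) := by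
  have h1 := anti_grp (isGrp_del1 (K := K) (A := A))
  have h2 := del1_mul_prm (K := K) (A := A)
  calc anti (del1 K A) = anti (del1 K A) * (del1 K A * sgn (prm A (oneP K))) := by
        rw [h2, mul_one]
    _ = (anti (del1 K A) * del1 K A) * sgn (prm A (oneP K)) := (mul_assoc _ _ _).symm
    _ = sgn (prm A (oneP K)) := by rw [h1, one_mul]

/-- The antipode exchanges `ε₁` and `ν` up to sign. -/
theorem ep_anti (φ : Hall K A) (m : ℕ) :
    PowerSeries.coeff m (ep K A (anti φ)) = (-1) ^ m * PowerSeries.coeff m (nu K A φ) := by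
  rw [coeff_ep, coeff_nu, integ_anti, anti_del1, ← integ_mul_left]
  refine integ_congr fun C hC => ?_
  rw [sgn, hC]
  ring

end Pool.Agent.Lib.MP_02a407_al
end

section

/-!
# The operator `Z` is injective
-/

namespace Pool.Agent.Lib.MP_02a407_al

open Module Polynomial

set_option linter.unusedSectionVars false

variable {K : Type} [Field K] [Finite K] {𝕜 : Type} [Field 𝕜] [IsAlgClosed 𝕜] [CharZero 𝕜]

namespace ZInj

/-- Classes of degree `dim V` come from automorphisms of `V`. -/
lemma exists_aut {V : Type} [AddCommGroup V] [Module K V] [FiniteDimensional K V] {C : Cls K}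
    (h : cl C = finrank K V) : ∃ g : V ≃ₗ[K] V, cls g = C := by
  have hdim : finrank K (cM (C : ConjClasses (GLInf K))) = finrank K V := by
    rw [finrank_cM', h]
  let e := LinearEquiv.ofFinrankEq _ _ hdim
  refine ⟨e.symm.trans ((cA (C : ConjClasses (GLInf K))).trans e), ?_⟩
  have he : ∀ x, e (cA (C : ConjClasses (GLInf K)) x) =
      (e.symm.trans ((cA (C : ConjClasses (GLInf K))).trans e)) (e x) := fun x => by simp
  rw [← cls_congr e he, cls_cA]

lemma isChar_transport {V W : Type} [AddCommGroup V] [Module K V] [FiniteDimensional K V]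
    [AddCommGroup W] [Module K W] [FiniteDimensional K W] (hVW : finrank K V = finrank K W)
    {φ : Hall K 𝕜} (h : IsChar 𝕜 (fun g : V ≃ₗ[K] V => φ (cls g))) :
    IsChar 𝕜 (fun g : W ≃ₗ[K] W => φ (cls g)) := by
  let e := LinearEquiv.ofFinrankEq V W hVW
  let f : (W ≃ₗ[K] W) →* (V ≃ₗ[K] V) :=
    { toFun := fun g => (e.trans g).trans e.symm
      map_one' := by ext x; simp
      map_mul' := by intro a b; ext x; simp }
  have h1 := h.comap f
  have h2 : (fun g : W ≃ₗ[K] W => φ (cls (f g))) = fun g : W ≃ₗ[K] W => φ (cls g) := by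
    funext g
    congr 1
    exact cls_congr e (fun x => by simp [f])
  rwa [h2] at h1

lemma anti_congr {m : ℕ} {φ ψ : Hall K 𝕜} (h : ∀ C, cl C = m → φ C = ψ C) {C : Cls K}
    (hC : cl C = m) : anti φ C = anti ψ C := by
  rw [anti, anti]
  exact integ_congr (fun D hD => by rw [h D (by rw [hD, hC])])

lemma anti_sum {ι : Type*} (s : Finset ι) (a : ι → 𝕜) (χ : ι → Hall K 𝕜) (C : Cls K) :
    anti (∑ j ∈ s, a j • χ j) C = ∑ j ∈ s, a j * anti (χ j) C := by
  rw [anti]
  simp only [Hall.sum_apply, Hall.smul_apply, smul_eq_mul, Finset.smul_sum]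
  rw [integ_sum]
  refine Finset.sum_congr rfl fun j _ => ?_
  rw [anti, ← integ_mul_left]
  refine integ_congr fun D _ => ?_
  rw [mul_smul_comm]

lemma hLat_dpart {O : Subring 𝕜} {a : ℕ} {φ : Hall K 𝕜} (h : HLat O a φ) (a' : ℕ) :
    HLat O a' (dpart a φ) := by
  by_cases h' : a' = a
  · subst h'
    exact h.congr (fun C hC => (dpart_of_eq hC).symm)
  · exact HLat.zero.congr (fun C hC => (dpart_of_ne (by rw [hC]; exact h')).symm)

lemma cls_top_sub {M : Type} [AddCommGroup M] [Module K M] [FiniteDimensional K M]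
    (g : M ≃ₗ[K] M) : cls (Stab.top g).sub = cls g :=
  cls_congr (Submodule.topEquiv : (⊤ : Submodule K M) ≃ₗ[K] M) (fun _ => rfl)

lemma cls_top_quo {M : Type} [AddCommGroup M] [Module K M] [FiniteDimensional K M]
    (g : M ≃ₗ[K] M) : cls (Stab.top g).quo = 0 := by
  rw [cls_eq_zero_iff, Stab.space_top]
  infer_instance

lemma eq_top {C : Cls K} {W : Stab (cA (C : ConjClasses (GLInf K)))}
    (h : cl (cls W.sub) = cl C) : W = Stab.top _ := by
  apply Stab.ext
  rw [Stab.space_top]
  apply Submodule.eq_top_of_finrank_eq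
  rw [← cl_cls W.sub, h, finrank_cM']

/-- The case of a character. -/
lemma anti_char {O : Subring 𝕜} {m : ℕ}
    (ih : ∀ a < m, ∀ {φ : Hall K 𝕜}, HLat O a φ → HLat O a (anti φ))
    (φ : Hall K 𝕜) (hφ : IsChar 𝕜 (fun g : (Fin m → K) ≃ₗ[K] (Fin m → K) => φ (cls g))) :
    HLat O m (anti φ) := by
  classical
  rcases Nat.eq_zero_or_pos m with rfl | hm
  · rw [hLat_zero, anti_zero_apply, ← hLat_zero]
    exact GLat.of_char hφ
  have hres : ∀ a : Fin m, ∃ (n : ℕ) (α β : Fin n → Hall K 𝕜), (∀ i, HLat O a (α i)) ∧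
      (∀ i, HLat O (m - a) (β i)) ∧ ∀ D E, cl D = a → cl E = m - a →
        res φ D E = ∑ i, α i D * β i E := by
    intro a
    have ha := a.2
    have h1 : IsChar 𝕜 (fun g : ((Fin (a : ℕ) → K) × (Fin (m - a) → K)) ≃ₗ[K]
        ((Fin (a : ℕ) → K) × (Fin (m - a) → K)) => φ (cls g)) := by
      refine isChar_transport ?_ hφ
      rw [Module.finrank_prod, Module.finrank_fin_fun, Module.finrank_fin_fun,
        Module.finrank_fin_fun]
      omega
    obtain ⟨n, α, β, hα, hβ, hαβ⟩ := hc_res h1
    choose α' hα' using fun i => exists_lift (hα i).isCF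
    choose β' hβ' using fun i => exists_lift (hβ i).isCF
    refine ⟨n, α', β', fun i => ?_, fun i => ?_, fun D E hD hE => ?_⟩
    · have := GLat.of_char (O := O) (hα i)
      rw [HLat]
      convert this using 2
      exact hα' i _
    · have := GLat.of_char (O := O) (hβ i)
      rw [HLat]
      convert this using 2
      exact hβ' i _
    · obtain ⟨g, rfl⟩ := exists_aut (V := Fin (a : ℕ) → K) (C := D)
        (by rw [hD, Module.finrank_fin_fun])
      obtain ⟨h, rfl⟩ := exists_aut (V := Fin (m - a) → K) (C := E)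
        (by rw [hE, Module.finrank_fin_fun])
      rw [res_cls]
      simp only [hα', hβ']
      rw [← hαβ g h, Rat.smul_def]
      push_cast
      rfl
  choose n α β hα hβ hαβ using hres
  have hΦ : HLat O m (-∑ a : Fin m, ∑ i : Fin (n a),
      dpart (a : ℕ) (anti (α a i)) * dpart (m - a) (β a i) : Hall K 𝕜) := by
    refine HLat.neg (HLat.sum fun a _ => HLat.sum fun i _ =>
      HLat.mul (fun a' _ => ?_) (fun a' _ => ?_))
    · exact hLat_dpart (ih a a.2 (hα a i)) a'
    · exact hLat_dpart (hβ a i) a'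
  refine hΦ.congr (fun C hC => ?_)
  have hC0 : C ≠ 0 := by
    rintro rfl
    rw [cl_zero] at hC
    omega
  have h1 := anti_conv φ hC0
  rw [ssum] at h1
  have h2 : ∀ W : Stab (cA (C : ConjClasses (GLInf K))),
      anti (fun D' => res φ D' (cls W.quo)) (cls W.sub) =
        (if W = Stab.top _ then anti φ C else 0) + ∑ a : Fin m, ∑ i : Fin (n a),
          dpart (a : ℕ) (anti (α a i)) (cls W.sub) * dpart (m - a) (β a i) (cls W.quo) := by
    intro W
    have hW := W.xp_cl_add
    by_cases hWt : W = Stab.top _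
    · rw [if_pos hWt]
      have hs : cls W.sub = C := by rw [hWt, cls_top_sub, cls_cA]
      have hq : cls W.quo = 0 := by rw [hWt, cls_top_quo]
      have h3 : (fun D' => res φ D' (cls W.quo) : Hall K 𝕜) = φ := by
        ext D'
        rw [hq, res_zero_right]
      rw [h3, hs, Finset.sum_eq_zero, add_zero]
      intro a _
      refine Finset.sum_eq_zero fun i _ => ?_
      rw [dpart_of_ne (m := (a : ℕ)), zero_mul]
      have := a.2
      omega
    · rw [if_neg hWt, zero_add]
      have hlt : cl (cls W.sub) < m := by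
        have h4 : cl (cls W.sub) ≠ cl C := fun h => hWt (eq_top h)
        omega
      obtain ⟨a, ha⟩ : ∃ a : Fin m, cl (cls W.sub) = a := ⟨⟨_, hlt⟩, rfl⟩
      have hq : cl (cls W.quo) = m - a := by omega
      rw [Finset.sum_eq_single a]
      · have h4 : ∀ i, dpart (a : ℕ) (anti (α a i)) (cls W.sub) *
            dpart (m - a) (β a i) (cls W.quo) = anti (α a i) (cls W.sub) * β a i (cls W.quo) := by
          intro i
          rw [dpart_of_eq ha, dpart_of_eq hq]
        simp only [h4]
        rw [anti, ha]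
        have h5 : integ (a : ℕ) (fun D => aker K (cls W.sub) D • res φ D (cls W.quo)) =
            integ (a : ℕ) (fun D => ∑ i : Fin (n a),
              (aker K (cls W.sub) D • α a i D) * β a i (cls W.quo)) := by
          refine integ_congr fun D hD => ?_
          rw [hαβ a D _ hD hq, Finset.smul_sum]
          simp only [smul_mul_assoc]
        rw [h5, integ_sum]
        refine Finset.sum_congr rfl fun i _ => ?_
        rw [integ_mul_right, anti, ha]
      · intro b _ hb
        refine Finset.sum_eq_zero fun i _ => ?_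
        rw [dpart_of_ne (m := (b : ℕ)), zero_mul]
        intro h
        apply hb
        apply Fin.ext
        rw [← h, ha]
      · intro h
        exact absurd (Finset.mem_univ _) h
  rw [Finset.sum_congr rfl fun W _ => h2 W, Finset.sum_add_distrib, Finset.sum_ite_eq',
    if_pos (Finset.mem_univ _)] at h1
  rw [Hall.neg_apply, Hall.sum_apply]
  have h3 : ∀ a : Fin m, (∑ i : Fin (n a),
      dpart (a : ℕ) (anti (α a i)) * dpart (m - a) (β a i) : Hall K 𝕜) C =
      ∑ W : Stab (cA (C : ConjClasses (GLInf K))), ∑ i : Fin (n a),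
        dpart (a : ℕ) (anti (α a i)) (cls W.sub) * dpart (m - a) (β a i) (cls W.quo) := by
    intro a
    rw [Hall.sum_apply, Finset.sum_comm]
    refine Finset.sum_congr rfl fun i _ => ?_
    rw [Hall.mul_apply, ssum]
  rw [Finset.sum_congr rfl fun a _ => h3 a, Finset.sum_comm]
  exact (eq_neg_of_add_eq_zero_left h1).symm

/-- The indicator function of the unipotent elements is a class function. -/
lemma isUnip_conj {M : Type} [AddCommGroup M] [Module K M] (g h : M ≃ₗ[K] M) :
    IsUnip (h * g * h⁻¹) ↔ IsUnip g := by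
  constructor
  · intro h1
    have h2 := ZAux.isUnip_comm h1
    have h3 : h⁻¹ * (h * g) = g := by group
    rwa [h3] at h2
  · intro h1
    have h3 : h⁻¹ * (h * g) = g := by group
    rw [← h3] at h1
    exact ZAux.isUnip_comm h1

section

variable {V : Type} [AddCommGroup V] [Module K V] [FiniteDimensional K V]

/-- The sum of the translates of an irreducible character. -/
lemma sum_transl_unip (I : IrrSys 𝕜 (V ≃ₗ[K] V)) (i : Fin I.n) (g : V ≃ₗ[K] V) :
    ∑ u ∈ unips (K := K) (M := V), I.χ i (g * u) =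
      (∑ u ∈ unips (K := K) (M := V), I.χ i u) / I.χ i 1 * I.χ i g := by
  classical
  have hz : IsCF (fun u : V ≃ₗ[K] V => if IsUnip u then (1 : 𝕜) else 0) := by
    intro g h
    simp only [isUnip_conj]
  have h1 := I.schur i _ hz g
  simp only [ite_mul, one_mul, zero_mul] at h1
  rw [← Finset.sum_filter, ← Finset.sum_filter] at h1
  have h2 : unips (K := K) (M := V) = Finset.univ.filter (fun u => IsUnip u) := by
    ext u
    rw [mem_unips, Finset.mem_filter]
    simp
  rw [h2]
  exact h1

lemma nu_eq (φ : Hall K 𝕜) :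
    PowerSeries.coeff (finrank K V) (nu K 𝕜 φ) =
      ((Nat.card (V ≃ₗ[K] V) : ℚ)⁻¹ : ℚ) • ∑ u ∈ unips (K := K) (M := V), φ (cls u) := by
  classical
  rw [coeff_nu, integ_eq (V := V)]
  congr 1
  have h2 : unips (K := K) (M := V) = Finset.univ.filter (fun u => IsUnip u) := by
    ext u
    rw [mem_unips, Finset.mem_filter]
    simp
  rw [h2, Finset.sum_filter]
  refine Finset.sum_congr rfl fun g _ => ?_
  have h3 : IsPrmy (oneP K) (cls g) ↔ IsUnip g := by
    rw [isPrmy_cls, IsUnip]
    have : aeval ((g : V →ₗ[K] V) : Module.End K V) (oneP K).f =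
        ((g : V →ₗ[K] V) - LinearMap.id : Module.End K V) := by
      change aeval ((g : V →ₗ[K] V) : Module.End K V) (X - 1 : K[X]) = _
      rw [map_sub, aeval_X, map_one]
      rfl
    rw [this]
  rw [prm]
  by_cases h : IsUnip g
  · rw [if_pos h, if_pos (h3.2 h), mul_one]
  · rw [if_neg h, if_neg (fun h' => h (h3.1 h')), mul_zero]

lemma card_ne : (Nat.card (V ≃ₗ[K] V) : ℚ) ≠ 0 := by
  have := finite_linearEquiv (K := K) (M := V)
  exact_mod_cast Nat.card_pos.ne'

lemma cardK_ne : (Nat.card K : ℚ) ≠ 0 := by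
  exact_mod_cast Nat.card_pos.ne'

end

end ZInj

open ZInj

/-- The antipode preserves the lattice. -/
theorem HLat.anti {O : Subring 𝕜} {m : ℕ} {φ : Hall K 𝕜} (h : HLat O m φ) :
    HLat O m (anti φ) := by
  classical
  induction m using Nat.strong_induction_on generalizing φ with
  | _ m ih =>
  obtain ⟨I⟩ := nonempty_irrSys 𝕜 ((Fin m → K) ≃ₗ[K] (Fin m → K))
  choose χ' hχ' using fun i => exists_lift (I.isChar i).isCF
  have h1 : HLat O m (∑ i, pair (fun g : (Fin m → K) ≃ₗ[K] (Fin m → K) => φ (cls g)) (I.χ i) •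
      MP_02a407_al.anti (χ' i) : Hall K 𝕜) := by
    refine HLat.sum fun i _ => HLat.smul (anti_char (fun a ha φ hφ => ih a ha hφ) (χ' i) ?_)
      (h.2 _ (I.isChar i))
    have h2 : (fun g : (Fin m → K) ≃ₗ[K] (Fin m → K) => χ' i (cls g)) = I.χ i :=
      funext (hχ' i)
    rw [h2]
    exact I.isChar i
  refine h1.congr (fun C hC => ?_)
  have h2 : ∀ D, cl D = m → (∑ i, pair (fun g : (Fin m → K) ≃ₗ[K] (Fin m → K) => φ (cls g))
      (I.χ i) • χ' i : Hall K 𝕜) D = φ D := by
    intro D hD
    obtain ⟨g, rfl⟩ := exists_aut (V := Fin m → K) (C := D) (by rw [hD, Module.finrank_fin_fun])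
    have h3 := I.complete _ h.1 g
    rw [Hall.sum_apply]
    simp only [Hall.smul_apply, hχ', smul_eq_mul]
    exact h3.symm
  rw [← anti_congr h2 hC, anti_sum, Hall.sum_apply]
  rfl

/-- The sum of an irreducible character over the unipotent elements is not zero. -/
theorem sum_unip_ne_zero {V : Type} [AddCommGroup V] [Module K V] [FiniteDimensional K V]
    (I : IrrSys 𝕜 (V ≃ₗ[K] V)) (i : Fin I.n) :
    ∑ u ∈ unips (K := K) (M := V), I.χ i u ≠ 0 := by
  classical
  obtain ⟨φ, hφ⟩ := exists_lift (I.isChar i).isCF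
  have hφ' : (fun g : V ≃ₗ[K] V => φ (cls g)) = I.χ i := funext hφ
  have h1 : GLat (Int.castRingHom 𝕜).range (fun g : V ≃ₗ[K] V => anti φ (cls g)) := by
    rw [← hLat_iff rfl]
    apply HLat.anti
    rw [hLat_iff (V := V) rfl, hφ']
    exact GLat.of_char (I.isChar i)
  have h2 : ∀ j, ∃ c : ℤ, (c : 𝕜) = pair (fun g : V ≃ₗ[K] V => anti φ (cls g)) (I.χ j) :=
    fun j => h1.2 _ (I.isChar j)
  choose c hc using h2
  have h3 : pair (fun g : V ≃ₗ[K] V => anti φ (cls g)) (fun g : V ≃ₗ[K] V => anti φ (cls g)) =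
      1 := by
    rw [pair_eq_integ]
    have h4 : integ (finrank K V) (fun C => anti φ C * Hall.inv (anti φ) C) =
        integ (finrank K V) (fun C => φ C * Hall.inv φ C) := by
      rw [← anti_inv, integ_anti, anti_anti]
    rw [h4, ← pair_eq_integ, hφ', I.orth, if_pos rfl]
  rw [pair_eq_sum I h1.1 h1.1] at h3
  simp only [← hc] at h3
  have h4 : ∑ j, c j * c j = 1 := by
    have : ((∑ j, c j * c j : ℤ) : 𝕜) = ((1 : ℤ) : 𝕜) := by
      push_cast
      exact h3
    exact_mod_cast this
  obtain ⟨j, hj⟩ : ∃ j, c j ≠ 0 := by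
    by_contra h
    push Not at h
    simp [h] at h4
  have h5 : ∀ k, k ≠ j → c k = 0 := by
    intro k hk
    by_contra h
    have h6 : 1 ≤ c j * c j := by
      have := mul_self_pos.2 hj
      omega
    have h7 : 1 ≤ c k * c k := by
      have := mul_self_pos.2 h
      omega
    have h8 : c j * c j + c k * c k ≤ ∑ l, c l * c l := by
      rw [← Finset.sum_pair (Ne.symm hk) (f := fun l => c l * c l)]
      exact Finset.sum_le_sum_of_subset_of_nonneg (Finset.subset_univ _)
        (fun l _ _ => mul_self_nonneg _)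
    omega
  have h6 : anti φ (cls (1 : V ≃ₗ[K] V)) = (c j : 𝕜) * I.χ j 1 := by
    have h7 := I.complete _ h1.1 1
    simp only [← hc] at h7
    rw [h7, Finset.sum_eq_single j]
    · intro k _ hk
      rw [h5 k hk, Int.cast_zero, zero_mul]
    · intro h
      exact absurd (Finset.mem_univ _) h
  have h7 : anti φ (cls (1 : V ≃ₗ[K] V)) ≠ 0 := by
    rw [h6]
    exact mul_ne_zero (Int.cast_ne_zero.2 hj) (I.one_ne j)
  have h8 : PowerSeries.coeff (finrank K V) (ep K 𝕜 (anti φ)) ≠ 0 := by
    rw [coeff_ep_eq, smul_ne_zero_iff]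
    exact ⟨div_ne_zero (pow_ne_zero _ cardK_ne) card_ne, h7⟩
  rw [ep_anti] at h8
  have h9 := right_ne_zero_of_mul h8
  rw [nu_eq, smul_ne_zero_iff] at h9
  simpa only [hφ] using h9.2

theorem Zop_injective {φ : Hall K 𝕜} {m : ℕ} (h : ∀ C, cl C = m → Zop φ C = 0) :
    ∀ C, cl C = m → φ C = 0 := by
  classical
  obtain ⟨I⟩ := nonempty_irrSys 𝕜 ((Fin m → K) ≃ₗ[K] (Fin m → K))
  have hcf : IsCF (fun g : (Fin m → K) ≃ₗ[K] (Fin m → K) => φ (cls g)) := isCF_cls φ
  set a : Fin I.n → 𝕜 := fun i =>
    pair (fun g : (Fin m → K) ≃ₗ[K] (Fin m → K) => φ (cls g)) (I.χ i) with ha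
  set ω : Fin I.n → 𝕜 := fun i =>
    (∑ u ∈ unips (K := K) (M := Fin m → K), I.χ i u) / I.χ i 1 with hω
  have h1 : ∀ g : (Fin m → K) ≃ₗ[K] (Fin m → K), φ (cls g) = ∑ i, a i * I.χ i g :=
    fun g => I.complete _ hcf g
  have h2 : ∀ g : (Fin m → K) ≃ₗ[K] (Fin m → K), ∑ i, (a i * ω i) * I.χ i g = 0 := by
    intro g
    have h3 := h (cls g) (by rw [cl_cls, Module.finrank_fin_fun])
    rw [Zop_cls] at h3
    simp only [h1] at h3
    rw [Finset.sum_comm] at h3
    rw [← h3]
    refine Finset.sum_congr rfl fun i _ => ?_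
    rw [← Finset.mul_sum, sum_transl_unip, mul_assoc]
  have h3 : ∀ j, a j = 0 := by
    intro j
    have h4 : pair (fun g => ∑ i, (a i * ω i) * I.χ i g) (I.χ j) = 0 := by
      simp only [h2]
      simp [pair]
    rw [pair_sum_left'] at h4
    simp only [pair_smul_left', I.orth, mul_ite, mul_one, mul_zero] at h4
    rw [Finset.sum_ite_eq' Finset.univ j, if_pos (Finset.mem_univ _)] at h4
    have h5 : ω j ≠ 0 := div_ne_zero (sum_unip_ne_zero I j) (I.one_ne j)
    exact (mul_eq_zero.1 h4).resolve_right h5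
  intro C hC
  obtain ⟨g, rfl⟩ := exists_aut (V := Fin m → K) (C := C) (by rw [hC, Module.finrank_fin_fun])
  rw [h1]
  simp [h3]

/-- The eigenvalue of `Z` at an irreducible character. -/
theorem Zop_irr {V : Type} [AddCommGroup V] [Module K V] [FiniteDimensional K V]
    (I : IrrSys 𝕜 (V ≃ₗ[K] V)) (i : Fin I.n) {φ : Hall K 𝕜} {s : 𝕜} (hs : s ≠ 0)
    (h : ∀ g : V ≃ₗ[K] V, φ (cls g) = s * I.χ i g) :
    PowerSeries.coeff (finrank K V) (ep K 𝕜 φ) ≠ 0 ∧
      ∀ C, cl C = finrank K V → Zop φ C =
        (Nat.card K : 𝕜) ^ ((finrank K V).choose 2) *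
          PowerSeries.coeff (finrank K V) (nu K 𝕜 φ) /
          PowerSeries.coeff (finrank K V) (ep K 𝕜 φ) * φ C := by
  have h1 : φ (cls (1 : V ≃ₗ[K] V)) ≠ 0 := by
    rw [h]
    exact mul_ne_zero hs (I.one_ne i)
  refine ⟨?_, ?_⟩
  · rw [coeff_ep_eq, smul_ne_zero_iff]
    exact ⟨div_ne_zero (pow_ne_zero _ cardK_ne) card_ne, h1⟩
  · intro C hC
    obtain ⟨g, rfl⟩ := exists_aut (V := V) (C := C) hC
    rw [Zop_cls, coeff_ep_eq, nu_eq (V := V)]
    simp only [h]
    rw [← Finset.mul_sum, ← Finset.mul_sum, sum_transl_unip, Rat.smul_def, Rat.smul_def]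
    have h2 : (Nat.card (V ≃ₗ[K] V) : 𝕜) ≠ 0 := by
      have := card_ne (K := K) (V := V)
      exact_mod_cast this
    have h3 : (Nat.card K : 𝕜) ≠ 0 := by
      have := cardK_ne (K := K)
      exact_mod_cast this
    have h4 := I.one_ne i
    push_cast
    field_simp

/-- `Z φ` is primitive if `Δ φ` vanishes outside of `0`. -/
theorem isPrim_Zop {φ : Hall K 𝕜} (h0 : φ 0 = 0)
    (h : ∀ C D : Cls K, C ≠ 0 → D ≠ 0 → Del φ C D = 0) :
    IsPrim (show Hall K 𝕜 from Zop φ) := by
  refine ⟨?_, fun C D hC hD => ?_⟩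
  · change Zop φ 0 = 0
    have h1 : (0 : Cls K) = cls (LinearEquiv.refl K PUnit.{1}) := (cls_subsingleton _).symm
    rw [h1, Zop_cls]
    refine Finset.sum_eq_zero fun u _ => ?_
    rw [cls_subsingleton, h0]
  · rw [← cls_cA C, ← cls_cA D, res_Zop]
    refine Finset.sum_eq_zero fun u _ => Finset.sum_eq_zero fun v _ => h _ _ ?_ ?_
    · intro h'
      apply hC
      rw [cls_eq_zero_iff] at h'
      rw [← cls_cA C, cls_eq_zero_iff]
      exact h'
    · intro h'
      apply hD
      rw [cls_eq_zero_iff] at h'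
      rw [← cls_cA D, cls_eq_zero_iff]
      exact h'

end Pool.Agent.Lib.MP_02a407_al
end
end
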