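import Pool.Agent.Lib.MP_02a407_al.Q2.Neck1
import Pool.Agent.Lib.MP_02a407_al.Q2.HLat
import Pool.Agent.Lib.MP_02a407_al.Q2.ZInj

section

/-!
# The function induced from a power of the determinant
-/

namespace Pool.Agent.Lib.MP_02a407_al

open Module Polynomial

set_option linter.unusedSectionVars false

variable {L : Type} [Field L] [Finite L] {𝕜 : Type} [Field 𝕜] [IsAlgClosed 𝕜] [CharZero 𝕜]

/-- The function `η ∘ det` in degree `a`. -/
noncomputable def detH (η : L →* 𝕜) (a : ℕ) : Hall L 𝕜 := fun C =>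
  if cl C = a then η (LinearMap.det (cA (C : ConjClasses (GLInf L)) :
    cM (C : ConjClasses (GLInf L)) →ₗ[L] cM (C : ConjClasses (GLInf L)))) else 0

/-- The function `1` in degree `b`. -/
noncomputable def oneH (𝕜 : Type) [Field 𝕜] (b : ℕ) : Hall L 𝕜 := fun C =>
  if cl C = b then 1 else 0

namespace DetInd

/-! ### The lattice -/

lemma det_cls {V : Type} [AddCommGroup V] [Module L V] [FiniteDimensional L V] (g : V ≃ₗ[L] V) :
    LinearMap.det (cA (cls g : ConjClasses (GLInf L)) :
      cM (cls g : ConjClasses (GLInf L)) →ₗ[L] cM (cls g : ConjClasses (GLInf L))) =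
      LinearMap.det (g : V →ₗ[L] V) := by
  obtain ⟨e, he⟩ := cls_iso (cls_cA (cls g))
  have h : (g : V →ₗ[L] V) = e.toLinearMap ∘ₗ
      (cA (cls g : ConjClasses (GLInf L))).toLinearMap ∘ₗ e.symm.toLinearMap := by
    ext x
    simp only [LinearMap.comp_apply, LinearEquiv.coe_coe]
    rw [he, e.apply_symm_apply]
  rw [h, LinearMap.det_conj]

lemma detH_cls (η : L →* 𝕜) (a : ℕ) {V : Type} [AddCommGroup V] [Module L V]
    [FiniteDimensional L V] (g : V ≃ₗ[L] V) :
    detH η a (cls g) = if finrank L V = a then η (LinearMap.det (g : V →ₗ[L] V)) else 0 := by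
  rw [detH, det_cls, cl_cls]

lemma hLat_detH (η : L →* 𝕜) (a m : ℕ) : HLat (OO 𝕜) m (detH η a) := by
  by_cases h : m = a
  · subst h
    have h1 := GLat.of_char (O := OO 𝕜) (isChar_of_hom (𝕜 := 𝕜)
      ((Units.map η).comp (LinearEquiv.det : ((Fin m → L) ≃ₗ[L] (Fin m → L)) →* Lˣ)))
    rw [HLat]
    convert h1 using 2 with g
    rw [detH_cls, if_pos (Module.finrank_fin_fun L)]
    simp
  · refine HLat.zero.congr (fun C hC => ?_)
    rw [Hall.zero_apply, detH, if_neg (by rw [hC]; exact h)]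

lemma hLat_oneH (b m : ℕ) : HLat (OO 𝕜) m (oneH (L := L) 𝕜 b) := by
  by_cases h : m = b
  · subst h
    have h1 := GLat.of_char (O := OO 𝕜) (isChar_of_hom (𝕜 := 𝕜)
      (1 : ((Fin m → L) ≃ₗ[L] (Fin m → L)) →* 𝕜ˣ))
    rw [HLat]
    convert h1 using 2 with g
    rw [oneH, if_pos (by rw [cl_cls, Module.finrank_fin_fun])]
    simp
  · refine HLat.zero.congr (fun C hC => ?_)
    rw [Hall.zero_apply, oneH, if_neg (by rw [hC]; exact h)]

lemma eta_mem (η : L →* 𝕜) {x : L} (hx : x ≠ 0) : η x ∈ OO 𝕜 := by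
  have h1 : (Units.mk0 x hx) ^ Nat.card Lˣ = 1 := pow_card_eq_one'
  have h2 : x ^ Nat.card Lˣ = 1 := by
    have := congrArg Units.val h1
    rwa [Units.val_pow_eq_pow_val, Units.val_mk0, Units.val_one] at this
  have h3 : (η x) ^ Nat.card Lˣ = 1 := by rw [← map_pow, h2, map_one]
  change IsIntegral ℤ (η x)
  refine IsIntegral.of_pow (n := Nat.card Lˣ) Nat.card_pos ?_
  rw [h3]
  exact isIntegral_one

lemma detH_mem (η : L →* 𝕜) (a : ℕ) (C : Cls L) : detH η a C ∈ OO 𝕜 := by
  rw [← cls_cA C, detH_cls]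
  split_ifs
  · apply eta_mem
    rw [← LinearEquiv.coe_det]
    exact Units.ne_zero _
  · exact Subring.zero_mem _

lemma oneH_mem (b : ℕ) (C : Cls L) : oneH 𝕜 b C ∈ OO 𝕜 := by
  rw [oneH]
  split_ifs
  · exact Subring.one_mem _
  · exact Subring.zero_mem _

/-! ### Free actions -/

lemma card_dvd_act {G α : Type} [Group G] [Finite G] [Finite α] (act : G → α → α)
    (h1 : ∀ x, act 1 x = x) (h2 : ∀ g h x, act (g * h) x = act g (act h x)) (S : α → Prop)
    (hS : ∀ g x, S x → S (act g x)) (hfree : ∀ g x, S x → act g x = x → g = 1) :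
    Nat.card G ∣ Nat.card {x // S x} := by
  let _ : MulAction G {x // S x} :=
    { smul := fun g x => ⟨act g x.1, hS g x.1 x.2⟩
      one_smul := fun x => Subtype.ext (h1 x.1)
      mul_smul := fun g h x => Subtype.ext (h2 g h x.1) }
  exact card_dvd_of_free (fun g x hx => hfree g x.1 x.2 (congrArg Subtype.val hx))

open Classical in
lemma free_sum {G α : Type} [Group G] [Finite G] [Fintype α] (act : G → α → α)
    (h1 : ∀ x, act 1 x = x) (h2 : ∀ g h x, act (g * h) x = act g (act h x)) (S : α → Prop)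
    (hS : ∀ g x, S x → S (act g x)) (hfree : ∀ g x, S x → act g x = x → g = 1)
    (O : Subring 𝕜) (F : α → 𝕜) (hF : ∀ g x, F (act g x) = F x) (hO : ∀ x, F x ∈ O) :
    ∃ c ∈ O, ∑ x ∈ Finset.univ.filter S, F x = (Nat.card G : 𝕜) * c := by
  have h3 : ∀ v : 𝕜, ∃ k : ℕ, ((Finset.univ.filter S).filter (fun x => F x = v)).card =
      Nat.card G * k := by
    intro v
    have h4 := card_dvd_act act h1 h2 (fun x => S x ∧ F x = v)
      (fun g x hx => ⟨hS g x hx.1, by rw [hF, hx.2]⟩) (fun g x hx => hfree g x hx.1)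
    obtain ⟨k, hk⟩ := h4
    refine ⟨k, ?_⟩
    rw [← hk, Finset.filter_filter, Nat.card_eq_fintype_card, Fintype.card_subtype]
  choose k hk using h3
  refine ⟨∑ v ∈ (Finset.univ.filter S).image F, (k v : 𝕜) * v, ?_, ?_⟩
  · refine Subring.sum_mem _ fun v hv => ?_
    obtain ⟨x, _, rfl⟩ := Finset.mem_image.1 hv
    exact Subring.mul_mem _ (natCast_mem _ _) (hO x)
  · have h4 := Finset.sum_comp (s := Finset.univ.filter S) (fun v : 𝕜 => v) F
    rw [h4, Finset.mul_sum]
    refine Finset.sum_congr rfl fun v _ => ?_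
    rw [hk v, nsmul_eq_mul]
    push_cast
    ring

/-! ### Scaling of one coordinate -/

section tw

variable {V : Type} [AddCommGroup V] [Module L V] {n : ℕ} (e : Basis (Fin n) L V)

/-- Multiplication of the `i`-th coordinate by `c`. -/
noncomputable def twl (i : Fin n) (c : L) : V →ₗ[L] V :=
  LinearMap.id + (c - 1) • (e.coord i).smulRight (e i)

lemma twl_apply (i : Fin n) (c : L) (x : V) :
    twl e i c x = x + ((c - 1) * e.coord i x) • e i := by
  rw [twl, LinearMap.add_apply, LinearMap.smul_apply, LinearMap.smulRight_apply, smul_smul]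
  rfl

lemma coord_basis (i j : Fin n) : e.coord i (e j) = if i = j then 1 else 0 := by
  rw [Basis.coord_apply, Basis.repr_self, Finsupp.single_apply]
  simp only [eq_comm]

lemma coord_twl (i j : Fin n) (c : L) (x : V) :
    e.coord j (twl e i c x) = (if j = i then c else 1) * e.coord j x := by
  rw [twl_apply, map_add, map_smul, coord_basis]
  by_cases h : j = i
  · subst h
    simp only [if_true, smul_eq_mul]
    ring
  · simp [h]

lemma twl_basis (i j : Fin n) (c : L) :
    twl e i c (e j) = (if j = i then c else 1) • e j := by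
  rw [twl_apply, coord_basis]
  by_cases h : j = i
  · subst h
    simp only [if_true, mul_one]
    rw [sub_smul, one_smul]
    abel
  · simp [h, Ne.symm h]

lemma twl_twl (i : Fin n) (c d : L) (x : V) : twl e i c (twl e i d x) = twl e i (c * d) x := by
  rw [twl_apply e i c, coord_twl, if_pos rfl, twl_apply, twl_apply, add_assoc, ← add_smul]
  congr 2
  ring

lemma twl_one (i : Fin n) (x : V) : twl e i 1 x = x := by
  rw [twl_apply, sub_self, zero_mul, zero_smul, add_zero]

/-- Multiplication of the `i`-th coordinate by a unit. -/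
noncomputable def tw (i : Fin n) (u : Lˣ) : V ≃ₗ[L] V where
  toFun := twl e i (u : L)
  map_add' := map_add _
  map_smul' := map_smul _
  invFun := twl e i ((u⁻¹ : Lˣ) : L)
  left_inv x := by
    rw [twl_twl, ← Units.val_mul, inv_mul_cancel, Units.val_one, twl_one]
  right_inv x := by
    rw [twl_twl, ← Units.val_mul, mul_inv_cancel, Units.val_one, twl_one]

lemma tw_apply (i : Fin n) (u : Lˣ) (x : V) : tw e i u x = twl e i (u : L) x := rfl

lemma tw_symm_apply (i : Fin n) (u : Lˣ) (x : V) :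
    (tw e i u).symm x = twl e i ((u⁻¹ : Lˣ) : L) x := rfl

variable {g : V ≃ₗ[L] V} {t : Fin n → L} (he : ∀ i, g (e i) = t i • e i)

include he in
lemma coord_diag (i : Fin n) (x : V) : e.coord i (g x) = t i * e.coord i x := by
  have h : (e.coord i) ∘ₗ (g : V →ₗ[L] V) = t i • e.coord i := by
    refine e.ext fun j => ?_
    rw [LinearMap.comp_apply, LinearEquiv.coe_coe, he, map_smul, LinearMap.smul_apply,
      coord_basis]
    by_cases h : i = j
    · subst h
      rfl
    · simp [h]
  exact congrArg (fun f : V →ₗ[L] L => f x) h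

include he in
lemma tw_comm (i : Fin n) (u : Lˣ) (x : V) : tw e i u (g x) = g (tw e i u x) := by
  rw [tw_apply, tw_apply, twl_apply, twl_apply, map_add, map_smul, he, coord_diag e he, smul_smul]
  congr 2
  ring

/-- The action on the stable subspaces. -/
noncomputable def act (i : Fin n) (u : Lˣ) (W : Stab g) : Stab g :=
  Stab.congr (tw e i u) (tw_comm e he i u) W

lemma mem_act (i : Fin n) (u : Lˣ) (W : Stab g) (x : V) :
    x ∈ (act e he i u W).space ↔ twl e i ((u⁻¹ : Lˣ) : L) x ∈ W.space := by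
  rw [act, Stab.space_congr, Submodule.mem_map_equiv, tw_symm_apply]

lemma act_one (i : Fin n) (W : Stab g) : act e he i 1 W = W := by
  apply Stab.ext
  ext x
  rw [mem_act, inv_one, Units.val_one, twl_one]

lemma act_mul (i : Fin n) (u v : Lˣ) (W : Stab g) :
    act e he i (u * v) W = act e he i u (act e he i v W) := by
  apply Stab.ext
  ext x
  rw [mem_act, mem_act, mem_act, twl_twl, ← Units.val_mul, ← mul_inv_rev]

/-- `e i` is not in `W`, and `W` is not contained in the `i`-th coordinate hyperplane. -/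
def PP (W : Submodule L V) (i : Fin n) : Prop := e i ∉ W ∧ ∃ w ∈ W, e.coord i w ≠ 0

lemma PP_act (i j : Fin n) (u : Lˣ) (W : Stab g) (h : PP e W.space j) :
    PP e (act e he i u W).space j := by
  obtain ⟨h1, w, hw, h2⟩ := h
  refine ⟨?_, twl e i (u : L) w, ?_, ?_⟩
  · rw [mem_act, twl_basis, Submodule.smul_mem_iff]
    · exact h1
    · split_ifs
      · exact Units.ne_zero _
      · exact one_ne_zero
  · rw [mem_act, twl_twl, ← Units.val_mul, inv_mul_cancel, Units.val_one, twl_one]
    exact hw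
  · rw [coord_twl]
    refine mul_ne_zero ?_ h2
    split_ifs
    · exact Units.ne_zero _
    · exact one_ne_zero

lemma PP_act_iff (i j : Fin n) (u : Lˣ) (W : Stab g) :
    PP e (act e he i u W).space j ↔ PP e W.space j := by
  constructor
  · intro h
    have h1 := PP_act e he i j u⁻¹ _ h
    rwa [← act_mul, inv_mul_cancel, act_one] at h1
  · exact PP_act e he i j u W

lemma act_free (i : Fin n) (u : Lˣ) (W : Stab g) (h : PP e W.space i)
    (h' : act e he i u W = W) : u = 1 := by
  obtain ⟨h1, w, hw, h2⟩ := h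
  by_contra hu
  apply h1
  have h3 : twl e i (u : L) w ∈ W.space := by
    rw [← h', mem_act, twl_twl, ← Units.val_mul, inv_mul_cancel, Units.val_one, twl_one]
    exact hw
  have h4 : (((u : L) - 1) * e.coord i w) • e i ∈ W.space := by
    have := W.space.sub_mem h3 hw
    rwa [twl_apply, add_sub_cancel_left] at this
  rwa [Submodule.smul_mem_iff] at h4
  refine mul_ne_zero (sub_ne_zero.2 fun h => hu (Units.ext h)) h2

/-! ### Coordinate subspaces -/

/-- The span of some of the basis vectors. -/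
def spS (S : Finset (Fin n)) : Submodule L V := Submodule.span L (Set.range fun i : S => e i)

lemma mem_spS (S : Finset (Fin n)) (x : V) : x ∈ spS e S ↔ ∀ i, i ∉ S → e.coord i x = 0 := by
  have h : Set.range (fun i : S => e i) = e '' (S : Set (Fin n)) := by
    rw [Set.image_eq_range]
    rfl
  rw [spS, h, Basis.mem_span_image]
  constructor
  · intro h1 i hi
    by_contra h2
    exact hi (h1 (Finsupp.mem_support_iff.2 h2))
  · intro h1 i hi
    by_contra h2
    exact (Finsupp.mem_support_iff.1 hi) (h1 i h2)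

include he in
lemma t_ne (i : Fin n) : t i ≠ 0 := by
  intro h
  have h1 := he i
  rw [h, zero_smul] at h1
  have h2 : e i = 0 := by
    apply g.injective
    rw [h1, map_zero]
  exact e.ne_zero i h2

/-- The span of some of the basis vectors is stable. -/
def stS (S : Finset (Fin n)) : Stab g := ⟨spS e S, fun x => by
  rw [mem_spS, mem_spS]
  simp only [coord_diag e he, mul_eq_zero, t_ne e he, false_or]⟩

lemma mem_stS (S : Finset (Fin n)) (x : V) :
    x ∈ (stS e he S).space ↔ ∀ i, i ∉ S → e.coord i x = 0 := mem_spS e S x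

lemma basis_mem_stS (S : Finset (Fin n)) (j : Fin n) : e j ∈ (stS e he S).space ↔ j ∈ S := by
  rw [mem_stS]
  constructor
  · intro h
    by_contra h1
    have := h j h1
    rw [coord_basis, if_pos rfl] at this
    exact one_ne_zero this
  · intro h i hi
    rw [coord_basis, if_neg]
    rintro rfl
    exact hi h

lemma not_PP_stS (S : Finset (Fin n)) (j : Fin n) : ¬ PP e (stS e he S).space j := by
  rintro ⟨h1, w, hw, h2⟩
  rw [basis_mem_stS] at h1
  exact h2 ((mem_stS e he S w).1 hw j h1)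

open Classical in
lemma eq_stS (W : Stab g) (h : ∀ i, ¬ PP e W.space i) :
    stS e he (Finset.univ.filter fun i => e i ∈ W.space) = W := by
  apply Stab.ext
  ext x
  rw [mem_stS]
  constructor
  · intro h1
    rw [← e.sum_repr x]
    refine Submodule.sum_mem _ fun i _ => ?_
    by_cases hi : e i ∈ W.space
    · exact Submodule.smul_mem _ _ hi
    · have h2 := h1 i (by simpa using hi)
      rw [Basis.coord_apply] at h2
      rw [h2, zero_smul]
      exact Submodule.zero_mem _
  · intro hx i hi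
    by_contra h2
    exact h i ⟨by simpa using hi, x, hx, h2⟩

lemma finrank_spS (S : Finset (Fin n)) : finrank L (spS e S) = S.card := by
  have hli : LinearIndependent L (fun i : S => e i) :=
    e.linearIndependent.comp _ Subtype.val_injective
  rw [spS, finrank_span_eq_card hli, Fintype.card_coe]

lemma det_stS (S : Finset (Fin n)) :
    LinearMap.det ((stS e he S).sub : (stS e he S).space →ₗ[L] (stS e he S).space) =
      ∏ i ∈ S, t i := by
  classical
  have hli : LinearIndependent L (fun i : S => e i) :=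
    e.linearIndependent.comp _ Subtype.val_injective
  let b : Basis S L (stS e he S).space := Basis.span hli
  have hb : ∀ i, ((b i : (stS e he S).space) : V) = e i := fun i => by
    have := Basis.span_apply hli i
    exact congrArg Subtype.val this
  rw [← LinearMap.det_toMatrix b]
  have h1 : LinearMap.toMatrix b b ((stS e he S).sub : (stS e he S).space →ₗ[L] (stS e he S).space) =
      Matrix.diagonal (fun i : S => t i) := by
    ext i j
    rw [LinearMap.toMatrix_apply]
    have h2 : ((stS e he S).sub : (stS e he S).space →ₗ[L] (stS e he S).space) (b j) =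
        t j • b j := by
      apply Subtype.ext
      rw [LinearEquiv.coe_coe, Stab.coe_sub, hb, he, Submodule.coe_smul, hb]
    rw [h2, map_smul, Basis.repr_self, Finsupp.smul_apply, Finsupp.single_apply,
      Matrix.diagonal_apply]
    by_cases h : j = i
    · subst h
      simp
    · simp [h, Ne.symm h]
  rw [h1, Matrix.det_diagonal]
  exact Finset.prod_coe_sort S t

end tw

end DetInd

open DetInd

theorem hLat_detInd (η : L →* 𝕜) (a b m : ℕ) : HLat (OO 𝕜) m (detH η a * oneH 𝕜 b) :=
  HLat.mul (fun a' _ => hLat_detH η a a') (fun a' _ => hLat_oneH b a')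

/-- At a diagonalizable automorphism the value is congruent modulo `Q - 1` to the elementary
symmetric function of the eigenvalues. -/
theorem detInd_mod (η : L →* 𝕜) (a b : ℕ) {V : Type} [AddCommGroup V] [Module L V]
    [FiniteDimensional L V] (h : finrank L V = a + b) (g : V ≃ₗ[L] V)
    (e : Basis (Fin (finrank L V)) L V) (t : Fin (finrank L V) → L)
    (he : ∀ i, g (e i) = t i • e i) :
    ∃ c ∈ OO 𝕜, (detH η a * oneH 𝕜 b : Hall L 𝕜) (cls g) =
      (epol η (Finset.univ.val.map t)).coeff a + ((Nat.card L : 𝕜) - 1) * c := by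
  classical
  set F : Stab g → 𝕜 := fun W => detH η a (cls W.sub) * oneH 𝕜 b (cls W.quo) with hF
  have hFO : ∀ W, F W ∈ OO 𝕜 := fun W => Subring.mul_mem _ (detH_mem η a _) (oneH_mem b _)
  have hFact : ∀ i u W, F (act e he i u W) = F W := by
    intro i u W
    simp only [hF, act]
    rw [Stab.cls_sub_congr, Stab.cls_quo_congr]
  have hcard : (Nat.card Lˣ : 𝕜) = (Nat.card L : 𝕜) - 1 := by
    rw [Nat.card_units, Nat.cast_sub Nat.card_pos, Nat.cast_one]
  -- step by step removal
  have key : ∀ s : Finset (Fin (finrank L V)), ∃ c ∈ OO 𝕜, ∑ W, F W =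
      ∑ W ∈ Finset.univ.filter (fun W : Stab g => ∀ i ∈ s, ¬ PP e W.space i), F W +
        ((Nat.card L : 𝕜) - 1) * c := by
    intro s
    induction s using Finset.induction_on with
    | empty => exact ⟨0, Subring.zero_mem _, by simp⟩
    | insert i s hi ih =>
      obtain ⟨c, hc, h1⟩ := ih
      obtain ⟨c', hc', h2⟩ := free_sum (act e he i) (act_one e he i) (act_mul e he i)
        (fun W => (∀ j ∈ s, ¬ PP e W.space j) ∧ PP e W.space i)
        (fun u W hW => ⟨fun j hj => by rw [PP_act_iff]; exact hW.1 j hj,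
          (PP_act_iff e he i i u W).2 hW.2⟩)
        (fun u W hW h' => act_free e he i u W hW.2 h') (OO 𝕜) F (hFact i) hFO
      refine ⟨c' + c, Subring.add_mem _ hc' hc, ?_⟩
      rw [h1, mul_add, ← add_assoc]
      congr 1
      have e1 := Finset.sum_filter_add_sum_filter_not (Finset.univ.filter
        (fun W : Stab g => ∀ j ∈ s, ¬ PP e W.space j)) (fun W => ¬ PP e W.space i) F
      rw [← e1, ← hcard, ← h2]
      congr 1
      · refine Finset.sum_congr ?_ fun _ _ => rfl
        ext W
        simp only [Finset.mem_filter, Finset.mem_univ, true_and, Finset.mem_insert,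
          forall_eq_or_imp]
        exact and_comm
      · refine Finset.sum_congr ?_ fun _ _ => rfl
        ext W
        simp only [Finset.mem_filter, Finset.mem_univ, true_and, not_not]
  obtain ⟨c, hc, h1⟩ := key Finset.univ
  refine ⟨c, hc, ?_⟩
  rw [Hall.mul_cls]
  change ∑ W, F W = _
  rw [h1]
  congr 1
  -- the coordinate subspaces
  have h2 : ∑ W ∈ Finset.univ.filter (fun W : Stab g => ∀ i ∈ Finset.univ, ¬ PP e W.space i), F W =
      ∑ S ∈ (Finset.univ : Finset (Fin (finrank L V))).powerset, F (stS e he S) := by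
    refine Finset.sum_nbij' (fun W => Finset.univ.filter fun i => e i ∈ W.space)
      (fun S => stS e he S) ?_ ?_ ?_ ?_ ?_
    · intro W _
      exact Finset.mem_powerset.2 (Finset.subset_univ _)
    · intro S _
      rw [Finset.mem_filter]
      exact ⟨Finset.mem_univ _, fun i _ => not_PP_stS e he S i⟩
    · intro W hW
      rw [Finset.mem_filter] at hW
      exact eq_stS e he W (fun i => hW.2 i (Finset.mem_univ _))
    · intro S _
      ext j
      simp only [Finset.mem_filter, Finset.mem_univ, true_and]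
      exact basis_mem_stS e he S j
    · intro W hW
      rw [Finset.mem_filter] at hW
      rw [eq_stS e he W (fun i => hW.2 i (Finset.mem_univ _))]
  rw [h2]
  have h3 : epol η (Finset.univ.val.map t) = ∏ i, (1 + C (η (t i)) * X) := by
    rw [epol, Multiset.map_map]
    rfl
  rw [h3, Finset.prod_one_add, Polynomial.finsetSum_coeff]
  refine Finset.sum_congr rfl fun S _ => ?_
  rw [Finset.prod_mul_distrib, Finset.prod_const, ← map_prod, coeff_C_mul_X_pow]
  have h4 : finrank L (stS e he S).space = S.card := finrank_spS e S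
  simp only [hF]
  rw [detH_cls, h4, det_stS, oneH]
  have h5 : S.card + cl (cls (stS e he S).quo) = a + b := by
    have h6 := (stS e he S).cl_sub_add_quo
    have h7 := cl_cls (stS e he S).sub
    omega
  by_cases h6 : S.card = a
  · rw [if_pos h6, if_pos (by omega), if_pos h6.symm, mul_one, map_prod]
  · rw [if_neg h6, if_neg (Ne.symm h6), zero_mul]

end Pool.Agent.Lib.MP_02a407_al
end

section

/-!
# Counting stable flags
-/

namespace Pool.Agent.Lib.MP_02a407_al

open Module Polynomial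

set_option linter.unusedSectionVars false

variable {L : Type} [Field L] [Finite L] {𝕜 : Type} [Field 𝕜] [IsAlgClosed 𝕜] [CharZero 𝕜]

/-- Multiplication by a unit. -/
noncomputable def unitAut (t : Lˣ) : L ≃ₗ[L] L := LinearEquiv.smulOfUnit t

open Classical in
/-- The indicator function of the class of the multiplication by `t` on a line. -/
noncomputable def dlt (𝕜 : Type) [Field 𝕜] (t : Lˣ) : Hall L 𝕜 :=
  fun C => if C = cls (unitAut t) then 1 else 0

/-- The number of stable complete flags with given diagonal. -/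
noncomputable def flg (𝕜 : Type) [Field 𝕜] (l : List Lˣ) : Hall L 𝕜 := (l.map (dlt 𝕜)).prod

/-- The order of `GL_1`. -/
lemma card_gl_one : Nat.card ((Fin 1 → L) ≃ₗ[L] (Fin 1 → L)) = Nat.card L - 1 := by
  classical
  have : Fintype L := Fintype.ofFinite L
  have h1 := Matrix.card_GL_field (𝔽 := L) 1
  have h2 : Nat.card (Matrix.GeneralLinearGroup (Fin 1) L) =
      Nat.card ((Fin 1 → L) ≃ₗ[L] (Fin 1 → L)) :=
    Nat.card_congr (Matrix.GeneralLinearGroup.toLin.trans
      (LinearMap.GeneralLinearGroup.generalLinearEquiv L (Fin 1 → L))).toEquiv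
  rw [← h2, h1]
  simp

/-- `(Q - 1) δ_t` is in the lattice. -/
lemma hLat_dlt (t : Lˣ) (m : ℕ) : HLat (OO 𝕜) m (((Nat.card L : 𝕜) - 1) • dlt 𝕜 t) := by
  by_cases hm : m = 1
  · subst hm
    have hc : ((Nat.card L : 𝕜) - 1) = (Nat.card ((Fin 1 → L) ≃ₗ[L] (Fin 1 → L)) : 𝕜) := by
      rw [card_gl_one, Nat.cast_sub Nat.card_pos, Nat.cast_one]
    rw [HLat, hc]
    refine GLat.card_mul (fun χ hχ g => hχ.isIntegral g) (isCF_cls _) fun g => ?_
    unfold dlt
    split_ifs
    · exact Subring.one_mem _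
    · exact Subring.zero_mem _
  · refine HLat.congr HLat.zero fun C hC => ?_
    have h1 : dlt 𝕜 t C = 0 := by
      refine if_neg ?_
      rintro rfl
      rw [cl_cls, finrank_self] at hC
      exact hm hC.symm
    rw [Hall.smul_apply, h1, smul_zero, Hall.zero_apply]

/-- `(Q - 1) ^ m F` is in the lattice, where `Q` is the number of elements of `L`. -/
theorem hLat_flg (l : List Lˣ) (m : ℕ) :
    HLat (OO 𝕜) m (((Nat.card L : 𝕜) - 1) ^ l.length • flg 𝕜 l) := by
  induction l generalizing m with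
  | nil =>
    rw [List.length_nil, pow_zero, one_smul]
    change HLat (OO 𝕜) m (1 : Hall L 𝕜)
    rcases Nat.eq_zero_or_pos m with rfl | hm
    · rw [hLat_zero, Hall.one_zero]
      exact Subring.one_mem _
    · refine HLat.congr HLat.zero fun C hC => ?_
      rw [Hall.one_of_ne, Hall.zero_apply]
      rintro rfl
      rw [cl_zero] at hC
      omega
  | cons t l ih =>
    have h1 : ((Nat.card L : 𝕜) - 1) ^ (t :: l).length • flg 𝕜 (t :: l) =
        (((Nat.card L : 𝕜) - 1) • dlt 𝕜 t) * (((Nat.card L : 𝕜) - 1) ^ l.length • flg 𝕜 l) := by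
      rw [smul_mul_smul_comm, List.length_cons, pow_succ, mul_comm (((Nat.card L : 𝕜) - 1) ^ _)]
      rfl
    rw [h1]
    exact HLat.mul (fun a _ => hLat_dlt t a) (fun a _ => ih a)

section

variable {V : Type} [AddCommGroup V] [Module L V] [FiniteDimensional L V]

lemma cls_sub_eq_iff (g : V ≃ₗ[L] V) (t : Lˣ) (W : Stab g) :
    cls W.sub = cls (unitAut t) ↔
      finrank L W.space = 1 ∧ W.space ≤ LinearMap.ker ((g : V →ₗ[L] V) - (t : L) • LinearMap.id) := by
  constructor
  · intro h
    obtain ⟨e, he⟩ := cls_iso h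
    refine ⟨by rw [e.finrank_eq, finrank_self], fun x hx => ?_⟩
    rw [LinearMap.mem_ker, LinearMap.sub_apply, LinearMap.smul_apply, LinearMap.id_apply,
      sub_eq_zero]
    have h1 : W.sub ⟨x, hx⟩ = (t : L) • (⟨x, hx⟩ : W.space) := by
      apply e.injective
      rw [he, map_smul]
      rfl
    exact congrArg Subtype.val h1
  · rintro ⟨h1, h2⟩
    have e : W.space ≃ₗ[L] L := LinearEquiv.ofFinrankEq _ _ (by rw [h1, finrank_self])
    refine cls_congr e fun x => ?_
    have h3 : W.sub x = (t : L) • x := by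
      apply Subtype.ext
      have h4 := h2 x.2
      rw [LinearMap.mem_ker, LinearMap.sub_apply, LinearMap.smul_apply, LinearMap.id_apply,
        sub_eq_zero] at h4
      exact h4
    rw [h3, map_smul]
    rfl

/-- The stable subspaces of the type of the multiplication by `t` are the lines of the
eigenspace. -/
noncomputable def lineEquiv (g : V ≃ₗ[L] V) (t : Lˣ) :
    {W : Stab g // cls W.sub = cls (unitAut t)} ≃
      {H : Submodule L (LinearMap.ker ((g : V →ₗ[L] V) - (t : L) • LinearMap.id)) //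
        finrank L H = 1} where
  toFun W := ⟨W.1.space.comap (Submodule.subtype _), by
    obtain ⟨h1, h2⟩ := (cls_sub_eq_iff g t W.1).1 W.2
    rw [← h1]
    exact (Submodule.comapSubtypeEquivOfLe h2).finrank_eq⟩
  invFun H := ⟨Stab.ofLE (H.1.map (Submodule.subtype _)) (by
      rintro _ ⟨y, hy, rfl⟩
      have h1 := y.2
      rw [LinearMap.mem_ker, LinearMap.sub_apply, LinearMap.smul_apply, LinearMap.id_apply,
        sub_eq_zero] at h1
      change g (y : V) ∈ _
      have h2 : g (y : V) = (t : L) • (y : V) := h1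
      rw [h2]
      exact Submodule.smul_mem _ _ ⟨y, hy, rfl⟩), by
    rw [cls_sub_eq_iff, Stab.space_ofLE]
    refine ⟨?_, Submodule.map_subtype_le _ _⟩
    exact ((Submodule.equivMapOfInjective _ (Submodule.injective_subtype _)
      H.1).symm.finrank_eq).trans H.2⟩
  left_inv W := by
    apply Subtype.ext
    apply Stab.ext
    rw [Stab.space_ofLE]
    have h2 := ((cls_sub_eq_iff g t W.1).1 W.2).2
    change Submodule.map _ (Submodule.comap _ W.1.space) = _
    rw [Submodule.map_comap_subtype]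
    exact inf_eq_right.2 h2
  right_inv H := by
    apply Subtype.ext
    change Submodule.comap _ (Submodule.map _ H.1) = H.1
    exact Submodule.comap_map_eq_of_injective (Submodule.injective_subtype _) _

/-- The number of lines in an eigenspace. -/
lemma card_lines (g : V ≃ₗ[L] V) (t : Lˣ)
    (h : (LinearMap.charpoly (g : V →ₗ[L] V)).IsRoot (t : L)) :
    ∃ m : ℕ, Nat.card {W : Stab g // cls W.sub = cls (unitAut t)} = 1 + Nat.card L * m := by
  rw [Nat.card_congr (lineEquiv g t),
    ← Nat.card_congr (Projectivization.equivSubmodule L _), Projectivization.card_of_finrank L _ rfl]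
  have h1 : 0 < finrank L (LinearMap.ker ((g : V →ₗ[L] V) - (t : L) • LinearMap.id)) := by
    rw [← Module.End.hasEigenvalue_iff_isRoot_charpoly] at h
    obtain ⟨v, hv⟩ := h.exists_hasEigenvector
    rw [finrank_pos_iff_exists_ne_zero]
    refine ⟨⟨v, ?_⟩, fun h0 => hv.2 (congrArg Subtype.val h0)⟩
    rw [LinearMap.mem_ker, LinearMap.sub_apply, LinearMap.smul_apply, LinearMap.id_apply,
      sub_eq_zero]
    exact hv.apply_eq_smul
  obtain ⟨k, hk⟩ := Nat.exists_eq_succ_of_ne_zero h1.ne'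
  rw [hk, Nat.succ_eq_add_one, Finset.sum_range_succ', pow_zero]
  refine ⟨∑ i ∈ Finset.range k, Nat.card L ^ i, ?_⟩
  rw [Finset.mul_sum, add_comm]
  congr 1
  exact Finset.sum_congr rfl fun i _ => pow_succ' _ _

lemma charpoly_unitAut (t : Lˣ) : LinearMap.charpoly ((unitAut t : L ≃ₗ[L] L) : L →ₗ[L] L) =
    X - C (t : L) := by
  have h1 : ((unitAut t : L ≃ₗ[L] L) : L →ₗ[L] L) = (t : L) • LinearMap.id := rfl
  rw [h1]
  have h2 := LinearMap.charpoly_toMatrix ((t : L) • (LinearMap.id : L →ₗ[L] L))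
    (Basis.singleton Unit L)
  rw [← h2, Matrix.charpoly, Matrix.det_unique, Matrix.charmatrix_apply_eq]
  simp [LinearMap.toMatrix_apply]

end

open Classical in
/-- The number of stable flags is congruent modulo `Q` to `1` or `0`. -/
theorem flg_mod (l : List Lˣ) {V : Type} [AddCommGroup V] [Module L V] [FiniteDimensional L V]
    (g : V ≃ₗ[L] V) :
    ∃ n : ℤ, flg 𝕜 l (cls g) =
      (if LinearMap.charpoly (g : V →ₗ[L] V) = (l.map (fun t : Lˣ => X - C (t : L))).prod
        then 1 else 0) + (Nat.card L : 𝕜) * (n : 𝕜) := by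
  induction l generalizing V with
  | nil =>
    refine ⟨0, ?_⟩
    rw [Int.cast_zero, mul_zero, add_zero, List.map_nil, List.prod_nil]
    change (1 : Hall L 𝕜) (cls g) = _
    have h1 : LinearMap.charpoly (g : V →ₗ[L] V) = 1 ↔ finrank L V = 0 := by
      rw [← Polynomial.Monic.natDegree_eq_zero (LinearMap.charpoly_monic _),
        LinearMap.charpoly_natDegree]
    by_cases h0 : finrank L V = 0
    · rw [if_pos (h1.2 h0), (cls_eq_zero_iff g).2 (finrank_zero_iff.1 h0), Hall.one_zero]
    · rw [if_neg (fun h => h0 (h1.1 h)), Hall.one_of_ne]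
      intro h
      exact h0 (finrank_zero_iff.2 ((cls_eq_zero_iff g).1 h))
  | cons t l ih =>
    have h1 : flg 𝕜 (t :: l) = dlt 𝕜 t * flg 𝕜 l := rfl
    rw [h1, Hall.mul_cls]
    choose n hn using fun W : Stab g => ih W.quo
    set δ : 𝕜 := if LinearMap.charpoly (g : V →ₗ[L] V) =
      ((t :: l).map (fun t : Lˣ => X - C (t : L))).prod then 1 else 0 with hδ
    have h2 : ∀ W : Stab g, dlt 𝕜 t (cls W.sub) * flg 𝕜 l (cls W.quo) =
        if cls W.sub = cls (unitAut t) then δ + (Nat.card L : 𝕜) * (n W : 𝕜) else 0 := by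
      intro W
      unfold dlt
      split_ifs with h
      · rw [one_mul, hn W]
        congr 1
        have h3 : LinearMap.charpoly (g : V →ₗ[L] V) =
            (X - C (t : L)) * LinearMap.charpoly
              (W.quo : (V ⧸ W.space) →ₗ[L] (V ⧸ W.space)) := by
          rw [← cpol_cls, ← cpol_cls, cpol_stab g W, h, cpol_cls (unitAut t), charpoly_unitAut]
        rw [hδ, h3, List.map_cons, List.prod_cons]
        have h4 : (X - C (t : L)) ≠ 0 := X_sub_C_ne_zero _
        simp only [mul_right_inj' h4]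
      · rw [zero_mul]
    rw [Finset.sum_congr rfl fun W _ => h2 W, ← Finset.sum_filter, Finset.sum_add_distrib,
      Finset.sum_const, ← Finset.mul_sum]
    have h5 : (Finset.univ.filter fun W : Stab g => cls W.sub = cls (unitAut t)).card =
        Nat.card {W : Stab g // cls W.sub = cls (unitAut t)} := by
      rw [Nat.card_eq_fintype_card, Fintype.card_subtype]
    rw [h5]
    by_cases hP : LinearMap.charpoly (g : V →ₗ[L] V) =
      ((t :: l).map (fun t : Lˣ => X - C (t : L))).prod
    · have h6 : (LinearMap.charpoly (g : V →ₗ[L] V)).IsRoot (t : L) := by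
        rw [hP, List.map_cons, List.prod_cons, IsRoot, eval_mul]
        simp
      obtain ⟨m, hm⟩ := card_lines g t h6
      refine ⟨m + ∑ W ∈ Finset.univ.filter (fun W : Stab g => cls W.sub = cls (unitAut t)), n W, ?_⟩
      rw [hm, hδ, if_pos hP]
      push_cast
      simp only [nsmul_eq_mul, mul_one]
      push_cast
      ring
    · refine ⟨∑ W ∈ Finset.univ.filter (fun W : Stab g => cls W.sub = cls (unitAut t)), n W, ?_⟩
      rw [hδ, if_neg hP, smul_zero]
      push_cast
      ring

end Pool.Agent.Lib.MP_02a407_al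
end

section

/-!
# The Brauer lifts of the exterior powers are in the lattice of characters
-/

namespace Pool.Agent.Lib.MP_02a407_al

open Module Polynomial

set_option linter.unusedSectionVars false

variable {K : Type} [Field K] [Finite K] {𝕜 : Type} [Field 𝕜] [IsAlgClosed 𝕜] [CharZero 𝕜]

section bigfield

private lemma ig_epol_map {F F' : Type} [Monoid F] [Monoid F'] (f : F' →* F) (η : F →* 𝕜)
    (s : Multiset F') : epol η (s.map f) = epol (η.comp f) s := by
  simp [epol, Multiset.map_map]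

private lemma ig_natDegree {V : Type} [AddCommGroup V] [Module K V] [FiniteDimensional K V]
    (g : V →ₗ[K] V) : (LinearMap.charpoly g).natDegree = finrank K V := by
  exact LinearMap.charpoly_natDegree g

/-- The large field with the base change of the general linear group. -/
private theorem ig_big (K : Type) [Field K] [Finite K] (𝕜 : Type) [Field 𝕜] [IsAlgClosed 𝕜]
    [CharZero 𝕜]
    (m D : ℕ) (hD : 0 < D) :
    ∃ (t : ℕ) (L : IntermediateField K (AlgebraicClosure K)), 0 < t ∧ D ∣ t ∧ Finite L ∧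
      Nat.card L = Nat.card K ^ t ∧
      ∃ bc : ((Fin m → K) ≃ₗ[K] (Fin m → K)) →* ((Fin m → L) ≃ₗ[L] (Fin m → L)),
        ∀ g, (LinearMap.charpoly (bc g : (Fin m → L) →ₗ[L] (Fin m → L))).Splits ∧
          ∀ η : AlgebraicClosure K →* 𝕜, EH η (cls g) =
            epol (η.comp (algebraMap L (AlgebraicClosure K) : L →* AlgebraicClosure K))
              (LinearMap.charpoly (bc g : (Fin m → L) →ₗ[L] (Fin m → L))).roots := by
  obtain ⟨t, L, ht, hDt, hL, hc, hmin⟩ := exists_field (K := K) m D hD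
  obtain ⟨bc, hbc⟩ := exists_bc (K := K) (L := L) m
  refine ⟨t, L, ht, hDt, hL, hc, bc, fun g => ?_⟩
  have hmon : (LinearMap.charpoly (g : (Fin m → K) →ₗ[K] (Fin m → K))).Monic :=
    LinearMap.charpoly_monic _
  have hs : (LinearMap.charpoly (bc g : (Fin m → L) →ₗ[L] (Fin m → L))).Splits := by
    rw [hbc]
    refine IntermediateField.splits_of_splits (IsAlgClosed.splits _) fun x hx => ?_
    apply hmin
    rw [mem_rootSet] at hx
    have h1 : minpoly K x ∣ LinearMap.charpoly (g : (Fin m → K) →ₗ[K] (Fin m → K)) :=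
      minpoly.dvd K x hx.2
    refine (natDegree_le_of_dvd h1 hmon.ne_zero).trans (le_of_eq ?_)
    rw [LinearMap.charpoly_natDegree, finrank_fin_fun]
  refine ⟨hs, fun η => ?_⟩
  have h2 : (rts (cls g) : Multiset (AlgebraicClosure K)) =
      (LinearMap.charpoly (bc g : (Fin m → L) →ₗ[L] (Fin m → L))).roots.map
        (algebraMap L (AlgebraicClosure K)) := by
    unfold rts
    rw [cpol_cls, IsScalarTower.algebraMap_eq K L (AlgebraicClosure K), ← Polynomial.map_map,
      ← hbc, hs.roots_map]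
  change epol η (rts (cls g)) = _
  rw [h2]
  exact ig_epol_map (algebraMap L (AlgebraicClosure K) : L →* AlgebraicClosure K) η _

end bigfield

section lists

variable {L : Type} [Field L]

private lemma ig_lift (s : Multiset L) (h : ∀ x ∈ s, x ≠ 0) :
    ∃ l : List Lˣ, ((l.map (fun t : Lˣ => (t : L)) : List L) : Multiset L) = s := by
  induction s using Multiset.induction_on with
  | empty => exact ⟨[], rfl⟩
  | cons a s ih =>
    obtain ⟨l, hl⟩ := ih fun x hx => h x (Multiset.mem_cons_of_mem hx)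
    refine ⟨Units.mk0 a (h a (Multiset.mem_cons_self a s)) :: l, ?_⟩
    rw [List.map_cons, ← Multiset.cons_coe, hl]
    rfl

private lemma ig_list {m : ℕ} (g : (Fin m → L) ≃ₗ[L] (Fin m → L))
    (hs : (LinearMap.charpoly (g : (Fin m → L) →ₗ[L] (Fin m → L))).Splits) :
    ∃ l : List Lˣ, l.length = m ∧ LinearMap.charpoly (g : (Fin m → L) →ₗ[L] (Fin m → L)) =
      (l.map (fun t : Lˣ => X - C (t : L))).prod := by
  set P := LinearMap.charpoly (g : (Fin m → L) →ₗ[L] (Fin m → L)) with hP
  have hmon : P.Monic := LinearMap.charpoly_monic _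
  have hroot : ∀ x ∈ P.roots, x ≠ 0 := by
    rintro x hx rfl
    have h1 : P.IsRoot 0 := isRoot_of_mem_roots hx
    rw [hP, ← Module.End.hasEigenvalue_iff_isRoot_charpoly] at h1
    obtain ⟨v, hv⟩ := h1.exists_hasEigenvector
    have h2 := hv.apply_eq_smul
    rw [zero_smul] at h2
    exact hv.2 (g.map_eq_zero_iff.1 h2)
  obtain ⟨l, hl⟩ := ig_lift P.roots hroot
  refine ⟨l, ?_, ?_⟩
  · have h1 := hs.natDegree_eq_card_roots
    rw [← hl, Multiset.coe_card, List.length_map, hP, LinearMap.charpoly_natDegree,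
      finrank_fin_fun] at h1
    exact h1.symm
  · conv_lhs => rw [hs.eq_prod_roots_of_monic hmon, ← hl]
    rw [Multiset.map_coe, Multiset.prod_coe, List.map_map]
    rfl

end lists
private lemma ig_cls {V : Type} [AddCommGroup V] [Module K V] [FiniteDimensional K V]
    (g h : V ≃ₗ[K] V) : cls (h * g * h⁻¹) = cls g := by
  symm
  exact cls_congr h (fun x => by simp)

private lemma ig_int {G : Type} [Group G] [Fintype G] (χ : G → 𝕜) (hχ : IsChar 𝕜 χ) (g : G) :
    χ g ∈ OO 𝕜 := hχ.isIntegral g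

private lemma ig_p_dvd (p : ℕ) [CharP K p] : p ∣ Nat.card K := by
  have : Fintype K := Fintype.ofFinite K
  rw [Nat.card_eq_fintype_card, ← CharP.cast_eq_zero_iff K p]
  exact Nat.cast_card_eq_zero K

/-- The `p`-local part. -/
theorem EH_local_p (p : ℕ) [_root_.Fact p.Prime] [CharP K p] (η : AlgebraicClosure K →* 𝕜) (m a : ℕ) :
    ∃ N : ℕ, ¬ p ∣ N ∧ GLat (OO 𝕜) (fun g : (Fin m → K) ≃ₗ[K] (Fin m → K) =>
      (N : 𝕜) * (EH η (cls g)).coeff a) := by
  classical
  have hp : p.Prime := _root_.Fact.out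
  have hGpos : 0 < Nat.card ((Fin m → K) ≃ₗ[K] (Fin m → K)) := Nat.card_pos
  set cG := Nat.card ((Fin m → K) ≃ₗ[K] (Fin m → K)) with hcG
  obtain ⟨t, L, ht, hDt, hL, hc, bc, hbc⟩ := ig_big K 𝕜 m cG hGpos
  set η' := η.comp (algebraMap L (AlgebraicClosure K) : L →* AlgebraicClosure K) with hη'
  set Q := Nat.card L with hQ
  set v := cG.factorization p with hv
  have hpq : p ∣ Nat.card K := ig_p_dvd p
  have hpQ : p ∣ Q := by rw [hc]; exact dvd_pow hpq ht.ne'
  have hQpos : 0 < Q := Nat.card_pos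
  obtain ⟨Q'', hQ''⟩ : p ^ v ∣ Q := by
    rw [hc]
    refine dvd_trans (pow_dvd_pow p ?_) (pow_dvd_pow_of_dvd hpq t)
    exact (Nat.factorization_lt p hGpos.ne').le.trans (Nat.le_of_dvd ht hDt)
  set N' := cG / p ^ v with hN'
  have hN'e : p ^ v * N' = cG := Nat.ordProj_mul_ordCompl_eq_self cG p
  have hN'p : ¬ p ∣ N' := Nat.not_dvd_ordCompl hp hGpos.ne'
  refine ⟨N' * (Q - 1) ^ m, ?_, ?_⟩
  · intro h
    rcases (hp.dvd_mul).1 h with h | h
    · exact hN'p h
    · have h1 : p ∣ Q - 1 := hp.dvd_of_dvd_pow h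
      have h2 : p ∣ 1 := by
        have := Nat.dvd_sub hpQ h1
        rwa [Nat.sub_sub_self hQpos] at this
      exact hp.one_lt.ne' (Nat.dvd_one.1 h2)
  set E : ((Fin m → K) ≃ₗ[K] (Fin m → K)) → 𝕜 := fun g => (EH η (cls g)).coeff a with hE
  have hEe : ∀ g : (Fin m → K) ≃ₗ[K] (Fin m → K), E g =
      (epol η' (LinearMap.charpoly (bc g : (Fin m → L) →ₗ[L] (Fin m → L))).roots).coeff a :=
    fun g => by simp only [hE]; rw [(hbc g).2 η]
  set PP : Finset L[X] := Finset.univ.image fun g : (Fin m → K) ≃ₗ[K] (Fin m → K) =>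
    LinearMap.charpoly (bc g : (Fin m → L) →ₗ[L] (Fin m → L)) with hPP
  have hlist : ∀ P ∈ PP, ∃ l : List Lˣ, l.length = m ∧
      P = (l.map (fun t : Lˣ => X - C (t : L))).prod := by
    intro P hP
    obtain ⟨g, -, rfl⟩ := Finset.mem_image.1 hP
    exact ig_list (bc g) (hbc g).1
  choose! lst hlst using hlist
  choose n hn using fun (P : L[X]) (g : (Fin m → K) ≃ₗ[K] (Fin m → K)) =>
    flg_mod (𝕜 := 𝕜) (lst P) (bc g)
  set e : L[X] → 𝕜 := fun P => (epol η' P.roots).coeff a with he
  have hemem : ∀ P ∈ PP, e P ∈ OO 𝕜 := by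
    intro P hP
    obtain ⟨g, -, rfl⟩ := Finset.mem_image.1 hP
    have h1 := coeff_EH_mem η (cls g) a
    rwa [(hbc g).2 η] at h1
  set S : ((Fin m → K) ≃ₗ[K] (Fin m → K)) → 𝕜 := fun g =>
    ∑ P ∈ PP, e P * flg 𝕜 (lst P) (cls (bc g)) with hS
  set c : ((Fin m → K) ≃ₗ[K] (Fin m → K)) → 𝕜 := fun g => ∑ P ∈ PP, e P * (n P g : 𝕜) with hcdef
  have hSE : ∀ g, S g = E g + (Q : 𝕜) * c g := by
    intro g
    simp only [hS, hcdef, hn, mul_add, Finset.sum_add_distrib, Finset.mul_sum]
    congr 1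
    · rw [Finset.sum_eq_single
        (LinearMap.charpoly (bc g : (Fin m → L) →ₗ[L] (Fin m → L)))]
      · have hg : LinearMap.charpoly (bc g : (Fin m → L) →ₗ[L] (Fin m → L)) ∈ PP :=
          Finset.mem_image_of_mem _ (Finset.mem_univ g)
        rw [if_pos (hlst _ hg).2, mul_one, hEe]
      · intro P hP hne
        rw [if_neg, mul_zero]
        intro h
        exact hne (((hlst P hP).2).trans h.symm)
      · intro h
        exact absurd (Finset.mem_image_of_mem _ (Finset.mem_univ g)) h
    · refine Finset.sum_congr rfl fun P _ => ?_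
      ring
  have hcmem : ∀ g, c g ∈ OO 𝕜 := fun g =>
    (OO 𝕜).sum_mem fun P hP => (OO 𝕜).mul_mem (hemem P hP) (intCast_mem _ _)
  have hQ0 : (Q : 𝕜) ≠ 0 := Nat.cast_ne_zero.2 hQpos.ne'
  have hcCF : IsCF c := by
    intro g h
    have h1 := hSE g
    have h2 := hSE (h * g * h⁻¹)
    have h3 : S (h * g * h⁻¹) = S g := by
      simp only [hS]
      rw [map_mul, map_mul, map_inv, ig_cls]
    have h4 : E (h * g * h⁻¹) = E g := by
      simp only [hE]
      rw [ig_cls]
    rw [h3, h4, h1] at h2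
    exact (mul_left_cancel₀ hQ0 (add_left_cancel h2)).symm
  have hA : GLat (OO 𝕜) fun g => ((Q : 𝕜) - 1) ^ m * S g := by
    have h1 : (fun g => ((Q : 𝕜) - 1) ^ m * S g) = fun g => ∑ P ∈ PP,
        e P * ((((Nat.card L : 𝕜) - 1) ^ (lst P).length • flg 𝕜 (lst P) : Hall L 𝕜) (cls (bc g))) := by
      funext g
      simp only [hS, Finset.mul_sum]
      refine Finset.sum_congr rfl fun P hP => ?_
      rw [Hall.smul_apply, (hlst P hP).1, smul_eq_mul]
      ring
    rw [h1]
    exact GLat.sum fun P hP => GLat.smul (GLat.comap bc (hLat_flg (lst P) m)) (hemem P hP)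
  have hQ1 : ((Q : 𝕜) - 1) ∈ OO 𝕜 := (OO 𝕜).sub_mem (natCast_mem _ _) (OO 𝕜).one_mem
  have hfin := GLat.add (GLat.smul hA (natCast_mem (OO 𝕜) N'))
    (GLat.smul (GLat.card_mul ig_int hcCF hcmem)
      ((OO 𝕜).neg_mem ((OO 𝕜).mul_mem (natCast_mem (OO 𝕜) Q'') ((OO 𝕜).pow_mem hQ1 m))))
  refine (show (fun g : (Fin m → K) ≃ₗ[K] (Fin m → K) =>
    ((N' * (Q - 1) ^ m : ℕ) : 𝕜) * (EH η (cls g)).coeff a) = _ from ?_) ▸ hfin
  funext g
  have h1 : (N' : 𝕜) * Q = cG * Q'' := by
    rw [← hN'e, hQ'']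
    push_cast
    ring
  rw [← hcG, hSE]
  change _ * E g = _
  push_cast [Nat.cast_sub hQpos]
  linear_combination (-(((Q : 𝕜) - 1) ^ m * c g)) * h1

private lemma ig_epol_natDegree {F : Type} [Monoid F] (η : F →* 𝕜) (s : Multiset F) :
    (epol η s).natDegree ≤ s.card := by
  unfold epol
  refine (natDegree_multiset_prod_le _).trans ?_
  rw [Multiset.map_map]
  refine (Multiset.sum_le_card_nsmul _ 1 ?_).trans (by simp)
  intro x hx
  obtain ⟨α, -, rfl⟩ := Multiset.mem_map.1 hx
  simp only [Function.comp_apply]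
  compute_degree

/-- The `ℓ`-local part, `ℓ ≠ p`. -/
theorem EH_local_l (p : ℕ) [_root_.Fact p.Prime] [CharP K p] (ℓ : ℕ) (hℓ : ℓ.Prime) (hℓp : ℓ ≠ p)
    (η : AlgebraicClosure K →* 𝕜) (m a : ℕ) :
    ∃ N : ℕ, ¬ ℓ ∣ N ∧ GLat (OO 𝕜) (fun g : (Fin m → K) ≃ₗ[K] (Fin m → K) =>
      (N : 𝕜) * (EH η (cls g)).coeff a) := by
  classical
  have hp : p.Prime := _root_.Fact.out
  have hGpos : 0 < Nat.card ((Fin m → K) ≃ₗ[K] (Fin m → K)) := Nat.card_pos
  set cG := Nat.card ((Fin m → K) ≃ₗ[K] (Fin m → K)) with hcG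
  set v := cG.factorization ℓ with hv
  have hDpos : 0 < Nat.totient (ℓ ^ v) := Nat.totient_pos.2 (pow_pos hℓ.pos v)
  obtain ⟨t, L, ht, hDt, hL, hc, bc, hbc⟩ := ig_big K 𝕜 m (Nat.totient (ℓ ^ v)) hDpos
  rcases lt_or_ge m a with hma | hma
  · refine ⟨1, fun h => hℓ.one_lt.ne' (Nat.dvd_one.1 h), ?_⟩
    have h0 : ∀ g : (Fin m → K) ≃ₗ[K] (Fin m → K), (EH η (cls g)).coeff a = 0 := by
      intro g
      rw [(hbc g).2 η]
      apply coeff_eq_zero_of_natDegree_lt
      refine (ig_epol_natDegree _ _).trans_lt ?_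
      rw [← (hbc g).1.natDegree_eq_card_roots, LinearMap.charpoly_natDegree, finrank_fin_fun]
      exact hma
    simp only [h0, mul_zero]
    exact HLat.zero (K := K) (m := m)
  obtain ⟨b, rfl⟩ := Nat.exists_eq_add_of_le hma
  have hCL : CharP L p := charP_of_injective_algebraMap (algebraMap K L).injective p
  set η' := η.comp (algebraMap L (AlgebraicClosure K) : L →* AlgebraicClosure K) with hη'
  set Q := Nat.card L with hQ
  set q := Nat.card K with hq
  have hQpos : 0 < Q := Nat.card_pos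
  have hq1 : 1 < q := Finite.one_lt_card
  have hpq : p ∣ q := ig_p_dvd p
  -- `q` is a power of `p`
  have hℓq : ¬ ℓ ∣ q := by
    intro h
    have : Fintype K := Fintype.ofFinite K
    obtain ⟨e, -, he⟩ := FiniteField.card K p
    rw [hq, Nat.card_eq_fintype_card, he] at h
    exact hℓp ((Nat.prime_dvd_prime_iff_eq hℓ hp).1 (hℓ.dvd_of_dvd_pow h))
  have hcop : q.Coprime (ℓ ^ v) := by
    apply Nat.Coprime.pow_right
    exact ((Nat.Prime.coprime_iff_not_dvd hℓ).2 hℓq).symm
  obtain ⟨Q'', hQ''⟩ : ℓ ^ v ∣ Q - 1 := by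
    obtain ⟨s, hs⟩ := hDt
    have h1 : q ^ t ≡ 1 [MOD ℓ ^ v] := by
      rw [hs, pow_mul]
      have := (Nat.ModEq.pow_totient hcop).pow s
      rwa [one_pow] at this
    rw [hc]
    exact (Nat.modEq_iff_dvd' (Nat.one_le_pow _ _ (by omega))).1 h1.symm
  set N' := cG / ℓ ^ v with hN'
  have hN'e : ℓ ^ v * N' = cG := Nat.ordProj_mul_ordCompl_eq_self cG ℓ
  have hN'p : ¬ ℓ ∣ N' := Nat.not_dvd_ordCompl hℓ hGpos.ne'
  obtain ⟨k, hk⟩ := exists_reg (𝕜 := 𝕜) (K := K) p (OO 𝕜) (V := Fin (a + b) → K)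
  refine ⟨N' * q ^ k, ?_, ?_⟩
  · intro h
    rcases (hℓ.dvd_mul).1 h with h | h
    · exact hN'p h
    · exact hℓq (hℓ.dvd_of_dvd_pow h)
  set E : ((Fin (a + b) → K) ≃ₗ[K] (Fin (a + b) → K)) → 𝕜 := fun g => (EH η (cls g)).coeff a with hE
  set A : ((Fin (a + b) → K) ≃ₗ[K] (Fin (a + b) → K)) → 𝕜 := fun g =>
    (detH η' a * oneH 𝕜 b : Hall L 𝕜) (cls (bc g)) with hA
  have hAL : GLat (OO 𝕜) A := GLat.comap bc (hLat_detInd η' a b (a + b))
  have hconj : ∀ g h : (Fin (a + b) → K) ≃ₗ[K] (Fin (a + b) → K), IsReg p g → IsReg p (h * g * h⁻¹) := by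
    rintro g h ⟨N, hN, hg⟩
    refine ⟨N, hN, ?_⟩
    rw [conj_pow, hg, mul_one, mul_inv_cancel]
  have hregc : ∀ g h : (Fin (a + b) → K) ≃ₗ[K] (Fin (a + b) → K), IsReg p (h * g * h⁻¹) ↔ IsReg p g := by
    intro g h
    refine ⟨fun hg => ?_, hconj g h⟩
    have := hconj _ h⁻¹ hg
    have e1 : h⁻¹ * (h * g * h⁻¹) * h⁻¹⁻¹ = g := by group
    rwa [e1] at this
  have hbr : ∀ g, IsReg p g → IsReg p (bc g) := by
    rintro g ⟨N, hN, hg⟩
    exact ⟨N, hN, by rw [← map_pow, hg, map_one]⟩
  have hmod : ∀ g, IsReg p g → ∃ c ∈ OO 𝕜, A g = E g + ((Q : 𝕜) - 1) * c := by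
    intro g hg
    obtain ⟨e, t', he, hr⟩ := exists_eigenbasis p (bc g) (hbc g).1 (hbr g hg)
    obtain ⟨c, hc', hcc⟩ := detInd_mod η' a b (by rw [finrank_fin_fun]) (bc g) e t' he
    refine ⟨c, hc', ?_⟩
    simp only [hA, hE]
    rw [hcc, (hbc g).2 η, hr]
  have hQ1 : ((Q : 𝕜) - 1) ≠ 0 := by
    have h1 : 1 < Q := by rw [hc]; exact Nat.one_lt_pow ht.ne' hq1
    rw [sub_ne_zero]
    exact_mod_cast h1.ne'
  set c : ((Fin (a + b) → K) ≃ₗ[K] (Fin (a + b) → K)) → 𝕜 := fun g =>
    if IsReg p g then (A g - E g) / ((Q : 𝕜) - 1) else 0 with hcdef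
  have hcreg : ∀ g, IsReg p g → A g = E g + ((Q : 𝕜) - 1) * c g := by
    intro g hg
    simp only [hcdef, if_pos hg]
    rw [mul_div_cancel₀ _ hQ1]
    ring
  have hcmem : ∀ g, c g ∈ OO 𝕜 := by
    intro g
    by_cases hg : IsReg p g
    · obtain ⟨c', hc', hcc⟩ := hmod g hg
      have h1 := hcreg g hg
      rw [hcc] at h1
      rwa [← mul_left_cancel₀ hQ1 (add_left_cancel h1)]
    · simp only [hcdef, if_neg hg]
      exact (OO 𝕜).zero_mem
  have hEcf : ∀ g h : (Fin (a + b) → K) ≃ₗ[K] (Fin (a + b) → K), E (h * g * h⁻¹) = E g := by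
    intro g h
    simp only [hE]
    rw [ig_cls]
  have hcCF : IsCF c := by
    intro g h
    simp only [hcdef, hregc, hEcf, hAL.1 g h]
  refine gLat_of_reg p hp ?_ ?_ ?_
  · intro g h
    have := hEcf g h
    simp only [hE] at this
    simp only [this]
  · intro w g hw _ hcomm
    have h1 : (EH η (cls (w * g)) : 𝕜[X]) = EH η (cls g) := by
      change epol η (rts (cls (w * g))) = epol η (rts (cls g))
      rw [rts_mul p w g hw hcomm]
    simp only [h1]
  · have hfin := GLat.add (GLat.smul (GLat.mul hk hAL) (natCast_mem (OO 𝕜) N'))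
      (GLat.smul (GLat.card_mul ig_int hcCF hcmem)
        ((OO 𝕜).neg_mem ((OO 𝕜).mul_mem (natCast_mem (OO 𝕜) Q'')
          (natCast_mem (OO 𝕜) (q ^ k)))))
    refine (show (fun g : (Fin (a + b) → K) ≃ₗ[K] (Fin (a + b) → K) =>
      if IsReg p g then ((N' * q ^ k : ℕ) : 𝕜) * (EH η (cls g)).coeff a else 0) = _ from ?_) ▸ hfin
    funext g
    by_cases hg : IsReg p g
    · rw [if_pos hg, if_pos hg]
      have h1 : (N' : 𝕜) * ((Q : 𝕜) - 1) = cG * Q'' := by
        have : ((Q - 1 : ℕ) : 𝕜) = (Q : 𝕜) - 1 := by rw [Nat.cast_sub hQpos, Nat.cast_one]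
        rw [← this, ← hN'e, hQ'']
        push_cast
        ring
      have h2 := hcreg g hg
      change _ * E g = _
      rw [← hcG, h2]
      push_cast
      linear_combination (-((q : 𝕜) ^ k * c g)) * h1
    · have hc0 : c g = 0 := by simp only [hcdef, if_neg hg]
      rw [if_neg hg, if_neg hg, hc0]
      ring

/-- Green's theorem: the Brauer lifts of the exterior powers are generalized characters. -/
theorem hLat_EH (η : AlgebraicClosure K →* 𝕜) (m a : ℕ) :
    HLat (OO 𝕜) m (fun C => (EH η C).coeff a) := by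
  obtain ⟨p, hp⟩ := CharP.exists K
  have hp' : _root_.Fact p.Prime := ⟨CharP.char_is_prime K p⟩
  refine gLat_of_local (fun ℓ hℓ => ?_)
  by_cases h : ℓ = p
  · rw [h]
    exact EH_local_p p η m a
  · exact EH_local_l p ℓ hℓ h η m a

end Pool.Agent.Lib.MP_02a407_al
end

section

/-!
# The functions `HW k 1 η` are generalized characters
-/

namespace Pool.Agent.Lib.MP_02a407_al

open Module Polynomial

set_option linter.unusedSectionVars false

variable {K : Type} [Field K] [Finite K] {𝕜 : Type} [Field 𝕜] [IsAlgClosed 𝕜] [CharZero 𝕜]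

/-- A function with polynomial values whose coefficients are in the lattice. -/
def PLat (O : Subring 𝕜) (m : ℕ) (φ : Hall K 𝕜[X]) : Prop :=
  ∀ j, HLat O m (fun C => (φ C).coeff j)

variable {O : Subring 𝕜}

/-- the coefficient functions -/
def nkCf (j : ℕ) (φ : Hall K 𝕜[X]) : Hall K 𝕜 := fun C => (φ C).coeff j

lemma nkCf_apply (j : ℕ) (φ : Hall K 𝕜[X]) (C : Cls K) : nkCf j φ C = (φ C).coeff j := rfl

lemma nkCf_mul (j : ℕ) (φ ψ : Hall K 𝕜[X]) :
    nkCf j (φ * ψ) = ∑ p ∈ Finset.HasAntidiagonal.antidiagonal j, nkCf p.1 φ * nkCf p.2 ψ := by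
  ext C
  rw [nkCf_apply, Hall.mul_apply, ssum, Polynomial.finsetSum_coeff, Hall.sum_apply]
  simp only [Polynomial.coeff_mul, Hall.mul_apply, ssum, nkCf_apply]
  rw [Finset.sum_comm]

lemma pLat_iff {m : ℕ} {φ : Hall K 𝕜[X]} : PLat O m φ ↔ ∀ j, HLat O m (nkCf j φ) := Iff.rfl

theorem PLat.mul {m : ℕ} {φ ψ : Hall K 𝕜[X]} (h : ∀ a ≤ m, PLat O a φ)
    (h' : ∀ a ≤ m, PLat O a ψ) : PLat O m (φ * ψ) := by
  rw [pLat_iff]
  intro j
  rw [nkCf_mul]
  exact HLat.sum fun p _ => HLat.mul (fun a ha => h a ha p.1) (fun a ha => h' a ha p.2)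

lemma PLat.congr {m : ℕ} {φ ψ : Hall K 𝕜[X]} (h : PLat O m φ) (h' : ∀ C, cl C = m → φ C = ψ C) :
    PLat O m ψ := fun j => (h j).congr fun C hC => by rw [h' C hC]

lemma PLat.zero {m : ℕ} : PLat O m (0 : Hall K 𝕜[X]) := fun j =>
  (HLat.zero (K := K) (𝕜 := 𝕜) (O := O)).congr fun C _ => by
    rw [Hall.zero_apply, Hall.zero_apply, coeff_zero]

lemma PLat.one {m : ℕ} : PLat O m (1 : Hall K 𝕜[X]) := by
  rcases Nat.eq_zero_or_pos m with rfl | hm
  · intro j
    rw [hLat_zero, Hall.one_zero, coeff_one]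
    split_ifs
    · exact O.one_mem
    · exact O.zero_mem
  · refine (PLat.zero (K := K) (𝕜 := 𝕜) (O := O)).congr fun C hC => ?_
    rw [Hall.zero_apply, Hall.one_of_ne]
    rintro rfl
    rw [cl_zero] at hC
    omega

lemma PLat.add {m : ℕ} {φ ψ : Hall K 𝕜[X]} (h : PLat O m φ) (h' : PLat O m ψ) :
    PLat O m (φ + ψ) := fun j => by
  refine ((h j).add (h' j)).congr fun C _ => ?_
  rw [Hall.add_apply, Hall.add_apply, coeff_add]

/-- the truncation of a function to the degrees `1, ..., m - 1` -/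
noncomputable def nkTr (m : ℕ) (F : Hall K 𝕜[X]) : Hall K 𝕜[X] :=
  fun C => if 1 ≤ cl C ∧ cl C < m then F C else 0

lemma nkTr_pos {m : ℕ} {F : Hall K 𝕜[X]} {C : Cls K} (hC : 1 ≤ cl C ∧ cl C < m) :
    nkTr m F C = F C := if_pos hC

lemma nkTr_neg {m : ℕ} {F : Hall K 𝕜[X]} {C : Cls K} (hC : ¬ (1 ≤ cl C ∧ cl C < m)) :
    nkTr m F C = 0 := if_neg hC

theorem PLat.mul_sub {m : ℕ} (hm : 1 ≤ m) {φ ψ : Hall K 𝕜[X]} (h0 : φ 0 = 1) (h0' : ψ 0 = 1)
    (h : ∀ a < m, PLat O a φ) (h' : ∀ a < m, PLat O a ψ) : PLat O m (φ * ψ - φ - ψ) := by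
  classical
  have hTl : ∀ F : Hall K 𝕜[X], (∀ a < m, PLat O a F) → ∀ a ≤ m, PLat O a (nkTr m F) := by
    intro F hF a ha
    rcases Nat.eq_zero_or_pos a with rfl | ha0
    · refine (PLat.zero (K := K) (𝕜 := 𝕜) (O := O)).congr fun C hC => ?_
      rw [nkTr_neg (by omega)]
      rfl
    · rcases lt_or_eq_of_le ha with ha1 | rfl
      · refine (hF a ha1).congr fun C hC => (nkTr_pos (by omega)).symm
      · refine (PLat.zero (K := K) (𝕜 := 𝕜) (O := O)).congr fun C hC => ?_
        rw [nkTr_neg (by omega)]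
        rfl
  refine (PLat.mul (hTl φ h) (hTl ψ h')).congr fun C hC => ?_
  rw [Hall.sub_apply, Hall.sub_apply, Hall.mul_apply, Hall.mul_apply, ssum, ssum]
  have hfr : finrank K (cM (C : ConjClasses (GLInf K))) = m := by rw [finrank_cM', hC]
  have hne : Stab.bot (cA (C : ConjClasses (GLInf K))) ≠ Stab.top _ := by
    intro h1
    have h2 := (hlat_top_iff (Stab.bot (cA (C : ConjClasses (GLInf K))))).2 h1
    rw [(Stab.xp_sub_eq_zero_iff _).2 rfl, cl_zero, hfr] at h2
    omega
  have hkey : ∀ W : Stab (cA (C : ConjClasses (GLInf K))), φ (cls W.sub) * ψ (cls W.quo) =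
      nkTr m φ (cls W.sub) * nkTr m ψ (cls W.quo) + (if W = Stab.bot _ then ψ C else 0) +
        (if W = Stab.top _ then φ C else 0) := by
    intro W
    have hadd := W.xp_cl_add
    rw [hC] at hadd
    by_cases hb : W = Stab.bot _
    · have hs : cls W.sub = 0 := (Stab.xp_sub_eq_zero_iff W).2 hb
      rw [if_pos hb, if_neg (fun ht => hne (hb.symm.trans ht)), add_zero, hs, h0,
        nkTr_neg (F := φ) (C := 0) (by rw [cl_zero]; omega), zero_mul, zero_add, one_mul]
      subst hb
      rw [Stab.xp_quo_bot, cls_cA]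
    · rw [if_neg hb, add_zero]
      have hs : cls W.sub ≠ 0 := fun h1 => hb ((Stab.xp_sub_eq_zero_iff W).1 h1)
      have hs1 : cl (cls W.sub) ≠ 0 := fun h1 => hs ((cl_eq_zero_iff _).1 h1)
      by_cases ht : W = Stab.top _
      · have h1 := (hlat_top_iff W).2 ht
        rw [hfr] at h1
        have hq : cls W.quo = 0 := by
          rw [← cl_eq_zero_iff]
          omega
        rw [if_pos ht, hq, h0', nkTr_neg (F := φ) (C := cls W.sub) (by omega), zero_mul, zero_add,
          mul_one]
        subst ht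
        rw [hlat_top_sub, cls_cA]
      · have h1 : cl (cls W.sub) ≠ m := fun h1 => ht ((hlat_top_iff W).1 (h1.trans hfr.symm))
        rw [if_neg ht, add_zero, nkTr_pos (by omega), nkTr_pos (by omega)]
  rw [Finset.sum_congr rfl fun W _ => hkey W, Finset.sum_add_distrib, Finset.sum_add_distrib,
    Finset.sum_ite_eq' , Finset.sum_ite_eq', if_pos (Finset.mem_univ _), if_pos (Finset.mem_univ _)]
  ring

lemma PLat.prod {ι : Type*} (s : Finset ι) {m : ℕ} {φ : ι → Hall K 𝕜[X]}
    (h : ∀ i ∈ s, ∀ a ≤ m, PLat O a (φ i)) : ∀ a ≤ m, PLat O a (∏ i ∈ s, φ i) := by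
  classical
  induction s using Finset.induction_on with
  | empty =>
    intro a _
    rw [Finset.prod_empty]
    exact PLat.one
  | insert i s hi ih =>
    intro a ha
    rw [Finset.prod_insert hi]
    exact PLat.mul (fun b hb => h i (Finset.mem_insert_self i s) b (hb.trans ha))
      (fun b hb => ih (fun j hj => h j (Finset.mem_insert_of_mem hj)) b (hb.trans ha))

lemma nk_prod_zero {ι : Type*} (s : Finset ι) {φ : ι → Hall K 𝕜[X]}
    (h0 : ∀ i ∈ s, φ i 0 = 1) : (∏ i ∈ s, φ i) 0 = 1 := by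
  classical
  induction s using Finset.induction_on with
  | empty => rw [Finset.prod_empty, Hall.one_zero]
  | insert i s hi ih =>
    rw [Finset.prod_insert hi, mul_zero_apply, h0 i (Finset.mem_insert_self i s), one_mul]
    exact ih fun j hj => h0 j (Finset.mem_insert_of_mem hj)

theorem PLat.prod_sub {ι : Type*} (s : Finset ι) {m : ℕ} (hm : 1 ≤ m) {φ : ι → Hall K 𝕜[X]}
    (h0 : ∀ i ∈ s, φ i 0 = 1) (h : ∀ i ∈ s, ∀ a < m, PLat O a (φ i)) :
    PLat O m (∏ i ∈ s, φ i - ∑ i ∈ s, φ i) := by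
  classical
  induction s using Finset.induction_on with
  | empty =>
    rw [Finset.prod_empty, Finset.sum_empty, sub_zero]
    exact PLat.one
  | insert i s hi ih =>
    rw [Finset.prod_insert hi, Finset.sum_insert hi]
    have h1 := ih (fun j hj => h0 j (Finset.mem_insert_of_mem hj))
      (fun j hj => h j (Finset.mem_insert_of_mem hj))
    have h2 : PLat O m (φ i * ∏ j ∈ s, φ j - φ i - ∏ j ∈ s, φ j) := by
      refine PLat.mul_sub hm (h0 i (Finset.mem_insert_self i s))
        (nk_prod_zero s fun j hj => h0 j (Finset.mem_insert_of_mem hj))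
        (h i (Finset.mem_insert_self i s)) (fun a ha => ?_)
      exact PLat.prod s (fun j hj b hb => h j (Finset.mem_insert_of_mem hj) b
        (lt_of_le_of_lt hb ha)) a le_rfl
    have h3 := h2.add h1
    have h4 : φ i * ∏ j ∈ s, φ j - (φ i + ∑ j ∈ s, φ j) =
        (φ i * ∏ j ∈ s, φ j - φ i - ∏ j ∈ s, φ j) + (∏ j ∈ s, φ j - ∑ j ∈ s, φ j) := by
      abel
    rw [h4]
    exact h3

/-- The values of the factors of `EH`. -/
lemma nk_factor {k : ℕ} (hk : 1 ≤ k) (a : ℕ) (η : AlgebraicClosure K →* 𝕜) (C : Cls K) :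
    HW k (fun i => (X : 𝕜[X]) ^ (a * i)) η C =
      X ^ (a * (cl C / k)) * Polynomial.C (HW k (fun _ => (1 : 𝕜)) η C) := by
  have h1 := HW_pow_mul hk ((X : 𝕜[X]) ^ a) (fun _ => (1 : 𝕜[X])) η C
  have h2 : (fun i => ((X : 𝕜[X]) ^ a) ^ i * 1) = fun i => (X : 𝕜[X]) ^ (a * i) := by
    funext i
    rw [mul_one, pow_mul]
  rw [h2] at h1
  rw [h1, ← pow_mul]
  congr 1
  have h3 := map_HW (K := K) (Polynomial.CAlgHom (R := 𝕜) (A := 𝕜)) k (fun _ => (1 : 𝕜)) η
  have h4 : HW k (fun _ => (1 : 𝕜[X])) η C =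
      Hall.map ((Polynomial.CAlgHom (R := 𝕜) (A := 𝕜)) : 𝕜 →+* 𝕜[X])
        (HW k (fun _ => (1 : 𝕜)) η) C := by
    rw [h3]
    congr 2
  rw [h4, Hall.map_apply]
  rfl

lemma nk_factor_coeff {k : ℕ} (hk : 1 ≤ k) (a n : ℕ) (η : AlgebraicClosure K →* 𝕜) (C : Cls K) :
    (HW k (fun i => (X : 𝕜[X]) ^ (a * i)) η C).coeff n =
      if n = a * (cl C / k) then HW k (fun _ => (1 : 𝕜)) η C else 0 := by
  rw [nk_factor hk, mul_comm, Polynomial.coeff_C_mul, Polynomial.coeff_X_pow]
  split_ifs
  · rw [mul_one]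
  · rw [mul_zero]

/-- Green's theorem for the functions `HW k 1 η`. -/
theorem hLat_HW {k : ℕ} (hk : 1 ≤ k) (η : AlgebraicClosure K →* 𝕜) (m : ℕ) :
    HLat (OO 𝕜) m (HW k (fun _ => (1 : 𝕜)) η) := by
  classical
  obtain ⟨N⟩ := nonempty_necks
  induction m using Nat.strong_induction_on generalizing k η with
  | _ m ih =>
  rcases Nat.eq_zero_or_pos m with rfl | hm
  · rw [hLat_zero, HW_zero_apply]
    exact (OO 𝕜).one_mem
  by_cases hkm : k ∣ m
  swap
  · refine (HLat.zero (K := K) (𝕜 := 𝕜) (O := OO 𝕜)).congr fun C hC => ?_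
    rw [Hall.zero_apply, HW_of_not_dvd]
    rwa [hC]
  obtain ⟨n, hn⟩ := hkm
  -- strong induction on the quotient
  have main : ∀ n : ℕ, 1 ≤ n → ∀ k : ℕ, 1 ≤ k → m = k * n → ∀ η : AlgebraicClosure K →* 𝕜,
      HLat (OO 𝕜) m (HW k (fun _ => (1 : 𝕜)) η) := by
    intro n
    induction n using Nat.strong_induction_on with
    | _ n ihn =>
    intro hn k hk hmk η
    obtain ⟨c, hck, hc⟩ := N.one k hk
    set s : Finset (Σ _ : ℕ, Finset ℕ) := (Finset.Icc 1 m).sigma (fun k => N.R k) with hs
    set φ : (Σ _ : ℕ, Finset ℕ) → Hall K 𝕜[X] := fun i =>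
      HW i.1 (fun j => (X : 𝕜[X]) ^ (i.2.card * j)) (η ^ (∑ j ∈ i.2, Nat.card K ^ j)) with hφ
    have hs1 : ∀ i ∈ s, 1 ≤ i.1 := fun i hi =>
      (Finset.mem_Icc.1 (Finset.mem_sigma.1 hi).1).1
    have hcoef : ∀ i ∈ s, ∀ (j : ℕ) (C : Cls K), (φ i C).coeff j =
        if j = i.2.card * (cl C / i.1) then
          HW i.1 (fun _ => (1 : 𝕜)) (η ^ (∑ j ∈ i.2, Nat.card K ^ j)) C else 0 :=
      fun i hi j C => nk_factor_coeff (hs1 i hi) _ _ _ _
    have hlow : ∀ i ∈ s, ∀ a < m, PLat (OO 𝕜) a (φ i) := by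
      intro i hi a ha j
      by_cases hj : j = i.2.card * (a / i.1)
      · refine (ih a ha (hs1 i hi) (η ^ (∑ j ∈ i.2, Nat.card K ^ j))).congr fun C hC => ?_
        rw [hcoef i hi, hC, if_pos hj]
      · refine (HLat.zero (K := K) (𝕜 := 𝕜) (O := OO 𝕜)).congr fun C hC => ?_
        rw [hcoef i hi, hC, if_neg hj, Hall.zero_apply]
    have hprod := PLat.prod_sub s hm (φ := φ) (fun i _ => HW_zero_apply _ _ _) hlow n
    have hEH := hLat_EH η m n
    have hsum : HLat (OO 𝕜) m (∑ i ∈ s, nkCf n (φ i)) := by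
      refine (hEH.sub hprod).congr fun C hC => ?_
      rw [Hall.sub_apply]
      have h1 : EH η C = (∏ i ∈ s, φ i) C := by
        rw [EH_eq_prod N η m C hC.le, hs, Finset.prod_sigma]
      rw [h1, Hall.sub_apply, coeff_sub, sub_sub_cancel, Hall.sum_apply, Hall.sum_apply,
        finsetSum_coeff]
      rfl
    -- the distinguished index
    have hi₀ : (⟨k, {c}⟩ : Σ _ : ℕ, Finset ℕ) ∈ s := by
      rw [hs, Finset.mem_sigma]
      constructor
      · rw [Finset.mem_Icc]
        exact ⟨hk, by rw [hmk]; exact Nat.le_mul_of_pos_right k hn⟩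
      · have h1 : ({c} : Finset ℕ) ∈ (N.R k).filter (fun S => S.card = 1) := by
          rw [hc]
          exact Finset.mem_singleton_self _
        exact (Finset.mem_filter.1 h1).1
    have hother : ∀ i ∈ s.erase ⟨k, {c}⟩, HLat (OO 𝕜) m (nkCf n (φ i)) := by
      intro i hi
      have his := Finset.mem_of_mem_erase hi
      have hine := Finset.ne_of_mem_erase hi
      have hi1 := hs1 i his
      by_cases hdiv : i.1 ∣ m
      swap
      · refine (HLat.zero (K := K) (𝕜 := 𝕜) (O := OO 𝕜)).congr fun C hC => ?_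
        rw [nkCf_apply, hcoef i his, Hall.zero_apply, HW_of_not_dvd, ite_self]
        rwa [hC]
      by_cases hnn : n = i.2.card * (m / i.1)
      swap
      · refine (HLat.zero (K := K) (𝕜 := 𝕜) (O := OO 𝕜)).congr fun C hC => ?_
        rw [nkCf_apply, hcoef i his, hC, if_neg hnn, Hall.zero_apply]
      obtain ⟨n', hn'⟩ := hdiv
      have hdv : m / i.1 = n' := by
        rw [hn', Nat.mul_div_cancel_left _ hi1]
      rw [hdv] at hnn
      have hn'1 : 1 ≤ n' := by
        rcases Nat.eq_zero_or_pos n' with h | h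
        · rw [h, mul_zero] at hnn
          omega
        · exact h
      have hlt : n' < n := by
        rw [hnn]
        rcases Nat.lt_or_ge i.2.card 2 with h | h
        · exfalso
          interval_cases hcard : i.2.card
          · rw [zero_mul] at hnn
            omega
          · rw [one_mul] at hnn
            have hk1 : i.1 = k := by
              have h1 : i.1 * n' = k * n' := by rw [← hn', hmk, hnn]
              exact Nat.eq_of_mul_eq_mul_right hn'1 h1
            apply hine
            have h2 : i.2 ∈ (N.R k).filter (fun S => S.card = 1) := by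
              rw [Finset.mem_filter]
              refine ⟨?_, hcard⟩
              rw [← hk1]
              exact (Finset.mem_sigma.1 his).2
            rw [hc, Finset.mem_singleton] at h2
            obtain ⟨i1, i2⟩ := i
            simp only at hk1 h2
            rw [hk1, h2]
        · nlinarith
      refine (ihn n' hlt hn'1 i.1 hi1 hn' (η ^ (∑ j ∈ i.2, Nat.card K ^ j))).congr fun C hC => ?_
      rw [nkCf_apply, hcoef i his, hC, hdv, if_pos hnn]
    have hrest : HLat (OO 𝕜) m (∑ i ∈ s.erase ⟨k, {c}⟩, nkCf n (φ i)) := HLat.sum hother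
    refine (hsum.sub hrest).congr fun C hC => ?_
    rw [Hall.sub_apply, ← Finset.add_sum_erase s (fun i => nkCf n (φ i)) hi₀, Hall.add_apply,
      add_sub_cancel_right, nkCf_apply, hcoef _ hi₀, hC]
    simp only [Finset.card_singleton, one_mul, Finset.sum_singleton]
    rw [if_pos (by rw [hmk, Nat.mul_div_cancel_left _ hk]), HW, QW_pow_card hk]
    rfl
  exact main n (by
    rcases Nat.eq_zero_or_pos n with h | h
    · rw [h, mul_zero] at hn
      omega
    · exact h) k hk hn η

end Pool.Agent.Lib.MP_02a407_al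
end
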