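import Pool.Agent.Lib.MP_02a407_al.Q2.Hall
import Pool.Agent.Lib.MP_02a407_al.Q2.Integ

section

/-!
# The classes of the cyclic modules `K[X]/(f ^ r)`
-/

namespace Pool.Agent.Lib.MP_02a407_al

open Module Polynomial

/-- Monic irreducible polynomials different from `X`. -/
@[ext] structure PIdx (K : Type) [Field K] : Type where
  /-- the polynomial -/
  f : K[X]
  monic : f.Monic
  irred : Irreducible f
  ne_X : f ≠ X

variable {K : Type} [Field K]

namespace PIdx

/-- The degree of the polynomial. -/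
noncomputable def deg (f : PIdx K) : ℕ := f.f.natDegree

lemma deg_pos (f : PIdx K) : 0 < f.deg := f.irred.natDegree_pos

/-- The cycle index `(f, r)`. -/
def toIdx (f : PIdx K) (r : ℕ) (h : 1 ≤ r) : CycleIndex K := ⟨f.f, r, f.monic, f.irred, f.ne_X, h⟩

lemma coprime_X_pow (f : PIdx K) (r : ℕ) : IsCoprime X (f.f ^ r) :=
  (f.toIdx 1 le_rfl).coprime_X_pow r

instance (f : PIdx K) (r : ℕ) : FiniteDimensional K (AdjoinRoot (f.f ^ r)) :=
  finiteDimensional_adjoinRoot (f.monic.pow r).ne_zero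

/-- The class of `K[X]/(f ^ r)`. -/
noncomputable def cyc (f : PIdx K) (r : ℕ) : Cls K := cls (rootAut (f.f ^ r) (f.coprime_X_pow r))

end PIdx

/-- The polynomial of a cycle index. -/
def CycleIndex.toP (s : CycleIndex K) : PIdx K := ⟨s.f, s.monic, s.irred, s.ne_X⟩

lemma cyc_eq (s : CycleIndex K) : cyc s = s.toP.cyc s.r := cycleClass_eq s

lemma PIdx.cyc_toIdx (f : PIdx K) (r : ℕ) (h : 1 ≤ r) :
    Pool.Agent.Lib.MP_02a407_al.cyc (f.toIdx r h) = f.cyc r := cyc_eq _

lemma PIdx.cyc_zero (f : PIdx K) : f.cyc 0 = 0 := by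
  have : Subsingleton (AdjoinRoot (f.f ^ 0)) := by
    refine ⟨fun a b => ?_⟩
    obtain ⟨a, rfl⟩ := AdjoinRoot.mk_surjective a
    obtain ⟨b, rfl⟩ := AdjoinRoot.mk_surjective b
    rw [AdjoinRoot.mk_eq_mk, pow_zero]
    exact one_dvd _
  exact cls_subsingleton _

lemma PIdx.cl_cyc (f : PIdx K) (r : ℕ) : cl (f.cyc r) = r * f.deg := by
  rw [PIdx.cyc, cl_cls, finrank_adjoinRoot (f.monic.pow r).ne_zero, natDegree_pow]
  rfl

lemma PIdx.cyc_ne_zero (f : PIdx K) {r : ℕ} (h : 1 ≤ r) : f.cyc r ≠ 0 := by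
  intro h0
  have h1 := f.cl_cyc r
  rw [h0, cl_zero] at h1
  have := Nat.mul_pos h f.deg_pos
  omega

lemma cl_cyc (s : CycleIndex K) : cl (cyc s) = s.r * s.f.natDegree := by
  rw [cyc_eq, PIdx.cl_cyc]; rfl

lemma cyc_ne_zero (s : CycleIndex K) : cyc s ≠ 0 := by
  rw [cyc_eq]; exact PIdx.cyc_ne_zero _ s.pos

lemma cyc_injective : Function.Injective (cyc (K := K)) := by
  intro s t h
  have h1 : theta K (Finsupp.single s 1) = theta K (Finsupp.single t 1) := by
    rw [theta_single, theta_single, one_smul, one_smul, h]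
  have h2 := theta_injective h1
  exact (Finsupp.single_eq_single_iff _ _ _ _).1 h2 |>.resolve_right (by simp) |>.1

lemma PIdx.cyc_inj {f g : PIdx K} {r t : ℕ} (hr : 1 ≤ r) (h : f.cyc r = g.cyc t) :
    f = g ∧ r = t := by
  have ht : 1 ≤ t := by
    by_contra h0
    have : t = 0 := by omega
    subst this
    rw [PIdx.cyc_zero] at h
    exact f.cyc_ne_zero hr h
  rw [← f.cyc_toIdx r hr, ← g.cyc_toIdx t ht] at h
  have h1 := cyc_injective h
  exact ⟨PIdx.ext (congrArg CycleIndex.f h1), congrArg CycleIndex.r h1⟩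

/-- A nonzero class is a single cycle class or the sum of two nonzero classes. -/
lemma exists_decomp (C : Cls K) (hC : C ≠ 0) :
    (∃ s : CycleIndex K, C = cyc s) ∨ ∃ D E : Cls K, D ≠ 0 ∧ E ≠ 0 ∧ C = D + E := by
  classical
  obtain ⟨μ, rfl⟩ := theta_surjective C
  have hμ : μ ≠ 0 := by
    rintro rfl
    exact hC (map_zero _)
  obtain ⟨s, hs⟩ := Finsupp.ne_iff.1 hμ
  rw [Finsupp.coe_zero, Pi.zero_apply] at hs
  have h1 : Finsupp.single s 1 ≤ μ := by
    rw [Finsupp.single_le_iff]; omega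
  obtain ⟨ν, rfl⟩ := exists_add_of_le h1
  by_cases hν : ν = 0
  · left
    refine ⟨s, ?_⟩
    rw [hν, add_zero, theta_single, one_smul]
  · right
    refine ⟨theta K (Finsupp.single s 1), theta K ν, ?_, ?_, map_add _ _ _⟩
    · rw [theta_single, one_smul]; exact cyc_ne_zero s
    · intro h
      apply hν
      apply theta_injective
      rw [h, map_zero]

end Pool.Agent.Lib.MP_02a407_al
end

section

section

/-!
# Stable subspaces of the cyclic modules `K[X]/(f ^ r)`
-/

namespace Pool.Agent.Lib.MP_02a407_al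

open Module Polynomial

variable {K : Type} [Field K]

lemma cycStab_dvd (f : PIdx K) {i j r : ℕ} (h : i + j = r) : f.f ^ r ∣ f.f ^ j * f.f ^ i := by
  rw [← pow_add, ← h, add_comm]

/-- The stable subspace `(f ^ j)` of `K[X]/(f ^ r)`, `i + j = r`. -/
noncomputable def cycStab (f : PIdx K) {i j r : ℕ} (h : i + j = r) :
    Stab (rootAut (f.f ^ r) (f.coprime_X_pow r)) :=
  Stab.ofLE (LinearMap.range (mulMap (f.f ^ i) (f.f ^ r) (f.f ^ j) (cycStab_dvd f h))) (by
    rintro _ ⟨x, rfl⟩
    exact ⟨AdjoinRoot.root _ * x, mulMap_root _ _ _ _ _⟩)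

lemma cycStab_space (f : PIdx K) {i j r : ℕ} (h : i + j = r) :
    (cycStab f h).space =
      LinearMap.range (mulMap (f.f ^ i) (f.f ^ r) (f.f ^ j) (cycStab_dvd f h)) := rfl

lemma mem_cycStab (f : PIdx K) {i j r : ℕ} (h : i + j = r) (a : K[X]) :
    AdjoinRoot.mk (f.f ^ r) a ∈ (cycStab f h).space ↔ f.f ^ j ∣ a := by
  rw [cycStab_space]
  constructor
  · rintro ⟨x, hx⟩
    obtain ⟨b, rfl⟩ := AdjoinRoot.mk_surjective x
    rw [mulMap_mk, AdjoinRoot.mk_eq_mk] at hx
    have h1 : f.f ^ j ∣ f.f ^ j * b - a := (pow_dvd_pow _ (by omega)).trans hx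
    exact (dvd_sub_right (Dvd.intro _ rfl)).1 h1
  · rintro ⟨b, rfl⟩
    exact ⟨AdjoinRoot.mk _ b, mulMap_mk _ _ _ _ _⟩

lemma cls_cycStab_sub (f : PIdx K) {i j r : ℕ} (h : i + j = r) :
    cls (cycStab f h).sub = f.cyc i := by
  have hinj : Function.Injective (mulMap (f.f ^ i) (f.f ^ r) (f.f ^ j) (cycStab_dvd f h)) := by
    apply mulMap_injective
    intro a ha
    rw [← h, add_comm, pow_add] at ha
    exact (mul_dvd_mul_iff_left (pow_ne_zero _ f.irred.ne_zero)).1 ha
  symm
  refine cls_congr (LinearEquiv.ofInjective _ hinj) ?_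
  intro x
  apply Subtype.ext
  exact mulMap_root _ _ _ _ _

lemma cls_cycStab_quo (f : PIdx K) {i j r : ℕ} (h : i + j = r) :
    cls (cycStab f h).quo = f.cyc j := by
  have hd : f.f ^ j ∣ 1 * f.f ^ r := by
    rw [one_mul]
    exact pow_dvd_pow _ (by omega)
  set p := mulMap (f.f ^ r) (f.f ^ j) 1 hd with hp
  have hmk : ∀ a, p (AdjoinRoot.mk _ a) = AdjoinRoot.mk _ a := by
    intro a
    rw [hp, mulMap_mk, one_mul]
  have hs : Function.Surjective p := by
    intro y
    obtain ⟨a, rfl⟩ := AdjoinRoot.mk_surjective y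
    exact ⟨AdjoinRoot.mk _ a, hmk a⟩
  have hk : (cycStab f h).space = LinearMap.ker p := by
    ext x
    obtain ⟨a, rfl⟩ := AdjoinRoot.mk_surjective x
    rw [mem_cycStab, LinearMap.mem_ker, hmk, AdjoinRoot.mk_eq_zero]
  refine cls_congr ((Submodule.quotEquivOfEq _ _ hk).trans
    (LinearMap.quotKerEquivOfSurjective p hs)) ?_
  intro x
  obtain ⟨y, rfl⟩ := Submodule.Quotient.mk_surjective _ x
  exact mulMap_root _ _ _ hd _

lemma exists_cycStab (f : PIdx K) {r : ℕ} (W : Stab (rootAut (f.f ^ r) (f.coprime_X_pow r))) :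
    ∃ (i j : ℕ) (h : i + j = r), W = cycStab f h := by
  have hmul : ∀ (a : K[X]) (x : AdjoinRoot (f.f ^ r)), x ∈ W.space →
      AdjoinRoot.mk _ a * x ∈ W.space := by
    intro a
    induction a using Polynomial.induction_on with
    | C c =>
      intro x hx
      have : AdjoinRoot.mk (f.f ^ r) (C c) * x = c • x := by
        rw [AdjoinRoot.mk_C, Algebra.smul_def]
        rfl
      rw [this]
      exact W.space.smul_mem _ hx
    | add p q hp hq =>
      intro x hx
      rw [map_add, add_mul]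
      exact W.space.add_mem (hp x hx) (hq x hx)
    | monomial n c ih =>
      intro x hx
      have h1 := ih x hx
      have h2 : AdjoinRoot.mk (f.f ^ r) (C c * X ^ (n + 1)) * x =
          rootAut (f.f ^ r) (f.coprime_X_pow r) (AdjoinRoot.mk (f.f ^ r) (C c * X ^ n) * x) := by
        rw [rootAut_apply, ← AdjoinRoot.mk_X, ← mul_assoc, ← map_mul]
        congr 2
        ring
      rw [h2]
      exact (W.mem_iff _).2 h1
  let J : Ideal K[X] :=
    { carrier := {a | AdjoinRoot.mk (f.f ^ r) a ∈ W.space}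
      add_mem' := fun {a b} ha hb => by
        rw [Set.mem_ofPred_eq, map_add]
        exact W.space.add_mem ha hb
      zero_mem' := by
        rw [Set.mem_ofPred_eq, map_zero]
        exact W.space.zero_mem
      smul_mem' := fun c a ha => by
        rw [Set.mem_ofPred_eq, smul_eq_mul, map_mul]
        exact hmul c _ ha }
  have hJ : ∀ a, a ∈ J ↔ AdjoinRoot.mk (f.f ^ r) a ∈ W.space := fun a => Iff.rfl
  have hpr : J.IsPrincipal := IsPrincipalIdealRing.principal J
  have hgen : ∀ a, a ∈ J ↔ Submodule.IsPrincipal.generator J ∣ a := fun a =>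
    Submodule.IsPrincipal.mem_iff_generator_dvd J
  have h0 : f.f ^ r ∈ J := by
    rw [hJ, AdjoinRoot.mk_self]
    exact W.space.zero_mem
  rw [hgen] at h0
  obtain ⟨j, hj, hass⟩ := (dvd_prime_pow f.irred.prime r).1 h0
  refine ⟨r - j, j, Nat.sub_add_cancel hj, ?_⟩
  apply Stab.ext
  ext x
  obtain ⟨a, rfl⟩ := AdjoinRoot.mk_surjective x
  rw [mem_cycStab, ← hJ, hgen, hass.dvd_iff_dvd_left]

variable [Finite K]

/-- The stable subspaces of `K[X]/(f ^ r)` are the `r + 1` spaces `(f ^ (r - i))`, `0 ≤ i ≤ r`,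
with class `f.cyc i` and quotient class `f.cyc (r - i)`. -/
theorem ssum_cyc {β : Type*} [AddCommMonoid β] (F : Cls K → Cls K → β) (f : PIdx K) (r : ℕ) :
    ssum F (f.cyc r) =
      ∑ p ∈ Finset.HasAntidiagonal.antidiagonal r, F (f.cyc p.1) (f.cyc p.2) := by
  rw [PIdx.cyc, ssum_cls]
  symm
  refine Finset.sum_bij
    (fun (p : ℕ × ℕ) (hp : p ∈ Finset.HasAntidiagonal.antidiagonal r) =>
      cycStab f (Finset.HasAntidiagonal.mem_antidiagonal.1 hp)) ?_ ?_ ?_ ?_
  · intro p hp
    exact Finset.mem_univ _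
  · intro p hp p' hp' h
    have h1 : cls (cycStab f (Finset.HasAntidiagonal.mem_antidiagonal.1 hp)).sub =
        cls (cycStab f (Finset.HasAntidiagonal.mem_antidiagonal.1 hp')).sub := by
      have h' : cycStab f (Finset.HasAntidiagonal.mem_antidiagonal.1 hp) =
        cycStab f (Finset.HasAntidiagonal.mem_antidiagonal.1 hp') := h
      rw [h']
    rw [cls_cycStab_sub, cls_cycStab_sub] at h1
    have h2 := congrArg cl h1
    rw [PIdx.cl_cyc, PIdx.cl_cyc] at h2
    have h3 : p.1 = p'.1 := Nat.eq_of_mul_eq_mul_right f.deg_pos h2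
    have h4 := Finset.HasAntidiagonal.mem_antidiagonal.1 hp
    have h5 := Finset.HasAntidiagonal.mem_antidiagonal.1 hp'
    exact Prod.ext h3 (by omega)
  · intro W _
    obtain ⟨i, j, h, rfl⟩ := exists_cycStab f W
    exact ⟨(i, j), Finset.HasAntidiagonal.mem_antidiagonal.2 h, rfl⟩
  · intro p hp
    rw [cls_cycStab_sub, cls_cycStab_quo]

end Pool.Agent.Lib.MP_02a407_al
end

section

/-!
# Evaluation at the cyclic modules of a prime
-/

namespace Pool.Agent.Lib.MP_02a407_al

open Module Polynomial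

set_option linter.unusedSectionVars false

variable {K : Type} [Field K] [Finite K] {A : Type} [CommRing A]

/-- `φ ↦ ∑_r φ(K[X]/(f ^ r)) T ^ r`. -/
noncomputable def evp (f : PIdx K) : Hall K A →+* PowerSeries A where
  toFun φ := PowerSeries.mk fun r => φ (f.cyc r)
  map_zero' := by ext r; simp
  map_one' := by
    ext r
    rw [PowerSeries.coeff_mk, PowerSeries.coeff_one]
    split_ifs with h
    · rw [h, PIdx.cyc_zero, Hall.one_zero]
    · exact Hall.one_of_ne (f.cyc_ne_zero (by omega))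
  map_add' φ ψ := by ext r; simp
  map_mul' φ ψ := by
    ext r
    rw [PowerSeries.coeff_mk, PowerSeries.coeff_mul, Hall.mul_apply, ssum_cyc]
    simp only [PowerSeries.coeff_mk]

lemma coeff_evp (f : PIdx K) (φ : Hall K A) (r : ℕ) :
    PowerSeries.coeff r (evp f φ) = φ (f.cyc r) := by
  change PowerSeries.coeff r (PowerSeries.mk fun r => φ (f.cyc r)) = _
  rw [PowerSeries.coeff_mk]

end Pool.Agent.Lib.MP_02a407_al
end

section

/-!
# The degree derivation and the exponential
-/

namespace Pool.Agent.Lib.MP_02a407_al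

open Module

set_option linter.unusedSectionVars false

variable {K : Type} [Field K] [Finite K] {A : Type} [CommRing A] [Algebra ℚ A]

/-- The derivation which multiplies the part of degree `m` by `m`. -/
noncomputable def dg (φ : Hall K A) : Hall K A := fun C => (cl C : ℚ) • φ C

lemma dg_apply (φ : Hall K A) (C : Cls K) : dg φ C = (cl C : ℚ) • φ C := rfl

lemma dg_add (φ ψ : Hall K A) : dg (φ + ψ) = dg φ + dg ψ := by
  ext C; simp only [dg_apply, Hall.add_apply, smul_add]

/-! ### Auxiliary lemmas: splitting off the zero subspace -/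

omit [Finite K] [CommRing A] [Algebra ℚ A] in
lemma Stab.xp_sub_eq_zero_iff {M : Type} [AddCommGroup M] [Module K M] [FiniteDimensional K M]
    {g : M ≃ₗ[K] M} (W : Stab g) : cls W.sub = 0 ↔ W = Stab.bot g := by
  rw [cls_eq_zero_iff]
  constructor
  · intro h
    apply Stab.ext
    rw [Stab.space_bot]
    exact (Submodule.eq_bot_iff _).2 fun x hx =>
      congrArg Subtype.val (Subsingleton.elim (⟨x, hx⟩ : W.space) 0)
  · rintro rfl
    exact (inferInstance : Subsingleton (⊥ : Submodule K M))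

omit [Finite K] [CommRing A] [Algebra ℚ A] in
lemma Stab.xp_quo_bot {M : Type} [AddCommGroup M] [Module K M] [FiniteDimensional K M]
    (g : M ≃ₗ[K] M) : cls (Stab.bot g).quo = cls g := by
  refine cls_congr ((Stab.bot g).space.quotEquivOfEqBot rfl) fun x => ?_
  obtain ⟨y, rfl⟩ := Submodule.Quotient.mk_surjective _ x
  rw [Stab.quo_mk]
  rfl

omit [Finite K] [CommRing A] [Algebra ℚ A] in
lemma Stab.xp_cl_add {C : Cls K} (W : Stab (cA (C : ConjClasses (GLInf K)))) :
    cl (cls W.sub) + cl (cls W.quo) = cl C := by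
  rw [Stab.cl_sub_add_quo, finrank_cM']

omit [Finite K] [CommRing A] [Algebra ℚ A] in
lemma Stab.xp_quo_lt {C : Cls K} {W : Stab (cA (C : ConjClasses (GLInf K)))}
    (hW : cls W.sub ≠ 0) : cl (cls W.quo) < cl C := by
  have h1 := W.xp_cl_add
  have h2 : cl (cls W.sub) ≠ 0 := fun h => hW ((cl_eq_zero_iff _).1 h)
  omega

omit [Finite K] [CommRing A] [Algebra ℚ A] in
/-- Recursion on the degree. -/
lemma xp_exists_rec {B : Type} (b0 : B)
    (step : ∀ C : Cls K, (∀ D : Cls K, cl D < cl C → B) → B) :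
    ∃ F : Cls K → B, F 0 = b0 ∧ ∀ C, C ≠ 0 → F C = step C fun D _ => F D := by
  classical
  have hwf : WellFounded fun D C : Cls K => cl D < cl C := (measure (cl : Cls K → ℕ)).wf
  refine ⟨hwf.fix fun C rec => if C = 0 then b0 else step C rec, ?_, ?_⟩
  · rw [hwf.fix_eq, if_pos rfl]
  · intro C hC
    rw [hwf.fix_eq, if_neg hC]

lemma mul_zero_apply (φ ψ : Hall K A) : (φ * ψ) 0 = φ 0 * ψ 0 := by
  have h0 : (0 : Cls K) = cls (LinearEquiv.refl K PUnit.{1}) := (cls_subsingleton _).symm
  have : Unique (Stab (LinearEquiv.refl K PUnit.{1})) :=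
    { default := Stab.top _
      uniq := fun W => Stab.ext (Subsingleton.elim _ _) }
  conv_lhs => rw [h0]
  rw [Hall.mul_cls, Fintype.sum_unique, cls_subsingleton, cls_subsingleton]

theorem dg_mul (φ ψ : Hall K A) : dg (φ * ψ) = dg φ * ψ + φ * dg ψ := by
  ext C
  rw [dg_apply, Hall.add_apply, Hall.mul_apply, Hall.mul_apply, Hall.mul_apply, ssum, ssum, ssum,
    Finset.smul_sum, ← Finset.sum_add_distrib]
  refine Finset.sum_congr rfl fun W _ => ?_
  rw [dg_apply, dg_apply, smul_mul_assoc, mul_smul_comm, ← add_smul, ← W.xp_cl_add]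
  push_cast
  rfl

/-- The same up to degree `m`. -/
theorem dg_unique_le {P Q F G : Hall K A} {m : ℕ} (hP : P 0 = 0)
    (hPQ : ∀ C, cl C ≤ m → P C = Q C) (hF : dg F = P * F) (hG : dg G = Q * G)
    (h0 : F 0 = G 0) (C : Cls K) (hC : cl C ≤ m) : F C = G C := by
  have hQ : Q 0 = 0 := by
    rw [← hPQ 0 (by rw [cl_zero]; exact Nat.zero_le _), hP]
  obtain ⟨n, hn⟩ : ∃ n, n = cl C := ⟨_, rfl⟩
  induction n using Nat.strong_induction_on generalizing C with
  | _ n ih =>
    by_cases hC0 : C = 0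
    · rw [hC0, h0]
    · have hc : (cl C : ℚ) ≠ 0 := by
        exact_mod_cast fun h => hC0 ((cl_eq_zero_iff _).1 h)
      have h1 : (cl C : ℚ) • F C = (cl C : ℚ) • G C := by
        rw [← dg_apply, ← dg_apply, hF, hG, Hall.mul_apply, Hall.mul_apply, ssum, ssum]
        refine Finset.sum_congr rfl fun W _ => ?_
        by_cases hW : cls W.sub = 0
        · rw [hW, hP, hQ, zero_mul, zero_mul]
        · have h2 := Stab.xp_quo_lt hW
          have h3 := W.xp_cl_add
          rw [hPQ (cls W.sub) (by omega), ih (cl (cls W.quo)) (by omega) (cls W.quo) (by omega) rfl]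
      have h2 := congrArg (fun x => (cl C : ℚ)⁻¹ • x) h1
      simpa only [inv_smul_smul₀ hc] using h2

/-- Two solutions of `dg F = P F` with the same value at `0` are equal. -/
theorem dg_unique {P F G : Hall K A} (hP : P 0 = 0) (hF : dg F = P * F) (hG : dg G = P * G)
    (h0 : F 0 = G 0) : F = G :=
  Hall.ext fun C => dg_unique_le hP (fun _ _ => rfl) hF hG h0 C le_rfl

theorem exists_exp (P : Hall K A) (hP : P 0 = 0) : ∃ F : Hall K A, F 0 = 1 ∧ dg F = P * F := by
  classical
  obtain ⟨F, hF0, hF⟩ := xp_exists_rec (K := K) (1 : A) (fun C rec => (cl C : ℚ)⁻¹ •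
    ∑ W : Stab (cA (C : ConjClasses (GLInf K))),
      if h : cls W.sub = 0 then 0 else P (cls W.sub) * rec (cls W.quo) (Stab.xp_quo_lt h))
  let F' : Hall K A := F
  refine ⟨F', hF0, ?_⟩
  ext C
  by_cases hC0 : C = 0
  · rw [hC0, dg_apply, cl_zero, mul_zero_apply, hP, zero_mul, Nat.cast_zero, zero_smul]
  · have hc : (cl C : ℚ) ≠ 0 := by
      exact_mod_cast fun h => hC0 ((cl_eq_zero_iff _).1 h)
    rw [dg_apply]
    change (cl C : ℚ) • F C = _
    rw [hF C hC0, smul_inv_smul₀ hc, Hall.mul_apply, ssum]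
    refine Finset.sum_congr rfl fun W _ => ?_
    split_ifs with h
    · rw [h, hP, zero_mul]
    · rfl

/-- Elements with value `1` at `0` are invertible. -/
theorem exists_inv (F : Hall K A) (hF : F 0 = 1) : ∃ G : Hall K A, G 0 = 1 ∧ F * G = 1 := by
  classical
  obtain ⟨G, hG0, hG⟩ := xp_exists_rec (K := K) (1 : A) (fun C rec => -
    ∑ W : Stab (cA (C : ConjClasses (GLInf K))),
      if h : cls W.sub = 0 then 0 else F (cls W.sub) * rec (cls W.quo) (Stab.xp_quo_lt h))
  let G' : Hall K A := G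
  refine ⟨G', hG0, ?_⟩
  ext C
  by_cases hC0 : C = 0
  · rw [hC0, mul_zero_apply, hF, one_mul, Hall.one_zero]
    exact hG0
  · rw [Hall.one_of_ne hC0, Hall.mul_apply, ssum]
    have h1 : ∀ W : Stab (cA (C : ConjClasses (GLInf K))), F (cls W.sub) * G' (cls W.quo) =
        (if h : cls W.sub = 0 then 0 else F (cls W.sub) * G (cls W.quo)) +
          if W = Stab.bot _ then G C else 0 := by
      intro W
      by_cases h : cls W.sub = 0
      · have h2 := (Stab.xp_sub_eq_zero_iff W).1 h
        rw [dif_pos h, if_pos h2, h, hF, one_mul, zero_add, h2, Stab.xp_quo_bot, cls_cA]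
      · have h2 : W ≠ Stab.bot _ := fun h' => h ((Stab.xp_sub_eq_zero_iff W).2 h')
        rw [dif_neg h, if_neg h2, add_zero]
    rw [Finset.sum_congr rfl fun W _ => h1 W, Finset.sum_add_distrib, Finset.sum_ite_eq',
      if_pos (Finset.mem_univ _), hG C hC0, add_neg_cancel]

/-! ### Functions of two variables -/

/-- The tensor product of two functions. -/
noncomputable def ten (φ ψ : Hall K A) : Hall K (Hall K A) := fun C => φ C • ψ

lemma ten_apply (φ ψ : Hall K A) (C D : Cls K) : ten φ ψ C D = φ C * ψ D := rfl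

lemma ten_mul (φ ψ φ' ψ' : Hall K A) : ten φ ψ * ten φ' ψ' = ten (φ * φ') (ψ * ψ') := by
  refine Hall.ext fun C => ?_
  rw [Hall.mul_apply, ssum]
  change _ = (φ * φ') C • (ψ * ψ')
  rw [Hall.mul_apply, ssum, Finset.sum_smul]
  refine Finset.sum_congr rfl fun W _ => ?_
  exact smul_mul_smul_comm _ _ _ _

lemma ten_one_one : ten (1 : Hall K A) 1 = 1 := by
  refine Hall.ext fun C => ?_
  change (1 : Hall K A) C • (1 : Hall K A) = _
  by_cases hC : C = 0
  · rw [hC, Hall.one_zero, Hall.one_zero, one_smul]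
  · rw [Hall.one_of_ne hC, Hall.one_of_ne hC, zero_smul]

/-- The total degree derivation. -/
noncomputable def dgt (Φ : Hall K (Hall K A)) : Hall K (Hall K A) :=
  fun C D => ((cl C : ℚ) + cl D) • Φ C D

lemma dgt_apply (Φ : Hall K (Hall K A)) (C D : Cls K) :
    dgt Φ C D = ((cl C : ℚ) + cl D) • Φ C D := rfl

lemma dgt_ten (φ ψ : Hall K A) : dgt (ten φ ψ) = ten (dg φ) ψ + ten φ (dg ψ) := by
  ext C D
  rw [dgt_apply, Hall.add_apply, Hall.add_apply, ten_apply, ten_apply, ten_apply, dg_apply,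
    dg_apply, smul_mul_assoc, mul_smul_comm, ← add_smul]

lemma res_dg (φ : Hall K A) : res (dg φ) = dgt (res φ) := by
  ext C D
  have h1 := res_cls (dg φ) (cA (C : ConjClasses (GLInf K))) (cA (D : ConjClasses (GLInf K)))
  have h2 := res_cls φ (cA (C : ConjClasses (GLInf K))) (cA (D : ConjClasses (GLInf K)))
  rw [cls_cA, cls_cA] at h1 h2
  rw [dgt_apply, h1, h2, smul_comm ((cl C : ℚ) + cl D)]
  simp only [Finset.smul_sum]
  refine Finset.sum_congr rfl fun X _ => ?_
  rw [dg_apply, cl_cls, finrank_prod, finrank_cM', finrank_cM']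
  push_cast
  rfl

lemma mul_apply_apply (Φ Ψ : Hall K (Hall K A)) (C D : Cls K) : (Φ * Ψ) C D =
    ∑ W : Stab (cA (C : ConjClasses (GLInf K))), ∑ V : Stab (cA (D : ConjClasses (GLInf K))),
      Φ (cls W.sub) (cls V.sub) * Ψ (cls W.quo) (cls V.quo) := by
  rw [Hall.mul_apply, ssum, Hall.sum_apply]
  exact Finset.sum_congr rfl fun W _ => Hall.mul_apply _ _ _

/-- Uniqueness of the solutions of `dgt Φ = Q Φ`. -/
lemma dgt_unique {Q Φ Ψ : Hall K (Hall K A)} (hQ : Q 0 0 = 0) (hΦ : dgt Φ = Q * Φ)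
    (hΨ : dgt Ψ = Q * Ψ) (h0 : Φ 0 0 = Ψ 0 0) : Φ = Ψ := by
  have key : ∀ (n : ℕ) (C D : Cls K), n = cl C + cl D → Φ C D = Ψ C D := by
    intro n
    induction n using Nat.strong_induction_on with
    | _ n ih =>
      intro C D hn
      by_cases hn0 : n = 0
      · have hC : C = 0 := (cl_eq_zero_iff _).1 (by omega)
        have hD : D = 0 := (cl_eq_zero_iff _).1 (by omega)
        rw [hC, hD, h0]
      · have hc : (cl C : ℚ) + cl D ≠ 0 := by
          have : cl C + cl D ≠ 0 := by omega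
          exact_mod_cast this
        have h1 : ((cl C : ℚ) + cl D) • Φ C D = ((cl C : ℚ) + cl D) • Ψ C D := by
          rw [← dgt_apply, ← dgt_apply, hΦ, hΨ, mul_apply_apply, mul_apply_apply]
          refine Finset.sum_congr rfl fun W _ => Finset.sum_congr rfl fun V _ => ?_
          have h3 := W.xp_cl_add
          have h4 := V.xp_cl_add
          by_cases hW : cls W.sub = 0 ∧ cls V.sub = 0
          · rw [hW.1, hW.2, hQ, zero_mul, zero_mul]
          · have h5 : cl (cls W.quo) + cl (cls V.quo) < n := by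
              rw [not_and_or] at hW
              rcases hW with hW | hV
              · have := Stab.xp_quo_lt hW
                omega
              · have := Stab.xp_quo_lt hV
                omega
            rw [ih _ h5 _ _ rfl]
        have h2 := congrArg (fun x => ((cl C : ℚ) + cl D)⁻¹ • x) h1
        simpa only [inv_smul_smul₀ hc] using h2
  ext C D
  exact key _ C D rfl

lemma isPrim_iff {P : Hall K A} (hP : IsPrim P) : res P = ten P 1 + ten 1 P := by
  ext C D
  rw [Hall.add_apply, Hall.add_apply, ten_apply, ten_apply]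
  by_cases hC : C = 0
  · rw [hC, res_zero_left, hP.1, zero_mul, zero_add, Hall.one_zero, one_mul]
  · by_cases hD : D = 0
    · rw [hD, res_zero_right, hP.1, mul_zero, add_zero, Hall.one_zero, mul_one]
    · rw [hP.2 C D hC hD, Hall.one_of_ne hC, Hall.one_of_ne hD, zero_mul, mul_zero, add_zero]

/-- A primitive element has a group-like exponential. -/
theorem isGrp_of_dg {P F : Hall K A} (hP : IsPrim P) (h0 : F 0 = 1) (hF : dg F = P * F) :
    IsGrp F := by
  have h1 : res F = ten F F := by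
    refine dgt_unique (Q := res P) ?_ ?_ ?_ ?_
    · rw [res_zero_left, hP.1]
    · rw [← res_dg, hF, map_mul]
    · rw [dgt_ten, hF, isPrim_iff hP, add_mul, ten_mul, ten_mul, one_mul]
    · rw [res_zero_left, ten_apply, h0, mul_one]
  exact ⟨h0, fun C D => by rw [h1, ten_apply]⟩

/-- The logarithmic derivative of a group-like element is primitive. -/
theorem isPrim_log {F G : Hall K A} (hF : IsGrp F) (hG : F * G = 1) : IsPrim (dg F * G) := by
  have h1 : res F = ten F F := by
    ext C D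
    rw [hF.2, ten_apply]
  have h2 : res F * res G = 1 := by rw [← map_mul, hG, map_one]
  have h3 : res F * ten G G = 1 := by rw [h1, ten_mul, hG, ten_one_one]
  have h4 : res G = ten G G := by
    calc res G = (res F * ten G G) * res G := by rw [h3, one_mul]
      _ = (res F * res G) * ten G G := by ring
      _ = ten G G := by rw [h2, one_mul]
  refine ⟨?_, fun C D hC hD => ?_⟩
  · rw [mul_zero_apply, dg_apply, cl_zero, Nat.cast_zero, zero_smul, zero_mul]
  · rw [map_mul, res_dg, h1, h4, dgt_ten, add_mul, ten_mul, ten_mul, hG, Hall.add_apply,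
      Hall.add_apply, ten_apply, ten_apply, Hall.one_of_ne hC, Hall.one_of_ne hD, zero_mul,
      mul_zero, add_zero]

open Classical in
/-- The exponential: the solution `F` of `dg F = P F`, `F 0 = 1`. -/
noncomputable def hexp (P : Hall K A) : Hall K A :=
  if h : P 0 = 0 then (exists_exp P h).choose else 1

lemma hexp_zero (P : Hall K A) : hexp P 0 = 1 := by
  rw [hexp]
  split_ifs with h
  · exact (exists_exp P h).choose_spec.1
  · exact Hall.one_zero

lemma dg_hexp {P : Hall K A} (hP : P 0 = 0) : dg (hexp P) = P * hexp P := by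
  rw [hexp, dif_pos hP]
  exact (exists_exp P hP).choose_spec.2

lemma hexp_eq {P F : Hall K A} (hP : P 0 = 0) (h0 : F 0 = 1) (hF : dg F = P * F) :
    F = hexp P :=
  dg_unique hP hF (dg_hexp hP) (h0.trans (hexp_zero P).symm)

lemma hexp_add {P Q : Hall K A} (hP : P 0 = 0) (hQ : Q 0 = 0) :
    hexp (P + Q) = hexp P * hexp Q := by
  symm
  apply hexp_eq
  · rw [Hall.add_apply, hP, hQ, add_zero]
  · rw [mul_zero_apply, hexp_zero, hexp_zero, mul_one]
  · rw [dg_mul, dg_hexp hP, dg_hexp hQ]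
    ring

lemma isGrp_hexp {P : Hall K A} (hP : IsPrim P) : IsGrp (hexp P) :=
  isGrp_of_dg hP (hexp_zero P) (dg_hexp hP.1)

lemma map_hexp {B : Type} [CommRing B] [Algebra ℚ B] (f : A →+* B) {P : Hall K A}
    (hP : P 0 = 0) : Hall.map f (hexp P) = hexp (Hall.map f P) := by
  apply hexp_eq
  · rw [Hall.map_apply, hP, map_zero]
  · rw [Hall.map_apply, hexp_zero, map_one]
  · have h1 : dg (Hall.map f (hexp P)) = Hall.map f (dg (hexp P)) := by
      ext C
      rw [dg_apply, Hall.map_apply, Hall.map_apply, dg_apply, map_rat_smul]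
    rw [h1, dg_hexp hP, map_mul]

end Pool.Agent.Lib.MP_02a407_al
end

section

/-!
# Primary classes
-/

namespace Pool.Agent.Lib.MP_02a407_al

open Module Polynomial

set_option linter.unusedSectionVars false

variable {K : Type} [Field K]

/-- `C` is `f`-primary: `f(g)` is nilpotent. -/
def IsPrmy (f : PIdx K) (C : Cls K) : Prop :=
  IsNilpotent (aeval ((cA (C : ConjClasses (GLInf K)) :
    cM (C : ConjClasses (GLInf K)) →ₗ[K] cM (C : ConjClasses (GLInf K))) : Module.End K _) f.f)

section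

variable {M : Type} [AddCommGroup M] [Module K M] [FiniteDimensional K M]
  {N : Type} [AddCommGroup N] [Module K N] [FiniteDimensional K N]
  {P : Type} [AddCommGroup P] [Module K P]

lemma nil_iff (φ : Module.End K P) (f : K[X]) :
    IsNilpotent (aeval φ f) ↔ ∃ n : ℕ, ∀ x, aeval φ (f ^ n) x = 0 := by
  constructor
  · rintro ⟨n, hn⟩
    refine ⟨n, fun x => ?_⟩
    rw [map_pow, hn, LinearMap.zero_apply]
  · rintro ⟨n, hn⟩
    refine ⟨n, ?_⟩
    rw [← map_pow]
    ext x
    exact hn x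

lemma nil_congr {φ : Module.End K M} {χ : Module.End K N} (e : M ≃ₗ[K] N)
    (he : ∀ x, e (φ x) = χ (e x)) (f : K[X]) :
    IsNilpotent (aeval φ f) ↔ IsNilpotent (aeval χ f) := by
  rw [nil_iff, nil_iff]
  have h := aeval_intertwine φ χ (e : M →ₗ[K] N) he
  apply exists_congr
  intro n
  constructor
  · intro hn y
    obtain ⟨x, rfl⟩ := e.surjective y
    have h1 := h (f ^ n) x
    rw [hn x, map_zero] at h1
    exact h1.symm
  · intro hn x
    have h1 := h (f ^ n) x
    apply e.injective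
    rw [map_zero]
    exact h1.trans (hn _)

lemma nil_ext {A : Module.End K M} {φ : Module.End K P} {B : Module.End K N}
    (α : M →ₗ[K] P) (β : P →ₗ[K] N) (hα : Function.Injective α) (hβ : Function.Surjective β)
    (hex : ∀ p, β p = 0 → ∃ m, α m = p)
    (h1 : ∀ x, α (A x) = φ (α x)) (h2 : ∀ x, β (φ x) = B (β x)) (f : K[X]) :
    IsNilpotent (aeval φ f) ↔ IsNilpotent (aeval A f) ∧ IsNilpotent (aeval B f) := by
  have e1 := aeval_intertwine A φ α h1
  have e2 := aeval_intertwine φ B β h2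
  rw [nil_iff, nil_iff, nil_iff]
  constructor
  · rintro ⟨n, hn⟩
    refine ⟨⟨n, fun x => hα ?_⟩, ⟨n, fun y => ?_⟩⟩
    · rw [e1, hn, map_zero]
    · obtain ⟨x, rfl⟩ := hβ y
      rw [← e2, hn, map_zero]
  · rintro ⟨⟨a, ha⟩, ⟨b, hb⟩⟩
    refine ⟨a + b, fun x => ?_⟩
    rw [pow_add, map_mul, Module.End.mul_apply]
    obtain ⟨m, hm⟩ := hex (aeval φ (f ^ b) x) (by rw [e2, hb])
    rw [← hm, ← e1, ha, map_zero]

theorem isPrmy_cls (f : PIdx K) (g : M ≃ₗ[K] M) :
    IsPrmy f (cls g) ↔ IsNilpotent (aeval ((g : M →ₗ[K] M) : Module.End K M) f.f) := by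
  obtain ⟨e, he⟩ := cls_iso (cls_cA (cls g))
  exact nil_congr e he f.f

theorem isPrmy_zero (f : PIdx K) : IsPrmy f 0 := by
  have h0 : (0 : Cls K) = cls (LinearEquiv.refl K PUnit.{1}) := (cls_subsingleton _).symm
  rw [h0, isPrmy_cls, nil_iff]
  exact ⟨0, fun x => Subsingleton.elim _ _⟩

theorem isPrmy_utAut (f : PIdx K) (g : M ≃ₗ[K] M) (h : N ≃ₗ[K] N) (X : N →ₗ[K] M) :
    IsPrmy f (cls (utAut g h X)) ↔ IsPrmy f (cls g) ∧ IsPrmy f (cls h) := by
  rw [isPrmy_cls, isPrmy_cls, isPrmy_cls]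
  refine nil_ext (LinearMap.inl K M N) (LinearMap.snd K M N) LinearMap.inl_injective
    LinearMap.snd_surjective ?_ ?_ ?_ f.f
  · rintro ⟨m, n⟩ hp
    refine ⟨m, ?_⟩
    change n = 0 at hp
    rw [hp]
    rfl
  · intro x
    change (g x, (0 : N)) = (g x + X 0, h 0)
    rw [map_zero, map_zero, add_zero]
  · intro x
    rfl

theorem isPrmy_stab (f : PIdx K) (g : M ≃ₗ[K] M) (W : Stab g) :
    IsPrmy f (cls g) ↔ IsPrmy f (cls W.sub) ∧ IsPrmy f (cls W.quo) := by
  rw [isPrmy_cls, isPrmy_cls, isPrmy_cls]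
  refine nil_ext W.space.subtype W.space.mkQ W.space.injective_subtype
    W.space.mkQ_surjective ?_ ?_ ?_ f.f
  · intro p hp
    have hp' : p ∈ W.space := by
      rwa [Submodule.mkQ_apply, Submodule.Quotient.mk_eq_zero] at hp
    exact ⟨⟨p, hp'⟩, rfl⟩
  · intro x
    rfl
  · intro x
    rfl

theorem isPrmy_cyc (f f' : PIdx K) (r : ℕ) : IsPrmy f (f'.cyc r) ↔ r = 0 ∨ f' = f := by
  by_cases hr : r = 0
  · subst hr
    rw [PIdx.cyc_zero]
    exact ⟨fun _ => Or.inl rfl, fun _ => isPrmy_zero f⟩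
  rw [PIdx.cyc, isPrmy_cls, nil_iff]
  constructor
  · rintro ⟨n, hn⟩
    right
    have h1 := hn 1
    rw [aeval_rootAut, mul_one, AdjoinRoot.mk_eq_zero] at h1
    have h2 : f'.f ∣ f.f := by
      have h3 : f'.f ∣ f.f ^ n := (dvd_pow_self f'.f hr).trans h1
      exact f'.irred.prime.dvd_of_dvd_pow h3
    have h4 := f'.irred.associated_of_dvd f.irred h2
    exact PIdx.ext (eq_of_monic_of_associated f'.monic f.monic h4)
  · rintro (h | rfl)
    · exact absurd h hr
    · refine ⟨r, fun x => ?_⟩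
      rw [aeval_rootAut, AdjoinRoot.mk_self, zero_mul]

end

variable [Finite K]

open Classical in
/-- The indicator function of the `f`-primary classes. -/
noncomputable def prm (A : Type) [CommRing A] (f : PIdx K) : Hall K A :=
  fun C => if IsPrmy f C then 1 else 0

variable {A : Type} [CommRing A] [Algebra ℚ A]

lemma card_linearMap {M₁ M₂ : Type} [AddCommGroup M₁] [Module K M₁] [AddCommGroup M₂] [Module K M₂]
    [FiniteDimensional K M₁] [FiniteDimensional K M₂] :
    Fintype.card (M₂ →ₗ[K] M₁) = Nat.card K ^ (finrank K M₁ * finrank K M₂) := by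
  rw [← Nat.card_eq_fintype_card, Module.natCard_eq_pow_finrank (K := K),
    Module.finrank_linearMap, mul_comm]

theorem isGrp_prm (f : PIdx K) : IsGrp (prm A f) := by
  classical
  refine ⟨if_pos (isPrmy_zero f), fun C D => ?_⟩
  rw [← cls_cA C, ← cls_cA D, res_cls]
  have h1 : ∀ X : cM (D : ConjClasses (GLInf K)) →ₗ[K] cM (C : ConjClasses (GLInf K)),
      prm A f (cls (utAut (cA (C : ConjClasses (GLInf K))) (cA (D : ConjClasses (GLInf K))) X)) =
      prm A f (cls (cA (C : ConjClasses (GLInf K)))) *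
        prm A f (cls (cA (D : ConjClasses (GLInf K)))) := by
    intro X
    unfold prm
    by_cases hC : IsPrmy f (cls (cA (C : ConjClasses (GLInf K))))
    · by_cases hD : IsPrmy f (cls (cA (D : ConjClasses (GLInf K))))
      · rw [if_pos ((isPrmy_utAut f _ _ X).2 ⟨hC, hD⟩), if_pos hC, if_pos hD, mul_one]
      · rw [if_neg (fun h => hD ((isPrmy_utAut f _ _ X).1 h).2), if_neg hD, mul_zero]
    · rw [if_neg (fun h => hC ((isPrmy_utAut f _ _ X).1 h).1), if_neg hC, zero_mul]
  rw [Finset.sum_congr rfl (fun X _ => h1 X), Finset.sum_const, Finset.card_univ, card_linearMap]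
  have hq : (Nat.card K : ℚ) ≠ 0 := by
    have : 0 < Nat.card K := Nat.card_pos
    exact_mod_cast this.ne'
  rw [← Nat.cast_smul_eq_nsmul ℚ, smul_smul, Nat.cast_pow, inv_mul_cancel₀ (pow_ne_zero _ hq),
    one_smul]

end Pool.Agent.Lib.MP_02a407_al
end
end
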