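import Mathlib
import Pool.Agent.Lib.MP_02a407_al.Q2.PrmDef
import Pool.Agent.Lib.MP_02a407_al.Q2.FGReg
import Pool.Agent.Lib.MP_02a407_al.Q2.GInt
import Pool.Agent.Lib.MP_02a407_al.Q2.Dual
import Pool.Agent.Lib.MP_02a407_al.Q2.FGLat

section

/-!
# Brauer lifts of the exterior powers: definition
-/

namespace Pool.Agent.Lib.MP_02a407_al

open Module Polynomial

set_option linter.unusedSectionVars false

variable {K : Type} [Field K]

/-- The characteristic polynomial of a class. -/
noncomputable def cpol (C : Cls K) : K[X] :=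
  LinearMap.charpoly (cA (C : ConjClasses (GLInf K)) :
    cM (C : ConjClasses (GLInf K)) →ₗ[K] cM (C : ConjClasses (GLInf K)))

section

variable {M : Type} [AddCommGroup M] [Module K M] [FiniteDimensional K M]
  {N : Type} [AddCommGroup N] [Module K N] [FiniteDimensional K N]

lemma ed_charpoly_congr {φ : Module.End K M} {χ : Module.End K N} (e : M ≃ₗ[K] N)
    (he : ∀ x, e (φ x) = χ (e x)) : LinearMap.charpoly χ = LinearMap.charpoly φ := by
  have h : χ = e.conj φ := by
    ext x
    rw [LinearEquiv.conj_apply_apply, he, e.apply_symm_apply]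
  rw [h, LinearEquiv.charpoly_conj]

theorem cpol_cls (g : M ≃ₗ[K] M) : cpol (cls g) = LinearMap.charpoly (g : M →ₗ[K] M) := by
  obtain ⟨e, he⟩ := cls_iso (cls_cA (cls g))
  exact (ed_charpoly_congr (φ := ((cA (cls g : ConjClasses (GLInf K)) :
    cM (cls g : ConjClasses (GLInf K)) →ₗ[K] cM (cls g : ConjClasses (GLInf K)))))
    (χ := (g : M →ₗ[K] M)) e he).symm

lemma ed_charpoly_subsingleton [Subsingleton M] (φ : Module.End K M) :
    LinearMap.charpoly φ = 1 := by
  have h1 := LinearMap.charpoly_natDegree φ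
  rw [finrank_zero_of_subsingleton] at h1
  exact (LinearMap.charpoly_monic φ).natDegree_eq_zero.1 h1

theorem cpol_zero : cpol (0 : Cls K) = 1 := by
  have h0 : (0 : Cls K) = cls (LinearEquiv.refl K PUnit.{1}) := (cls_subsingleton _).symm
  rw [h0, cpol_cls, ed_charpoly_subsingleton]

/-- characteristic polynomial of a block triangular map -/
lemma ed_charpoly_ut (A : Module.End K M) (B : Module.End K N) (X : N →ₗ[K] M)
    (φ : Module.End K (M × N)) (hφ : ∀ p, φ p = (A p.1 + X p.2, B p.2)) :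
    LinearMap.charpoly φ = LinearMap.charpoly A * LinearMap.charpoly B := by
  classical
  let b₁ := finBasis K M
  let b₂ := finBasis K N
  rw [← LinearMap.charpoly_toMatrix A b₁, ← LinearMap.charpoly_toMatrix B b₂,
    ← LinearMap.charpoly_toMatrix φ (b₁.prod b₂)]
  have h : LinearMap.toMatrix (b₁.prod b₂) (b₁.prod b₂) φ =
      Matrix.fromBlocks (LinearMap.toMatrix b₁ b₁ A) (LinearMap.toMatrix b₂ b₁ X) 0
        (LinearMap.toMatrix b₂ b₂ B) := by
    ext (i | i) (j | j) <;> simp [LinearMap.toMatrix_apply, hφ]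
  rw [h, Matrix.charpoly_fromBlocks_zero₂₁]

lemma ed_charpoly_ext {P : Type} [AddCommGroup P] [Module K P] [FiniteDimensional K P]
    {A : Module.End K M} {φ : Module.End K P} {B : Module.End K N}
    (α : M →ₗ[K] P) (β : P →ₗ[K] N) (hα : Function.Injective α) (hβ : Function.Surjective β)
    (hαβ : ∀ m, β (α m) = 0) (hex : ∀ p, β p = 0 → ∃ m, α m = p)
    (h1 : ∀ x, α (A x) = φ (α x)) (h2 : ∀ x, β (φ x) = B (β x)) :
    LinearMap.charpoly φ = LinearMap.charpoly A * LinearMap.charpoly B := by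
  obtain ⟨s, hs⟩ := β.exists_rightInverse_of_surjective (LinearMap.range_eq_top.2 hβ)
  have hs' : ∀ n, β (s n) = n := fun n => LinearMap.congr_fun hs n
  let e0 : (M × N) →ₗ[K] P := α.coprod s
  have he0 : ∀ p, e0 p = α p.1 + s p.2 := fun p => rfl
  have hinj : Function.Injective e0 := by
    rw [← LinearMap.ker_eq_bot, LinearMap.ker_eq_bot']
    intro p hp
    rw [he0] at hp
    have h3 := congrArg β hp
    rw [map_add, hαβ, hs', zero_add, map_zero] at h3
    rw [h3, map_zero, add_zero] at hp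
    have h4 : p.1 = 0 := hα (by rw [hp, map_zero])
    exact Prod.ext h4 h3
  have hsurj : Function.Surjective e0 := by
    intro p
    obtain ⟨m, hm⟩ := hex (p - s (β p)) (by rw [map_sub, hs', sub_self])
    refine ⟨(m, β p), ?_⟩
    rw [he0, hm]
    exact sub_add_cancel _ _
  let e : (M × N) ≃ₗ[K] P := LinearEquiv.ofBijective e0 ⟨hinj, hsurj⟩
  have he : ∀ p, e p = α p.1 + s p.2 := fun p => rfl
  have hX : ∀ n, ∃ m, α m = φ (s n) - s (B n) := by
    intro n
    apply hex
    rw [map_sub, h2, hs', hs', sub_self]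
  let X : N →ₗ[K] M := (LinearMap.fst K M N) ∘ₗ e.symm.toLinearMap ∘ₗ (φ ∘ₗ s - s ∘ₗ B)
  have hX2 : ∀ n, α (X n) = φ (s n) - s (B n) := by
    intro n
    obtain ⟨m, hm⟩ := hX n
    have : e (m, 0) = φ (s n) - s (B n) := by rw [he, map_zero, add_zero, hm]
    have h5 : X n = m := by
      change (e.symm ((φ ∘ₗ s - s ∘ₗ B) n)).1 = m
      have h6 : (φ ∘ₗ s - s ∘ₗ B) n = e (m, 0) := by rw [this]; rfl
      rw [h6, e.symm_apply_apply]
    rw [h5, hm]
  let χ : Module.End K (M × N) := LinearMap.prod (A ∘ₗ LinearMap.fst K M N + X ∘ₗ LinearMap.snd K M N)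
    (B ∘ₗ LinearMap.snd K M N)
  have hχ : ∀ p, χ p = (A p.1 + X p.2, B p.2) := fun p => rfl
  rw [← ed_charpoly_ut A B X χ hχ]
  apply ed_charpoly_congr e
  intro p
  rw [hχ, he, he, map_add, hX2, h1, map_add]
  abel

theorem cpol_utAut (g : M ≃ₗ[K] M) (h : N ≃ₗ[K] N) (X : N →ₗ[K] M) :
    cpol (cls (utAut g h X)) = cpol (cls g) * cpol (cls h) := by
  rw [cpol_cls, cpol_cls, cpol_cls]
  exact ed_charpoly_ut _ _ X _ (fun p => rfl)

theorem cpol_stab (g : M ≃ₗ[K] M) (W : Stab g) :
    cpol (cls g) = cpol (cls W.sub) * cpol (cls W.quo) := by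
  rw [cpol_cls, cpol_cls, cpol_cls]
  refine ed_charpoly_ext W.space.subtype W.space.mkQ W.space.injective_subtype
    W.space.mkQ_surjective ?_ ?_ ?_ ?_
  · intro m
    rw [Submodule.mkQ_apply, Submodule.Quotient.mk_eq_zero]
    exact m.2
  · intro p hp
    have hp' : p ∈ W.space := by
      rwa [Submodule.mkQ_apply, Submodule.Quotient.mk_eq_zero] at hp
    exact ⟨⟨p, hp'⟩, rfl⟩
  · intro x
    rfl
  · intro x
    rfl

theorem cpol_cyc (f : PIdx K) (r : ℕ) : cpol (f.cyc r) = f.f ^ r := by
  rw [PIdx.cyc, cpol_cls]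
  set P := f.f ^ r with hP
  have hPm : P.Monic := f.monic.pow r
  set φ : Module.End K (AdjoinRoot P) := (rootAut P (f.coprime_X_pow r) :
    AdjoinRoot P →ₗ[K] AdjoinRoot P) with hφ
  have h1 : aeval φ (LinearMap.charpoly φ) = 0 := LinearMap.aeval_self_charpoly φ
  have h2 : P ∣ LinearMap.charpoly φ := by
    have h3 := LinearMap.congr_fun h1 1
    rw [hφ, aeval_rootAut, mul_one, LinearMap.zero_apply, AdjoinRoot.mk_eq_zero] at h3
    exact h3
  apply eq_of_monic_of_dvd_of_natDegree_le hPm (LinearMap.charpoly_monic φ) h2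
  rw [LinearMap.charpoly_natDegree, finrank_adjoinRoot hPm.ne_zero]

end

variable {𝕜 : Type} [Field 𝕜]

/-- `∏ (1 + η(α) X)`. -/
noncomputable def epol {F : Type} [Monoid F] (η : F →* 𝕜) (s : Multiset F) : 𝕜[X] :=
  (s.map (fun α => 1 + C (η α) * X)).prod

/-- The eigenvalues, with multiplicities. -/
noncomputable def rts (C : Cls K) : Multiset (AlgebraicClosure K) :=
  ((cpol C).map (algebraMap K (AlgebraicClosure K))).roots

/-- The generating function of the Brauer lifts of the exterior powers. -/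
noncomputable def EH (η : AlgebraicClosure K →* 𝕜) : Hall K 𝕜[X] := fun C => epol η (rts C)

lemma cpol_monic (C : Cls K) : (cpol C).Monic := LinearMap.charpoly_monic _

lemma ed_map_ne_zero {P : K[X]} (h : P.Monic) :
    P.map (algebraMap K (AlgebraicClosure K)) ≠ 0 := (h.map _).ne_zero

lemma epol_add {F : Type} [Monoid F] (η : F →* 𝕜) (s t : Multiset F) :
    epol η (s + t) = epol η s * epol η t := by
  rw [epol, Multiset.map_add, Multiset.prod_add]
  rfl

lemma rts_of_mul {C D E : Cls K} (h : cpol C = cpol D * cpol E) : rts C = rts D + rts E := by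
  rw [rts, h, Polynomial.map_mul, roots_mul]
  · rfl
  · exact mul_ne_zero (ed_map_ne_zero (cpol_monic D)) (ed_map_ne_zero (cpol_monic E))

lemma rts_zero : rts (0 : Cls K) = 0 := by
  rw [rts, cpol_zero, Polynomial.map_one, roots_one]
  rfl

variable [Finite K] [CharZero 𝕜]

theorem isGrp_EH (η : AlgebraicClosure K →* 𝕜) : IsGrp (EH (K := K) η) := by
  classical
  refine ⟨?_, fun C D => ?_⟩
  · rw [EH, rts_zero]
    rfl
  rw [← cls_cA C, ← cls_cA D, res_cls]
  have h1 : ∀ X : cM (D : ConjClasses (GLInf K)) →ₗ[K] cM (C : ConjClasses (GLInf K)),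
      EH η (cls (utAut (cA (C : ConjClasses (GLInf K))) (cA (D : ConjClasses (GLInf K))) X)) =
      EH η (cls (cA (C : ConjClasses (GLInf K)))) *
        EH η (cls (cA (D : ConjClasses (GLInf K)))) := by
    intro X
    unfold EH
    rw [rts_of_mul (cpol_utAut _ _ X), epol_add]
  rw [Finset.sum_congr rfl (fun X _ => h1 X), Finset.sum_const, Finset.card_univ, card_linearMap]
  have hq : (Nat.card K : ℚ) ≠ 0 := by
    have : 0 < Nat.card K := Nat.card_pos
    exact_mod_cast this.ne'
  rw [← Nat.cast_smul_eq_nsmul ℚ, smul_smul, Nat.cast_pow, inv_mul_cancel₀ (pow_ne_zero _ hq),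
    one_smul]

theorem EH_cyc (η : AlgebraicClosure K →* 𝕜) (f : PIdx K) (r : ℕ) :
    EH η (f.cyc r) =
      (epol η ((f.f.map (algebraMap K (AlgebraicClosure K))).roots)) ^ r := by
  rw [EH, rts, cpol_cyc, Polynomial.map_pow, roots_pow, epol, Multiset.map_nsmul,
    Multiset.prod_nsmul]
  rfl

/-- The values of a homomorphism on the elements different from `0` are roots of unity. -/
theorem exists_pow_eq_one (α : AlgebraicClosure K) (h : α ≠ 0) :
    ∃ n : ℕ, 0 < n ∧ n.Coprime (Nat.card K) ∧ α ^ n = 1 := by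
  classical
  have hint : IsIntegral K α := Algebra.IsIntegral.isIntegral α
  have hfd : FiniteDimensional K (IntermediateField.adjoin K {α}) :=
    IntermediateField.adjoin.finiteDimensional hint
  have hfin : Finite (IntermediateField.adjoin K {α}) := Module.finite_of_finite K
  have : Fintype (IntermediateField.adjoin K {α}) := Fintype.ofFinite _
  have hcard : Nat.card (IntermediateField.adjoin K {α}) =
      Nat.card K ^ finrank K (IntermediateField.adjoin K {α}) := Module.natCard_eq_pow_finrank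
  have hd : 0 < finrank K (IntermediateField.adjoin K {α}) := finrank_pos
  have hq : 1 < Nat.card K := Finite.one_lt_card
  have hq2 : 1 < Nat.card (IntermediateField.adjoin K {α}) := Finite.one_lt_card
  refine ⟨Nat.card (IntermediateField.adjoin K {α}) - 1, by omega, ?_, ?_⟩
  · have h1 : (Nat.card (IntermediateField.adjoin K {α}) - 1).Coprime
        (Nat.card (IntermediateField.adjoin K {α})) := by
      rw [Nat.coprime_comm]
      apply (Nat.coprime_self_sub_right _).2
      · exact Nat.coprime_one_right _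
      · omega
    refine h1.coprime_dvd_right ?_
    rw [hcard]
    exact dvd_pow_self _ hd.ne'
  · have h2 : (IntermediateField.AdjoinSimple.gen K α) ≠ 0 := by
      intro h0
      apply h
      have := congrArg (fun x : IntermediateField.adjoin K {α} => (x : AlgebraicClosure K)) h0
      simpa using this
    have h3 := FiniteField.pow_card_sub_one_eq_one (IntermediateField.AdjoinSimple.gen K α) h2
    rw [← Nat.card_eq_fintype_card] at h3
    have h4 := congrArg (fun x : IntermediateField.adjoin K {α} => (x : AlgebraicClosure K)) h3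
    simpa using h4

theorem eta_mem (η : AlgebraicClosure K →* 𝕜) (α : AlgebraicClosure K) (h : α ≠ 0) :
    η α ∈ OO 𝕜 := by
  obtain ⟨n, hn, -, hn2⟩ := exists_pow_eq_one α h
  have h1 : (η α) ^ n = 1 := by rw [← map_pow, hn2, map_one]
  have h2 : IsIntegral ℤ (η α) := by
    apply IsIntegral.of_pow hn
    rw [h1]
    exact isIntegral_one
  exact h2

lemma ed_rts_ne_zero (C : Cls K) {α : AlgebraicClosure K} (h : α ∈ rts C) : α ≠ 0 := by
  rintro rfl
  rw [rts, mem_roots (ed_map_ne_zero (cpol_monic C)), IsRoot.def, eval_map, eval₂_at_zero] at h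
  have h1 : (cpol C).coeff 0 = 0 := by
    apply (algebraMap K (AlgebraicClosure K)).injective
    rw [h, map_zero]
  have h2 := LinearMap.det_eq_sign_charpoly_coeff (cA (C : ConjClasses (GLInf K)) :
    cM (C : ConjClasses (GLInf K)) →ₗ[K] cM (C : ConjClasses (GLInf K)))
  have h3 : LinearMap.det (cA (C : ConjClasses (GLInf K)) :
    cM (C : ConjClasses (GLInf K)) →ₗ[K] cM (C : ConjClasses (GLInf K))) ≠ 0 :=
    (LinearEquiv.isUnit_det' _).ne_zero
  apply h3
  rw [h2]
  change _ * (cpol C).coeff 0 = 0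
  rw [h1, mul_zero]

lemma ed_epol_lift (η : AlgebraicClosure K →* 𝕜) (s : Multiset (AlgebraicClosure K))
    (hs : ∀ α ∈ s, α ≠ 0) : ∃ P : (OO 𝕜)[X], P.map (OO 𝕜).subtype = epol η s := by
  induction s using Multiset.induction with
  | empty => exact ⟨1, by rw [Polynomial.map_one]; rfl⟩
  | cons a s ih =>
    obtain ⟨P, hP⟩ := ih (fun α hα => hs α (Multiset.mem_cons_of_mem hα))
    have ha := eta_mem η a (hs a (Multiset.mem_cons_self a s))
    refine ⟨(1 + C ⟨η a, ha⟩ * X) * P, ?_⟩
    rw [Polynomial.map_mul, hP, epol, epol, Multiset.map_cons, Multiset.prod_cons]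
    simp
    exact Or.inl rfl

theorem coeff_EH_mem (η : AlgebraicClosure K →* 𝕜) (C : Cls K) (a : ℕ) :
    (EH η C).coeff a ∈ OO 𝕜 := by
  obtain ⟨P, hP⟩ := ed_epol_lift η (rts C) (fun α hα => ed_rts_ne_zero C hα)
  rw [EH, ← hP, coeff_map]
  exact (P.coeff a).2

lemma ed_charpoly_pow {M : Type} [AddCommGroup M] [Module K M] [FiniteDimensional K M]
    (φ : Module.End K M) (m : ℕ) :
    LinearMap.charpoly (φ ^ (Nat.card K ^ m)) = LinearMap.charpoly φ := by
  classical
  have : Fintype K := Fintype.ofFinite K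
  let b := finBasis K M
  have h1 : ∀ χ : Module.End K M, LinearMap.charpoly (χ ^ Nat.card K) = LinearMap.charpoly χ := by
    intro χ
    rw [← LinearMap.charpoly_toMatrix χ b, ← LinearMap.charpoly_toMatrix (χ ^ Nat.card K) b,
      ← LinearMap.toMatrix_pow, Nat.card_eq_fintype_card, FiniteField.Matrix.charpoly_pow_card]
  induction m with
  | zero => rw [pow_zero, pow_one]
  | succ m ih => rw [pow_succ, pow_mul, h1, ih]

/-- The eigenvalues of `v g` are those of `g` if `v` and `g` commute and `v` is of order a power of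
the characteristic. -/
theorem rts_mul {M : Type} [AddCommGroup M] [Module K M] [FiniteDimensional K M] (p : ℕ)
    [_root_.Fact p.Prime] [CharP K p] (v g : M ≃ₗ[K] M) (hv : ∃ k : ℕ, v ^ (p ^ k) = 1)
    (h : v * g = g * v) : rts (cls (v * g)) = rts (cls g) := by
  have : Fintype K := Fintype.ofFinite K
  obtain ⟨k, hk⟩ := hv
  obtain ⟨n, hp, hn⟩ := FiniteField.card K p
  have hcard : Nat.card K = p ^ (n : ℕ) := by rw [Nat.card_eq_fintype_card, hn]
  have hvq : v ^ (Nat.card K ^ k) = 1 := by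
    rw [hcard, ← pow_mul]
    obtain ⟨m, hm⟩ : p ^ k ∣ p ^ ((n : ℕ) * k) :=
      pow_dvd_pow p (Nat.le_mul_of_pos_left k n.pos)
    rw [hm, pow_mul, hk, one_pow]
  have hpow : (v * g) ^ (Nat.card K ^ k) = g ^ (Nat.card K ^ k) := by
    rw [Commute.mul_pow (h : Commute v g), hvq, one_mul]
  have hcoe : ∀ (w : M ≃ₗ[K] M) (j : ℕ),
      (((w ^ j : M ≃ₗ[K] M) : M →ₗ[K] M) : Module.End K M) = ((w : M →ₗ[K] M) : Module.End K M) ^ j := by
    intro w j
    exact map_pow (LinearEquiv.automorphismGroup.toLinearMapMonoidHom (R := K) (M := M)) w j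
  have hch : cpol (cls (v * g)) = cpol (cls g) := by
    rw [cpol_cls, cpol_cls, ← ed_charpoly_pow (((v * g : M ≃ₗ[K] M) : M →ₗ[K] M)) k,
      ← ed_charpoly_pow ((g : M →ₗ[K] M)) k, ← hcoe, ← hcoe, hpow]
  rw [rts, rts, hch]

end Pool.Agent.Lib.MP_02a407_al
end

section

section

/-!
# Necklaces: subsets of `ℤ/M` and their periods
-/

namespace Pool.Agent.Lib.MP_02a407_al

/-- The preimage in `ℤ/M` of a subset of `ℤ/k`, `k ∣ M`, in terms of representatives. -/
def pullN (k M : ℕ) (S : Finset ℕ) : Finset ℕ := (Finset.range M).filter (fun i => i % k ∈ S)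

/-- The rotation of a subset of `ℤ/M`. -/
def rotN (M : ℕ) (S : Finset ℕ) : Finset ℕ := S.image (fun i => (i + 1) % M)

/-- Representatives of the aperiodic subsets of `ℤ/k` up to rotation, with their properties. -/
structure Necks where
  /-- the representatives -/
  R : ℕ → Finset (Finset ℕ)
  sub : ∀ k, ∀ S ∈ R k, S ⊆ Finset.range k
  one : ∀ k, 1 ≤ k → ∃ c < k, (R k).filter (fun S => S.card = 1) = {{c}}
  empty : ∀ k, ∅ ∈ R k → k = 1
  sum_eq : ∀ (A : Type) [AddCommGroup A] (M : ℕ), 1 ≤ M → ∀ F : Finset ℕ → A,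
    (∀ S ⊆ Finset.range M, F (rotN M S) = F S) →
      ∑ S ∈ (Finset.range M).powerset, F S =
        ∑ k ∈ M.divisors, k • ∑ S ∈ R k, F (pullN k M S)

/-! ### rotations -/

theorem neck_injOn {M : ℕ} (n : ℕ) :
    Set.InjOn (fun i => (i + n) % M) (Finset.range M : Set ℕ) := by
  intro i hi j hj h
  simp only [Finset.coe_range, Set.mem_Iio] at hi hj
  have h1 : i + n ≡ j + n [MOD M] := h
  have h2 : i ≡ j [MOD M] := Nat.ModEq.add_right_cancel' n h1
  exact Nat.ModEq.eq_of_lt_of_lt h2 hi hj

theorem neck_iter {M : ℕ} {S : Finset ℕ} (hS : S ⊆ Finset.range M) (n : ℕ) :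
    (rotN M)^[n] S = S.image (fun i => (i + n) % M) := by
  induction n with
  | zero =>
    simp only [Function.iterate_zero, id_eq, add_zero]
    ext i
    simp only [Finset.mem_image]
    constructor
    · intro hi
      exact ⟨i, hi, Nat.mod_eq_of_lt (Finset.mem_range.1 (hS hi))⟩
    · rintro ⟨j, hj, rfl⟩
      rwa [Nat.mod_eq_of_lt (Finset.mem_range.1 (hS hj))]
  | succ n ih =>
    rw [Function.iterate_succ_apply', ih, rotN, Finset.image_image]
    refine Finset.image_congr fun i _ => ?_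
    simp only [Function.comp_apply]
    rw [Nat.mod_add_mod, add_assoc]

theorem neck_iter_sub {M : ℕ} (hM : 1 ≤ M) {S : Finset ℕ} (hS : S ⊆ Finset.range M) (n : ℕ) :
    (rotN M)^[n] S ⊆ Finset.range M := by
  rw [neck_iter hS]
  intro i hi
  obtain ⟨j, -, rfl⟩ := Finset.mem_image.1 hi
  exact Finset.mem_range.2 (Nat.mod_lt _ hM)

theorem rotN_sub {M : ℕ} (hM : 1 ≤ M) {S : Finset ℕ} : rotN M S ⊆ Finset.range M := by
  intro i hi
  obtain ⟨j, -, rfl⟩ := Finset.mem_image.1 hi
  exact Finset.mem_range.2 (Nat.mod_lt _ hM)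

theorem neck_iter_self {M : ℕ} {S : Finset ℕ} (hS : S ⊆ Finset.range M) :
    (rotN M)^[M] S = S := by
  rw [neck_iter hS]
  have h := neck_iter hS 0
  simp only [Function.iterate_zero, id_eq, add_zero] at h
  conv_rhs => rw [h]
  refine Finset.image_congr fun i _ => ?_
  simp

theorem neck_mem_iter {M : ℕ} {S : Finset ℕ} (hS : S ⊆ Finset.range M) (n : ℕ)
    {i : ℕ} (hi : i < M) : (i + n) % M ∈ (rotN M)^[n] S ↔ i ∈ S := by
  rw [neck_iter hS, Finset.mem_image]
  constructor
  · rintro ⟨j, hj, h⟩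
    have := neck_injOn n (by simpa using Finset.mem_range.1 (hS hj)) (by simpa using hi) h
    rwa [← this]
  · intro h
    exact ⟨i, h, rfl⟩

theorem neck_periodic {M : ℕ} {S : Finset ℕ} (hS : S ⊆ Finset.range M) :
    Function.IsPeriodicPt (rotN M) M S := neck_iter_self hS

/-! ### pull back -/

theorem pullN_sub {k M : ℕ} {S : Finset ℕ} : pullN k M S ⊆ Finset.range M := Finset.filter_subset _ _

theorem mem_pullN {k M : ℕ} {S : Finset ℕ} {i : ℕ} : i ∈ pullN k M S ↔ i < M ∧ i % k ∈ S := by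
  rw [pullN, Finset.mem_filter, Finset.mem_range]

theorem pullN_inj {k M : ℕ} (hM : 1 ≤ M) (h : k ∣ M) {S T : Finset ℕ} (hS : S ⊆ Finset.range k)
    (hT : T ⊆ Finset.range k) (hST : pullN k M S = pullN k M T) : S = T := by
  have hk : k ≤ M := Nat.le_of_dvd hM h
  ext i
  constructor
  · intro hi
    have hik := Finset.mem_range.1 (hS hi)
    have h1 : i ∈ pullN k M S := mem_pullN.2 ⟨by omega, by rwa [Nat.mod_eq_of_lt hik]⟩
    rw [hST, mem_pullN, Nat.mod_eq_of_lt hik] at h1
    exact h1.2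
  · intro hi
    have hik := Finset.mem_range.1 (hT hi)
    have h1 : i ∈ pullN k M T := mem_pullN.2 ⟨by omega, by rwa [Nat.mod_eq_of_lt hik]⟩
    rw [← hST, mem_pullN, Nat.mod_eq_of_lt hik] at h1
    exact h1.2

theorem rotN_pullN {k M : ℕ} (hM : 1 ≤ M) (h : k ∣ M) {S : Finset ℕ} (hS : S ⊆ Finset.range k) :
    rotN M (pullN k M S) = pullN k M (rotN k S) := by
  ext j
  rw [rotN, Finset.mem_image, mem_pullN, rotN, Finset.mem_image]
  constructor
  · rintro ⟨i, hi, rfl⟩
    rw [mem_pullN] at hi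
    refine ⟨Nat.mod_lt _ hM, i % k, hi.2, ?_⟩
    rw [Nat.mod_mod_of_dvd _ h, Nat.mod_add_mod]
  · rintro ⟨hj, s, hs, h1⟩
    have hsk := Finset.mem_range.1 (hS hs)
    have e1 : ((j + (M - 1)) % M + 1) % M = j := by
      rw [Nat.mod_add_mod, show j + (M - 1) + 1 = j + M by omega, Nat.add_mod_right,
        Nat.mod_eq_of_lt hj]
    refine ⟨(j + (M - 1)) % M, mem_pullN.2 ⟨Nat.mod_lt _ hM, ?_⟩, e1⟩
    rw [Nat.mod_mod_of_dvd _ h]
    have e2 : (j + (M - 1)) + 1 ≡ s + 1 [MOD k] := by
      have e3 : (j + (M - 1)) + 1 = j + M := by omega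
      rw [e3]
      have e4 : j + M ≡ j + 0 [MOD k] := Nat.ModEq.add_left j ((Nat.modEq_zero_iff_dvd).2 h)
      exact e4.trans (by rw [add_zero]; exact h1.symm)
    have e5 : j + (M - 1) ≡ s [MOD k] := Nat.ModEq.add_right_cancel' 1 e2
    have e6 : (j + (M - 1)) % k = s := by
      have : (j + (M - 1)) % k = s % k := e5
      rw [this, Nat.mod_eq_of_lt hsk]
    rwa [e6]

theorem iter_pullN {k M : ℕ} (hk : 1 ≤ k) (hM : 1 ≤ M) (h : k ∣ M) {S : Finset ℕ}
    (hS : S ⊆ Finset.range k) (n : ℕ) :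
    (rotN M)^[n] (pullN k M S) = pullN k M ((rotN k)^[n] S) := by
  induction n with
  | zero => rfl
  | succ n ih =>
    rw [Function.iterate_succ_apply', ih, Function.iterate_succ_apply',
      rotN_pullN hM h (neck_iter_sub hk hS n)]

theorem period_pullN {k M : ℕ} (hk : 1 ≤ k) (hM : 1 ≤ M) (h : k ∣ M) {S : Finset ℕ}
    (hS : S ⊆ Finset.range k) :
    Function.minimalPeriod (rotN M) (pullN k M S) = Function.minimalPeriod (rotN k) S := by
  rw [Function.minimalPeriod_eq_minimalPeriod_iff]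
  intro n
  constructor
  · intro h1
    have h2 : (rotN M)^[n] (pullN k M S) = pullN k M S := h1
    rw [iter_pullN hk hM h hS] at h2
    exact pullN_inj hM h (neck_iter_sub hk hS n) hS h2
  · intro h1
    have h2 : (rotN k)^[n] S = S := h1
    show (rotN M)^[n] (pullN k M S) = pullN k M S
    rw [iter_pullN hk hM h hS, h2]

theorem pullN_surj {k M : ℕ} (hk : 1 ≤ k) (hM : 1 ≤ M) (h : k ∣ M) {T : Finset ℕ}
    (hT : T ⊆ Finset.range M) (hper : (rotN M)^[k] T = T) :
    pullN k M (T.filter (fun i => i < k)) = T := by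
  -- membership is periodic
  have h1 : ∀ n i, i + k * n < M → (i + k * n ∈ T ↔ i ∈ T) := by
    intro n
    induction n with
    | zero => intro i _; simp
    | succ n ih =>
      intro i hi
      have e1 : i + k * (n + 1) = (i + k * n) + k := by ring
      rw [e1] at hi ⊢
      have h2 := neck_mem_iter hT k (i := i + k * n) (by omega)
      rw [hper, Nat.mod_eq_of_lt hi] at h2
      rw [h2]
      exact ih i (by omega)
  ext i
  rw [mem_pullN, Finset.mem_filter]
  have hdiv := Nat.mod_add_div i k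
  constructor
  · rintro ⟨hi, h2, -⟩
    have h3 := h1 (i / k) (i % k) (by rw [hdiv]; exact hi)
    rw [hdiv] at h3
    exact h3.2 h2
  · intro hi
    have hiM := Finset.mem_range.1 (hT hi)
    have h3 := h1 (i / k) (i % k) (by rw [hdiv]; exact hiM)
    rw [hdiv] at h3
    exact ⟨hiM, h3.1 hi, Nat.mod_lt _ hk⟩

/-! ### orbits -/

/-- Sum over orbits of equal length. -/
theorem orbit_sum {α A : Type} [DecidableEq α] [AddCommGroup A] {f : α → α} {X : Finset α}
    (hf : ∀ x ∈ X, f x ∈ X) {k : ℕ} (hk : 1 ≤ k)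
    (hper : ∀ x ∈ X, Function.minimalPeriod f x = k) (wt : α → ℕ)
    (hwt : ∀ x ∈ X, ∀ y ∈ X, wt x = wt y → x = y) (Rep : Finset α)
    (hRep : ∀ x, x ∈ Rep ↔ x ∈ X ∧ ∀ c, wt x ≤ wt (f^[c] x)) {G : α → A}
    (hG : ∀ x ∈ X, G (f x) = G x) :
    ∑ x ∈ X, G x = k • ∑ x ∈ Rep, G x := by
  have hfi : ∀ (c : ℕ), ∀ x ∈ X, f^[c] x ∈ X := by
    intro c
    induction c with
    | zero => intro x hx; exact hx
    | succ c ih => intro x hx; rw [Function.iterate_succ_apply']; exact hf _ (ih x hx)
  have hGi : ∀ (c : ℕ), ∀ x ∈ X, G (f^[c] x) = G x := by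
    intro c
    induction c with
    | zero => intro x _; rfl
    | succ c ih =>
      intro x hx
      rw [Function.iterate_succ_apply', hG _ (hfi c x hx), ih x hx]
  have hP : ∀ x ∈ X, f^[k] x = x := fun x hx => by
    have h1 := Function.isPeriodicPt_minimalPeriod f x
    rw [hper x hx] at h1
    exact h1
  have h1 : k • ∑ x ∈ Rep, G x = ∑ p ∈ Rep ×ˢ Finset.range k, G (f^[p.2] p.1) := by
    rw [Finset.sum_product, Finset.smul_sum]
    refine Finset.sum_congr rfl fun x hx => ?_
    have hx' := ((hRep x).1 hx).1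
    rw [Finset.sum_congr rfl (fun c _ => hGi c x hx'), Finset.sum_const, Finset.card_range]
  rw [h1]
  symm
  refine Finset.sum_bij (fun p _ => f^[p.2] p.1) ?_ ?_ ?_ ?_
  · intro p hp
    rw [Finset.mem_product] at hp
    exact hfi _ _ ((hRep _).1 hp.1).1
  · rintro ⟨x, c⟩ hp ⟨y, d⟩ hq h
    rw [Finset.mem_product] at hp hq
    simp only [Finset.mem_range] at hp hq h
    obtain ⟨hx, hxw⟩ := (hRep x).1 hp.1
    obtain ⟨hy, hyw⟩ := (hRep y).1 hq.1
    have hcd : ∀ (x y : α) (c d : ℕ), x ∈ X → y ∈ X → (∀ c, wt x ≤ wt (f^[c] x)) →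
        c < k → d < k → f^[c] x = f^[d] y → wt x ≤ wt y := by
      intro x y c d hx hy hxw hc hd h
      have h2 : f^[(k - d) + c] x = y := by
        rw [Function.iterate_add_apply, h, ← Function.iterate_add_apply,
          show k - d + d = k by omega, hP y hy]
      have := hxw ((k - d) + c)
      rwa [h2] at this
    have e1 := hcd x y c d hx hy hxw hp.2 hq.2 h
    have e2 := hcd y x d c hy hx hyw hq.2 hp.2 h.symm
    have e3 : x = y := hwt x hx y hy (le_antisymm e1 e2)
    subst e3
    have e4 : c = d := by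
      have h5 := Function.iterate_injOn_Iio_minimalPeriod (f := f) (x := x)
      rw [hper x hx] at h5
      exact h5 hp.2 hq.2 h
    rw [e4]
  · intro x hx
    -- the minimum of the weight on the orbit
    obtain ⟨c, hc, hmin⟩ := Finset.exists_min_image (Finset.range k) (fun c => wt (f^[c] x))
      ⟨0, Finset.mem_range.2 hk⟩
    rw [Finset.mem_range] at hc
    have hmin' : ∀ d, wt (f^[c] x) ≤ wt (f^[d] x) := by
      intro d
      have h3 : f^[d % k] x = f^[d] x := by
        have h4 := Function.iterate_mod_minimalPeriod_eq (f := f) (x := x) (n := d)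
        rwa [hper x hx] at h4
      have := hmin (d % k) (Finset.mem_range.2 (Nat.mod_lt _ hk))
      rwa [h3] at this
    refine ⟨(f^[c] x, (k - c) % k), ?_, ?_⟩
    · rw [Finset.mem_product]
      refine ⟨(hRep _).2 ⟨hfi c x hx, fun d => ?_⟩, Finset.mem_range.2 (Nat.mod_lt _ hk)⟩
      rw [← Function.iterate_add_apply]
      exact hmin' _
    · simp only
      have h3 : f^[(k - c) % k] (f^[c] x) = f^[k - c] (f^[c] x) := by
        have h4 := Function.iterate_mod_minimalPeriod_eq (f := f) (x := f^[c] x) (n := k - c)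
        rwa [hper _ (hfi c x hx)] at h4
      rw [h3, ← Function.iterate_add_apply, show k - c + c = k by omega, hP x hx]
  · intro p _
    rfl

/-! ### the representatives -/

/-- weight of a finite set -/
def wtN (S : Finset ℕ) : ℕ := ∑ i ∈ S, 2 ^ i

theorem wtN_inj {S T : Finset ℕ} (h : wtN S = wtN T) : S = T := by
  have h1 := congrArg Nat.bitIndices h
  have h2 : ∀ S : Finset ℕ, (Nat.bitIndices (wtN S)).toFinset = S := fun S => by
    exact Finset.toFinset_bitIndices_sum_two_pow S
  rw [← h2 S, h, h2 T]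

open Classical in
/-- aperiodic subsets of `ℤ/k` -/
noncomputable def apN (k : ℕ) : Finset (Finset ℕ) :=
  (Finset.range k).powerset.filter (fun S => Function.minimalPeriod (rotN k) S = k)

open Classical in
/-- representatives -/
noncomputable def repN (k : ℕ) : Finset (Finset ℕ) :=
  (apN k).filter (fun S => ∀ c, wtN S ≤ wtN ((rotN k)^[c] S))

theorem mem_apN {k : ℕ} {S : Finset ℕ} :
    S ∈ apN k ↔ S ⊆ Finset.range k ∧ Function.minimalPeriod (rotN k) S = k := by
  rw [apN, Finset.mem_filter, Finset.mem_powerset]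

open Classical in
theorem mem_repN {k : ℕ} {S : Finset ℕ} :
    S ∈ repN k ↔ S ∈ apN k ∧ ∀ c, wtN S ≤ wtN ((rotN k)^[c] S) := by
  rw [repN, Finset.mem_filter]

theorem singleton_iter {k c : ℕ} (hc : c < k) (n : ℕ) : (rotN k)^[n] {c} = {(c + n) % k} := by
  rw [neck_iter (by simpa using hc)]
  simp

theorem period_singleton {k c : ℕ} (hc : c < k) :
    Function.minimalPeriod (rotN k) {c} = k := by
  have hk : 0 < k := by omega
  have hP : Function.IsPeriodicPt (rotN k) k {c} := neck_periodic (by simpa using hc)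
  have hdvd := hP.minimalPeriod_dvd
  have hpos := hP.minimalPeriod_pos hk
  have h1 := Function.isPeriodicPt_minimalPeriod (rotN k) {c}
  set m := Function.minimalPeriod (rotN k) {c} with hm
  have h2 : (rotN k)^[m] {c} = {c} := h1
  rw [singleton_iter hc, Finset.singleton_inj] at h2
  have h3 : c + m ≡ c + 0 [MOD k] := by
    show (c + m) % k = (c + 0) % k
    rw [h2, add_zero, Nat.mod_eq_of_lt hc]
  have h4 : m ≡ 0 [MOD k] := Nat.ModEq.add_left_cancel' c h3
  exact Nat.dvd_antisymm hdvd ((Nat.modEq_zero_iff_dvd).1 h4)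

theorem nonempty_necks : Nonempty Necks := by
  classical
  refine ⟨⟨repN, ?_, ?_, ?_, ?_⟩⟩
  · intro k S hS
    exact (mem_apN.1 (mem_repN.1 hS).1).1
  · intro k hk
    refine ⟨0, hk, ?_⟩
    ext S
    rw [Finset.mem_filter, Finset.mem_singleton, mem_repN, mem_apN]
    constructor
    · rintro ⟨⟨⟨hS, -⟩, hw⟩, h1⟩
      obtain ⟨c, rfl⟩ := Finset.card_eq_one.1 h1
      have hc : c < k := by simpa using hS
      have h2 := hw (k - c)
      rw [singleton_iter hc, show c + (k - c) = k by omega, Nat.mod_self] at h2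
      unfold wtN at h2
      rw [Finset.sum_singleton, Finset.sum_singleton, pow_zero] at h2
      have h3 : c = 0 := by
        by_contra hne
        have h4 : 2 ^ 1 ≤ 2 ^ c := Nat.pow_le_pow_right (by norm_num) (by omega)
        omega
      rw [h3]
    · rintro rfl
      refine ⟨⟨⟨by simpa using (show 0 < k from hk), period_singleton hk⟩, fun c => ?_⟩, by simp⟩
      rw [singleton_iter hk]
      unfold wtN
      rw [Finset.sum_singleton, Finset.sum_singleton, pow_zero]
      exact Nat.one_le_two_pow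
  · intro k hk
    have h1 := (mem_apN.1 (mem_repN.1 hk).1).2
    have h2 : Function.minimalPeriod (rotN k) ∅ = 1 := by
      rw [Function.minimalPeriod_eq_one_iff_isFixedPt]
      show rotN k ∅ = ∅
      rw [rotN, Finset.image_empty]
    rw [← h1, h2]
  · intro A _ M hM F hF
    -- split by the period
    have hmaps : ∀ S ∈ (Finset.range M).powerset,
        Function.minimalPeriod (rotN M) S ∈ M.divisors := by
      intro S hS
      rw [Finset.mem_powerset] at hS
      rw [Nat.mem_divisors]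
      exact ⟨(neck_periodic hS).minimalPeriod_dvd, by omega⟩
    rw [← Finset.sum_fiberwise_of_maps_to hmaps]
    refine Finset.sum_congr rfl fun k hk => ?_
    rw [Nat.mem_divisors] at hk
    have hk1 : 1 ≤ k := Nat.pos_of_dvd_of_pos hk.1 hM
    have h1 : ∑ S ∈ (Finset.range M).powerset.filter
        (fun S => Function.minimalPeriod (rotN M) S = k), F S =
        ∑ S ∈ apN k, F (pullN k M S) := by
      symm
      refine Finset.sum_bij (fun S _ => pullN k M S) ?_ ?_ ?_ ?_
      · intro S hS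
        obtain ⟨hS1, hS2⟩ := mem_apN.1 hS
        rw [Finset.mem_filter, Finset.mem_powerset]
        exact ⟨pullN_sub, by rw [period_pullN hk1 hM hk.1 hS1, hS2]⟩
      · intro S hS T hT h
        exact pullN_inj hM hk.1 (mem_apN.1 hS).1 (mem_apN.1 hT).1 h
      · intro T hT
        rw [Finset.mem_filter, Finset.mem_powerset] at hT
        have hper : (rotN M)^[k] T = T := by
          have h2 := Function.isPeriodicPt_minimalPeriod (rotN M) T
          rw [hT.2] at h2
          exact h2
        have h3 := pullN_surj hk1 hM hk.1 hT.1 hper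
        have h4 : T.filter (fun i => i < k) ⊆ Finset.range k := by
          intro i hi
          exact Finset.mem_range.2 (Finset.mem_filter.1 hi).2
        refine ⟨T.filter (fun i => i < k), mem_apN.2 ⟨h4, ?_⟩, h3⟩
        rw [← period_pullN hk1 hM hk.1 h4, h3, hT.2]
      · intro S _
        rfl
    rw [h1]
    refine orbit_sum (f := rotN k) ?_ hk1 ?_ wtN ?_ (repN k) (fun S => mem_repN) ?_
    · intro S hS
      obtain ⟨hS1, hS2⟩ := mem_apN.1 hS
      refine mem_apN.2 ⟨rotN_sub hk1, ?_⟩
      rw [Function.minimalPeriod_apply ⟨k, hk1, neck_periodic hS1⟩, hS2]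
    · intro S hS
      exact (mem_apN.1 hS).2
    · intro S _ T _ h
      exact wtN_inj h
    · intro S hS
      rw [← rotN_pullN hM hk.1 (mem_apN.1 hS).1]
      exact hF _ pullN_sub

/-! ### sums -/

theorem sum_pullN {A : Type} [AddCommMonoid A] {k M : ℕ} (hk : 1 ≤ k) (h : k ∣ M) {S : Finset ℕ}
    (hS : S ⊆ Finset.range k) (f : ℕ → A) :
    ∑ i ∈ pullN k M S, f i = ∑ i ∈ S, ∑ j ∈ Finset.range (M / k), f (i + k * j) := by
  rw [← Finset.sum_product' (f := fun i j => f (i + k * j))]
  symm
  have hMk : k * (M / k) = M := Nat.mul_div_cancel' h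
  refine Finset.sum_bij (fun p _ => p.1 + k * p.2) ?_ ?_ ?_ ?_
  · rintro ⟨i, j⟩ hp
    rw [Finset.mem_product] at hp
    have hi := Finset.mem_range.1 (hS hp.1)
    have hj := Finset.mem_range.1 hp.2
    simp only at hi hj ⊢
    rw [mem_pullN, Nat.add_mul_mod_self_left, Nat.mod_eq_of_lt hi]
    refine ⟨?_, hp.1⟩
    calc i + k * j < k + k * j := by omega
      _ = k * (j + 1) := by ring
      _ ≤ k * (M / k) := Nat.mul_le_mul_left _ hj
      _ = M := hMk
  · rintro ⟨i, j⟩ hp ⟨i', j'⟩ hp' he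
    rw [Finset.mem_product] at hp hp'
    have hi := Finset.mem_range.1 (hS hp.1)
    have hi' := Finset.mem_range.1 (hS hp'.1)
    simp only at hi hi' he
    have e1 : i = i' := by
      have : (i + k * j) % k = (i' + k * j') % k := by rw [he]
      rwa [Nat.add_mul_mod_self_left, Nat.add_mul_mod_self_left, Nat.mod_eq_of_lt hi,
        Nat.mod_eq_of_lt hi'] at this
    subst e1
    have e2 : k * j = k * j' := by omega
    rw [Nat.eq_of_mul_eq_mul_left hk e2]
  · intro i hi
    rw [mem_pullN] at hi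
    refine ⟨(i % k, i / k), ?_, Nat.mod_add_div i k⟩
    rw [Finset.mem_product]
    exact ⟨hi.2, Finset.mem_range.2 (Nat.div_lt_div_of_lt_of_dvd h hi.1)⟩
  · intro p _
    rfl

/-- The weight of the preimage. -/
theorem sum_pow_pullN {q k M : ℕ} (hq : 2 ≤ q) (hk : 1 ≤ k) (h : k ∣ M) {S : Finset ℕ}
    (hS : S ⊆ Finset.range k) :
    ∑ i ∈ pullN k M S, q ^ i = (∑ i ∈ S, q ^ i) * ((q ^ M - 1) / (q ^ k - 1)) := by
  have hMk : k * (M / k) = M := Nat.mul_div_cancel' h
  have h2 : 2 ≤ q ^ k := by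
    calc 2 ≤ q := hq
      _ = q ^ 1 := (pow_one q).symm
      _ ≤ q ^ k := Nat.pow_le_pow_right (by omega) hk
  have h1 := Nat.geomSum_eq h2 (M / k)
  rw [← pow_mul, hMk] at h1
  rw [sum_pullN hk h hS, Finset.sum_mul]
  refine Finset.sum_congr rfl fun i _ => ?_
  rw [← h1, Finset.mul_sum]
  refine Finset.sum_congr rfl fun j _ => ?_
  rw [pow_add, pow_mul]

theorem card_pullN {k M : ℕ} (hk : 1 ≤ k) (h : k ∣ M) {S : Finset ℕ}
    (hS : S ⊆ Finset.range k) : (pullN k M S).card = S.card * (M / k) := by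
  rw [Finset.card_eq_sum_ones, sum_pullN hk h hS]
  simp

theorem sum_rotN {A : Type} [AddCommMonoid A] {M : ℕ} {S : Finset ℕ} (hS : S ⊆ Finset.range M)
    (f : ℕ → A) : ∑ i ∈ rotN M S, f i = ∑ i ∈ S, f ((i + 1) % M) := by
  rw [rotN, Finset.sum_image]
  intro i hi j hj h
  exact neck_injOn 1 (by simpa using Finset.mem_range.1 (hS hi))
    (by simpa using Finset.mem_range.1 (hS hj)) h

/-- The weight of the rotation. -/
theorem sum_pow_rotN {q M : ℕ} (hq : 1 ≤ q) {S : Finset ℕ} (hM : 1 ≤ M)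
    (hS : S ⊆ Finset.range M) :
    (∑ i ∈ rotN M S, q ^ i) ≡ q * (∑ i ∈ S, q ^ i) [MOD (q ^ M - 1)] := by
  rw [sum_rotN hS, Finset.mul_sum, ← ZMod.natCast_eq_natCast_iff, Nat.cast_sum, Nat.cast_sum]
  refine Finset.sum_congr rfl fun i hi => ?_
  have hiM := Finset.mem_range.1 (hS hi)
  rw [ZMod.natCast_eq_natCast_iff, ← pow_succ']
  rcases Nat.lt_or_ge (i + 1) M with h | h
  · rw [Nat.mod_eq_of_lt h]
  · have e : i + 1 = M := by omega
    rw [e, Nat.mod_self, pow_zero]
    have h1 : 1 ≤ q ^ M := Nat.one_le_pow _ _ hq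
    have h3 : 1 + (q ^ M - 1) ≡ 1 + 0 [MOD (q ^ M - 1)] :=
      Nat.ModEq.add_left 1 ((Nat.modEq_zero_iff_dvd).2 dvd_rfl)
    have h2 : 1 + (q ^ M - 1) = q ^ M := by omega
    rw [h2, add_zero] at h3
    exact h3.symm

theorem card_rotN {M : ℕ} {S : Finset ℕ} (hM : 1 ≤ M) (hS : S ⊆ Finset.range M) :
    (rotN M S).card = S.card := by
  rw [Finset.card_eq_sum_ones, sum_rotN hS, Finset.card_eq_sum_ones]

end Pool.Agent.Lib.MP_02a407_al
end

section

/-!
# The group-like functions attached to a character of the multiplicative group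
-/

namespace Pool.Agent.Lib.MP_02a407_al

open Module Polynomial

set_option linter.unusedSectionVars false

variable {K : Type} [Field K] [Finite K] {𝕜 : Type} [Field 𝕜] [CharZero 𝕜]

/-- The degree of a single cycle. -/
noncomputable def CycleIndex.len (s : CycleIndex K) : ℕ := s.r * s.f.natDegree

lemma CycleIndex.len_pos (s : CycleIndex K) : 0 < s.len :=
  Nat.mul_pos s.pos s.irred.natDegree_pos

lemma cl_cyc' (s : CycleIndex K) : cl (cyc s) = s.len := cl_cyc s

/-- The roots of the polynomial of a cycle. -/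
noncomputable def CycleIndex.rts (s : CycleIndex K) : Multiset (AlgebraicClosure K) :=
  (s.f.map (algebraMap K (AlgebraicClosure K))).roots

/-- `∑_α η(α) ^ ((q ^ M - 1) / (q ^ k - 1))` over the roots `α`, `M` the degree of the cycle. -/
noncomputable def tsum (k : ℕ) (η : AlgebraicClosure K →* 𝕜) (s : CycleIndex K) : 𝕜 :=
  (s.rts.map (fun α => η α ^ ((Nat.card K ^ s.len - 1) / (Nat.card K ^ k - 1)))).sum

variable {A : Type} [CommRing A] [Algebra ℚ A] [Algebra 𝕜 A]

/-- The primitive function `Q_k(w; η)`. -/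
noncomputable def QW (k : ℕ) (w : ℕ → A) (η : AlgebraicClosure K →* 𝕜) : Hall K A :=
  primOf (fun s => if k ∣ s.len then w (s.len / k) * algebraMap 𝕜 A ((k : 𝕜) * tsum k η s)
    else 0)

/-- The group-like function `exp Q_k(w; η)`. -/
noncomputable def HW (k : ℕ) (w : ℕ → A) (η : AlgebraicClosure K →* 𝕜) : Hall K A :=
  hexp (QW k w η)

lemma isPrim_QW (k : ℕ) (w : ℕ → A) (η : AlgebraicClosure K →* 𝕜) : IsPrim (QW k w η) :=
  isPrim_primOf _

lemma isGrp_HW (k : ℕ) (w : ℕ → A) (η : AlgebraicClosure K →* 𝕜) : IsGrp (HW k w η) :=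
  isGrp_hexp (isPrim_QW k w η)

lemma dg_HW (k : ℕ) (w : ℕ → A) (η : AlgebraicClosure K →* 𝕜) :
    dg (HW k w η) = QW k w η * HW k w η := dg_hexp (isPrim_QW k w η).1

lemma QW_add (k : ℕ) (w w' : ℕ → A) (η : AlgebraicClosure K →* 𝕜) :
    QW k (fun i => w i + w' i) η = QW k w η + QW k w' η := by
  rw [QW, QW, QW, primOf_add]
  congr 1
  funext s
  split_ifs
  · rw [add_mul]
  · rw [add_zero]

lemma HW_add (k : ℕ) (w w' : ℕ → A) (η : AlgebraicClosure K →* 𝕜) :
    HW k (fun i => w i + w' i) η = HW k w η * HW k w' η := by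
  rw [HW, QW_add, hexp_add (isPrim_QW k w η).1 (isPrim_QW k w' η).1]
  rfl

lemma HW_zero_apply (k : ℕ) (w : ℕ → A) (η : AlgebraicClosure K →* 𝕜) : HW k w η 0 = 1 :=
  hexp_zero _

lemma QW_zero_fun (k : ℕ) (η : AlgebraicClosure K →* 𝕜) : QW k (fun _ => (0 : A)) η = 0 := by
  refine (isPrim_QW k _ η).ext IsPrim.zero (fun s => ?_)
  rw [QW, primOf_cyc]
  simp

lemma HW_zero_fun (k : ℕ) (η : AlgebraicClosure K →* 𝕜) : HW k (fun _ => (0 : A)) η = 1 := by
  rw [HW, QW_zero_fun]
  symm
  apply hexp_eq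
  · rfl
  · exact Hall.one_zero
  · ext C
    rw [dg_apply, zero_mul, Hall.zero_apply]
    by_cases h : C = 0
    · rw [h, cl_zero, Nat.cast_zero, zero_smul]
    · rw [Hall.one_of_ne h, smul_zero]

/-- Change of the coefficients. -/
theorem map_HW {B : Type} [CommRing B] [Algebra ℚ B] [Algebra 𝕜 B] (g : A →ₐ[𝕜] B)
    (k : ℕ) (w : ℕ → A) (η : AlgebraicClosure K →* 𝕜) :
    Hall.map (g : A →+* B) (HW k w η) = HW k (fun i => g (w i)) η := by
  rw [HW, map_hexp _ (isPrim_QW k w η).1, HW]
  congr 1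
  rw [QW, map_primOf, QW]
  congr 1
  funext s
  split_ifs
  · rw [map_mul]
    congr 1
    exact g.commutes _
  · rw [map_zero]

theorem map_QW {B : Type} [CommRing B] [Algebra ℚ B] [Algebra 𝕜 B] (g : A →ₐ[𝕜] B)
    (k : ℕ) (w : ℕ → A) (η : AlgebraicClosure K →* 𝕜) :
    Hall.map (g : A →+* B) (QW k w η) = QW k (fun i => g (w i)) η := by
  rw [QW, map_primOf, QW]
  congr 1
  funext s
  split_ifs
  · rw [map_mul]
    congr 1
    exact g.commutes _
  · rw [map_zero]

/-- `QW` is supported in the degrees which are multiples of `k`. -/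
theorem QW_of_not_dvd {k : ℕ} (w : ℕ → A) (η : AlgebraicClosure K →* 𝕜) {C : Cls K}
    (h : ¬ k ∣ cl C) : QW k w η C = 0 := by
  have h1 : dpart (cl C) (QW k w η) = 0 := by
    refine ((isPrim_QW k w η).dpart (cl C)).eq_zero fun s => ?_
    rw [dpart_apply]
    split_ifs with hs
    · rw [QW, primOf_cyc, if_neg]
      rw [← cl_cyc', hs]
      exact h
    · rfl
  have h2 := congrFun h1 C
  rw [dpart_of_eq rfl] at h2
  exact h2

/-- Homogeneity. -/
theorem QW_pow_mul {k : ℕ} (hk : 1 ≤ k) (c : A) (w : ℕ → A) (η : AlgebraicClosure K →* 𝕜)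
    (C : Cls K) : QW k (fun i => c ^ i * w i) η C = c ^ (cl C / k) * QW k w η C := by
  have h1 : dpart (cl C) (QW k (fun i => c ^ i * w i) η) =
      c ^ (cl C / k) • dpart (cl C) (QW k w η) := by
    rw [QW, QW, primOf_dpart, primOf_dpart, primOf_smul]
    congr 1
    funext s
    split_ifs with h1 h2
    · rw [← h1, cl_cyc', mul_assoc]
    · rw [mul_zero]
    · rw [mul_zero]
  have h2 := congrFun h1 C
  rw [dpart_of_eq rfl] at h2
  rw [h2, Hall.smul_apply, dpart_of_eq rfl, smul_eq_mul]

/-- `HW` is supported in the degrees which are multiples of `k`. -/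
theorem HW_of_not_dvd {k : ℕ} (w : ℕ → A) (η : AlgebraicClosure K →* 𝕜) {C : Cls K}
    (h : ¬ k ∣ cl C) : HW k w η C = 0 := by
  obtain ⟨n, hn⟩ : ∃ n, n = cl C := ⟨_, rfl⟩
  induction n using Nat.strong_induction_on generalizing C with
  | _ n ih =>
    have hC0 : C ≠ 0 := by
      rintro rfl
      rw [cl_zero] at h
      exact h (dvd_zero k)
    have hc : (cl C : ℚ) ≠ 0 := by
      exact_mod_cast fun h => hC0 ((cl_eq_zero_iff _).1 h)
    have h1 : (cl C : ℚ) • HW k w η C = 0 := by
      rw [← dg_apply, dg_HW, Hall.mul_apply, ssum]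
      refine Finset.sum_eq_zero fun W _ => ?_
      by_cases hW : cls W.sub = 0
      · rw [hW, (isPrim_QW k w η).1, zero_mul]
      · have h2 := Stab.xp_quo_lt hW
        have h3 := W.xp_cl_add
        by_cases hk : k ∣ cl (cls W.sub)
        · have h4 : ¬ k ∣ cl (cls W.quo) := by
            intro h5
            apply h
            rw [← h3]
            exact dvd_add hk h5
          rw [ih (cl (cls W.quo)) (by omega) h4 rfl, mul_zero]
        · rw [QW_of_not_dvd w η hk, zero_mul]
    have h2 := congrArg (fun x => (cl C : ℚ)⁻¹ • x) h1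
    simpa only [inv_smul_smul₀ hc, smul_zero] using h2

/-- Homogeneity. -/
theorem HW_pow_mul {k : ℕ} (hk : 1 ≤ k) (c : A) (w : ℕ → A) (η : AlgebraicClosure K →* 𝕜)
    (C : Cls K) : HW k (fun i => c ^ i * w i) η C = c ^ (cl C / k) * HW k w η C := by
  let F : Hall K A := fun C => c ^ (cl C / k) * HW k w η C
  have hF : ∀ C, F C = c ^ (cl C / k) * HW k w η C := fun C => rfl
  rw [← hF C]
  have h1 : F = HW k (fun i => c ^ i * w i) η := by
    refine hexp_eq (isPrim_QW k _ η).1 ?_ ?_
    · rw [hF, HW_zero_apply, cl_zero, Nat.zero_div, pow_zero, one_mul]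
    · ext C
      rw [dg_apply, hF, ← mul_smul_comm, ← dg_apply, dg_HW, Hall.mul_apply, Hall.mul_apply,
        ssum, ssum, Finset.mul_sum]
      refine Finset.sum_congr rfl fun W _ => ?_
      rw [QW_pow_mul hk, hF]
      by_cases hW : k ∣ cl (cls W.sub)
      · rw [← W.xp_cl_add, Nat.add_div_of_dvd_right hW, pow_add]
        ring
      · rw [QW_of_not_dvd w η hW, zero_mul, mul_zero, mul_zero, zero_mul]
  rw [h1]

/-- The multiset of roots is stable under the Frobenius map. -/
lemma CycleIndex.rts_map_pow (s : CycleIndex K) (c : ℕ) :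
    s.rts.map (fun α => α ^ (Nat.card K ^ c)) = s.rts := by
  have : Fintype K := Fintype.ofFinite K
  induction c with
  | zero => simp
  | succ c ih =>
    have h1 : (fun α : AlgebraicClosure K => α ^ (Nat.card K ^ (c + 1))) =
        (fun α => α ^ (Nat.card K ^ c)) ∘ (FiniteField.frobeniusAlgHom K (AlgebraicClosure K)) := by
      funext α
      rw [Function.comp_apply, FiniteField.coe_frobeniusAlgHom, ← pow_mul, pow_succ',
        Nat.card_eq_fintype_card]
    have h2 : s.rts.map (FiniteField.frobeniusAlgHom K (AlgebraicClosure K)) = s.rts := by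
      have h3 := Splits.roots_map (IsAlgClosed.splits (s.f.map (algebraMap K (AlgebraicClosure K))))
        ((FiniteField.frobeniusAlgHom K (AlgebraicClosure K) : _ →ₐ[K] _) :
          AlgebraicClosure K →+* AlgebraicClosure K)
      rw [Polynomial.map_map, AlgHom.comp_algebraMap] at h3
      exact h3.symm
    rw [h1, ← Multiset.map_map, h2, ih]

/-- The values in degree `k n` only depend on the weights up to `n`. -/
theorem QW_pow_card {k : ℕ} (hk : 1 ≤ k) (w : ℕ → A) (η : AlgebraicClosure K →* 𝕜) (c : ℕ) :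
    QW k w (η ^ (Nat.card K ^ c)) = QW k w η := by
  rw [QW, QW]
  congr 1
  funext s
  have h1 : tsum k (η ^ (Nat.card K ^ c)) s = tsum k η s := by
    rw [tsum, tsum]
    conv_rhs => rw [← s.rts_map_pow c]
    rw [Multiset.map_map]
    congr 1
    refine Multiset.map_congr rfl fun α _ => ?_
    rw [Function.comp_apply, map_pow, MonoidHom.pow_apply]
  rw [h1]

/-- The inverse character. -/
noncomputable def etaInv (η : AlgebraicClosure K →* 𝕜) : AlgebraicClosure K →* 𝕜 where
  toFun α := η α⁻¹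
  map_one' := by rw [inv_one, map_one]
  map_mul' α β := by rw [mul_inv, map_mul]

theorem inv_QW {k : ℕ} (hk : 1 ≤ k) (w : ℕ → A) (η : AlgebraicClosure K →* 𝕜) :
    Hall.inv (QW k w η) = QW k w (etaInv η) := by
  refine (isPrim_QW k w η).inv.ext (isPrim_QW k w _) fun s => ?_
  obtain ⟨f', hdeg, hcyc, hroot⟩ := exists_dual s.toP
  have hlen : (f'.toIdx s.r s.pos).len = s.len := by
    change s.r * f'.deg = s.r * s.toP.deg
    rw [hdeg]
  have hmem : ∀ (f : PIdx K) (α : AlgebraicClosure K),
      α ∈ (f.f.map (algebraMap K (AlgebraicClosure K))).roots ↔ aeval α f.f = 0 := by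
    intro f α
    rw [mem_roots (Polynomial.map_ne_zero f.irred.ne_zero), IsRoot, eval_map, aeval_def]
  have hnd : ∀ (f : PIdx K), (f.f.map (algebraMap K (AlgebraicClosure K))).roots.Nodup :=
    fun f => nodup_roots (Separable.map (PerfectField.separable_of_irreducible f.irred))
  have hz : ∀ f : PIdx K, aeval (0 : AlgebraicClosure K) f.f ≠ 0 := by
    intro f
    rw [aeval_def, eval₂_at_zero]
    exact fun h => f.coeff_zero_ne ((map_eq_zero _).1 h)
  have hrts : (f'.toIdx s.r s.pos).rts = s.rts.map (fun α => α⁻¹) := by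
    refine (Multiset.Nodup.ext (hnd f') ((hnd s.toP).map inv_injective)).2 fun α => ?_
    rw [hmem, Multiset.mem_map]
    constructor
    · intro h
      have h0 : α ≠ 0 := by
        rintro rfl
        exact hz f' h
      exact ⟨α⁻¹, (hmem s.toP _).2 ((hroot _ α h0).1 h), inv_inv α⟩
    · rintro ⟨β, hβ, rfl⟩
      have h1 := (hmem s.toP β).1 hβ
      have h0 : β ≠ 0 := by
        rintro rfl
        exact hz s.toP h1
      refine (hroot _ β⁻¹ (inv_ne_zero h0)).2 ?_
      rw [inv_inv]
      exact h1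
  rw [Hall.inv_apply, cyc_eq, hcyc, ← PIdx.cyc_toIdx f' s.r s.pos, QW, QW, primOf_cyc,
    ← cyc_eq, primOf_cyc, hlen]
  have h1 : tsum k η (f'.toIdx s.r s.pos) = tsum k (etaInv η) s := by
    rw [tsum, tsum, hrts, hlen, Multiset.map_map]
    rfl
  rw [h1]

theorem inv_HW {k : ℕ} (hk : 1 ≤ k) (w : ℕ → A) (η : AlgebraicClosure K →* 𝕜) :
    Hall.inv (HW k w η) = HW k w (etaInv η) := by
  rw [HW, inv_hexp (isPrim_QW k w η).1, inv_QW hk, HW]

end Pool.Agent.Lib.MP_02a407_al
end

section

/-!
# The Brauer lifts as a product over necklaces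
-/

namespace Pool.Agent.Lib.MP_02a407_al

open Module Polynomial

set_option linter.unusedSectionVars false

variable {K : Type} [Field K] [Finite K] {𝕜 : Type} [Field 𝕜] [CharZero 𝕜]

/-! ### Roots of the polynomial of a cycle -/

/-- The Frobenius of the algebraic closure. -/
noncomputable def nkFrob (K : Type) [Field K] [Finite K] :
    AlgebraicClosure K →ₐ[K] AlgebraicClosure K :=
  letI : Fintype K := Fintype.ofFinite K
  FiniteField.frobeniusAlgHom K (AlgebraicClosure K)

lemma nkFrob_apply (x : AlgebraicClosure K) : nkFrob K x = x ^ Nat.card K := by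
  let _ : Fintype K := Fintype.ofFinite K
  rw [Nat.card_eq_fintype_card]
  rfl

lemma nkFrob_iter (i : ℕ) (x : AlgebraicClosure K) :
    ((nkFrob K)^[i]) x = x ^ (Nat.card K ^ i) := by
  induction i with
  | zero => simp
  | succ i ih =>
    rw [Function.iterate_succ_apply', ih, nkFrob_apply, ← pow_mul, ← pow_succ]

lemma nk_pow_inj {i : ℕ} {x y : AlgebraicClosure K}
    (h : x ^ (Nat.card K ^ i) = y ^ (Nat.card K ^ i)) : x = y := by
  rw [← nkFrob_iter, ← nkFrob_iter] at h
  exact ((nkFrob K).toRingHom.injective.iterate i) h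

lemma nk_mem_rts (s : CycleIndex K) (α : AlgebraicClosure K) :
    α ∈ s.rts ↔ aeval α s.f = 0 := by
  rw [CycleIndex.rts, mem_roots (s.monic.map _).ne_zero, IsRoot.def, eval_map_algebraMap]

lemma nk_minpoly (s : CycleIndex K) {α : AlgebraicClosure K} (h : α ∈ s.rts) :
    minpoly K α = s.f :=
  (minpoly.eq_of_irreducible_of_monic s.irred ((nk_mem_rts s α).1 h) s.monic).symm

lemma nk_card_rts (s : CycleIndex K) : Multiset.card s.rts = s.f.natDegree := by
  rw [CycleIndex.rts, ← (IsAlgClosed.splits _).natDegree_eq_card_roots, natDegree_map]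

lemma nk_nodup_rts (s : CycleIndex K) : s.rts.Nodup := by
  have h1 : s.f.Separable := PerfectField.separable_of_irreducible s.irred
  exact nodup_roots h1.map

lemma nk_ne_zero (s : CycleIndex K) {α : AlgebraicClosure K} (h : α ∈ s.rts) : α ≠ 0 := by
  rintro rfl
  have h1 := nk_minpoly s h
  rw [minpoly.zero] at h1
  exact s.ne_X h1.symm

lemma nk_frob_mem (s : CycleIndex K) {α : AlgebraicClosure K} (h : α ∈ s.rts) (i : ℕ) :
    α ^ (Nat.card K ^ i) ∈ s.rts := by
  induction i with
  | zero => simpa using h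
  | succ i ih =>
    rw [pow_succ, pow_mul, ← nkFrob_apply, nk_mem_rts, aeval_algHom_apply,
      (nk_mem_rts s _).1 ih, map_zero]

/-- The size of the field generated by a root. -/
lemma nk_card_adjoin (s : CycleIndex K) {α : AlgebraicClosure K} (h : α ∈ s.rts) :
    Nat.card (IntermediateField.adjoin K {α}) = Nat.card K ^ s.f.natDegree := by
  have hint : IsIntegral K α := Algebra.IsIntegral.isIntegral α
  have hfd : FiniteDimensional K (IntermediateField.adjoin K {α}) :=
    IntermediateField.adjoin.finiteDimensional hint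
  rw [Module.natCard_eq_pow_finrank (K := K), IntermediateField.adjoin.finrank hint,
    nk_minpoly s h]

lemma nk_pow_card (s : CycleIndex K) {α : AlgebraicClosure K} (h : α ∈ s.rts) :
    α ^ (Nat.card K ^ s.f.natDegree) = α := by
  have hint : IsIntegral K α := Algebra.IsIntegral.isIntegral α
  have hfd : FiniteDimensional K (IntermediateField.adjoin K {α}) :=
    IntermediateField.adjoin.finiteDimensional hint
  have hfin : Finite (IntermediateField.adjoin K {α}) := Module.finite_of_finite K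
  have : Fintype (IntermediateField.adjoin K {α}) := Fintype.ofFinite _
  have h1 := FiniteField.pow_card (IntermediateField.AdjoinSimple.gen K α)
  rw [← Nat.card_eq_fintype_card, nk_card_adjoin s h] at h1
  have h2 := congrArg (fun x : IntermediateField.adjoin K {α} => (x : AlgebraicClosure K)) h1
  simpa using h2

lemma nk_pow_ne (s : CycleIndex K) {α : AlgebraicClosure K} (h : α ∈ s.rts) {d : ℕ}
    (hd : 0 < d) (hd2 : d < s.f.natDegree) : α ^ (Nat.card K ^ d) ≠ α := by
  intro h0
  have hq : 1 < Nat.card K := Finite.one_lt_card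
  have hint : IsIntegral K α := Algebra.IsIntegral.isIntegral α
  have hfd : FiniteDimensional K (IntermediateField.adjoin K {α}) :=
    IntermediateField.adjoin.finiteDimensional hint
  have hfin : Finite (IntermediateField.adjoin K {α}) := Module.finite_of_finite K
  -- all elements of the field are fixed
  have h1 : ∀ x ∈ IntermediateField.adjoin K {α}, x ^ (Nat.card K ^ d) = x := by
    intro x hx
    have h2 : IntermediateField.adjoin K {α} ≤
        (AlgHom.equalizer ((nkFrob K) ^ d) (AlgHom.id K _)).toIntermediateField (by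
          intro y hy
          rw [AlgHom.mem_equalizer] at hy ⊢
          rw [map_inv₀, map_inv₀, hy]) := by
      rw [IntermediateField.adjoin_le_iff, Set.singleton_subset_iff]
      change α ∈ AlgHom.equalizer ((nkFrob K) ^ d) (AlgHom.id K _)
      rw [AlgHom.mem_equalizer]
      change ((nkFrob K) ^ d) α = α
      rw [AlgHom.coe_pow, nkFrob_iter, h0]
    have h3 := h2 hx
    change x ∈ AlgHom.equalizer ((nkFrob K) ^ d) (AlgHom.id K _) at h3
    rw [AlgHom.mem_equalizer] at h3
    change ((nkFrob K) ^ d) x = x at h3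
    rwa [AlgHom.coe_pow, nkFrob_iter] at h3
  -- these are at most `q ^ d` elements
  have hqd : 1 < Nat.card K ^ d := Nat.one_lt_pow hd.ne' hq
  set P : (AlgebraicClosure K)[X] := X ^ (Nat.card K ^ d) - X with hP
  have hdeg : P.natDegree = Nat.card K ^ d := FiniteField.X_pow_card_sub_X_natDegree_eq _ hqd
  have hP0 : P ≠ 0 := FiniteField.X_pow_card_sub_X_ne_zero _ hqd
  classical
  have h4 : Nat.card (IntermediateField.adjoin K {α}) ≤ P.roots.toFinset.card := by
    have e1 : Nat.card (IntermediateField.adjoin K {α}) =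
        (IntermediateField.adjoin K {α} : Set (AlgebraicClosure K)).ncard :=
      Nat.card_coe_set_eq _
    rw [e1, ← Set.ncard_coe_finset]
    apply Set.ncard_le_ncard _ (Finset.finite_toSet _)
    intro x hx
    rw [Finset.mem_coe, Multiset.mem_toFinset, mem_roots hP0, IsRoot.def, hP, eval_sub, eval_pow,
      eval_X, sub_eq_zero]
    exact h1 x hx
  have h5 : P.roots.toFinset.card ≤ Nat.card K ^ d := by
    rw [← hdeg]
    exact (Multiset.toFinset_card_le _).trans (card_roots' P)
  rw [nk_card_adjoin s h] at h4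
  have h6 := Nat.pow_lt_pow_right hq hd2
  omega

/-- The roots are the Frobenius orbit of any root. -/
lemma nk_rts_eq (s : CycleIndex K) {α : AlgebraicClosure K} (h : α ∈ s.rts) :
    s.rts = (Multiset.range s.f.natDegree).map (fun i => α ^ (Nat.card K ^ i)) := by
  have hnd : ((Multiset.range s.f.natDegree).map (fun i => α ^ (Nat.card K ^ i))).Nodup := by
    apply Multiset.Nodup.map_on _ (Multiset.nodup_range _)
    have key : ∀ i j : ℕ, i < j → j < s.f.natDegree →
        α ^ (Nat.card K ^ i) ≠ α ^ (Nat.card K ^ j) := by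
      intro i j hij hj h0
      obtain ⟨d, rfl⟩ := Nat.exists_eq_add_of_lt hij
      have h1 : α ^ (Nat.card K ^ i) = (α ^ (Nat.card K ^ (d + 1))) ^ (Nat.card K ^ i) := by
        rw [h0, ← pow_mul, ← pow_add]
        congr 2
        omega
      exact nk_pow_ne s h (by omega) (by omega) (nk_pow_inj h1).symm
    intro i hi j hj hij
    rw [Multiset.mem_range] at hi hj
    rcases lt_trichotomy i j with h1 | h1 | h1
    · exact absurd hij (key i j h1 hj)
    · exact h1
    · exact absurd hij.symm (key j i h1 hi)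
  symm
  apply Multiset.eq_of_le_of_card_le
  · rw [Multiset.le_iff_subset hnd]
    intro x hx
    obtain ⟨i, -, rfl⟩ := Multiset.mem_map.1 hx
    exact nk_frob_mem s h i
  · rw [Multiset.card_map, Multiset.card_range, nk_card_rts]

/-- The roots are permuted by the Frobenius. -/
lemma nk_map_frob (s : CycleIndex K) : s.rts.map (fun α => α ^ Nat.card K) = s.rts := by
  apply Multiset.eq_of_le_of_card_le
  · rw [Multiset.le_iff_subset]
    · intro x hx
      obtain ⟨α, hα, rfl⟩ := Multiset.mem_map.1 hx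
      have h1 := nk_frob_mem s hα 1
      rwa [pow_one] at h1
    · apply Multiset.Nodup.map_on _ (nk_nodup_rts s)
      intro x _ y _ hxy
      apply nk_pow_inj (i := 1)
      rwa [pow_one]
  · rw [Multiset.card_map]

lemma nk_pow_len (s : CycleIndex K) {α : AlgebraicClosure K} (h : α ∈ s.rts) :
    α ^ (Nat.card K ^ s.len) = α := by
  rw [CycleIndex.len]
  generalize s.r = r
  induction r with
  | zero => simp
  | succ r ih => rw [add_mul, one_mul, pow_add, pow_mul, ih, nk_pow_card s h]

lemma nk_pow_len_sub (s : CycleIndex K) {α : AlgebraicClosure K} (h : α ∈ s.rts) :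
    α ^ (Nat.card K ^ s.len - 1) = 1 := by
  have h0 : α ≠ 0 := nk_ne_zero s h
  apply mul_right_cancel₀ h0
  rw [one_mul, ← pow_succ]
  have h1 : 1 ≤ Nat.card K ^ s.len := Nat.one_le_pow _ _ (Nat.card_pos)
  rw [Nat.sub_add_cancel h1, nk_pow_len s h]

lemma nk_eta_mod (η : AlgebraicClosure K →* 𝕜) (s : CycleIndex K) {α : AlgebraicClosure K}
    (h : α ∈ s.rts) {a b : ℕ} (hab : a ≡ b [MOD (Nat.card K ^ s.len - 1)]) :
    η α ^ a = η α ^ b := by
  have h1 : η α ^ (Nat.card K ^ s.len - 1) = 1 := by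
    rw [← map_pow, nk_pow_len_sub s h, map_one]
  rw [← Nat.div_add_mod a (Nat.card K ^ s.len - 1), ← Nat.div_add_mod b (Nat.card K ^ s.len - 1),
    pow_add, pow_add, pow_mul, pow_mul, h1, one_pow, one_pow, one_mul, one_mul, hab]

/-- The product over a period. -/
lemma nk_prod_period {B : Type} [CommMonoid B] (g : ℕ → B) (e : ℕ) (hg : ∀ i, g (i + e) = g i)
    (r : ℕ) : ∏ i ∈ Finset.range (r * e), g i = (∏ i ∈ Finset.range e, g i) ^ r := by
  have hg2 : ∀ r i, g (r * e + i) = g i := by
    intro r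
    induction r with
    | zero => intro i; rw [zero_mul, zero_add]
    | succ r ih =>
      intro i
      rw [show (r + 1) * e + i = (r * e + i) + e by ring, hg, ih]
  induction r with
  | zero => simp
  | succ r ih =>
    rw [add_mul, one_mul, Finset.prod_range_add, ih, pow_succ]
    congr 1
    exact Finset.prod_congr rfl fun i _ => hg2 r i

lemma nk_prod_eq (η : AlgebraicClosure K →* 𝕜) (s : CycleIndex K) {α : AlgebraicClosure K}
    (h : α ∈ s.rts) : ∏ i ∈ Finset.range s.len, (1 + C (η α ^ (Nat.card K ^ i)) * (X : 𝕜[X])) =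
      (epol η s.rts) ^ s.r := by
  rw [CycleIndex.len, nk_prod_period]
  · congr 1
    rw [epol, nk_rts_eq s h, Multiset.map_map, Finset.prod_eq_multiset_prod]
    congr 1
    apply Multiset.map_congr rfl
    intro i _
    rw [Function.comp_apply, map_pow η]
  · intro i
    rw [pow_add, pow_mul', ← map_pow, nk_pow_card s h]

lemma nk_sum_eq (η : AlgebraicClosure K →* 𝕜) (s : CycleIndex K) :
    (s.rts.map (fun α => ∏ i ∈ Finset.range s.len,
        (1 + C (η α ^ (Nat.card K ^ i)) * (X : 𝕜[X])))).sum =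
      s.f.natDegree • (epol η s.rts) ^ s.r := by
  rw [Multiset.map_congr rfl (fun α hα => nk_prod_eq η s hα), Multiset.map_const',
    Multiset.sum_replicate, nk_card_rts]

/-- The logarithmic derivative of `EH η`. -/
theorem EH_eq_hexp (η : AlgebraicClosure K →* 𝕜) :
    EH (K := K) η = hexp (primOf (fun s =>
      (s.rts.map (fun α => ∏ i ∈ Finset.range s.len,
        (1 + C (η α ^ (Nat.card K ^ i)) * (X : 𝕜[X])))).sum)) := by
  have hF := isGrp_EH (K := K) η
  obtain ⟨G, _, hG⟩ := exists_inv (EH (K := K) η) hF.1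
  have hP : IsPrim (dg (EH (K := K) η) * G) := isPrim_log hF hG
  have hdg : dg (EH (K := K) η) = (dg (EH (K := K) η) * G) * EH (K := K) η := by
    rw [mul_assoc, mul_comm G, hG, mul_one]
  rw [hexp_eq hP.1 hF.1 hdg, hP.eq_primOf]
  congr 2
  funext s
  rw [nk_sum_eq, cyc_eq]
  obtain ⟨r, hr⟩ : ∃ t, s.r = t + 1 := ⟨s.r - 1, by have := s.pos; omega⟩
  set E : 𝕜[X] := epol η s.rts with hE
  have hval : ∀ t : ℕ, EH (K := K) η (s.toP.cyc t) = E ^ t := fun t => EH_cyc η s.toP t
  have h1 : evp s.toP (EH (K := K) η) = PowerSeries.mk (fun t => E ^ t) := by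
    ext1 t
    rw [coeff_evp, hval, PowerSeries.coeff_mk]
  have h2 : evp s.toP (dg (EH (K := K) η) * G) * evp s.toP (EH (K := K) η) =
      evp s.toP (dg (EH (K := K) η)) := by
    rw [← map_mul, ← hdg]
  have h3 : PowerSeries.mk (fun t => E ^ t) * (1 - PowerSeries.C E * PowerSeries.X) = 1 := by
    ext1 t
    rw [mul_sub, mul_one, map_sub, ← mul_assoc, mul_comm _ (PowerSeries.C E), PowerSeries.coeff_one]
    rcases t with _ | t
    · simp
    · rw [PowerSeries.coeff_succ_mul_X, PowerSeries.coeff_C_mul, PowerSeries.coeff_mk,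
        PowerSeries.coeff_mk, if_neg (Nat.succ_ne_zero t), pow_succ, mul_comm, sub_self]
  have h4 : evp s.toP (dg (EH (K := K) η) * G) = evp s.toP (dg (EH (K := K) η)) *
      (1 - PowerSeries.C E * PowerSeries.X) := by
    rw [← h2, h1, mul_assoc, h3, mul_one]
  have h5 : ∀ t : ℕ, PowerSeries.coeff t (evp s.toP (dg (EH (K := K) η))) =
      ((t * s.f.natDegree : ℕ) : 𝕜[X]) * E ^ t := by
    intro t
    rw [coeff_evp, dg_apply, hval, PIdx.cl_cyc, Algebra.smul_def, map_natCast]
    rfl
  rw [hr]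
  have h6 := coeff_evp s.toP (dg (EH (K := K) η) * G) (r + 1)
  rw [← h6, h4, mul_sub, mul_one, map_sub, ← mul_assoc, PowerSeries.coeff_succ_mul_X,
    mul_comm _ (PowerSeries.C E), PowerSeries.coeff_C_mul, h5, h5, nsmul_eq_mul]
  push_cast
  ring

/-- The expansion of the values at the cycles of degree `M` in terms of necklaces. -/
theorem rts_prod_eq (N : Necks) (η : AlgebraicClosure K →* 𝕜) (s : CycleIndex K) :
    (s.rts.map (fun α => ∏ i ∈ Finset.range s.len,
        (1 + C (η α ^ (Nat.card K ^ i)) * (X : 𝕜[X])))).sum =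
      ∑ k ∈ s.len.divisors, ∑ S ∈ N.R k, X ^ (S.card * (s.len / k)) *
        C ((k : 𝕜) * tsum k (η ^ (∑ i ∈ S, Nat.card K ^ i)) s) := by
  have hM := s.len_pos
  let F : Finset ℕ → 𝕜[X] := fun S =>
    (s.rts.map (fun α => X ^ S.card * C (η α ^ (∑ i ∈ S, Nat.card K ^ i)))).sum
  have h1 : (s.rts.map (fun α => ∏ i ∈ Finset.range s.len,
        (1 + C (η α ^ (Nat.card K ^ i)) * (X : 𝕜[X])))).sum =
      ∑ S ∈ (Finset.range s.len).powerset, F S := by
    have h2 : ∀ α : AlgebraicClosure K, ∏ i ∈ Finset.range s.len,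
        (1 + C (η α ^ (Nat.card K ^ i)) * (X : 𝕜[X])) =
        ∑ S ∈ (Finset.range s.len).powerset,
          X ^ S.card * C (η α ^ (∑ i ∈ S, Nat.card K ^ i)) := by
      intro α
      rw [Finset.prod_one_add]
      refine Finset.sum_congr rfl fun S _ => ?_
      rw [Finset.prod_mul_distrib, Finset.prod_const, mul_comm, ← map_prod,
        Finset.prod_pow_eq_pow_sum]
    rw [Multiset.map_congr rfl (fun α _ => h2 α)]
    rw [Finset.sum_eq_multiset_sum]
    have h3 := Multiset.sum_map_sum_map s.rts (Finset.range s.len).powerset.val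
      (f := fun α S => (X ^ S.card * C (η α ^ (∑ i ∈ S, Nat.card K ^ i)) : 𝕜[X]))
    exact h3
  rw [h1, N.sum_eq 𝕜[X] s.len hM F]
  · refine Finset.sum_congr rfl fun k hk => ?_
    have hkd : k ∣ s.len := Nat.dvd_of_mem_divisors hk
    have hk1 : 1 ≤ k := Nat.pos_of_dvd_of_pos hkd hM
    rw [Finset.smul_sum]
    refine Finset.sum_congr rfl fun S hS => ?_
    have hSk := N.sub k S hS
    change k • (s.rts.map (fun α => X ^ (pullN k s.len S).card *
      C (η α ^ (∑ i ∈ pullN k s.len S, Nat.card K ^ i)))).sum = _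
    rw [card_pullN hk1 hkd hSk, sum_pow_pullN Finite.one_lt_card hk1 hkd hSk,
      Multiset.sum_map_mul_left, map_mul, tsum, map_natCast, nsmul_eq_mul,
      map_multiset_sum, Multiset.map_map]
    have h4 : (s.rts.map (fun α => C (η α ^ ((∑ i ∈ S, Nat.card K ^ i) *
        ((Nat.card K ^ s.len - 1) / (Nat.card K ^ k - 1)))))) =
        s.rts.map (C ∘ fun α => (η ^ (∑ i ∈ S, Nat.card K ^ i)) α ^
          ((Nat.card K ^ s.len - 1) / (Nat.card K ^ k - 1))) := by
      apply Multiset.map_congr rfl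
      intro α _
      rw [Function.comp_apply, MonoidHom.pow_apply, ← pow_mul]
    rw [h4]
    ring
  · intro S hS
    change (s.rts.map (fun α => X ^ (rotN s.len S).card *
      C (η α ^ (∑ i ∈ rotN s.len S, Nat.card K ^ i)))).sum =
      (s.rts.map (fun α => X ^ S.card * C (η α ^ (∑ i ∈ S, Nat.card K ^ i)))).sum
    rw [card_rotN hM hS]
    have h2 : s.rts.map (fun α => X ^ S.card *
        C (η α ^ (∑ i ∈ rotN s.len S, Nat.card K ^ i))) =
        (s.rts.map (fun α => α ^ Nat.card K)).map (fun α => X ^ S.card *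
          C (η α ^ (∑ i ∈ S, Nat.card K ^ i))) := by
      rw [Multiset.map_map]
      apply Multiset.map_congr rfl
      intro α hα
      rw [Function.comp_apply, nk_eta_mod η s hα (sum_pow_rotN Nat.card_pos hM hS), map_pow η, ← pow_mul]
    rw [h2, nk_map_frob]

lemma nk_hexp_zero : hexp (0 : Hall K 𝕜[X]) = 1 := by
  symm
  apply hexp_eq
  · rfl
  · exact Hall.one_zero
  · ext C
    rw [dg_apply, zero_mul, Hall.zero_apply]
    by_cases h : C = 0
    · rw [h, cl_zero, Nat.cast_zero, zero_smul]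
    · rw [Hall.one_of_ne h, smul_zero]

lemma nk_prod_hexp {ι : Type*} (t : Finset ι) (P : ι → Hall K 𝕜[X]) (h : ∀ i ∈ t, P i 0 = 0) :
    ∏ i ∈ t, hexp (P i) = hexp (∑ i ∈ t, P i) := by
  classical
  induction t using Finset.induction_on with
  | empty => rw [Finset.prod_empty, Finset.sum_empty, nk_hexp_zero]
  | insert i t hi ih =>
    rw [Finset.prod_insert hi, Finset.sum_insert hi, hexp_add (h i (Finset.mem_insert_self i t)),
      ih fun j hj => h j (Finset.mem_insert_of_mem hj)]
    rw [Hall.sum_apply]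
    exact Finset.sum_eq_zero fun j hj => h j (Finset.mem_insert_of_mem hj)

/-- `EH η` is, up to degree `m`, a product over the necklaces. -/
theorem EH_eq_prod (N : Necks) (η : AlgebraicClosure K →* 𝕜) (m : ℕ) (C : Cls K) (hC : cl C ≤ m) :
    EH η C = (∏ k ∈ Finset.Icc 1 m, ∏ S ∈ N.R k,
      HW k (fun i => (X : 𝕜[X]) ^ (S.card * i)) (η ^ (∑ i ∈ S, Nat.card K ^ i)) :
        Hall K 𝕜[X]) C := by
  let W : ℕ → Finset ℕ → Hall K 𝕜[X] := fun k S =>
    QW k (fun i => (X : 𝕜[X]) ^ (S.card * i)) (η ^ (∑ i ∈ S, Nat.card K ^ i))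
  have hW : ∀ k S, IsPrim (W k S) := fun k S => isPrim_QW _ _ _
  have h1 : (∏ k ∈ Finset.Icc 1 m, ∏ S ∈ N.R k,
      HW k (fun i => (X : 𝕜[X]) ^ (S.card * i)) (η ^ (∑ i ∈ S, Nat.card K ^ i)) :
        Hall K 𝕜[X]) = hexp (∑ k ∈ Finset.Icc 1 m, ∑ S ∈ N.R k, W k S) := by
    rw [← nk_prod_hexp]
    · refine Finset.prod_congr rfl fun k _ => ?_
      rw [← nk_prod_hexp]
      · rfl
      · exact fun S _ => (hW k S).1
    · intro k _
      exact (IsPrim.sum fun S _ => hW k S).1
  rw [h1, EH_eq_hexp]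
  have hP := isPrim_primOf (K := K) (fun s =>
      (s.rts.map (fun α => ∏ i ∈ Finset.range s.len,
        (1 + Polynomial.C (η α ^ (Nat.card K ^ i)) * (X : 𝕜[X])))).sum)
  have hQ : IsPrim (∑ k ∈ Finset.Icc 1 m, ∑ S ∈ N.R k, W k S) :=
    IsPrim.sum fun k _ => IsPrim.sum fun S _ => hW k S
  refine dg_unique_le hP.1 (m := m) (Q := ∑ k ∈ Finset.Icc 1 m, ∑ S ∈ N.R k, W k S) ?_
    (dg_hexp hP.1) (dg_hexp hQ.1) (by rw [hexp_zero, hexp_zero]) C hC
  intro D hD
  have h2 : dpart (cl D) (primOf (K := K) (fun s =>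
      (s.rts.map (fun α => ∏ i ∈ Finset.range s.len,
        (1 + Polynomial.C (η α ^ (Nat.card K ^ i)) * (X : 𝕜[X])))).sum)) =
      dpart (cl D) (∑ k ∈ Finset.Icc 1 m, ∑ S ∈ N.R k, W k S) := by
    refine (hP.dpart _).ext (hQ.dpart _) fun s => ?_
    rw [dpart_apply, dpart_apply]
    split_ifs with hs
    · rw [primOf_cyc, rts_prod_eq N, Hall.sum_apply]
      rw [cl_cyc'] at hs
      have h3 : s.len.divisors ⊆ Finset.Icc 1 m := by
        intro k hk
        have hkd : k ∣ s.len := Nat.dvd_of_mem_divisors hk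
        have hk1 : 1 ≤ k := Nat.pos_of_dvd_of_pos hkd s.len_pos
        have hk2 := Nat.le_of_dvd s.len_pos hkd
        rw [Finset.mem_Icc]
        omega
      rw [← Finset.sum_subset h3]
      · refine Finset.sum_congr rfl fun k hk => ?_
        have hkd : k ∣ s.len := Nat.dvd_of_mem_divisors hk
        rw [Hall.sum_apply]
        refine Finset.sum_congr rfl fun S _ => ?_
        change _ = QW k _ _ (cyc s)
        rw [QW, primOf_cyc, if_pos hkd]
        rfl
      · intro k _ hk
        have hkd : ¬ k ∣ s.len := fun h => hk (Nat.mem_divisors.2 ⟨h, s.len_pos.ne'⟩)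
        rw [Hall.sum_apply]
        refine Finset.sum_eq_zero fun S _ => ?_
        change QW k _ _ (cyc s) = 0
        rw [QW, primOf_cyc, if_neg hkd]
    · rfl
  have h3 := congrArg (fun φ : Hall K 𝕜[X] => φ D) h2
  simpa only [dpart_of_eq rfl] using h3

end Pool.Agent.Lib.MP_02a407_al
end
end
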