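import Mathlib
import Pool.Agent.Lib.MP_02a407_al.Q2.Neck1
import Pool.Agent.Lib.MP_02a407_al.Q2.GInt
import Pool.Agent.Lib.MP_02a407_al.Q2.FGReg

section

/-!
# Inner products of the functions `HW`
-/

namespace Pool.Agent.Lib.MP_02a407_al

open Module Polynomial

set_option linter.unusedSectionVars false

variable {K : Type} [Field K] [Finite K] {𝕜 : Type} [Field 𝕜] [CharZero 𝕜]

/-- The restriction of `η` to the field with `q ^ d` elements has `d` different conjugates. -/
def IsPrimChar (d : ℕ) (η : AlgebraicClosure K →* 𝕜) : Prop :=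
  ∀ j, 0 < j → j < d → ∃ α : AlgebraicClosure K,
    α ^ (Nat.card K ^ d) = α ∧ η (α ^ (Nat.card K ^ j)) ≠ η α

/-! ### The nonzero elements of the field with `q ^ m` elements -/

open Classical in
/-- the nonzero elements of the field with `q ^ m` elements -/
noncomputable def gramS (K : Type) [Field K] [Finite K] (m : ℕ) : Finset (AlgebraicClosure K) :=
  ((X ^ (Nat.card K ^ m) - X : (AlgebraicClosure K)[X]).roots.toFinset.erase 0)

lemma gram_one_lt {m : ℕ} (hm : 1 ≤ m) : 1 < Nat.card K ^ m :=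
  Nat.one_lt_pow (by omega) Finite.one_lt_card

lemma mem_gramS {m : ℕ} (hm : 1 ≤ m) {α : AlgebraicClosure K} :
    α ∈ gramS K m ↔ α ≠ 0 ∧ α ^ (Nat.card K ^ m) = α := by
  classical
  have h0 := FiniteField.X_pow_card_sub_X_ne_zero (AlgebraicClosure K) (gram_one_lt (K := K) hm)
  rw [gramS, Finset.mem_erase, Multiset.mem_toFinset, mem_roots h0, IsRoot.def, eval_sub,
    eval_pow, eval_X, sub_eq_zero]

lemma card_gramS {m : ℕ} (hm : 1 ≤ m) : (gramS K m).card = Nat.card K ^ m - 1 := by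
  classical
  have hq := gram_one_lt (K := K) hm
  have h0 := FiniteField.X_pow_card_sub_X_ne_zero (AlgebraicClosure K) hq
  obtain ⟨p, hp⟩ := CharP.exists K
  have hp' : CharP (AlgebraicClosure K) p :=
    charP_of_injective_algebraMap (algebraMap K (AlgebraicClosure K)).injective p
  have hdvd : p ∣ Nat.card K ^ m := by
    have := Fintype.ofFinite K
    have h1 : p ∣ Nat.card K := by
      rw [Nat.card_eq_fintype_card, ← CharP.cast_eq_zero_iff K p]
      exact FiniteField.cast_card_eq_zero K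
    exact dvd_pow h1 (by omega)
  have hsep : (X ^ (Nat.card K ^ m) - X : (AlgebraicClosure K)[X]).Separable :=
    galois_poly_separable p _ hdvd
  have hnd := nodup_roots hsep
  have hcard : (X ^ (Nat.card K ^ m) - X : (AlgebraicClosure K)[X]).roots.toFinset.card =
      Nat.card K ^ m := by
    rw [Multiset.toFinset_card_of_nodup hnd, ← (IsAlgClosed.splits _).natDegree_eq_card_roots,
      FiniteField.X_pow_card_sub_X_natDegree_eq _ hq]
  rw [gramS, Finset.card_erase_of_mem, hcard]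
  rw [Multiset.mem_toFinset, mem_roots h0, IsRoot.def, eval_sub, eval_pow, eval_X, sub_eq_zero]
  exact zero_pow (by omega)

open Classical in
lemma gramS_eq {m : ℕ} (hm : 1 ≤ m) :
    gramS K m = (cycIdx K m).biUnion (fun s => s.rts.toFinset) := by
  ext α
  rw [mem_gramS hm, Finset.mem_biUnion]
  constructor
  · rintro ⟨h0, h1⟩
    have hint : IsIntegral K α := Algebra.IsIntegral.isIntegral α
    have hirr := minpoly.irreducible hint
    have hdvd : minpoly K α ∣ X ^ (Nat.card K ^ m) - X := by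
      apply minpoly.dvd
      rw [map_sub, map_pow, aeval_X, h1, sub_self]
    have hdeg := hirr.natDegree_dvd_of_dvd_X_pow_card_pow_sub_X hdvd
    obtain ⟨r, hr⟩ := hdeg
    have hr0 : 1 ≤ r := by
      rcases Nat.eq_zero_or_pos r with h | h
      · rw [h, mul_zero] at hr
        omega
      · exact h
    refine ⟨⟨minpoly K α, r, minpoly.monic hint, hirr, ?_, hr0⟩, ?_, ?_⟩
    · intro hX
      have h2 := minpoly.aeval K α
      rw [hX, aeval_X] at h2
      exact h0 h2
    · rw [mem_cycIdx]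
      simp only
      rw [hr, mul_comm]
    · rw [Multiset.mem_toFinset, nk_mem_rts]
      exact minpoly.aeval K α
  · rintro ⟨s, hs, hα⟩
    rw [Multiset.mem_toFinset] at hα
    refine ⟨nk_ne_zero s hα, ?_⟩
    rw [mem_cycIdx] at hs
    have h1 := nk_pow_len s hα
    rw [CycleIndex.len, hs] at h1
    exact h1

/-- Summation over the roots of all the cycles of degree `m`. -/
lemma gram_sum_rts {m : ℕ} (hm : 1 ≤ m) (g : AlgebraicClosure K → 𝕜) :
    ∑ s ∈ cycIdx K m, (s.rts.map g).sum = ∑ α ∈ gramS K m, g α := by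
  classical
  rw [gramS_eq hm, Finset.sum_biUnion]
  · refine Finset.sum_congr rfl fun s _ => ?_
    rw [Finset.sum, Multiset.toFinset_val, (nk_nodup_rts s).dedup]
  · intro s hs t ht hne
    rw [Function.onFun, Finset.disjoint_left]
    intro α hα hα'
    rw [Multiset.mem_toFinset] at hα hα'
    apply hne
    rw [Finset.mem_coe, mem_cycIdx] at hs ht
    have h1 : s.f = t.f := (nk_minpoly s hα).symm.trans (nk_minpoly t hα')
    have h2 : s.r = t.r := by
      rw [← h1, ← hs] at ht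
      exact (Nat.eq_of_mul_eq_mul_right s.irred.natDegree_pos ht).symm
    cases s; cases t
    simp only at h1 h2
    subst h1
    subst h2
    rfl

lemma gram_sum_period {B : Type} [AddCommMonoid B] (g : ℕ → B) (e : ℕ)
    (hg : ∀ i, g (i + e) = g i) (r : ℕ) :
    ∑ i ∈ Finset.range (r * e), g i = r • ∑ i ∈ Finset.range e, g i :=
  nk_prod_period (B := Multiplicative B) g e hg r

/-- The contribution of a cycle. -/
lemma gram_cycle {m : ℕ} {s : CycleIndex K} (hs : s ∈ cycIdx K m)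
    (θ θ' : AlgebraicClosure K → 𝕜) :
    (s.r : 𝕜) * ((s.rts.map θ).sum * (s.rts.map θ').sum) =
      (s.rts.map (fun α => ∑ j ∈ Finset.range m, θ α * θ' (α ^ (Nat.card K ^ j)))).sum := by
  rw [mem_cycIdx] at hs
  rw [mul_comm (s.rts.map θ).sum, ← mul_assoc, mul_comm, ← Multiset.sum_map_mul_right]
  congr 1
  refine Multiset.map_congr rfl fun α hα => ?_
  rw [← Finset.mul_sum]
  congr 1
  rw [← hs, gram_sum_period, nsmul_eq_mul]
  · congr 1
    conv_lhs => rw [nk_rts_eq s hα]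
    rw [Multiset.map_map]
    rfl
  · intro i
    rw [pow_add, pow_mul', nk_pow_card s hα]

/-- The sum of the values of a multiplicative function. -/
lemma gram_char {m : ℕ} (hm : 1 ≤ m) (χ : AlgebraicClosure K → 𝕜)
    (hmul : ∀ α β, χ (α * β) = χ α * χ β) (hχ : ∃ β ∈ gramS K m, χ β ≠ 1) :
    ∑ α ∈ gramS K m, χ α = 0 := by
  classical
  obtain ⟨β, hβ, hβ1⟩ := hχ
  have hβ' := (mem_gramS hm).1 hβ
  have h1 : ∑ α ∈ gramS K m, χ α = χ β * ∑ α ∈ gramS K m, χ α := by
    rw [Finset.mul_sum]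
    symm
    refine Finset.sum_nbij (fun α => β * α) ?_ ?_ ?_ ?_
    · intro α hα
      rw [mem_gramS hm] at hα ⊢
      exact ⟨mul_ne_zero hβ'.1 hα.1, by rw [mul_pow, hβ'.2, hα.2]⟩
    · intro α _ α' _ h
      exact mul_left_cancel₀ hβ'.1 h
    · intro α hα
      rw [Finset.mem_coe, mem_gramS hm] at hα
      refine ⟨β⁻¹ * α, ?_, ?_⟩
      · rw [Finset.mem_coe, mem_gramS hm]
        exact ⟨mul_ne_zero (inv_ne_zero hβ'.1) hα.1, by rw [mul_pow, inv_pow, hβ'.2, hα.2]⟩
      · exact mul_inv_cancel_left₀ hβ'.1 α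
    · intro α _
      exact (hmul β α).symm
  have h2 : (1 - χ β) * ∑ α ∈ gramS K m, χ α = 0 := by
    rw [sub_mul, one_mul, ← h1, sub_self]
  rcases mul_eq_zero.1 h2 with h3 | h3
  · exact absurd (sub_eq_zero.1 h3).symm hβ1
  · exact h3

lemma gram_pow_mod {d : ℕ} {β : AlgebraicClosure K} (h : β ^ (Nat.card K ^ d) = β) (u j : ℕ) :
    β ^ (Nat.card K ^ (d * u + j)) = β ^ (Nat.card K ^ j) := by
  induction u with
  | zero => rw [mul_zero, zero_add]
  | succ u ih =>
    have h1 : Nat.card K ^ (d * (u + 1) + j) = Nat.card K ^ d * Nat.card K ^ (d * u + j) := by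
      rw [← pow_add]
      congr 1
      ring
    rw [h1, pow_mul, h, ih]

lemma gram_eta_inv (η : AlgebraicClosure K →* 𝕜) {α : AlgebraicClosure K} (h : α ≠ 0) :
    η α * etaInv η α = 1 := by
  change η α * η α⁻¹ = 1
  rw [← map_mul, mul_inv_cancel₀ h, map_one]

/-- The orthogonality relation of the characters of the multiplicative group. -/
theorem sum_tsum {d : ℕ} (hd : 1 ≤ d) {η : AlgebraicClosure K →* 𝕜} (hη : IsPrimChar d η)
    {n : ℕ} (hn : 1 ≤ n) :
    ∑ s ∈ cycIdx K (d * n), (s.r : 𝕜) * (tsum d η s * tsum d (etaInv η) s) =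
      ((Nat.card K : 𝕜) ^ (d * n) - 1) * n := by
  classical
  have hm : 1 ≤ d * n := Nat.mul_pos hd hn
  set m := d * n with hmdef
  set E := (Nat.card K ^ m - 1) / (Nat.card K ^ d - 1) with hE
  have hqd := gram_one_lt (K := K) hd
  have hqm := gram_one_lt (K := K) hm
  have hdvd : (Nat.card K ^ d - 1) ∣ (Nat.card K ^ m - 1) := by
    rw [hmdef, pow_mul]
    exact Nat.sub_one_dvd_pow_sub_one _ _
  have hEmul : E * (Nat.card K ^ d - 1) = Nat.card K ^ m - 1 := Nat.div_mul_cancel hdvd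
  have hE0 : E ≠ 0 := by
    intro h
    rw [h, zero_mul] at hEmul
    omega
  have h1 : ∀ s ∈ cycIdx K m, (s.r : 𝕜) * (tsum d η s * tsum d (etaInv η) s) =
      (s.rts.map (fun α => ∑ j ∈ Finset.range m,
        η α ^ E * etaInv η (α ^ (Nat.card K ^ j)) ^ E)).sum := by
    intro s hs
    have hlen : s.len = m := mem_cycIdx.1 hs
    rw [tsum, tsum, hlen, ← hE]
    exact gram_cycle hs (fun α => η α ^ E) (fun α => etaInv η α ^ E)
  rw [Finset.sum_congr rfl h1, gram_sum_rts hm, Finset.sum_comm]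
  have hval : ∀ j, ∑ α ∈ gramS K m, η α ^ E * etaInv η (α ^ (Nat.card K ^ j)) ^ E =
      if d ∣ j then ((Nat.card K : 𝕜) ^ m - 1) else 0 := by
    intro j
    split_ifs with hj
    · obtain ⟨u, rfl⟩ := hj
      have h2 : ∀ α ∈ gramS K m, η α ^ E * etaInv η (α ^ (Nat.card K ^ (d * u))) ^ E = 1 := by
        intro α hα
        rw [mem_gramS hm] at hα
        have h3 : (α ^ E) ^ (Nat.card K ^ d) = α ^ E := by
          have h4 : (α ^ E) ^ (Nat.card K ^ d - 1) = 1 := by
            rw [← pow_mul, hEmul]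
            apply mul_right_cancel₀ hα.1
            rw [one_mul, ← pow_succ, Nat.sub_add_cancel (by omega), hα.2]
          have h5 : Nat.card K ^ d = Nat.card K ^ d - 1 + 1 := by omega
          rw [h5, pow_succ, h4, one_mul]
        rw [← map_pow, ← map_pow, ← pow_mul, mul_comm (Nat.card K ^ (d * u)) E, pow_mul]
        have h6 := gram_pow_mod h3 u 0
        rw [add_zero, pow_zero, pow_one] at h6
        rw [h6]
        exact gram_eta_inv η (pow_ne_zero _ hα.1)
      rw [Finset.sum_congr rfl h2, Finset.sum_const, card_gramS hm, nsmul_eq_mul, mul_one,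
        Nat.cast_sub (by omega), Nat.cast_pow, Nat.cast_one]
    · apply gram_char hm (fun α => η α ^ E * etaInv η (α ^ (Nat.card K ^ j)) ^ E)
      · intro α β
        rw [map_mul, mul_pow, mul_pow, map_mul, mul_pow]
        ring
      · have hj0 : 0 < j % d := Nat.pos_of_ne_zero fun h => hj (Nat.dvd_of_mod_eq_zero h)
        obtain ⟨β, hβ1, hβ2⟩ := hη (j % d) hj0 (Nat.mod_lt _ hd)
        have hβ0 : β ≠ 0 := by
          rintro rfl
          apply hβ2
          rw [zero_pow (pow_pos Nat.card_pos _).ne']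
        obtain ⟨α, hα⟩ := IsAlgClosed.exists_pow_nat_eq β (Nat.pos_of_ne_zero hE0)
        have hα0 : α ≠ 0 := by
          rintro rfl
          rw [zero_pow hE0] at hα
          exact hβ0 hα.symm
        refine ⟨α, ?_, ?_⟩
        · rw [mem_gramS hm]
          refine ⟨hα0, ?_⟩
          have h4 : α ^ (Nat.card K ^ m - 1) = 1 := by
            rw [← hEmul, pow_mul, hα]
            apply mul_right_cancel₀ hβ0
            rw [one_mul, ← pow_succ, Nat.sub_add_cancel (by omega), hβ1]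
          have h5 : Nat.card K ^ m = Nat.card K ^ m - 1 + 1 := by omega
          rw [h5, pow_succ, h4, one_mul]
        · intro h
          apply hβ2
          rw [← map_pow, ← map_pow, ← pow_mul, mul_comm (Nat.card K ^ j) E, pow_mul, hα] at h
          have h6 := gram_pow_mod hβ1 (j / d) (j % d)
          rw [Nat.div_add_mod] at h6
          rw [h6] at h
          have h7 := gram_eta_inv η (pow_ne_zero (Nat.card K ^ (j % d)) hβ0)
          calc η (β ^ Nat.card K ^ (j % d)) = η (β ^ Nat.card K ^ (j % d)) *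
                (η β * etaInv η (β ^ Nat.card K ^ (j % d))) := by rw [h, mul_one]
            _ = η β * (η (β ^ Nat.card K ^ (j % d)) * etaInv η (β ^ Nat.card K ^ (j % d))) := by
              ring
            _ = η β := by rw [h7, mul_one]
  rw [Finset.sum_congr rfl fun j _ => hval j, hmdef, mul_comm d n, gram_sum_period]
  · have h2 : ∑ j ∈ Finset.range d, (if d ∣ j then ((Nat.card K : 𝕜) ^ (n * d) - 1) else 0) =
        (Nat.card K : 𝕜) ^ (n * d) - 1 := by
      rw [Finset.sum_eq_single 0]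
      · rw [if_pos (dvd_zero d)]
      · intro j hj hj0
        rw [Finset.mem_range] at hj
        rw [if_neg]
        intro h
        exact absurd (Nat.le_of_dvd (Nat.pos_of_ne_zero hj0) h) (by omega)
      · intro h
        exact absurd (Finset.mem_range.2 hd) h
    rw [h2, nsmul_eq_mul]
    ring
  · intro i
    have h2 : d ∣ i + d ↔ d ∣ i := by
      rw [Nat.dvd_add_left (dvd_refl d)]
    simp only [h2]

variable {A : Type} [CommRing A] [Algebra ℚ A] [Algebra 𝕜 A]

lemma gram_algebraMap (c : ℚ) : algebraMap 𝕜 A (algebraMap ℚ 𝕜 c) = algebraMap ℚ A c := by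
  have h : (algebraMap 𝕜 A).comp (algebraMap ℚ 𝕜) = algebraMap ℚ A := Subsingleton.elim _ _
  rw [← h, RingHom.comp_apply]

theorem integ_QW {d : ℕ} (hd : 1 ≤ d) {η : AlgebraicClosure K →* 𝕜} (hη : IsPrimChar d η)
    (w w' : ℕ → A) {n : ℕ} (hn : 1 ≤ n) :
    integ (d * n) (fun C => QW d w η C * Hall.inv (QW d w' η) C) =
      ((d : A) ^ 2 * n) * (w n * w' n) := by
  have hm : 1 ≤ d * n := Nat.mul_pos hd hn
  rw [inv_QW hd, prim_inner (isPrim_QW d w η) (isPrim_QW d w' (etaInv η)) hm]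
  have hval : ∀ (v : ℕ → A) (χ : AlgebraicClosure K →* 𝕜), ∀ s ∈ cycIdx K (d * n),
      QW d v χ (cyc s) = v n * algebraMap 𝕜 A ((d : 𝕜) * tsum d χ s) := by
    intro v χ s hs
    have hlen : s.len = d * n := mem_cycIdx.1 hs
    rw [QW, primOf_cyc, hlen, if_pos (dvd_mul_right d n), Nat.mul_div_cancel_left n hd]
  have hq : (Nat.card K : 𝕜) ^ (d * n) - 1 ≠ 0 := by
    have h1 := gram_one_lt (K := K) hm
    have h2 : ((Nat.card K ^ (d * n) : ℕ) : 𝕜) ≠ ((1 : ℕ) : 𝕜) := fun h =>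
      absurd (Nat.cast_injective h) (by omega)
    rw [Nat.cast_pow, Nat.cast_one] at h2
    exact sub_ne_zero.2 h2
  have h1 : ∀ s ∈ cycIdx K (d * n), ((s.r : ℚ) / ((Nat.card K : ℚ) ^ (d * n) - 1)) •
      (QW d w η (cyc s) * QW d w' (etaInv η) (cyc s)) =
      (w n * w' n) * algebraMap 𝕜 A ((d : 𝕜) ^ 2 * ((Nat.card K : 𝕜) ^ (d * n) - 1)⁻¹ *
        ((s.r : 𝕜) * (tsum d η s * tsum d (etaInv η) s))) := by
    intro s hs
    rw [hval w η s hs, hval w' (etaInv η) s hs, Algebra.smul_def, ← gram_algebraMap (𝕜 := 𝕜)]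
    have h2 : algebraMap ℚ 𝕜 ((s.r : ℚ) / ((Nat.card K : ℚ) ^ (d * n) - 1)) =
        (s.r : 𝕜) * ((Nat.card K : 𝕜) ^ (d * n) - 1)⁻¹ := by
      rw [map_div₀, map_natCast, map_sub, map_pow, map_natCast, map_one, div_eq_mul_inv]
    rw [h2]
    simp only [map_mul]
    rw [pow_two, map_mul]
    ring
  rw [Finset.sum_congr rfl h1, ← Finset.mul_sum, ← map_sum, ← Finset.mul_sum,
    sum_tsum hd hη hn]
  have h3 : (d : 𝕜) ^ 2 * ((Nat.card K : 𝕜) ^ (d * n) - 1)⁻¹ *
      (((Nat.card K : 𝕜) ^ (d * n) - 1) * n) = (d : 𝕜) ^ 2 * n := by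
    field_simp
  rw [h3, map_mul, map_pow, map_natCast, map_natCast]
  ring

/-! ### Exponentials and integration -/

lemma gram_antidiag {d : ℕ} (hd : 1 ≤ d) (n : ℕ) (G : ℕ → ℕ → A)
    (hG : ∀ a b, ¬ d ∣ a → G a b = 0) :
    ∑ p ∈ Finset.HasAntidiagonal.antidiagonal (d * n), G p.1 p.2 =
      ∑ p ∈ Finset.HasAntidiagonal.antidiagonal n, G (d * p.1) (d * p.2) := by
  classical
  symm
  refine Finset.sum_of_injOn (fun p => (d * p.1, d * p.2)) ?_ ?_ ?_ ?_
  · intro p _ p' _ h
    have h1 := congrArg Prod.fst h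
    have h2 := congrArg Prod.snd h
    exact Prod.ext (Nat.eq_of_mul_eq_mul_left hd h1) (Nat.eq_of_mul_eq_mul_left hd h2)
  · intro p hp
    rw [Finset.mem_coe, Finset.HasAntidiagonal.mem_antidiagonal] at hp ⊢
    simp only
    rw [← mul_add, hp]
  · intro p hp hp'
    apply hG
    intro h
    apply hp'
    obtain ⟨a, ha⟩ := h
    rw [Finset.HasAntidiagonal.mem_antidiagonal, ha] at hp
    have h1 : a ≤ n := by
      have h2 : d * a ≤ d * n := by omega
      exact Nat.le_of_mul_le_mul_left h2 hd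
    refine ⟨(a, n - a), ?_, ?_⟩
    · rw [Finset.mem_coe, Finset.HasAntidiagonal.mem_antidiagonal]
      simp only
      omega
    · refine Prod.ext ha.symm ?_
      simp only
      rw [Nat.mul_sub]
      omega
  · intro p _
    rfl

/-- Exponentials under integration against a group-like function. -/
lemma gram_exp {χ : Hall K A} (h : IsGrp χ) {d : ℕ} (hd : 1 ≤ d) {P F : Hall K A}
    (hP0 : P 0 = 0) (hF0 : F 0 = 1) (hF : dg F = P * F) (hPd : ∀ C, ¬ d ∣ cl C → P C = 0)
    (v : ℕ → A) (hv : ∀ n, 1 ≤ n → integ (d * n) (fun C => P C * χ C) = (d : A) * v n) (n : ℕ) :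
    integ (d * n) (fun C => F C * χ C) = pexp v n := by
  have hd0 : (d : ℚ) ≠ 0 := by
    have : d ≠ 0 := by omega
    exact_mod_cast this
  refine pexp_unique (F := fun n => integ (d * n) (fun C => F C * χ C)) ?_ ?_ n
  · rw [mul_zero, integ_zero, hF0, one_mul, h.1]
  · intro n hn
    have h1 : ((d * n : ℕ) : ℚ) • integ (d * n) (fun C => F C * χ C) =
        ∑ p ∈ Finset.HasAntidiagonal.antidiagonal (d * n),
          integ p.1 (fun C => P C * χ C) * integ p.2 (fun C => F C * χ C) := by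
      rw [← gint_mul h, ← hF, ← integ_smul]
      refine integ_congr fun C hC => ?_
      rw [dg_apply, hC, smul_mul_assoc]
    rw [gram_antidiag hd n (fun a b => integ a (fun C => P C * χ C) *
      integ b (fun C => F C * χ C))] at h1
    · have h2 : ∀ p ∈ Finset.HasAntidiagonal.antidiagonal n,
          integ (d * p.1) (fun C => P C * χ C) * integ (d * p.2) (fun C => F C * χ C) =
          (d : ℚ) • (if p.1 = 0 then 0 else v p.1 * integ (d * p.2) (fun C => F C * χ C)) := by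
        intro p _
        split_ifs with hp
        · rw [hp, mul_zero, integ_zero, hP0, zero_mul, zero_mul, smul_zero]
        · rw [hv p.1 (by omega), Algebra.smul_def, map_natCast]
          ring
      rw [Finset.sum_congr rfl h2, ← Finset.smul_sum] at h1
      rw [Nat.cast_mul, mul_smul] at h1
      have h3 := congrArg (fun x => (d : ℚ)⁻¹ • x) h1
      simp only [inv_smul_smul₀ hd0] at h3
      exact h3
    · intro a b ha
      have h2 : integ a (fun C => P C * χ C) = 0 := by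
        rw [integ]
        refine Finset.sum_eq_zero fun C hC => ?_
        rw [mem_degCls] at hC
        rw [hPd C (by rw [hC]; exact ha), zero_mul, smul_zero]
      rw [h2, zero_mul]

theorem integ_HW {d : ℕ} (hd : 1 ≤ d) {η : AlgebraicClosure K →* 𝕜} (hη : IsPrimChar d η)
    (w w' : ℕ → A) (n : ℕ) :
    integ (d * n) (fun C => HW d w η C * Hall.inv (HW d w' η) C) =
      pexp (fun i => w i * w' i) n := by
  have hχ : IsGrp (Hall.inv (HW d w' η)) := by
    rw [inv_HW hd]
    exact isGrp_HW d w' (etaInv η)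
  refine gram_exp hχ hd (isPrim_QW d w η).1 (HW_zero_apply d w η) (dg_HW d w η)
    (fun C hC => QW_of_not_dvd w η hC) _ ?_ n
  intro n hn
  have hm : 1 ≤ d * n := Nat.mul_pos hd hn
  have h1 : dg (Hall.inv (HW d w' η)) = Hall.inv (QW d w' η) * Hall.inv (HW d w' η) := by
    rw [dg_inv, dg_HW, map_mul]
  have h2 := integ_mul_prim (α := Hall.inv (QW d w' η)) (β := Hall.inv (HW d w' η))
    (isPrim_QW d w η) hm
  rw [← h1, (isPrim_QW d w' η).inv.1, zero_mul, zero_add, hχ.1, one_mul] at h2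
  have h3 : integ (d * n) (fun C => Hall.inv (QW d w' η) C * QW d w η C) =
      ((d : A) ^ 2 * n) * (w n * w' n) := by
    rw [← integ_QW hd hη w w' hn]
    exact integ_congr fun C _ => mul_comm _ _
  have h4 : integ (d * n) (fun C => dg (Hall.inv (HW d w' η)) C * QW d w η C) =
      ((d * n : ℕ) : ℚ) • integ (d * n) (fun C => QW d w η C * Hall.inv (HW d w' η) C) := by
    rw [← integ_smul]
    refine integ_congr fun C hC => ?_
    rw [dg_apply, hC, smul_mul_assoc, mul_comm (Hall.inv (HW d w' η) C)]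
  rw [h3, h4] at h2
  have hdn : ((d * n : ℕ) : ℚ) ≠ 0 := by exact_mod_cast (by omega : d * n ≠ 0)
  have h5 := congrArg (fun x => ((d * n : ℕ) : ℚ)⁻¹ • x) h2
  simp only [inv_smul_smul₀ hdn] at h5
  rw [h5, inv_smul_eq_iff₀ hdn, Algebra.smul_def, map_natCast]
  push_cast
  ring

/-- the value of `QW` at the unipotent cycle -/
lemma gram_QW_one {d : ℕ} (hd : 1 ≤ d) (η : AlgebraicClosure K →* 𝕜) (w : ℕ → A) {n : ℕ}
    (hn : 1 ≤ n) : QW d w η ((oneP K).cyc (d * n)) = (d : A) * w n := by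
  have hm : 1 ≤ d * n := Nat.mul_pos hd hn
  have hlen : ((oneP K).toIdx (d * n) hm).len = d * n := by
    change d * n * (oneP K).deg = d * n
    rw [oneP_deg, mul_one]
  have hrts : ((oneP K).toIdx (d * n) hm).rts = {1} := by
    change ((X - 1 : K[X]).map (algebraMap K (AlgebraicClosure K))).roots = {1}
    rw [Polynomial.map_sub, Polynomial.map_X, Polynomial.map_one, ← map_one C, roots_X_sub_C]
  rw [← PIdx.cyc_toIdx (oneP K) (d * n) hm, QW, primOf_cyc, hlen, if_pos (dvd_mul_right d n),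
    Nat.mul_div_cancel_left n hd, tsum, hrts, Multiset.map_singleton, Multiset.sum_singleton,
    map_one, one_pow, mul_one, map_natCast]
  ring

lemma gram_q_cast {d : ℕ} (n : ℕ) :
    ((Nat.card K : ℚ) ^ (d * n) - 1)⁻¹ = (((Nat.card K : ℚ) ^ d) ^ n - 1)⁻¹ := by
  rw [pow_mul]

theorem nu_HW {d : ℕ} (hd : 1 ≤ d) (η : AlgebraicClosure K →* 𝕜) (w : ℕ → A) (n : ℕ) :
    PowerSeries.coeff (d * n) (nu K A (HW d w η)) =
      pexp (fun i => algebraMap ℚ A ((((Nat.card K : ℚ) ^ d) ^ i - 1)⁻¹) * w i) n := by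
  rw [coeff_nu]
  refine gram_exp (isGrp_prm (oneP K)) hd (isPrim_QW d w η).1 (HW_zero_apply d w η)
    (dg_HW d w η) (fun C hC => QW_of_not_dvd w η hC) _ ?_ n
  intro n hn
  have hm : 1 ≤ d * n := Nat.mul_pos hd hn
  rw [← coeff_nu, coeff_nu_prim (isPrim_QW d w η) hm, gram_QW_one hd η w hn, gram_q_cast,
    Algebra.smul_def]
  ring

theorem ep_HW {d : ℕ} (hd : 1 ≤ d) (η : AlgebraicClosure K →* 𝕜) (w : ℕ → A) (n : ℕ) :
    PowerSeries.coeff (d * n) (ep K A (HW d w η)) =
      pexp (fun i => algebraMap ℚ A ((-1) ^ (d * i + 1) *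
        (((Nat.card K : ℚ) ^ d) ^ i - 1)⁻¹) * w i) n := by
  rw [coeff_ep]
  refine gram_exp isGrp_del1 hd (isPrim_QW d w η).1 (HW_zero_apply d w η)
    (dg_HW d w η) (fun C hC => QW_of_not_dvd w η hC) _ ?_ n
  intro n hn
  have hm : 1 ≤ d * n := Nat.mul_pos hd hn
  rw [← coeff_ep, coeff_ep_prim (isPrim_QW d w η) hm, coeff_nu_prim (isPrim_QW d w η) hm,
    gram_QW_one hd η w hn, gram_q_cast, Algebra.smul_def, map_mul, map_pow, map_neg, map_one]
  ring

end Pool.Agent.Lib.MP_02a407_al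
end

section

section

/-!
# Existence of an injective character
-/

namespace Pool.Agent.Lib.MP_02a407_al

private theorem card_pow_cast {K : Type} [Field K] [Finite K] {m : ℕ} (hm : 1 ≤ m) :
    ((Nat.card K ^ m - 1 : ℕ) : AlgebraicClosure K) = -1 := by
  have := Fintype.ofFinite K
  have h0 : ((Nat.card K : ℕ) : AlgebraicClosure K) = 0 := by
    have h1 : ((Fintype.card K : ℕ) : K) = 0 := FiniteField.cast_card_eq_zero K
    have h2 : algebraMap K (AlgebraicClosure K) ((Fintype.card K : ℕ) : K) = 0 := by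
      rw [h1, map_zero]
    rw [map_natCast] at h2
    rw [Nat.card_eq_fintype_card]
    exact h2
  have hpos : 1 ≤ Nat.card K ^ m := Nat.one_le_pow _ _ Nat.card_pos
  rw [Nat.cast_sub hpos, Nat.cast_pow, h0, zero_pow (by omega), Nat.cast_one, zero_sub]

private theorem card_pow_sub_pos {K : Type} [Field K] [Finite K] {m : ℕ} (hm : 1 ≤ m) :
    0 < Nat.card K ^ m - 1 := by
  have h1 : 1 < Nat.card K := Finite.one_lt_card
  have h2 : 1 < Nat.card K ^ m := Nat.one_lt_pow (by omega) h1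
  omega

/-- Divisibility of the unit group of an algebraically closed field. -/
private noncomputable def unitsDivisible (𝕜 : Type) [Field 𝕜] [IsAlgClosed 𝕜] :
    DivisibleBy (Additive 𝕜ˣ) ℤ := by
  haveI : DivisibleBy (Additive 𝕜ˣ) ℕ :=
    divisibleByOfSMulRightSurj (Additive 𝕜ˣ) ℕ (by
      intro n hn a
      obtain ⟨z, hz⟩ := IsAlgClosed.exists_pow_nat_eq ((Additive.toMul a : 𝕜ˣ) : 𝕜)
        (Nat.pos_of_ne_zero hn)
      have hz0 : z ≠ 0 := by
        rintro rfl
        rw [zero_pow hn] at hz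
        exact (Additive.toMul a).ne_zero hz.symm
      refine ⟨Additive.ofMul (Units.mk0 z hz0), ?_⟩
      apply Additive.toMul.injective
      apply Units.ext
      simpa using hz)
  exact AddGroup.divisibleByIntOfDivisibleByNat (Additive 𝕜ˣ)

theorem exists_eta (K : Type) [Field K] [Finite K] (𝕜 : Type) [Field 𝕜] [IsAlgClosed 𝕜]
    [CharZero 𝕜] (m : ℕ) (hm : 1 ≤ m) :
    ∃ (γ : AlgebraicClosure K) (η : AlgebraicClosure K →* 𝕜),
      IsPrimitiveRoot γ (Nat.card K ^ m - 1) ∧ IsPrimitiveRoot (η γ) (Nat.card K ^ m - 1) := by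
  classical
  set F := AlgebraicClosure K with hF
  set N := Nat.card K ^ m - 1 with hN
  have hNpos : 0 < N := card_pow_sub_pos hm
  have : NeZero N := ⟨hNpos.ne'⟩
  have : NeZero ((N : ℕ) : F) := ⟨by rw [hN, card_pow_cast hm]; simp⟩
  have : NeZero ((N : ℕ) : 𝕜) := ⟨Nat.cast_ne_zero.mpr hNpos.ne'⟩
  obtain ⟨γ, hγ⟩ := HasEnoughRootsOfUnity.exists_primitiveRoot F N
  obtain ⟨ζ, hζ⟩ := HasEnoughRootsOfUnity.exists_primitiveRoot 𝕜 N
  set γ' : Fˣ := (hγ.isUnit hNpos.ne').unit with hγ'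
  set ζ' : 𝕜ˣ := (hζ.isUnit hNpos.ne').unit with hζ'
  have hγ'p : IsPrimitiveRoot γ' N := by
    rw [← IsPrimitiveRoot.coe_units_iff]
    simpa [hγ'] using hγ
  have hζ'p : IsPrimitiveRoot ζ' N := by
    rw [← IsPrimitiveRoot.coe_units_iff]
    simpa [hζ'] using hζ
  -- homomorphisms from `ZMod N`
  let f : ZMod N →+ Additive Fˣ := ZMod.lift N ⟨zmultiplesHom _ (Additive.ofMul γ'), by
    change ((N : ℕ) : ℤ) • Additive.ofMul γ' = 0
    rw [natCast_zsmul, ← ofMul_pow, hγ'p.pow_eq_one]; rfl⟩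
  let g : ZMod N →+ Additive 𝕜ˣ := ZMod.lift N ⟨zmultiplesHom _ (Additive.ofMul ζ'), by
    change ((N : ℕ) : ℤ) • Additive.ofMul ζ' = 0
    rw [natCast_zsmul, ← ofMul_pow, hζ'p.pow_eq_one]; rfl⟩
  have hf1 : f 1 = Additive.ofMul γ' := by
    have : f ((1 : ℤ) : ZMod N) = (zmultiplesHom _ (Additive.ofMul γ')) 1 := ZMod.lift_coe _ _ _
    simpa using this
  have hg1 : g 1 = Additive.ofMul ζ' := by
    have : g ((1 : ℤ) : ZMod N) = (zmultiplesHom _ (Additive.ofMul ζ')) 1 := ZMod.lift_coe _ _ _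
    simpa using this
  have hfinj : Function.Injective f := by
    rw [injective_iff_map_eq_zero]
    intro a ha
    obtain ⟨z, rfl⟩ := ZMod.intCast_surjective a
    have h1 : f (z : ZMod N) = z • Additive.ofMul γ' := by
      have : f ((z : ℤ) : ZMod N) = (zmultiplesHom _ (Additive.ofMul γ')) z := ZMod.lift_coe _ _ _
      simpa using this
    rw [h1] at ha
    have h2 : γ' ^ z = 1 := by
      have := congrArg Additive.toMul ha
      simpa using this
    rw [ZMod.intCast_zmod_eq_zero_iff_dvd]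
    exact (hγ'p.zpow_eq_one_iff_dvd z).mp h2
  haveI := unitsDivisible 𝕜
  obtain ⟨h, hh⟩ := (Module.Baer.of_divisible (Additive 𝕜ˣ)).extension_property_addMonoidHom
    f hfinj g
  have hhγ : h (Additive.ofMul γ') = Additive.ofMul ζ' := by
    have := DFunLike.congr_fun hh 1
    rw [AddMonoidHom.comp_apply, hf1, hg1] at this
    exact this
  let η₀ : Fˣ →* 𝕜ˣ := MonoidHom.toAdditive.symm h
  refine ⟨γ, (MulChar.ofUnitHom η₀).toMonoidHom, hγ, ?_⟩
  have hval : (MulChar.ofUnitHom η₀).toMonoidHom γ = ζ := by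
    have h1 : (MulChar.ofUnitHom η₀) ((γ' : Fˣ) : F) = ((η₀ γ' : 𝕜ˣ) : 𝕜) :=
      MulChar.ofUnitHom_coe η₀ γ'
    have h2 : η₀ γ' = ζ' := by
      apply Additive.ofMul.injective
      exact hhγ
    rw [h2] at h1
    have h3 : ((γ' : Fˣ) : F) = γ := IsUnit.unit_spec _
    have h4 : ((ζ' : 𝕜ˣ) : 𝕜) = ζ := IsUnit.unit_spec _
    rw [h3, h4] at h1
    exact h1
  rw [hval]
  exact hζ

/-- The elements of the field with `q ^ m` elements are `0` and the powers of `γ`. -/
theorem exists_pow_gamma {K : Type} [Field K] [Finite K] {m : ℕ} (hm : 1 ≤ m)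
    {γ : AlgebraicClosure K} (hγ : IsPrimitiveRoot γ (Nat.card K ^ m - 1))
    {α : AlgebraicClosure K} (hα : α ≠ 0) (h : α ^ (Nat.card K ^ m) = α) :
    ∃ a < Nat.card K ^ m - 1, α = γ ^ a := by
  have hNpos : 0 < Nat.card K ^ m - 1 := card_pow_sub_pos hm
  have : NeZero (Nat.card K ^ m - 1) := ⟨hNpos.ne'⟩
  have h1 : α ^ (Nat.card K ^ m - 1) = 1 := by
    have h2 : α ^ (Nat.card K ^ m - 1) * α = 1 * α := by
      rw [← pow_succ, one_mul]
      have : Nat.card K ^ m - 1 + 1 = Nat.card K ^ m := by omega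
      rw [this, h]
    exact mul_right_cancel₀ hα h2
  obtain ⟨i, hi, hiα⟩ := hγ.eq_pow_of_pow_eq_one h1
  exact ⟨i, hi, hiα.symm⟩

end Pool.Agent.Lib.MP_02a407_al
end

section

/-!
# A basis of the primitive functions of degree `m` (`q = 2`)
-/

namespace Pool.Agent.Lib.MP_02a407_al

open Module Polynomial Num

set_option linter.unusedSectionVars false

variable {K : Type} [Field K] [Finite K] {𝕜 : Type} [Field 𝕜] [CharZero 𝕜]

/-- The primitive function of degree `m` attached to the character `η ^ t`. -/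
noncomputable def PT (m : ℕ) (η : AlgebraicClosure K →* 𝕜) (t : ℕ) : Hall K 𝕜 :=
  primOf (fun s => if s.len = m then (s.rts.map (fun α => η α ^ t)).sum else 0)

lemma bp_NN_pos {m : ℕ} (hm : 1 ≤ m) : 0 < NN m := by
  have : 2 ^ 1 ≤ 2 ^ m := Nat.pow_le_pow_right (by norm_num) hm
  unfold NN
  omega

lemma bp_NN_succ (m : ℕ) : NN m + 1 = 2 ^ m := by
  have : 1 ≤ 2 ^ m := Nat.one_le_two_pow
  unfold NN
  omega

/-- Powers of an element of order dividing `NN m` under the Frobenius. -/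
lemma bp_pow_iff {F : Type} [Field F] {m : ℕ} {ζ : F} (hζ : IsPrimitiveRoot ζ (NN m))
    (hm : 1 ≤ m) (a j : ℕ) : (ζ ^ a) ^ (2 ^ j) = ζ ^ a ↔ per m a ∣ j := by
  have h0 : ζ ^ a ≠ 0 := pow_ne_zero _ (hζ.ne_zero (bp_NN_pos hm).ne')
  rw [← dvd_iff_per_dvd hm, ← hζ.pow_eq_one_iff_dvd, ← bp_NN_succ j, pow_succ, ← pow_mul]
  constructor
  · intro h
    exact mul_right_cancel₀ h0 (by rw [h, one_mul])
  · intro h
    rw [h, one_mul]

/-- The cycle of degree `m` whose roots are the conjugates of `γ ^ a`. -/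
theorem exists_cycle (hq : Nat.card K = 2) {m : ℕ} (hm : 1 ≤ m) {γ : AlgebraicClosure K}
    (hγ : IsPrimitiveRoot γ (NN m)) (a : ℕ) :
    ∃ f : PIdx K, f.deg = per m a ∧ aeval (γ ^ a) f.f = 0 ∧
      (f.f.map (algebraMap K (AlgebraicClosure K))).roots =
        (Multiset.range (per m a)).map (fun j => γ ^ (a * 2 ^ j)) := by
  have h0 : γ ^ a ≠ 0 := pow_ne_zero _ (hγ.ne_zero (bp_NN_pos hm).ne')
  have hint : IsIntegral K (γ ^ a) := Algebra.IsIntegral.isIntegral _
  let f : PIdx K := ⟨minpoly K (γ ^ a), minpoly.monic hint, minpoly.irreducible hint, by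
    intro h
    have h1 := minpoly.aeval K (γ ^ a)
    rw [h, aeval_X] at h1
    exact h0 h1⟩
  let s : CycleIndex K := f.toIdx 1 le_rfl
  have hs : γ ^ a ∈ s.rts := (nk_mem_rts s _).2 (minpoly.aeval K (γ ^ a))
  have hdeg : s.f.natDegree = per m a := by
    have h1 := nk_pow_card s hs
    rw [hq, bp_pow_iff hγ hm] at h1
    refine le_antisymm ?_ (Nat.le_of_dvd s.irred.natDegree_pos h1)
    by_contra hcon
    exact nk_pow_ne s hs (per_pos hm) (not_le.1 hcon) (by
      rw [hq, bp_pow_iff hγ hm])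
  refine ⟨f, hdeg, minpoly.aeval K (γ ^ a), ?_⟩
  have h2 := nk_rts_eq s hs
  rw [hdeg, hq] at h2
  simp only [← pow_mul] at h2
  exact h2

/-- Every cycle of degree `m` is of this form. -/
theorem exists_exponent (hq : Nat.card K = 2) {m : ℕ} (hm : 1 ≤ m) {γ : AlgebraicClosure K}
    (hγ : IsPrimitiveRoot γ (NN m)) (s : CycleIndex K) (hs : s.len = m) :
    ∃ a < NN m, aeval (γ ^ a) s.f = 0 ∧ s.f.natDegree = per m a ∧ s.r = m / per m a ∧
      s.rts = (Multiset.range (per m a)).map (fun j => γ ^ (a * 2 ^ j)) := by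
  have hcard := nk_card_rts s
  have hpos := s.irred.natDegree_pos
  obtain ⟨α, hα⟩ : ∃ α, α ∈ s.rts := by
    rw [← hcard] at hpos
    exact Multiset.card_pos_iff_exists_mem.1 hpos
  have h1 := nk_pow_len s hα
  rw [hs] at h1
  have hγ' : IsPrimitiveRoot γ (Nat.card K ^ m - 1) := by rw [hq]; exact hγ
  obtain ⟨a, ha, rfl⟩ := exists_pow_gamma hm hγ' (nk_ne_zero s hα) h1
  have hdeg : s.f.natDegree = per m a := by
    have h1 := nk_pow_card s hα
    rw [hq, bp_pow_iff hγ hm] at h1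
    refine le_antisymm ?_ (Nat.le_of_dvd s.irred.natDegree_pos h1)
    by_contra hcon
    exact nk_pow_ne s hα (per_pos hm) (not_le.1 hcon) (by
      rw [hq, bp_pow_iff hγ hm])
  refine ⟨a, by rw [hq] at ha; exact ha, (nk_mem_rts s _).1 hα, hdeg, ?_, ?_⟩
  · rw [← hdeg, ← hs, CycleIndex.len, Nat.mul_div_cancel _ s.irred.natDegree_pos]
  · have h2 := nk_rts_eq s hα
    rw [hdeg, hq] at h2
    simp only [← pow_mul] at h2
    exact h2

theorem QW_eq_PT (hq : Nat.card K = 2) {m : ℕ} (hm : 1 ≤ m) {γ : AlgebraicClosure K}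
    {η : AlgebraicClosure K →* 𝕜} (hγ : IsPrimitiveRoot γ (NN m))
    (hη : IsPrimitiveRoot (η γ) (NN m)) (t : ℕ) {C : Cls K} (hC : cl C = m) :
    QW (per m t) (fun _ => (1 : 𝕜)) (η ^ red m t) C = (per m t : 𝕜) * PT m η t C := by
  have h1 : dpart m (QW (per m t) (fun _ => (1 : 𝕜)) (η ^ red m t)) =
      dpart m ((per m t : 𝕜) • PT m η t) := by
    rw [QW, PT, primOf_smul, primOf_dpart, primOf_dpart]
    congr 1
    funext s
    by_cases hs : cl (cyc s) = m
    · rw [if_pos hs, if_pos hs]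
      rw [cl_cyc'] at hs
      rw [if_pos (by rw [hs]; exact per_dvd hm), if_pos hs, one_mul, Algebra.algebraMap_self,
        RingHom.id_apply, tsum]
      congr 2
      refine Multiset.map_congr rfl fun α _ => ?_
      rw [MonoidHom.pow_apply, hs, hq, ← pow_mul]
      congr 1
      exact red_mul hm
    · rw [if_neg hs, if_neg hs]
  have h2 := congrFun h1 C
  rw [dpart_of_eq hC, dpart_of_eq hC, Hall.smul_apply, smul_eq_mul] at h2
  exact h2

theorem isPrimChar_pow (hq : Nat.card K = 2) {m : ℕ} (hm : 1 ≤ m) {γ : AlgebraicClosure K}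
    {η : AlgebraicClosure K →* 𝕜} (hγ : IsPrimitiveRoot γ (NN m))
    (hη : IsPrimitiveRoot (η γ) (NN m)) (t : ℕ) : IsPrimChar (per m t) (η ^ red m t) := by
  intro j hj0 hj
  refine ⟨γ ^ (NN m / NN (per m t)), ?_, ?_⟩
  · rw [hq, ← bp_NN_succ (per m t), pow_succ, ← pow_mul, Nat.div_mul_cancel (NN_dvd (per_dvd hm)),
      hγ.pow_eq_one, one_mul]
  · rw [hq]
    intro h
    have e : ((η γ) ^ (NN m / NN (per m t))) ^ red m t = (η γ) ^ t := by
      rw [← pow_mul, mul_comm, red_mul hm]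
    rw [map_pow, MonoidHom.pow_apply, map_pow, e, bp_pow_iff hη hm] at h
    exact absurd (Nat.le_of_dvd hj0 h) (not_le.2 hj)

/-! ### Fourier inversion -/

section fourier

variable {N : ℕ} {ζ : 𝕜}

lemma bp_geom (hζ : IsPrimitiveRoot ζ N) {a b : ℕ} (ha : a < N) (hb : b < N) :
    ∑ t ∈ Finset.range N, (ζ⁻¹ ^ (t * b)) * ζ ^ (t * a) = if a = b then (N : 𝕜) else 0 := by
  have hN : N ≠ 0 := by omega
  have h0 : ζ ≠ 0 := hζ.ne_zero hN
  have h1 : ∀ t ∈ Finset.range N, (ζ⁻¹ ^ (t * b)) * ζ ^ (t * a) = ((ζ⁻¹) ^ b * ζ ^ a) ^ t := by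
    intro t _
    rw [mul_pow, ← pow_mul, ← pow_mul, mul_comm b t, mul_comm a t]
  rw [Finset.sum_congr rfl h1]
  split_ifs with hab
  · subst hab
    rw [inv_pow, inv_mul_cancel₀ (pow_ne_zero _ h0)]
    simp
  · have h2 : (ζ⁻¹) ^ b * ζ ^ a ≠ 1 := by
      intro h
      apply hab
      rw [inv_pow, inv_mul_eq_one₀ (pow_ne_zero _ h0)] at h
      exact (hζ.pow_inj hb ha h).symm
    have h3 := geom_sum_mul ((ζ⁻¹) ^ b * ζ ^ a) N
    have h4 : ((ζ⁻¹) ^ b * ζ ^ a) ^ N = 1 := by
      rw [mul_pow, ← pow_mul, ← pow_mul, mul_comm b N, mul_comm a N, pow_mul, pow_mul, inv_pow,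
        hζ.pow_eq_one, inv_one, one_pow, one_pow, one_mul]
    rw [h4, sub_self] at h3
    exact (mul_eq_zero.1 h3).resolve_right (sub_ne_zero.2 h2)

lemma bp_inversion (hζ : IsPrimitiveRoot ζ N) (v : ℕ → 𝕜) {a : ℕ} (ha : a < N) :
    ∑ t ∈ Finset.range N, ((N : 𝕜)⁻¹ * ∑ b ∈ Finset.range N, v b * ζ⁻¹ ^ (t * b)) * ζ ^ (t * a) =
      v a := by
  have hN : (N : 𝕜) ≠ 0 := by
    rw [Nat.cast_ne_zero]; omega
  have h1 : ∀ t ∈ Finset.range N,
      ((N : 𝕜)⁻¹ * ∑ b ∈ Finset.range N, v b * ζ⁻¹ ^ (t * b)) * ζ ^ (t * a) =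
      (N : 𝕜)⁻¹ * ∑ b ∈ Finset.range N, v b * (ζ⁻¹ ^ (t * b) * ζ ^ (t * a)) := by
    intro t _
    rw [mul_assoc, Finset.sum_mul]
    simp only [mul_assoc]
  rw [Finset.sum_congr rfl h1, ← Finset.mul_sum, Finset.sum_comm]
  have h2 : ∀ b ∈ Finset.range N,
      ∑ t ∈ Finset.range N, v b * (ζ⁻¹ ^ (t * b) * ζ ^ (t * a)) =
      if a = b then v b * (N : 𝕜) else 0 := by
    intro b hb
    rw [← Finset.mul_sum, bp_geom hζ ha (Finset.mem_range.1 hb)]
    split_ifs
    · rfl
    · rw [mul_zero]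
  rw [Finset.sum_congr rfl h2, Finset.sum_ite_eq, if_pos (Finset.mem_range.2 ha)]
  field_simp

/-- Doubling modulo an odd number. -/
lemma bp_double {N : ℕ} (hN : Nat.Coprime N 2) {M : Type} [AddCommMonoid M] (g : ℕ → M) :
    ∑ a ∈ Finset.range N, g ((2 * a) % N) = ∑ a ∈ Finset.range N, g a := by
  rcases Nat.eq_zero_or_pos N with h0 | h0
  · subst h0
    simp
  have hmaps : Set.MapsTo (fun a => (2 * a) % N) (Finset.range N) (Finset.range N) := by
    intro a _
    simp only [Finset.coe_range, Set.mem_Iio]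
    exact Nat.mod_lt _ h0
  have hinj : Set.InjOn (fun a => (2 * a) % N) (Finset.range N) := by
    intro a ha b hb h
    simp only [Finset.coe_range, Set.mem_Iio] at ha hb
    have h1 : 2 * a ≡ 2 * b [MOD N] := h
    have h2 : a ≡ b [MOD N] := Nat.ModEq.cancel_left_of_coprime hN h1
    exact Nat.ModEq.eq_of_lt_of_lt h2 ha hb
  have himg : (Finset.range N).image (fun a => (2 * a) % N) = Finset.range N := by
    apply Finset.eq_of_subset_of_card_le
    · exact Finset.image_subset_iff.2 hmaps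
    · rw [Finset.card_image_of_injOn hinj]
  conv_rhs => rw [← himg]
  rw [Finset.sum_image hinj]

end fourier

lemma bp_coprime {m : ℕ} (hm : 1 ≤ m) : Nat.Coprime (NN m) 2 := by
  rw [Nat.coprime_two_right]
  obtain ⟨k, rfl⟩ : ∃ k, m = k + 1 := ⟨m - 1, by omega⟩
  refine ⟨2 ^ k - 1, ?_⟩
  unfold NN
  have : 1 ≤ 2 ^ k := Nat.one_le_two_pow
  rw [pow_succ]
  omega

lemma bp_PIdx_eq {f g : PIdx K} {α : AlgebraicClosure K} (hf : aeval α f.f = 0)
    (hg : aeval α g.f = 0) : f = g := by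
  apply PIdx.ext
  rw [minpoly.eq_of_irreducible_of_monic f.irred hf f.monic,
    minpoly.eq_of_irreducible_of_monic g.irred hg g.monic]

/-- The functions `PT t` span the primitive functions of degree `m`. -/
theorem exists_coeff (hq : Nat.card K = 2) {m : ℕ} (hm : 1 ≤ m) {γ : AlgebraicClosure K}
    {η : AlgebraicClosure K →* 𝕜} (hγ : IsPrimitiveRoot γ (NN m))
    (hη : IsPrimitiveRoot (η γ) (NN m)) {ψ : Hall K 𝕜} (hψ : IsPrim ψ) :
    ∃ c : ℕ → 𝕜, (∀ t < NN m, c ((2 * t) % NN m) = c t) ∧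
      ∀ C, cl C = m → ψ C = ∑ t ∈ Finset.range (NN m), c t * PT m η t C := by
  set N := NN m with hN
  have hN0 : 0 < N := bp_NN_pos hm
  set ζ := η γ with hζ
  choose F hF1 hF2 hF3 using exists_cycle hq hm hγ
  let v : ℕ → 𝕜 := fun a => ψ ((F a).cyc (m / per m a)) / (per m a : 𝕜)
  have hperm : ∀ a, per m (a % N) = per m a := by
    intro a
    have key : ∀ d, per m (a % N) ∣ d ↔ per m a ∣ d := by
      intro d
      rw [← dvd_iff_per_dvd hm, ← dvd_iff_per_dvd hm, ← hN, Nat.dvd_iff_mod_eq_zero,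
        Nat.dvd_iff_mod_eq_zero, Nat.mod_mul_mod]
    exact Nat.dvd_antisymm ((key _).2 dvd_rfl) ((key _).1 dvd_rfl)
  have hγmod : ∀ a, γ ^ (a % N) = γ ^ a := by
    intro a
    conv_rhs => rw [← Nat.div_add_mod a N, pow_add, pow_mul, hγ.pow_eq_one, one_pow, one_mul]
  have hζmod : ∀ a, ζ⁻¹ ^ (a % N) = ζ⁻¹ ^ a := by
    intro a
    have h1 : ζ⁻¹ ^ N = 1 := by rw [inv_pow, hη.pow_eq_one, inv_one]
    conv_rhs => rw [← Nat.div_add_mod a N, pow_add, pow_mul, h1, one_pow, one_mul]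
  have hζmod' : ∀ a, ζ ^ (a % N) = ζ ^ a := by
    intro a
    conv_rhs => rw [← Nat.div_add_mod a N, pow_add, pow_mul, hη.pow_eq_one, one_pow, one_mul]
  have hvF : ∀ a b, per m a = per m b → F a = F b → v a = v b := by
    intro a b h1 h2
    show ψ ((F a).cyc (m / per m a)) / (per m a : 𝕜) = ψ ((F b).cyc (m / per m b)) / (per m b : 𝕜)
    rw [h1, h2]
  have hvmod : ∀ a, v (a % N) = v a := by
    intro a
    refine hvF _ _ (hperm a) (bp_PIdx_eq (hF2 (a % N)) ?_)
    rw [hγmod]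
    exact hF2 a
  have hper2 : ∀ a, per m (2 * a) = per m a := by
    intro a
    rw [← hperm (2 * a)]
    exact per_mul_two hm
  have hv2 : ∀ a, v (2 * a) = v a := by
    intro a
    refine hvF _ _ (hper2 a) (bp_PIdx_eq (hF2 (2 * a)) ?_)
    have h1 := aeval_algHom_apply (nkFrob K) (γ ^ a) (F a).f
    rw [hF2 a, map_zero, nkFrob_apply, hq, ← pow_mul, mul_comm a 2] at h1
    exact h1
  have hvj : ∀ a j, v (a * 2 ^ j) = v a := by
    intro a j
    induction j with
    | zero => rw [pow_zero, mul_one]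
    | succ j ih => rw [pow_succ', mul_left_comm, hv2, ih]
  let c : ℕ → 𝕜 := fun t => (N : 𝕜)⁻¹ * ∑ b ∈ Finset.range N, v b * ζ⁻¹ ^ (t * b)
  have hinv : ∀ a, ∑ t ∈ Finset.range N, c t * ζ ^ (t * a) = v a := by
    intro a
    rw [← hvmod a, ← bp_inversion hη v (Nat.mod_lt a hN0)]
    refine Finset.sum_congr rfl fun t _ => ?_
    congr 1
    rw [← hζmod' (t * a), ← hζmod' (t * (a % N)), Nat.mul_mod_mod]
  refine ⟨c, ?_, ?_⟩
  · intro t _
    show (N : 𝕜)⁻¹ * ∑ b ∈ Finset.range N, v b * ζ⁻¹ ^ ((2 * t) % N * b) =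
      (N : 𝕜)⁻¹ * ∑ b ∈ Finset.range N, v b * ζ⁻¹ ^ (t * b)
    congr 1
    rw [← bp_double (bp_coprime hm) (fun b => v b * ζ⁻¹ ^ (t * b)), ← hN]
    refine Finset.sum_congr rfl fun b _ => ?_
    show v b * ζ⁻¹ ^ ((2 * t) % N * b) = v ((2 * b) % N) * ζ⁻¹ ^ (t * ((2 * b) % N))
    rw [hvmod, hv2, ← hζmod ((2 * t) % N * b), ← hζmod (t * ((2 * b) % N)), Nat.mod_mul_mod,
      Nat.mul_mod_mod]
    congr 3
    ring
  · intro C hC
    have hprim : IsPrim (∑ t ∈ Finset.range N, c t • PT m η t) :=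
      IsPrim.sum fun t _ => (isPrim_primOf _).smul _
    have h1 : dpart m ψ = dpart m (∑ t ∈ Finset.range N, c t • PT m η t) := by
      refine (hψ.dpart m).ext (hprim.dpart m) fun s => ?_
      rw [dpart_apply, dpart_apply]
      split_ifs with hs
      · rw [cl_cyc'] at hs
        obtain ⟨a, ha, hr, hdeg, hsr, hrts⟩ := exists_exponent hq hm hγ s hs
        rw [Hall.sum_apply]
        have h2 : ∀ t ∈ Finset.range N, (c t • PT m η t) (cyc s) =
            ∑ j ∈ Finset.range (per m a), c t * ζ ^ (t * (a * 2 ^ j)) := by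
          intro t _
          rw [Hall.smul_apply, PT, primOf_cyc, if_pos hs, hrts, smul_eq_mul, Multiset.map_map,
            ← Finset.mul_sum]
          congr 1
          show (Multiset.map _ (Finset.range (per m a)).val).sum = _
          rw [← Finset.sum_eq_multiset_sum]
          refine Finset.sum_congr rfl fun j _ => ?_
          rw [Function.comp_apply, map_pow, ← pow_mul, mul_comm t]
        rw [Finset.sum_congr rfl h2, Finset.sum_comm]
        have h3 : ∀ j ∈ Finset.range (per m a),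
            ∑ t ∈ Finset.range N, c t * ζ ^ (t * (a * 2 ^ j)) = v a := by
          intro j _
          rw [hinv, hvj]
        rw [Finset.sum_congr rfl h3, Finset.sum_const, Finset.card_range, nsmul_eq_mul]
        have h4 : (per m a : 𝕜) ≠ 0 := by
          rw [Nat.cast_ne_zero]
          exact Nat.one_le_iff_ne_zero.1 (per_pos hm)
        show _ = (per m a : 𝕜) * (ψ ((F a).cyc (m / per m a)) / (per m a : 𝕜))
        rw [mul_div_cancel₀ _ h4, cyc_eq, hsr]
        have h5 : s.toP = F a := bp_PIdx_eq (α := γ ^ a) hr (hF2 a)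
        rw [h5]
      · rfl
    have h2 := congrFun h1 C
    rw [dpart_of_eq hC, dpart_of_eq hC, Hall.sum_apply] at h2
    rw [h2]
    exact Finset.sum_congr rfl fun t _ => by rw [Hall.smul_apply, smul_eq_mul]

end Pool.Agent.Lib.MP_02a407_al
end

section

/-!
# Algebraic integers with small conjugates
-/

namespace Pool.Agent.Lib.MP_02a407_al

private lemma prod_norm_lt_one (s : Multiset ℂ) (hs : ∀ z ∈ s, ‖z‖ < 1) :
    ‖s.prod‖ ≤ 1 ∧ (s ≠ 0 → ‖s.prod‖ < 1) := by
  induction s using Multiset.induction_on with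
  | empty => simp
  | cons z s ih =>
    have h1 := hs z (Multiset.mem_cons_self z s)
    have h2 := (ih fun w hw => hs w (Multiset.mem_cons_of_mem hw)).1
    have h3 : ‖(z ::ₘ s).prod‖ < 1 := by
      rw [Multiset.prod_cons, norm_mul]
      calc ‖z‖ * ‖s.prod‖ ≤ ‖z‖ * 1 := by gcongr
        _ < 1 := by rw [mul_one]; exact h1
    exact ⟨h3.le, fun _ => h3⟩

/-- A nonzero algebraic integer has a conjugate of absolute value at least `1`. -/
theorem exists_one_le_abs {c : AlgebraicClosure ℚ} (hc : IsIntegral ℤ c) (h0 : c ≠ 0) :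
    ∃ τ : AlgebraicClosure ℚ →+* ℂ, 1 ≤ ‖τ c‖ := by
  by_contra hcon
  push Not at hcon
  have hint : IsIntegral ℚ c := hc.tower_top
  have halg : Algebra.IsAlgebraic ℚ (AlgebraicClosure ℚ) := by
    have h := AlgebraicClosure.isAlgebraic ℚ
    have e : (DivisionRing.toRatAlgebra : Algebra ℚ (AlgebraicClosure ℚ)) =
      AlgebraicClosure.instAlgebra ℚ := Subsingleton.elim _ _
    rw [e]
    exact h
  have hp : minpoly ℚ c = (minpoly ℤ c).map (algebraMap ℤ ℚ) :=
    minpoly.isIntegrallyClosed_eq_field_fractions' ℚ hc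
  have hmon : (minpoly ℤ c).Monic := minpoly.monic hc
  set P : Polynomial ℂ := (minpoly ℤ c).map (algebraMap ℤ ℂ) with hP
  have hPQ : P = (minpoly ℚ c).map (algebraMap ℚ ℂ) := by
    rw [hp, Polynomial.map_map]
    rfl
  have hPm : P.Monic := hmon.map _
  have hcoef := (IsAlgClosed.splits P).coeff_zero_eq_prod_roots_of_monic hPm
  have hroots : ∀ z ∈ P.roots, ‖z‖ < 1 := by
    intro z hz
    have h1 : z ∈ (minpoly ℚ c).rootSet ℂ := by
      rw [Polynomial.mem_rootSet']
      rw [Polynomial.mem_roots'] at hz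
      rw [← hPQ]
      refine ⟨hz.1, ?_⟩
      have h2 := hz.2
      rw [hPQ, Polynomial.IsRoot.def, Polynomial.eval_map_algebraMap] at h2
      exact h2
    rw [← Algebra.IsAlgebraic.range_eval_eq_rootSet_minpoly ℂ c] at h1
    obtain ⟨ψ, hψ⟩ := h1
    have h3 := hcon (ψ : AlgebraicClosure ℚ →+* ℂ)
    rw [← hψ]
    exact h3
  have hne : P.roots ≠ 0 := by
    intro h
    have h1 := (IsAlgClosed.splits P).natDegree_eq_card_roots
    rw [h, Multiset.card_zero, hP, hmon.natDegree_map] at h1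
    exact (minpoly.natDegree_pos hc).ne' h1
  have h1 := (prod_norm_lt_one P.roots hroots).2 hne
  have h2 : ‖P.coeff 0‖ < 1 := by
    rw [hcoef, norm_mul, norm_pow, norm_neg, norm_one, one_pow, one_mul]
    exact h1
  have h3 : (minpoly ℤ c).coeff 0 ≠ 0 := by
    intro h
    apply minpoly.coeff_zero_ne_zero hint h0
    rw [hp, Polynomial.coeff_map, h, map_zero]
  rw [hP, Polynomial.coeff_map, eq_intCast, Complex.norm_intCast] at h2
  have h4 : (1 : ℝ) ≤ |((minpoly ℤ c).coeff 0 : ℝ)| := by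
    exact_mod_cast Int.one_le_abs h3
  linarith

/-- Algebraic integers, all of whose conjugates are real, with sum of squares `1`: one of them is
`1` or `-1` and the others are `0`. -/
theorem norm_one {n : ℕ} (c : Fin n → AlgebraicClosure ℚ) (hc : ∀ i, IsIntegral ℤ (c i))
    (hreal : ∀ (τ : AlgebraicClosure ℚ →+* ℂ) (i : Fin n), starRingEnd ℂ (τ (c i)) = τ (c i))
    (hsum : ∑ i, c i ^ 2 = 1) :
    ∃ i, (c i = 1 ∨ c i = -1) ∧ ∀ j, j ≠ i → c j = 0 := by
  obtain ⟨i, hi⟩ : ∃ i, c i ≠ 0 := by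
    by_contra h
    push Not at h
    rw [Finset.sum_eq_zero fun i _ => by rw [h i]; ring] at hsum
    exact zero_ne_one hsum
  obtain ⟨τ, hτ⟩ := exists_one_le_abs (hc i) hi
  have hre : ∀ j, τ (c j) = ((τ (c j)).re : ℂ) := fun j =>
    (Complex.conj_eq_iff_re.1 (hreal τ j)).symm
  have h1 : ∑ j, (τ (c j)).re ^ 2 = 1 := by
    have h2 := congrArg τ hsum
    rw [map_sum, map_one] at h2
    have h3 : ∀ j, τ (c j ^ 2) = (((τ (c j)).re ^ 2 : ℝ) : ℂ) := fun j => by
      rw [map_pow]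
      conv_lhs => rw [hre j]
      push_cast
      rfl
    rw [Finset.sum_congr rfl fun j _ => h3 j, ← Complex.ofReal_sum] at h2
    exact_mod_cast h2
  have h2 : 1 ≤ (τ (c i)).re ^ 2 := by
    rw [hre i, Complex.norm_real, Real.norm_eq_abs] at hτ
    rw [← sq_abs]
    exact one_le_pow₀ hτ
  rw [← Finset.add_sum_erase _ _ (Finset.mem_univ i)] at h1
  have h3 : ∀ j ∈ Finset.univ.erase i, 0 ≤ (τ (c j)).re ^ 2 := fun j _ => sq_nonneg _
  have h4 := Finset.sum_nonneg h3
  have h5 : ∑ j ∈ Finset.univ.erase i, (τ (c j)).re ^ 2 = 0 := by linarith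
  have h6 := (Finset.sum_eq_zero_iff_of_nonneg h3).1 h5
  refine ⟨i, ?_, fun j hj => ?_⟩
  · have h7 : (τ (c i)).re ^ 2 = 1 := by linarith
    have h8 : τ (c i ^ 2) = τ 1 := by
      rw [map_pow, map_one, hre i, ← Complex.ofReal_pow, h7, Complex.ofReal_one]
    exact sq_eq_one_iff.1 (τ.injective h8)
  · have h7 := h6 j (Finset.mem_erase.2 ⟨hj, Finset.mem_univ _⟩)
    have h8 : (τ (c j)).re = 0 := by simpa using h7
    apply τ.injective
    rw [map_zero, hre j, h8, Complex.ofReal_zero]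

end Pool.Agent.Lib.MP_02a407_al
end
end
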