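import Pool.Agent.Lib.MP_02a407_al.Basic
import Pool.Agent.Lib.MP_02a407_al.Q2.FGReg

section

/-!
# Types of elements of GL_infinity
-/

namespace Pool.Agent.Lib.MP_02a407_al

open Module

variable {K : Type} [Field K]

section General

variable {U : Type} [AddCommGroup U] [Module K U] {M : Type} [AddCommGroup M] [Module K M]

/-- embeddings of `(M, A)` onto the range of `g - 1`, intertwining `A` and `g` -/
def Emb (A : M ≃ₗ[K] M) (g : U ≃ₗ[K] U) : Set (M →ₗ[K] U) :=
  {α | Function.Injective α ∧ LinearMap.range α = LinearMap.range (D g) ∧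
    ∀ x, α (A x) = g (α x)}

/-- The type of `g` is `(M, A)`. -/
def HasType (A : M ≃ₗ[K] M) (g : U ≃ₗ[K] U) : Prop := (Emb A g).Nonempty

/-- the automorphism `1 + α b` -/
def mkAut (A : M ≃ₗ[K] M) (α : M →ₗ[K] U) (b : U →ₗ[K] M) (h : ∀ x, b (α x) = A x - x) :
    U ≃ₗ[K] U where
  toFun v := v + α (b v)
  map_add' x y := by simp only [map_add]; abel
  map_smul' c x := by simp only [map_smul, RingHom.id_apply, smul_add]
  invFun v := v - α (A.symm (b v))
  left_inv v := by
    have h1 : b (v + α (b v)) = A (b v) := by rw [map_add, h]; abel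
    simp only
    rw [h1, A.symm_apply_apply]; abel
  right_inv v := by
    have h1 : b (v - α (A.symm (b v))) = A.symm (b v) := by
      rw [map_sub, h, A.apply_symm_apply]; abel
    simp only
    rw [h1]; abel

@[simp] lemma mkAut_apply (A : M ≃ₗ[K] M) (α : M →ₗ[K] U) (b : U →ₗ[K] M)
    (h : ∀ x, b (α x) = A x - x) (v : U) : mkAut A α b h v = v + α (b v) := rfl

lemma D_mkAut (A : M ≃ₗ[K] M) (α : M →ₗ[K] U) (b : U →ₗ[K] M)
    (h : ∀ x, b (α x) = A x - x) : D (mkAut A α b h) = α ∘ₗ b := by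
  ext v
  simp [D_apply]

lemma mkAut_comp (A : M ≃ₗ[K] M) (α : M →ₗ[K] U) (b : U →ₗ[K] M)
    (h : ∀ x, b (α x) = A x - x) (x : M) : mkAut A α b h (α x) = α (A x) := by
  rw [mkAut_apply, h, ← map_add]; congr 1; abel

lemma mem_Emb_mkAut (A : M ≃ₗ[K] M) (α : M →ₗ[K] U) (b : U →ₗ[K] M)
    (h : ∀ x, b (α x) = A x - x) (hα : Function.Injective α) (hb : Function.Surjective b) :
    α ∈ Emb A (mkAut A α b h) := by
  refine ⟨hα, ?_, fun x => (mkAut_comp A α b h x).symm⟩
  rw [D_mkAut, LinearMap.range_comp, LinearMap.range_eq_top.2 hb, Submodule.map_top]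

/-- rank factorization -/
lemma exists_factor {A : M ≃ₗ[K] M} {g : U ≃ₗ[K] U} {α : M →ₗ[K] U} (hα : α ∈ Emb A g) :
    ∃ b : U →ₗ[K] M, Function.Surjective b ∧ (∀ v, α (b v) = D g v) ∧
      ∀ x, b (α x) = A x - x := by
  obtain ⟨h1, h2, h3⟩ := hα
  let e := LinearEquiv.ofInjective α h1
  let b : U →ₗ[K] M := e.symm.toLinearMap ∘ₗ
    (LinearMap.codRestrict (LinearMap.range α) (D g) (fun v => by rw [h2]; exact ⟨v, rfl⟩))
  have hb : ∀ v, α (b v) = D g v := by
    intro v
    have : (e (b v) : U) = D g v := by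
      simp only [b, LinearMap.comp_apply, LinearEquiv.coe_coe, LinearEquiv.apply_symm_apply]
      rfl
    rw [← this]; rfl
  refine ⟨b, ?_, hb, ?_⟩
  · intro x
    have : α x ∈ LinearMap.range (D g) := by rw [← h2]; exact ⟨x, rfl⟩
    obtain ⟨v, hv⟩ := this
    exact ⟨v, h1 (by rw [hb, hv])⟩
  · intro x
    apply h1
    rw [hb, D_apply, map_sub, h3]

/-- two surjections from spaces of the same dimension onto the same space -/
lemma exists_equiv_of_surjective {L L' Q : Type} [AddCommGroup L] [Module K L]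
    [AddCommGroup L'] [Module K L'] [AddCommGroup Q] [Module K Q]
    [FiniteDimensional K L] [FiniteDimensional K L']
    (f : L →ₗ[K] Q) (f' : L' →ₗ[K] Q) (hf : Function.Surjective f)
    (hf' : Function.Surjective f') (h : finrank K L = finrank K L') :
    ∃ e : L ≃ₗ[K] L', ∀ x, f' (e x) = f x := by
  obtain ⟨s, hs⟩ := f'.exists_rightInverse_of_surjective (LinearMap.range_eq_top.2 hf')
  obtain ⟨t, ht⟩ := f.exists_rightInverse_of_surjective (LinearMap.range_eq_top.2 hf)
  have hs' : ∀ q, f' (s q) = q := fun q => LinearMap.congr_fun hs q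
  have ht' : ∀ q, f (t q) = q := fun q => LinearMap.congr_fun ht q
  have hk : finrank K (LinearMap.ker f) = finrank K (LinearMap.ker f') := by
    have h1 := f.finrank_range_add_finrank_ker
    have h2 := f'.finrank_range_add_finrank_ker
    rw [LinearMap.range_eq_top.2 hf] at h1
    rw [LinearMap.range_eq_top.2 hf'] at h2
    omega
  let k := LinearEquiv.ofFinrankEq _ _ hk
  let p : L →ₗ[K] LinearMap.ker f := LinearMap.codRestrict _ (LinearMap.id - t ∘ₗ f) (by
    intro x
    simp [LinearMap.mem_ker, ht'])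
  have hp : ∀ x, (p x : L) = x - t (f x) := fun x => rfl
  let E : L →ₗ[K] L' := (LinearMap.ker f').subtype ∘ₗ k.toLinearMap ∘ₗ p + s ∘ₗ f
  have hE : ∀ x, E x = (k (p x) : L') + s (f x) := fun x => rfl
  have hE2 : ∀ x, f' (E x) = f x := by
    intro x
    rw [hE, map_add, hs', LinearMap.mem_ker.1 (k (p x)).2, zero_add]
  have hinj : Function.Injective E := by
    rw [← LinearMap.ker_eq_bot, LinearMap.ker_eq_bot']
    intro x hx
    have h1 : f x = 0 := by rw [← hE2, hx, map_zero]
    rw [hE, h1, map_zero, add_zero] at hx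
    have h2 : k (p x) = 0 := Subtype.ext hx
    rw [LinearEquiv.map_eq_zero_iff] at h2
    have h3 := hp x
    rw [h2, h1, map_zero, sub_zero] at h3
    exact h3.symm
  exact ⟨LinearEquiv.ofInjectiveOfFinrankEq E hinj h, fun x => by
    rw [← hE2 x]; rfl⟩

lemma conj_of_type [FiniteDimensional K U] {A : M ≃ₗ[K] M} {g g' : U ≃ₗ[K] U}
    (h : HasType A g) (h' : HasType A g') : ∃ e : U ≃ₗ[K] U, e * g = g' * e := by
  obtain ⟨α, hα⟩ := h
  obtain ⟨α', hα'⟩ := h'
  obtain ⟨b, hb1, hb2, hb3⟩ := exists_factor hα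
  obtain ⟨b', hb1', hb2', hb3'⟩ := exists_factor hα'
  obtain ⟨L, hL⟩ := Submodule.exists_isCompl (LinearMap.range α)
  obtain ⟨L', hL'⟩ := Submodule.exists_isCompl (LinearMap.range α')
  have : FiniteDimensional K M := FiniteDimensional.of_injective α hα.1
  let R : Submodule K M := LinearMap.range (D A)
  have hbR : ∀ x, b (α x) ∈ R := fun x => ⟨x, by rw [hb3]; rfl⟩
  have hbR' : ∀ x, b' (α' x) ∈ R := fun x => ⟨x, by rw [hb3']; rfl⟩
  let f : L →ₗ[K] M ⧸ R := R.mkQ ∘ₗ b ∘ₗ L.subtype
  let f' : L' →ₗ[K] M ⧸ R := R.mkQ ∘ₗ b' ∘ₗ L'.subtype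
  have hf : Function.Surjective f := by
    intro q
    obtain ⟨y, rfl⟩ := R.mkQ_surjective q
    obtain ⟨u, rfl⟩ := hb1 y
    have hu : u ∈ LinearMap.range α ⊔ L := by rw [hL.sup_eq_top]; trivial
    obtain ⟨_, ⟨x, rfl⟩, l, hl, rfl⟩ := Submodule.mem_sup.1 hu
    refine ⟨⟨l, hl⟩, ?_⟩
    change R.mkQ (b l) = R.mkQ (b (α x + l))
    have h0 : R.mkQ (b (α x)) = 0 := (Submodule.Quotient.mk_eq_zero R).2 (hbR x)
    rw [map_add, map_add, h0, zero_add]
  have hf' : Function.Surjective f' := by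
    intro q
    obtain ⟨y, rfl⟩ := R.mkQ_surjective q
    obtain ⟨u, rfl⟩ := hb1' y
    have hu : u ∈ LinearMap.range α' ⊔ L' := by rw [hL'.sup_eq_top]; trivial
    obtain ⟨_, ⟨x, rfl⟩, l, hl, rfl⟩ := Submodule.mem_sup.1 hu
    refine ⟨⟨l, hl⟩, ?_⟩
    change R.mkQ (b' l) = R.mkQ (b' (α' x + l))
    have h0 : R.mkQ (b' (α' x)) = 0 := (Submodule.Quotient.mk_eq_zero R).2 (hbR' x)
    rw [map_add, map_add, h0, zero_add]
  have hdim : finrank K L = finrank K L' := by
    have h1 := Submodule.finrank_add_eq_of_isCompl hL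
    have h2 := Submodule.finrank_add_eq_of_isCompl hL'
    have h3 := LinearMap.finrank_range_of_inj hα.1
    have h4 := LinearMap.finrank_range_of_inj hα'.1
    omega
  obtain ⟨lam, hlam⟩ := exists_equiv_of_surjective f f' hf hf' hdim
  -- the lift θ
  have hθ : ∃ θ : L →ₗ[K] M, ∀ l : L, D A (θ l) = b l - b' (lam l : U) := by
    have hmem : ∀ l : L, b l - b' (lam l : U) ∈ R := by
      intro l
      rw [← Submodule.Quotient.mk_eq_zero, Submodule.Quotient.mk_sub]
      have := hlam l
      change R.mkQ (b' (lam l : U)) = R.mkQ (b l) at this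
      rw [sub_eq_zero]
      exact this.symm
    obtain ⟨t, ht⟩ := (D A).rangeRestrict.exists_rightInverse_of_surjective
      (LinearMap.range_rangeRestrict _)
    refine ⟨t ∘ₗ (LinearMap.codRestrict R (b ∘ₗ L.subtype - b' ∘ₗ L'.subtype ∘ₗ
      lam.toLinearMap) hmem), fun l => ?_⟩
    have := LinearMap.congr_fun ht ((LinearMap.codRestrict R (b ∘ₗ L.subtype - b' ∘ₗ L'.subtype ∘ₗ
      lam.toLinearMap) hmem) l)
    have h2 := congrArg Subtype.val this
    exact h2
  obtain ⟨θ, hθ⟩ := hθ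
  let e1 : (M × L) ≃ₗ[K] U := ((LinearEquiv.ofInjective α hα.1).prodCongr
    (LinearEquiv.refl K L)).trans (Submodule.prodEquivOfIsCompl _ _ hL)
  let e2 : (M × L') ≃ₗ[K] U := ((LinearEquiv.ofInjective α' hα'.1).prodCongr
    (LinearEquiv.refl K L')).trans (Submodule.prodEquivOfIsCompl _ _ hL')
  have he1 : ∀ x l, e1 (x, l) = α x + l := fun x l => rfl
  have he2 : ∀ x l, e2 (x, l) = α' x + l := fun x l => rfl
  let s : (M × L) ≃ₗ[K] (M × L') :=
    { toFun := fun p => (p.1 + θ p.2, lam p.2)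
      map_add' := fun p q => by
        ext
        · simp only [Prod.fst_add, Prod.snd_add, map_add]; abel
        · simp only [Prod.snd_add, map_add]
      map_smul' := fun c p => by
        ext
        · simp only [Prod.smul_fst, Prod.smul_snd, map_smul, smul_add, RingHom.id_apply]
        · simp only [Prod.smul_snd, map_smul, RingHom.id_apply]
      invFun := fun p => (p.1 - θ (lam.symm p.2), lam.symm p.2)
      left_inv := fun p => by
        ext
        · simp only [LinearEquiv.symm_apply_apply]; abel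
        · simp only [LinearEquiv.symm_apply_apply]
      right_inv := fun p => by
        ext
        · simp only; abel
        · simp only [LinearEquiv.apply_symm_apply] }
  have hs : ∀ x l, s (x, l) = (x + θ l, lam l) := fun x l => rfl
  let e : U ≃ₗ[K] U := e1.symm.trans (s.trans e2)
  have he : ∀ (x : M) (l : L), e (α x + l) = α' (x + θ l) + lam l := by
    intro x l
    have : e (e1 (x, l)) = e2 (s (x, l)) := by
      simp only [e, LinearEquiv.trans_apply, LinearEquiv.symm_apply_apply]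
    rw [he1, hs, he2] at this
    exact this
  have hα0 : ∀ x, e (α x) = α' x := by
    intro x
    have := he x 0
    simpa using this
  have hbe : ∀ u, b' (e u) = b u := by
    intro u
    obtain ⟨⟨x, l⟩, rfl⟩ := e1.surjective u
    rw [he1, he, map_add b', hb3', map_add b, hb3]
    have := hθ l
    rw [D_apply] at this
    rw [map_add]
    have h5 : b (l : U) = A (θ l) - θ l + b' (lam l : U) := by rw [this]; abel
    rw [h5]; abel
  refine ⟨e, ?_⟩
  ext u
  rw [LinearEquiv.mul_apply, LinearEquiv.mul_apply]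
  have h1 : g u = u + α (b u) := by rw [hb2, D_apply]; abel
  have h2 : g' (e u) = e u + α' (b' (e u)) := by rw [hb2', D_apply]; abel
  rw [h1, h2, map_add, hα0, hbe]

end General

end Pool.Agent.Lib.MP_02a407_al
end

section

/-!
# The numerical part: the reduced linear system
-/

namespace Pool.Agent.Lib.MP_02a407_al

namespace Num

/-! ### compositions -/

lemma list_sum_flatMap {R α : Type} [AddCommMonoid R] (L : List α) (h : α → List R) :
    (L.flatMap h).sum = (L.map (fun a => (h a).sum)).sum := by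
  induction L with
  | nil => simp
  | cons a L ih => rw [List.flatMap_cons, List.sum_append, ih, List.map_cons, List.sum_cons]

lemma list_sum_range {R : Type} [AddCommMonoid R] (f : ℕ → R) (n : ℕ) :
    ((List.range n).map f).sum = ∑ i ∈ Finset.range n, f i := by
  induction n with
  | zero => simp
  | succ n ih => rw [List.range_succ, List.map_append, List.sum_append, ih, Finset.sum_range_succ]; simp

lemma comps_zero_zero : comps 0 0 = [[]] := by rw [comps]
lemma comps_zero_succ (k : ℕ) : comps 0 (k + 1) = [] := by rw [comps]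

lemma comps_succ_sum {R : Type} [AddCommMonoid R] (g k : ℕ) (f : List ℕ → R) :
    ((comps (g + 1) k).map f).sum =
      ∑ a ∈ Finset.range (k + 1), ((comps g (k - a)).map (fun l => f (a :: l))).sum := by
  rw [comps, List.map_flatMap, list_sum_flatMap, list_sum_range]
  refine Finset.sum_congr rfl fun a _ => ?_
  rw [List.map_map]
  rfl

lemma comps_spec {g : ℕ} : ∀ {k : ℕ} {l : List ℕ}, l ∈ comps g k → l.length = g ∧ l.sum = k := by
  induction g with
  | zero =>
    intro k l h
    rcases k with _ | k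
    · rw [comps_zero_zero, List.mem_singleton] at h
      subst h; simp
    · rw [comps_zero_succ] at h
      simp at h
  | succ g ih =>
    intro k l h
    rw [comps, List.mem_flatMap] at h
    obtain ⟨a, ha, h⟩ := h
    rw [List.mem_map] at h
    obtain ⟨l', hl', rfl⟩ := h
    rw [List.mem_range] at ha
    obtain ⟨h1, h2⟩ := ih hl'
    simp only [List.length_cons, List.sum_cons]
    omega

lemma supp_nil : supp [] = 0 := rfl

lemma supp_cons (a : ℕ) (l : List ℕ) : supp (a :: l) = (if a = 0 then 0 else 1) + supp l := by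
  unfold supp
  by_cases h : a = 0
  · subst h; simp
  · rw [List.filter_cons_of_pos (by simpa using h), List.length_cons, if_neg h]; omega

lemma wt_nil : wt [] = 0 := rfl
lemma wt_cons (a : ℕ) (l : List ℕ) : wt (a :: l) = a + 2 * wt l := rfl

lemma supp_le_sum (l : List ℕ) : supp l ≤ l.sum := by
  induction l with
  | nil => simp [supp_nil]
  | cons a l ih =>
    rw [supp_cons, List.sum_cons]
    split_ifs <;> omega

lemma supp_pos {l : List ℕ} (h : 0 < l.sum) : 0 < supp l := by
  induction l with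
  | nil => simp at h
  | cons a l ih =>
    rw [supp_cons]
    rw [List.sum_cons] at h
    split_ifs with ha
    · have := ih (by omega); omega
    · omega

lemma supp_comps_one {g : ℕ} {l : List ℕ} (h : l ∈ comps g 1) : supp l = 1 := by
  obtain ⟨-, h2⟩ := comps_spec h
  have h3 := supp_le_sum l
  have h4 := supp_pos (l := l) (by omega)
  omega

lemma comps_zero_sum {R : Type} [AddCommMonoid R] (g : ℕ) (f : List ℕ → R) :
    ((comps g 0).map f).sum = f (List.replicate g 0) := by
  induction g generalizing f with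
  | zero => rw [comps_zero_zero]; simp
  | succ g ih =>
    rw [comps_succ_sum, Finset.sum_range_one, Nat.sub_zero, ih]
    rfl

lemma supp_replicate (g : ℕ) : supp (List.replicate g 0) = 0 := by
  induction g with
  | zero => rfl
  | succ g ih => rw [List.replicate_succ, supp_cons, ih]; simp

lemma wt_replicate (g : ℕ) : wt (List.replicate g 0) = 0 := by
  induction g with
  | zero => rfl
  | succ g ih => rw [List.replicate_succ, wt_cons, ih]

lemma list_sum_zero {R α : Type} [AddCommMonoid R] {L : List α} {f : α → R}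
    (h : ∀ l ∈ L, f l = 0) : (L.map f).sum = 0 := by
  induction L with
  | nil => simp
  | cons a L ih =>
    rw [List.map_cons, List.sum_cons, h a (by simp), ih (fun l hl => h l (by simp [hl])), add_zero]

/-- The compositions with one nonzero part. -/
lemma comps_supp_one {R : Type} [AddCommMonoid R] (g : ℕ) {k : ℕ} (hk : 1 ≤ k) (f : ℕ → R) :
    ((comps g k).map (fun l => if supp l = 1 then f (wt l) else 0)).sum =
      ∑ j ∈ Finset.range g, f (k * 2 ^ j) := by
  induction g generalizing f with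
  | zero =>
    obtain ⟨k, rfl⟩ : ∃ k', k = k' + 1 := ⟨k - 1, by omega⟩
    rw [comps_zero_succ]; simp
  | succ g ih =>
    rw [comps_succ_sum, Finset.sum_range_succ', Finset.sum_range_succ', add_comm]
    congr 1
    · rw [Nat.sub_zero]
      have h := ih (fun w => f (2 * w))
      refine Eq.trans (congrArg List.sum (List.map_congr_left fun l _ => ?_)) (h.trans ?_)
      · rw [supp_cons, wt_cons, if_pos rfl, zero_add, zero_add]
      · refine Finset.sum_congr rfl fun j _ => ?_
        congr 1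
        ring
    · rw [Finset.sum_eq_single (k - 1)]
      · have : k - (k - 1 + 1) = 0 := by omega
        rw [this, comps_zero_sum, supp_cons, wt_cons, supp_replicate, wt_replicate,
          if_neg (Nat.succ_ne_zero _), add_zero, if_pos rfl]
        congr 1
        omega
      · intro a ha hne
        rw [Finset.mem_range] at ha
        refine list_sum_zero fun l hl => ?_
        obtain ⟨-, h2⟩ := comps_spec hl
        have h3 := supp_pos (l := l) (by omega)
        rw [supp_cons, if_neg (Nat.succ_ne_zero a), if_neg (by omega)]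
      · intro h
        exfalso; apply h; rw [Finset.mem_range]; omega

/-! ### the values -/

lemma pexp_lin (z X : ℂ) (n : ℕ) :
    pexp (fun i => (1 - X ^ i) * z ^ i) n = if n = 0 then 1 else (1 - X) * z ^ n := by
  have h1 : (fun i => (1 - X ^ i) * z ^ i) = fun i => z ^ i + -(X * z) ^ i := by
    funext i; rw [mul_pow]; ring
  have h2 : pexpS (fun i => (1 - X ^ i) * z ^ i) =
      (PowerSeries.mk fun n => z ^ n) * (1 - PowerSeries.C (X * z) * PowerSeries.X) := by
    rw [h1, pexpS_add, pexpS_pow, pexpS_neg_pow]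
  have h3 := congrArg (PowerSeries.coeff n) h2
  rw [pexpS, PowerSeries.coeff_mk] at h3
  rw [h3]
  rcases n with _ | n
  · simp
  · rw [mul_sub, mul_one, map_sub, mul_left_comm, PowerSeries.coeff_C_mul,
      PowerSeries.coeff_succ_mul_X, PowerSeries.coeff_mk, PowerSeries.coeff_mk,
      if_neg (Nat.succ_ne_zero n)]
    ring

lemma pexp_comps (ζ X : ℂ) (g : ℕ) : ∀ (k u : ℕ),
    pexp (fun i => (1 - X ^ i) * ∑ j ∈ Finset.range g, (ζ ^ (u * 2 ^ j)) ^ i) k =
      ((comps g k).map (fun l => (1 - X) ^ supp l * ζ ^ (u * wt l))).sum := by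
  induction g with
  | zero =>
    intro k u
    rcases k with _ | k
    · rw [comps_zero_zero, pexp_zero]; simp [supp_nil, wt_nil]
    · rw [comps_zero_succ]
      simp only [Finset.range_zero, Finset.sum_empty, mul_zero]
      rw [pexp_zero_fun (by omega)]
      simp
  | succ g ih =>
    intro k u
    have h1 : (fun i => (1 - X ^ i) * ∑ j ∈ Finset.range (g + 1), (ζ ^ (u * 2 ^ j)) ^ i) =
        fun i => (1 - X ^ i) * (ζ ^ u) ^ i +
          (1 - X ^ i) * ∑ j ∈ Finset.range g, (ζ ^ ((2 * u) * 2 ^ j)) ^ i := by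
      funext i
      rw [Finset.sum_range_succ', mul_add, add_comm]
      congr 2
      · simp
      · refine Finset.sum_congr rfl fun j _ => ?_
        congr 2
        ring
    rw [h1, pexp_add, comps_succ_sum, Finset.Nat.sum_antidiagonal_eq_sum_range_succ
      (fun a b => pexp (fun i => (1 - X ^ i) * (ζ ^ u) ^ i) a *
        pexp (fun i => (1 - X ^ i) * ∑ j ∈ Finset.range g, (ζ ^ ((2 * u) * 2 ^ j)) ^ i) b)]
    refine Finset.sum_congr rfl fun a _ => ?_
    rw [ih, pexp_lin, ← List.sum_map_mul_left]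
    refine congrArg List.sum (List.map_congr_left fun l _ => ?_)
    rw [supp_cons, wt_cons]
    split_ifs with h
    · subst h
      rw [zero_add, zero_add, one_mul]
      congr 2
      ring
    · rw [pow_add, pow_one, mul_add, pow_add, ← pow_mul]
      have : u * (2 * wt l) = 2 * u * wt l := by ring
      rw [this]
      ring

/-- The value `VV` as a sum over compositions. -/
theorem VV_eq {m t a : ℕ} (hm : 1 ≤ m) (ζ : ℂ) :
    VV m ζ t a = ((comps (Nat.gcd (per m t) (per m a)) (kk m (per m t) (per m a))).map (fun l =>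
      (1 - (XX m (per m t) (per m a) : ℂ)) ^ supp l *
        ζ ^ (red m t * red m a * (NN m / NN (Nat.gcd (per m t) (per m a))) * wt l))).sum := by
  rw [VV, pexp_comps]

/-! ### arithmetic -/

lemma NN_pos {m : ℕ} (hm : 1 ≤ m) : 0 < NN m := by
  rw [NN]
  have := Nat.one_lt_two_pow (n := m) (by omega)
  omega

lemma NN_add_one (m : ℕ) : NN m + 1 = 2 ^ m := by
  rw [NN]
  have := Nat.one_le_two_pow (n := m)
  omega

lemma dvd_pos_of {m d : ℕ} (hm : 1 ≤ m) (h : d ∣ m) : 1 ≤ d := Nat.pos_of_dvd_of_pos h hm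

lemma NN_cast (m : ℕ) : ((NN m : ℕ) : ℤ) = 2 ^ m - 1 := by
  have := NN_add_one m
  have h : ((NN m + 1 : ℕ) : ℤ) = ((2 ^ m : ℕ) : ℤ) := by rw [this]
  push_cast at h
  linarith

lemma two_pow_modEq (r : ℕ) : 2 ^ r ≡ 1 [MOD NN r] := by
  rw [← NN_add_one r]
  exact (Nat.modEq_iff_dvd' (by omega)).2 (by simp) |>.symm

lemma gcd_mul_kk {m d e : ℕ} (hm : 1 ≤ m) (hd : d ∣ m) (he : e ∣ m) :
    d * (e / Nat.gcd d e) * kk m d e = m := by
  have hd1 := dvd_pos_of hm hd
  have he1 := dvd_pos_of hm he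
  have hg : 0 < Nat.gcd d e := Nat.gcd_pos_of_pos_left _ hd1
  obtain ⟨c, hc⟩ := Nat.lcm_dvd hd he
  have h1 : Nat.gcd d e * Nat.lcm d e = d * e := Nat.gcd_mul_lcm d e
  have h2 : d * (e / Nat.gcd d e) = Nat.lcm d e := by
    rw [Nat.lcm, Nat.mul_div_assoc _ (Nat.gcd_dvd_right d e)]
  have h3 : kk m d e = c := by
    rw [kk]
    refine Nat.div_eq_of_eq_mul_left (by positivity) ?_
    rw [hc, ← h1]; ring
  rw [h2, h3]
  exact hc.symm

/-- The value of `kk` in terms of the quotients. -/
lemma div_gcd_mul_kk {m d e : ℕ} (hm : 1 ≤ m) (hd : d ∣ m) (he : e ∣ m) :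
    e / Nat.gcd d e * kk m d e = m / d := by
  have h := gcd_mul_kk hm hd he
  have hd1 := dvd_pos_of hm hd
  exact (Nat.div_eq_of_eq_mul_right hd1 (by rw [← mul_assoc]; exact h.symm)).symm

lemma kk_pos {m d e : ℕ} (hm : 1 ≤ m) (hd : d ∣ m) (he : e ∣ m) : 1 ≤ kk m d e := by
  have h := gcd_mul_kk hm hd he
  rcases Nat.eq_zero_or_pos (kk m d e) with h0 | h0
  · rw [h0] at h; omega
  · exact h0

lemma XX_pow_kk {m d e : ℕ} (hm : 1 ≤ m) (hd : d ∣ m) (he : e ∣ m) :
    XX m d e ^ kk m d e = (2 ^ m) ^ (m / d) := by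
  rw [XX, ← div_gcd_mul_kk hm hd he, ← pow_mul, ← pow_mul, mul_assoc]

/-- `co` vanishes for `k = 1`. -/
lemma co_of_kk_one {m d e : ℕ} (hm : 1 ≤ m) (hd : d ∣ m) (he : e ∣ m) (hk : kk m d e = 1)
    {l : List ℕ} (hl : l ∈ comps (Nat.gcd d e) (kk m d e)) : co m d e l = 0 := by
  rw [hk] at hl
  have he1 := dvd_pos_of hm he
  have hg : 0 < Nat.gcd d e := Nat.gcd_pos_of_pos_right _ he1
  have h1 : 1 ≤ e / Nat.gcd d e := Nat.div_pos (Nat.gcd_le_right _ he1) hg
  have h2 : (1 : ℚ) - (XX m d e : ℚ) ≠ 0 := by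
    have h3 : 1 < XX m d e := by
      rw [XX]; exact Nat.one_lt_two_pow (by positivity)
    have h4 : (1 : ℚ) < XX m d e := by exact_mod_cast h3
    linarith
  rw [co, hk, supp_comps_one hl]
  simp only [pow_one, div_self h2, if_true]
  push_cast
  ring

/-- Rows of elements of full period are zero. -/
theorem KK_of_per_eq {m a a₁ : ℕ} (hm : 1 ≤ m) (ha : per m a = m) : KK m a a₁ = 0 := by
  rw [KK]
  refine Finset.sum_eq_zero fun d hd => ?_
  have hd' : d ∣ m := Nat.dvd_of_mem_divisors (Finset.mem_of_mem_erase hd)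
  have hd1 := dvd_pos_of hm hd'
  refine list_sum_zero fun l hl => ?_
  rw [ha] at hl ⊢
  have hk : kk m d m = 1 := by
    rw [kk, Nat.gcd_eq_left hd', mul_comm]
    exact Nat.div_self (by positivity)
  rw [co_of_kk_one hm hd' dvd_rfl hk hl, zero_mul]

/-! ### congruences -/

/-- Multiplication by a unit permutes the residues. -/
lemma sum_mul_mod {R : Type} [AddCommMonoid R] {u n : ℕ} (h : Nat.Coprime u n) (f : ℕ → R) :
    ∑ i ∈ Finset.range n, f ((u * i) % n) = ∑ i ∈ Finset.range n, f i := by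
  have hinj : Set.InjOn (fun i => (u * i) % n) (Finset.range n : Set ℕ) := by
    intro i hi j hj hij
    simp only [Finset.coe_range, Set.mem_Iio] at hi hj
    have h1 : u * i ≡ u * j [MOD n] := hij
    have h2 := Nat.ModEq.cancel_left_of_coprime (by rwa [Nat.coprime_comm] at h) h1
    exact Nat.ModEq.eq_of_lt_of_lt h2 hi hj
  have himg : (Finset.range n).image (fun i => (u * i) % n) = Finset.range n := by
    refine Finset.eq_of_subset_of_card_le ?_ ?_
    · intro x hx
      rw [Finset.mem_image] at hx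
      obtain ⟨i, hi, rfl⟩ := hx
      rw [Finset.mem_range] at hi ⊢
      exact Nat.mod_lt _ (by omega)
    · rw [Finset.card_image_of_injOn hinj]
  conv_rhs => rw [← himg]
  rw [Finset.sum_image hinj]

lemma sum_range_mul_periodic {R : Type} [AddCommMonoid R] {p : ℕ} (f : ℕ → R)
    (hf : ∀ i, f (i + p) = f i) (k : ℕ) :
    ∑ i ∈ Finset.range (p * k), f i = k • ∑ i ∈ Finset.range p, f i := by
  induction k with
  | zero => simp
  | succ k ih =>
    rw [mul_add, mul_one, Finset.sum_range_add, ih, add_smul, one_smul]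
    congr 1
    refine Finset.sum_congr rfl fun i _ => ?_
    clear ih
    induction k with
    | zero => simp
    | succ k ih =>
      rw [← ih, ← hf (p * k + i)]
      congr 1
      ring

/-- `(2 ^ (a b) - 1) / (2 ^ a - 1)` as a geometric sum. -/
lemma NN_div_eq {m d : ℕ} (hm : 1 ≤ m) (hd : d ∣ m) :
    NN m / NN d = ∑ i ∈ Finset.range (m / d), 2 ^ (d * i) := by
  have hd1 := dvd_pos_of hm hd
  refine Nat.div_eq_of_eq_mul_left (NN_pos hd1) ?_
  have h1 : (∑ i ∈ Finset.range (m / d), ((2:ℤ) ^ d) ^ i) * ((2:ℤ) ^ d - 1) = (2 ^ d) ^ (m / d) - 1 :=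
    geom_sum_mul _ _
  have h2 : ((NN m : ℕ) : ℤ) =
      ((∑ i ∈ Finset.range (m / d), 2 ^ (d * i)) * NN d : ℕ) := by
    push_cast
    rw [NN_cast, NN_cast]
    simp only [pow_mul]
    rw [h1, ← pow_mul, Nat.mul_div_cancel' hd]
  exact_mod_cast h2

lemma NN_mul_div {m d : ℕ} (h : d ∣ m) : NN d * (NN m / NN d) = NN m :=
  Nat.mul_div_cancel' (NN_dvd h)

lemma div_mul_div {m d g : ℕ} (hm : 1 ≤ m) (hd : d ∣ m) (hg : g ∣ d) :
    (NN m / NN d) * (NN d / NN g) = NN m / NN g := by
  have hd1 := dvd_pos_of hm hd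
  have hg1 := dvd_pos_of hd1 hg
  symm
  refine Nat.div_eq_of_eq_mul_right (NN_pos hg1) ?_
  calc NN m = NN d * (NN m / NN d) := (NN_mul_div hd).symm
    _ = (NN g * (NN d / NN g)) * (NN m / NN d) := by rw [NN_mul_div hg]
    _ = _ := by ring

/-- `2 ^ e M_e = M_e` modulo `2 ^ m - 1`. -/
lemma pow_mul_M {m e : ℕ} (he : e ∣ m) (j : ℕ) :
    2 ^ (e * j) * (NN m / NN e) ≡ NN m / NN e [MOD NN m] := by
  induction j with
  | zero => simp only [mul_zero, pow_zero, one_mul]; rfl
  | succ j ih =>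
    have h1 : 2 ^ e * (NN m / NN e) ≡ NN m / NN e [MOD NN m] := by
      rw [← NN_add_one e, add_mul, one_mul, NN_mul_div he]
      simp [Nat.ModEq]
    calc 2 ^ (e * (j + 1)) * (NN m / NN e) = 2 ^ (e * j) * (2 ^ e * (NN m / NN e)) := by
          rw [mul_add, mul_one, pow_add]; ring
      _ ≡ 2 ^ (e * j) * (NN m / NN e) [MOD NN m] := Nat.ModEq.mul_left _ h1
      _ ≡ _ [MOD NN m] := ih

/-- `M_d M_e = k M_g` modulo `2 ^ m - 1`. -/
lemma M_mul_M {m d e : ℕ} (hm : 1 ≤ m) (hd : d ∣ m) (he : e ∣ m) :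
    (NN m / NN d) * (NN m / NN e) ≡ kk m d e * (NN m / NN (Nat.gcd d e)) [MOD NN m] := by
  have hd1 := dvd_pos_of hm hd
  have he1 := dvd_pos_of hm he
  set g := Nat.gcd d e with hgdef
  have hg : 0 < g := Nat.gcd_pos_of_pos_left _ hd1
  have hgd : g ∣ d := Nat.gcd_dvd_left d e
  have hge : g ∣ e := Nat.gcd_dvd_right d e
  obtain ⟨d', hd'⟩ := hgd
  obtain ⟨e', he'⟩ := id hge
  have hcop : Nat.Coprime d' e' := by
    have h1 : g * Nat.gcd d' e' = g * 1 := by
      rw [← Nat.gcd_mul_left, ← hd', ← he', mul_one]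
    exact Nat.eq_of_mul_eq_mul_left hg h1
  have heg : e / g = e' := by rw [he', Nat.mul_div_cancel_left _ hg]
  have hk := div_gcd_mul_kk hm hd he
  rw [← hgdef, heg] at hk
  rw [NN_div_eq hm hd, ← hk, Finset.sum_mul]
  have h1 : ∀ i, 2 ^ (d * i) * (NN m / NN e) ≡ 2 ^ (g * ((d' * i) % e')) * (NN m / NN e) [MOD NN m] := by
    intro i
    have h2 : d * i = g * ((d' * i) % e') + e * ((d' * i) / e') := by
      have := Nat.mod_add_div (d' * i) e'
      calc d * i = g * (d' * i) := by rw [hd']; ring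
        _ = g * ((d' * i) % e' + e' * ((d' * i) / e')) := by rw [this]
        _ = _ := by rw [he']; ring
    conv_lhs => rw [h2, pow_add, mul_assoc]
    exact Nat.ModEq.mul_left _ (pow_mul_M he _)
  have h3 : (∑ i ∈ Finset.range (e' * kk m d e), 2 ^ (d * i) * (NN m / NN e)) ≡
      ∑ i ∈ Finset.range (e' * kk m d e), 2 ^ (g * ((d' * i) % e')) * (NN m / NN e) [MOD NN m] :=
    Nat.ModEq.sum fun i _ => h1 i
  refine h3.trans ?_
  rw [sum_range_mul_periodic (p := e') (fun i => 2 ^ (g * ((d' * i) % e')) * (NN m / NN e)),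
    sum_mul_mod hcop (fun i => 2 ^ (g * i) * (NN m / NN e)), ← Finset.sum_mul, smul_eq_mul]
  · have h4 : ∑ i ∈ Finset.range e', 2 ^ (g * i) = NN e / NN g := by
      rw [NN_div_eq he1 hge, heg]
    rw [h4, mul_comm (NN e / NN g), div_mul_div hm he hge]
  · intro i
    show 2 ^ (g * ((d' * (i + e')) % e')) * (NN m / NN e) = _
    rw [mul_add, Nat.add_mul_mod_self_right]

/-- Sums over residue classes. -/
lemma sum_class {R : Type} [AddCommMonoid R] {M r N : ℕ} (hM : 0 < M) (hr : 0 < r) (hN : N = r * M)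
    (b : ℕ) (f : ℕ → R) (hf : ∀ i, f (i + N) = f i) :
    ∑ s ∈ Finset.range M, f (b + r * s) =
      ∑ a ∈ Finset.range N, if (a : ℤ) ≡ (b : ℤ) [ZMOD (r : ℤ)] then f a else 0 := by
  have hN0 : 0 < N := by rw [hN]; positivity
  have hf' : ∀ k i, f (i + N * k) = f i := by
    intro k
    induction k with
    | zero => intro i; simp
    | succ k ih => intro i; rw [mul_add, mul_one, ← add_assoc, hf, ih]
  have hmod : ∀ n, f n = f (n % N) := by
    intro n
    conv_lhs => rw [← Nat.mod_add_div n N]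
    exact hf' _ _
  rw [← Finset.sum_filter]
  refine Finset.sum_nbij (fun s => (b + r * s) % N) ?_ ?_ ?_ (fun s _ => hmod _)
  · intro s _
    rw [Finset.mem_filter, Finset.mem_range]
    refine ⟨Nat.mod_lt _ hN0, ?_⟩
    rw [Int.natCast_modEq_iff]
    have h1 : (b + r * s) % N ≡ b + r * s [MOD r] :=
      (Nat.mod_modEq _ N).of_dvd ⟨M, hN⟩
    refine h1.trans ?_
    simp [Nat.ModEq]
  · intro s hs s' hs' hss
    simp only [Finset.coe_range, Set.mem_Iio] at hs hs'
    have h1 : b + r * s ≡ b + r * s' [MOD N] := hss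
    have h2 : r * s ≡ r * s' [MOD (r * M)] := by rw [← hN]; exact Nat.ModEq.add_left_cancel' _ h1
    have h3 : s ≡ s' [MOD M] := Nat.ModEq.mul_left_cancel' (by omega) h2
    exact Nat.ModEq.eq_of_lt_of_lt h3 hs hs'
  · intro a ha
    simp only [Finset.coe_filter, Finset.mem_range, Set.mem_setOf_eq] at ha
    obtain ⟨ha1, ha2⟩ := ha
    obtain ⟨z, hz⟩ := ha2.symm.dvd
    have hM' : (0:ℤ) < M := by exact_mod_cast hM
    have h1 := Int.emod_nonneg z hM'.ne'
    have h2 := Int.emod_lt_of_pos z hM'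
    refine ⟨(z % M).toNat, ?_, ?_⟩
    · simp only [Finset.coe_range, Set.mem_Iio]
      omega
    · show (b + r * (z % M).toNat) % N = a
      have h3 : (b + r * (z % M).toNat) ≡ a [MOD N] := by
        rw [← Int.natCast_modEq_iff]
        push_cast
        rw [Int.toNat_of_nonneg h1]
        apply Int.modEq_of_dvd
        refine ⟨z / M, ?_⟩
        have h4 := Int.emod_add_mul_ediv z M
        have h5 : (a : ℤ) = b + r * z := by linarith
        rw [h5, hN]
        push_cast
        linear_combination (-(r:ℤ)) * h4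
      rw [h3, Nat.mod_eq_of_lt ha1]

/-! ### Fourier inversion -/

lemma geom_zero {w : ℂ} {n : ℕ} (h1 : w ≠ 1) (hn : w ^ n = 1) :
    ∑ i ∈ Finset.range n, w ^ i = 0 := by
  have h := geom_sum_mul w n
  rw [hn, sub_self] at h
  rcases mul_eq_zero.1 h with h | h
  · exact h
  · exact absurd (sub_eq_zero.1 h) h1

lemma pow_congr {ζ : ℂ} {N : ℕ} (hζ : ζ ^ N = 1) {a b : ℕ} (h : a ≡ b [MOD N]) : ζ ^ a = ζ ^ b := by
  have key : ∀ n, ζ ^ n = ζ ^ (n % N) := by
    intro n
    conv_lhs => rw [← Nat.mod_add_div n N, pow_add, pow_mul, hζ, one_pow, mul_one]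
  rw [key a, key b, h]

/-- The transform. -/
noncomputable def YY (m : ℕ) (ζ : ℂ) (ct : ℕ → ℂ) (a : ℕ) : ℂ :=
  m * ∑ t ∈ Finset.range (NN m), ct t * ζ ^ (t * a)

lemma YY_add {m : ℕ} {ζ : ℂ} (hζ : ζ ^ NN m = 1) (ct : ℕ → ℂ) (a : ℕ) :
    YY m ζ ct (a + NN m) = YY m ζ ct a := by
  rw [YY, YY]
  congr 1
  refine Finset.sum_congr rfl fun t _ => ?_
  congr 1
  refine pow_congr hζ ?_
  rw [mul_add]
  simp [Nat.ModEq]

lemma YY_inv {m : ℕ} {ζ : ℂ} (hζ : IsPrimitiveRoot ζ (NN m)) (ct : ℕ → ℂ) {t : ℕ} (ht : t < NN m) :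
    ∑ a ∈ Finset.range (NN m), YY m ζ ct a * (ζ⁻¹) ^ (t * a) = m * NN m * ct t := by
  have hζ0 : ζ ≠ 0 := hζ.ne_zero (by omega)
  have h1 : ∀ a, YY m ζ ct a * (ζ⁻¹) ^ (t * a) =
      ∑ s ∈ Finset.range (NN m), m * ct s * (ζ ^ s * (ζ⁻¹) ^ t) ^ a := by
    intro a
    rw [YY, mul_assoc, Finset.sum_mul, Finset.mul_sum]
    refine Finset.sum_congr rfl fun s _ => ?_
    rw [mul_pow, ← pow_mul, ← pow_mul]
    ring
  simp only [h1]
  rw [Finset.sum_comm, Finset.sum_eq_single t]
  · have h2 : ζ ^ t * (ζ⁻¹) ^ t = 1 := by rw [← mul_pow, mul_inv_cancel₀ hζ0, one_pow]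
    rw [h2]
    simp only [one_pow, mul_one, Finset.sum_const, Finset.card_range, nsmul_eq_mul]
    ring
  · intro s hs hst
    rw [Finset.mem_range] at hs
    rw [← Finset.mul_sum, geom_zero, mul_zero]
    · intro h3
      apply hst
      refine hζ.pow_inj hs ht ?_
      rw [inv_pow, mul_inv_eq_one₀ (pow_ne_zero _ hζ0)] at h3
      exact h3
    · rw [mul_pow, ← pow_mul, ← pow_mul, mul_comm s, mul_comm t, pow_mul, pow_mul, hζ.pow_eq_one,
        inv_pow, hζ.pow_eq_one]
      simp
  · intro h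
    exact absurd (Finset.mem_range.2 ht) h

/-- Sums over the multiples of `M_r`. -/
lemma YY_class {m : ℕ} (hm : 1 ≤ m) {ζ : ℂ} (hζ : IsPrimitiveRoot ζ (NN m)) (ct : ℕ → ℂ) {r : ℕ}
    (hr : r ∣ m) (b : ℕ) :
    ∑ t ∈ Finset.range (NN m), (if NN m ∣ t * NN r then ct t * ζ ^ (t * b) else 0) =
      (NN r : ℂ) / (m * NN m) * ∑ a ∈ Finset.range (NN m),
        if (a : ℤ) ≡ (b : ℤ) [ZMOD (NN r : ℤ)] then YY m ζ ct a else 0 := by
  have hr1 := dvd_pos_of hm hr
  have hN := NN_pos hm
  have hR := NN_pos hr1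
  have hM : 0 < NN m / NN r := Nat.div_pos (Nat.le_of_dvd hN (NN_dvd hr)) hR
  rw [← sum_class hM hR (NN_mul_div hr).symm b (YY m ζ ct) (YY_add hζ.pow_eq_one ct)]
  have h1 : ∀ s, YY m ζ ct (b + NN r * s) =
      ∑ t ∈ Finset.range (NN m), m * (ct t * ζ ^ (t * b)) * (ζ ^ (t * NN r)) ^ s := by
    intro s
    rw [YY, Finset.mul_sum]
    refine Finset.sum_congr rfl fun t _ => ?_
    rw [mul_add, pow_add, ← pow_mul]
    ring
  simp only [h1]
  rw [Finset.sum_comm, Finset.mul_sum]
  refine Finset.sum_congr rfl fun t _ => ?_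
  rw [← Finset.mul_sum]
  have hmC : (m : ℂ) ≠ 0 := by exact_mod_cast (by omega : m ≠ 0)
  have hNC : (NN m : ℂ) ≠ 0 := by exact_mod_cast hN.ne'
  have hRC : (NN r : ℂ) ≠ 0 := by exact_mod_cast hR.ne'
  split_ifs with h2
  · have h3 : ζ ^ (t * NN r) = 1 := (hζ.pow_eq_one_iff_dvd _).2 h2
    rw [h3]
    simp only [one_pow, Finset.sum_const, Finset.card_range, nsmul_eq_mul, mul_one]
    have h4 : (NN r : ℂ) * ((NN m / NN r : ℕ) : ℂ) = NN m := by exact_mod_cast NN_mul_div hr
    field_simp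
    linear_combination (-(ct t * ζ ^ (t * b))) * h4
  · rw [geom_zero, mul_zero, mul_zero]
    · intro h3
      exact h2 ((hζ.pow_eq_one_iff_dvd _).1 h3)
    · rw [← pow_mul, mul_assoc, NN_mul_div hr, mul_comm, pow_mul, hζ.pow_eq_one, one_pow]

/-- Moebius inversion of the indicator of `p = d`. -/
lemma moebius_ind {p d : ℕ} (hp : 1 ≤ p) (hd : 1 ≤ d) :
    ∑ r ∈ d.divisors, (ArithmeticFunction.moebius (d / r) : ℂ) * (if p ∣ r then 1 else 0) =
      if p = d then 1 else 0 := by
  have h1 : ∀ n > 0, (∑ i ∈ n.divisors, if p = i then (1:ℂ) else 0) = if p ∣ n then 1 else 0 := by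
    intro n hn
    rw [Finset.sum_ite_eq]
    simp [Nat.mem_divisors, hn.ne']
  have h2 := ArithmeticFunction.sum_eq_iff_sum_mul_moebius_eq.1 h1 d hd
  rw [Nat.sum_divisorsAntidiagonal'
    (fun a b => (ArithmeticFunction.moebius a : ℂ) * (if p ∣ b then (1:ℂ) else 0))] at h2
  exact h2

/-- Sums over the `t` of given period. -/
lemma YY_per {m : ℕ} (hm : 1 ≤ m) {ζ : ℂ} (hζ : IsPrimitiveRoot ζ (NN m)) (ct : ℕ → ℂ) {d : ℕ}
    (hd : d ∣ m) (b : ℕ) :
    ∑ t ∈ Finset.range (NN m), (if per m t = d then ct t * ζ ^ (t * b) else 0) =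
      ∑ a ∈ Finset.range (NN m), (∑ r ∈ d.divisors,
        if (a : ℤ) ≡ (b : ℤ) [ZMOD (NN r : ℤ)] then
          (ArithmeticFunction.moebius (d / r) : ℂ) * (NN r : ℂ) / (m * NN m : ℂ) else 0) *
            YY m ζ ct a := by
  have hd1 := dvd_pos_of hm hd
  have h1 : ∀ t, (if per m t = d then ct t * ζ ^ (t * b) else 0) =
      ∑ r ∈ d.divisors, (ArithmeticFunction.moebius (d / r) : ℂ) *
        (if NN m ∣ t * NN r then ct t * ζ ^ (t * b) else 0) := by
    intro t
    have h2 := moebius_ind (p := per m t) (d := d) (per_pos hm) hd1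
    calc (if per m t = d then ct t * ζ ^ (t * b) else 0)
        = (if per m t = d then 1 else 0) * (ct t * ζ ^ (t * b)) := by split_ifs <;> simp
      _ = _ := by
        rw [← h2, Finset.sum_mul]
        refine Finset.sum_congr rfl fun r _ => ?_
        rw [mul_assoc]
        congr 1
        simp only [dvd_iff_per_dvd hm]
        split_ifs <;> simp
  simp only [h1]
  rw [Finset.sum_comm]
  simp only [← Finset.mul_sum]
  simp only [Finset.sum_mul]
  rw [Finset.sum_comm]
  refine Finset.sum_congr rfl fun r hr => ?_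
  have hr' : r ∣ m := (Nat.dvd_of_mem_divisors hr).trans hd
  rw [YY_class hm hζ ct hr', Finset.mul_sum, Finset.mul_sum]
  refine Finset.sum_congr rfl fun a _ => ?_
  split_ifs
  · ring
  · simp

/-! ### the system -/

lemma sum_map_comm {ι α R : Type} [AddCommMonoid R] (L : List α) (S : Finset ι) (f : α → ι → R) :
    (L.map (fun l => ∑ i ∈ S, f l i)).sum = ∑ i ∈ S, (L.map (fun l => f l i)).sum := by
  induction L with
  | nil => simp
  | cons l L ih => simp only [List.map_cons, List.sum_cons, ih, Finset.sum_add_distrib]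

/-- `KK` in the complex numbers. -/
lemma KK_cast (m a a₁ : ℕ) : ((KK m a a₁ : ℚ) : ℂ) =
    ∑ d ∈ m.divisors.erase m, ((comps (Nat.gcd d (per m a)) (kk m d (per m a))).map (fun l =>
      (co m d (per m a) l : ℂ) * ∑ r ∈ d.divisors,
        if (a₁ : ℤ) ≡ (bb m d a l : ℤ) [ZMOD (NN r : ℤ)] then
          (ArithmeticFunction.moebius (d / r) : ℂ) * (NN r : ℂ) / (m * NN m : ℂ) else 0)).sum := by
  rw [KK, Rat.cast_sum]
  refine Finset.sum_congr rfl fun d _ => ?_
  have h1 : ∀ L : List ℚ, ((L.sum : ℚ) : ℂ) = (L.map (fun x : ℚ => (x : ℂ))).sum := by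
    intro L
    induction L with
    | nil => simp
    | cons x L ih => rw [List.sum_cons, Rat.cast_add, ih, List.map_cons, List.sum_cons]
  rw [h1, List.map_map]
  refine congrArg List.sum (List.map_congr_left fun l _ => ?_)
  simp only [Function.comp_apply, Rat.cast_mul, Rat.cast_sum]
  congr 1
  refine Finset.sum_congr rfl fun r _ => ?_
  split_ifs
  · push_cast
    rfl
  · simp

/-- The first part of the value of `φ_t` at `a`. -/
noncomputable def WW (m : ℕ) (ζ : ℂ) (t a : ℕ) : ℂ :=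
  ((comps (Nat.gcd (per m t) (per m a)) (kk m (per m t) (per m a))).map (fun l =>
    (co m (per m t) (per m a) l : ℂ) *
      ζ ^ (red m t * red m a * (NN m / NN (Nat.gcd (per m t) (per m a))) * wt l))).sum

lemma red_mul_red {m t a : ℕ} (hm : 1 ≤ m) :
    red m t * red m a * (NN m / NN (Nat.gcd (per m t) (per m a))) * kk m (per m t) (per m a) ≡
      t * a [MOD NN m] := by
  have h := M_mul_M hm (per_dvd (t := t) hm) (per_dvd (t := a) hm)
  have h2 := (Nat.ModEq.mul_left (red m t * red m a) h).symm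
  have e1 : red m t * red m a * ((NN m / NN (per m t)) * (NN m / NN (per m a))) = t * a := by
    calc _ = (red m t * (NN m / NN (per m t))) * (red m a * (NN m / NN (per m a))) := by ring
      _ = _ := by rw [red_mul hm, red_mul hm]
  rw [e1] at h2
  have e2 : red m t * red m a * (NN m / NN (Nat.gcd (per m t) (per m a))) *
      kk m (per m t) (per m a) = red m t * red m a *
        (kk m (per m t) (per m a) * (NN m / NN (Nat.gcd (per m t) (per m a)))) := by ring
  rw [e2]
  exact h2

lemma sum_doubling {m t a : ℕ} (hm : 1 ≤ m) {ζ : ℂ} (hζ : ζ ^ NN m = 1) :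
    ∑ j ∈ Finset.range m, ζ ^ (t * a * 2 ^ j) =
      (m / Nat.gcd (per m t) (per m a) : ℕ) *
        ∑ j ∈ Finset.range (Nat.gcd (per m t) (per m a)), ζ ^ (t * a * 2 ^ j) := by
  set g := Nat.gcd (per m t) (per m a) with hg
  have hgm : g ∣ m := (Nat.gcd_dvd_left _ _).trans (per_dvd hm)
  have hper : ∀ j, ζ ^ (t * a * 2 ^ (j + g)) = ζ ^ (t * a * 2 ^ j) := by
    intro j
    refine pow_congr hζ ?_
    have h1 := red_mul_red (m := m) (t := t) (a := a) hm
    rw [← hg] at h1
    have h2 : t * a * 2 ^ (j + g) ≡ red m t * red m a * (NN m / NN g) * kk m (per m t) (per m a) *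
        2 ^ (j + g) [MOD NN m] := Nat.ModEq.mul_right _ h1.symm
    have h3 : red m t * red m a * (NN m / NN g) * kk m (per m t) (per m a) * 2 ^ (j + g) =
        (red m t * red m a * kk m (per m t) (per m a) * 2 ^ j) * (2 ^ (g * 1) * (NN m / NN g)) := by
      rw [pow_add, mul_one]; ring
    rw [h3] at h2
    refine h2.trans ((Nat.ModEq.mul_left _ (pow_mul_M hgm 1)).trans ?_)
    have h4 : (red m t * red m a * kk m (per m t) (per m a) * 2 ^ j) * (NN m / NN g) =
        red m t * red m a * (NN m / NN g) * kk m (per m t) (per m a) * 2 ^ j := by ring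
    rw [h4]
    exact Nat.ModEq.mul_right _ h1
  have h := sum_range_mul_periodic (p := g) (fun j => ζ ^ (t * a * 2 ^ j)) hper (m / g)
  rw [Nat.mul_div_cancel' hgm, nsmul_eq_mul] at h
  exact h

/-- The equation of `t` and `a`. -/
lemma VV_scaled {m t a : ℕ} (hm : 1 ≤ m) {ζ : ℂ} (hζ : ζ ^ NN m = 1) (c : ℂ) :
    (m / per m a : ℂ) * (c * VV m ζ t a) =
      c * ((1 - ((2:ℂ) ^ m) ^ (m / per m t)) / (m / per m t : ℕ)) *
        (WW m ζ t a + ∑ j ∈ Finset.range m, ζ ^ (t * a * 2 ^ j)) := by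
  have hd : per m t ∣ m := per_dvd hm
  have he : per m a ∣ m := per_dvd hm
  have hred := red_mul_red (m := m) (t := t) (a := a) hm
  have hdbl := sum_doubling (t := t) (a := a) hm hζ
  have hVV := VV_eq (t := t) (a := a) hm ζ
  have hWW : WW m ζ t a = ((comps (Nat.gcd (per m t) (per m a)) (kk m (per m t) (per m a))).map
    (fun l => (co m (per m t) (per m a) l : ℂ) *
      ζ ^ (red m t * red m a * (NN m / NN (Nat.gcd (per m t) (per m a))) * wt l))).sum := rfl
  set d := per m t with hd_def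
  set e := per m a with he_def
  set g := Nat.gcd d e with hg_def
  set k := kk m d e with hk_def
  set u := red m t * red m a * (NN m / NN g) with hu_def
  have hd1 := dvd_pos_of hm hd
  have he1 := dvd_pos_of hm he
  have hg1 : 0 < g := Nat.gcd_pos_of_pos_left _ hd1
  have hk1 : 1 ≤ k := kk_pos hm hd he
  have hge : g ∣ e := Nat.gcd_dvd_right d e
  have hgm : g ∣ m := hge.trans he
  have hmd : e / g * k = m / d := div_gcd_mul_kk hm hd he
  have hX : XX m d e ^ k = (2 ^ m) ^ (m / d) := XX_pow_kk hm hd he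
  have hmd1 : 1 ≤ m / d := Nat.div_pos (Nat.le_of_dvd hm hd) hd1
  -- casts
  have hgC : (g : ℂ) ≠ 0 := by exact_mod_cast hg1.ne'
  have heC : (e : ℂ) ≠ 0 := by exact_mod_cast (by omega : e ≠ 0)
  have hkC : (k : ℂ) ≠ 0 := by exact_mod_cast (by omega : k ≠ 0)
  have hmC : (m : ℂ) ≠ 0 := by exact_mod_cast (by omega : m ≠ 0)
  have hXC : (XX m d e : ℂ) ^ k = ((2:ℂ) ^ m) ^ (m / d) := by exact_mod_cast hX
  have hne : 1 - ((2:ℂ) ^ m) ^ (m / d) ≠ 0 := by
    intro h0
    have h1 : ((2:ℂ) ^ m) ^ (m / d) = 1 := by linear_combination -h0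
    have h2 : ((2 ^ m) ^ (m / d) : ℕ) = 1 := by exact_mod_cast h1
    rw [← pow_mul] at h2
    have h3 : 1 < 2 ^ (m * (m / d)) := Nat.one_lt_two_pow (by positivity)
    omega
  -- the second sum
  have hsec : ∑ j ∈ Finset.range m, ζ ^ (t * a * 2 ^ j) =
      ((comps g k).map (fun l => (if supp l = 1 then (m : ℂ) / g else 0) * ζ ^ (u * wt l))).sum := by
    rw [hdbl, Nat.cast_div hgm hgC]
    have h1 : ∑ j ∈ Finset.range g, ζ ^ (t * a * 2 ^ j) =
        ∑ j ∈ Finset.range g, ζ ^ (u * (k * 2 ^ j)) := by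
      refine Finset.sum_congr rfl fun j _ => ?_
      refine pow_congr hζ ?_
      rw [← mul_assoc]
      exact Nat.ModEq.mul_right _ hred.symm
    rw [h1, ← comps_supp_one g hk1 (fun w => ζ ^ (u * w)), ← List.sum_map_mul_left]
    refine congrArg List.sum (List.map_congr_left fun l _ => ?_)
    split_ifs <;> simp
  have hsum : WW m ζ t a + ∑ j ∈ Finset.range m, ζ ^ (t * a * 2 ^ j) =
      (m * k / g : ℂ) / (1 - ((2:ℂ) ^ m) ^ (m / d)) * VV m ζ t a := by
    rw [hsec, hWW, hVV, ← List.sum_map_add, ← List.sum_map_mul_left]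
    refine congrArg List.sum (List.map_congr_left fun l _ => ?_)
    have hco : (co m d e l : ℂ) = (m * k : ℂ) / (g : ℂ) *
      ((1 - (XX m d e : ℂ)) ^ supp l / (1 - (XX m d e : ℂ) ^ k)) -
        if supp l = 1 then (m : ℂ) / (g : ℂ) else 0 := by
      rw [co, ← hk_def, ← hg_def]
      split_ifs <;> push_cast <;> rfl
    rw [hco, hXC]
    ring
  rw [hsum]
  have hmdC : ((m / d : ℕ) : ℂ) = e / g * k := by
    rw [← hmd]
    push_cast [Nat.cast_div hge hgC]
    rfl
  rw [hmdC]
  field_simp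

/-- `WW` vanishes at the `t` of full period. -/
lemma WW_of_per_eq {m t a : ℕ} (hm : 1 ≤ m) (ζ : ℂ) (ht : per m t = m) : WW m ζ t a = 0 := by
  refine list_sum_zero fun l hl => ?_
  rw [ht] at hl ⊢
  have he : per m a ∣ m := per_dvd hm
  have hk : kk m m (per m a) = 1 := by
    rw [kk, Nat.gcd_eq_right he]
    exact Nat.div_self (Nat.mul_pos hm (dvd_pos_of hm he))
  rw [co_of_kk_one hm dvd_rfl he hk hl, Rat.cast_zero, zero_mul]

/-- `WW` in terms of the base points. -/
lemma WW_eq {m t a d : ℕ} (hm : 1 ≤ m) (ζ : ℂ) (ht : per m t = d) : WW m ζ t a =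
    ((comps (Nat.gcd d (per m a)) (kk m d (per m a))).map (fun l =>
      (co m d (per m a) l : ℂ) * ζ ^ (t * bb m d a l))).sum := by
  subst ht
  refine congrArg List.sum (List.map_congr_left fun l _ => ?_)
  congr 2
  rw [bb]
  have h := div_mul_div hm (per_dvd (t := t) hm) (Nat.gcd_dvd_left (per m t) (per m a))
  have h2 := red_mul (t := t) hm
  calc red m t * red m a * (NN m / NN (Nat.gcd (per m t) (per m a))) * wt l
      = (red m t * (NN m / NN (per m t))) *
        (red m a * wt l * (NN (per m t) / NN (Nat.gcd (per m t) (per m a)))) := by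
        rw [← h]; ring
    _ = _ := by rw [h2]

/-- Invariance under doubling. -/
lemma sum_two_pow {m : ℕ} (hm : 1 ≤ m) {ζ : ℂ} (hζ : ζ ^ NN m = 1) {ct : ℕ → ℂ}
    (hct : ∀ t < NN m, ct ((2 * t) % NN m) = ct t) (a j : ℕ) :
    ∑ t ∈ Finset.range (NN m), ct t * ζ ^ (t * a * 2 ^ j) =
      ∑ t ∈ Finset.range (NN m), ct t * ζ ^ (t * a) := by
  induction j with
  | zero => simp
  | succ j ih =>
    rw [← ih]
    have hodd : Nat.Coprime 2 (NN m) := by
      rw [Nat.coprime_two_left, NN]
      refine Nat.Even.sub_odd (Nat.one_le_two_pow) ?_ odd_one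
      exact (Nat.even_pow.2 ⟨even_two, by omega⟩)
    rw [← sum_mul_mod hodd (fun t => ct t * ζ ^ (t * a * 2 ^ j))]
    refine Finset.sum_congr rfl fun t ht => ?_
    rw [hct t (Finset.mem_range.1 ht)]
    congr 1
    refine pow_congr hζ ?_
    have h1 : t * a * 2 ^ (j + 1) = (2 * t) * a * 2 ^ j := by rw [pow_succ]; ring
    rw [h1]
    exact Nat.ModEq.mul_right _ (Nat.ModEq.mul_right _ (Nat.mod_modEq _ _).symm)

/-- The reduced linear system. -/
theorem exists_reduced {m : ℕ} (hm : 1 ≤ m) {ζ : ℂ} (hζ : IsPrimitiveRoot ζ (NN m)) {c : ℕ → ℂ}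
    (hc : ∀ t < NN m, c ((2 * t) % NN m) = c t)
    (h : ∀ a < NN m, ∑ t ∈ Finset.range (NN m), c t * VV m ζ t a = 0) :
    ∃ y : ℕ → ℂ, (∀ a < NN m, y a = - ∑ a₁ ∈ Finset.range (NN m), (KK m a a₁ : ℂ) * y a₁) ∧
      ((∀ a < NN m, y a = 0) → ∀ t < NN m, c t = 0) := by
  have hmC : (m : ℂ) ≠ 0 := by exact_mod_cast (by omega : m ≠ 0)
  have hNC : (NN m : ℂ) ≠ 0 := by exact_mod_cast (NN_pos hm).ne'
  let ct : ℕ → ℂ := fun t => c t * ((1 - ((2:ℂ) ^ m) ^ (m / per m t)) / (m / per m t : ℕ))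
  have hct : ∀ t < NN m, ct ((2 * t) % NN m) = ct t := by
    intro t ht
    show c ((2 * t) % NN m) * _ = _
    rw [hc t ht, per_mul_two hm]
  refine ⟨YY m ζ ct, fun a ha => ?_, fun hy t ht => ?_⟩
  · -- sum of the equations
    have h1 : ∑ t ∈ Finset.range (NN m), (m / per m a : ℂ) * (c t * VV m ζ t a) = 0 := by
      rw [← Finset.mul_sum, h a ha, mul_zero]
    have h2 : ∑ t ∈ Finset.range (NN m), ct t * (WW m ζ t a +
        ∑ j ∈ Finset.range m, ζ ^ (t * a * 2 ^ j)) = 0 := by
      rw [← h1]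
      refine Finset.sum_congr rfl fun t _ => ?_
      rw [VV_scaled hm hζ.pow_eq_one]
    have h3 : ∑ t ∈ Finset.range (NN m), ct t * ∑ j ∈ Finset.range m, ζ ^ (t * a * 2 ^ j) =
        YY m ζ ct a := by
      simp only [Finset.mul_sum]
      rw [Finset.sum_comm]
      simp only [sum_two_pow hm hζ.pow_eq_one hct]
      rw [Finset.sum_const, Finset.card_range, nsmul_eq_mul, YY]
    simp only [mul_add, Finset.sum_add_distrib] at h2
    rw [h3] at h2
    have h4 : ∑ t ∈ Finset.range (NN m), ct t * WW m ζ t a =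
        ∑ a₁ ∈ Finset.range (NN m), (KK m a a₁ : ℂ) * YY m ζ ct a₁ := by
      have h5 : ∀ t ∈ Finset.range (NN m), ct t * WW m ζ t a =
          ∑ d ∈ m.divisors.erase m, if per m t = d then ct t * WW m ζ t a else 0 := by
        intro t _
        rw [Finset.sum_ite_eq]
        split_ifs with h6
        · rfl
        · have h7 : per m t = m := by
            by_contra h8
            exact h6 (Finset.mem_erase.2 ⟨h8, Nat.mem_divisors.2 ⟨per_dvd hm, by omega⟩⟩)
          rw [WW_of_per_eq hm ζ h7, mul_zero]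
      rw [Finset.sum_congr rfl h5, Finset.sum_comm]
      have h9 : ∀ a₁ ∈ Finset.range (NN m), (KK m a a₁ : ℂ) * YY m ζ ct a₁ =
          ∑ d ∈ m.divisors.erase m, ((comps (Nat.gcd d (per m a)) (kk m d (per m a))).map (fun l =>
            (co m d (per m a) l : ℂ) * ((∑ r ∈ d.divisors,
              if (a₁ : ℤ) ≡ (bb m d a l : ℤ) [ZMOD (NN r : ℤ)] then
                (ArithmeticFunction.moebius (d / r) : ℂ) * (NN r : ℂ) / (m * NN m : ℂ) else 0) *
                YY m ζ ct a₁))).sum := by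
        intro a₁ _
        rw [KK_cast, Finset.sum_mul]
        refine Finset.sum_congr rfl fun d _ => ?_
        rw [← List.sum_map_mul_right]
        refine congrArg List.sum (List.map_congr_left fun l _ => ?_)
        rw [mul_assoc]
      rw [Finset.sum_congr rfl h9,
        Finset.sum_comm (s := Finset.range (NN m)) (t := m.divisors.erase m)]
      refine Finset.sum_congr rfl fun d hd => ?_
      have hd' : d ∣ m := Nat.dvd_of_mem_divisors (Finset.mem_of_mem_erase hd)
      rw [← sum_map_comm]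
      simp only [← Finset.mul_sum]
      have h10 : ∀ l, ∑ a₁ ∈ Finset.range (NN m), ((∑ r ∈ d.divisors,
              if (a₁ : ℤ) ≡ (bb m d a l : ℤ) [ZMOD (NN r : ℤ)] then
                (ArithmeticFunction.moebius (d / r) : ℂ) * (NN r : ℂ) / (m * NN m : ℂ) else 0) *
                YY m ζ ct a₁) =
          ∑ t ∈ Finset.range (NN m), (if per m t = d then ct t * ζ ^ (t * bb m d a l) else 0) :=
        fun l => (YY_per hm hζ ct hd' (bb m d a l)).symm
      simp only [h10]
      simp only [Finset.mul_sum]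
      rw [sum_map_comm]
      refine Finset.sum_congr rfl fun t _ => ?_
      split_ifs with h11
      · rw [WW_eq hm ζ h11, ← List.sum_map_mul_left]
        refine congrArg List.sum (List.map_congr_left fun l _ => ?_)
        ring
      · symm
        exact list_sum_zero fun l _ => by rw [mul_zero]
    rw [h4] at h2
    linear_combination h2
  · have h1 := YY_inv hζ ct ht
    rw [Finset.sum_eq_zero (fun a ha => by rw [hy a (Finset.mem_range.1 ha), zero_mul])] at h1
    have h2 : ct t = 0 := by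
      rcases mul_eq_zero.1 h1.symm with h3 | h3
      · exact absurd h3 (mul_ne_zero hmC hNC)
      · exact h3
    have hd : per m t ∣ m := per_dvd hm
    have hd1 := dvd_pos_of hm hd
    have hmd1 : 1 ≤ m / per m t := Nat.div_pos (Nat.le_of_dvd hm hd) hd1
    have hne : 1 - ((2:ℂ) ^ m) ^ (m / per m t) ≠ 0 := by
      intro h0
      have h1 : ((2:ℂ) ^ m) ^ (m / per m t) = 1 := by linear_combination -h0
      have h2 : ((2 ^ m) ^ (m / per m t) : ℕ) = 1 := by exact_mod_cast h1
      rw [← pow_mul] at h2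
      have h3 : 1 < 2 ^ (m * (m / per m t)) := Nat.one_lt_two_pow (by positivity)
      omega
    have hne2 : ((m / per m t : ℕ) : ℂ) ≠ 0 := by exact_mod_cast (by omega : m / per m t ≠ 0)
    rcases mul_eq_zero.1 h2 with h3 | h3
    · exact h3
    · exact absurd h3 (div_ne_zero hne hne2)

end Num

end Pool.Agent.Lib.MP_02a407_al
end
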