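import Pool.Agent.Lib.MP_02a407_al.Q2.FGReg
import Pool.Agent.Lib.MP_02a407_al.Q2.NumB

section

/-!
# The numerical part: large `m`
-/

namespace Pool.Agent.Lib.MP_02a407_al

namespace Num

theorem numD_geo (n : ℕ) : ∑ i ∈ Finset.range (n + 1), 2 ^ i ≤ 2 ^ (n + 1) := by
  have h := Nat.geomSum_eq (le_refl 2) (n + 1)
  rw [h]
  simp

theorem numD_NN_le (m : ℕ) : NN m ≤ 2 ^ m := Nat.sub_le _ _

theorem numD_NN_pos {m : ℕ} (hm : 0 < m) : 0 < NN m := by
  have : 2 ^ 1 ≤ 2 ^ m := Nat.pow_le_pow_right (by norm_num) hm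
  unfold NN
  omega

/-- Sum over divisors `≥ j`. -/
theorem numD_sum_div {m j : ℕ} (hm : 0 < m) (hj : 0 < j) (D : Finset ℕ)
    (hD : ∀ ℓ ∈ D, ℓ ∣ m ∧ j ≤ ℓ) : ∑ ℓ ∈ D, 2 ^ (m / ℓ) ≤ 2 ^ (m / j + 1) := by
  have hinj : Set.InjOn (fun ℓ => m / ℓ) (D : Set ℕ) := by
    intro a ha b hb h
    have ha' := (hD a ha).1
    have hb' := (hD b hb).1
    have h1 : m / a = m / b := h
    have h2 := Nat.div_mul_cancel ha'
    have h3 := Nat.div_mul_cancel hb'
    rw [h1] at h2
    have h4 : 0 < m / b := Nat.div_pos (Nat.le_of_dvd hm hb') (Nat.pos_of_dvd_of_pos hb' hm)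
    exact Nat.eq_of_mul_eq_mul_left h4 (h2.trans h3.symm)
  rw [← Finset.sum_image (f := fun i => 2 ^ i) hinj]
  refine (Finset.sum_le_sum_of_subset ?_).trans (numD_geo (m / j))
  intro i hi
  obtain ⟨ℓ, hℓ, rfl⟩ := Finset.mem_image.1 hi
  rw [Finset.mem_range]
  have := Nat.div_le_div_left (hD ℓ hℓ).2 hj (a := m)
  omega

theorem numD_sum_NN {u : ℕ} (D : Finset ℕ) (hD : ∀ r ∈ D, r ≤ u) :
    ∑ r ∈ D, NN r ≤ 2 ^ (u + 1) := by
  calc ∑ r ∈ D, NN r ≤ ∑ r ∈ D, 2 ^ r := Finset.sum_le_sum fun r _ => numD_NN_le r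
    _ ≤ ∑ r ∈ Finset.range (u + 1), 2 ^ r := Finset.sum_le_sum_of_subset fun r hr => by
        rw [Finset.mem_range]
        have := hD r hr
        omega
    _ ≤ 2 ^ (u + 1) := numD_geo u

theorem numD_gcd_le {m ℓ x : ℕ} (hm : 0 < m) (hℓ : ℓ ∣ m) :
    Nat.gcd (NN (m / ℓ)) x ≤ 2 ^ (m / ℓ) := by
  have h4 : 0 < m / ℓ := Nat.div_pos (Nat.le_of_dvd hm hℓ) (Nat.pos_of_dvd_of_pos hℓ hm)
  exact (Nat.gcd_le_left _ (numD_NN_pos h4)).trans (numD_NN_le _)

theorem numD_Rr_le {m : ℕ} (hm : 0 < m) (r : ℕ) : Rr m r ≤ 2 ^ (m / 2 + 1) := by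
  unfold Rr
  refine (Finset.sum_le_sum fun ℓ hℓ => ?_).trans (numD_sum_div hm (by norm_num) m.primeFactors
    fun ℓ hℓ => ⟨Nat.dvd_of_mem_primeFactors hℓ, (Nat.prime_of_mem_primeFactors hℓ).two_le⟩)
  exact numD_gcd_le hm (Nat.dvd_of_mem_primeFactors hℓ)

/-- the inner sum -/
def SS (m d : ℕ) : ℕ := ∑ r ∈ d.divisors, NN r * Rr m r

theorem numD_SS_le {m : ℕ} (hm : 0 < m) (d : ℕ) : SS m d ≤ 2 ^ (d + 1) * 2 ^ (m / 2 + 1) := by
  unfold SS
  calc ∑ r ∈ d.divisors, NN r * Rr m r ≤ ∑ r ∈ d.divisors, NN r * 2 ^ (m / 2 + 1) :=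
        Finset.sum_le_sum fun r _ => Nat.mul_le_mul_left _ (numD_Rr_le hm r)
    _ = (∑ r ∈ d.divisors, NN r) * 2 ^ (m / 2 + 1) := (Finset.sum_mul _ _ _).symm
    _ ≤ 2 ^ (d + 1) * 2 ^ (m / 2 + 1) := Nat.mul_le_mul_right _
        (numD_sum_NN _ fun r hr => Nat.divisor_le hr)

/-- the case `m = 2 d` -/
theorem numD_SS_two {d : ℕ} (hd : 0 < d) : SS (2 * d) d ≤ 2 ^ (d + 2 * d / 3 + 3) := by
  have hm : 0 < 2 * d := by omega
  -- the divisor `d` itself
  have hNNm : NN (2 * d) / NN d = 2 ^ d + 1 := by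
    have h1 : NN (2 * d) = NN d * (2 ^ d + 1) := by
      unfold NN
      have h2 : 1 ≤ 2 ^ d := Nat.one_le_two_pow
      obtain ⟨c, hc⟩ := Nat.exists_eq_add_of_le h2
      rw [mul_comm 2 d, pow_mul, hc, Nat.add_sub_cancel_left]
      have : (1 + c) ^ 2 = 1 + c * (1 + c + 1) := by ring
      rw [this, Nat.add_sub_cancel_left]
    rw [h1, Nat.mul_div_cancel_left _ (numD_NN_pos hd)]
  have hgcd : Nat.gcd (NN d) (2 ^ d + 1) = 1 := by
    have h1 : Nat.gcd (NN d) (2 ^ d + 1) ∣ 2 := by
      have h2 := Nat.gcd_dvd_left (NN d) (2 ^ d + 1)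
      have h3 := Nat.gcd_dvd_right (NN d) (2 ^ d + 1)
      have h4 : 2 ^ d + 1 = NN d + 2 := by
        unfold NN
        have : 1 ≤ 2 ^ d := Nat.one_le_two_pow
        omega
      rw [h4] at h3 ⊢
      rw [h4] at h2
      exact (Nat.dvd_add_right h2).1 h3
    have h5 : ¬ (2 ∣ Nat.gcd (NN d) (2 ^ d + 1)) := by
      intro h
      have h6 := h.trans (Nat.gcd_dvd_right _ _)
      have h7 : 2 ∣ 2 ^ d := dvd_pow_self 2 hd.ne'
      have h8 := (Nat.dvd_add_right h7).1 h6
      omega
    rcases (Nat.dvd_prime Nat.prime_two).1 h1 with h | h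
    · exact h
    · rw [h] at h5
      exact absurd dvd_rfl h5
  have hRr : Rr (2 * d) d ≤ 2 ^ (2 * d / 3 + 2) := by
    unfold Rr
    have h2mem : 2 ∈ (2 * d).primeFactors := by
      rw [Nat.mem_primeFactors]
      exact ⟨Nat.prime_two, dvd_mul_right 2 d, by omega⟩
    rw [← Finset.add_sum_erase _ _ h2mem, hNNm, Nat.mul_div_cancel_left d (by norm_num), hgcd]
    have h3 : ∑ ℓ ∈ (2 * d).primeFactors.erase 2, Nat.gcd (NN (2 * d / ℓ)) (2 ^ d + 1) ≤
        2 ^ (2 * d / 3 + 1) := by
      refine (Finset.sum_le_sum fun ℓ hℓ => ?_).trans (numD_sum_div hm (by norm_num)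
        ((2 * d).primeFactors.erase 2) fun ℓ hℓ => ?_)
      · exact numD_gcd_le hm (Nat.dvd_of_mem_primeFactors (Finset.mem_of_mem_erase hℓ))
      · have h4 := Finset.mem_of_mem_erase hℓ
        have h5 := Finset.ne_of_mem_erase hℓ
        have h6 := (Nat.prime_of_mem_primeFactors h4).two_le
        exact ⟨Nat.dvd_of_mem_primeFactors h4, by omega⟩
    have h7 : 1 ≤ 2 ^ (2 * d / 3 + 1) := Nat.one_le_two_pow
    have h8 : 2 ^ (2 * d / 3 + 2) = 2 ^ (2 * d / 3 + 1) + 2 ^ (2 * d / 3 + 1) := by ring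
    omega
  have hdm : d ∈ d.divisors := Nat.mem_divisors_self d hd.ne'
  unfold SS
  rw [← Finset.add_sum_erase _ _ hdm]
  have h1 : NN d * Rr (2 * d) d ≤ 2 ^ (d + 2 * d / 3 + 2) := by
    calc NN d * Rr (2 * d) d ≤ 2 ^ d * 2 ^ (2 * d / 3 + 2) := Nat.mul_le_mul (numD_NN_le d) hRr
      _ = 2 ^ (d + 2 * d / 3 + 2) := by rw [← pow_add]; ring_nf
  have h2 : ∑ r ∈ d.divisors.erase d, NN r * Rr (2 * d) r ≤ 2 ^ (d + 2 * d / 3 + 2) := by
    calc ∑ r ∈ d.divisors.erase d, NN r * Rr (2 * d) r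
        ≤ ∑ r ∈ d.divisors.erase d, NN r * 2 ^ (2 * d / 2 + 1) :=
          Finset.sum_le_sum fun r _ => Nat.mul_le_mul_left _ (numD_Rr_le hm r)
      _ = (∑ r ∈ d.divisors.erase d, NN r) * 2 ^ (2 * d / 2 + 1) := (Finset.sum_mul _ _ _).symm
      _ ≤ 2 ^ (d / 2 + 1) * 2 ^ (2 * d / 2 + 1) := Nat.mul_le_mul_right _
          (numD_sum_NN _ fun r hr => by
            have h3 := Finset.ne_of_mem_erase hr
            have h4 := Nat.dvd_of_mem_divisors (Finset.mem_of_mem_erase hr)
            obtain ⟨c, hc⟩ := h4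
            have h5 : c ≠ 1 := by rintro rfl; omega
            have h6 : c ≠ 0 := by rintro rfl; omega
            have h7 : 2 ≤ c := by omega
            rw [Nat.le_div_iff_mul_le (by norm_num)]
            calc r * 2 ≤ r * c := Nat.mul_le_mul_left _ h7
              _ = d := hc.symm)
      _ = 2 ^ (d / 2 + 1 + (2 * d / 2 + 1)) := (pow_add _ _ _).symm
      _ ≤ 2 ^ (d + 2 * d / 3 + 2) := Nat.pow_le_pow_right (by norm_num) (by omega)
  have h3 : 2 ^ (d + 2 * d / 3 + 3) = 2 ^ (d + 2 * d / 3 + 2) + 2 ^ (d + 2 * d / 3 + 2) := by ring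
  omega

theorem numD_kk_le {m d e : ℕ} (hm : 0 < m) (hd : d ∣ m) (he : e ∣ m) : kk m d e ≤ m / d := by
  have hd0 : 0 < d := Nat.pos_of_dvd_of_pos hd hm
  have he0 : 0 < e := Nat.pos_of_dvd_of_pos he hm
  unfold kk
  have hg : 0 < Nat.gcd d e := Nat.gcd_pos_of_pos_left _ hd0
  rw [← Nat.gcd_mul_lcm d e, mul_comm m, Nat.mul_div_mul_left _ _ hg]
  exact Nat.div_le_div_left (Nat.le_of_dvd (Nat.lcm_pos hd0 he0) (Nat.dvd_lcm_left d e)) hd0

/-- the term of `d` -/
def TT' (m d e : ℕ) : ℕ :=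
  if kk m d e ≤ 1 then 0 else (2 + (Nat.gcd d e - 1).choose (kk m d e - 1)) * SS m d

theorem numD_pow1 {n : ℕ} (hn : 25 ≤ n) : 3 * n + 4 ≤ 2 ^ (n - 6) := by
  induction n, hn using Nat.le_induction with
  | base => norm_num
  | succ n hn ih =>
    have e1 : 2 ^ (n + 1 - 6) = 2 * 2 ^ (n - 6) := by
      rw [show n + 1 - 6 = (n - 6) + 1 by omega, pow_succ, mul_comm]
    rw [e1]
    omega

theorem numD_pow2 {n : ℕ} (hn : 25 ≤ n) : 2 + (2 * n + 1) ^ 2 ≤ 2 ^ (n - 5) := by
  induction n, hn using Nat.le_induction with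
  | base => norm_num
  | succ n hn ih =>
    have e1 : 2 ^ (n + 1 - 5) = 2 * 2 ^ (n - 5) := by
      rw [show n + 1 - 5 = (n - 5) + 1 by omega, pow_succ, mul_comm]
    rw [e1]
    nlinarith

theorem numD_pow3 {n : ℕ} (hn : 38 ≤ n) : 2 + n ^ 3 ≤ 2 ^ (n - 5) := by
  induction n, hn using Nat.le_induction with
  | base => norm_num
  | succ n hn ih =>
    have e1 : 2 ^ (n + 1 - 5) = 2 * 2 ^ (n - 5) := by
      rw [show n + 1 - 5 = (n - 5) + 1 by omega, pow_succ, mul_comm]
    rw [e1]
    have : (n + 1) ^ 3 ≤ 2 * n ^ 3 := by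
      have h1 : (n + 1) ^ 3 = n ^ 3 + (3 * n ^ 2 + 3 * n + 1) := by ring
      have h2 : 3 * n ^ 2 + 3 * n + 1 ≤ n ^ 3 := by
        have h3 : n ^ 3 = n * n ^ 2 := by ring
        rw [h3]
        nlinarith
      omega
    omega

theorem numD_big {m d e : ℕ} (hm : 150 ≤ m) (hd : d ∣ m) (he : e ∣ m) (hd' : d < m)
    (h5 : ¬ 5 * d ≤ m) : TT' m d e ≤ 2 ^ (m - 3) := by
  have hm0 : 0 < m := by omega
  have hd0 : 0 < d := Nat.pos_of_dvd_of_pos hd hm0
  have hk := numD_kk_le hm0 hd he
  unfold TT'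
  split_ifs with hk1
  · exact Nat.zero_le _
  have hg : Nat.gcd d e ≤ d := Nat.gcd_le_left _ hd0
  obtain ⟨j, rfl⟩ := hd
  rw [Nat.mul_div_cancel_left _ hd0] at hk
  have hj5 : j < 5 := by
    by_contra h
    apply h5
    calc 5 * d = d * 5 := mul_comm _ _
      _ ≤ d * j := Nat.mul_le_mul_left _ (by omega)
  have hj2 : 2 ≤ j := by
    by_contra h
    have : j ≤ 1 := by omega
    have h1 : d * j ≤ d * 1 := Nat.mul_le_mul_left _ this
    omega
  have hSS := numD_SS_le hm0 d
  -- the binomial coefficient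
  have hch : ∀ i, 1 ≤ i → kk (d * j) d e - 1 ≤ i →
      (Nat.gcd d e - 1).choose (kk (d * j) d e - 1) ≤ d ^ i := by
    intro i hi h
    refine (Nat.choose_le_pow _ _).trans ?_
    calc (Nat.gcd d e - 1) ^ (kk (d * j) d e - 1) ≤ d ^ (kk (d * j) d e - 1) :=
          Nat.pow_le_pow_left (by omega) _
      _ ≤ d ^ i := Nat.pow_le_pow_right hd0 h
  have hj : j = 2 ∨ j = 3 ∨ j = 4 := by omega
  rcases hj with rfl | rfl | rfl
  · -- m = 2 d
    have hS2 := numD_SS_two hd0
    rw [mul_comm 2 d] at hS2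
    have hc := hch 1 le_rfl (by omega)
    rw [pow_one] at hc
    calc (2 + (Nat.gcd d e - 1).choose (kk (d * 2) d e - 1)) * SS (d * 2) d
        ≤ (2 + d) * 2 ^ (d + d * 2 / 3 + 3) := Nat.mul_le_mul (by omega) hS2
      _ ≤ 2 ^ (d / 3 - 6) * 2 ^ (d + d * 2 / 3 + 3) := by
          refine Nat.mul_le_mul_right _ ?_
          have := numD_pow1 (n := d / 3) (by omega)
          omega
      _ = 2 ^ (d / 3 - 6 + (d + d * 2 / 3 + 3)) := (pow_add _ _ _).symm
      _ ≤ 2 ^ (d * 2 - 3) := Nat.pow_le_pow_right (by norm_num) (by omega)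
  · -- m = 3 d
    have hc := hch 2 (by norm_num) (by omega)
    calc (2 + (Nat.gcd d e - 1).choose (kk (d * 3) d e - 1)) * SS (d * 3) d
        ≤ (2 + d ^ 2) * (2 ^ (d + 1) * 2 ^ (d * 3 / 2 + 1)) := Nat.mul_le_mul (by omega) hSS
      _ ≤ 2 ^ (d / 2 - 5) * (2 ^ (d + 1) * 2 ^ (d * 3 / 2 + 1)) := by
          refine Nat.mul_le_mul_right _ ?_
          have h1 := numD_pow2 (n := d / 2) (by omega)
          have h2 : d ^ 2 ≤ (2 * (d / 2) + 1) ^ 2 := Nat.pow_le_pow_left (by omega) 2
          omega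
      _ = 2 ^ (d / 2 - 5 + ((d + 1) + (d * 3 / 2 + 1))) := by rw [← pow_add, ← pow_add]
      _ ≤ 2 ^ (d * 3 - 3) := Nat.pow_le_pow_right (by norm_num) (by omega)
  · -- m = 4 d
    have hc := hch 3 (by norm_num) (by omega)
    calc (2 + (Nat.gcd d e - 1).choose (kk (d * 4) d e - 1)) * SS (d * 4) d
        ≤ (2 + d ^ 3) * (2 ^ (d + 1) * 2 ^ (d * 4 / 2 + 1)) := Nat.mul_le_mul (by omega) hSS
      _ ≤ 2 ^ (d - 5) * (2 ^ (d + 1) * 2 ^ (d * 4 / 2 + 1)) := by
          refine Nat.mul_le_mul_right _ ?_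
          exact numD_pow3 (n := d) (by omega)
      _ = 2 ^ (d - 5 + ((d + 1) + (d * 4 / 2 + 1))) := by rw [← pow_add, ← pow_add]
      _ ≤ 2 ^ (d * 4 - 3) := Nat.pow_le_pow_right (by norm_num) (by omega)

theorem numD_small {m d e : ℕ} (hm : 0 < m) (hd0 : 0 < d) :
    TT' m d e ≤ 4 ^ d * 2 ^ (m / 2 + 3) := by
  unfold TT'
  split_ifs with hk1
  · exact Nat.zero_le _
  have hg : Nat.gcd d e ≤ d := Nat.gcd_le_left _ hd0
  have h1 : (Nat.gcd d e - 1).choose (kk m d e - 1) ≤ 2 ^ (d - 1) :=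
    (Nat.choose_le_two_pow _ _).trans (Nat.pow_le_pow_right (by norm_num) (by omega))
  have h2 : 2 + 2 ^ (d - 1) ≤ 2 ^ (d + 1) := by
    obtain ⟨c, rfl⟩ : ∃ c, d = c + 1 := ⟨d - 1, by omega⟩
    rw [Nat.add_sub_cancel]
    have h3 : 1 ≤ 2 ^ c := Nat.one_le_two_pow
    have h4 : 2 ^ (c + 1 + 1) = 4 * 2 ^ c := by ring
    omega
  calc (2 + (Nat.gcd d e - 1).choose (kk m d e - 1)) * SS m d
      ≤ 2 ^ (d + 1) * (2 ^ (d + 1) * 2 ^ (m / 2 + 1)) :=
        Nat.mul_le_mul (by omega) (numD_SS_le hm d)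
    _ = 4 ^ d * 2 ^ (m / 2 + 3) := by
        rw [show (4:ℕ) = 2 ^ 2 by norm_num, ← pow_mul, ← pow_add, ← pow_add, ← pow_add]
        congr 1
        ring

theorem rho_lt_of_large {m e : ℕ} (hm : 150 ≤ m) (he : e ∣ m) (he' : e < m) :
    rho m e < NN m := by
  have hm0 : 0 < m := by omega
  have hrho : rho m e = ∑ d ∈ m.divisors.erase m, TT' m d e := rfl
  rw [hrho, ← Finset.sum_filter_add_sum_filter_not (m.divisors.erase m) (fun d => 5 * d ≤ m)]
  have hA : ∑ d ∈ (m.divisors.erase m).filter (fun d => 5 * d ≤ m), TT' m d e ≤ 2 ^ (m - 3) := by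
    calc ∑ d ∈ (m.divisors.erase m).filter (fun d => 5 * d ≤ m), TT' m d e
        ≤ ∑ d ∈ (m.divisors.erase m).filter (fun d => 5 * d ≤ m), 4 ^ d * 2 ^ (m / 2 + 3) :=
          Finset.sum_le_sum fun d hd => by
            have h1 := Finset.mem_of_mem_erase (Finset.mem_filter.1 hd).1
            exact numD_small hm0 (Nat.pos_of_mem_divisors h1)
      _ = (∑ d ∈ (m.divisors.erase m).filter (fun d => 5 * d ≤ m), 4 ^ d) * 2 ^ (m / 2 + 3) :=
          (Finset.sum_mul _ _ _).symm
      _ ≤ (∑ d ∈ Finset.range (m / 5 + 1), 4 ^ d) * 2 ^ (m / 2 + 3) := by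
          refine Nat.mul_le_mul_right _ (Finset.sum_le_sum_of_subset fun d hd => ?_)
          have h1 := (Finset.mem_filter.1 hd).2
          rw [Finset.mem_range]
          omega
      _ ≤ 4 ^ (m / 5 + 1) * 2 ^ (m / 2 + 3) := by
          refine Nat.mul_le_mul_right _ ?_
          rw [Nat.geomSum_eq (by norm_num : 2 ≤ 4)]
          exact (Nat.div_le_self _ _).trans (Nat.sub_le _ _)
      _ = 2 ^ (2 * (m / 5 + 1) + (m / 2 + 3)) := by
          rw [show (4:ℕ) = 2 ^ 2 by norm_num, ← pow_mul, ← pow_add]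
      _ ≤ 2 ^ (m - 3) := Nat.pow_le_pow_right (by norm_num) (by omega)
  have hB : ∑ d ∈ (m.divisors.erase m).filter (fun d => ¬ 5 * d ≤ m), TT' m d e ≤
      3 * 2 ^ (m - 3) := by
    have hcard : ((m.divisors.erase m).filter (fun d => ¬ 5 * d ≤ m)).card ≤ 3 := by
      have hsub : (m.divisors.erase m).filter (fun d => ¬ 5 * d ≤ m) ⊆ {m / 2, m / 3, m / 4} := by
        intro d hd
        rw [Finset.mem_filter] at hd
        have h1 := Finset.mem_of_mem_erase hd.1
        have h2 := Finset.ne_of_mem_erase hd.1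
        have h3 := Nat.dvd_of_mem_divisors h1
        have hd0 : 0 < d := Nat.pos_of_mem_divisors h1
        obtain ⟨j, hj⟩ := h3
        have hj5 : j < 5 := by
          by_contra h
          apply hd.2
          rw [hj]
          calc 5 * d = d * 5 := mul_comm _ _
            _ ≤ d * j := Nat.mul_le_mul_left _ (by omega)
        have hj0 : j ≠ 0 := by rintro rfl; omega
        have hj1 : j ≠ 1 := by rintro rfl; omega
        have hj' : j = 2 ∨ j = 3 ∨ j = 4 := by omega
        simp only [Finset.mem_insert, Finset.mem_singleton]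
        rcases hj' with rfl | rfl | rfl
        · left; omega
        · right; left; omega
        · right; right; omega
      refine (Finset.card_le_card hsub).trans ?_
      exact Finset.card_le_three
    calc ∑ d ∈ (m.divisors.erase m).filter (fun d => ¬ 5 * d ≤ m), TT' m d e
        ≤ ((m.divisors.erase m).filter (fun d => ¬ 5 * d ≤ m)).card • 2 ^ (m - 3) := by
          refine Finset.sum_le_card_nsmul _ _ _ fun d hd => ?_
          rw [Finset.mem_filter] at hd
          have h1 := Finset.mem_of_mem_erase hd.1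
          have h2 := Finset.ne_of_mem_erase hd.1
          exact numD_big hm (Nat.dvd_of_mem_divisors h1) he
            (lt_of_le_of_ne (Nat.divisor_le h1) h2) hd.2
      _ ≤ 3 * 2 ^ (m - 3) := Nat.mul_le_mul_right _ hcard
  have hfin : 2 ^ (m - 3) + 3 * 2 ^ (m - 3) < NN m := by
    have h1 : 2 ^ m = 2 ^ (m - 3) * 8 := by
      rw [show (8:ℕ) = 2 ^ 3 by norm_num, ← pow_add]
      congr 1
      omega
    have h2 : 1 ≤ 2 ^ (m - 3) := Nat.one_le_two_pow
    unfold NN
    omega
  exact lt_of_le_of_lt (Nat.add_le_add hA hB) hfin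

end Num

end Pool.Agent.Lib.MP_02a407_al
end

section

/-!
# The numerical part: small `m`
-/

namespace Pool.Agent.Lib.MP_02a407_al

namespace Num

private def divL (d : ℕ) : List ℕ := ((List.range d).map (· + 1)).filter (fun r => d % r == 0)

private theorem sum_divisors {M : Type*} [AddCommMonoid M] (d : ℕ) (f : ℕ → M) :
    ∑ r ∈ d.divisors, f r = ((divL d).map f).sum := by
  classical
  have hnd : (divL d).Nodup := by
    refine List.Nodup.filter _ (List.Nodup.map ?_ List.nodup_range)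
    intro x y h
    simpa using h
  have : d.divisors = (divL d).toFinset := by
    ext r
    rw [Nat.mem_divisors, List.mem_toFinset, divL, List.mem_filter, List.mem_map]
    constructor
    · rintro ⟨h1, h2⟩
      have h3 : r ≠ 0 := by
        rintro rfl
        exact h2 (Nat.eq_zero_of_zero_dvd h1)
      have h4 := Nat.le_of_dvd (Nat.pos_of_ne_zero h2) h1
      refine ⟨⟨r - 1, List.mem_range.2 (by omega), by omega⟩, ?_⟩
      rw [beq_iff_eq]
      exact Nat.mod_eq_zero_of_dvd h1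
    · rintro ⟨⟨x, hx, rfl⟩, h2⟩
      rw [List.mem_range] at hx
      rw [beq_iff_eq] at h2
      exact ⟨Nat.dvd_of_mod_eq_zero h2, by omega⟩
  rw [this, List.sum_toFinset f hnd]

private def plist : List ℕ := [2, 3, 5, 7, 11, 13, 17, 19, 23, 29, 31, 37, 41, 43, 47, 53, 59, 61, 67,
  71, 73, 79, 83, 89, 97, 101, 103, 107, 109, 113, 127, 131, 137, 139, 149]

private theorem mem_plist {p : ℕ} (hp : p.Prime) (h : p < 150) : p ∈ plist := by
  have key : ∀ p < 150, p ∈ plist ∨ p < 2 ∨ ∃ q ∈ [2, 3, 5, 7, 11], q < p ∧ p % q = 0 := by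
    decide +kernel
  rcases key p h with h1 | h1 | ⟨q, hq, hqp, hq0⟩
  · exact h1
  · exact absurd hp.two_le (by omega)
  · exfalso
    have h2 := (Nat.dvd_prime hp).1 (Nat.dvd_of_mod_eq_zero hq0)
    rcases h2 with h2 | h2
    · rw [h2] at hq
      revert hq
      decide
    · omega

private def RrL (m r : ℕ) : ℕ :=
  ((plist.filter (fun ℓ => m % ℓ == 0)).map (fun ℓ => Nat.gcd (NN (m / ℓ)) (NN m / NN r))).sum

private theorem Rr_le {m : ℕ} (hm : 1 ≤ m) (hm' : m < 150) (r : ℕ) : Rr m r ≤ RrL m r := by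
  classical
  have hnd : (plist.filter (fun ℓ => m % ℓ == 0)).Nodup := by
    apply List.Nodup.filter
    decide +kernel
  rw [Rr, RrL, ← List.sum_toFinset _ hnd]
  apply Finset.sum_le_sum_of_subset
  intro p hp
  rw [Nat.mem_primeFactors] at hp
  rw [List.mem_toFinset, List.mem_filter, beq_iff_eq]
  exact ⟨mem_plist hp.1 (lt_of_le_of_lt (Nat.le_of_dvd hm hp.2.1) hm'),
    Nat.mod_eq_zero_of_dvd hp.2.1⟩

private def SL (m d : ℕ) : ℕ := ((divL d).map (fun r => NN r * RrL m r)).sum

private def chL (n k : ℕ) : ℕ := n.descFactorial k / k.factorial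

private def rhoL (m e : ℕ) : ℕ :=
  ((divL m).map (fun d => if d == m then 0 else if Nat.ble (kk m d e) 1 then 0 else
    (2 + chL (Nat.gcd d e - 1) (kk m d e - 1)) * SL m d)).sum

private theorem rho_le {m : ℕ} (hm : 1 ≤ m) (hm' : m < 150) (e : ℕ) : rho m e ≤ rhoL m e := by
  classical
  rw [rho, rhoL, ← sum_divisors m]
  rw [← Finset.sum_erase (s := m.divisors) (a := m)
    (f := fun d => if d == m then 0 else if Nat.ble (kk m d e) 1 then 0 else
      (2 + chL (Nat.gcd d e - 1) (kk m d e - 1)) * SL m d) (by simp)]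
  apply Finset.sum_le_sum
  intro d hd
  rw [Finset.mem_erase] at hd
  have h1 : (d == m) = false := by simpa using hd.1
  rw [h1]
  simp only [Bool.false_eq_true, if_false]
  by_cases hk : kk m d e ≤ 1
  · rw [if_pos hk, if_pos (by rw [Nat.ble_eq]; exact hk)]
  · rw [if_neg hk, if_neg (by rw [Nat.ble_eq]; exact hk)]
    have h2 : (Nat.gcd d e - 1).choose (kk m d e - 1) = chL (Nat.gcd d e - 1) (kk m d e - 1) :=
      Nat.choose_eq_descFactorial_div_factorial _ _
    rw [h2]
    apply Nat.mul_le_mul_left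
    rw [SL, ← sum_divisors]
    apply Finset.sum_le_sum
    intro r _
    exact Nat.mul_le_mul_left _ (Rr_le hm hm' r)

private def chk1 : Bool :=
  (List.range 150).all (fun m => (m == 0 || m == 4 || m == 6 || m == 8 || m == 12) ||
    (divL m).all (fun e => e == m || Nat.blt (rhoL m e) (NN m)))

private theorem chk1_eq : chk1 = true := by decide +kernel

theorem rho_lt_of_small {m e : ℕ} (hm : 1 ≤ m) (hm' : m < 150) (h4 : m ≠ 4) (h6 : m ≠ 6)
    (h8 : m ≠ 8) (h12 : m ≠ 12) (he : e ∣ m) (he' : e < m) :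
    rho m e < NN m := by
  refine lt_of_le_of_lt (rho_le hm hm' e) ?_
  have h := chk1_eq
  rw [chk1, List.all_eq_true] at h
  have h1 := h m (List.mem_range.2 hm')
  rw [Bool.or_eq_true] at h1
  rcases h1 with h1 | h1
  · exfalso
    simp only [Bool.or_eq_true, beq_iff_eq] at h1
    omega
  · rw [List.all_eq_true] at h1
    have h2 : e ∈ divL m := by
      rw [divL, List.mem_filter, List.mem_map]
      have h3 : e ≠ 0 := by
        rintro rfl
        have := Nat.eq_zero_of_zero_dvd he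
        omega
      refine ⟨⟨e - 1, List.mem_range.2 (by omega), by omega⟩, ?_⟩
      rw [beq_iff_eq]
      exact Nat.mod_eq_zero_of_dvd he
    have h3 := h1 e h2
    rw [Bool.or_eq_true, beq_iff_eq] at h3
    rcases h3 with h3 | h3
    · omega
    · rwa [Nat.blt_eq] at h3

/-! ### The exceptional values of `m` -/

private def impL : ℕ → List ℕ
  | 4 => [0, 5, 10]
  | 6 => [0, 9, 18, 21, 27, 36, 42, 45, 54]
  | 8 => [0, 17, 34, 51, 68, 85, 102, 119, 136, 153, 170, 187, 204, 221, 238]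
  | 12 => [0, 65, 130, 195, 260, 273, 325, 390, 455, 520, 546, 585, 650, 715, 780, 819, 845, 910,
    975, 1040, 1092, 1105, 1170, 1235, 1300, 1365, 1430, 1495, 1560, 1625, 1638, 1690, 1755,
    1820, 1885, 1911, 1950, 2015, 2080, 2145, 2184, 2210, 2275, 2340, 2405, 2457, 2470, 2535,
    2600, 2665, 2730, 2795, 2860, 2925, 2990, 3003, 3055, 3120, 3185, 3250, 3276, 3315, 3380,
    3445, 3510, 3549, 3575, 3640, 3705, 3770, 3822, 3835, 3900, 3965, 4030]
  | _ => []

private def tabL : ℕ → ℕ → List ℕ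
  | 4, 1 => [3]
  | 4, 2 => [4, 4, 4]
  | 6, 1 => [9]
  | 6, 2 => [18, 9, 9]
  | 6, 3 => [24, 14, 14, 14, 14, 14, 14]
  | 8, 1 => [15]
  | 8, 2 => [20, 20, 20]
  | 8, 4 => [24, 24, 24, 24, 24, 24, 24, 24, 24, 24, 24, 24, 24, 24, 24]
  | 12, 1 => [75]
  | 12, 2 => [108, 96, 96]
  | 12, 3 => [180, 120, 120, 120, 120, 120, 120]
  | 12, 4 => [288, 63, 63, 126, 63, 252, 126, 63, 63, 126, 252, 63, 126, 63, 63]
  | 12, 6 => [468, 192, 192, 204, 192, 192, 204, 252, 192, 204, 192, 192, 204, 192, 252, 204, 192, 192,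
    204, 192, 192, 468, 192, 192, 204, 192, 192, 204, 252, 192, 204, 192, 192, 204, 192, 252,
    204, 192, 192, 204, 192, 192, 468, 192, 192, 204, 192, 192, 204, 252, 192, 204, 192, 192,
    204, 192, 252, 204, 192, 192, 204, 192, 192]
  | _, _ => []

private def dl : ℕ → List ℕ
  | 4 => [1, 2]
  | 6 => [1, 2, 3]
  | 8 => [1, 2, 4]
  | 12 => [1, 2, 3, 4, 6]
  | _ => []


private def muL (n : ℕ) : ℤ :=
  if n == 1 then 1 else if n == 2 then -1 else if n == 3 then -1 else if n == 6 then 1 else 0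

private theorem mu_eq {n : ℕ} (h : n = 1 ∨ n = 2 ∨ n = 3 ∨ n = 4 ∨ n = 6) :
    ArithmeticFunction.moebius n = muL n := by
  rcases h with rfl | rfl | rfl | rfl | rfl
  · rw [ArithmeticFunction.moebius_apply_one]; rfl
  · rw [ArithmeticFunction.moebius_apply_prime Nat.prime_two]; rfl
  · rw [ArithmeticFunction.moebius_apply_prime Nat.prime_three]; rfl
  · rw [ArithmeticFunction.moebius_eq_zero_of_not_squarefree]
    · rfl
    · intro h
      have := h 2 ⟨1, rfl⟩
      simp at this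
  · rw [show (6 : ℕ) = 2 * 3 from rfl,
      ArithmeticFunction.isMultiplicative_moebius.map_mul_of_coprime (by norm_num),
      ArithmeticFunction.moebius_apply_prime Nat.prime_two,
      ArithmeticFunction.moebius_apply_prime Nat.prime_three]
    rfl

/-- the weight -/
private noncomputable def wI (d x b : ℕ) : ℤ :=
  ∑ r ∈ d.divisors, if (x : ℤ) ≡ (b : ℤ) [ZMOD (NN r : ℤ)] then
    ArithmeticFunction.moebius (d / r) * (NN r : ℤ) else 0

private def wN (d x b : ℕ) : ℤ :=
  ((divL d).map (fun r => if x % NN r == b % NN r then muL (d / r) * (NN r : ℤ) else 0)).sum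

private theorem NN_dvd' {m d : ℕ} (h : d ∣ m) : NN d ∣ NN m := by
  obtain ⟨k, rfl⟩ := h
  unfold NN
  have := Nat.sub_dvd_pow_sub_pow (2 ^ d) 1 k
  rw [one_pow, ← pow_mul] at this
  exact this

private theorem wI_eq {d : ℕ} (hd : d = 1 ∨ d = 2 ∨ d = 3 ∨ d = 4 ∨ d = 6) (x b : ℕ) :
    wI d x b = wN d x (b % NN d) := by
  rw [wI, wN, ← sum_divisors]
  refine Finset.sum_congr rfl fun r hr => ?_
  rw [Nat.mem_divisors] at hr
  have hr0 : 0 < r := Nat.pos_of_dvd_of_pos hr.1 (by omega)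
  have h1 : d / r = 1 ∨ d / r = 2 ∨ d / r = 3 ∨ d / r = 4 ∨ d / r = 6 := by
    have hle := Nat.le_of_dvd (by omega) hr.1
    have hrd := hr.1
    rcases hd with rfl | rfl | rfl | rfl | rfl <;> interval_cases r <;> revert hrd <;> decide
  rw [mu_eq h1]
  have h2 : ((x : ℤ) ≡ (b : ℤ) [ZMOD (NN r : ℤ)]) ↔ (x % NN r == b % NN d % NN r) = true := by
    rw [Int.natCast_modEq_iff, beq_iff_eq, Nat.mod_mod_of_dvd _ (NN_dvd' hr.1)]
    rfl
  by_cases h3 : (x : ℤ) ≡ (b : ℤ) [ZMOD (NN r : ℤ)]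
  · rw [if_pos h3, if_pos (h2.1 h3)]
  · rw [if_neg h3, if_neg (fun h => h3 (h2.2 h))]

private def nI (m d e : ℕ) (l : List ℕ) : ℤ :=
  (kk m d e : ℤ) * (1 - (XX m d e : ℤ)) ^ supp l -
    if supp l = 1 then 1 - (XX m d e : ℤ) ^ kk m d e else 0

private def Gd (m d e : ℕ) : ℕ := Nat.gcd d e * (XX m d e ^ kk m d e - 1)

private theorem abs_co {m d e : ℕ} (hG : 0 < Gd m d e) (l : List ℕ) :
    |co m d e l| = (m : ℚ) * ((nI m d e l).natAbs : ℚ) / (Gd m d e : ℚ) := by
  have hg : 0 < Nat.gcd d e := by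
    rcases Nat.eq_zero_or_pos (Nat.gcd d e) with h | h
    · rw [Gd, h, Nat.zero_mul] at hG
      omega
    · exact h
  have hX : 0 < XX m d e ^ kk m d e - 1 := by
    rcases Nat.eq_zero_or_pos (XX m d e ^ kk m d e - 1) with h | h
    · rw [Gd, h, Nat.mul_zero] at hG
      omega
    · exact h
  have hXq : (0 : ℚ) < (XX m d e : ℚ) ^ kk m d e - 1 := by
    have : 1 < XX m d e ^ kk m d e := by omega
    have h2 : (1 : ℚ) < (XX m d e : ℚ) ^ kk m d e := by exact_mod_cast this
    linarith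
  have hGq : (Gd m d e : ℚ) = (Nat.gcd d e : ℚ) * ((XX m d e : ℚ) ^ kk m d e - 1) := by
    rw [Gd, Nat.cast_mul, Nat.cast_sub (by omega)]
    push_cast
    rfl
  have hgq : (0 : ℚ) < (Nat.gcd d e : ℚ) := by exact_mod_cast hg
  have hne : (1 : ℚ) - (XX m d e : ℚ) ^ kk m d e ≠ 0 := by
    intro h
    linarith
  have h1 : co m d e l = -((m : ℚ) * (nI m d e l : ℚ) / (Gd m d e : ℚ)) := by
    rw [hGq, co, nI]
    by_cases hs : supp l = 1
    · rw [if_pos hs, if_pos hs]
      push_cast
      rw [neg_div']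
      have : (Nat.gcd d e : ℚ) * ((XX m d e : ℚ) ^ kk m d e - 1) =
        -((Nat.gcd d e : ℚ) * (1 - (XX m d e : ℚ) ^ kk m d e)) := by ring
      rw [this, neg_div_neg_eq]
      field_simp
    · rw [if_neg hs, if_neg hs]
      push_cast
      rw [neg_div']
      have : (Nat.gcd d e : ℚ) * ((XX m d e : ℚ) ^ kk m d e - 1) =
        -((Nat.gcd d e : ℚ) * (1 - (XX m d e : ℚ) ^ kk m d e)) := by ring
      rw [this, neg_div_neg_eq]
      field_simp
      ring
  rw [h1, abs_neg, abs_div, abs_mul, Nat.abs_cast, Nat.abs_cast, Nat.cast_natAbs, Int.cast_abs]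

private theorem list_bound (F : Finset ℕ) (L : List (List ℕ)) (c : List ℕ → ℚ)
    (g : List ℕ → ℕ → ℚ) : ∑ x ∈ F, |(L.map (fun l => c l * g l x)).sum| ≤
      (L.map (fun l => |c l| * ∑ x ∈ F, |g l x|)).sum := by
  induction L with
  | nil => simp
  | cons l L ih =>
    simp only [List.map_cons, List.sum_cons]
    refine le_trans ?_ (add_le_add_right ih (|c l| * ∑ x ∈ F, |g l x|))
    rw [Finset.mul_sum, ← Finset.sum_add_distrib]
    refine Finset.sum_le_sum fun x _ => ?_
    rw [← abs_mul]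
    exact abs_add_le _ _

private theorem KK_bound (m a : ℕ) (hm : 0 < m) (hN : 0 < NN m) (F : Finset ℕ) :
    ∑ x ∈ F, |KK m a x| ≤ ∑ d ∈ m.divisors.erase m,
      ((comps (Nat.gcd d (per m a)) (kk m d (per m a))).map (fun l =>
        |co m d (per m a) l| *
          ((∑ x ∈ F, (wI d x (bb m d a l)).natAbs : ℕ) / ((m : ℚ) * NN m)))).sum := by
  have hmN : (0 : ℚ) < (m : ℚ) * NN m := by positivity
  have h1 : ∑ x ∈ F, |KK m a x| ≤ ∑ d ∈ m.divisors.erase m, ∑ x ∈ F,
      |((comps (Nat.gcd d (per m a)) (kk m d (per m a))).map (fun l =>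
        co m d (per m a) l * ((wI d x (bb m d a l) : ℚ) / ((m : ℚ) * NN m)))).sum| := by
    rw [Finset.sum_comm]
    refine Finset.sum_le_sum fun x _ => ?_
    refine le_trans (le_of_eq ?_) (Finset.abs_sum_le_sum_abs _ _)
    congr 1
    rw [KK]
    refine Finset.sum_congr rfl fun d _ => ?_
    congr 1
    refine List.map_congr_left fun l _ => ?_
    congr 1
    rw [wI]
    push_cast
    rw [Finset.sum_div]
    refine Finset.sum_congr rfl fun r _ => ?_
    split_ifs
    · rfl
    · rw [zero_div]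
  refine h1.trans (Finset.sum_le_sum fun d _ => ?_)
  refine (list_bound F _ _ (fun l x => (wI d x (bb m d a l) : ℚ) / ((m : ℚ) * NN m))).trans
    (le_of_eq ?_)
  congr 1
  refine List.map_congr_left fun l _ => ?_
  congr 1
  push_cast
  rw [Finset.sum_div]
  refine Finset.sum_congr rfl fun x _ => ?_
  rw [abs_div, abs_of_pos hmN, Nat.cast_natAbs, Int.cast_abs]

private def tabf (m d b : ℕ) : ℕ := (tabL m d).getD b 0

private def chkW (m : ℕ) : Bool :=
  (dl m).all (fun d => (List.range (NN d)).all (fun b =>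
    Nat.ble (((impL m).map (fun x => (wN d x b).natAbs)).sum) (tabf m d b)))

private def Sd (m d a : ℕ) : ℕ :=
  ((comps (Nat.gcd d (per m a)) (kk m d (per m a))).map (fun l =>
    (nI m d (per m a) l).natAbs * tabf m d (bb m d a l % NN d))).sum

private def chkF (m : ℕ) : Bool :=
  (impL m).all (fun a => Nat.ble (((dl m).map (fun d =>
    Sd m d a * 1000000 / Gd m d (per m a) + 1)).sum) (NN m * 1000000) &&
    (dl m).all (fun d => Nat.blt 0 (Gd m d (per m a))))

private def chkI (m : ℕ) : Bool :=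
  (List.range (NN m)).filter (fun a => decide (per m a < m)) == impL m

private theorem chkI_all : chkI 4 = true ∧ chkI 6 = true ∧ chkI 8 = true ∧ chkI 12 = true := by
  decide +kernel

private theorem chkW_all : chkW 4 = true ∧ chkW 6 = true ∧ chkW 8 = true ∧ chkW 12 = true := by
  decide +kernel

private theorem chkF_all : chkF 4 = true ∧ chkF 6 = true ∧ chkF 8 = true ∧ chkF 12 = true := by
  decide +kernel

private theorem dl_eq {m : ℕ} (hm : m = 4 ∨ m = 6 ∨ m = 8 ∨ m = 12) :
    m.divisors.erase m = (dl m).toFinset ∧ (dl m).Nodup ∧ dl m ≠ [] ∧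
      ∀ d ∈ dl m, d = 1 ∨ d = 2 ∨ d = 3 ∨ d = 4 ∨ d = 6 := by
  rcases hm with rfl | rfl | rfl | rfl <;> decide +kernel

private theorem sum_filter_eq {m : ℕ} (h : chkI m = true) (f : ℕ → ℕ) :
    ∑ x ∈ (Finset.range (NN m)).filter (fun x => per m x < m), f x = ((impL m).map f).sum := by
  rw [chkI, beq_iff_eq] at h
  rw [← h]
  change (Multiset.map f (Multiset.filter (fun x => per m x < m)
    ((List.range (NN m) : List ℕ) : Multiset ℕ))).sum = _
  rw [Multiset.filter_coe, Multiset.map_coe, Multiset.sum_coe]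

private theorem row_lt_aux {m a : ℕ} (hm : m = 4 ∨ m = 6 ∨ m = 8 ∨ m = 12) (hI : chkI m = true)
    (hW : chkW m = true) (hF : chkF m = true) (ha : a < NN m) (ha' : per m a < m) :
    ∑ a₁ ∈ (Finset.range (NN m)).filter (fun a₁ => per m a₁ < m), |KK m a a₁| < 1 := by
  have hm0 : 0 < m := by omega
  have hN : 0 < NN m := by omega
  obtain ⟨hD, hnd, hne, hd6⟩ := dl_eq hm
  have haI : a ∈ impL m := by
    have h := hI
    rw [chkI, beq_iff_eq] at h
    rw [← h, List.mem_filter, List.mem_range, decide_eq_true_eq]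
    exact ⟨ha, ha'⟩
  rw [chkF, List.all_eq_true] at hF
  have hFa := hF a haI
  rw [Bool.and_eq_true, Nat.ble_eq, List.all_eq_true] at hFa
  obtain ⟨hF1, hF2⟩ := hFa
  refine lt_of_le_of_lt (KK_bound m a hm0 hN _) ?_
  rw [hD]
  have hNq : (0 : ℚ) < (NN m : ℚ) := by exact_mod_cast hN
  have hmq : (0 : ℚ) < (m : ℚ) := by exact_mod_cast hm0
  -- the terms
  have hterm : ∀ d ∈ (dl m).toFinset,
      ((comps (Nat.gcd d (per m a)) (kk m d (per m a))).map (fun l =>
        |co m d (per m a) l| * ((∑ x ∈ (Finset.range (NN m)).filter (fun a₁ => per m a₁ < m),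
          (wI d x (bb m d a l)).natAbs : ℕ) / ((m : ℚ) * NN m)))).sum <
      ((Sd m d a * 1000000 / Gd m d (per m a) + 1 : ℕ) : ℚ) / (1000000 * NN m) := by
    intro d hd
    rw [List.mem_toFinset] at hd
    have hG : 0 < Gd m d (per m a) := by
      have := hF2 d hd
      rwa [Nat.blt_eq] at this
    have hGq : (0 : ℚ) < (Gd m d (per m a) : ℚ) := by exact_mod_cast hG
    have hNd : 0 < NN d := by
      rcases hd6 d hd with rfl | rfl | rfl | rfl | rfl <;> decide
    have hWb : ∀ b : ℕ, ∑ x ∈ (Finset.range (NN m)).filter (fun a₁ => per m a₁ < m),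
        (wI d x b).natAbs ≤ tabf m d (b % NN d) := by
      intro b
      rw [sum_filter_eq hI]
      have h := hW
      rw [chkW, List.all_eq_true] at h
      have h1 := h d hd
      rw [List.all_eq_true] at h1
      have h2 := h1 (b % NN d) (List.mem_range.2 (Nat.mod_lt _ hNd))
      rw [Nat.ble_eq] at h2
      simp only [wI_eq (hd6 d hd)]
      exact h2
    have hle : ((comps (Nat.gcd d (per m a)) (kk m d (per m a))).map (fun l =>
        |co m d (per m a) l| * ((∑ x ∈ (Finset.range (NN m)).filter (fun a₁ => per m a₁ < m),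
          (wI d x (bb m d a l)).natAbs : ℕ) / ((m : ℚ) * NN m)))).sum ≤
        (Sd m d a : ℚ) / (Gd m d (per m a) * NN m) := by
      rw [Sd]
      generalize comps (Nat.gcd d (per m a)) (kk m d (per m a)) = L
      induction L with
      | nil => simp
      | cons l L ih =>
        simp only [List.map_cons, List.sum_cons, Nat.cast_add, add_div]
        refine add_le_add ?_ ih
        rw [abs_co hG]
        have h3 : ((∑ x ∈ (Finset.range (NN m)).filter (fun a₁ => per m a₁ < m),
          (wI d x (bb m d a l)).natAbs : ℕ) : ℚ) ≤ (tabf m d (bb m d a l % NN d) : ℚ) := by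
          exact_mod_cast hWb _
        calc (m : ℚ) * ((nI m d (per m a) l).natAbs : ℚ) / (Gd m d (per m a) : ℚ) *
              ((∑ x ∈ (Finset.range (NN m)).filter (fun a₁ => per m a₁ < m),
                (wI d x (bb m d a l)).natAbs : ℕ) / ((m : ℚ) * NN m)) ≤
            (m : ℚ) * ((nI m d (per m a) l).natAbs : ℚ) / (Gd m d (per m a) : ℚ) *
              ((tabf m d (bb m d a l % NN d) : ℚ) / ((m : ℚ) * NN m)) := by
              apply mul_le_mul_of_nonneg_left
              · exact div_le_div_of_nonneg_right h3 (by positivity)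
              · positivity
          _ = _ := by
              push_cast
              field_simp
    refine lt_of_le_of_lt hle ?_
    rw [div_lt_div_iff₀ (by positivity) (by positivity)]
    have h4 : Sd m d a * 1000000 <
        (Sd m d a * 1000000 / Gd m d (per m a) + 1) * Gd m d (per m a) := by
      rw [← Nat.div_lt_iff_lt_mul hG]
      exact Nat.lt_succ_self _
    have h5 : (Sd m d a : ℚ) * 1000000 <
        ((Sd m d a * 1000000 / Gd m d (per m a) + 1 : ℕ) : ℚ) * (Gd m d (per m a) : ℚ) := by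
      exact_mod_cast h4
    calc (Sd m d a : ℚ) * (1000000 * NN m) = (Sd m d a : ℚ) * 1000000 * NN m := by ring
      _ < ((Sd m d a * 1000000 / Gd m d (per m a) + 1 : ℕ) : ℚ) * (Gd m d (per m a) : ℚ) * NN m :=
          mul_lt_mul_of_pos_right h5 hNq
      _ = _ := by ring
  have hnonempty : (dl m).toFinset.Nonempty := by
    rw [List.toFinset_nonempty_iff]
    exact hne
  refine lt_of_lt_of_le (Finset.sum_lt_sum_of_nonempty hnonempty hterm) ?_
  rw [← Finset.sum_div, ← Nat.cast_sum, List.sum_toFinset _ hnd, div_le_one (by positivity)]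
  have h6 : (((dl m).map (fun d => Sd m d a * 1000000 / Gd m d (per m a) + 1)).sum : ℚ) ≤
      ((NN m * 1000000 : ℕ) : ℚ) := by exact_mod_cast hF1
  refine h6.trans (le_of_eq ?_)
  push_cast
  ring

theorem row_lt_exceptional {m a : ℕ} (hm : m = 4 ∨ m = 6 ∨ m = 8 ∨ m = 12) (ha : a < NN m)
    (ha' : per m a < m) :
    ∑ a₁ ∈ (Finset.range (NN m)).filter (fun a₁ => per m a₁ < m), |KK m a a₁| < 1 := by
  have hI := chkI_all
  have hW := chkW_all
  have hF := chkF_all
  rcases hm with rfl | rfl | rfl | rfl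
  · exact row_lt_aux (by simp) hI.1 hW.1 hF.1 ha ha'
  · exact row_lt_aux (by simp) hI.2.1 hW.2.1 hF.2.1 ha ha'
  · exact row_lt_aux (by simp) hI.2.2.1 hW.2.2.1 hF.2.2.1 ha ha'
  · exact row_lt_aux (by simp) hI.2.2.2 hW.2.2.2 hF.2.2.2 ha ha'

end Num

end Pool.Agent.Lib.MP_02a407_al
end

section

/-!
# The numerical part: the bound of the row sums
-/

namespace Pool.Agent.Lib.MP_02a407_al

namespace Num

/-! ## Compositions -/

theorem comps_succ_sumC {M : Type*} [AddCommMonoid M] (F : List ℕ → M) (g k : ℕ) :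
    ((comps (g + 1) k).map F).sum =
      ∑ a ∈ Finset.range (k + 1), ((comps g (k - a)).map (fun l => F (a :: l))).sum := by
  rw [comps, List.map_flatMap, List.flatMap_def, List.sum_flatten, List.map_map,
    ← List.sum_toFinset _ (List.nodup_range), List.toFinset_range]
  refine Finset.sum_congr rfl fun a _ => ?_
  simp only [Function.comp_apply, List.map_map]
  rfl

theorem mem_comps_succ {g k : ℕ} {l : List ℕ} :
    l ∈ comps (g + 1) k ↔ ∃ a ≤ k, ∃ l' ∈ comps g (k - a), l = a :: l' := by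
  rw [comps, List.mem_flatMap]
  constructor
  · rintro ⟨a, ha, h⟩
    rw [List.mem_range] at ha
    rw [List.mem_map] at h
    obtain ⟨l', hl', rfl⟩ := h
    exact ⟨a, by omega, l', hl', rfl⟩
  · rintro ⟨a, ha, l', hl', rfl⟩
    exact ⟨a, List.mem_range.2 (by omega), List.mem_map.2 ⟨l', hl', rfl⟩⟩

theorem supp_cons_zero (l : List ℕ) : supp (0 :: l) = supp l := by
  simp [supp]

theorem supp_cons_pos {a : ℕ} (ha : a ≠ 0) (l : List ℕ) : supp (a :: l) = supp l + 1 := by
  simp [supp, ha]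

theorem supp_le {g : ℕ} : ∀ {k : ℕ} {l : List ℕ}, l ∈ comps g k → supp l ≤ k := by
  induction g with
  | zero =>
    intro k l hl
    cases k with
    | zero =>
      simp [comps] at hl
      subst hl
      simp [supp]
    | succ k => simp [comps] at hl
  | succ g ih =>
    intro k l hl
    obtain ⟨a, ha, l', hl', rfl⟩ := mem_comps_succ.1 hl
    have := ih hl'
    rcases Nat.eq_zero_or_pos a with rfl | h
    · rw [supp_cons_zero]
      simpa using this
    · rw [supp_cons_pos (by omega)]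
      omega

theorem supp_posC {g : ℕ} : ∀ {k : ℕ} {l : List ℕ}, 1 ≤ k → l ∈ comps g k → 1 ≤ supp l := by
  induction g with
  | zero =>
    intro k l hk hl
    cases k with
    | zero => omega
    | succ k => simp [comps] at hl
  | succ g ih =>
    intro k l hk hl
    obtain ⟨a, ha, l', hl', rfl⟩ := mem_comps_succ.1 hl
    rcases Nat.eq_zero_or_pos a with rfl | h
    · rw [supp_cons_zero]
      exact ih (by omega) hl'
    · rw [supp_cons_pos (by omega)]
      omega

theorem supp_one {g : ℕ} {l : List ℕ} (hl : l ∈ comps g 1) : supp l = 1 :=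
  le_antisymm (supp_le hl) (supp_posC le_rfl hl)

/-- The number of compositions. -/
theorem comps_length (g : ℕ) : ∀ k, (comps g k).length = Nat.multichoose g k := by
  induction g with
  | zero =>
    intro k
    cases k with
    | zero => simp [comps]
    | succ k => simp [comps]
  | succ g ih =>
    have hsum : ∀ k, (comps (g + 1) k).length =
        ∑ a ∈ Finset.range (k + 1), Nat.multichoose g (k - a) := by
      intro k
      have h := comps_succ_sumC (fun _ => (1 : ℕ)) g k
      simp only [List.map_const', List.sum_replicate, smul_eq_mul, mul_one] at h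
      rw [h]
      exact Finset.sum_congr rfl fun a _ => ih _
    intro k
    induction k with
    | zero => rw [hsum]; simp
    | succ k ihk =>
      rw [hsum, Finset.sum_range_succ', Nat.multichoose_succ_succ, ← ihk, hsum, add_comm]
      congr 1
      refine Finset.sum_congr rfl fun a _ => ?_
      congr 1
      omega

/-- The number of the compositions with empty support. -/
theorem comps_count_zero (g : ℕ) : ∀ k,
    ((comps g k).map (fun l => if supp l = 0 then (1 : ℕ) else 0)).sum ≤ if k = 0 then 1 else 0 := by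
  induction g with
  | zero =>
    intro k
    cases k with
    | zero => simp [comps, supp]
    | succ k => simp [comps]
  | succ g ih =>
    intro k
    rw [comps_succ_sumC, Finset.sum_range_succ']
    have h1 : ∀ a ∈ Finset.range k, ((comps g (k - (a + 1))).map
        (fun l => if supp ((a + 1) :: l) = 0 then (1 : ℕ) else 0)).sum = 0 := by
      intro a _
      simp [supp_cons_pos (Nat.succ_ne_zero a)]
    rw [Finset.sum_eq_zero h1, zero_add]
    simp only [supp_cons_zero, Nat.sub_zero]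
    exact ih k

/-- The number of the compositions with one nonzero part. -/
theorem comps_count_one (g : ℕ) : ∀ k, 1 ≤ k →
    ((comps g k).map (fun l => if supp l = 1 then (1 : ℕ) else 0)).sum ≤ g := by
  induction g with
  | zero =>
    intro k hk
    cases k with
    | zero => omega
    | succ k => simp [comps]
  | succ g ih =>
    intro k hk
    obtain ⟨k, rfl⟩ : ∃ k', k = k' + 1 := ⟨k - 1, by omega⟩
    rw [comps_succ_sumC, Finset.sum_range_succ']
    have h0 := ih (k + 1) hk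
    have h1 : ∑ a ∈ Finset.range (k + 1), ((comps g (k + 1 - (a + 1))).map
        (fun l => if supp ((a + 1) :: l) = 1 then (1 : ℕ) else 0)).sum ≤ 1 := by
      calc _ ≤ ∑ a ∈ Finset.range (k + 1), (if k + 1 - (a + 1) = 0 then 1 else 0) := by
            refine Finset.sum_le_sum fun a _ => ?_
            have := comps_count_zero g (k + 1 - (a + 1))
            simpa [supp_cons_pos (Nat.succ_ne_zero a)] using this
        _ = ∑ a ∈ Finset.range (k + 1), (if a = k then 1 else 0) := by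
            refine Finset.sum_congr rfl fun a ha => ?_
            rw [Finset.mem_range] at ha
            by_cases h : a = k
            · subst h; simp
            · rw [if_neg h, if_neg (by omega)]
        _ = 1 := by simp
    simp only [supp_cons_zero, Nat.sub_zero]
    omega

/-- The number of the compositions with all nonzero parts equal to one. -/
theorem comps_count_full (g : ℕ) : ∀ k,
    ((comps g k).map (fun l => if supp l = k then (1 : ℕ) else 0)).sum ≤ g.choose k := by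
  induction g with
  | zero =>
    intro k
    cases k with
    | zero => simp [comps, supp]
    | succ k => simp [comps]
  | succ g ih =>
    intro k
    rw [comps_succ_sumC, Finset.sum_range_succ']
    simp only [supp_cons_zero, Nat.sub_zero]
    cases k with
    | zero =>
      have := ih 0
      simpa using this
    | succ k =>
      rw [Finset.sum_range_succ']
      have h1 : ∀ a ∈ Finset.range k, ((comps g (k + 1 - (a + 1 + 1))).map
          (fun l => if supp ((a + 1 + 1) :: l) = k + 1 then (1 : ℕ) else 0)).sum = 0 := by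
        intro a ha
        rw [Finset.mem_range] at ha
        rw [List.sum_eq_zero]
        intro x hx
        rw [List.mem_map] at hx
        obtain ⟨l, hl, rfl⟩ := hx
        have := supp_le hl
        rw [supp_cons_pos (Nat.succ_ne_zero _), if_neg (by omega)]
      rw [Finset.sum_eq_zero h1, zero_add, Nat.choose_succ_succ']
      have h2 := ih (k + 1)
      have h3 := ih k
      have h4 : ((comps g (k + 1 - (0 + 1))).map
          (fun l => if supp ((0 + 1) :: l) = k + 1 then (1 : ℕ) else 0)).sum ≤ g.choose k := by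
        simpa [supp_cons_pos] using h3
      omega

/-! ## Arithmetic of the parameters -/

theorem gcd_pos' {m d e : ℕ} (hm : 1 ≤ m) (hd : d ∣ m) : 0 < Nat.gcd d e :=
  Nat.gcd_pos_of_pos_left _ (Nat.pos_of_dvd_of_pos hd hm)

theorem kk_mul {m d e : ℕ} (hd : d ∣ m) (he : e ∣ m) : kk m d e * (d * e) = m * Nat.gcd d e := by
  unfold kk
  apply Nat.div_mul_cancel
  rw [← Nat.gcd_mul_lcm d e, mul_comm m]
  exact Nat.mul_dvd_mul_left _ (Nat.lcm_dvd hd he)

theorem kk_posC {m d e : ℕ} (hm : 1 ≤ m) (hd : d ∣ m) (he : e ∣ m) : 1 ≤ kk m d e := by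
  have h := kk_mul hd he
  have hg := gcd_pos' (e := e) hm hd
  rcases Nat.eq_zero_or_pos (kk m d e) with h0 | h0
  · rw [h0, zero_mul] at h
    have := Nat.mul_pos hm hg
    omega
  · exact h0

theorem le_XX {m d e : ℕ} (hm : 1 ≤ m) (he : e ∣ m) : 2 ^ m ≤ XX m d e := by
  unfold XX
  have h1 : 1 ≤ e / Nat.gcd d e := by
    have he0 : 0 < e := Nat.pos_of_dvd_of_pos he hm
    exact Nat.div_pos (Nat.le_of_dvd he0 (Nat.gcd_dvd_right d e))
      (Nat.gcd_pos_of_pos_right _ he0)
  exact Nat.pow_le_pow_right (by norm_num) (Nat.le_mul_of_pos_right _ h1)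

theorem gcd_mul_kk_le {m d e : ℕ} (hm : 1 ≤ m) (hd : d ∣ m) (he : e ∣ m) :
    Nat.gcd d e * kk m d e ≤ m := by
  have h := kk_mul hd he
  have hd0 : 0 < d := Nat.pos_of_dvd_of_pos hd hm
  have he0 : 0 < e := Nat.pos_of_dvd_of_pos he hm
  have hg1 : Nat.gcd d e ≤ d := Nat.le_of_dvd hd0 (Nat.gcd_dvd_left d e)
  have hg2 : Nat.gcd d e ≤ e := Nat.le_of_dvd he0 (Nat.gcd_dvd_right d e)
  refine Nat.le_of_mul_le_mul_right ?_ (Nat.mul_pos hd0 he0)
  calc Nat.gcd d e * kk m d e * (d * e) = Nat.gcd d e * (kk m d e * (d * e)) := by ring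
    _ = m * (Nat.gcd d e * Nat.gcd d e) := by rw [h]; ring
    _ ≤ m * (d * e) := Nat.mul_le_mul_left _ (Nat.mul_le_mul hg1 hg2)

theorem sub_one_pow_mul_le {X : ℚ} (hX : 1 ≤ X) {s k : ℕ} (hs : 1 ≤ s) (hk : s ≤ k) :
    (X - 1) ^ s * X ^ (k - s) ≤ X ^ k - 1 := by
  obtain ⟨s, rfl⟩ : ∃ s', s = s' + 1 := ⟨s - 1, by omega⟩
  obtain ⟨j, rfl⟩ : ∃ j, k = s + 1 + j := ⟨k - (s + 1), by omega⟩
  have h1 : (X - 1) ^ s ≤ X ^ s := pow_le_pow_left₀ (by linarith) (by linarith) _
  have h2 : s + 1 + j - (s + 1) = j := by omega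
  rw [h2]
  have h3 : (1 : ℚ) ≤ X ^ (s + j) := one_le_pow₀ hX
  have h4 : (0 : ℚ) ≤ (X - 1) * X ^ j := mul_nonneg (by linarith) (by positivity)
  calc (X - 1) ^ (s + 1) * X ^ j = (X - 1) ^ s * ((X - 1) * X ^ j) := by ring
    _ ≤ X ^ s * ((X - 1) * X ^ j) := mul_le_mul_of_nonneg_right h1 h4
    _ = X ^ (s + 1 + j) - X ^ (s + j) := by ring
    _ ≤ _ := by linarith

theorem co_le {m d e : ℕ} (hm : 1 ≤ m) (hd : d ∣ m) (he : e ∣ m) (hk : 2 ≤ kk m d e)
    {l : List ℕ} (hl : l ∈ comps (Nat.gcd d e) (kk m d e)) :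
    |co m d e l| ≤ (m : ℚ) / (Nat.gcd d e : ℚ) * (if supp l = 1 then 1 else 0) +
      (m * kk m d e : ℚ) / (Nat.gcd d e : ℚ) * (if supp l = kk m d e then 1 else 0) +
      (m * kk m d e : ℚ) / (Nat.gcd d e : ℚ) / (XX m d e : ℚ) := by
  have hg : (0 : ℚ) < (Nat.gcd d e : ℚ) := by exact_mod_cast gcd_pos' (e := e) hm hd
  have hX2 : (2 : ℚ) ≤ (XX m d e : ℚ) := by
    have h1 := le_XX (d := d) hm he
    have h2 : 2 ^ 1 ≤ 2 ^ m := Nat.pow_le_pow_right (by norm_num) hm
    exact_mod_cast (le_trans h2 h1)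
  have hs1 := supp_posC (by omega) hl
  have hsk := supp_le hl
  have hm0 : (0 : ℚ) ≤ m := Nat.cast_nonneg _
  have hk0 : (0 : ℚ) ≤ kk m d e := Nat.cast_nonneg _
  unfold co
  generalize hXX : (XX m d e : ℚ) = X at *
  generalize hgg : (Nat.gcd d e : ℚ) = G at *
  generalize hKK : kk m d e = k at *
  generalize supp l = s at *
  have hXk : 0 < X ^ k - 1 := by
    have := one_lt_pow₀ (by linarith : (1 : ℚ) < X) (by omega : k ≠ 0)
    linarith
  have hmG : 0 ≤ (m : ℚ) / G := by positivity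
  have hmkG : 0 ≤ (m * k : ℚ) / G := by positivity
  by_cases h1 : s = 1
  · subst h1
    rw [if_pos rfl, if_pos rfl, if_neg (by omega), pow_one, mul_one, mul_zero, add_zero]
    have hθ : (1 - X) / (1 - X ^ k) = (X - 1) / (X ^ k - 1) := by
      rw [← neg_sub X 1, ← neg_sub (X ^ k) 1, neg_div_neg_eq]
    rw [hθ]
    have hθ0 : 0 ≤ (k : ℚ) * ((X - 1) / (X ^ k - 1)) :=
      mul_nonneg hk0 (div_nonneg (by linarith) hXk.le)
    have hθ1 : (k : ℚ) * ((X - 1) / (X ^ k - 1)) ≤ 1 := by
      rw [← mul_div_assoc, div_le_one hXk]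
      have := one_add_mul_le_pow (by linarith : (-2 : ℚ) ≤ X - 1) k
      rw [add_sub_cancel] at this
      linarith
    have e1 : (m * k : ℚ) / G * ((X - 1) / (X ^ k - 1)) - m / G =
        -((m : ℚ) / G * (1 - (k : ℚ) * ((X - 1) / (X ^ k - 1)))) := by
      ring
    rw [e1, abs_neg, abs_of_nonneg (mul_nonneg hmG (by linarith))]
    have : (m : ℚ) / G * (1 - (k : ℚ) * ((X - 1) / (X ^ k - 1))) ≤ m / G * 1 :=
      mul_le_mul_of_nonneg_left (by linarith) hmG
    have h3 : 0 ≤ (m * k : ℚ) / G / X := div_nonneg hmkG (by linarith)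
    linarith
  · rw [if_neg h1, if_neg h1, sub_zero, mul_zero, zero_add, abs_mul, abs_of_nonneg hmkG, abs_div,
      abs_pow, abs_sub_comm 1 X, abs_of_nonneg (by linarith : (0 : ℚ) ≤ X - 1), abs_sub_comm 1,
      abs_of_pos hXk]
    have hmain := sub_one_pow_mul_le (by linarith : 1 ≤ X) hs1 hsk
    by_cases h2 : s = k
    · subst h2
      rw [if_pos rfl, mul_one]
      rw [Nat.sub_self, pow_zero, mul_one] at hmain
      have h3 : (X - 1) ^ s / (X ^ s - 1) ≤ 1 := (div_le_one hXk).2 hmain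
      have h4 : (m * s : ℚ) / G * ((X - 1) ^ s / (X ^ s - 1)) ≤ (m * s : ℚ) / G * 1 :=
        mul_le_mul_of_nonneg_left h3 hmkG
      have h5 : 0 ≤ (m * s : ℚ) / G / X := div_nonneg hmkG (by linarith)
      linarith
    · rw [if_neg h2, mul_zero, zero_add, div_eq_mul_one_div _ X]
      refine mul_le_mul_of_nonneg_left ?_ hmkG
      rw [div_le_div_iff₀ hXk (by linarith), one_mul]
      refine le_trans ?_ hmain
      refine mul_le_mul_of_nonneg_left ?_ (pow_nonneg (by linarith) _)
      calc X = X ^ 1 := (pow_one X).symm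
        _ ≤ X ^ (k - s) := pow_le_pow_right₀ (by linarith) (by omega)

/-- The sum of the absolute values of the coefficients. -/
theorem sum_abs_co {m d e : ℕ} (hm : 1 ≤ m) (hd : d ∣ m) (he : e ∣ m) (hk : 2 ≤ kk m d e) :
    ((comps (Nat.gcd d e) (kk m d e)).map (fun l => |co m d e l|)).sum ≤
      (m : ℚ) * (2 + (Nat.gcd d e - 1).choose (kk m d e - 1) : ℕ) := by
  refine (List.sum_le_sum fun l hl => co_le hm hd he hk hl).trans ?_
  have hg0 := gcd_pos' (e := e) hm hd
  have hgk := gcd_mul_kk_le hm hd he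
  have hX := le_XX (d := d) hm he
  rw [List.sum_map_add, List.sum_map_add, List.sum_map_mul_left, List.sum_map_mul_left,
    List.map_const', List.sum_replicate, comps_length, Nat.multichoose_eq, nsmul_eq_mul]
  have hc : ∀ (L : List (List ℕ)) (P : List ℕ → Prop) [DecidablePred P],
      (L.map (fun l => if P l then (1 : ℚ) else 0)).sum =
        ((L.map (fun l => if P l then (1 : ℕ) else 0)).sum : ℕ) := by
    intro L P _
    induction L with
    | nil => simp
    | cons a L ih =>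
      simp only [List.map_cons, List.sum_cons, Nat.cast_add, ih]
      congr 1
      split_ifs <;> simp
  rw [hc, hc]
  have h1 := comps_count_one (Nat.gcd d e) (kk m d e) (by omega)
  have h2 := comps_count_full (Nat.gcd d e) (kk m d e)
  generalize ((comps (Nat.gcd d e) (kk m d e)).map (fun l => if supp l = 1 then (1 : ℕ) else 0)).sum
    = A at *
  generalize ((comps (Nat.gcd d e) (kk m d e)).map
    (fun l => if supp l = kk m d e then (1 : ℕ) else 0)).sum = B at *
  generalize kk m d e = k at *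
  generalize Nat.gcd d e = g at *
  generalize XX m d e = X at *
  have hgq : (0 : ℚ) < g := by exact_mod_cast hg0
  have hXq : (0 : ℚ) < X := by
    have : 0 < X := lt_of_lt_of_le (by positivity) hX
    exact_mod_cast this
  have hm0 : (0 : ℚ) ≤ m := Nat.cast_nonneg _
  have hk0 : (0 : ℚ) ≤ k := Nat.cast_nonneg _
  -- first term
  have t1 : (m : ℚ) / g * A ≤ m := by
    calc (m : ℚ) / g * A ≤ (m : ℚ) / g * g :=
          mul_le_mul_of_nonneg_left (by exact_mod_cast h1) (by positivity)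
      _ = m := by field_simp
  -- second term
  have t2 : (m * k : ℚ) / g * B ≤ m * ((g - 1).choose (k - 1) : ℕ) := by
    have e1 : g * (g - 1).choose (k - 1) = g.choose k * k := by
      have := Nat.add_one_mul_choose_eq (g - 1) (k - 1)
      rwa [Nat.sub_add_cancel (by omega), Nat.sub_add_cancel (by omega)] at this
    have e2 : (g : ℚ) * ((g - 1).choose (k - 1) : ℕ) = (g.choose k : ℕ) * k := by
      exact_mod_cast e1
    calc (m * k : ℚ) / g * B ≤ (m * k : ℚ) / g * (g.choose k : ℕ) :=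
          mul_le_mul_of_nonneg_left (by exact_mod_cast h2) (by positivity)
      _ = m * ((g.choose k : ℕ) * k / g) := by ring
      _ = m * ((g - 1).choose (k - 1) : ℕ) := by rw [← e2]; field_simp
  -- third term
  have t3 : ((g + k - 1).choose k : ℕ) * ((m * k : ℚ) / g / X) ≤ m := by
    have e1 : (g + k - 1).choose k * k = (g + k - 1).choose (k - 1) * g := by
      have := Nat.choose_succ_right_eq (g + k - 1) (k - 1)
      rw [Nat.sub_add_cancel (by omega)] at this
      rw [this]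
      congr 1
      omega
    have e2 : (((g + k - 1).choose k : ℕ) : ℚ) * k = ((g + k - 1).choose (k - 1) : ℕ) * g := by
      exact_mod_cast e1
    have h3 : (g + k - 1).choose (k - 1) ≤ X := by
      refine (Nat.choose_le_two_pow _ _).trans (le_trans ?_ hX)
      refine Nat.pow_le_pow_right (by norm_num) (le_trans ?_ hgk)
      obtain ⟨g, rfl⟩ : ∃ g', g = g' + 1 := ⟨g - 1, by omega⟩
      obtain ⟨k, rfl⟩ : ∃ k', k = k' + 1 := ⟨k - 1, by omega⟩
      have h5 : (g + 1) * (k + 1) = g * k + g + k + 1 := by ring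
      rw [h5]
      omega
    calc (((g + k - 1).choose k : ℕ) : ℚ) * ((m * k : ℚ) / g / X)
        = m * ((((g + k - 1).choose k : ℕ) : ℚ) * k / g / X) := by ring
      _ = m * ((((g + k - 1).choose (k - 1) : ℕ) : ℚ) / X) := by
          rw [e2]; field_simp
      _ ≤ m * 1 := by
          refine mul_le_mul_of_nonneg_left ?_ hm0
          rw [div_le_one hXq]
          exact_mod_cast h3
      _ = m := mul_one _
  push_cast
  linarith

theorem co_eq_zero {m d e : ℕ} (hm : 1 ≤ m) (hd : d ∣ m) (he : e ∣ m) (hk : kk m d e ≤ 1)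
    {l : List ℕ} (hl : l ∈ comps (Nat.gcd d e) (kk m d e)) : co m d e l = 0 := by
  have hk1 : kk m d e = 1 := le_antisymm hk (kk_posC hm hd he)
  rw [hk1] at hl
  have hs := supp_one hl
  have hX2 : (2 : ℚ) ≤ (XX m d e : ℚ) := by
    have h1 := le_XX (d := d) hm he
    have h2 : 2 ^ 1 ≤ 2 ^ m := Nat.pow_le_pow_right (by norm_num) hm
    exact_mod_cast (le_trans h2 h1)
  unfold co
  rw [hk1, hs, if_pos rfl, pow_one, pow_one, div_self (by linarith)]
  simp

theorem row_le {m a : ℕ} (hm : 1 ≤ m) :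
    ∑ a₁ ∈ (Finset.range (NN m)).filter (fun a₁ => per m a₁ < m), |KK m a a₁| ≤
      (rho m (per m a) : ℚ) / (NN m : ℚ) := by
  have he : per m a ∣ m := per_dvd hm
  set e := per m a with hedef
  have hm0 : (0 : ℚ) < m := by exact_mod_cast hm
  have hN0 : (0 : ℚ) ≤ NN m := Nat.cast_nonneg _
  -- pointwise bound
  have hpt : ∀ a₁, |KK m a a₁| ≤ ∑ d ∈ m.divisors.erase m,
      ((comps (Nat.gcd d e) (kk m d e)).map (fun l => |co m d e l| *
        ∑ r ∈ d.divisors, if (a₁ : ℤ) ≡ (bb m d a l : ℤ) [ZMOD (NN r : ℤ)] then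
          (NN r : ℚ) / (m * NN m : ℚ) else 0)).sum := by
    intro a₁
    unfold KK
    refine (Finset.abs_sum_le_sum_abs _ _).trans (Finset.sum_le_sum fun d _ => ?_)
    rw [← hedef]
    have habs : ∀ (L : List (List ℕ)) (f : List ℕ → ℚ), |(L.map f).sum| ≤
        (L.map (fun l => |f l|)).sum := by
      intro L f
      induction L with
      | nil => simp
      | cons x L ih =>
        simp only [List.map_cons, List.sum_cons]
        exact (abs_add_le _ _).trans (by linarith)
    refine (habs _ _).trans (List.sum_le_sum fun l _ => ?_)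
    rw [abs_mul]
    refine mul_le_mul_of_nonneg_left ?_ (abs_nonneg _)
    refine (Finset.abs_sum_le_sum_abs _ _).trans (Finset.sum_le_sum fun r _ => ?_)
    split_ifs
    · have h1 : |(ArithmeticFunction.moebius (d / r) : ℚ)| ≤ 1 := by
        have := ArithmeticFunction.abs_moebius_le_one (n := d / r)
        exact_mod_cast this
      rw [abs_div, abs_mul, abs_of_nonneg (by positivity : (0 : ℚ) ≤ (m : ℚ) * NN m),
        abs_of_nonneg (by positivity : (0 : ℚ) ≤ (NN r : ℚ))]
      refine div_le_div_of_nonneg_right ?_ (by positivity)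
      calc |(ArithmeticFunction.moebius (d / r) : ℚ)| * (NN r : ℚ) ≤ 1 * (NN r : ℚ) :=
            mul_le_mul_of_nonneg_right h1 (by positivity)
        _ = _ := one_mul _
    · simp
  refine (Finset.sum_le_sum fun a₁ _ => hpt a₁).trans ?_
  rw [Finset.sum_comm]
  -- sum over `a₁` inside the list
  have hlist : ∀ (L : List (List ℕ)) (T : Finset ℕ) (f : ℕ → List ℕ → ℚ),
      ∑ x ∈ T, (L.map (f x)).sum = (L.map (fun l => ∑ x ∈ T, f x l)).sum := by
    intro L T f
    induction L with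
    | nil => simp
    | cons y L ih => simp [Finset.sum_add_distrib, ih]
  have hd1 : ∀ d ∈ m.divisors.erase m,
      ∑ a₁ ∈ (Finset.range (NN m)).filter (fun a₁ => per m a₁ < m),
        ((comps (Nat.gcd d e) (kk m d e)).map (fun l => |co m d e l| *
        ∑ r ∈ d.divisors, if (a₁ : ℤ) ≡ (bb m d a l : ℤ) [ZMOD (NN r : ℤ)] then
          (NN r : ℚ) / (m * NN m : ℚ) else 0)).sum ≤
      (if kk m d e ≤ 1 then (0 : ℚ) else
        ((2 + (Nat.gcd d e - 1).choose (kk m d e - 1) : ℕ) : ℚ) *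
          ∑ r ∈ d.divisors, ((NN r : ℚ) * Rr m r)) / NN m := by
    intro d hd
    have hdm : d ∣ m := Nat.dvd_of_mem_divisors (Finset.mem_of_mem_erase hd)
    rw [hlist]
    have hin : ∀ l, ∑ a₁ ∈ (Finset.range (NN m)).filter (fun a₁ => per m a₁ < m),
        (|co m d e l| * ∑ r ∈ d.divisors, if (a₁ : ℤ) ≡ (bb m d a l : ℤ) [ZMOD (NN r : ℤ)] then
          (NN r : ℚ) / (m * NN m : ℚ) else 0) ≤
        |co m d e l| * ((∑ r ∈ d.divisors, ((NN r : ℚ) * Rr m r)) / (m * NN m)) := by
      intro l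
      rw [← Finset.mul_sum]
      refine mul_le_mul_of_nonneg_left ?_ (abs_nonneg _)
      rw [Finset.sum_comm, Finset.sum_div]
      refine Finset.sum_le_sum fun r hr => ?_
      have hrm : r ∣ m := (Nat.dvd_of_mem_divisors hr).trans hdm
      rw [← Finset.sum_filter, Finset.sum_const, Finset.filter_filter, nsmul_eq_mul]
      have hcard := card_imprimitive hm hrm (bb m d a l : ℤ)
      calc _ ≤ (Rr m r : ℚ) * ((NN r : ℚ) / (m * NN m : ℚ)) :=
            mul_le_mul_of_nonneg_right (by exact_mod_cast hcard) (by positivity)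
        _ = _ := by ring
    refine (List.sum_le_sum fun l _ => hin l).trans ?_
    rw [List.sum_map_mul_right]
    split_ifs with hk
    · have h0 : ((comps (Nat.gcd d e) (kk m d e)).map (fun l => |co m d e l|)).sum = 0 := by
        apply List.sum_eq_zero
        intro x hx
        rw [List.mem_map] at hx
        obtain ⟨l, hl, rfl⟩ := hx
        rw [co_eq_zero hm hdm he hk hl, abs_zero]
      rw [h0, zero_mul, zero_div]
    · have h1 := sum_abs_co hm hdm he (by omega)
      have h2 : (0 : ℚ) ≤ (∑ r ∈ d.divisors, ((NN r : ℚ) * Rr m r)) / (m * NN m) := by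
        positivity
      refine (mul_le_mul_of_nonneg_right h1 h2).trans (le_of_eq ?_)
      rw [mul_comm (m : ℚ) (NN m : ℚ), ← div_div, mul_comm (m : ℚ)]
      field_simp
  refine (Finset.sum_le_sum hd1).trans (le_of_eq ?_)
  rw [← Finset.sum_div]
  congr 1
  unfold rho
  push_cast
  refine Finset.sum_congr rfl fun d _ => ?_
  split_ifs
  · simp
  · rfl

end Num

end Pool.Agent.Lib.MP_02a407_al
end

section

/-!
# The numerical part: the result
-/

namespace Pool.Agent.Lib.MP_02a407_al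

namespace Num

theorem row_lt {m a : ℕ} (hm : 1 ≤ m) (ha : a < NN m) (ha' : per m a < m) :
    ∑ a₁ ∈ (Finset.range (NN m)).filter (fun a₁ => per m a₁ < m), |KK m a a₁| < 1 := by
  by_cases h : m = 4 ∨ m = 6 ∨ m = 8 ∨ m = 12
  · exact row_lt_exceptional h ha ha'
  · push Not at h
    obtain ⟨h4, h6, h8, h12⟩ := h
    refine lt_of_le_of_lt (row_le hm) ?_
    have hN : 0 < NN m := by
      rw [NN]
      have := Nat.one_lt_two_pow (n := m) (by omega)
      omega
    have hlt : rho m (per m a) < NN m := by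
      by_cases h150 : m < 150
      · exact rho_lt_of_small hm h150 h4 h6 h8 h12 (per_dvd hm) ha'
      · exact rho_lt_of_large (by omega) (per_dvd hm) ha'
    rw [div_lt_one (by exact_mod_cast hN)]
    exact_mod_cast hlt

/-- The matrix of the values is invertible. -/
theorem num_core {m : ℕ} (hm : 1 ≤ m) {ζ : ℂ} (hζ : IsPrimitiveRoot ζ (NN m)) {c : ℕ → ℂ}
    (hc : ∀ t < NN m, c ((2 * t) % NN m) = c t)
    (h : ∀ a < NN m, ∑ t ∈ Finset.range (NN m), c t * VV m ζ t a = 0) :
    ∀ t < NN m, c t = 0 := by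
  obtain ⟨y, hy, hy'⟩ := exists_reduced hm hζ hc h
  apply hy'
  have hN : 0 < NN m := by
    rw [NN]
    have := Nat.one_lt_two_pow (n := m) (by omega)
    omega
  have hprim : ∀ a < NN m, per m a = m → y a = 0 := by
    intro a ha hper
    rw [hy a ha]
    simp only [KK_of_per_eq hm hper, Rat.cast_zero, zero_mul, Finset.sum_const_zero, neg_zero]
  obtain ⟨a, ha, hmax⟩ := Finset.exists_max_image (Finset.range (NN m)) (fun a => ‖y a‖)
    ⟨0, Finset.mem_range.2 hN⟩
  rw [Finset.mem_range] at ha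
  suffices h0 : ‖y a‖ = 0 by
    intro b hb
    have := hmax b (Finset.mem_range.2 hb)
    rw [h0] at this
    exact norm_le_zero_iff.1 this
  by_contra hne
  have hpos : 0 < ‖y a‖ := lt_of_le_of_ne (norm_nonneg _) (Ne.symm hne)
  have hper : per m a < m := by
    refine lt_of_le_of_ne (Nat.le_of_dvd hm (per_dvd hm)) (fun h => ?_)
    rw [hprim a ha h, norm_zero] at hpos
    exact lt_irrefl _ hpos
  have h1 : ‖y a‖ ≤ (∑ a₁ ∈ (Finset.range (NN m)).filter (fun a₁ => per m a₁ < m),
      |KK m a a₁| : ℚ) * ‖y a‖ := by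
    conv_lhs => rw [hy a ha, norm_neg]
    have h2 : ∑ a₁ ∈ Finset.range (NN m), (KK m a a₁ : ℂ) * y a₁ =
        ∑ a₁ ∈ (Finset.range (NN m)).filter (fun a₁ => per m a₁ < m), (KK m a a₁ : ℂ) * y a₁ := by
      symm
      apply Finset.sum_subset (Finset.filter_subset _ _)
      intro b hb hb'
      rw [Finset.mem_filter, not_and, not_lt] at hb'
      have h3 : per m b = m := le_antisymm (Nat.le_of_dvd hm (per_dvd hm)) (hb' hb)
      rw [hprim b (Finset.mem_range.1 hb) h3, mul_zero]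
    rw [h2]
    refine (norm_sum_le _ _).trans ?_
    push_cast
    rw [Finset.sum_mul]
    refine Finset.sum_le_sum (fun b hb => ?_)
    rw [norm_mul]
    have h4 : ‖(KK m a b : ℂ)‖ = |((KK m a b : ℚ) : ℝ)| := by
      rw [← Complex.ofReal_ratCast, Complex.norm_real, Real.norm_eq_abs]
    rw [h4]
    exact mul_le_mul_of_nonneg_left (hmax b (Finset.mem_filter.1 hb).1) (abs_nonneg _)
  have h5 := row_lt hm ha hper
  have h6 : ((∑ a₁ ∈ (Finset.range (NN m)).filter (fun a₁ => per m a₁ < m),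
      |KK m a a₁| : ℚ) : ℝ) < 1 := by exact_mod_cast h5
  nlinarith

end Num

end Pool.Agent.Lib.MP_02a407_al
end
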