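import Pool.Agent.Lib.MP_02a407_al.Q2.Neck1
import Pool.Agent.Lib.MP_02a407_al.Q2.NormOne
import Pool.Agent.Lib.MP_02a407_al.Q2.Neck2
import Pool.Agent.Lib.MP_02a407_al.Q2.ZInj
import Pool.Agent.Lib.MP_02a407_al.Q2.NumF
import Pool.Agent.Lib.MP_02a407_al.Final

section

/-!
# The values of `HW` at the single cycles
-/

namespace Pool.Agent.Lib.MP_02a407_al

open Module Polynomial

set_option linter.unusedSectionVars false

variable {K : Type} [Field K] [Finite K] {𝕜 : Type} [Field 𝕜] [CharZero 𝕜]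
  {A : Type} [CommRing A] [Algebra ℚ A] [Algebra 𝕜 A]

/-- A periodic function only depends on the residue. -/
lemma vl_per {B : Type} (h : ℕ → B) (e : ℕ) (hp : ∀ i, h (i + e) = h i) (n : ℕ) :
    h n = h (n % e) := by
  have h1 : ∀ r i, h (e * r + i) = h i := by
    intro r
    induction r with
    | zero => intro i; rw [mul_zero, zero_add]
    | succ r ih =>
      intro i
      rw [show e * (r + 1) + i = (e * r + i) + e by ring, hp, ih]
  conv_lhs => rw [← Nat.div_add_mod n e]
  exact h1 _ _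

/-- The product over a period is invariant under the multiplication by a unit. -/
lemma vl_prod_coprime {B : Type} [CommMonoid B] (h : ℕ → B) {e c : ℕ} (he : 0 < e)
    (hp : ∀ i, h (i + e) = h i) (hc : Nat.Coprime c e) :
    ∏ u ∈ Finset.range e, h (c * u) = ∏ u ∈ Finset.range e, h u := by
  have h1 : ∀ u ∈ Finset.range e, h (c * u) = h (c * u % e) := fun u _ => vl_per h e hp _
  rw [Finset.prod_congr rfl h1]
  have hinj : Set.InjOn (fun u => c * u % e) (Finset.range e : Set ℕ) := by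
    intro a ha b hb hab
    simp only [Finset.coe_range, Set.mem_Iio] at ha hb
    have h2 : c * a ≡ c * b [MOD e] := hab
    have h3 : a ≡ b [MOD e] := Nat.ModEq.cancel_left_of_coprime
      (by rw [Nat.gcd_comm]; exact hc) h2
    exact Nat.ModEq.eq_of_lt_of_lt h3 ha hb
  have himg : (Finset.range e).image (fun u => c * u % e) = Finset.range e := by
    apply Finset.eq_of_subset_of_card_le
    · intro x hx
      obtain ⟨u, -, rfl⟩ := Finset.mem_image.1 hx
      exact Finset.mem_range.2 (Nat.mod_lt _ he)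
    · rw [Finset.card_image_of_injOn hinj]
  conv_rhs => rw [← himg]
  rw [Finset.prod_image hinj]

/-- The sum over a multiple of the period. -/
lemma vl_sum_period {B : Type} [AddCommMonoid B] (g : ℕ → B) (e : ℕ)
    (hg : ∀ i, g (i + e) = g i) (r : ℕ) :
    ∑ i ∈ Finset.range (r * e), g i = r • ∑ i ∈ Finset.range e, g i := by
  have hg2 : ∀ r i, g (r * e + i) = g i := by
    intro r
    induction r with
    | zero => intro i; rw [zero_mul, zero_add]
    | succ r ih =>
      intro i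
      rw [show (r + 1) * e + i = (r * e + i) + e by ring, hg, ih]
  induction r with
  | zero => simp
  | succ r ih =>
    rw [add_mul, one_mul, Finset.sum_range_add, ih, succ_nsmul]
    congr 1
    exact Finset.sum_congr rfl fun i _ => hg2 r i

/-- A geometric sum. -/
lemma vl_geom {q a : ℕ} (hq : 2 ≤ q) (ha : 1 ≤ a) (n : ℕ) :
    ∑ u ∈ Finset.range n, q ^ (a * u) = (q ^ (a * n) - 1) / (q ^ a - 1) := by
  have h1 : 2 ≤ q ^ a := le_trans hq (Nat.le_self_pow (by omega) q)
  have h2 := Nat.geomSum_eq h1 n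
  rw [pow_mul, ← h2]
  exact Finset.sum_congr rfl fun u _ => pow_mul _ _ _

/-- The value of the character sums at a cycle. -/
lemma vl_tsum {d : ℕ} (hd : 1 ≤ d) (η : AlgebraicClosure K →* 𝕜) (f : PIdx K)
    {α : AlgebraicClosure K} (hα : aeval α f.f = 0) {i : ℕ}
    (hr : 1 ≤ d / Nat.gcd d f.deg * i) :
    tsum d η (f.toIdx (d / Nat.gcd d f.deg * i) hr) =
      ((f.deg / Nat.gcd d f.deg : ℕ) : 𝕜) * ∑ j ∈ Finset.range (Nat.gcd d f.deg),
        (η α ^ (Nat.card K ^ j * ((Nat.card K ^ f.deg - 1) /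
            (Nat.card K ^ (Nat.gcd d f.deg) - 1)))) ^ i := by
  have hq : 2 ≤ Nat.card K := Finite.one_lt_card
  have he : 0 < f.deg := f.deg_pos
  have hg : 0 < Nat.gcd d f.deg := Nat.gcd_pos_of_pos_left _ hd
  set q := Nat.card K with hqdef
  set g := Nat.gcd d f.deg with hgdef
  set d' := d / g with hd'
  set e' := f.deg / g with he'
  have hdd : d = g * d' := (Nat.mul_div_cancel' (Nat.gcd_dvd_left _ _)).symm
  have hee : f.deg = g * e' := (Nat.mul_div_cancel' (Nat.gcd_dvd_right _ _)).symm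
  have he'0 : 0 < e' := by
    rcases Nat.eq_zero_or_pos e' with h | h
    · rw [h, mul_zero] at hee; omega
    · exact h
  have hco : Nat.Coprime d' e' := Nat.coprime_div_gcd_div_gcd hg
  set s := f.toIdx (d' * i) hr with hs
  have hmem : α ∈ s.rts := (nk_mem_rts s α).2 hα
  have hdeg : s.f.natDegree = f.deg := rfl
  have hlen : s.len = d * (e' * i) := by
    change d' * i * f.deg = _
    rw [hee, hdd]
    ring
  have hfix : α ^ (q ^ f.deg) = α := nk_pow_card s hmem
  have hα0 : α ≠ 0 := nk_ne_zero s hmem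
  have hfix2 : ∀ (t : ℕ) (β : AlgebraicClosure K), β ^ (q ^ f.deg) = β →
      β ^ (q ^ (t * f.deg)) = β := by
    intro t β hβ
    induction t with
    | zero => simp
    | succ t ih => rw [add_mul, one_mul, pow_add, pow_mul, ih, hβ]
  -- one term
  have hterm : ∀ j : ℕ, η (α ^ (q ^ j)) ^ ((q ^ s.len - 1) / (q ^ d - 1)) =
      (η α ^ (q ^ j * ((q ^ f.deg - 1) / (q ^ g - 1)))) ^ i := by
    intro j
    set β := α ^ (q ^ j) with hβ
    have hβ1 : β ^ (q ^ f.deg) = β := by
      rw [hβ, ← pow_mul, mul_comm, pow_mul, hfix]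
    rw [hlen, ← vl_geom hq hd, mul_comm e' i, ← Finset.prod_pow_eq_pow_sum,
      nk_prod_period (fun u => η β ^ (q ^ (d * u))) e']
    · congr 1
      have h1 := vl_prod_coprime (fun u => η β ^ (q ^ (g * u))) (e := e') (c := d') he'0
        (by
          intro u
          rw [mul_add, ← hee, pow_add, mul_comm, pow_mul, ← map_pow, hβ1]) hco
      have h2 : ∏ u ∈ Finset.range e', η β ^ (q ^ (d * u)) =
          ∏ u ∈ Finset.range e', (fun u => η β ^ (q ^ (g * u))) (d' * u) := by
        refine Finset.prod_congr rfl fun u _ => ?_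
        change η β ^ (q ^ (d * u)) = η β ^ (q ^ (g * (d' * u)))
        rw [← mul_assoc, ← hdd]
      rw [h2, h1, Finset.prod_pow_eq_pow_sum, vl_geom hq hg, ← hee, hβ, map_pow, ← pow_mul]
    · intro u
      rw [mul_add, pow_add, mul_comm (q ^ (d * u)), pow_mul, ← map_pow]
      have h3 : d * e' = d' * f.deg := by rw [hee, hdd]; ring
      rw [h3, hfix2 d' β hβ1]
  have hper : ∀ j, (fun j => (η α ^ (q ^ j * ((q ^ f.deg - 1) / (q ^ g - 1)))) ^ i) (j + g) =
      (fun j => (η α ^ (q ^ j * ((q ^ f.deg - 1) / (q ^ g - 1)))) ^ i) j := by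
    intro j
    change (η α ^ (q ^ (j + g) * ((q ^ f.deg - 1) / (q ^ g - 1)))) ^ i =
      (η α ^ (q ^ j * ((q ^ f.deg - 1) / (q ^ g - 1)))) ^ i
    congr 1
    set N := (q ^ f.deg - 1) / (q ^ g - 1) with hN
    have hdvd : (q ^ g - 1) ∣ (q ^ f.deg - 1) := by
      rw [hee, pow_mul]
      exact Nat.sub_one_dvd_pow_sub_one _ _
    have h4 : (q ^ g - 1) * N = q ^ f.deg - 1 := Nat.mul_div_cancel' hdvd
    have h5 : 1 ≤ q ^ g := Nat.one_le_pow _ _ (by omega)
    have h6 : 1 ≤ q ^ f.deg := Nat.one_le_pow _ _ (by omega)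
    have h7 : η α ^ (q ^ f.deg - 1) = 1 := by
      rw [← map_pow]
      have : α ^ (q ^ f.deg - 1) = 1 := by
        apply mul_right_cancel₀ hα0
        rw [one_mul, ← pow_succ, Nat.sub_add_cancel h6, hfix]
      rw [this, map_one]
    have h8 : q ^ (j + g) * N = q ^ j * N + (q ^ f.deg - 1) * q ^ j := by
      rw [← h4, pow_add]
      obtain ⟨x, hx⟩ : ∃ x, q ^ g = x + 1 := ⟨q ^ g - 1, by omega⟩
      rw [hx, Nat.add_sub_cancel]
      ring
    rw [h8, pow_add, pow_mul (η α) (q ^ f.deg - 1), h7, one_pow, mul_one]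
  have hsum := vl_sum_period (fun j => (η α ^ (q ^ j * ((q ^ f.deg - 1) / (q ^ g - 1)))) ^ i) g
    hper e'
  rw [nsmul_eq_mul] at hsum
  rw [← hsum, tsum, nk_rts_eq s hmem, Multiset.map_map, hdeg, mul_comm e' g, ← hee,
    Finset.sum_eq_multiset_sum]
  congr 1
  apply Multiset.map_congr rfl
  intro j _
  exact hterm j

/-- The values of `HW` at the single cycles. `α` is a root of `f`, `e = deg f`. -/
theorem HW_cyc {d : ℕ} (hd : 1 ≤ d) (w : ℕ → A) (η : AlgebraicClosure K →* 𝕜) (f : PIdx K)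
    {α : AlgebraicClosure K} (hα : aeval α f.f = 0) (k : ℕ) :
    HW d w η (f.cyc (d / Nat.gcd d f.deg * k)) =
      pexp (fun i => w (f.deg / Nat.gcd d f.deg * i) *
        ∑ j ∈ Finset.range (Nat.gcd d f.deg), algebraMap 𝕜 A
          (η α ^ (Nat.card K ^ j * ((Nat.card K ^ f.deg - 1) /
            (Nat.card K ^ (Nat.gcd d f.deg) - 1))) ) ^ i) k := by
  have he : 0 < f.deg := f.deg_pos
  have hg : 0 < Nat.gcd d f.deg := Nat.gcd_pos_of_pos_left _ hd
  have htsum := fun (i : ℕ) (hr : 1 ≤ d / Nat.gcd d f.deg * i) =>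
    vl_tsum hd η f hα hr
  set q := Nat.card K with hqdef
  set g := Nat.gcd d f.deg with hgdef
  set d' := d / g with hd'
  set e' := f.deg / g with he'
  have hdd : d = g * d' := (Nat.mul_div_cancel' (Nat.gcd_dvd_left _ _)).symm
  have hee : f.deg = g * e' := (Nat.mul_div_cancel' (Nat.gcd_dvd_right _ _)).symm
  have he'0 : 0 < e' := by
    rcases Nat.eq_zero_or_pos e' with h | h
    · rw [h, mul_zero] at hee; omega
    · exact h
  have hd'0 : 0 < d' := by
    rcases Nat.eq_zero_or_pos d' with h | h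
    · rw [h, mul_zero] at hdd; omega
    · exact h
  have hco : Nat.Coprime d' e' := Nat.coprime_div_gcd_div_gcd hg
  have hdvd : ∀ a, d ∣ a * f.deg ↔ d' ∣ a := by
    intro a
    rw [hdd, hee, show a * (g * e') = g * (a * e') by ring, Nat.mul_dvd_mul_iff_left hg]
    exact hco.dvd_mul_right
  set v : ℕ → A := fun i => w (e' * i) *
        ∑ j ∈ Finset.range g, algebraMap 𝕜 A
          (η α ^ (q ^ j * ((q ^ f.deg - 1) / (q ^ g - 1)))) ^ i with hv
  -- values of `QW`
  have hQ0 : ∀ a, ¬ d' ∣ a → QW d w η (f.cyc a) = 0 := by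
    intro a ha
    apply QW_of_not_dvd
    rw [PIdx.cl_cyc, hdvd]
    exact ha
  have hQ : ∀ i, 1 ≤ i → QW d w η (f.cyc (d' * i)) = ((d * e' : ℕ) : A) * v i := by
    intro i hi
    have hr : 1 ≤ d' * i := Nat.mul_pos hd'0 hi
    have hlen : (f.toIdx (d' * i) hr).len = d * (e' * i) := by
      change d' * i * f.deg = _
      calc d' * i * f.deg = d' * i * (g * e') := by rw [← hee]
        _ = (g * d') * (e' * i) := by ring
        _ = d * (e' * i) := by rw [← hdd]
    rw [← f.cyc_toIdx (d' * i) hr, QW, primOf_cyc, hlen, if_pos (dvd_mul_right _ _),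
      Nat.mul_div_cancel_left _ hd, htsum i hr, map_mul, map_mul, map_natCast, map_natCast,
      map_sum]
    simp only [hv, map_pow]
    push_cast
    ring
  have hF0 : ∀ b, ¬ d' ∣ b → HW d w η (f.cyc b) = 0 := by
    intro b hb
    apply HW_of_not_dvd
    rw [PIdx.cl_cyc, hdvd]
    exact hb
  refine pexp_unique (v := v) (F := fun k => HW d w η (f.cyc (d' * k))) ?_ ?_ k
  · change HW d w η (f.cyc (d' * 0)) = 1
    rw [mul_zero, PIdx.cyc_zero, HW_zero_apply]
  · intro n hn
    change (n : ℚ) • HW d w η (f.cyc (d' * n)) =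
      ∑ p ∈ Finset.HasAntidiagonal.antidiagonal n, if p.1 = 0 then 0 else
        v p.1 * HW d w η (f.cyc (d' * p.2))
    have h1 : (((d' * n) * f.deg : ℕ) : ℚ) • HW d w η (f.cyc (d' * n)) =
        ∑ p ∈ Finset.HasAntidiagonal.antidiagonal (d' * n),
          QW d w η (f.cyc p.1) * HW d w η (f.cyc p.2) := by
      have h2 := congrArg (fun φ => PowerSeries.coeff (d' * n) (evp f φ)) (dg_HW d w η)
      simp only [map_mul, PowerSeries.coeff_mul, coeff_evp] at h2
      rw [dg_apply, PIdx.cl_cyc] at h2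
      exact h2
    have h3 : ∑ p ∈ Finset.HasAntidiagonal.antidiagonal (d' * n),
          QW d w η (f.cyc p.1) * HW d w η (f.cyc p.2) =
        ∑ p ∈ Finset.HasAntidiagonal.antidiagonal n,
          QW d w η (f.cyc (d' * p.1)) * HW d w η (f.cyc (d' * p.2)) := by
      symm
      refine Finset.sum_of_injOn (fun p : ℕ × ℕ => (d' * p.1, d' * p.2)) ?_ ?_ ?_ ?_
      · rintro ⟨a, b⟩ _ ⟨a', b'⟩ _ hab
        simp only [Prod.mk.injEq] at hab
        exact Prod.ext (Nat.eq_of_mul_eq_mul_left hd'0 hab.1)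
          (Nat.eq_of_mul_eq_mul_left hd'0 hab.2)
      · rintro ⟨a, b⟩ hab
        have hab' : a + b = n := Finset.HasAntidiagonal.mem_antidiagonal.1 hab
        refine Finset.HasAntidiagonal.mem_antidiagonal.2 ?_
        change d' * a + d' * b = d' * n
        rw [← mul_add, hab']
      · rintro ⟨a, b⟩ hab hnot
        have hab : a + b = d' * n := Finset.HasAntidiagonal.mem_antidiagonal.1 hab
        change QW d w η (f.cyc a) * HW d w η (f.cyc b) = 0
        by_cases ha : d' ∣ a
        · exfalso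
          apply hnot
          obtain ⟨a', rfl⟩ := ha
          have hb : d' ∣ b := by
            rw [← Nat.dvd_add_right (dvd_mul_right d' a'), hab]
            exact dvd_mul_right _ _
          obtain ⟨b', rfl⟩ := hb
          refine ⟨(a', b'), ?_, rfl⟩
          rw [← mul_add] at hab
          exact Finset.mem_coe.2 (Finset.HasAntidiagonal.mem_antidiagonal.2
            (Nat.eq_of_mul_eq_mul_left hd'0 hab))
        · rw [hQ0 a ha, zero_mul]
      · rintro ⟨a, b⟩ _
        rfl
    rw [h3] at h1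
    have h4 : ∑ p ∈ Finset.HasAntidiagonal.antidiagonal n,
          QW d w η (f.cyc (d' * p.1)) * HW d w η (f.cyc (d' * p.2)) =
        ((d * e' : ℕ) : ℚ) • ∑ p ∈ Finset.HasAntidiagonal.antidiagonal n, (if p.1 = 0 then 0 else
        v p.1 * HW d w η (f.cyc (d' * p.2))) := by
      rw [Finset.smul_sum]
      refine Finset.sum_congr rfl fun p _ => ?_
      split_ifs with hp
      · rw [hp, mul_zero, PIdx.cyc_zero, (isPrim_QW d w η).1, zero_mul, smul_zero]
      · rw [hQ p.1 (by omega), Algebra.smul_def, map_natCast]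
        ring
    have h7 : d' * n * f.deg = (d * e') * n := by
      have h8 : d * e' = d' * f.deg := by
        calc d * e' = (g * d') * e' := by rw [← hdd]
          _ = d' * (g * e') := by ring
          _ = d' * f.deg := by rw [← hee]
      rw [h8]
      ring
    rw [h4, h7] at h1
    have h5 : ((d * e' : ℕ) : ℚ) ≠ 0 := by
      have : 0 < d * e' := Nat.mul_pos hd he'0
      exact_mod_cast this.ne'
    have h6 := congrArg (fun x => ((d * e' : ℕ) : ℚ)⁻¹ • x) h1
    simp only [Nat.cast_mul (d * e') n, mul_smul, inv_smul_smul₀ h5] at h6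
    exact h6

end Pool.Agent.Lib.MP_02a407_al
end

section

/-!
# The hook functions
-/

namespace Pool.Agent.Lib.MP_02a407_al

open Module Polynomial

set_option linter.unusedSectionVars false

variable {K : Type} [Field K] [Finite K] {𝕜 : Type} [Field 𝕜] [IsAlgClosed 𝕜] [CharZero 𝕜]

/-- The generating function of the hooks, multiplied by `X + 1`. -/
noncomputable def hookA (d : ℕ) (η : AlgebraicClosure K →* 𝕜) : Hall K 𝕜[X] :=
  HW d (fun i => 1 - (-(X : 𝕜[X])) ^ i) η

/-- The hook functions. -/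
noncomputable def hook (d : ℕ) (η : AlgebraicClosure K →* 𝕜) (b : ℕ) : Hall K 𝕜 :=
  fun C => ((hookA d η C) /ₘ (X + 1)).coeff b

/-! ### auxiliary lemmas -/

lemma hk_ne_zero {d n : ℕ} (hd : 1 ≤ d) (hn : 1 ≤ n) {C : Cls K} (hC : cl C = d * n) : C ≠ 0 := by
  rintro rfl
  rw [cl_zero] at hC
  have := Nat.mul_pos hd hn
  omega

/-- evaluation of `HW` with polynomial weights -/
lemma hk_map_eval (d : ℕ) (w : ℕ → 𝕜[X]) (η : AlgebraicClosure K →* 𝕜) (z : 𝕜) (C : Cls K) :
    (HW d w η C).eval z = HW d (fun i => (w i).eval z) η C := by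
  have h := map_HW (K := K) (Polynomial.aeval z : 𝕜[X] →ₐ[𝕜] 𝕜) d w η
  have h1 := congrFun h C
  have e : (fun i => (Polynomial.aeval z : 𝕜[X] →ₐ[𝕜] 𝕜) (w i)) = fun i => (w i).eval z := by
    funext i
    rw [Polynomial.coe_aeval_eq_eval]
  rw [e] at h1
  rw [← h1, Hall.map_apply]
  change _ = (Polynomial.aeval z : 𝕜[X] →ₐ[𝕜] 𝕜) (HW d w η C)
  rw [Polynomial.coe_aeval_eq_eval]

lemma hk_map_evalQ (d : ℕ) (w : ℕ → 𝕜[X]) (η : AlgebraicClosure K →* 𝕜) (z : 𝕜) (C : Cls K) :
    (QW d w η C).eval z = QW d (fun i => (w i).eval z) η C := by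
  have h := map_QW (K := K) (Polynomial.aeval z : 𝕜[X] →ₐ[𝕜] 𝕜) d w η
  have h1 := congrFun h C
  have e : (fun i => (Polynomial.aeval z : 𝕜[X] →ₐ[𝕜] 𝕜) (w i)) = fun i => (w i).eval z := by
    funext i
    rw [Polynomial.coe_aeval_eq_eval]
  rw [e] at h1
  rw [← h1, Hall.map_apply]
  change _ = (Polynomial.aeval z : 𝕜[X] →ₐ[𝕜] 𝕜) (QW d w η C)
  rw [Polynomial.coe_aeval_eq_eval]

lemma hk_const (d : ℕ) (c : 𝕜) (η : AlgebraicClosure K →* 𝕜) (C : Cls K) :
    HW d (fun _ => (Polynomial.C c : 𝕜[X])) η C = Polynomial.C (HW d (fun _ => c) η C) := by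
  have h3 := map_HW (K := K) (Polynomial.CAlgHom (R := 𝕜) (A := 𝕜)) d (fun _ => c) η
  have h4 := congrFun h3 C
  rw [Hall.map_apply] at h4
  exact h4.symm

lemma hk_eval (d : ℕ) (η : AlgebraicClosure K →* 𝕜) (z : 𝕜) (C : Cls K) :
    (hookA d η C).eval z = HW d (fun i => 1 - (-z) ^ i) η C := by
  rw [hookA, hk_map_eval]
  congr 2
  funext i
  simp

lemma hk_eval_neg_one (d : ℕ) (η : AlgebraicClosure K →* 𝕜) {C : Cls K} (hC : C ≠ 0) :
    (hookA d η C).eval (-1) = 0 := by
  rw [hk_eval]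
  have e : (fun i : ℕ => (1 : 𝕜) - (-(-1)) ^ i) = fun _ => 0 := by
    funext i
    rw [neg_neg, one_pow, sub_self]
  rw [e, HW_zero_fun, Hall.one_of_ne hC]

lemma hk_X_add_one : (X + 1 : 𝕜[X]) = X - Polynomial.C (-1) := by
  rw [map_neg, map_one, sub_neg_eq_add]

lemma hk_monic : (X + 1 : 𝕜[X]).Monic := by
  rw [hk_X_add_one]
  exact monic_X_sub_C _

lemma hk_mul_div (d : ℕ) (η : AlgebraicClosure K →* 𝕜) {C : Cls K} (hC : C ≠ 0) :
    (X + 1) * (hookA d η C /ₘ (X + 1)) = hookA d η C := by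
  have h := hk_eval_neg_one d η hC
  rw [hk_X_add_one]
  exact mul_divByMonic_eq_iff_isRoot.2 h

/-- the coefficients of `hookA` -/
lemma hk_coeff {d : ℕ} (hd : 1 ≤ d) (η : AlgebraicClosure K →* 𝕜) (j : ℕ) (C : Cls K) :
    (hookA d η C).coeff j =
      (-1) ^ j * (HW d (fun _ => (1 : 𝕜)) η * dpart (d * j) (HW d (fun _ => (-1 : 𝕜)) η)) C := by
  have h1 : hookA d η = HW d (fun _ => (1 : 𝕜[X])) η *
      HW d (fun i => (-(X : 𝕜[X])) ^ i * Polynomial.C (-1 : 𝕜)) η := by
    rw [← HW_add, hookA]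
    congr 1
    funext i
    rw [map_neg, map_one, mul_neg, mul_one, sub_eq_add_neg]
  have h2 : ∀ D : Cls K, HW d (fun _ => (1 : 𝕜[X])) η D =
      Polynomial.C (HW d (fun _ => (1 : 𝕜)) η D) := by
    intro D
    have := hk_const d (1 : 𝕜) η D
    rw [map_one] at this
    exact this
  have h3 : ∀ D : Cls K, HW d (fun i => (-(X : 𝕜[X])) ^ i * Polynomial.C (-1 : 𝕜)) η D =
      (-X) ^ (cl D / d) * Polynomial.C (HW d (fun _ => (-1 : 𝕜)) η D) := by
    intro D
    rw [HW_pow_mul hd, hk_const]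
  rw [h1, Hall.mul_apply, ssum, Polynomial.finsetSum_coeff, Hall.mul_apply, ssum, Finset.mul_sum]
  refine Finset.sum_congr rfl fun W _ => ?_
  rw [h2, h3]
  have h4 : (Polynomial.C (HW d (fun _ => (1 : 𝕜)) η (cls W.sub)) *
      ((-X) ^ (cl (cls W.quo) / d) * Polynomial.C (HW d (fun _ => (-1 : 𝕜)) η (cls W.quo)))) =
      Polynomial.C ((-1) ^ (cl (cls W.quo) / d) * (HW d (fun _ => (1 : 𝕜)) η (cls W.sub) *
        HW d (fun _ => (-1 : 𝕜)) η (cls W.quo))) * X ^ (cl (cls W.quo) / d) := by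
    rw [neg_pow, map_mul, map_mul, map_pow, map_neg, map_one]
    ring
  rw [h4, Polynomial.coeff_C_mul, Polynomial.coeff_X_pow]
  by_cases hj : cl (cls W.quo) = d * j
  · rw [dpart_of_eq hj, hj, Nat.mul_div_cancel_left _ hd, if_pos rfl, mul_one]
  · rw [dpart_of_ne hj, mul_zero, mul_zero]
    by_cases hdv : d ∣ cl (cls W.quo)
    · rw [if_neg, mul_zero]
      rintro rfl
      exact hj (Nat.mul_div_cancel' hdv).symm
    · rw [HW_of_not_dvd _ _ hdv, mul_zero, mul_zero, zero_mul]

lemma hk_natDegree {d n : ℕ} (hd : 1 ≤ d) (η : AlgebraicClosure K →* 𝕜) {C : Cls K}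
    (hC : cl C = d * n) : (hookA d η C).natDegree ≤ n := by
  rw [natDegree_le_iff_coeff_eq_zero]
  intro j hj
  rw [hk_coeff hd, Hall.mul_apply, ssum, Finset.sum_eq_zero, mul_zero]
  intro W _
  rw [dpart_of_ne, mul_zero]
  have h1 := W.xp_cl_add
  have h2 : d * n < d * j := Nat.mul_lt_mul_of_pos_left hj hd
  omega

lemma hk_natDegree_lt {d n : ℕ} (hd : 1 ≤ d) (hn : 1 ≤ n) (η : AlgebraicClosure K →* 𝕜)
    {C : Cls K} (hC : cl C = d * n) : (hookA d η C /ₘ (X + 1)).natDegree < n := by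
  rw [natDegree_divByMonic _ hk_monic]
  have h1 := hk_natDegree hd η hC
  have h2 : (X + 1 : 𝕜[X]).natDegree = 1 := by
    rw [hk_X_add_one]
    exact natDegree_X_sub_C _
  omega

theorem hookA_eq {d n : ℕ} (hd : 1 ≤ d) (hn : 1 ≤ n) (η : AlgebraicClosure K →* 𝕜) {C : Cls K}
    (hC : cl C = d * n) :
    hookA d η C = (X + 1) * ∑ b ∈ Finset.range n, Polynomial.C (hook d η b C) * X ^ b := by
  have h1 := hk_mul_div d η (hk_ne_zero hd hn hC)
  have h2 := as_sum_range' _ n (hk_natDegree_lt hd hn η hC)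
  conv_lhs => rw [← h1, h2]
  congr 1
  refine Finset.sum_congr rfl fun b _ => ?_
  rw [← C_mul_X_pow_eq_monomial]
  rfl

/-- The generating function, evaluated at a scalar. -/
theorem HW_eval {d n : ℕ} (hd : 1 ≤ d) (hn : 1 ≤ n) (η : AlgebraicClosure K →* 𝕜) {C : Cls K}
    (hC : cl C = d * n) (z : 𝕜) :
    HW d (fun i => 1 - (-z) ^ i) η C =
      (1 + z) * ∑ b ∈ Finset.range n, z ^ b * hook d η b C := by
  rw [← hk_eval, hookA_eq hd hn η hC, eval_mul, eval_add, eval_X, eval_one, eval_finsetSum,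
    add_comm z]
  congr 1
  refine Finset.sum_congr rfl fun b _ => ?_
  rw [eval_mul, eval_C, eval_pow, eval_X, mul_comm]

/-- change of the weights in one degree -/
lemma hk_QW_nat {d n : ℕ} (hd : 1 ≤ d) (η : AlgebraicClosure K →* 𝕜) {C : Cls K}
    (hC : cl C = d * n) :
    QW d (fun i => (i : 𝕜)) η C = (n : 𝕜) * QW d (fun _ => (1 : 𝕜)) η C := by
  have h1 : dpart (cl C) (QW d (fun i => (i : 𝕜)) η) =
      (n : 𝕜) • dpart (cl C) (QW d (fun _ => (1 : 𝕜)) η) := by
    rw [QW, QW, primOf_dpart, primOf_dpart, primOf_smul]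
    congr 1
    funext s
    split_ifs with h1 h2
    · rw [cl_cyc', hC] at h1
      rw [h1, Nat.mul_div_cancel_left _ hd, one_mul]
    · rw [mul_zero]
    · rw [mul_zero]
  have h2 := congrFun h1 C
  rw [dpart_of_eq rfl] at h2
  rw [h2, Hall.smul_apply, dpart_of_eq rfl, smul_eq_mul]

/-- The alternating sum of the hooks is the primitive function. -/
theorem sum_hook {d n : ℕ} (hd : 1 ≤ d) (hn : 1 ≤ n) (η : AlgebraicClosure K →* 𝕜) {C : Cls K}
    (hC : cl C = d * n) :
    (d : 𝕜) * ∑ b ∈ Finset.range n, (-1) ^ b * hook d η b C = QW d (fun _ => (1 : 𝕜)) η C := by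
  set u : ℕ → 𝕜[X] := fun i => ∑ j ∈ Finset.range i, (-(X : 𝕜[X])) ^ j with hu
  set S : 𝕜[X] := ∑ b ∈ Finset.range n, Polynomial.C (hook d η b C) * X ^ b with hS
  have h1 : QW d (fun i => 1 - (-(X : 𝕜[X])) ^ i) η = (X + 1 : 𝕜[X]) • QW d u η := by
    rw [QW, QW, primOf_smul]
    congr 1
    funext s
    split_ifs with h
    · rw [← mul_assoc]
      congr 1
      have := mul_geom_sum (-(X : 𝕜[X])) (s.len / d)
      rw [hu]
      linear_combination this
    · rw [mul_zero]
  have h2 : ((cl C : ℕ) : ℚ) • hookA d η C = (X + 1) * (QW d u η * hookA d η) C := by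
    rw [← dg_apply, hookA, dg_HW, h1, smul_mul_assoc, Hall.smul_apply, smul_eq_mul]
  have h3 : ((cl C : ℕ) : ℚ) • S = (QW d u η * hookA d η) C := by
    rw [hookA_eq hd hn η hC, ← hS, ← mul_smul_comm] at h2
    exact mul_left_cancel₀ hk_monic.ne_zero h2
  have h4 : ((QW d u η * hookA d η) C).eval (-1) = QW d (fun i => (i : 𝕜)) η C := by
    rw [Hall.mul_apply, ssum, eval_finsetSum]
    have h5 : QW d (fun i => (i : 𝕜)) η C = (QW d (fun i => (i : 𝕜)) η * 1) C := by rw [mul_one]
    rw [h5, Hall.mul_apply, ssum]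
    refine Finset.sum_congr rfl fun W _ => ?_
    rw [eval_mul, hk_map_evalQ]
    congr 1
    · congr 2
      funext i
      rw [hu]
      simp [eval_finsetSum]
    · by_cases h0 : cls W.quo = 0
      · rw [h0, Hall.one_zero, hookA, HW_zero_apply, eval_one]
      · rw [hk_eval_neg_one d η h0, Hall.one_of_ne h0]
  have h5 : (((cl C : ℕ) : ℚ) • S).eval (-1) =
      (d : 𝕜) * n * ∑ b ∈ Finset.range n, (-1) ^ b * hook d η b C := by
    have e1 : ((cl C : ℕ) : ℚ) • S = Polynomial.C ((cl C : ℕ) : 𝕜) * S := by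
      rw [Algebra.smul_def]
      simp
    rw [e1, eval_mul, eval_C, hC, hS, eval_finsetSum, Nat.cast_mul]
    congr 1
    refine Finset.sum_congr rfl fun b _ => ?_
    rw [eval_mul, eval_C, eval_pow, eval_X, mul_comm]
  rw [h3, h4, hk_QW_nat hd η hC] at h5
  have hn0 : (n : 𝕜) ≠ 0 := by
    exact_mod_cast (by omega : n ≠ 0)
  apply mul_left_cancel₀ hn0
  rw [h5]
  ring

lemma hk_coeff_succ (d : ℕ) (η : AlgebraicClosure K →* 𝕜) {C : Cls K} (hC : C ≠ 0) (b : ℕ) :
    hook d η (b + 1) C = (hookA d η C).coeff (b + 1) - hook d η b C := by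
  have h := congrArg (fun p : 𝕜[X] => p.coeff (b + 1)) (hk_mul_div d η hC)
  simp only [add_mul, one_mul, coeff_add, coeff_X_mul] at h
  rw [hook, hook, ← h]
  ring

lemma hk_coeff_zero (d : ℕ) (η : AlgebraicClosure K →* 𝕜) {C : Cls K} (hC : C ≠ 0) :
    hook d η 0 C = (hookA d η C).coeff 0 := by
  have h := congrArg (fun p : 𝕜[X] => p.coeff 0) (hk_mul_div d η hC)
  simp only [add_mul, one_mul, coeff_add] at h
  rw [hook, ← h]
  simp

lemma hk_hLat_inv {d : ℕ} (hd : 1 ≤ d) (η : AlgebraicClosure K →* 𝕜) (m : ℕ) :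
    HLat (OO 𝕜) m (HW d (fun _ => (-1 : 𝕜)) η) := by
  induction m using Nat.strong_induction_on with
  | _ m ih =>
    rcases Nat.eq_zero_or_pos m with rfl | hm
    · rw [hLat_zero, HW_zero_apply]
      exact (OO 𝕜).one_mem
    · have hmul : HW d (fun _ => (1 : 𝕜)) η * HW d (fun _ => (-1 : 𝕜)) η = 1 := by
        rw [← HW_add]
        have e : (fun _ : ℕ => (1 : 𝕜) + -1) = fun _ => 0 := by
          funext i
          rw [add_neg_cancel]
        rw [e, HW_zero_fun]
      have h1 := HLat.mul_sub hm (HW_zero_apply d _ η) (HW_zero_apply d _ η)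
        (fun a _ => hLat_HW hd η a) ih
      rw [hmul] at h1
      have h2 := (h1.add (hLat_HW hd η m)).neg
      refine h2.congr fun C hC => ?_
      have hC0 : C ≠ 0 := by
        rintro rfl
        rw [cl_zero] at hC
        omega
      rw [Hall.neg_apply, Hall.add_apply, Hall.sub_apply, Hall.sub_apply, Hall.one_of_ne hC0]
      ring

lemma hk_hLat_coeff {d : ℕ} (hd : 1 ≤ d) (η : AlgebraicClosure K →* 𝕜) (j m : ℕ) :
    HLat (OO 𝕜) m (fun C => (hookA d η C).coeff j) := by
  have h1 : HLat (OO 𝕜) m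
      (HW d (fun _ => (1 : 𝕜)) η * dpart (d * j) (HW d (fun _ => (-1 : 𝕜)) η)) := by
    refine HLat.mul (fun a _ => hLat_HW hd η a) (fun a _ => ?_)
    by_cases ha : a = d * j
    · refine (hk_hLat_inv hd η a).congr fun C hC => ?_
      rw [dpart_of_eq (by rw [hC, ha])]
    · refine (HLat.zero (K := K) (𝕜 := 𝕜) (O := OO 𝕜)).congr fun C hC => ?_
      rw [dpart_of_ne (by rw [hC]; exact ha), Hall.zero_apply]
  have h2 := h1.smul (a := (-1) ^ j) ((OO 𝕜).pow_mem ((OO 𝕜).neg_mem (OO 𝕜).one_mem) j)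
  refine h2.congr fun C _ => ?_
  rw [Hall.smul_apply, smul_eq_mul, hk_coeff hd]

theorem hLat_hook {d n : ℕ} (hd : 1 ≤ d) (hn : 1 ≤ n) (η : AlgebraicClosure K →* 𝕜) (b : ℕ) :
    HLat (OO 𝕜) (d * n) (hook d η b) := by
  induction b with
  | zero =>
    refine (hk_hLat_coeff hd η 0 (d * n)).congr fun C hC => ?_
    rw [hk_coeff_zero d η (hk_ne_zero hd hn hC)]
  | succ b ih =>
    refine ((hk_hLat_coeff hd η (b + 1) (d * n)).sub ih).congr fun C hC => ?_
    rw [hk_coeff_succ d η (hk_ne_zero hd hn hC), Hall.sub_apply]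

/-- a polynomial which vanishes at all scalars except for `-1` -/
lemma hk_coeff_eq {n : ℕ} {a a' : ℕ → 𝕜}
    (h : ∀ z : 𝕜, (1 + z) * ∑ b ∈ Finset.range n, z ^ b * a b =
      (1 + z) * ∑ b ∈ Finset.range n, z ^ b * a' b) {b : ℕ} (hb : b < n) : a b = a' b := by
  set p : 𝕜[X] := ∑ b ∈ Finset.range n, Polynomial.C (a b) * X ^ b with hp
  set p' : 𝕜[X] := ∑ b ∈ Finset.range n, Polynomial.C (a' b) * X ^ b with hp'
  have h1 : (X + 1) * p = (X + 1) * p' := by
    apply Polynomial.funext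
    intro z
    have := h z
    rw [eval_mul, eval_mul, hp, hp', eval_finsetSum, eval_finsetSum]
    simp only [eval_add, eval_X, eval_one, eval_mul, eval_C, eval_pow]
    simp only [mul_comm (a _), mul_comm (a' _), add_comm z 1]
    exact this
  have h2 : p = p' := mul_left_cancel₀ hk_monic.ne_zero h1
  have h3 := congrArg (fun q : 𝕜[X] => q.coeff b) h2
  simp only [hp, hp', finsetSum_coeff, coeff_C_mul, coeff_X_pow] at h3
  simpa [hb] using h3

theorem integ_hook {d n : ℕ} (hd : 1 ≤ d) (hn : 1 ≤ n) {η : AlgebraicClosure K →* 𝕜}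
    (hη : IsPrimChar d η) {b : ℕ} (hb : b < n) :
    integ (d * n) (fun C => hook d η b C * Hall.inv (hook d η b) C) = 1 := by
  set B : ℕ → ℕ → 𝕜 := fun b c => integ (d * n) (fun C => hook d η b C * Hall.inv (hook d η c) C)
    with hB
  have key : ∀ z y : 𝕜, (1 + z) * ∑ b ∈ Finset.range n, z ^ b *
      ((1 + y) * ∑ c ∈ Finset.range n, y ^ c * B b c) =
      (1 + z) * ∑ b ∈ Finset.range n, z ^ b * ((1 + y) * y ^ b) := by
    intro z y
    have h1 := integ_HW hd hη (fun i => 1 - (-z) ^ i) (fun i => 1 - (-y) ^ i) n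
    rw [pexp_gram z y hn] at h1
    have h2 : integ (d * n) (fun C => HW d (fun i => 1 - (-z) ^ i) η C *
        Hall.inv (HW d (fun i => 1 - (-y) ^ i) η) C) =
        integ (d * n) (fun C => (1 + z) * ∑ b ∈ Finset.range n, z ^ b *
          ((1 + y) * ∑ c ∈ Finset.range n, y ^ c * (hook d η b C * Hall.inv (hook d η c) C))) := by
      refine integ_congr fun C hC => ?_
      rw [HW_eval hd hn η hC, Hall.inv_apply, HW_eval hd hn η (by rw [cl_invC, hC])]
      simp only [Finset.sum_mul, Finset.mul_sum]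
      rw [Finset.sum_comm]
      refine Finset.sum_congr rfl fun b _ => Finset.sum_congr rfl fun c _ => ?_
      rw [Hall.inv_apply]
      ring
    rw [h2, integ_mul_left, integ_sum] at h1
    have h3 : ∑ b ∈ Finset.range n, integ (d * n) (fun C => z ^ b *
          ((1 + y) * ∑ c ∈ Finset.range n, y ^ c * (hook d η b C * Hall.inv (hook d η c) C))) =
        ∑ b ∈ Finset.range n, z ^ b * ((1 + y) * ∑ c ∈ Finset.range n, y ^ c * B b c) := by
      refine Finset.sum_congr rfl fun b _ => ?_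
      rw [integ_mul_left, integ_mul_left, integ_sum]
      congr 2
      refine Finset.sum_congr rfl fun c _ => ?_
      rw [integ_mul_left]
    rw [h3] at h1
    rw [h1, mul_assoc]
    congr 1
    rw [Finset.mul_sum]
    refine Finset.sum_congr rfl fun b _ => ?_
    rw [mul_pow]
    ring
  have h4 : ∀ y : 𝕜, (1 + y) * ∑ c ∈ Finset.range n, y ^ c * B b c =
      (1 + y) * ∑ c ∈ Finset.range n, y ^ c * (if c = b then 1 else 0) := by
    intro y
    have h5 := hk_coeff_eq (fun z => key z y) hb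
    rw [h5]
    congr 1
    simp [hb]
  have h6 := hk_coeff_eq h4 hb
  rw [if_pos rfl] at h6
  exact h6

lemma hk_one_lt {d : ℕ} (hd : 1 ≤ d) : 1 < (Nat.card K : ℚ) ^ d := by
  have h1 : 1 < Nat.card K := Finite.one_lt_card
  exact one_lt_pow₀ (by exact_mod_cast h1) (by omega)

theorem nu_hook {d n : ℕ} (hd : 1 ≤ d) (hn : 1 ≤ n) (η : AlgebraicClosure K →* 𝕜) {b : ℕ}
    (hb : b < n) : PowerSeries.coeff (d * n) (nu K 𝕜 (hook d η b)) =
      algebraMap ℚ 𝕜 (nuh ((Nat.card K : ℚ) ^ d) n b) := by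
  refine hk_coeff_eq (a := fun b => PowerSeries.coeff (d * n) (nu K 𝕜 (hook d η b)))
    (a' := fun b => algebraMap ℚ 𝕜 (nuh ((Nat.card K : ℚ) ^ d) n b)) (fun z => ?_) hb
  have h1 := nu_HW (A := 𝕜) hd η (fun i => 1 - (-z) ^ i) n
  rw [pexp_nu (hk_one_lt (K := K) hd) z hn, coeff_nu] at h1
  have h2 : integ (d * n) (fun C => HW d (fun i => 1 - (-z) ^ i) η C * prm 𝕜 (oneP K) C) =
      integ (d * n) (fun C => (1 + z) * ∑ b ∈ Finset.range n, z ^ b *
        (hook d η b C * prm 𝕜 (oneP K) C)) := by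
    refine integ_congr fun C hC => ?_
    rw [HW_eval hd hn η hC, mul_assoc, Finset.sum_mul]
    congr 1
    refine Finset.sum_congr rfl fun b _ => ?_
    rw [mul_assoc]
  rw [h2, integ_mul_left, integ_sum] at h1
  simp only [integ_mul_left] at h1
  simp only [coeff_nu]
  rw [h1]
  congr 1
  refine Finset.sum_congr rfl fun b _ => ?_
  rw [mul_comm]

theorem ep_hook {d n : ℕ} (hd : 1 ≤ d) (hn : 1 ≤ n) (η : AlgebraicClosure K →* 𝕜) {b : ℕ}
    (hb : b < n) : PowerSeries.coeff (d * n) (ep K 𝕜 (hook d η b)) =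
      algebraMap ℚ 𝕜 ((-1) ^ ((d + 1) * n) * nuh ((Nat.card K : ℚ) ^ d) n (n - 1 - b)) := by
  refine hk_coeff_eq (a := fun b => PowerSeries.coeff (d * n) (ep K 𝕜 (hook d η b)))
    (a' := fun b => algebraMap ℚ 𝕜 ((-1) ^ ((d + 1) * n) *
      nuh ((Nat.card K : ℚ) ^ d) n (n - 1 - b))) (fun z => ?_) hb
  have h1 := ep_HW (A := 𝕜) hd η (fun i => 1 - (-z) ^ i) n
  rw [pexp_ep (hk_one_lt (K := K) hd) d z hn, coeff_ep] at h1
  have h2 : integ (d * n) (fun C => HW d (fun i => 1 - (-z) ^ i) η C * del1 K 𝕜 C) =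
      integ (d * n) (fun C => (1 + z) * ∑ b ∈ Finset.range n, z ^ b *
        (hook d η b C * del1 K 𝕜 C)) := by
    refine integ_congr fun C hC => ?_
    rw [HW_eval hd hn η hC, mul_assoc, Finset.sum_mul]
    congr 1
    refine Finset.sum_congr rfl fun b _ => ?_
    rw [mul_assoc]
  rw [h2, integ_mul_left, integ_sum] at h1
  simp only [integ_mul_left] at h1
  simp only [coeff_ep]
  rw [h1]
  congr 1
  refine Finset.sum_congr rfl fun b _ => ?_
  rw [mul_comm]

lemma hk_conj_eta (η : AlgebraicClosure K →* 𝕜) (τ : 𝕜 →+* ℂ) {α : AlgebraicClosure K}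
    (h : α ≠ 0) : starRingEnd ℂ (τ (η α)) = τ (η α⁻¹) := by
  obtain ⟨n, hn, -, hn2⟩ := exists_pow_eq_one α h
  have h1 : (τ (η α)) ^ n = 1 := by rw [← map_pow, ← map_pow, hn2, map_one, map_one]
  have h2 : ‖τ (η α)‖ = 1 := Complex.norm_eq_one_of_pow_eq_one h1 (by omega)
  rw [← Complex.inv_eq_conj h2]
  have h3 : τ (η α) * τ (η α⁻¹) = 1 := by
    rw [← map_mul, ← map_mul, mul_inv_cancel₀ h, map_one, map_one]
  exact inv_eq_of_mul_eq_one_right h3

lemma hk_conj_tsum (d : ℕ) (η : AlgebraicClosure K →* 𝕜) (τ : 𝕜 →+* ℂ) (s : CycleIndex K) :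
    ((starRingEnd ℂ).comp τ) (tsum d η s) = τ (tsum d (etaInv η) s) := by
  rw [tsum, tsum, map_multiset_sum, map_multiset_sum, Multiset.map_map, Multiset.map_map]
  congr 1
  refine Multiset.map_congr rfl fun α hα => ?_
  have h0 : α ≠ 0 := nk_ne_zero s hα
  simp only [Function.comp_apply, RingHom.comp_apply, map_pow]
  rw [hk_conj_eta η τ h0]
  rfl

lemma hk_map_HW (σ : 𝕜 →+* ℂ) (d : ℕ) (η : AlgebraicClosure K →* 𝕜) (C : Cls K) :
    (HW d (fun i => 1 - (-(X : 𝕜[X])) ^ i) η C).map σ =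
      hexp (primOf (fun s : CycleIndex K => if d ∣ s.len then
        (1 - (-(X : ℂ[X])) ^ (s.len / d)) * Polynomial.C ((d : ℂ) * σ (tsum d η s)) else 0)) C := by
  have h1 := congrFun (map_hexp (Polynomial.mapRingHom σ)
    (isPrim_QW d (fun i => 1 - (-(X : 𝕜[X])) ^ i) η).1) C
  rw [Hall.map_apply] at h1
  change (mapRingHom σ) (hexp (QW d (fun i => 1 - (-(X : 𝕜[X])) ^ i) η) C) = _
  rw [h1, QW, map_primOf]
  congr 2
  funext s
  split_ifs
  · simp
  · rw [map_zero]

/-- Complex conjugation of the values of the hooks. -/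
theorem conj_hook {d : ℕ} (hd : 1 ≤ d) (η : AlgebraicClosure K →* 𝕜) (b : ℕ) (C : Cls K)
    (τ : 𝕜 →+* ℂ) : starRingEnd ℂ (τ (hook d η b C)) = τ (hook d η b (invC C)) := by
  have h1 : (hookA d η C).map ((starRingEnd ℂ).comp τ) = (hookA d η (invC C)).map τ := by
    have h2 : hookA d η (invC C) = HW d (fun i => 1 - (-(X : 𝕜[X])) ^ i) (etaInv η) C := by
      have := congrFun (inv_HW hd (fun i => 1 - (-(X : 𝕜[X])) ^ i) η) C
      rw [← this]
      rfl
    rw [h2, hookA, hk_map_HW, hk_map_HW]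
    congr 2
    funext s
    rw [hk_conj_tsum]
  have h3 : ∀ (σ : 𝕜 →+* ℂ) (p : 𝕜[X]), (p /ₘ (X + 1)).map σ = p.map σ /ₘ (X + 1) := by
    intro σ p
    rw [map_divByMonic σ hk_monic]
    simp
  have h4 : starRingEnd ℂ (τ (hook d η b C)) =
      ((hookA d η C /ₘ (X + 1)).map ((starRingEnd ℂ).comp τ)).coeff b := by
    rw [coeff_map]
    rfl
  have h5 : τ (hook d η b (invC C)) = ((hookA d η (invC C) /ₘ (X + 1)).map τ).coeff b := by
    rw [coeff_map]
    rfl
  rw [h4, h5, h3, h3, h1]

end Pool.Agent.Lib.MP_02a407_al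
end

section

/-!
# The action of `Z` on the hooks
-/

namespace Pool.Agent.Lib.MP_02a407_al

open Module Polynomial

set_option linter.unusedSectionVars false

variable {K : Type} [Field K] [Finite K]

/-- The hooks are irreducible characters up to sign. -/
theorem hook_irr {d n : ℕ} (hd : 1 ≤ d) (hn : 1 ≤ n)
    {η : AlgebraicClosure K →* AlgebraicClosure ℚ} (hη : IsPrimChar d η) {b : ℕ} (hb : b < n)
    (I : IrrSys (AlgebraicClosure ℚ) ((Fin (d * n) → K) ≃ₗ[K] (Fin (d * n) → K))) :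
    ∃ (i : Fin I.n) (s : AlgebraicClosure ℚ), s ≠ 0 ∧
      ∀ g : (Fin (d * n) → K) ≃ₗ[K] (Fin (d * n) → K), hook d η b (cls g) = s * I.χ i g := by
  have hlat := hLat_hook (K := K) hd hn η b
  unfold HLat at hlat
  have hcf := ((gLat_iff I).1 hlat).1
  have hc := ((gLat_iff I).1 hlat).2
  obtain ⟨c, hcdef⟩ : ∃ c : Fin I.n → AlgebraicClosure ℚ, ∀ i, c i =
      pair (fun g : (Fin (d * n) → K) ≃ₗ[K] (Fin (d * n) → K) => hook d η b (cls g)) (I.χ i) :=
    ⟨_, fun i => rfl⟩
  have hsum : ∑ i, c i ^ 2 = 1 := by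
    have h1 := pair_eq_sum I hcf hcf
    rw [pair_eq_integ, Module.finrank_fin_fun, integ_hook hd hn hη hb] at h1
    rw [h1]
    exact Finset.sum_congr rfl fun i _ => by rw [hcdef, sq]
  have hreal : ∀ (τ : AlgebraicClosure ℚ →+* ℂ) (i : Fin I.n),
      starRingEnd ℂ (τ (c i)) = τ (c i) := by
    intro τ i
    rw [hcdef, pair, map_mul, map_inv₀, map_natCast, map_sum, map_mul, map_inv₀, map_natCast,
      map_sum]
    congr 1
    rw [← Equiv.sum_comp (Equiv.inv _)]
    refine Finset.sum_congr rfl fun g _ => ?_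
    rw [map_mul, map_mul, map_mul, Equiv.inv_apply, inv_inv, conj_hook hd, invC_cls,
      (I.isChar i).conj]
    rfl
  obtain ⟨i, hi, hj⟩ := norm_one c (fun i => by rw [hcdef]; exact hc i) hreal hsum
  refine ⟨i, c i, ?_, fun g => ?_⟩
  · rcases hi with h | h
    · rw [h]
      exact one_ne_zero
    · rw [h]
      exact neg_ne_zero.2 one_ne_zero
  · have h1 := I.complete _ hcf g
    rw [Finset.sum_eq_single i] at h1
    · rw [hcdef]
      exact h1
    · intro j _ hji
      rw [← hcdef, hj j hji, zero_mul]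
    · intro h
      exact absurd (Finset.mem_univ _) h

/-- The scalar `ω₀`. -/
noncomputable def omega (K : Type) [Field K] (d n : ℕ) : ℚ :=
  (Nat.card K : ℚ) ^ ((d * n).choose 2) * ((-1) ^ ((d + 1) * n) *
    ((Nat.card K : ℚ) ^ d) ^ (n.choose 2))

lemma omega_ne_zero (d n : ℕ) : omega K d n ≠ 0 := by
  have h : (Nat.card K : ℚ) ≠ 0 := by
    have : 0 < Nat.card K := Nat.card_pos
    positivity
  rw [omega]
  refine mul_ne_zero (pow_ne_zero _ h) (mul_ne_zero ?_ (pow_ne_zero _ (pow_ne_zero _ h)))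
  exact pow_ne_zero _ (by norm_num)

theorem Zop_hook {d n : ℕ} (hd : 1 ≤ d) (hn : 1 ≤ n)
    {η : AlgebraicClosure K →* AlgebraicClosure ℚ} (hη : IsPrimChar d η) {b : ℕ} (hb : b < n)
    {C : Cls K} (hC : cl C = d * n) :
    Zop (hook d η b) C * (Nat.card K : AlgebraicClosure ℚ) ^ (d * n * b) =
      algebraMap ℚ _ (omega K d n) * hook d η b C := by
  obtain ⟨I⟩ := nonempty_irrSys (AlgebraicClosure ℚ)
    ((Fin (d * n) → K) ≃ₗ[K] (Fin (d * n) → K))
  obtain ⟨i, s, hs, h⟩ := hook_irr hd hn hη hb I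
  obtain ⟨h1, h2⟩ := Zop_irr I i hs h
  rw [Module.finrank_fin_fun] at h1 h2
  rw [ep_hook hd hn η hb] at h1
  rw [h2 C hC, nu_hook hd hn η hb, ep_hook hd hn η hb]
  have hQ : (1 : ℚ) < (Nat.card K : ℚ) ^ d := by
    have h3 : 1 < Nat.card K := Finite.one_lt_card
    have h4 : (1 : ℚ) < (Nat.card K : ℚ) := by exact_mod_cast h3
    exact one_lt_pow₀ h4 (by omega)
  obtain ⟨h3, h4⟩ := nuh_ratio hQ hb
  rw [map_mul] at h1 ⊢
  have h5 := right_ne_zero_of_mul h1
  have h6 := left_ne_zero_of_mul h1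
  have h7 := congrArg (algebraMap ℚ (AlgebraicClosure ℚ)) h3
  rw [omega]
  simp only [map_mul, map_pow, map_neg, map_one, map_natCast] at h6 h7 ⊢
  have h8 : ((-1 : AlgebraicClosure ℚ) ^ ((d + 1) * n)) * (-1) ^ ((d + 1) * n) = 1 := by
    rw [← mul_pow]
    norm_num
  have h9 : (Nat.card K : AlgebraicClosure ℚ) ^ (d * n * b) =
      ((Nat.card K : AlgebraicClosure ℚ) ^ d) ^ (n * b) := by
    rw [← pow_mul, mul_assoc]
  rw [h9, div_mul_eq_mul_div, div_mul_eq_mul_div, div_eq_iff (mul_ne_zero h6 h5)]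
  linear_combination ((Nat.card K : AlgebraicClosure ℚ) ^ ((d * n).choose 2) * hook d η b C) * h7
    - ((Nat.card K : AlgebraicClosure ℚ) ^ ((d * n).choose 2) * hook d η b C *
      ((Nat.card K : AlgebraicClosure ℚ) ^ d) ^ (n.choose 2) *
      algebraMap ℚ (AlgebraicClosure ℚ) (nuh ((Nat.card K : ℚ) ^ d) n (n - 1 - b))) * h8

/-- `Z` maps the exponential function to a multiple of the primitive function. -/
theorem Zop_HW {d n : ℕ} (hd : 1 ≤ d) (hn : 1 ≤ n)
    {η : AlgebraicClosure K →* AlgebraicClosure ℚ} (hη : IsPrimChar d η)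
    {C : Cls K} (hC : cl C = d * n) :
    (d : AlgebraicClosure ℚ) * Zop (HW d (fun i =>
      1 - ((Nat.card K : AlgebraicClosure ℚ) ^ (d * n)) ^ i) η) C =
      (1 - (Nat.card K : AlgebraicClosure ℚ) ^ (d * n)) * algebraMap ℚ _ (omega K d n) *
        QW d (fun _ => (1 : AlgebraicClosure ℚ)) η C := by
  set x : AlgebraicClosure ℚ := (Nat.card K : AlgebraicClosure ℚ) ^ (d * n) with hx
  have h1 : Zop (HW d (fun i => 1 - x ^ i) η) C =
      (1 - x) * ∑ b ∈ Finset.range n, (-x) ^ b * Zop (hook d η b) C := by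
    have h2 : ∀ u ∈ unips (K := K) (M := cM (C : ConjClasses (GLInf K))),
        HW d (fun i => 1 - x ^ i) η (cls (cA (C : ConjClasses (GLInf K)) * u)) =
          (1 - x) * ∑ b ∈ Finset.range n, (-x) ^ b *
            hook d η b (cls (cA (C : ConjClasses (GLInf K)) * u)) := by
      intro u _
      have h3 := HW_eval hd hn η (C := cls (cA (C : ConjClasses (GLInf K)) * u))
        (by rw [cl_cls, finrank_cM', hC]) (-x)
      rw [neg_neg, ← sub_eq_add_neg] at h3
      exact h3
    rw [Zop, Finset.sum_congr rfl h2, ← Finset.mul_sum, Finset.sum_comm]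
    congr 1
    refine Finset.sum_congr rfl fun b _ => ?_
    rw [Zop, Finset.mul_sum]
  have h2 : ∀ b ∈ Finset.range n, (-x) ^ b * Zop (hook d η b) C =
      algebraMap ℚ _ (omega K d n) * ((-1) ^ b * hook d η b C) := by
    intro b hb
    have h3 := Zop_hook hd hn hη (Finset.mem_range.1 hb) hC
    rw [neg_pow, hx, ← pow_mul]
    linear_combination ((-1 : AlgebraicClosure ℚ) ^ b) * h3
  rw [h1, Finset.sum_congr rfl h2, ← Finset.mul_sum, ← sum_hook hd hn η hC]
  ring

end Pool.Agent.Lib.MP_02a407_al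
end

section

/-!
# The key theorem (`q = 2`)
-/

namespace Pool.Agent.Lib.MP_02a407_al

open Module Polynomial Num

set_option linter.unusedSectionVars false

variable {K : Type} [Field K] [Finite K]

/-- The function `φ_t` with `Z φ_t` a multiple of `PT t`. -/
noncomputable def FT (m : ℕ) (η : AlgebraicClosure K →* AlgebraicClosure ℚ) (t : ℕ) :
    Hall K (AlgebraicClosure ℚ) :=
  HW (per m t) (fun i => 1 - ((2 : AlgebraicClosure ℚ) ^ m) ^ i) (η ^ red m t)

/-- The scalar with `Z φ_t = Ω_t PT t`. -/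
noncomputable def Om (K : Type) [Field K] (m t : ℕ) : AlgebraicClosure ℚ :=
  (1 - (2 : AlgebraicClosure ℚ) ^ m) * algebraMap ℚ _ (omega K (per m t) (m / per m t))

theorem Om_ne_zero {m : ℕ} (hm : 1 ≤ m) (t : ℕ) : Om K m t ≠ 0 := by
  rw [Om]
  refine mul_ne_zero ?_ ?_
  · rw [sub_ne_zero]
    intro h
    have h2 : ((2 ^ m : ℕ) : AlgebraicClosure ℚ) = ((1 : ℕ) : AlgebraicClosure ℚ) := by
      push_cast; exact h.symm
    have h3 : 2 ^ m = 1 := by exact_mod_cast h2
    have := Nat.one_lt_two_pow (n := m) (by omega)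
    omega
  · rw [map_ne_zero_iff _ (algebraMap ℚ (AlgebraicClosure ℚ)).injective]
    exact omega_ne_zero _ _

theorem Om_mul_two {m : ℕ} (hm : 1 ≤ m) (t : ℕ) : Om K m ((2 * t) % NN m) = Om K m t := by
  rw [Om, Om, per_mul_two hm]

theorem Zop_FT (hq : Nat.card K = 2) {m : ℕ} (hm : 1 ≤ m) {γ : AlgebraicClosure K}
    {η : AlgebraicClosure K →* AlgebraicClosure ℚ} (hγ : IsPrimitiveRoot γ (NN m))
    (hη : IsPrimitiveRoot (η γ) (NN m)) (t : ℕ) {C : Cls K} (hC : cl C = m) :
    Zop (FT m η t) C = Om K m t * PT m η t C := by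
  have hd := per_pos (m := m) (t := t) hm
  have hdm : per m t * (m / per m t) = m := Nat.mul_div_cancel' (per_dvd hm)
  have hn : 1 ≤ m / per m t := Nat.div_pos (Nat.le_of_dvd hm (per_dvd hm)) hd
  have h1 := Zop_HW hd hn (isPrimChar_pow hq hm hγ hη t) (C := C) (by rw [hC, hdm])
  rw [hdm, hq, QW_eq_PT hq hm hγ hη t hC] at h1
  have hd0 : (per m t : AlgebraicClosure ℚ) ≠ 0 := by
    have : per m t ≠ 0 := by omega
    exact_mod_cast this
  apply mul_left_cancel₀ hd0
  rw [FT, Om]
  push_cast at h1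
  rw [h1]
  ring

lemma kk_spec {m d e : ℕ} (hm : 1 ≤ m) (hd : d ∣ m) (he : e ∣ m) :
    m / e = d / Nat.gcd d e * kk m d e := by
  have hd0 : 0 < d := Nat.pos_of_dvd_of_pos hd hm
  have he0 : 0 < e := Nat.pos_of_dvd_of_pos he hm
  have hg : 0 < Nat.gcd d e := Nat.gcd_pos_of_pos_left _ hd0
  obtain ⟨k, hk⟩ := Nat.lcm_dvd hd he
  have hl : Nat.gcd d e * Nat.lcm d e = d * e := Nat.gcd_mul_lcm d e
  have hkk : kk m d e = k := by
    rw [kk]
    apply Nat.div_eq_of_eq_mul_left (Nat.mul_pos hd0 he0)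
    rw [← hl]
    conv_lhs => rw [hk]
    ring
  rw [hkk]
  apply Nat.div_eq_of_eq_mul_left he0
  apply Nat.eq_of_mul_eq_mul_left hg
  have h2 : Nat.gcd d e * (d / Nat.gcd d e) = d := Nat.mul_div_cancel' (Nat.gcd_dvd_left d e)
  calc Nat.gcd d e * m = (Nat.gcd d e * Nat.lcm d e) * k := by
        conv_lhs => rw [hk]
        ring
    _ = d * e * k := by rw [hl]
    _ = (Nat.gcd d e * (d / Nat.gcd d e)) * e * k := by rw [h2]
    _ = _ := by ring

/-- The values of `φ_t` at the cycles are the numbers `VV`. -/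
theorem FT_cyc (hq : Nat.card K = 2) {m : ℕ} (hm : 1 ≤ m) {γ : AlgebraicClosure K}
    {η : AlgebraicClosure K →* AlgebraicClosure ℚ} (hγ : IsPrimitiveRoot γ (NN m))
    (hη : IsPrimitiveRoot (η γ) (NN m)) (t : ℕ) (f : PIdx K) {a : ℕ}
    (hf : aeval (γ ^ a) f.f = 0) (ha : f.deg = per m a) (τ : AlgebraicClosure ℚ →+* ℂ) :
    τ (FT m η t (f.cyc (m / per m a))) = VV m (τ (η γ)) t a := by
  have hd := per_pos (m := m) (t := t) hm
  have he := per_pos (m := m) (t := a) hm
  have hdm := per_dvd (m := m) (t := t) hm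
  have hem := per_dvd (m := m) (t := a) hm
  rw [FT, kk_spec hm hdm hem, ← ha, HW_cyc hd _ _ f hf, map_pexp, ha, VV]
  congr 1
  funext i
  rw [map_mul, map_sum, map_sub, map_one, map_pow, map_pow, map_ofNat]
  congr 1
  · rw [XX]
    push_cast
    ring
  · refine Finset.sum_congr rfl (fun j _ => ?_)
    rw [map_pow]
    congr 1
    change τ (((η ^ red m t) (γ ^ a)) ^ _) = _
    rw [MonoidHom.pow_apply, map_pow η, ← pow_mul, ← pow_mul, map_pow]
    congr 1
    have h1 : a * (NN (per m a) / NN (Nat.gcd (per m t) (per m a))) =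
        red m a * (NN m / NN (Nat.gcd (per m t) (per m a))) := by
      have hga : Nat.gcd (per m t) (per m a) ∣ per m a := Nat.gcd_dvd_right _ _
      have h2 := NN_dvd hga
      have h3 := NN_dvd hem
      obtain ⟨u, hu⟩ := h2
      obtain ⟨w, hw⟩ := h3
      have hpos : ∀ k, 1 ≤ k → 0 < NN k := by
        intro k hk
        rw [NN]
        have := Nat.one_lt_two_pow (n := k) (by omega)
        omega
      have hgp : 0 < NN (Nat.gcd (per m t) (per m a)) := hpos _ (Nat.gcd_pos_of_pos_left _ hd)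
      have hep : 0 < NN (per m a) := hpos _ he
      have h4 := red_mul (m := m) (t := a) hm
      have h5 : NN m / NN (per m a) = w := by rw [hw, Nat.mul_div_cancel_left _ hep]
      have h6 : NN (per m a) / NN (Nat.gcd (per m t) (per m a)) = u := by
        conv_lhs => rw [hu]
        rw [Nat.mul_div_cancel_left _ hgp]
      have h7 : NN m / NN (Nat.gcd (per m t) (per m a)) = u * w := by
        conv_lhs => rw [hw, hu, mul_assoc]
        rw [Nat.mul_div_cancel_left _ hgp]
      rw [h5] at h4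
      rw [h6, h7]
      conv_lhs => rw [← h4]
      ring
    have h8 : (Nat.card K ^ per m a - 1) / (Nat.card K ^ Nat.gcd (per m t) (per m a) - 1) =
        NN (per m a) / NN (Nat.gcd (per m t) (per m a)) := by
      rw [hq, NN, NN]
    rw [h8, hq]
    calc a * (red m t * (2 ^ j * (NN (per m a) / NN (Nat.gcd (per m t) (per m a))))) =
        red m t * (a * (NN (per m a) / NN (Nat.gcd (per m t) (per m a)))) * 2 ^ j := by ring
      _ = _ := by rw [h1]; ring

/-- The key theorem: a function of degree `m` with vanishing mixed sums which vanishes at the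
single cycles is zero. -/
theorem key (hq : Nat.card K = 2) {m : ℕ} (hm : 1 ≤ m) {φ : Hall K (AlgebraicClosure ℚ)}
    (h : ∀ C D : Cls K, C ≠ 0 → D ≠ 0 → cl C + cl D = m → Del φ C D = 0)
    (h0 : ∀ s : CycleIndex K, s.len = m → φ (cyc s) = 0) :
    ∀ C, cl C = m → φ C = 0 := by
  have hN : 0 < NN m := by
    rw [NN]
    have := Nat.one_lt_two_pow (n := m) (by omega)
    omega
  obtain ⟨γ, η, hγ, hη⟩ := exists_eta K (AlgebraicClosure ℚ) m hm
  rw [hq] at hγ hη
  change IsPrimitiveRoot γ (NN m) at hγ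
  change IsPrimitiveRoot (η γ) (NN m) at hη
  set φ' : Hall K (AlgebraicClosure ℚ) := dpart m φ with hφ'
  have h0' : φ' 0 = 0 := dpart_of_ne (by rw [cl_zero]; omega)
  have hDel : ∀ C D : Cls K, C ≠ 0 → D ≠ 0 → Del φ' C D = 0 := by
    intro C D hC hD
    have hcl : ∀ (X : cM (D : ConjClasses (GLInf K)) →ₗ[K] cM (C : ConjClasses (GLInf K)))
        (Y : cM (C : ConjClasses (GLInf K)) →ₗ[K] cM (D : ConjClasses (GLInf K))),
        cl (cls (pairMap (cA (C : ConjClasses (GLInf K))) (cA (D : ConjClasses (GLInf K))) X Y)) =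
          cl C + cl D := by
      intro X Y
      rw [cl_cls, Module.finrank_prod]
      conv_rhs => rw [← cls_cA C, ← cls_cA D, cl_cls, cl_cls]
    by_cases hm' : cl C + cl D = m
    · rw [← h C D hC hD hm', Del, Del]
      refine Finset.sum_congr rfl (fun X _ => Finset.sum_congr rfl (fun Y _ => ?_))
      exact dpart_of_eq (by rw [hcl, hm'])
    · rw [Del]
      refine Finset.sum_eq_zero (fun X _ => Finset.sum_eq_zero (fun Y _ => ?_))
      exact dpart_of_ne (by rw [hcl]; exact hm')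
  have hP := isPrim_Zop h0' hDel
  obtain ⟨c, hc, hcP⟩ := exists_coeff hq hm hγ hη hP
  set c' : ℕ → AlgebraicClosure ℚ := fun t => c t / Om K m t with hc'
  have hinv : ∀ t < NN m, c' ((2 * t) % NN m) = c' t := by
    intro t ht
    simp only [hc']
    rw [hc t ht, Om_mul_two hm]
  have hlin : ∀ C : Cls K, Zop (fun E => φ' E - ∑ t ∈ Finset.range (NN m), c' t * FT m η t E) C =
      Zop φ' C - ∑ t ∈ Finset.range (NN m), c' t * Zop (FT m η t) C := by
    intro C
    simp only [Zop]
    rw [Finset.sum_sub_distrib, Finset.sum_comm]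
    simp only [Finset.mul_sum]
  have hZ : ∀ C : Cls K, cl C = m →
      Zop (fun E => φ' E - ∑ t ∈ Finset.range (NN m), c' t * FT m η t E) C = 0 := by
    intro C hC
    rw [hlin, sub_eq_zero]
    have h1 := hcP C hC
    change Zop φ' C = _ at h1
    rw [h1]
    refine Finset.sum_congr rfl (fun t _ => ?_)
    rw [Zop_FT hq hm hγ hη t hC, ← mul_assoc]
    congr 1
    simp only [hc']
    exact (div_mul_cancel₀ _ (Om_ne_zero hm t)).symm
  have hφ : ∀ C, cl C = m → φ C = ∑ t ∈ Finset.range (NN m), c' t * FT m η t C := by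
    intro C hC
    have h1 := Zop_injective (𝕜 := AlgebraicClosure ℚ) hZ C hC
    rw [sub_eq_zero] at h1
    rw [← h1]
    exact (dpart_of_eq hC).symm
  obtain ⟨τ⟩ : Nonempty (AlgebraicClosure ℚ →+* ℂ) := by
    have halg : Algebra.IsAlgebraic ℚ (AlgebraicClosure ℚ) := by
      have h := AlgebraicClosure.isAlgebraic ℚ
      have e : (DivisionRing.toRatAlgebra : Algebra ℚ (AlgebraicClosure ℚ)) =
        AlgebraicClosure.instAlgebra ℚ := Subsingleton.elim _ _
      rw [e]
      exact h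
    exact ⟨((IsAlgClosed.lift : AlgebraicClosure ℚ →ₐ[ℚ] ℂ) : AlgebraicClosure ℚ →+* ℂ)⟩
  have hζ : IsPrimitiveRoot (τ (η γ)) (NN m) := hη.map_of_injective τ.injective
  have hnum := num_core hm hζ (c := fun t => τ (c' t))
    (fun t ht => by simp only [hinv t ht]) (by
      intro a ha
      obtain ⟨f, hdeg, hroot, -⟩ := exists_cycle hq hm hγ a
      have hpa : per m a ∣ m := per_dvd hm
      have hpos : 1 ≤ m / per m a := Nat.div_pos (Nat.le_of_dvd hm hpa) (per_pos hm)
      have hlen : (f.toIdx (m / per m a) hpos).len = m := by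
        change (m / per m a) * f.deg = m
        rw [hdeg]
        exact Nat.div_mul_cancel hpa
      have h1 := h0 _ hlen
      rw [PIdx.cyc_toIdx, hφ _ (by rw [PIdx.cl_cyc, hdeg]; exact Nat.div_mul_cancel hpa)] at h1
      have h2 := congrArg τ h1
      rw [map_sum, map_zero] at h2
      rw [← h2]
      refine Finset.sum_congr rfl (fun t _ => ?_)
      rw [map_mul, FT_cyc hq hm hγ hη t f hroot hdeg τ])
  intro C hC
  rw [hφ C hC]
  refine Finset.sum_eq_zero (fun t ht => ?_)
  have h1 : τ (c' t) = 0 := hnum t (Finset.mem_range.1 ht)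
  rw [(map_eq_zero τ).1 h1, zero_mul]

end Pool.Agent.Lib.MP_02a407_al
end

section

/-!
# The polynomiality of `ℚ ⊗ 𝒢(2)`
-/

namespace Pool.Agent.Lib.MP_02a407_al

open Module TensorProduct

set_option linter.unusedSectionVars false

/-- A graded surjective linear map between spaces with bases of the same (finite) sizes is
bijective. -/
theorem bijective_of_graded {ι V W : Type} [AddCommGroup V] [Module ℚ V] [AddCommGroup W]
    [Module ℚ W] (v : Basis ι ℚ V) (w : Basis ι ℚ W) (Ψ : V →ₗ[ℚ] W) (d : ι → ℕ)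
    (hd : ∀ n, {i | d i = n}.Finite) (h : ∀ i j, w.repr (Ψ (v i)) j ≠ 0 → d i = d j)
    (hs : Function.Surjective Ψ) : Function.Bijective Ψ := by
  classical
  have hfin : ∀ n, Finite {i // d i = n} := fun n => hd n
  have hft : ∀ n, Nonempty (Fintype {i // d i = n}) := fun n => ⟨Fintype.ofFinite _⟩
  let ft : ∀ n, Fintype {i // d i = n} := fun n => (hft n).some
  let M : ∀ n, Matrix {i // d i = n} {i // d i = n} ℚ := fun n =>
    Matrix.of (fun i j => w.repr (Ψ (v i)) j)
  have hM : ∀ n i j, M n i j = w.repr (Ψ (v i)) j := fun n i j => rfl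
  have key : ∀ (n : ℕ) (x : V) (j : {i // d i = n}),
      Matrix.vecMul (fun i : {i // d i = n} => v.repr x i) (M n) j = w.repr (Ψ x) j := by
    intro n x j
    have h1 : x = ∑ i ∈ (v.repr x).support, v.repr x i • v i := by
      conv_lhs => rw [← v.linearCombination_repr x, Finsupp.linearCombination_apply, Finsupp.sum]
    have h2 : w.repr (Ψ x) j = ∑ i ∈ (v.repr x).support, v.repr x i * w.repr (Ψ (v i)) j := by
      conv_lhs => rw [h1]
      rw [map_sum, map_sum, Finsupp.finsetSum_apply]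
      apply Finset.sum_congr rfl
      intro i _
      rw [map_smul, map_smul, Finsupp.smul_apply, smul_eq_mul]
    have h3 : ∑ i ∈ (v.repr x).support, v.repr x i * w.repr (Ψ (v i)) j =
        ∑ i ∈ (hd n).toFinset, v.repr x i * w.repr (Ψ (v i)) j := by
      have h4 : ∑ i ∈ (v.repr x).support, v.repr x i * w.repr (Ψ (v i)) j =
          ∑ i ∈ (v.repr x).support ∪ (hd n).toFinset, v.repr x i * w.repr (Ψ (v i)) j := by
        apply Finset.sum_subset Finset.subset_union_left
        intro i _ hi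
        rw [Finsupp.notMem_support_iff] at hi
        rw [hi, zero_mul]
      rw [h4]
      symm
      apply Finset.sum_subset Finset.subset_union_right
      intro i _ hi
      rw [Set.Finite.mem_toFinset] at hi
      have : w.repr (Ψ (v i)) j = 0 := by
        by_contra h0
        exact hi ((h _ _ h0).trans j.2)
      rw [this, mul_zero]
    rw [h2, h3, Matrix.vecMul, dotProduct]
    symm
    refine Finset.sum_bij' (fun i hi => ⟨i, by
      rwa [Set.Finite.mem_toFinset] at hi⟩) (fun i _ => i.1) ?_ ?_ ?_ ?_ ?_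
    · intro i _; exact Finset.mem_univ _
    · intro i _
      rw [Set.Finite.mem_toFinset]; exact i.2
    · intro i _; rfl
    · intro i _; rfl
    · intro i _; rw [hM]
  have hdet : ∀ n, (M n).det ≠ 0 := by
    intro n
    choose x hx using fun j : {i // d i = n} => hs (w j)
    have h1 : (Matrix.of (fun j i : {i // d i = n} => v.repr (x j) i)) * M n = 1 := by
      ext j k
      have h2 := key n (x j) k
      rw [hx, w.repr_self, Finsupp.single_apply] at h2
      rw [Matrix.mul_apply, Matrix.one_apply]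
      rw [Matrix.vecMul, dotProduct] at h2
      simp only [Matrix.of_apply]
      rw [h2]
      by_cases hjk : j = k
      · rw [if_pos hjk, if_pos (congrArg _ hjk)]
      · rw [if_neg hjk, if_neg (fun h => hjk (Subtype.ext h))]
    have h2 := congrArg Matrix.det h1
    rw [Matrix.det_mul, Matrix.det_one] at h2
    exact right_ne_zero_of_mul_eq_one h2
  refine ⟨?_, hs⟩
  rw [injective_iff_map_eq_zero]
  intro x hx
  have hx3 : v.repr x = 0 := by
    ext i
    have h1 : (fun i' : {i' // d i' = d i} => v.repr x i') = 0 := by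
      apply Matrix.eq_zero_of_vecMul_eq_zero (hdet (d i))
      ext j
      rw [key, hx, map_zero]
      rfl
    exact congrFun h1 ⟨i, rfl⟩
  exact v.repr.map_eq_zero_iff.1 hx3

variable {K : Type} [Field K] [Finite K]

lemma coeffs_kc (F E : Cls K) : coeffs (kc F) (E : ConjClasses (GLInf K)) =
    (cent (cA (F : ConjClasses (GLInf K))) : ℤ) * ind (E = F) := by
  rw [kc, coeffs_smul, coeffs_classElt]
  rfl

/-- The product of the normalized classes is a sum over the mixed double coset. -/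
theorem kc_mul_eq (C D : Cls K) : kc C * kc D =
    ∑ X : cM (D : ConjClasses (GLInf K)) →ₗ[K] cM (C : ConjClasses (GLInf K)),
      ∑ Y : cM (C : ConjClasses (GLInf K)) →ₗ[K] cM (D : ConjClasses (GLInf K)),
        kc (cls (pairMap (cA (C : ConjClasses (GLInf K))) (cA (D : ConjClasses (GLInf K))) X Y)) := by
  classical
  have h1 : kc C * kc D = ((cent (cA (C : ConjClasses (GLInf K))) : ℤ) *
      (cent (cA (D : ConjClasses (GLInf K))) : ℤ)) • basisMul C D := by
    rw [kc, kc, smul_mul_smul_comm, classElt_mul]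
  have main : ∀ E : Cls K, coeffs (kc C * kc D) (E : ConjClasses (GLInf K)) = coeffs
      (∑ X : cM (D : ConjClasses (GLInf K)) →ₗ[K] cM (C : ConjClasses (GLInf K)),
      ∑ Y : cM (C : ConjClasses (GLInf K)) →ₗ[K] cM (D : ConjClasses (GLInf K)),
        kc (cls (pairMap (cA (C : ConjClasses (GLInf K))) (cA (D : ConjClasses (GLInf K))) X Y)))
        (E : ConjClasses (GLInf K)) := by
    intro E
    have hsum : coeffs
      (∑ X : cM (D : ConjClasses (GLInf K)) →ₗ[K] cM (C : ConjClasses (GLInf K)),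
      ∑ Y : cM (C : ConjClasses (GLInf K)) →ₗ[K] cM (D : ConjClasses (GLInf K)),
        kc (cls (pairMap (cA (C : ConjClasses (GLInf K))) (cA (D : ConjClasses (GLInf K))) X Y)))
        (E : ConjClasses (GLInf K)) =
        ∑ X : cM (D : ConjClasses (GLInf K)) →ₗ[K] cM (C : ConjClasses (GLInf K)),
      ∑ Y : cM (C : ConjClasses (GLInf K)) →ₗ[K] cM (D : ConjClasses (GLInf K)),
        coeffs (kc (cls (pairMap (cA (C : ConjClasses (GLInf K)))
          (cA (D : ConjClasses (GLInf K))) X Y))) (E : ConjClasses (GLInf K)) := by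
      rw [coeffs_sum]
      refine Finset.sum_congr rfl (fun X _ => ?_)
      rw [coeffs_sum]
    have hterm : ∀ (X : cM (D : ConjClasses (GLInf K)) →ₗ[K] cM (C : ConjClasses (GLInf K)))
        (Y : cM (C : ConjClasses (GLInf K)) →ₗ[K] cM (D : ConjClasses (GLInf K))),
        coeffs (kc (cls (pairMap (cA (C : ConjClasses (GLInf K)))
          (cA (D : ConjClasses (GLInf K))) X Y))) (E : ConjClasses (GLInf K)) =
        if HasType (pairMap (cA (C : ConjClasses (GLInf K))) (cA (D : ConjClasses (GLInf K))) X Y)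
          ((rep (E : ConjClasses (GLInf K)) : GLInf K) : V K ≃ₗ[K] V K) then
          (cent (cA (E : ConjClasses (GLInf K))) : ℤ) else 0 := by
      intro X Y
      have h3 : HasType (pairMap (cA (C : ConjClasses (GLInf K)))
          (cA (D : ConjClasses (GLInf K))) X Y)
          ((rep (E : ConjClasses (GLInf K)) : GLInf K) : V K ≃ₗ[K] V K) ↔
          E = cls (pairMap (cA (C : ConjClasses (GLInf K)))
            (cA (D : ConjClasses (GLInf K))) X Y) := by
        rw [hasType_iff_mk, mk_rep]; rfl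
      rw [coeffs_kc]
      by_cases h : E = cls (pairMap (cA (C : ConjClasses (GLInf K)))
            (cA (D : ConjClasses (GLInf K))) X Y)
      · rw [if_pos (h3.2 h), ind_pos h, mul_one, ← h]
      · rw [if_neg (fun h' => h (h3.1 h')), ind_neg h, mul_zero]
    rw [hsum, h1, coeffs_smul]
    by_cases h : cl E = cl C + cl D
    · have h' : clen (E : ConjClasses (GLInf K)) = clen (C : ConjClasses (GLInf K)) +
        clen (D : ConjClasses (GLInf K)) := h
      have h3 : coeffs (basisMul C D) (E : ConjClasses (GLInf K)) =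
        (structConst C D E : ℤ) := if_pos h'
      have h4 := count_identity (cA (C : ConjClasses (GLInf K))) (cA (D : ConjClasses (GLInf K)))
        (rep (E : ConjClasses (GLInf K)))
      have h2 : structConst C D E = Nat.card {p : GLInf K × GLInf K //
          p ∈ Fact (rep (E : ConjClasses (GLInf K))) ∧
          HasType (cA (C : ConjClasses (GLInf K))) (p.1 : V K ≃ₗ[K] V K) ∧
          HasType (cA (D : ConjClasses (GLInf K))) (p.2 : V K ≃ₗ[K] V K)} := by
        apply Nat.card_congr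
        apply Equiv.subtypeEquivRight
        rintro ⟨c, d⟩
        constructor
        · rintro ⟨h1, h2, h3⟩
          refine ⟨⟨h3, ?_⟩, hasType_cA_iff.2 h1, hasType_cA_iff.2 h2⟩
          rw [len_of_mk h1, len_of_mk h2]
          exact h.symm
        · rintro ⟨⟨h3, _⟩, h1, h2⟩
          exact ⟨hasType_cA_iff.1 h1, hasType_cA_iff.1 h2, h3⟩
      have h5 : centG ((rep (E : ConjClasses (GLInf K)) : GLInf K) : V K ≃ₗ[K] V K) =
        cent (cA (E : ConjClasses (GLInf K))) := rfl
      rw [← h2, h5] at h4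
      have h6 : (Nat.card {p : (cM (D : ConjClasses (GLInf K)) →ₗ[K]
          cM (C : ConjClasses (GLInf K))) × (cM (C : ConjClasses (GLInf K)) →ₗ[K]
          cM (D : ConjClasses (GLInf K))) // HasType (pairMap (cA (C : ConjClasses (GLInf K)))
            (cA (D : ConjClasses (GLInf K))) p.1 p.2)
            ((rep (E : ConjClasses (GLInf K)) : GLInf K) : V K ≃ₗ[K] V K)} : ℤ) *
            (cent (cA (E : ConjClasses (GLInf K))) : ℤ) =
          ∑ X : cM (D : ConjClasses (GLInf K)) →ₗ[K] cM (C : ConjClasses (GLInf K)),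
          ∑ Y : cM (C : ConjClasses (GLInf K)) →ₗ[K] cM (D : ConjClasses (GLInf K)),
          if HasType (pairMap (cA (C : ConjClasses (GLInf K)))
            (cA (D : ConjClasses (GLInf K))) X Y)
            ((rep (E : ConjClasses (GLInf K)) : GLInf K) : V K ≃ₗ[K] V K) then
            (cent (cA (E : ConjClasses (GLInf K))) : ℤ) else 0 := by
        rw [← Fintype.sum_prod_type', ← Finset.sum_filter, Finset.sum_const, nsmul_eq_mul]
        congr 2
        rw [Nat.card_eq_fintype_card, Fintype.card_subtype]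
      rw [h3, Finset.sum_congr rfl (fun X _ => Finset.sum_congr rfl (fun Y _ => hterm X Y)),
        ← h6, mul_comm]
      exact_mod_cast h4
    · have h' : ¬ clen (E : ConjClasses (GLInf K)) = clen (C : ConjClasses (GLInf K)) +
        clen (D : ConjClasses (GLInf K)) := h
      have h3 : coeffs (basisMul C D) (E : ConjClasses (GLInf K)) = 0 := if_neg h'
      rw [h3, mul_zero]
      symm
      refine Finset.sum_eq_zero (fun X _ => Finset.sum_eq_zero (fun Y _ => ?_))
      rw [coeffs_kc, ind_neg, mul_zero]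
      intro hE
      apply h
      rw [hE, cl_cls, Module.finrank_prod, finrank_cM', finrank_cM']
  exact Finsupp.ext main

lemma kc_cyc_mem (s : CycleIndex K) :
    (1 : ℚ) ⊗ₜ[ℤ] kc (cyc s) ∈ (genMap K).range := by
  have h1 : (1 : ℚ) ⊗ₜ[ℤ] classElt (cycleClass s) ∈ (genMap K).range :=
    ⟨MvPolynomial.X s, by
      change genMap K (MvPolynomial.X s) = _
      rw [genMap, MvPolynomial.aeval_X]⟩
  rw [kc_cyc] at h1
  have h2 := (genMap K).range.smul_mem h1 (cz (cyc s))
  rwa [smul_smul, mul_inv_cancel₀ (cent_ne _), one_smul] at h2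

theorem kc_mem_range (hq : Nat.card K = 2) (C : Cls K) :
    (1 : ℚ) ⊗ₜ[ℤ] kc C ∈ (genMap K).range := by
  induction hn : cl C using Nat.strong_induction_on generalizing C with
  | _ m ih =>
    rcases Nat.eq_zero_or_pos m with rfl | hm
    · rw [cl_eq_zero_iff] at hn
      rw [hn, kc_zero]
      exact (genMap K).range.one_mem
    by_contra hC
    have hC' : (1 : ℚ) ⊗ₜ[ℤ] kc C ∉ Subalgebra.toSubmodule (genMap K).range := hC
    obtain ⟨lam, h1, h2⟩ := Submodule.exists_le_ker_of_notMem hC'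
    let φ : Hall K (AlgebraicClosure ℚ) := fun E =>
      algebraMap ℚ (AlgebraicClosure ℚ) (lam ((1 : ℚ) ⊗ₜ[ℤ] kc E))
    have hφ : ∀ E, φ E = algebraMap ℚ (AlgebraicClosure ℚ) (lam ((1 : ℚ) ⊗ₜ[ℤ] kc E)) :=
      fun E => rfl
    have h0 : ∀ x ∈ (genMap K).range, lam x = 0 := fun x hx => h2 hx
    have hkey := key hq hm (φ := φ) (fun D E hD hE hDE => ?_) (fun s hs => ?_) C hn
    · rw [hφ, map_eq_zero_iff _ (algebraMap ℚ (AlgebraicClosure ℚ)).injective] at hkey
      exact h1 hkey
    · have hD' : 0 < cl D := Nat.pos_of_ne_zero (fun h => hD ((cl_eq_zero_iff D).1 h))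
      have hE' : 0 < cl E := Nat.pos_of_ne_zero (fun h => hE ((cl_eq_zero_iff E).1 h))
      have hDm := ih (cl D) (by omega) D rfl
      have hEm := ih (cl E) (by omega) E rfl
      have h3 := h0 _ ((genMap K).range.mul_mem hDm hEm)
      rw [Algebra.TensorProduct.tmul_mul_tmul, mul_one, kc_mul_eq] at h3
      rw [Del]
      simp only [hφ]
      rw [← map_zero (algebraMap ℚ (AlgebraicClosure ℚ)), ← h3]
      simp only [TensorProduct.tmul_sum, map_sum]
    · rw [hφ, h0 _ (kc_cyc_mem s), map_zero]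

theorem genMap_bijective_two (hq : Nat.card K = 2) : Function.Bijective (genMap K) := by
  have hex := fun (μ ν : CycleIndex K →₀ ℕ) => coord_Good (good_monomial μ) ν
  choose T hT using hex
  refine bijective_of_graded (MvPolynomial.basisMonomials (CycleIndex K) ℚ) (wBasis K)
    (genMap K).toLinearMap (fun μ => cl (theta K μ)) ?_ ?_ ?_
  · intro n
    exact Set.Finite.preimage theta_injective.injOn (finite_classes (K := K) n)
  · intro μ ν h
    rw [MvPolynomial.coe_basisMonomials, AlgHom.toLinearMap_apply, genMap_monomial, map_smul,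
      Finsupp.smul_apply, (hT μ ν).1, smul_eq_mul] at h
    apply (hT μ ν).2.1
    intro h0
    rw [h0] at h
    simp at h
  · change Function.Surjective (genMap K).toLinearMap
    rw [← LinearMap.range_eq_top, eq_top_iff, ← (wBasis K).span_eq, Submodule.span_le]
    rintro _ ⟨μ, rfl⟩
    rw [wBasis_apply]
    exact kc_mem_range hq (theta K μ)

theorem genMap_bijective_all : Function.Bijective (genMap K) := by
  have h1 : 1 < Nat.card K := Finite.one_lt_card
  by_cases h : Nat.card K = 2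
  · exact genMap_bijective_two h
  · exact genMap_bijective (by omega)

end Pool.Agent.Lib.MP_02a407_al
end

section

/-!
# The final statement, for all finite fields
-/

namespace Pool.Agent.Lib.MP_02a407_al

open Module Polynomial TensorProduct

open Classical in
theorem final_all (K : Type) [Field K] [Finite K] :
    ∃ (R : Type) (_ : CommRing R) (b : Basis (ConjClasses (GInf K)) ℤ R)
      (c : CycleIndex K → GInf K),
      (∀ x y z : GInf K,
        b.repr (b (ConjClasses.mk x) * b (ConjClasses.mk y)) (ConjClasses.mk z) =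
          if rlen z = rlen x + rlen y then
            (Nat.card {p : GInf K × GInf K // IsConj x p.1 ∧ IsConj y p.2 ∧ p.1 * p.2 = z} : ℤ)
          else 0) ∧
      (∀ s g, IsSingleCycle s g ↔ IsConj (c s) g) ∧
      Function.Bijective
        (MvPolynomial.aeval (fun s : CycleIndex K => (1 : ℚ) ⊗ₜ[ℤ] b (ConjClasses.mk (c s))) :
          MvPolynomial (CycleIndex K) ℚ →ₐ[ℚ] ℚ ⊗[ℤ] R) := by
  refine ⟨StableCenter K, inferInstance, gBasis K, cycElt, ?_, isSingleCycle_iff, ?_⟩
  · intro x y z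
    have h1 : ∀ g : GInf K, gBasis K (ConjClasses.mk g) = classElt (ConjClasses.mk g.sub) :=
      fun g => zBasis_apply _
    rw [h1, h1]
    exact mul_table x y z
  · have h2 : (fun s : CycleIndex K => (1 : ℚ) ⊗ₜ[ℤ] gBasis K (ConjClasses.mk (cycElt s))) =
        fun s => (1 : ℚ) ⊗ₜ[ℤ] classElt (cycleClass s) := by
      funext s
      congr 1
    rw [h2]
    exact genMap_bijective_all

end Pool.Agent.Lib.MP_02a407_al
end
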