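import Pool.Agent.Lib.MP_02a407_al.Q2.HallComm

/-!
# The Hall ring
-/

namespace Pool.Agent.Lib.MP_02a407_al

open Module

/-- The (completed) Hall ring: functions on the set of classes with the Hall product. -/
def Hall (K : Type) [Field K] (A : Type) : Type := Cls K → A

namespace Hall

variable {K : Type} [Field K] {A : Type}

@[ext] lemma ext {φ ψ : Hall K A} (h : ∀ C, φ C = ψ C) : φ = ψ := funext h

noncomputable instance [AddCommGroup A] : AddCommGroup (Hall K A) :=
  inferInstanceAs (AddCommGroup (Cls K → A))

noncomputable instance {R : Type} [Semiring R] [AddCommGroup A] [Module R A] :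
    Module R (Hall K A) := inferInstanceAs (Module R (Cls K → A))

@[simp] lemma add_apply [AddCommGroup A] (φ ψ : Hall K A) (C : Cls K) :
    (φ + ψ) C = φ C + ψ C := rfl

@[simp] lemma sub_apply [AddCommGroup A] (φ ψ : Hall K A) (C : Cls K) :
    (φ - ψ) C = φ C - ψ C := rfl

@[simp] lemma neg_apply [AddCommGroup A] (φ : Hall K A) (C : Cls K) : (-φ) C = -φ C := rfl

@[simp] lemma zero_apply [AddCommGroup A] (C : Cls K) : (0 : Hall K A) C = 0 := rfl

@[simp] lemma smul_apply {R : Type} [Semiring R] [AddCommGroup A] [Module R A] (r : R)
    (φ : Hall K A) (C : Cls K) : (r • φ) C = r • φ C := rfl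

lemma sum_apply [AddCommGroup A] {ι : Type*} (s : Finset ι) (f : ι → Hall K A) (C : Cls K) :
    (∑ i ∈ s, f i) C = ∑ i ∈ s, f i C := Finset.sum_apply C s f

set_option linter.unusedSectionVars false

variable [Finite K] [CommRing A]

noncomputable instance : Mul (Hall K A) := ⟨fun φ ψ => hmul φ ψ⟩

noncomputable instance : One (Hall K A) := ⟨hone⟩

lemma mul_apply (φ ψ : Hall K A) (C : Cls K) :
    (φ * ψ) C = ssum (fun D E => φ D * ψ E) C := rfl

lemma mul_cls (φ ψ : Hall K A) {M : Type} [AddCommGroup M] [Module K M] [FiniteDimensional K M]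
    (g : M ≃ₗ[K] M) : (φ * ψ) (cls g) = ∑ W : Stab g, φ (cls W.sub) * ψ (cls W.quo) :=
  hmul_cls φ ψ g

lemma one_zero : (1 : Hall K A) 0 = 1 := hone_zero

lemma one_of_ne {C : Cls K} (h : C ≠ 0) : (1 : Hall K A) C = 0 := hone_of_ne h

noncomputable instance : CommRing (Hall K A) :=
  { (inferInstance : AddCommGroup (Hall K A)) with
    mul := (· * ·)
    one := 1
    left_distrib := fun x y z => by
      ext C
      simp only [mul_apply, add_apply, ssum, mul_add, Finset.sum_add_distrib]
    right_distrib := fun x y z => by
      ext C
      simp only [mul_apply, add_apply, ssum, add_mul, Finset.sum_add_distrib]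
    zero_mul := fun x => by
      ext C
      simp only [mul_apply, zero_apply, ssum, zero_mul, Finset.sum_const_zero]
    mul_zero := fun x => by
      ext C
      simp only [mul_apply, zero_apply, ssum, mul_zero, Finset.sum_const_zero]
    mul_assoc := fun x y z => hmul_assoc x y z
    one_mul := fun x => hone_mul x
    mul_one := fun x => (hmul_comm x hone).trans (hone_mul x)
    mul_comm := fun x y => hmul_comm x y }

noncomputable instance {R : Type} [CommSemiring R] [Algebra R A] : Algebra R (Hall K A) :=
  Algebra.ofModule
    (fun r x y => by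
      ext C
      simp only [mul_apply, smul_apply, ssum, smul_mul_assoc, Finset.smul_sum])
    (fun r x y => by
      ext C
      simp only [mul_apply, smul_apply, ssum, mul_smul_comm, Finset.smul_sum])

/-- Change of coefficients, as a function. -/
def mapFun {B : Type} [CommRing B] (f : A →+* B) (φ : Hall K A) : Hall K B := fun C => f (φ C)

/-- Change of coefficients. -/
noncomputable def map {B : Type} [CommRing B] (f : A →+* B) : Hall K A →+* Hall K B where
  toFun φ := mapFun f φ
  map_zero' := by ext C; exact map_zero f
  map_one' := by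
    ext C
    change f ((1 : Hall K A) C) = (1 : Hall K B) C
    by_cases h : C = 0
    · rw [h, one_zero, one_zero, map_one]
    · rw [one_of_ne h, one_of_ne h, map_zero]
  map_add' x y := by ext C; exact map_add f _ _
  map_mul' x y := by
    ext C
    rw [mul_apply]
    change f ((x * y) C) = _
    rw [mul_apply, ssum, ssum, map_sum]
    simp only [map_mul, mapFun]

@[simp] lemma map_apply {B : Type} [CommRing B] (f : A →+* B) (φ : Hall K A) (C : Cls K) :
    map f φ C = f (φ C) := rfl

end Hall

end Pool.Agent.Lib.MP_02a407_al
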