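import Pool.Agent.Lib.MP_02a407_al.Q2.Stab

section

/-!
# The Hall product of functions on classes
-/

namespace Pool.Agent.Lib.MP_02a407_al

open Module

variable {K : Type} [Field K] [Finite K]

/-- The Hall product: `(φ ψ)(M) = ∑_W φ(W) ψ(M/W)` over the stable subspaces `W` of `M`. -/
noncomputable def hmul {A : Type} [CommRing A] (φ ψ : Cls K → A) : Cls K → A :=
  fun C => ssum (fun D E => φ D * ψ E) C

lemma hmul_cls {A : Type} [CommRing A] (φ ψ : Cls K → A) {M : Type} [AddCommGroup M] [Module K M]
    [FiniteDimensional K M] (g : M ≃ₗ[K] M) :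
    hmul φ ψ (cls g) = ∑ W : Stab g, φ (cls W.sub) * ψ (cls W.quo) :=
  ssum_cls _ g

open Classical in
/-- The unit of the Hall product. -/
noncomputable def hone {A : Type} [CommRing A] : Cls K → A := fun C => if C = 0 then 1 else 0

omit [Finite K] in
lemma hone_zero {A : Type} [CommRing A] : hone (K := K) (A := A) 0 = 1 := if_pos rfl

omit [Finite K] in
lemma hone_of_ne {A : Type} [CommRing A] {C : Cls K} (h : C ≠ 0) : hone (A := A) C = 0 := if_neg h

end Pool.Agent.Lib.MP_02a407_al
end

section

/-!
# Associativity of the Hall product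
-/

namespace Pool.Agent.Lib.MP_02a407_al

open Module

variable {K : Type} [Field K]

namespace Stab

variable {M : Type} [AddCommGroup M] [Module K M] {A : M ≃ₗ[K] M}

/-- the intersection of `U` and `W` as a stable subspace of `W` -/
def inn (W U : Stab A) : Stab W.sub :=
  ⟨U.space.comap W.space.subtype, fun x => by
    rw [Submodule.mem_comap, Submodule.mem_comap, Submodule.subtype_apply,
      Submodule.subtype_apply, coe_sub]
    exact U.mem_iff x⟩

/-- a stable subspace of `W` as a stable subspace of the whole space -/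
def out (W : Stab A) (U : Stab W.sub) : Stab A :=
  ⟨U.space.map W.space.subtype, fun x => by
    rw [Submodule.mem_map, Submodule.mem_map]
    constructor
    · rintro ⟨y, hy, hyx⟩
      rw [Submodule.subtype_apply] at hyx
      have hx : x ∈ W.space := (W.mem_iff x).1 (hyx ▸ y.2)
      refine ⟨⟨x, hx⟩, ?_, rfl⟩
      rw [← U.mem_iff]
      have : W.sub ⟨x, hx⟩ = y := Subtype.ext hyx.symm
      rw [this]
      exact hy
    · rintro ⟨y, hy, rfl⟩
      exact ⟨W.sub y, (U.mem_iff y).2 hy, rfl⟩⟩

/-- the image of `W` in the quotient by `U` -/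
noncomputable def qin (U W : Stab A) : Stab U.quo :=
  ⟨W.space.map U.space.mkQ, fun q => by
    obtain ⟨x, rfl⟩ := Submodule.Quotient.mk_surjective _ q
    rw [quo_mk, Submodule.mem_map, Submodule.mem_map]
    constructor
    · rintro ⟨w, hw, hwx⟩
      refine ⟨A.symm w, (W.mem_iff _).1 (by rw [A.apply_symm_apply]; exact hw), ?_⟩
      apply U.quo.injective
      rw [Submodule.mkQ_apply, quo_mk, quo_mk, A.apply_symm_apply]
      exact hwx
    · rintro ⟨w, hw, hwx⟩
      refine ⟨A w, (W.mem_iff w).2 hw, ?_⟩
      rw [Submodule.mkQ_apply] at hwx ⊢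
      rw [← quo_mk, hwx, quo_mk]⟩

/-- the preimage of a stable subspace of the quotient by `U` -/
noncomputable def qout (U : Stab A) (T : Stab U.quo) : Stab A :=
  ⟨T.space.comap U.space.mkQ, fun x => T.mem_iff (Submodule.Quotient.mk x)⟩

lemma space_inn (W U : Stab A) : (W.inn U).space = U.space.comap W.space.subtype := rfl
lemma space_out (W : Stab A) (U : Stab W.sub) : (W.out U).space = U.space.map W.space.subtype := rfl
lemma space_qin (U W : Stab A) : (U.qin W).space = W.space.map U.space.mkQ := rfl
lemma space_qout (U : Stab A) (T : Stab U.quo) : (U.qout T).space = T.space.comap U.space.mkQ := rfl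

lemma out_le (W : Stab A) (U : Stab W.sub) : (W.out U).space ≤ W.space := by
  rw [space_out]
  exact Submodule.map_subtype_le _ _

lemma inn_out (W : Stab A) (U : Stab W.sub) : W.inn (W.out U) = U := by
  ext1
  rw [space_inn, space_out]
  exact Submodule.comap_map_eq_of_injective W.space.injective_subtype _

lemma out_inn (W U : Stab A) (h : U.space ≤ W.space) : W.out (W.inn U) = U := by
  ext1
  rw [space_out, space_inn, Submodule.map_comap_subtype]
  exact inf_eq_right.2 h

lemma le_qout (U : Stab A) (T : Stab U.quo) : U.space ≤ (U.qout T).space := by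
  intro x hx
  rw [space_qout, Submodule.mem_comap, Submodule.mkQ_apply, (Submodule.Quotient.mk_eq_zero _).2 hx]
  exact T.space.zero_mem

lemma qin_qout (U : Stab A) (T : Stab U.quo) : U.qin (U.qout T) = T := by
  ext1
  rw [space_qin, space_qout]
  exact Submodule.map_comap_eq_of_surjective U.space.mkQ_surjective _

lemma qout_qin (U W : Stab A) (h : U.space ≤ W.space) : U.qout (U.qin W) = W := by
  ext1
  rw [space_qout, space_qin, Submodule.comap_map_mkQ]
  exact sup_eq_right.2 h

variable [FiniteDimensional K M]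

lemma cls_inn_sub (W U : Stab A) (h : U.space ≤ W.space) : cls (W.inn U).sub = cls U.sub := by
  refine cls_congr (Submodule.comapSubtypeEquivOfLe h) ?_
  intro x
  rfl

lemma cls_qin_quo (U W : Stab A) (h : U.space ≤ W.space) : cls (U.qin W).quo = cls W.quo := by
  refine cls_congr (Submodule.quotientQuotientEquivQuotient U.space W.space h) ?_
  intro x
  obtain ⟨y, rfl⟩ := Submodule.Quotient.mk_surjective _ x
  obtain ⟨z, rfl⟩ := Submodule.Quotient.mk_surjective _ y
  rfl

lemma cls_inn_quo (W U : Stab A) : cls (W.inn U).quo = cls (U.qin W).sub := by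
  have hf := LinearMap.submoduleMap_surjective U.space.mkQ W.space
  have hker : LinearMap.ker (U.space.mkQ.submoduleMap W.space) = (W.inn U).space := by
    ext x
    rw [LinearMap.mem_ker, space_inn, Submodule.mem_comap, Submodule.subtype_apply,
      ← Submodule.Quotient.mk_eq_zero, ← Submodule.mkQ_apply]
    exact ⟨fun h => congrArg Subtype.val h, fun h => Subtype.ext h⟩
  refine cls_congr ((Submodule.quotEquivOfEq _ _ hker.symm).trans
    ((U.space.mkQ.submoduleMap W.space).quotKerEquivOfSurjective hf)) ?_
  intro x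
  obtain ⟨y, rfl⟩ := Submodule.Quotient.mk_surjective _ x
  apply Subtype.ext
  rfl

lemma sum_inn [Finite K] {β : Type*} [AddCommMonoid β] (W : Stab A) (h : Stab W.sub → β) :
    ∑ U : Stab W.sub, h U =
      ∑ U : Stab A, open Classical in if U.space ≤ W.space then h (W.inn U) else 0 := by
  classical
  rw [← Finset.sum_filter]
  refine Finset.sum_bij' (fun U _ => W.out U) (fun U _ => W.inn U) ?_ ?_ ?_ ?_ ?_
  · intro U _
    rw [Finset.mem_filter]
    exact ⟨Finset.mem_univ _, W.out_le U⟩
  · intro U _
    exact Finset.mem_univ _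
  · intro U _
    exact W.inn_out U
  · intro U hU
    rw [Finset.mem_filter] at hU
    exact W.out_inn U hU.2
  · intro U _
    rw [W.inn_out U]

lemma sum_qin [Finite K] {β : Type*} [AddCommMonoid β] (U : Stab A) (h : Stab U.quo → β) :
    ∑ T : Stab U.quo, h T =
      ∑ W : Stab A, open Classical in if U.space ≤ W.space then h (U.qin W) else 0 := by
  classical
  rw [← Finset.sum_filter]
  refine Finset.sum_bij' (fun T _ => U.qout T) (fun W _ => U.qin W) ?_ ?_ ?_ ?_ ?_
  · intro T _
    rw [Finset.mem_filter]
    exact ⟨Finset.mem_univ _, U.le_qout T⟩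
  · intro W _
    exact Finset.mem_univ _
  · intro T _
    exact U.qin_qout T
  · intro W hW
    rw [Finset.mem_filter] at hW
    exact U.qout_qin W hW.2
  · intro T _
    rw [U.qin_qout T]

/-- the two descriptions of the sum over flags of two stable subspaces -/
lemma sum_flags [Finite K] {β : Type*} [AddCommMonoid β] (F : Cls K → Cls K → Cls K → β) :
    ∑ W : Stab A, ∑ U : Stab W.sub, F (cls U.sub) (cls U.quo) (cls W.quo) =
      ∑ U : Stab A, ∑ T : Stab U.quo, F (cls U.sub) (cls T.sub) (cls T.quo) := by
  classical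
  have h1 : ∀ W : Stab A, ∑ U : Stab W.sub, F (cls U.sub) (cls U.quo) (cls W.quo) =
      ∑ U : Stab A, if U.space ≤ W.space then
        F (cls U.sub) (cls (U.qin W).sub) (cls W.quo) else 0 := by
    intro W
    rw [W.sum_inn fun U => F (cls U.sub) (cls U.quo) (cls W.quo)]
    refine Finset.sum_congr rfl fun U _ => ?_
    by_cases h : U.space ≤ W.space
    · rw [if_pos h, if_pos h, cls_inn_sub W U h, cls_inn_quo W U]
    · rw [if_neg h, if_neg h]
  have h2 : ∀ U : Stab A, ∑ T : Stab U.quo, F (cls U.sub) (cls T.sub) (cls T.quo) =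
      ∑ W : Stab A, if U.space ≤ W.space then
        F (cls U.sub) (cls (U.qin W).sub) (cls W.quo) else 0 := by
    intro U
    rw [U.sum_qin fun T => F (cls U.sub) (cls T.sub) (cls T.quo)]
    refine Finset.sum_congr rfl fun W _ => ?_
    by_cases h : U.space ≤ W.space
    · rw [if_pos h, if_pos h, cls_qin_quo U W h]
    · rw [if_neg h, if_neg h]
  rw [Finset.sum_congr rfl fun W _ => h1 W, Finset.sum_congr rfl fun U _ => h2 U]
  exact Finset.sum_comm

end Stab

variable [Finite K]

/-- Associativity, in the general form of sums over flags of two stable subspaces. -/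
theorem ssum_ssum {β : Type*} [AddCommMonoid β] (F : Cls K → Cls K → Cls K → β) (C : Cls K) :
    ssum (fun D E => ssum (fun D' D'' => F D' D'' E) D) C =
      ssum (fun D E => ssum (fun E' E'' => F D E' E'') E) C := by
  have h1 : ∀ W : Stab (cA (C : ConjClasses (GLInf K))),
      ssum (fun D' D'' => F D' D'' (cls W.quo)) (cls W.sub) =
        ∑ U : Stab W.sub, F (cls U.sub) (cls U.quo) (cls W.quo) := fun W => ssum_cls _ _
  have h2 : ∀ U : Stab (cA (C : ConjClasses (GLInf K))),
      ssum (fun E' E'' => F (cls U.sub) E' E'') (cls U.quo) =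
        ∑ T : Stab U.quo, F (cls U.sub) (cls T.sub) (cls T.quo) := fun U => ssum_cls _ _
  have h3 := Stab.sum_flags (A := cA (C : ConjClasses (GLInf K))) F
  rw [← Finset.sum_congr rfl fun W _ => h1 W, ← Finset.sum_congr rfl fun U _ => h2 U] at h3
  exact h3

theorem hmul_assoc {A : Type} [CommRing A] (φ ψ χ : Cls K → A) :
    hmul (hmul φ ψ) χ = hmul φ (hmul ψ χ) := by
  funext C
  have h := ssum_ssum (fun D E E' => φ D * ψ E * χ E') C
  have h1 : hmul (hmul φ ψ) χ C =
      ssum (fun D E => ssum (fun D' D'' => φ D' * ψ D'' * χ E) D) C := by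
    simp only [hmul, ssum, Finset.sum_mul]
  have h2 : hmul φ (hmul ψ χ) C =
      ssum (fun D E => ssum (fun E' E'' => φ D * ψ E' * χ E'') E) C := by
    simp only [hmul, ssum, Finset.mul_sum, mul_assoc]
  rw [h1, h2]
  exact h

theorem hone_mul {A : Type} [CommRing A] (φ : Cls K → A) : hmul hone φ = φ := by
  funext C
  change ∑ W : Stab (cA (C : ConjClasses (GLInf K))), hone (cls W.sub) * φ (cls W.quo) = φ C
  rw [Fintype.sum_eq_single (Stab.bot _)]
  · have h1 : cls (Stab.bot (cA (C : ConjClasses (GLInf K)))).sub = 0 := by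
      rw [cls_eq_zero_iff, Stab.space_bot]
      infer_instance
    have h2 : cls (Stab.bot (cA (C : ConjClasses (GLInf K)))).quo = C := by
      have h3 : cls (Stab.bot (cA (C : ConjClasses (GLInf K)))).quo =
          cls (cA (C : ConjClasses (GLInf K))) := by
        refine cls_congr (Submodule.quotEquivOfEqBot _ (Stab.space_bot _)) ?_
        intro x
        obtain ⟨y, rfl⟩ := Submodule.Quotient.mk_surjective _ x
        rfl
      rw [h3, cls_cA]
    rw [h1, h2, hone_zero, one_mul]
  · intro W hW
    rw [hone_of_ne, zero_mul]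
    intro h
    rw [cls_eq_zero_iff] at h
    apply hW
    ext1
    rw [Stab.space_bot]
    exact (Submodule.subsingleton_iff_eq_bot).1 h

end Pool.Agent.Lib.MP_02a407_al
end

section

/-!
# Commutativity of the Hall product
-/

namespace Pool.Agent.Lib.MP_02a407_al

open Module

variable {K : Type} [Field K]

section

open Polynomial

lemma cls_dualMap_congr {M : Type} [AddCommGroup M] [Module K M] [FiniteDimensional K M]
    {N : Type} [AddCommGroup N] [Module K N] [FiniteDimensional K N] {g : M ≃ₗ[K] M}
    {h : N ≃ₗ[K] N} (hgh : cls g = cls h) : cls g.dualMap = cls h.dualMap := by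
  obtain ⟨e, he⟩ := cls_iso hgh
  symm
  refine cls_congr e.dualMap (fun f => ?_)
  ext x
  simp only [LinearEquiv.dualMap_apply]
  rw [he]

/-- Classes all of whose members are similar to their transpose. -/
def SelfDual (C : Cls K) : Prop := ∀ (M : Type) [AddCommGroup M] [Module K M]
  [FiniteDimensional K M] (g : M ≃ₗ[K] M), cls g = C → cls g.dualMap = C

lemma selfDual_of {M : Type} [AddCommGroup M] [Module K M] [FiniteDimensional K M]
    (g : M ≃ₗ[K] M) (h : cls g.dualMap = cls g) : SelfDual (cls g) := by
  intro N _ _ _ k hk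
  rw [cls_dualMap_congr hk, h]

lemma selfDual_zero : SelfDual (0 : Cls K) := by
  intro M _ _ _ g hg
  rw [cls_eq_zero_iff] at hg
  have : Subsingleton (Dual K M) := ⟨fun a b => by
    ext x
    rw [Subsingleton.elim x 0, map_zero, map_zero]⟩
  exact cls_subsingleton _

lemma selfDual_add {C D : Cls K} (hC : SelfDual C) (hD : SelfDual D) : SelfDual (C + D) := by
  have h1 := cls_cA C
  have h2 := cls_cA D
  have h3 := hC _ _ h1
  have h4 := hD _ _ h2
  have key : cls (prodAut (cA (C : ConjClasses (GLInf K)))
      (cA (D : ConjClasses (GLInf K)))).dualMap =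
      cls (prodAut (cA (C : ConjClasses (GLInf K)))
      (cA (D : ConjClasses (GLInf K)))) := by
    rw [cls_prod, h1, h2]
    conv_rhs => rw [← h3, ← h4]
    rw [← cls_prod]
    symm
    refine cls_congr (Module.dualProdDualEquivDual K _ _) ?_
    rintro ⟨a, b⟩
    refine LinearMap.ext ?_
    rintro ⟨x, y⟩
    rfl
  have h5 := selfDual_of _ key
  rwa [cls_prod, h1, h2] at h5

/-- The coefficient of `X ^ (n - 1)`. -/
noncomputable def topCoeff {P : K[X]} (hP : P.Monic) : AdjoinRoot P →ₗ[K] K :=
  (lcoeff K (P.natDegree - 1)) ∘ₗ (AdjoinRoot.modByMonicHom hP)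

/-- The pairing of `K[X]/(P)` with itself. -/
noncomputable def topPair {P : K[X]} (hP : P.Monic) :
    AdjoinRoot P →ₗ[K] Dual K (AdjoinRoot P) :=
  (LinearMap.mul K (AdjoinRoot P)).compr₂ (topCoeff hP)

lemma topPair_apply {P : K[X]} (hP : P.Monic) (x y : AdjoinRoot P) :
    topPair hP x y = topCoeff hP (x * y) := rfl

lemma topPair_injective {P : K[X]} (hP : P.Monic) : Function.Injective (topPair hP) := by
  rw [← LinearMap.ker_eq_bot, LinearMap.ker_eq_bot']
  intro x hx
  obtain ⟨a, rfl⟩ := AdjoinRoot.mk_surjective x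
  set r := a %ₘ P with hr
  have har : AdjoinRoot.mk P a = AdjoinRoot.mk P r := by
    rw [AdjoinRoot.mk_eq_mk, hr]
    have := Polynomial.modByMonic_add_div a P
    exact ⟨a /ₘ P, by linear_combination (-1 : K[X]) * this⟩
  by_contra hne
  have hr0 : r ≠ 0 := by
    intro h0
    apply hne
    rw [har, h0, map_zero]
  have hdeg : r.degree < P.degree := Polynomial.degree_modByMonic_lt a hP
  have hnd : r.natDegree < P.natDegree := Polynomial.natDegree_lt_natDegree hr0 hdeg
  have h1 := LinearMap.congr_fun hx (AdjoinRoot.mk P (X ^ (P.natDegree - 1 - r.natDegree)))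
  rw [topPair_apply, har, ← map_mul, topCoeff, LinearMap.comp_apply,
    AdjoinRoot.modByMonicHom_mk, lcoeff_apply, LinearMap.zero_apply] at h1
  have h2 : (r * X ^ (P.natDegree - 1 - r.natDegree)) %ₘ P =
      r * X ^ (P.natDegree - 1 - r.natDegree) := by
    rw [Polynomial.modByMonic_eq_self_iff hP]
    apply Polynomial.degree_lt_degree
    rw [natDegree_mul_X_pow _ hr0]
    omega
  rw [h2, coeff_mul_X_pow', if_pos (by omega)] at h1
  have h3 : P.natDegree - 1 - (P.natDegree - 1 - r.natDegree) = r.natDegree := by omega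
  rw [h3] at h1
  exact hr0 (Polynomial.leadingCoeff_eq_zero.1 h1)

lemma cls_rootAut_dualMap {P : K[X]} (hP : P.Monic) (h : IsCoprime X P) :
    haveI := finiteDimensional_adjoinRoot hP.ne_zero
    cls (rootAut P h).dualMap = cls (rootAut P h) := by
  have := finiteDimensional_adjoinRoot hP.ne_zero
  symm
  refine cls_congr (LinearEquiv.ofInjectiveOfFinrankEq (topPair hP) (topPair_injective hP)
    (Subspace.dual_finrank_eq).symm) ?_
  intro x
  refine LinearMap.ext (fun y => ?_)
  change topPair hP (AdjoinRoot.root P * x) y = topPair hP x (AdjoinRoot.root P * y)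
  rw [topPair_apply, topPair_apply]
  congr 1
  ring

lemma selfDual_cyc (s : CycleIndex K) : SelfDual (cyc s) := by
  have h : cyc s = cls (rootAut (s.f ^ s.r) (s.coprime_X_pow _)) := cycleClass_eq s
  rw [h]
  exact selfDual_of _ (cls_rootAut_dualMap (s.monic.pow _) _)

lemma selfDual_all (C : Cls K) : SelfDual C := by
  obtain ⟨μ, rfl⟩ := theta_surjective C
  induction μ using Finsupp.induction_linear with
  | zero => rw [map_zero]; exact selfDual_zero
  | add a b ha hb => rw [map_add]; exact selfDual_add ha hb
  | single s n =>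
    rw [theta_single]
    induction n with
    | zero => rw [zero_smul]; exact selfDual_zero
    | succ n ih => rw [succ_nsmul]; exact selfDual_add ih (selfDual_cyc s)

variable {M : Type} [AddCommGroup M] [Module K M]

/-- Every automorphism of a finite dimensional space is similar to its transpose. -/
theorem cls_dualMap [FiniteDimensional K M] (g : M ≃ₗ[K] M) : cls g.dualMap = cls g :=
  selfDual_all _ M g rfl

/-- The annihilator of a stable subspace. -/
def Stab.ann (g : M ≃ₗ[K] M) (W : Stab g) : Stab g.dualMap :=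
  ⟨W.space.dualAnnihilator, fun f => by
    rw [Submodule.mem_dualAnnihilator, Submodule.mem_dualAnnihilator]
    constructor
    · intro h w hw
      have h1 := h (g.symm w) ((W.mem_iff _).1 (by rwa [g.apply_symm_apply]))
      rwa [LinearEquiv.dualMap_apply, g.apply_symm_apply] at h1
    · intro h w hw
      rw [LinearEquiv.dualMap_apply]
      exact h _ ((W.mem_iff _).2 hw)⟩

lemma Stab.space_ann (g : M ≃ₗ[K] M) (W : Stab g) :
    (Stab.ann g W).space = W.space.dualAnnihilator := rfl

lemma Stab.ann_bijective [FiniteDimensional K M] (g : M ≃ₗ[K] M) :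
    Function.Bijective (Stab.ann g) := by
  constructor
  · intro W W' h
    apply Stab.ext
    have h1 := congrArg Stab.space h
    rw [Stab.space_ann, Stab.space_ann] at h1
    exact Subspace.dualAnnihilator_inj.1 h1
  · intro W
    refine ⟨⟨W.space.dualCoannihilator, fun x => ?_⟩, ?_⟩
    · rw [Submodule.mem_dualCoannihilator, Submodule.mem_dualCoannihilator]
      constructor
      · intro h f hf
        have h1 := h (g.dualMap.symm f)
          ((W.mem_iff _).1 (by rwa [LinearEquiv.apply_symm_apply]))
        rw [← LinearEquiv.dualMap_apply, LinearEquiv.apply_symm_apply] at h1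
        exact h1
      · intro h f hf
        rw [← LinearEquiv.dualMap_apply]
        exact h _ ((W.mem_iff _).2 hf)
    · apply Stab.ext
      rw [Stab.space_ann]
      exact Subspace.dualCoannihilator_dualAnnihilator_eq

lemma Stab.cls_ann_sub [FiniteDimensional K M] (g : M ≃ₗ[K] M) (W : Stab g) :
    cls (M := (Stab.ann g W).space) (Stab.ann g W).sub = cls W.quo := by
  rw [← cls_dualMap W.quo]
  symm
  refine cls_congr (Submodule.dualQuotEquivDualAnnihilator W.space) ?_
  intro f
  apply Subtype.ext
  refine LinearMap.ext (fun x => ?_)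
  rfl

lemma Stab.cls_ann_quo [FiniteDimensional K M] (g : M ≃ₗ[K] M) (W : Stab g) :
    cls (Stab.ann g W).quo = cls W.sub := by
  rw [← cls_dualMap W.sub]
  refine cls_congr (Subspace.quotAnnihilatorEquiv W.space) ?_
  intro f
  obtain ⟨f, rfl⟩ := Submodule.Quotient.mk_surjective _ f
  refine LinearMap.ext (fun x => ?_)
  rfl

end

variable [Finite K]

theorem ssum_comm {β : Type*} [AddCommMonoid β] (F : Cls K → Cls K → β) (C : Cls K) :
    ssum F C = ssum (fun D E => F E D) C := by
  have h1 := cls_cA C
  have h2 := cls_dualMap (cA (C : ConjClasses (GLInf K)))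
  rw [h1] at h2
  conv_lhs => rw [← h2]
  conv_rhs => rw [← h1]
  rw [ssum_cls, ssum_cls]
  symm
  refine Fintype.sum_equiv (Equiv.ofBijective _ (Stab.ann_bijective _)) _ _ (fun W => ?_)
  rw [Equiv.ofBijective_apply, Stab.cls_ann_sub, Stab.cls_ann_quo]

theorem hmul_comm {A : Type} [CommRing A] (φ ψ : Cls K → A) : hmul φ ψ = hmul ψ φ := by
  funext C
  rw [hmul, hmul, ssum_comm]
  simp only [mul_comm]

end Pool.Agent.Lib.MP_02a407_al
end
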