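import Pool.Agent.Lib.MP_02a407_al.Q2.Integ
import Pool.Agent.Lib.MP_02a407_al.Q2.PrmDef

section

/-!
# Primitive elements are determined by their values at the single cycle classes
-/

namespace Pool.Agent.Lib.MP_02a407_al

open Module Polynomial

/-! ### Spaces of intertwining maps -/

section Intertwine

variable {K : Type} [Field K]

/-- A dimension count: if `k` is injective on the kernel of `f` and maps it to `U`. -/
lemma finrank_le_range_add {V W U : Type} [AddCommGroup V] [Module K V] [FiniteDimensional K V]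
    [AddCommGroup W] [Module K W] [AddCommGroup U] [Module K U] [FiniteDimensional K U]
    (f : V →ₗ[K] W) (k : V →ₗ[K] U) (S : Submodule K U)
    (h1 : ∀ v, f v = 0 → k v ∈ S) (h2 : ∀ v, f v = 0 → k v = 0 → v = 0) :
    finrank K V ≤ finrank K (LinearMap.range f) + finrank K S := by
  have h3 := f.finrank_range_add_finrank_ker
  let k' : LinearMap.ker f →ₗ[K] S := LinearMap.codRestrict S (k ∘ₗ (LinearMap.ker f).subtype)
    (fun v => h1 v.1 (LinearMap.mem_ker.1 v.2))
  have hk' : Function.Injective k' := by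
    rw [← LinearMap.ker_eq_bot, LinearMap.ker_eq_bot']
    intro v hv
    apply Subtype.ext
    apply h2 v.1 (LinearMap.mem_ker.1 v.2)
    exact congrArg Subtype.val hv
  have h4 := LinearMap.finrank_le_finrank_of_injective hk'
  omega

variable {M N M' N' : Type} [AddCommGroup M] [Module K M] [AddCommGroup N] [Module K N]
  [AddCommGroup M'] [Module K M'] [AddCommGroup N'] [Module K N']

/-- The intertwining maps. -/
def Hm (A : M ≃ₗ[K] M) (B : N ≃ₗ[K] N) : Submodule K (M →ₗ[K] N) where
  carrier := {u | ∀ x, u (A x) = B (u x)}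
  add_mem' := by
    intro a b ha hb x
    rw [LinearMap.add_apply, LinearMap.add_apply, ha x, hb x, map_add]
  zero_mem' := by
    intro x
    rw [LinearMap.zero_apply, LinearMap.zero_apply, map_zero]
  smul_mem' := by
    intro c a ha x
    rw [LinearMap.smul_apply, LinearMap.smul_apply, ha x, map_smul]

lemma mem_Hm {A : M ≃ₗ[K] M} {B : N ≃ₗ[K] N} {u : M →ₗ[K] N} :
    u ∈ Hm A B ↔ ∀ x, u (A x) = B (u x) := Iff.rfl

lemma finrank_Hm_le [FiniteDimensional K M'] [FiniteDimensional K N']
    {A : M ≃ₗ[K] M} {B : N ≃ₗ[K] N} {A' : M' ≃ₗ[K] M'} {B' : N' ≃ₗ[K] N'}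
    (e : M ≃ₗ[K] M') (he : ∀ x, e (A x) = A' (e x))
    (f : N ≃ₗ[K] N') (hf : ∀ x, f (B x) = B' (f x)) :
    finrank K (Hm A B) ≤ finrank K (Hm A' B') := by
  have he' : ∀ x, e.symm (A' x) = A (e.symm x) := by
    intro x
    rw [LinearEquiv.symm_apply_eq, he, LinearEquiv.apply_symm_apply]
  let k : Hm A B →ₗ[K] Hm A' B' := LinearMap.codRestrict (Hm A' B')
    ((LinearEquiv.arrowCongr e f).toLinearMap ∘ₗ (Hm A B).subtype) (by
      intro u x
      change f (u.1 (e.symm (A' x))) = B' (f (u.1 (e.symm x)))
      rw [he', ← hf, u.2])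
  have hk : Function.Injective k := by
    intro u v huv
    apply Subtype.ext
    apply (LinearEquiv.arrowCongr e f).injective
    exact congrArg Subtype.val huv
  exact LinearMap.finrank_le_finrank_of_injective hk

end Intertwine

section UT

variable {K : Type} [Field K] {M₁ M₂ : Type} [AddCommGroup M₁] [Module K M₁] [AddCommGroup M₂]
  [Module K M₂] [FiniteDimensional K M₁] [FiniteDimensional K M₂]

/-- the endomorphisms of a nonsplit extension are fewer than those of the split one -/
lemma finrank_Hm_utAut_lt (A : M₁ ≃ₗ[K] M₁) (S : M₂ ≃ₗ[K] M₂) (X : M₂ →ₗ[K] M₁)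
    (h : cls (utAut A S X) ≠ cls (prodAut A S)) :
    finrank K (Hm (utAut A S X) (utAut A S X)) < finrank K (Hm (prodAut A S) (prodAut A S)) := by
  -- step 1
  have s1 : finrank K (Hm (utAut A S X) (utAut A S X)) ≤
      finrank K (Hm (utAut A S X) S) + finrank K (Hm (utAut A S X) A) := by
    let f : Hm (utAut A S X) (utAut A S X) →ₗ[K] Hm (utAut A S X) S :=
      LinearMap.codRestrict (Hm (utAut A S X) S) ((LinearMap.llcomp K (M₁ × M₂) (M₁ × M₂) M₂
        (LinearMap.snd K M₁ M₂)) ∘ₗ (Hm (utAut A S X) (utAut A S X)).subtype) (by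
        intro (u : Hm (utAut A S X) (utAut A S X)) x
        change (u.1 (utAut A S X x)).2 = S (u.1 x).2
        rw [u.2]
        rfl)
    let k : Hm (utAut A S X) (utAut A S X) →ₗ[K] (M₁ × M₂ →ₗ[K] M₁) :=
      ((LinearMap.llcomp K (M₁ × M₂) (M₁ × M₂) M₁
        (LinearMap.fst K M₁ M₂)) ∘ₗ (Hm (utAut A S X) (utAut A S X)).subtype)
    have hf : ∀ u : Hm (utAut A S X) (utAut A S X), f u = 0 → ∀ x, (u.1 x).2 = 0 := by
      intro u hu x
      have h1 := congrArg Subtype.val hu
      exact LinearMap.congr_fun h1 x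
    have h1 := finrank_le_range_add (K := K) (V := Hm (utAut A S X) (utAut A S X))
      (W := Hm (utAut A S X) S) (U := M₁ × M₂ →ₗ[K] M₁) f k (Hm (utAut A S X) A) (by
      intro (u : Hm (utAut A S X) (utAut A S X)) hu x
      change (u.1 (utAut A S X x)).1 = A (u.1 x).1
      rw [u.2, utAut_apply]
      simp only
      rw [hf u hu x, map_zero, add_zero]) (by
      intro u hu hk
      apply Subtype.ext
      apply LinearMap.ext
      intro x
      apply Prod.ext
      · exact LinearMap.congr_fun hk x
      · exact hf u hu x)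
    have h2 := Submodule.finrank_le (LinearMap.range f)
    omega
  -- step 2
  have s2 : finrank K (Hm (utAut A S X) S) ≤ finrank K (Hm A S) + finrank K (Hm S S) := by
    let f : Hm (utAut A S X) S →ₗ[K] Hm A S :=
      LinearMap.codRestrict (Hm A S) ((LinearMap.lcomp K M₂
        (LinearMap.inl K M₁ M₂)) ∘ₗ (Hm (utAut A S X) S).subtype) (by
        intro u x
        change (u.1 (A x, 0)) = S (u.1 (x, 0))
        rw [← u.2, utAut_apply]
        simp)
    let k : Hm (utAut A S X) S →ₗ[K] (M₂ →ₗ[K] M₂) :=
      ((LinearMap.lcomp K M₂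
        (LinearMap.inr K M₁ M₂)) ∘ₗ (Hm (utAut A S X) S).subtype)
    have hf : ∀ u : Hm (utAut A S X) S, f u = 0 → ∀ x, u.1 (x, 0) = 0 := by
      intro u hu x
      have h1 := congrArg Subtype.val hu
      exact LinearMap.congr_fun h1 x
    have h1 := finrank_le_range_add f k (Hm S S) (by
      intro u hu y
      change u.1 (0, S y) = S (u.1 (0, y))
      rw [← u.2, utAut_apply]
      simp only [map_zero, zero_add]
      have h3 : ((X y, S y) : M₁ × M₂) = (X y, 0) + (0, S y) := by simp
      rw [h3, map_add, hf u hu, zero_add]) (by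
      intro u hu hk
      apply Subtype.ext
      apply LinearMap.ext
      intro x
      have h3 : x = (x.1, 0) + (0, x.2) := by simp
      rw [h3, map_add, hf u hu, zero_add]
      exact LinearMap.congr_fun hk x.2)
    have h2 := Submodule.finrank_le (LinearMap.range f)
    omega
  -- step 3
  have s3 : finrank K (Hm (utAut A S X) A) < finrank K (Hm A A) + finrank K (Hm S A) := by
    let f : Hm (utAut A S X) A →ₗ[K] Hm A A :=
      LinearMap.codRestrict (Hm A A) ((LinearMap.lcomp K M₁
        (LinearMap.inl K M₁ M₂)) ∘ₗ (Hm (utAut A S X) A).subtype) (by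
        intro u x
        change (u.1 (A x, 0)) = A (u.1 (x, 0))
        rw [← u.2, utAut_apply]
        simp)
    let k : Hm (utAut A S X) A →ₗ[K] (M₂ →ₗ[K] M₁) :=
      ((LinearMap.lcomp K M₁
        (LinearMap.inr K M₁ M₂)) ∘ₗ (Hm (utAut A S X) A).subtype)
    have hf : ∀ u : Hm (utAut A S X) A, f u = 0 → ∀ x, u.1 (x, 0) = 0 := by
      intro u hu x
      have h1 := congrArg Subtype.val hu
      exact LinearMap.congr_fun h1 x
    have h1 := finrank_le_range_add f k (Hm S A) (by
      intro u hu y
      change u.1 (0, S y) = A (u.1 (0, y))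
      rw [← u.2, utAut_apply]
      simp only [map_zero, zero_add]
      have h3 : ((X y, S y) : M₁ × M₂) = (X y, 0) + (0, S y) := by simp
      rw [h3, map_add, hf u hu, zero_add]) (by
      intro u hu hk
      apply Subtype.ext
      apply LinearMap.ext
      intro x
      have h3 : x = (x.1, 0) + (0, x.2) := by simp
      rw [h3, map_add, hf u hu, zero_add]
      exact LinearMap.congr_fun hk x.2)
    have h2 : finrank K (LinearMap.range f) < finrank K (Hm A A) := by
      apply Submodule.finrank_lt
      intro htop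
      apply h
      have hid : (LinearMap.id : M₁ →ₗ[K] M₁) ∈ Hm A A := fun x => rfl
      have h4 : (⟨LinearMap.id, hid⟩ : Hm A A) ∈ LinearMap.range f := by
        rw [htop]; trivial
      obtain ⟨r, hr⟩ := h4
      have hr1 : ∀ x, r.1 (x, 0) = x := by
        intro x
        have := congrArg Subtype.val hr
        exact LinearMap.congr_fun this x
      have hr2 : ∀ x y, r.1 (x, y) = x + r.1 (0, y) := by
        intro x y
        have h3 : ((x, y) : M₁ × M₂) = (x, 0) + (0, y) := by simp
        rw [h3, map_add, hr1]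
      let e : (M₁ × M₂) ≃ₗ[K] (M₁ × M₂) :=
        { toFun := fun p => (r.1 p, p.2)
          map_add' := fun p q => by
            ext
            · simp
            · simp
          map_smul' := fun c p => by
            ext
            · simp
            · simp
          invFun := fun p => (p.1 - r.1 (0, p.2), p.2)
          left_inv := fun p => by
            ext
            · simp only
              rw [hr2 p.1 p.2]; abel
            · rfl
          right_inv := fun p => by
            ext
            · simp only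
              rw [hr2]; abel
            · rfl }
      refine cls_congr e (fun p => ?_)
      change (r.1 (utAut A S X p), (utAut A S X p).2) = prodAut A S (r.1 p, p.2)
      rw [r.2]
      simp
    omega
  -- step 4
  have s4 : (finrank K (Hm A A) + finrank K (Hm A S)) + (finrank K (Hm S A) +
      finrank K (Hm S S)) ≤ finrank K (Hm (prodAut A S) (prodAut A S)) := by
    let F : ((Hm A A × Hm A S) × (Hm S A × Hm S S)) →ₗ[K] (M₁ × M₂ →ₗ[K] M₁ × M₂) :=
      LinearMap.coprod
        ((LinearMap.coprod
          ((LinearMap.llcomp K (M₁ × M₂) M₁ (M₁ × M₂) (LinearMap.inl K M₁ M₂)) ∘ₗ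
            (LinearMap.lcomp K M₁ (LinearMap.fst K M₁ M₂)) ∘ₗ (Hm A A).subtype)
          ((LinearMap.llcomp K (M₁ × M₂) M₂ (M₁ × M₂) (LinearMap.inr K M₁ M₂)) ∘ₗ
            (LinearMap.lcomp K M₂ (LinearMap.fst K M₁ M₂)) ∘ₗ (Hm A S).subtype)))
        ((LinearMap.coprod
          ((LinearMap.llcomp K (M₁ × M₂) M₁ (M₁ × M₂) (LinearMap.inl K M₁ M₂)) ∘ₗ
            (LinearMap.lcomp K M₁ (LinearMap.snd K M₁ M₂)) ∘ₗ (Hm S A).subtype)
          ((LinearMap.llcomp K (M₁ × M₂) M₂ (M₁ × M₂) (LinearMap.inr K M₁ M₂)) ∘ₗ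
            (LinearMap.lcomp K M₂ (LinearMap.snd K M₁ M₂)) ∘ₗ (Hm S S).subtype)))
    have hF : ∀ q x, F q x = (q.1.1.1 x.1 + q.2.1.1 x.2, q.1.2.1 x.1 + q.2.2.1 x.2) := by
      intro q x
      simp [F]
    have hFm : ∀ q, F q ∈ Hm (prodAut A S) (prodAut A S) := by
      intro q x
      have e1 := q.1.1.2 x.1
      have e2 := q.1.2.2 x.1
      have e3 := q.2.1.2 x.2
      have e4 := q.2.2.2 x.2
      rw [hF, hF]
      simp only [prodAut_apply, map_add]
      rw [e1, e2, e3, e4]
    let G := LinearMap.codRestrict (Hm (prodAut A S) (prodAut A S)) F hFm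
    have hG : Function.Injective G := by
      intro q r hq
      have hq' : ∀ x, F q x = F r x := by
        intro x
        have := congrArg Subtype.val hq
        exact LinearMap.congr_fun this x
      have hx : ∀ x, q.1.1.1 x = r.1.1.1 x ∧ q.1.2.1 x = r.1.2.1 x := by
        intro x
        have := hq' (x, 0)
        rw [hF, hF] at this
        simpa using this
      have hy : ∀ y, q.2.1.1 y = r.2.1.1 y ∧ q.2.2.1 y = r.2.2.1 y := by
        intro y
        have := hq' (0, y)
        rw [hF, hF] at this
        simpa using this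
      refine Prod.ext (Prod.ext ?_ ?_) (Prod.ext ?_ ?_)
      · exact Subtype.ext (LinearMap.ext fun x => (hx x).1)
      · exact Subtype.ext (LinearMap.ext fun x => (hx x).2)
      · exact Subtype.ext (LinearMap.ext fun x => (hy x).1)
      · exact Subtype.ext (LinearMap.ext fun x => (hy x).2)
    have := LinearMap.finrank_le_finrank_of_injective hG
    rwa [Module.finrank_prod, Module.finrank_prod, Module.finrank_prod] at this
  omega

end UT

variable {K : Type} [Field K] [Finite K] {A : Type} [CommRing A] [Algebra ℚ A]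

/-- the dimension of the endomorphism algebra of a class -/
noncomputable def hdim (C : Cls K) : ℕ :=
  finrank K (Hm (cA (C : ConjClasses (GLInf K))) (cA (C : ConjClasses (GLInf K))))

omit [Finite K] in
lemma hdim_cls {M : Type} [AddCommGroup M] [Module K M] [FiniteDimensional K M]
    (g : M ≃ₗ[K] M) : hdim (cls g) = finrank K (Hm g g) := by
  obtain ⟨e, he⟩ := cls_iso (cls_cA (cls g))
  have he' : ∀ x, e.symm (g x) = cA ((cls g : Cls K) : ConjClasses (GLInf K)) (e.symm x) := by
    intro x
    rw [LinearEquiv.symm_apply_eq, he, LinearEquiv.apply_symm_apply]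
  exact le_antisymm (finrank_Hm_le e he e he) (finrank_Hm_le e.symm he' e.symm he')

theorem IsPrim.eq_zero {φ : Hall K A} (h : IsPrim φ) (h0 : ∀ s : CycleIndex K, φ (cyc s) = 0) :
    φ = 0 := by
  have key : ∀ (n : ℕ) (C : Cls K), hdim C ≤ n → φ C = 0 := by
    intro n
    induction n using Nat.strong_induction_on with
    | _ n ih =>
      intro C hCn
      by_cases hC0 : C = 0
      · rw [hC0]; exact h.1
      rcases exists_decomp C hC0 with ⟨s, rfl⟩ | ⟨D, E, hD, hE, rfl⟩
      · exact h0 s
      have hres := h.2 D E hD hE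
      have hDE : D + E = cls (prodAut (cA (D : ConjClasses (GLInf K)))
          (cA (E : ConjClasses (GLInf K)))) := by
        rw [cls_prod, cls_cA, cls_cA]
      have hterm : ∀ X : cM (E : ConjClasses (GLInf K)) →ₗ[K] cM (D : ConjClasses (GLInf K)),
          cls (utAut (cA (D : ConjClasses (GLInf K))) (cA (E : ConjClasses (GLInf K))) X) ≠
            D + E →
          φ (cls (utAut (cA (D : ConjClasses (GLInf K))) (cA (E : ConjClasses (GLInf K))) X))
            = 0 := by
        intro X hX
        rw [hDE] at hX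
        have hlt := finrank_Hm_utAut_lt _ _ _ hX
        rw [← hdim_cls, ← hdim_cls, ← hDE] at hlt
        exact ih _ (lt_of_lt_of_le hlt hCn) _ le_rfl
      rw [res_def, resFun, smul_eq_zero_iff_right] at hres
      · classical
        rw [← Finset.sum_filter_add_sum_filter_not Finset.univ (fun X =>
          cls (utAut (cA (D : ConjClasses (GLInf K))) (cA (E : ConjClasses (GLInf K))) X) =
            D + E)] at hres
        rw [Finset.sum_eq_zero (s := Finset.univ.filter (fun X => ¬
          cls (utAut (cA (D : ConjClasses (GLInf K))) (cA (E : ConjClasses (GLInf K))) X) =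
            D + E)), add_zero] at hres
        · rw [Finset.sum_congr rfl (g := fun _ => φ (D + E)) (fun X hX => by
            rw [(Finset.mem_filter.1 hX).2]), Finset.sum_const] at hres
          have hcard : (Finset.univ.filter (fun X : cM (E : ConjClasses (GLInf K)) →ₗ[K]
              cM (D : ConjClasses (GLInf K)) =>
            cls (utAut (cA (D : ConjClasses (GLInf K))) (cA (E : ConjClasses (GLInf K))) X) =
            D + E)).card ≠ 0 := by
            apply Finset.card_ne_zero_of_mem (a := 0)
            rw [Finset.mem_filter]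
            refine ⟨Finset.mem_univ _, ?_⟩
            rw [utAut_zero, ← hDE]
          have h3 : ((Finset.univ.filter (fun X : cM (E : ConjClasses (GLInf K)) →ₗ[K]
              cM (D : ConjClasses (GLInf K)) =>
            cls (utAut (cA (D : ConjClasses (GLInf K))) (cA (E : ConjClasses (GLInf K))) X) =
            D + E)).card : ℚ) • φ (D + E) = 0 := by
            rw [Nat.cast_smul_eq_nsmul]; exact hres
          rwa [smul_eq_zero_iff_right (by exact_mod_cast hcard)] at h3
        · intro X hX
          exact hterm X (Finset.mem_filter.1 hX).2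
      · apply inv_ne_zero
        apply pow_ne_zero
        have : 0 < Nat.card K := Nat.card_pos
        exact_mod_cast this.ne'
  ext C
  exact key _ C le_rfl

end Pool.Agent.Lib.MP_02a407_al
end

section

/-!
# Primitive functions with given values at the single cycle classes
-/

namespace Pool.Agent.Lib.MP_02a407_al

open Module Polynomial

set_option linter.unusedSectionVars false

variable {K : Type} [Field K] [Finite K] {A : Type} [CommRing A] [Algebra ℚ A]

lemma IsPrim.zero : IsPrim (0 : Hall K A) :=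
  ⟨rfl, fun C D _ _ => by rw [map_zero]; rfl⟩

lemma IsPrim.add {φ ψ : Hall K A} (h : IsPrim φ) (h' : IsPrim ψ) : IsPrim (φ + ψ) :=
  ⟨by rw [Hall.add_apply, h.1, h'.1, add_zero], fun C D hC hD => by
    rw [map_add, Hall.add_apply, Hall.add_apply, h.2 C D hC hD, h'.2 C D hC hD, add_zero]⟩

lemma IsPrim.sub {φ ψ : Hall K A} (h : IsPrim φ) (h' : IsPrim ψ) : IsPrim (φ - ψ) :=
  ⟨by rw [Hall.sub_apply, h.1, h'.1, sub_zero], fun C D hC hD => by
    rw [map_sub, Hall.sub_apply, Hall.sub_apply, h.2 C D hC hD, h'.2 C D hC hD, sub_zero]⟩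

lemma res_smul (a : A) (φ : Hall K A) (C D : Cls K) : res (a • φ) C D = a * res φ C D := by
  rw [res_def, res_def, resFun, resFun]
  simp only [Hall.smul_apply, smul_eq_mul, ← Finset.mul_sum, mul_smul_comm]

lemma IsPrim.smul {φ : Hall K A} (h : IsPrim φ) (a : A) : IsPrim (a • φ) :=
  ⟨by rw [Hall.smul_apply, h.1, smul_zero], fun C D hC hD => by
    rw [res_smul, h.2 C D hC hD, mul_zero]⟩

lemma IsPrim.sum {ι : Type*} {s : Finset ι} {φ : ι → Hall K A} (h : ∀ i ∈ s, IsPrim (φ i)) :
    IsPrim (∑ i ∈ s, φ i) := by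
  classical
  induction s using Finset.induction_on with
  | empty => rw [Finset.sum_empty]; exact IsPrim.zero
  | insert i s hi ih =>
    rw [Finset.sum_insert hi]
    exact (h i (Finset.mem_insert_self _ _)).add
      (ih fun j hj => h j (Finset.mem_insert_of_mem hj))

lemma IsPrim.map {B : Type} [CommRing B] [Algebra ℚ B] (f : A →+* B) {φ : Hall K A}
    (h : IsPrim φ) : IsPrim (Hall.map f φ) :=
  ⟨by rw [Hall.map_apply, h.1, map_zero], fun C D hC hD => by
    rw [res_map, h.2 C D hC hD, map_zero]⟩

/-- The component of degree `m`. -/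
noncomputable def dpart (m : ℕ) (φ : Hall K A) : Hall K A :=
  fun C => if cl C = m then φ C else 0

lemma dpart_apply (m : ℕ) (φ : Hall K A) (C : Cls K) :
    dpart m φ C = if cl C = m then φ C else 0 := rfl

lemma dpart_of_eq {m : ℕ} {φ : Hall K A} {C : Cls K} (h : cl C = m) : dpart m φ C = φ C :=
  if_pos h

lemma dpart_of_ne {m : ℕ} {φ : Hall K A} {C : Cls K} (h : cl C ≠ m) : dpart m φ C = 0 :=
  if_neg h

lemma cl_utAut {M₁ M₂ : Type}
    [AddCommGroup M₁] [Module K M₁] [AddCommGroup M₂] [Module K M₂]
    [FiniteDimensional K M₁] [FiniteDimensional K M₂] (g : M₁ ≃ₗ[K] M₁) (h : M₂ ≃ₗ[K] M₂)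
    (X : M₂ →ₗ[K] M₁) : cl (cls (utAut g h X)) = cl (cls g) + cl (cls h) := by
  rw [cl_cls, cl_cls, cl_cls, Module.finrank_prod]

/-- `res φ C D` only depends on the values of `φ` in degree `cl C + cl D`. -/
lemma res_congr {φ ψ : Hall K A} {C D : Cls K}
    (h : ∀ E, cl E = cl C + cl D → φ E = ψ E) : res φ C D = res ψ C D := by
  rw [res_def, res_def, resFun, resFun]
  congr 1
  refine Finset.sum_congr rfl (fun X _ => h _ ?_)
  rw [cl_utAut, cls_cA, cls_cA]

lemma IsPrim.dpart {φ : Hall K A} (h : IsPrim φ) (m : ℕ) : IsPrim (dpart m φ) := by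
  refine ⟨?_, fun C D hC hD => ?_⟩
  · rw [dpart_apply, h.1, ite_self]
  · by_cases hm : cl C + cl D = m
    · rw [← h.2 C D hC hD]
      refine res_congr (fun E hE => dpart_of_eq ?_)
      rw [hE, hm]
    · have h0 : res (MP_02a407_al.dpart m φ) C D = res (0 : Hall K A) C D := by
        refine res_congr (fun E hE => dpart_of_ne ?_)
        rw [hE]
        exact hm
      rw [h0, map_zero]
      rfl

lemma exists_kappa (f : PIdx K) : ∃ κ : Hall K A, IsPrim κ ∧
    (∀ r, 1 ≤ r → κ (f.cyc r) = (f.deg : A)) ∧ ∀ f' : PIdx K, f' ≠ f → ∀ r, κ (f'.cyc r) = 0 := by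
  classical
  have hU := isGrp_prm (A := A) f
  obtain ⟨G, _, hG⟩ := exists_inv (prm A f) hU.1
  have hκU : (dg (prm A f) * G) * prm A f = dg (prm A f) := by
    rw [mul_assoc, mul_comm G, hG, mul_one]
  have hval : ∀ (f' : PIdx K) (r : ℕ), prm A f (f'.cyc r) = if r = 0 ∨ f' = f then 1 else 0 := by
    intro f' r
    simp only [prm, isPrmy_cyc]
  refine ⟨dg (prm A f) * G, isPrim_log hU hG, ?_, ?_⟩
  · intro r hr
    obtain ⟨r, rfl⟩ : ∃ t, r = t + 1 := ⟨r - 1, by omega⟩
    have h1 : evp f (prm A f) = PowerSeries.mk (fun _ => (1 : A)) := by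
      ext r
      rw [coeff_evp, hval, if_pos (Or.inr rfl), PowerSeries.coeff_mk]
    have h2 : evp f (dg (prm A f) * G) * evp f (prm A f) = evp f (dg (prm A f)) := by
      rw [← map_mul, hκU]
    have h3 : PowerSeries.mk (fun _ => (1 : A)) * (1 - PowerSeries.X) = 1 :=
      PowerSeries.mk_one_mul_one_sub_eq_one A
    have h4 : evp f (dg (prm A f) * G) = evp f (dg (prm A f)) * (1 - PowerSeries.X) := by
      rw [← h2, h1, mul_assoc, h3, mul_one]
    have h5 : ∀ t : ℕ, PowerSeries.coeff t (evp f (dg (prm A f))) = (t : A) * (f.deg : A) := by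
      intro t
      rw [coeff_evp, dg_apply, hval, if_pos (Or.inr rfl), PIdx.cl_cyc, Algebra.smul_def, mul_one]
      push_cast
      rfl
    have h6 := coeff_evp f (dg (prm A f) * G) (r + 1)
    rw [← h6, h4, mul_sub, mul_one, map_sub, PowerSeries.coeff_succ_mul_X, h5, h5]
    push_cast
    ring
  · intro f' hf' r
    have h1 : evp f' (prm A f) = 1 := by
      ext r
      rw [coeff_evp, hval, PowerSeries.coeff_one]
      simp [hf']
    have h2 : evp f' (dg (prm A f) * G) * evp f' (prm A f) = evp f' (dg (prm A f)) := by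
      rw [← map_mul, hκU]
    rw [h1, mul_one] at h2
    have h6 := coeff_evp f' (dg (prm A f) * G) r
    rw [← h6, h2, coeff_evp, dg_apply, hval]
    by_cases hr : r = 0
    · subst hr
      rw [PIdx.cl_cyc, Nat.zero_mul, Nat.cast_zero, zero_smul]
    · rw [if_neg (by simp [hr, hf']), smul_zero]

/-- There is a primitive function with given values at the single cycle classes. -/
theorem exists_prim (v : CycleIndex K → A) :
    ∃ φ : Hall K A, IsPrim φ ∧ ∀ s, φ (cyc s) = v s := by
  classical
  choose κ hκ hκ1 hκ0 using exists_kappa (K := K) (A := A)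
  have hfin : ∀ m : ℕ, {s : CycleIndex K | cl (cyc s) = m}.Finite := fun m =>
    Set.Finite.preimage (cyc_injective (K := K)).injOn (finite_classes (K := K) m)
  let T : ℕ → Finset (CycleIndex K) := fun m => (hfin m).toFinset
  have hT : ∀ m s, s ∈ T m ↔ cl (cyc s) = m := by
    intro m s
    simp only [T, Set.Finite.mem_toFinset]
    rfl
  let c : CycleIndex K → A := fun s => algebraMap ℚ A ((s.toP.deg : ℚ)⁻¹) * v s
  let φ : Hall K A := fun C => ∑ s ∈ T (cl C), c s * κ s.toP C
  have hφ : ∀ C, φ C = ∑ s ∈ T (cl C), c s * κ s.toP C := fun C => rfl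
  refine ⟨φ, ⟨?_, ?_⟩, ?_⟩
  · rw [hφ]
    exact Finset.sum_eq_zero fun s _ => by rw [(hκ s.toP).1, mul_zero]
  · intro C D hC hD
    have h1 : IsPrim (∑ s ∈ T (cl C + cl D), c s • κ s.toP) :=
      IsPrim.sum fun s _ => (hκ s.toP).smul (c s)
    rw [← h1.2 C D hC hD]
    refine res_congr fun E hE => ?_
    rw [hφ, hE, Hall.sum_apply]
    exact Finset.sum_congr rfl fun s _ => rfl
  · intro s
    rw [hφ, Finset.sum_eq_single s]
    · rw [cyc_eq s, hκ1 s.toP s.r s.pos]
      change algebraMap ℚ A ((s.toP.deg : ℚ)⁻¹) * v s * (s.toP.deg : A) = v s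
      have hd : (s.toP.deg : ℚ) ≠ 0 := by
        exact_mod_cast s.toP.deg_pos.ne'
      have h2 : algebraMap ℚ A ((s.toP.deg : ℚ)⁻¹) * (s.toP.deg : A) = 1 := by
        rw [← map_natCast (algebraMap ℚ A), ← map_mul, inv_mul_cancel₀ hd, map_one]
      calc algebraMap ℚ A ((s.toP.deg : ℚ)⁻¹) * v s * (s.toP.deg : A) =
          (algebraMap ℚ A ((s.toP.deg : ℚ)⁻¹) * (s.toP.deg : A)) * v s := by ring
        _ = v s := by rw [h2, one_mul]
    · intro t ht hts
      rw [hT] at ht
      by_cases hf : s.toP = t.toP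
      · exfalso
        apply hts
        apply cyc_injective
        rw [cyc_eq t, cyc_eq s, PIdx.cl_cyc, PIdx.cl_cyc, hf] at ht
        rw [cyc_eq t, cyc_eq s, hf, Nat.eq_of_mul_eq_mul_right t.toP.deg_pos ht]
      · rw [cyc_eq s, hκ0 t.toP s.toP hf, mul_zero]
    · intro h
      exact absurd ((hT _ _).2 rfl) h

/-- The primitive function with given values at the single cycle classes. -/
noncomputable def primOf (v : CycleIndex K → A) : Hall K A := (exists_prim v).choose

lemma isPrim_primOf (v : CycleIndex K → A) : IsPrim (primOf v) := (exists_prim v).choose_spec.1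

@[simp] lemma primOf_cyc (v : CycleIndex K → A) (s : CycleIndex K) : primOf v (cyc s) = v s :=
  (exists_prim v).choose_spec.2 s

lemma IsPrim.ext {φ ψ : Hall K A} (h : IsPrim φ) (h' : IsPrim ψ)
    (h0 : ∀ s : CycleIndex K, φ (cyc s) = ψ (cyc s)) : φ = ψ := by
  rw [← sub_eq_zero]
  exact (h.sub h').eq_zero (fun s => by rw [Hall.sub_apply, h0, sub_self])

lemma IsPrim.eq_primOf {φ : Hall K A} (h : IsPrim φ) : φ = primOf (fun s => φ (cyc s)) :=
  h.ext (isPrim_primOf _) (fun s => by rw [primOf_cyc])

lemma map_primOf {B : Type} [CommRing B] [Algebra ℚ B] (f : A →+* B) (v : CycleIndex K → A) :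
    Hall.map f (primOf v) = primOf (fun s => f (v s)) :=
  ((isPrim_primOf v).map f).ext (isPrim_primOf _) (fun s => by
    rw [Hall.map_apply, primOf_cyc, primOf_cyc])

lemma primOf_add (v w : CycleIndex K → A) :
    primOf v + primOf w = primOf (fun s => v s + w s) :=
  ((isPrim_primOf v).add (isPrim_primOf w)).ext (isPrim_primOf _) (fun s => by
    rw [Hall.add_apply, primOf_cyc, primOf_cyc, primOf_cyc])

lemma primOf_smul (a : A) (v : CycleIndex K → A) :
    a • primOf v = primOf (fun s => a * v s) :=
  ((isPrim_primOf v).smul a).ext (isPrim_primOf _) (fun s => by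
    rw [Hall.smul_apply, primOf_cyc, primOf_cyc, smul_eq_mul])

lemma primOf_sum {ι : Type*} (t : Finset ι) (v : ι → CycleIndex K → A) :
    ∑ i ∈ t, primOf (v i) = primOf (fun s => ∑ i ∈ t, v i s) :=
  (IsPrim.sum fun i _ => isPrim_primOf (v i)).ext (isPrim_primOf _) (fun s => by
    rw [Hall.sum_apply, primOf_cyc]
    exact Finset.sum_congr rfl fun i _ => primOf_cyc _ _)

lemma primOf_dpart (m : ℕ) (v : CycleIndex K → A) :
    dpart m (primOf v) = primOf (fun s => if cl (cyc s) = m then v s else 0) :=
  ((isPrim_primOf v).dpart m).ext (isPrim_primOf _) (fun s => by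
    rw [dpart_apply, primOf_cyc, primOf_cyc])

end Pool.Agent.Lib.MP_02a407_al
end
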