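import Pool.Agent.Lib.MP_02a407_al.Main

/-!
# Stable subspaces, restriction and quotient of automorphisms
-/

namespace Pool.Agent.Lib.MP_02a407_al

open Module

variable {K : Type} [Field K]

section

variable {M : Type} [AddCommGroup M] [Module K M] {N : Type} [AddCommGroup N] [Module K N]

/-- The subspaces of `M` stable under `A` (and under its inverse). -/
def Stab (A : M ≃ₗ[K] M) : Type := {W : Submodule K M // ∀ x, A x ∈ W ↔ x ∈ W}

namespace Stab

/-- The underlying subspace. -/
def space {A : M ≃ₗ[K] M} (W : Stab A) : Submodule K M := W.1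

lemma mem_iff {A : M ≃ₗ[K] M} (W : Stab A) (x : M) : A x ∈ W.space ↔ x ∈ W.space := W.2 x

@[ext] lemma ext {A : M ≃ₗ[K] M} {W W' : Stab A} (h : W.space = W'.space) : W = W' :=
  Subtype.ext h

/-- The restriction of `A` to a stable subspace. -/
def sub {A : M ≃ₗ[K] M} (W : Stab A) : W.space ≃ₗ[K] W.space where
  toFun x := ⟨A x, (W.mem_iff x).2 x.2⟩
  map_add' x y := Subtype.ext (map_add A _ _)
  map_smul' c x := Subtype.ext (map_smul A _ _)
  invFun x := ⟨A.symm x, (W.mem_iff _).1 (by rw [A.apply_symm_apply]; exact x.2)⟩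
  left_inv x := Subtype.ext (A.symm_apply_apply _)
  right_inv x := Subtype.ext (A.apply_symm_apply _)

@[simp] lemma coe_sub {A : M ≃ₗ[K] M} (W : Stab A) (x : W.space) :
    ((W.sub x : W.space) : M) = A x := rfl

lemma map_space {A : M ≃ₗ[K] M} (W : Stab A) : W.space.map (A : M →ₗ[K] M) = W.space := by
  ext y
  constructor
  · rintro ⟨x, hx, rfl⟩
    exact (W.mem_iff x).2 hx
  · intro hy
    exact ⟨A.symm y, (W.mem_iff _).1 (by rw [A.apply_symm_apply]; exact hy),
      A.apply_symm_apply y⟩

/-- The automorphism of the quotient by a stable subspace. -/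
noncomputable def quo {A : M ≃ₗ[K] M} (W : Stab A) : (M ⧸ W.space) ≃ₗ[K] (M ⧸ W.space) :=
  Submodule.Quotient.equiv W.space W.space A W.map_space

@[simp] lemma quo_mk {A : M ≃ₗ[K] M} (W : Stab A) (x : M) :
    W.quo (Submodule.Quotient.mk x) = Submodule.Quotient.mk (A x) := rfl

/-- A subspace stable under `A` in the weak sense is stable, in finite dimension. -/
def ofLE [FiniteDimensional K M] {A : M ≃ₗ[K] M} (W : Submodule K M) (h : ∀ x ∈ W, A x ∈ W) :
    Stab A := ⟨W, fun x => ⟨fun hx => by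
      have hle : W.map (A : M →ₗ[K] M) ≤ W := by
        rintro _ ⟨y, hy, rfl⟩
        exact h y hy
      have heq : W.map (A : M →ₗ[K] M) = W :=
        Submodule.eq_of_le_of_finrank_eq hle (LinearEquiv.finrank_map_eq A W)
      rw [← heq] at hx
      obtain ⟨y, hy, hyx⟩ := hx
      rwa [← A.injective hyx], h x⟩⟩

@[simp] lemma space_ofLE [FiniteDimensional K M] {A : M ≃ₗ[K] M} (W : Submodule K M)
    (h : ∀ x ∈ W, A x ∈ W) : (ofLE (A := A) W h).space = W := rfl

instance finite [Finite K] [FiniteDimensional K M] (A : M ≃ₗ[K] M) : Finite (Stab A) := by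
  have : Finite M := Module.finite_of_finite K
  have : Finite (Submodule K M) := Finite.of_injective (fun W : Submodule K M => (W : Set M))
    SetLike.coe_injective
  exact Subtype.finite

noncomputable instance fintype [Finite K] [FiniteDimensional K M] (A : M ≃ₗ[K] M) :
    Fintype (Stab A) := Fintype.ofFinite _

/-- The whole space. -/
def top (A : M ≃ₗ[K] M) : Stab A := ⟨⊤, fun _ => by simp⟩

/-- The zero subspace. -/
def bot (A : M ≃ₗ[K] M) : Stab A := ⟨⊥, fun x => by simp⟩

@[simp] lemma space_top (A : M ≃ₗ[K] M) : (top A).space = ⊤ := rfl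

@[simp] lemma space_bot (A : M ≃ₗ[K] M) : (bot A).space = ⊥ := rfl

/-- Transport of stable subspaces along an isomorphism. -/
def congr {A : M ≃ₗ[K] M} {B : N ≃ₗ[K] N} (e : M ≃ₗ[K] N) (he : ∀ x, e (A x) = B (e x)) :
    Stab A ≃ Stab B where
  toFun W := ⟨W.space.map (e : M →ₗ[K] N), fun y => by
    obtain ⟨x, rfl⟩ := e.surjective y
    rw [← he]
    simp only [Submodule.mem_map_equiv, LinearEquiv.symm_apply_apply]
    exact W.mem_iff x⟩
  invFun W := ⟨W.space.comap (e : M →ₗ[K] N), fun x => by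
    simp only [Submodule.mem_comap, LinearEquiv.coe_coe, he]
    exact W.mem_iff (e x)⟩
  left_inv W := by
    apply Subtype.ext
    exact Submodule.comap_map_eq_of_injective e.injective _
  right_inv W := by
    apply Subtype.ext
    exact Submodule.map_comap_eq_of_surjective e.surjective _

@[simp] lemma space_congr {A : M ≃ₗ[K] M} {B : N ≃ₗ[K] N} (e : M ≃ₗ[K] N)
    (he : ∀ x, e (A x) = B (e x)) (W : Stab A) :
    (congr e he W).space = W.space.map (e : M →ₗ[K] N) := rfl

end Stab

end

section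

variable {M : Type} [AddCommGroup M] [Module K M] [FiniteDimensional K M]
  {N : Type} [AddCommGroup N] [Module K N] [FiniteDimensional K N]

lemma cls_congr {A : M ≃ₗ[K] M} {B : N ≃ₗ[K] N} (e : M ≃ₗ[K] N)
    (he : ∀ x, e (A x) = B (e x)) : cls A = cls B := ofType_congr e he

lemma cls_iso {A : M ≃ₗ[K] M} {B : N ≃ₗ[K] N} (h : cls A = cls B) :
    ∃ e : M ≃ₗ[K] N, ∀ x, e (A x) = B (e x) := ofType_iso h

lemma cls_cA (C : Cls K) : cls (cA (C : ConjClasses (GLInf K))) = C := ofType_cA C

lemma cl_cls (A : M ≃ₗ[K] M) : cl (cls A) = finrank K M := clen_ofType A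

lemma finrank_cM' (C : Cls K) : finrank K (cM (C : ConjClasses (GLInf K))) = cl C := finrank_cM C

lemma cls_eq_zero_iff (A : M ≃ₗ[K] M) : cls A = 0 ↔ Subsingleton M := by
  constructor
  · intro h
    have h1 := cl_cls A
    rw [h, cl_zero] at h1
    exact Module.finrank_zero_iff.1 h1.symm
  · intro h
    exact cls_subsingleton A

lemma cl_eq_zero_iff (C : Cls K) : cl C = 0 ↔ C = 0 := by
  constructor
  · intro h
    rw [← cls_cA C, cls_eq_zero_iff]
    rw [← finrank_cM' C] at h
    exact Module.finrank_zero_iff.1 h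
  · rintro rfl
    exact cl_zero

lemma Stab.cls_sub_congr {A : M ≃ₗ[K] M} {B : N ≃ₗ[K] N} (e : M ≃ₗ[K] N)
    (he : ∀ x, e (A x) = B (e x)) (W : Stab A) : cls (Stab.congr e he W).sub = cls W.sub := by
  symm
  refine cls_congr (e.submoduleMap W.space) ?_
  intro x
  apply Subtype.ext
  exact he x

lemma Stab.cls_quo_congr {A : M ≃ₗ[K] M} {B : N ≃ₗ[K] N} (e : M ≃ₗ[K] N)
    (he : ∀ x, e (A x) = B (e x)) (W : Stab A) : cls (Stab.congr e he W).quo = cls W.quo := by
  symm
  refine cls_congr (Submodule.Quotient.equiv W.space (Stab.congr e he W).space e rfl) ?_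
  intro x
  obtain ⟨y, rfl⟩ := Submodule.Quotient.mk_surjective _ x
  rw [Stab.quo_mk]
  change Submodule.Quotient.mk (e (A y)) = Submodule.Quotient.mk (B (e y))
  rw [he]

/-- Sums over stable subspaces only depend on the class. -/
lemma sum_stab_congr [Finite K] {β : Type*} [AddCommMonoid β] (F : Cls K → Cls K → β)
    {A : M ≃ₗ[K] M} {B : N ≃ₗ[K] N} (h : cls A = cls B) :
    ∑ W : Stab A, F (cls W.sub) (cls W.quo) = ∑ W : Stab B, F (cls W.sub) (cls W.quo) := by
  obtain ⟨e, he⟩ := cls_iso h
  refine Fintype.sum_equiv (Stab.congr e he) _ _ (fun W => ?_)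
  rw [Stab.cls_sub_congr, Stab.cls_quo_congr]

lemma Stab.cl_sub_add_quo {A : M ≃ₗ[K] M} (W : Stab A) :
    cl (cls W.sub) + cl (cls W.quo) = finrank K M := by
  rw [cl_cls, cl_cls, add_comm]
  exact Submodule.finrank_quotient_add_finrank _

end

/-- `∑_W F(W, M/W)` over the stable subspaces of the type `C`. -/
noncomputable def ssum [Finite K] {β : Type*} [AddCommMonoid β] (F : Cls K → Cls K → β)
    (C : Cls K) : β := ∑ W : Stab (cA (C : ConjClasses (GLInf K))), F (cls W.sub) (cls W.quo)

lemma ssum_cls [Finite K] {M : Type} [AddCommGroup M] [Module K M] [FiniteDimensional K M]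
    {β : Type*} [AddCommMonoid β] (F : Cls K → Cls K → β) (A : M ≃ₗ[K] M) :
    ssum F (cls A) = ∑ W : Stab A, F (cls W.sub) (cls W.quo) :=
  sum_stab_congr F (cls_cA (cls A))

end Pool.Agent.Lib.MP_02a407_al
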